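import Pool.Agent.U3.Stmts
import Pool.Agent.QJ.Ops
import Pool.Agent.QJ.Dom

/-!
# Module ALTS: symmetric functions on `{a + b + c = s}` with the two recursions
-/

open Complex MeasureTheory Filter Topology Set
open scoped ContDiff

namespace U3

open QE QJ

namespace ALTS

section

variable {X : Type} [AddCommGroup X] {e : ℤ → ℤ → ℤ → X} {s : ℤ}

/-- translation invariance, one step -/
theorem step
    (h3 : ∀ a b c, a + b + c = s - 1 → e (a + 1) b c + e a (b + 1) c + e a b (c + 1) = 0)
    (h4 : ∀ a b c, a + b + c = s + 1 → e (a - 1) b c + e a (b - 1) c + e a b (c - 1) = 0)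
    (a b c : ℤ) (h : a + b + c = s) : e (a + 1) (b + 1) (c - 2) = e a b c := by
  have e1 := h3 a b (c - 1) (by omega)
  have e2 := h4 (a + 1) (b + 1) (c - 1) (by omega)
  have r1 : c - 1 + 1 = c := by ring
  have r2 : a + 1 - 1 = a := by ring
  have r3 : b + 1 - 1 = b := by ring
  have r4 : c - 1 - 1 = c - 2 := by ring
  rw [r1] at e1
  rw [r2, r3, r4] at e2
  have e3 : e (a + 1) (b + 1) (c - 2) - e a b c =
      (e a (b + 1) (c - 1) + e (a + 1) b (c - 1) + e (a + 1) (b + 1) (c - 2)) -
      (e (a + 1) b (c - 1) + e a (b + 1) (c - 1) + e a b c) := by abel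
  rw [e1, e2, sub_zero] at e3
  exact sub_eq_zero.1 e3

/-- translation invariance -/
theorem tr1
    (h3 : ∀ a b c, a + b + c = s - 1 → e (a + 1) b c + e a (b + 1) c + e a b (c + 1) = 0)
    (h4 : ∀ a b c, a + b + c = s + 1 → e (a - 1) b c + e a (b - 1) c + e a b (c - 1) = 0)
    (i : ℤ) (a b c : ℤ) (h : a + b + c = s) : e (a + i) (b + i) (c - 2 * i) = e a b c := by
  induction i using Int.induction_on with
  | zero => simp
  | succ i ih =>
    rw [← ih]
    have := step h3 h4 (a + i) (b + i) (c - 2 * i) (by omega)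
    rw [← this]
    congr 1 <;> ring
  | pred i ih =>
    rw [← ih]
    have := step h3 h4 (a + (-i - 1)) (b + (-i - 1)) (c - 2 * (-i - 1)) (by omega)
    rw [← this]
    congr 1 <;> ring

/-- functions on the plane only depend on the class modulo the lattice -/
theorem cls (h2 : ∀ a b c, e a c b = e a b c)
    (h3 : ∀ a b c, a + b + c = s - 1 → e (a + 1) b c + e a (b + 1) c + e a b (c + 1) = 0)
    (h4 : ∀ a b c, a + b + c = s + 1 → e (a - 1) b c + e a (b - 1) c + e a b (c - 1) = 0)
    (a b c a' b' c' j : ℤ) (h : a + b + c = s) (h' : a' + b' + c' = s)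
    (hj : a' - a - (b' - b) = 3 * j) : e a' b' c' = e a b c := by
  have e1 := tr1 h3 h4 (a' - a - j) a b c h
  have e2 := tr1 h3 h4 j (a + (a' - a - j)) (c - 2 * (a' - a - j)) (b + (a' - a - j)) (by omega)
  rw [h2 _ (b + (a' - a - j)) (c - 2 * (a' - a - j)), e1] at e2
  rw [← e2, h2]
  congr 1 <;> omega

end

end ALTS

theorem stmtAltS (hAlt : QJ.StmtAlt) : StmtAltS := by
  intro X _ _ e s h1 h2 h3 h4 a b c h
  by_cases hs : (3 : ℤ) ∣ s
  · rw [if_pos hs]
    have hm : 3 * (s / 3) = s := Int.mul_ediv_cancel' hs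
    set m := s / 3 with hmdef
    have e1 := hAlt X (fun a b c => e (a + m) (b + m) (c + m)) (fun a b c => h1 _ _ _)
      (fun a b c => h2 _ _ _)
      (fun a b c h => by
        have := h3 (a + m) (b + m) (c + m) (by omega)
        show e (a + 1 + m) (b + m) (c + m) + e (a + m) (b + 1 + m) (c + m)
          + e (a + m) (b + m) (c + 1 + m) = 0
        rw [show a + 1 + m = a + m + 1 by ring, show b + 1 + m = b + m + 1 by ring,
          show c + 1 + m = c + m + 1 by ring]
        exact this)
      (fun a b c h => by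
        have := h4 (a + m) (b + m) (c + m) (by omega)
        show e (a - 1 + m) (b + m) (c + m) + e (a + m) (b - 1 + m) (c + m)
          + e (a + m) (b + m) (c - 1 + m) = 0
        rw [show a - 1 + m = a + m - 1 by ring, show b - 1 + m = b + m - 1 by ring,
          show c - 1 + m = c + m - 1 by ring]
        exact this) (a - m) (b - m) (c - m) (by omega)
    simp only [sub_add_cancel, zero_add] at e1
    rw [e1]
    congr 1
    unfold cl3
    rw [sub_sub_sub_cancel_right]
  · rw [if_neg hs]
    have e0 := h3 (a - 1) b c (by omega)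
    rw [sub_add_cancel] at e0
    have rot1 : e b c a = e a b c := by rw [h2 b a c, h1 a b c]
    have rot2 : e c a b = e a b c := by rw [h1 a c b, h2 a b c]
    have hmod : s % 3 = 1 ∨ s % 3 = 2 := by omega
    have key : e (a - 1) (b + 1) c = e a b c ∧ e (a - 1) b (c + 1) = e a b c := by
      rcases hmod with hr | hr
      · constructor
        · rw [← rot2]
          exact ALTS.cls h2 h3 h4 c a b (a - 1) (b + 1) c ((a - 1 - c - (b + 1 - a)) / 3)
            (by omega) (by omega) (by omega)
        · rw [← rot1]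
          exact ALTS.cls h2 h3 h4 b c a (a - 1) b (c + 1) ((a - 1 - b - (b - c)) / 3)
            (by omega) (by omega) (by omega)
      · constructor
        · rw [← rot1]
          exact ALTS.cls h2 h3 h4 b c a (a - 1) (b + 1) c ((a - 1 - b - (b + 1 - c)) / 3)
            (by omega) (by omega) (by omega)
        · rw [← rot2]
          exact ALTS.cls h2 h3 h4 c a b (a - 1) b (c + 1) ((a - 1 - c - (b - a)) / 3)
            (by omega) (by omega) (by omega)
    rw [key.1, key.2] at e0
    have e5 : (3 : ℂ) • e a b c = 0 := by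
      rw [← e0, show (3 : ℂ) = 1 + 1 + 1 by norm_num, add_smul, add_smul, one_smul]
    exact (smul_eq_zero.1 e5).resolve_left (by norm_num)

end U3
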