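import Pool.Agent.U3.Stmts
import Pool.Agent.QJ.Ops
import Pool.Agent.QJ.Dom

/-!
APX: the mollifier is an approximate identity.
-/

open Complex MeasureTheory Filter Topology Set
open scoped ContDiff

namespace U3

open QE QJ

noncomputable section

namespace APX

variable {β : ℝ → ℝ} {σ : ℂ → ℝ} {ζ : ℂ → ℂ}

lemma sig_cd (hσ : ContDiff ℝ ∞ σ) : ContDiff ℝ ∞ (fun w => (σ w : ℂ)) :=
  ofRealCLM.contDiff.comp hσ

lemma sg_cont (hσ : ContDiff ℝ ∞ σ) : Continuous (sg σ) := (contDiff_dz (sig_cd hσ)).continuous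

lemma ta_cont (hσ : ContDiff ℝ ∞ σ) (w : ℂ) : Continuous (fun z => ta σ z w) := by
  unfold ta
  have h2 : Continuous (fun z : ℂ => ((sg σ z + sg σ w) * (w - z)).im) :=
    Complex.continuous_im.comp
      (((sg_cont hσ).add continuous_const).mul (continuous_const.sub continuous_id))
  exact Complex.continuous_exp.comp ((Complex.continuous_ofReal.comp h2).mul continuous_const)

lemma ta_ne (z w : ℂ) : ta σ z w ≠ 0 := Complex.exp_ne_zero _

lemma ta_self (w : ℂ) : ta σ w w = 1 := by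
  unfold ta
  simp

lemma ta_norm (z w : ℂ) (k : ℤ) : ‖(ta σ z w)⁻¹ ^ k‖ = 1 := by
  have h : ‖ta σ z w‖ = 1 := by
    unfold ta
    exact Complex.norm_exp_ofReal_mul_I _
  rw [norm_zpow, norm_inv, h, inv_one, one_zpow]

lemma taz_cont (hσ : ContDiff ℝ ∞ σ) (w : ℂ) (k : ℤ) :
    Continuous (fun z => (ta σ z w)⁻¹ ^ k) :=
  ((ta_cont hσ w).inv₀ fun z => ta_ne z w).zpow₀ k fun z => Or.inl (inv_ne_zero (ta_ne z w))

/-- Change of variables. -/
lemma cov {E : Type*} [NormedAddCommGroup E] [NormedSpace ℝ E] (f : ℂ → E) (w : ℂ) {ε : ℝ}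
    (hε : 0 < ε) : ∫ z, f z = ∫ y, (ε ^ 2) • f (w + ε • y) := by
  have h1 : ∫ y : ℂ, f (w + ε • y) = |(ε ^ 2)⁻¹| • ∫ x, f (w + x) := by
    have h := MeasureTheory.Measure.integral_comp_smul (volume : Measure ℂ) (fun x => f (w + x)) ε
    rw [Complex.finrank_real_complex] at h
    exact h
  rw [integral_smul, h1, abs_of_pos (by positivity), smul_smul, mul_inv_cancel₀ (by positivity),
    one_smul, integral_add_left_eq_self f w]

/-- The rescaled kernel. -/
def kr (β : ℝ → ℝ) (σ : ℂ → ℝ) (ε : ℝ) (w y : ℂ) : ℝ :=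
  Real.exp (2 * σ w) * β (Real.exp (σ (w + ε • y) + σ w) * ‖y‖ ^ 2)

lemma ke_eq {ε : ℝ} (hε : 0 < ε) (w y : ℂ) : ε ^ 2 * ke β σ ε (w + ε • y) w = kr β σ ε w y := by
  unfold ke gb kr r2
  have h1 : ‖w - (w + ε • y)‖ = ε * ‖y‖ := by
    have : w - (w + ε • y) = -(ε • y) := by ring
    rw [this, norm_neg, norm_smul, Real.norm_of_nonneg hε.le]
  have h2 : Real.exp (σ (w + ε • y) + σ w) * ‖w - (w + ε • y)‖ ^ 2 / ε ^ 2
      = Real.exp (σ (w + ε • y) + σ w) * ‖y‖ ^ 2 := by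
    rw [h1]
    field_simp
  rw [h2]
  field_simp

lemma beta_bdd (hβ : Bump β) : ∃ B : ℝ, 0 ≤ B ∧ ∀ t, 0 ≤ t → β t ≤ B := by
  obtain ⟨B, hB⟩ := (isCompact_Icc (a := (0 : ℝ)) (b := 1)).exists_bound_of_continuousOn
    hβ.smooth.continuous.continuousOn
  have hB0 : 0 ≤ B := (norm_nonneg _).trans (hB 0 ⟨le_refl _, zero_le_one⟩)
  refine ⟨B, hB0, fun t ht => ?_⟩
  by_cases h : t ≤ 1
  · exact (le_abs_self _).trans (hB t ⟨ht, h⟩)
  · rw [hβ.supp t (not_le.1 h).le]
    exact hB0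

lemma kr_nonneg (hβ : Bump β) (ε : ℝ) (w y : ℂ) : 0 ≤ kr β σ ε w y :=
  mul_nonneg (Real.exp_pos _).le (hβ.nonneg _)

lemma ptw (hβ : Bump β) {B C M N : ℝ} (hB : ∀ t, 0 ≤ t → β t ≤ B)
    (hC : ∀ z, ‖ζ z‖ ≤ C) (hM : ∀ z ∈ tsupport ζ, |σ z| ≤ M) {w : ℂ} (hN : |σ w| ≤ N)
    (ε : ℝ) (y : ℂ) :
    ‖ζ (w + ε • y)‖ * kr β σ ε w y ≤
      (Metric.closedBall (0 : ℂ) (Real.exp ((M + N) / 2))).indicator
        (fun _ => C * (Real.exp (2 * N) * B)) y := by
  have hC0 : 0 ≤ C := (norm_nonneg _).trans (hC 0)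
  by_cases hy : y ∈ Metric.closedBall (0 : ℂ) (Real.exp ((M + N) / 2))
  · rw [Set.indicator_of_mem hy]
    refine mul_le_mul (hC _) ?_ (kr_nonneg hβ ε w y) hC0
    unfold kr
    refine mul_le_mul ?_ (hB _ (by positivity)) (hβ.nonneg _) (Real.exp_pos _).le
    exact Real.exp_le_exp.2 (by linarith [le_abs_self (σ w)])
  · rw [Set.indicator_of_notMem hy]
    by_cases hz : ζ (w + ε • y) = 0
    · rw [hz, norm_zero, zero_mul]
    · have hs : w + ε • y ∈ tsupport ζ := subset_closure hz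
      have h1 := hM _ hs
      have hy' : Real.exp ((M + N) / 2) < ‖y‖ := by
        rw [mem_closedBall_zero_iff, not_le] at hy
        exact hy
      have h2 : Real.exp (M + N) ≤ ‖y‖ ^ 2 := by
        have h3 : Real.exp (M + N) = Real.exp ((M + N) / 2) ^ 2 := by
          rw [sq, ← Real.exp_add]
          congr 1
          ring
        rw [h3]
        exact pow_le_pow_left₀ (Real.exp_pos _).le hy'.le 2
      have h4 : 1 ≤ Real.exp (σ (w + ε • y) + σ w) * ‖y‖ ^ 2 := by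
        have h5 : Real.exp (-(M + N)) ≤ Real.exp (σ (w + ε • y) + σ w) :=
          Real.exp_le_exp.2 (by linarith [neg_abs_le (σ w), neg_abs_le (σ (w + ε • y))])
        calc (1 : ℝ) = Real.exp (-(M + N)) * Real.exp (M + N) := by
              rw [← Real.exp_add, neg_add_cancel, Real.exp_zero]
          _ ≤ _ := mul_le_mul h5 h2 (Real.exp_pos _).le (Real.exp_pos _).le
      have h6 : kr β σ ε w y = 0 := by
        unfold kr
        rw [hβ.supp _ h4, mul_zero]
      rw [h6, mul_zero]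

lemma int_bound (c r : ℝ) : Integrable ((Metric.closedBall (0 : ℂ) r).indicator fun _ => c) :=
  (integrable_indicator_iff measurableSet_closedBall).2
    (integrableOn_const (measure_closedBall_lt_top).ne)

lemma mass (hβ : Bump β) (w : ℂ) :
    ∫ y : ℂ, Real.exp (2 * σ w) * β (Real.exp (σ w + σ w) * ‖y‖ ^ 2) = 1 := by
  have h1 := cov (fun z : ℂ => β (‖z‖ ^ 2)) 0 (Real.exp_pos (σ w))
  rw [hβ.mass] at h1
  rw [h1]
  refine integral_congr_ae (Eventually.of_forall fun y => ?_)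
  have h2 : Real.exp (2 * σ w) = Real.exp (σ w) ^ 2 := by
    rw [sq, ← Real.exp_add]
    congr 1
    ring
  have h3 : ‖(0 : ℂ) + Real.exp (σ w) • y‖ ^ 2 = Real.exp (σ w + σ w) * ‖y‖ ^ 2 := by
    rw [zero_add, norm_smul, Real.norm_of_nonneg (Real.exp_pos _).le, mul_pow, sq (Real.exp (σ w)),
      ← Real.exp_add]
  change Real.exp (2 * σ w) * β (Real.exp (σ w + σ w) * ‖y‖ ^ 2)
    = Real.exp (σ w) ^ 2 • β (‖(0 : ℂ) + Real.exp (σ w) • y‖ ^ 2)
  rw [h3, h2, smul_eq_mul]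

lemma kr_cont (hβ : Bump β) (hσ : ContDiff ℝ ∞ σ) (w : ℂ) :
    Continuous (fun x : ℝ × ℂ => kr β σ x.1 w x.2) := by
  unfold kr
  have h1 := hβ.smooth.continuous
  have h2 := hσ.continuous
  fun_prop

end APX

open APX in
theorem stmtApx : StmtApx := by
  intro β σ k ζ hβ hσ hζ hζc
  obtain ⟨B, -, hB⟩ := beta_bdd hβ
  obtain ⟨C, hC⟩ := hζ.bounded_above_of_compact_support hζc
  have hζt : IsCompact (tsupport ζ) := hζc
  obtain ⟨M, hM'⟩ := hζt.exists_bound_of_continuousOn (f := σ) hσ.continuous.continuousOn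
  have hM : ∀ z ∈ tsupport ζ, |σ z| ≤ M := hM'
  constructor
  · intro w
    -- the rescaled integrand
    have hF : Continuous (fun x : ℝ × ℂ => ζ (w + x.1 • x.2) *
        ((kr β σ x.1 w x.2 : ℂ) * (ta σ (w + x.1 • x.2) w)⁻¹ ^ k)) := by
      have h0 : Continuous (fun x : ℝ × ℂ => w + x.1 • x.2) := by fun_prop
      have h1 : Continuous (fun x : ℝ × ℂ => ζ (w + x.1 • x.2)) := hζ.comp h0
      have h2 : Continuous (fun x : ℝ × ℂ => (kr β σ x.1 w x.2 : ℂ)) :=
        Complex.continuous_ofReal.comp (kr_cont hβ hσ w)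
      have h3 : Continuous (fun x : ℝ × ℂ => (ta σ (w + x.1 • x.2) w)⁻¹ ^ k) :=
        (taz_cont hσ w k).comp h0
      exact h1.mul (h2.mul h3)
    have hlim : Tendsto (fun ε : ℝ => ∫ y, ζ (w + ε • y) *
        ((kr β σ ε w y : ℂ) * (ta σ (w + ε • y) w)⁻¹ ^ k)) (𝓝[>] 0)
        (𝓝 (∫ y, ζ (w + (0 : ℝ) • y) *
          ((kr β σ 0 w y : ℂ) * (ta σ (w + (0 : ℝ) • y) w)⁻¹ ^ k))) := by
      refine tendsto_integral_filter_of_dominated_convergence
        ((Metric.closedBall (0 : ℂ) (Real.exp ((M + |σ w|) / 2))).indicator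
          (fun _ => C * (Real.exp (2 * |σ w|) * B))) ?_ ?_ (int_bound _ _) ?_
      · refine Eventually.of_forall fun ε => ?_
        exact (hF.comp (Continuous.prodMk_right ε)).aestronglyMeasurable
      · refine Eventually.of_forall fun ε => Eventually.of_forall fun y => ?_
        rw [norm_mul, norm_mul, ta_norm, mul_one, Complex.norm_real,
          Real.norm_of_nonneg (kr_nonneg hβ ε w y)]
        exact ptw hβ hB hC hM le_rfl ε y
      · refine Eventually.of_forall fun y => ?_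
        have h1 : Continuous (fun ε : ℝ => ζ (w + ε • y) *
            ((kr β σ ε w y : ℂ) * (ta σ (w + ε • y) w)⁻¹ ^ k)) :=
          hF.comp (Continuous.prodMk_left y)
        exact (h1.tendsto 0).mono_left nhdsWithin_le_nhds
    have hval : ∫ y, ζ (w + (0 : ℝ) • y) *
        ((kr β σ 0 w y : ℂ) * (ta σ (w + (0 : ℝ) • y) w)⁻¹ ^ k) = ζ w := by
      have h1 : ∀ y : ℂ, ζ (w + (0 : ℝ) • y) *
          ((kr β σ 0 w y : ℂ) * (ta σ (w + (0 : ℝ) • y) w)⁻¹ ^ k) = ζ w *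
          ((Real.exp (2 * σ w) * β (Real.exp (σ w + σ w) * ‖y‖ ^ 2) : ℝ) : ℂ) := by
        intro y
        unfold kr
        rw [zero_smul, add_zero, ta_self, inv_one, one_zpow, mul_one]
      rw [integral_congr_ae (Eventually.of_forall h1), integral_const_mul, integral_complex_ofReal,
        mass hβ w]
      simp
    rw [hval] at hlim
    refine hlim.congr' ?_
    filter_upwards [self_mem_nhdsWithin] with ε hε
    have hε' : (0 : ℝ) < ε := hε
    rw [cov (fun z => ζ z * ((ke β σ ε z w : ℂ) * (ta σ z w)⁻¹ ^ k)) w hε']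
    refine integral_congr_ae (Eventually.of_forall fun y => ?_)
    change ζ (w + ε • y) * ((kr β σ ε w y : ℂ) * (ta σ (w + ε • y) w)⁻¹ ^ k)
      = (ε ^ 2) • (ζ (w + ε • y) * ((ke β σ ε (w + ε • y) w : ℂ) * (ta σ (w + ε • y) w)⁻¹ ^ k))
    have h5 : ∀ (r : ℝ) (x : ℂ), r • x = (r : ℂ) * x := fun r x => Complex.real_smul
    rw [← ke_eq hε' w y, h5 (ε ^ 2)]
    push_cast
    ring
  · intro K hK
    obtain ⟨N, hN⟩ := hK.exists_bound_of_continuousOn (f := σ) hσ.continuous.continuousOn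
    refine ⟨∫ y, (Metric.closedBall (0 : ℂ) (Real.exp ((M + N) / 2))).indicator
      (fun _ => C * (Real.exp (2 * N) * B)) y, 1, one_pos, fun ε hε _ w hw => ?_⟩
    rw [cov (fun z => ‖ζ z‖ * ke β σ ε z w) w hε]
    have h1 : ∀ y : ℂ, (ε ^ 2) • (‖ζ (w + ε • y)‖ * ke β σ ε (w + ε • y) w)
        = ‖ζ (w + ε • y)‖ * kr β σ ε w y := by
      intro y
      rw [← ke_eq hε w y, smul_eq_mul]
      ring
    rw [integral_congr_ae (Eventually.of_forall h1)]
    refine integral_mono_of_nonneg (Eventually.of_forall fun y => ?_) (int_bound _ _)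
      (Eventually.of_forall fun y => ?_)
    · exact mul_nonneg (norm_nonneg _) (kr_nonneg hβ ε w y)
    · exact ptw hβ hB hC hM (hN w hw) ε y

end

end U3
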