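import Pool.Agent.U3.StmtsG

/-!
The area of the set of times at which two transversal geodesics are close (statement ARE).
-/

open MeasureTheory Filter Topology Set
open UpperHalfPlane hiding I
open scoped ContDiff MatrixGroups

namespace U3

open QE QE.NC QJ

namespace ARE

lemma w3_eq : w3 = Complex.exp (((2 * Real.pi / 3 : ℝ) : ℂ) * Complex.I) := by
  unfold w3
  congr 1
  push_cast
  ring

lemma w3_norm : ‖w3‖ = 1 := by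
  rw [w3_eq]
  exact Complex.norm_exp_ofReal_mul_I _

lemma w3_re : w3.re = -(1 / 2) := by
  rw [w3_eq, Complex.exp_ofReal_mul_I_re]
  have h : (2 * Real.pi / 3 : ℝ) = Real.pi - Real.pi / 3 := by ring
  rw [h, Real.cos_pi_sub, Real.cos_pi_div_three]

lemma w3_sq : w3.re ^ 2 + w3.im ^ 2 = 1 := by
  have h := Complex.sq_norm w3
  rw [w3_norm, Complex.normSq_apply] at h
  nlinarith [h]

/-- the real combinations of two unit vectors at 120 degrees -/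
lemma low (X Y : ℝ) : (|X| + |Y|) / 2 ≤ ‖(X : ℂ) - (Y : ℂ) * (starRingEnd ℂ) w3‖ := by
  have h1 : ‖(X : ℂ) - (Y : ℂ) * (starRingEnd ℂ) w3‖ ^ 2 = X ^ 2 + X * Y + Y ^ 2 := by
    rw [Complex.sq_norm, Complex.normSq_apply]
    have hs := w3_sq
    have hr := w3_re
    simp only [Complex.sub_re, Complex.sub_im, Complex.mul_re, Complex.mul_im, Complex.ofReal_re,
      Complex.ofReal_im, Complex.conj_re, Complex.conj_im]
    have : (X - (Y * w3.re - 0 * -w3.im)) * (X - (Y * w3.re - 0 * -w3.im)) +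
        (0 - (Y * -w3.im + 0 * w3.re)) * (0 - (Y * -w3.im + 0 * w3.re))
        = X ^ 2 - 2 * X * Y * w3.re + Y ^ 2 * (w3.re ^ 2 + w3.im ^ 2) := by ring
    rw [this, hs, hr]
    ring
  have h2 : ((|X| + |Y|) / 2) ^ 2 ≤ X ^ 2 + X * Y + Y ^ 2 := by
    have hX := sq_abs X
    have hY := sq_abs Y
    have hXY : -(|X| * |Y|) ≤ X * Y := by
      rw [← abs_mul]
      exact neg_abs_le _
    nlinarith [sq_nonneg (|X| - |Y|)]
  rw [← h1] at h2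
  exact le_of_sq_le_sq h2 (norm_nonneg _)

lemma angle (d d' : ℂ) (hd : ‖d‖ = 1)
    (h : ‖w3 * (Complex.I * (starRingEnd ℂ) d) - Complex.I * (starRingEnd ℂ) d'‖ ≤ 1 / 10)
    (X Y : ℝ) : 2 / 5 * (|X| + |Y|) ≤ ‖(X : ℂ) * d - (Y : ℂ) * d'‖ := by
  have h1 : ‖(starRingEnd ℂ) w3 * d - d'‖ ≤ 1 / 10 := by
    have e : w3 * (Complex.I * (starRingEnd ℂ) d) - Complex.I * (starRingEnd ℂ) d'
        = Complex.I * (starRingEnd ℂ) ((starRingEnd ℂ) w3 * d - d') := by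
      simp only [map_sub, map_mul, Complex.conj_conj]
      ring
    rw [e, norm_mul, Complex.norm_I, one_mul, Complex.norm_conj] at h
    exact h
  have h2 : (X : ℂ) * d - (Y : ℂ) * d'
      = ((X : ℂ) - (Y : ℂ) * (starRingEnd ℂ) w3) * d + (Y : ℂ) * ((starRingEnd ℂ) w3 * d - d') := by
    ring
  have h3 : ‖((X : ℂ) - (Y : ℂ) * (starRingEnd ℂ) w3) * d‖
      - ‖(Y : ℂ) * ((starRingEnd ℂ) w3 * d - d')‖ ≤ ‖(X : ℂ) * d - (Y : ℂ) * d'‖ := by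
    rw [h2]
    have := norm_sub_norm_le (((X : ℂ) - (Y : ℂ) * (starRingEnd ℂ) w3) * d)
      (-((Y : ℂ) * ((starRingEnd ℂ) w3 * d - d')))
    rw [norm_neg, sub_neg_eq_add] at this
    exact this
  have h4 : ‖((X : ℂ) - (Y : ℂ) * (starRingEnd ℂ) w3) * d‖
      = ‖(X : ℂ) - (Y : ℂ) * (starRingEnd ℂ) w3‖ := by
    rw [norm_mul, hd, mul_one]
  have h5 : ‖(Y : ℂ) * ((starRingEnd ℂ) w3 * d - d')‖ ≤ |Y| * (1 / 10) := by
    rw [norm_mul, Complex.norm_real, Real.norm_eq_abs]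
    exact mul_le_mul_of_nonneg_left h1 (abs_nonneg _)
  have h6 := low X Y
  have hX := abs_nonneg X
  have hY := abs_nonneg Y
  rw [h4] at h3
  linarith

lemma dirG_of_uG (g : SL(2, ℝ)) (h : ‖uG g‖ = 1) : ‖dirG g‖ = 1 := by
  unfold uG at h
  rw [norm_mul, Complex.norm_I, one_mul, Complex.norm_conj] at h
  exact h

/-- the speed -/
lemma vG_eq (ρ : ℍ → ℝ) (g : SL(2, ℝ)) (h : ‖uG g‖ = 1) :
    vG ρ g = ((‖vG ρ g‖ : ℝ) : ℂ) * dirG g := by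
  have h1 : 0 < Real.exp (-ρ (g • UpperHalfPlane.I)) * (pG g).im := by
    refine mul_pos (Real.exp_pos _) ?_
    exact (g • UpperHalfPlane.I : ℍ).im_pos
  have h2 : ‖vG ρ g‖ = Real.exp (-ρ (g • UpperHalfPlane.I)) * (pG g).im := by
    unfold vG
    rw [norm_mul, dirG_of_uG g h, mul_one, Complex.norm_real, Real.norm_eq_abs, abs_of_pos h1]
  rw [h2]
  rfl

/-- two curves with almost constant transversal velocities -/
lemma close {p q p' q' : ℝ → ℂ} {a b : ℂ} {T c ε : ℝ} (hc : 0 < c)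
    (hp : ∀ t, HasDerivAt p (p' t) t) (hq : ∀ t, HasDerivAt q (q' t) t)
    (hpa : ∀ t ∈ Icc 0 T, ‖p' t - a‖ ≤ c / 2) (hqb : ∀ t ∈ Icc 0 T, ‖q' t - b‖ ≤ c / 2)
    (hab : ∀ x y : ℝ, c * (|x| + |y|) ≤ ‖(x : ℂ) * a - (y : ℂ) * b‖)
    {s₀ t₀ s₁ t₁ : ℝ} (hs₀ : s₀ ∈ Icc 0 T) (ht₀ : t₀ ∈ Icc 0 T) (hs₁ : s₁ ∈ Icc 0 T)
    (ht₁ : t₁ ∈ Icc 0 T) (h0 : ‖p s₀ - q t₀‖ ≤ ε) (h1 : ‖p s₁ - q t₁‖ ≤ ε) :
    |s₁ - s₀| + |t₁ - t₀| ≤ 4 * ε / c := by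
  have mv : ∀ {f f' : ℝ → ℂ} {a : ℂ}, (∀ t, HasDerivAt f (f' t) t) →
      (∀ t ∈ Icc 0 T, ‖f' t - a‖ ≤ c / 2) → ∀ {x y : ℝ}, x ∈ Icc 0 T → y ∈ Icc 0 T →
      ‖(f y - f x) - ((y - x : ℝ) : ℂ) * a‖ ≤ c / 2 * |y - x| := by
    intro f f' a hf hfa x y hx hy
    have hd : ∀ t ∈ Icc 0 T, HasDerivWithinAt (fun t : ℝ => f t - (t : ℂ) * a) (f' t - a)
        (Icc 0 T) t := by
      intro t _
      have e1 : HasDerivAt (fun t : ℝ => (t : ℂ) * a) (1 * a) t :=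
        (Complex.ofRealCLM.hasDerivAt (x := t)).mul_const a
      rw [one_mul] at e1
      exact ((hf t).sub e1).hasDerivWithinAt
    have := (convex_Icc (0 : ℝ) T).norm_image_sub_le_of_norm_hasDerivWithin_le hd hfa hx hy
    have e2 : f y - (y : ℂ) * a - (f x - (x : ℂ) * a)
        = (f y - f x) - ((y - x : ℝ) : ℂ) * a := by
      push_cast
      ring
    rw [← e2]
    simpa [Real.norm_eq_abs] using this
  have hP := mv hp hpa hs₀ hs₁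
  have hQ := mv hq hqb ht₀ ht₁
  have hA := hab (s₁ - s₀) (t₁ - t₀)
  have key : ‖((s₁ - s₀ : ℝ) : ℂ) * a - ((t₁ - t₀ : ℝ) : ℂ) * b‖
      ≤ c / 2 * |s₁ - s₀| + c / 2 * |t₁ - t₀| + (ε + ε) := by
    have e : ((s₁ - s₀ : ℝ) : ℂ) * a - ((t₁ - t₀ : ℝ) : ℂ) * b
        = -((p s₁ - p s₀) - ((s₁ - s₀ : ℝ) : ℂ) * a)
          + ((q t₁ - q t₀) - ((t₁ - t₀ : ℝ) : ℂ) * b)
          + ((p s₁ - q t₁) - (p s₀ - q t₀)) := by ring
    rw [e]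
    refine (norm_add_le _ _).trans (add_le_add ((norm_add_le _ _).trans (add_le_add ?_ hQ))
      ((norm_sub_le _ _).trans (add_le_add h1 h0)))
    rw [norm_neg]
    exact hP
  rw [le_div_iff₀ hc]
  nlinarith [hA, key, abs_nonneg (s₁ - s₀), abs_nonneg (t₁ - t₀)]

lemma area {S : Set (ℝ × ℝ)} {r : ℝ} (hr : 0 ≤ r)
    (h : ∀ x ∈ S, ∀ y ∈ S, |y.1 - x.1| + |y.2 - x.2| ≤ r) :
    (volume : Measure (ℝ × ℝ)) S ≤ ENNReal.ofReal (4 * r ^ 2) := by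
  rcases S.eq_empty_or_nonempty with he | ⟨x, hx⟩
  · rw [he, measure_empty]
    exact zero_le
  · have hsub : S ⊆ Icc (x.1 - r) (x.1 + r) ×ˢ Icc (x.2 - r) (x.2 + r) := by
      intro y hy
      have h1 := h x hx y hy
      have h2 := abs_nonneg (y.1 - x.1)
      have h3 := abs_nonneg (y.2 - x.2)
      have h4 : |y.1 - x.1| ≤ r := by linarith
      have h5 : |y.2 - x.2| ≤ r := by linarith
      rw [abs_le] at h4 h5
      refine ⟨⟨?_, ?_⟩, ?_, ?_⟩ <;> linarith [h4.1, h4.2, h5.1, h5.2]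
    refine (measure_mono hsub).trans ?_
    rw [Measure.volume_eq_prod, Measure.prod_prod, Real.volume_Icc, Real.volume_Icc,
      ← ENNReal.ofReal_mul (by linarith)]
    refine ENNReal.ofReal_le_ofReal (le_of_eq ?_)
    ring

end ARE

open ARE in
theorem stmtAre (hVel : StmtVel) (hRot : StmtRot) : StmtAre := by
  intro Γ ρ Φ hF hΦ K hK
  obtain ⟨hvc, hv0, hder⟩ := hVel Γ ρ Φ hF hΦ
  have huG := hRot.2.2.1
  rcases K.eq_empty_or_nonempty with hKe | hKn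
  · exact ⟨1, 1, one_pos, one_pos, fun v hv => by simp [hKe] at hv⟩
  have hcV : Continuous fun p : ℝ × SL(2, ℝ) => vG ρ (Φ p.1 p.2) := hvc.comp hΦ.cont
  obtain ⟨k0, hk0⟩ := hKn
  have hne : (Icc (0 : ℝ) 1 ×ˢ K).Nonempty := ⟨(0, k0), ⟨le_refl _, zero_le_one⟩, hk0⟩
  obtain ⟨p0, hp0, hmin⟩ := ((isCompact_Icc : IsCompact (Icc (0 : ℝ) 1)).prod hK).exists_isMinOn
    hne hcV.norm.continuousOn
  have hm0 : 0 < ‖vG ρ (Φ p0.1 p0.2)‖ := norm_pos_iff.2 (hv0 _)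
  obtain ⟨m0, hm0e⟩ : ∃ m0, m0 = ‖vG ρ (Φ p0.1 p0.2)‖ := ⟨_, rfl⟩
  rw [← hm0e] at hm0
  have hlow : ∀ s ∈ Icc (0 : ℝ) 1, ∀ v ∈ K, m0 ≤ ‖vG ρ (Φ s v)‖ := by
    intro s hs v hv
    rw [hm0e]
    have h := isMinOn_iff.1 hmin (s, v) (Set.mk_mem_prod hs hv)
    exact h
  obtain ⟨c, hce⟩ : ∃ c, c = 2 / 5 * m0 := ⟨_, rfl⟩
  have hc : 0 < c := by rw [hce]; positivity
  have hopen : IsOpen {p : ℝ × SL(2, ℝ) | ‖vG ρ (Φ p.1 p.2) - vG ρ (Φ 0 p.2)‖ < c / 4} := by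
    refine isOpen_lt ?_ continuous_const
    exact (hcV.sub (hcV.comp (continuous_const.prodMk continuous_snd))).norm
  have hsub : ({(0 : ℝ)} : Set ℝ) ×ˢ K
      ⊆ {p : ℝ × SL(2, ℝ) | ‖vG ρ (Φ p.1 p.2) - vG ρ (Φ 0 p.2)‖ < c / 4} := by
    rintro ⟨s, v⟩ ⟨hs, hv⟩
    have hs' : s = 0 := hs
    subst hs'
    rw [Set.mem_ofPred_eq, sub_self, norm_zero]
    positivity
  obtain ⟨u, w, hu, hw, h0u, hKw, huw⟩ :=
    generalized_tube_lemma (isCompact_singleton : IsCompact ({(0 : ℝ)} : Set ℝ)) hK hopen hsub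
  obtain ⟨T0, hT0, hT0u⟩ := Metric.isOpen_iff.1 hu 0 (h0u rfl)
  obtain ⟨T, hTe⟩ : ∃ T, T = min 1 (T0 / 2) := ⟨_, rfl⟩
  have hT : 0 < T := by rw [hTe]; exact lt_min one_pos (by positivity)
  have hT1 : T ≤ 1 := by rw [hTe]; exact min_le_left _ _
  have hT2 : T ≤ T0 / 2 := by rw [hTe]; exact min_le_right _ _
  have hosc0 : ∀ s ∈ Icc (0 : ℝ) T, ∀ v ∈ K, ‖vG ρ (Φ s v) - vG ρ (Φ 0 v)‖ < c / 4 := by
    intro s hs v hv
    have hsu : s ∈ u := by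
      apply hT0u
      rw [Metric.mem_ball, Real.dist_eq, sub_zero, abs_of_nonneg hs.1]
      linarith [hs.2]
    have h := huw (Set.mk_mem_prod hsu (hKw hv))
    rw [Set.mem_ofPred_eq] at h
    exact h
  have hosc : ∀ v ∈ K, ∀ s ∈ Icc (0 : ℝ) T, ∀ s' ∈ Icc (0 : ℝ) T,
      ‖vG ρ (Φ s' v) - vG ρ (Φ s v)‖ ≤ c / 2 := by
    intro v hv s hs s' hs'
    have e : vG ρ (Φ s' v) - vG ρ (Φ s v)
        = (vG ρ (Φ s' v) - vG ρ (Φ 0 v)) - (vG ρ (Φ s v) - vG ρ (Φ 0 v)) := by ring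
    rw [e]
    refine (norm_sub_le _ _).trans ?_
    linarith [hosc0 s hs v hv, hosc0 s' hs' v hv]
  refine ⟨T, 64 / c ^ 2, hT, by positivity, ?_⟩
  intro v hv v' hv' ε hε
  have hmain := area (S := {x : ℝ × ℝ | x.1 ∈ Icc 0 T ∧ x.2 ∈ Icc 0 T ∧
        ‖pG (Φ x.1 v) - pG (Φ x.2 v')‖ ≤ ε ∧ ‖w3 * uG (Φ x.1 v) - uG (Φ x.2 v')‖ ≤ 1 / 10})
    (r := 4 * ε / c) (by positivity) (by
      rintro ⟨s₀, t₀⟩ ⟨hs₀, ht₀, h0, hw0⟩ ⟨s₁, t₁⟩ ⟨hs₁, ht₁, h1, _⟩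
      simp only at hs₀ ht₀ h0 hw0 hs₁ ht₁ h1 ⊢
      refine close (p := fun s => pG (Φ s v)) (q := fun s => pG (Φ s v'))
        (p' := fun s => vG ρ (Φ s v)) (q' := fun s => vG ρ (Φ s v'))
        (a := vG ρ (Φ s₀ v)) (b := vG ρ (Φ t₀ v')) (T := T) (c := c) (ε := ε) hc
        (fun t => hder v t) (fun t => hder v' t)
        (fun t ht => hosc v hv s₀ hs₀ t ht) (fun t ht => hosc v' hv' t₀ ht₀ t ht)
        ?_ hs₀ ht₀ hs₁ ht₁ h0 h1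
      intro x y
      have hA : m0 ≤ ‖vG ρ (Φ s₀ v)‖ := hlow s₀ ⟨hs₀.1, hs₀.2.trans hT1⟩ v hv
      have hB : m0 ≤ ‖vG ρ (Φ t₀ v')‖ := hlow t₀ ⟨ht₀.1, ht₀.2.trans hT1⟩ v' hv'
      have hang := angle (dirG (Φ s₀ v)) (dirG (Φ t₀ v')) (dirG_of_uG _ (huG _)) hw0
        (x * ‖vG ρ (Φ s₀ v)‖) (y * ‖vG ρ (Φ t₀ v')‖)
      have e : (x : ℂ) * vG ρ (Φ s₀ v) - (y : ℂ) * vG ρ (Φ t₀ v')
          = ((x * ‖vG ρ (Φ s₀ v)‖ : ℝ) : ℂ) * dirG (Φ s₀ v)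
            - ((y * ‖vG ρ (Φ t₀ v')‖ : ℝ) : ℂ) * dirG (Φ t₀ v') := by
        conv_lhs => rw [vG_eq ρ (Φ s₀ v) (huG _), vG_eq ρ (Φ t₀ v') (huG _)]
        push_cast
        ring
      rw [e]
      refine le_trans ?_ hang
      rw [abs_mul, abs_mul, abs_norm, abs_norm, hce]
      have hx := mul_le_mul_of_nonneg_left hA (abs_nonneg x)
      have hy := mul_le_mul_of_nonneg_left hB (abs_nonneg y)
      linarith)
  refine hmain.trans (ENNReal.ofReal_le_ofReal (le_of_eq ?_))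
  field_simp
  ring

end U3
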