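import Pool.Agent.U3.Stmts
import Pool.Agent.QJ.CAU

/-!
U3, step CAUB: Cauchy transforms of sequences dominated by densities with linear growth are bounded
in `L²` on compact sets.
-/

open Complex MeasureTheory Filter Topology Set
open scoped ContDiff ENNReal

namespace U3

open QE QJ

noncomputable section

open QJ.CAU in
/-- CAUB -/
theorem stmtCauB : StmtCauB := by
  intro K K' f C hK hK' hf hs hgr
  rcases K'.eq_empty_or_nonempty with rfl | ⟨z₀, hz₀⟩
  · exact ⟨0, by simp⟩
  have hc : ∀ n, HasCompactSupport (f n) := fun n => hK.of_isClosed_subset (isClosed_tsupport _) (hs n)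
  obtain ⟨s₀, hs₀, hsub⟩ : ∃ s₀ : ℝ, 0 < s₀ ∧ K ⊆ Metric.closedBall z₀ s₀ := by
    obtain ⟨r, hr⟩ := hK.isBounded.subset_closedBall z₀
    exact ⟨max r 1, by positivity, hr.trans (Metric.closedBall_subset_closedBall (le_max_left _ _))⟩
  have hC : 0 ≤ C := by
    obtain ⟨n, hn⟩ := hgr.exists
    have h1 := hn z₀ hz₀ 1 one_pos
    have h2 : 0 ≤ ∫ w in K ∩ Metric.closedBall z₀ 1, ‖f n w‖ := integral_nonneg fun w => norm_nonneg _
    linarith
  have hδ : (0 : ℝ) < 1 := one_pos
  set B : ℝ := 1 / (2 * Real.pi * 1) * (C * s₀) with hB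
  have hB0 : 0 ≤ B := by positivity
  set M : ℝ := (C * s₀ + C) * (∫ w, kr 1 w) * (C * s₀) with hM
  refine ⟨2 * M + 2 * (volume.real K' * B ^ 2), ?_⟩
  filter_upwards [hgr] with n hn
  -- `L¹` norm
  have hL1 : ∫ z, ‖f n z‖ ≤ C * s₀ := by
    have h1 := hn z₀ hz₀ s₀ hs₀
    rw [inter_eq_self_of_subset_left hsub] at h1
    have h2 : ∫ z, ‖f n z‖ = ∫ z in K, ‖f n z‖ := by
      rw [← integral_indicator hK.measurableSet]
      refine integral_congr_ae (Eventually.of_forall fun w => ?_)
      by_cases hw : w ∈ K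
      · simp only [indicator_of_mem hw]
      · have : f n w = 0 := image_eq_zero_of_notMem_tsupport fun h => hw (hs n h)
        simp only [indicator_of_notMem hw, this, norm_zero]
    rw [h2]
    exact h1
  have hcontk : Continuous (fun z => ∫ w, kd 1 w * f n (z - w)) := by
    have h1 := (hc n).continuous_convolution_right (ContinuousLinearMap.mul ℝ ℂ)
      ((continuous_kd hδ).locallyIntegrable (μ := volume)) (hf n).continuous
    have h2 : (fun z => ∫ w, kd 1 w * f n (z - w))
      = convolution (kd 1) (f n) (ContinuousLinearMap.mul ℝ ℂ) volume := by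
      funext z; rw [convolution_def]; rfl
    rw [h2]; exact h1
  have hkb : ∀ z, ‖∫ w, kd 1 w * f n (z - w)‖ ≤ B := by
    intro z
    have hi : Integrable (fun w => ‖f n (z - w)‖) :=
      (((hf n).continuous.integrable_of_hasCompactSupport (hc n)).norm).comp_sub_left z
    calc ‖∫ w, kd 1 w * f n (z - w)‖ ≤ ∫ w, ‖kd 1 w * f n (z - w)‖ :=
          norm_integral_le_integral_norm _
      _ ≤ ∫ w, 1 / (2 * Real.pi * 1) * ‖f n (z - w)‖ := by
          refine integral_mono_of_nonneg (Filter.Eventually.of_forall fun w => norm_nonneg _)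
            (hi.const_mul _) (Filter.Eventually.of_forall fun w => ?_)
          simp only [norm_mul]
          gcongr
          exact norm_kd_le hδ w
      _ = 1 / (2 * Real.pi * 1) * ∫ w, ‖f n w‖ := by
          rw [integral_const_mul, integral_sub_left_eq_self (fun w => ‖f n w‖) volume z]
      _ ≤ _ := by rw [hB]; gcongr
  have hsplit : ∀ z, cauchy (f n) z = (∫ w, (ck w - kd 1 w) * f n (z - w))
      + ∫ w, kd 1 w * f n (z - w) := by
    intro z
    have hi1 : Integrable (fun w => ck w * f n (z - w)) := convExists (hf n).continuous (hc n) z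
    have hi3 : Integrable (fun w => f n (z - w)) :=
      ((hf n).continuous.integrable_of_hasCompactSupport (hc n)).comp_sub_left z
    have hi2 : Integrable (fun w => kd 1 w * f n (z - w)) :=
      hi3.bdd_mul (continuous_kd hδ).aestronglyMeasurable
        (Filter.Eventually.of_forall fun w => norm_kd_le hδ w)
    have hi4 : Integrable (fun w => (ck w - kd 1 w) * f n (z - w)) := by
      refine (hi1.sub hi2).congr (Filter.Eventually.of_forall fun w => ?_)
      simp only [Pi.sub_apply]; ring
    rw [← integral_add hi4 hi2]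
    unfold cauchy
    refine integral_congr_ae (Filter.Eventually.of_forall fun w => ?_)
    simp only []; ring
  have hck := (contDiff_cauchy (hf n) (hc n)).continuous
  have hcontn : Continuous (fun z => ∫ w, (ck w - kd 1 w) * f n (z - w)) := by
    have : (fun z => ∫ w, (ck w - kd 1 w) * f n (z - w)) =
        fun z => cauchy (f n) z - ∫ w, kd 1 w * f n (z - w) := by
      funext z; rw [hsplit z]; ring
    rw [this]
    exact hck.sub hcontk
  have hik : IntegrableOn (fun z => ‖∫ w, kd 1 w * f n (z - w)‖ ^ 2) K' :=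
    (by fun_prop : Continuous (fun z => ‖∫ w, kd 1 w * f n (z - w)‖ ^ 2)).continuousOn.integrableOn_compact hK'
  have hin : IntegrableOn (fun z => ‖∫ w, (ck w - kd 1 w) * f n (z - w)‖ ^ 2) K' :=
    (hcontn.norm.pow 2).continuousOn.integrableOn_compact hK'
  have hic : IntegrableOn (fun z => ‖cauchy (f n) z‖ ^ 2) K' :=
    (hck.norm.pow 2).continuousOn.integrableOn_compact hK'
  have hkr : 0 ≤ ∫ w, kr 1 w := integral_nonneg fun w => kr_nonneg 1 w
  have hnear : ∫ z in K', ‖∫ w, (ck w - kd 1 w) * f n (z - w)‖ ^ 2 ≤ M := by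
    have hnn : 0 ≤ M := by positivity
    have h10 := near_bound K K' (fun w => ‖f n w‖) (f n) C s₀ 1 z₀ hK hz₀ hs₀ hsub hK'
      (fun w => norm_nonneg _) (hf n).continuous.norm hn (hs n) (fun z _ => le_rfl) hδ
    rw [← ENNReal.ofReal_le_ofReal_iff hnn, ofReal_integral_eq_lintegral_ofReal hin
      (Eventually.of_forall fun z => by positivity)]
    refine le_trans (le_of_eq ?_) (h10.trans (le_of_eq ?_))
    · refine lintegral_congr fun z => ?_
      rw [ENNReal.ofReal_pow (norm_nonneg _), ofReal_norm]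
    · congr 1
      rw [hM, Real.sqrt_one]; ring
  have hfar : ∫ z in K', ‖∫ w, kd 1 w * f n (z - w)‖ ^ 2 ≤ volume.real K' * B ^ 2 := by
    have h1 : ∫ z in K', ‖∫ w, kd 1 w * f n (z - w)‖ ^ 2 ≤ ∫ _ in K', B ^ 2 := by
      refine integral_mono hik (integrableOn_const hK'.measure_lt_top.ne) fun z => ?_
      simp only []
      gcongr
      exact hkb z
    refine h1.trans (le_of_eq ?_)
    rw [setIntegral_const, smul_eq_mul]
  calc ∫ z in K', ‖cauchy (f n) z‖ ^ 2
      ≤ ∫ z in K', (2 * ‖∫ w, (ck w - kd 1 w) * f n (z - w)‖ ^ 2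
        + 2 * ‖∫ w, kd 1 w * f n (z - w)‖ ^ 2) := by
        refine integral_mono hic ((hin.const_mul 2).add (hik.const_mul 2)) fun z => ?_
        simp only []
        rw [hsplit z]
        have h1 := norm_add_le (∫ w, (ck w - kd 1 w) * f n (z - w)) (∫ w, kd 1 w * f n (z - w))
        nlinarith [norm_nonneg (∫ w, (ck w - kd 1 w) * f n (z - w)),
          norm_nonneg (∫ w, kd 1 w * f n (z - w)),
          norm_nonneg ((∫ w, (ck w - kd 1 w) * f n (z - w)) + ∫ w, kd 1 w * f n (z - w)),
          sq_nonneg (‖∫ w, (ck w - kd 1 w) * f n (z - w)‖ - ‖∫ w, kd 1 w * f n (z - w)‖)]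
    _ = 2 * (∫ z in K', ‖∫ w, (ck w - kd 1 w) * f n (z - w)‖ ^ 2)
        + 2 * ∫ z in K', ‖∫ w, kd 1 w * f n (z - w)‖ ^ 2 := by
        rw [integral_add (hin.const_mul 2) (hik.const_mul 2), integral_const_mul,
          integral_const_mul]
    _ ≤ 2 * M + 2 * (volume.real K' * B ^ 2) := by gcongr

end

end U3
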