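import Pool.Agent.U3.Stmts
import Pool.Agent.QJ.Ops
import Pool.Agent.QJ.Dom
import Pool.Agent.QJ.SUM

/-!
CLS: the sums of the class functions of the cubic argument.
-/

open Complex MeasureTheory Filter Topology Set
open scoped ContDiff

namespace U3

open QE QJ

namespace CLS

/-- a double geometric sum over a square vanishes -/
theorem pair_zero {z : ℂ} {N : ℕ} (h6 : z ^ 6 = 1) (h1 : z ≠ 1) (hN : 6 ∣ N) :
    ∑ b ∈ Finset.range N ×ˢ Finset.range N, z ^ (b.1 + b.2) = 0 := by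
  rw [Finset.sum_product]
  simp only [pow_add]
  rw [← Finset.sum_mul_sum, QJ.SUM.geom_zero h6 h1 hN, zero_mul]

theorem quad_zero {z y : ℂ} {N : ℕ} (h6 : z ^ 6 = 1) (h1 : z ≠ 1) (hN : 6 ∣ N) :
    ∑ b ∈ Finset.range N ×ˢ Finset.range N, ∑ b' ∈ Finset.range N ×ˢ Finset.range N,
      z ^ (b.1 + b.2) * y ^ (b'.1 + b'.2) = 0 := by
  rw [← Finset.sum_mul_sum, pair_zero h6 h1 hN, zero_mul]

theorem cl3_swap (B c : ℕ) : cl3 (-(B : ℤ) - c) B = cl3 (B : ℤ) c := by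
  have h : ((-(B : ℤ) - c - B) % 3 = 0) ↔ (((B : ℤ) - c) % 3 = 0) := by omega
  simp only [cl3, h]

end CLS

open CLS in
theorem stmtCls : StmtCls := by
  intro M hM hM0
  obtain ⟨h3, h1, h0, hs⟩ := QJ.SUM.root_facts (w := w3) rfl
  have h6 : w3 ^ 6 = 1 := by
    have : w3 ^ 6 = (w3 ^ 3) ^ 2 := by ring
    rw [this, h3, one_pow]
  have hm6 : (-w3) ^ 6 = 1 := by
    have : (-w3) ^ 6 = w3 ^ 6 := by ring
    rw [this, h6]
  have hm1 : -w3 ≠ 1 := by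
    intro h
    have h4 : (-w3) ^ 3 = 1 := by rw [h, one_pow]
    have h5 : (-w3) ^ 3 = -1 := by
      have : (-w3) ^ 3 = -(w3 ^ 3) := by ring
      rw [this, h3]
    rw [h4] at h5
    norm_num at h5
  have hq6 : (w3 ^ 2) ^ 6 = 1 := by
    have : (w3 ^ 2) ^ 6 = (w3 ^ 6) ^ 2 := by ring
    rw [this, h6, one_pow]
  have hq1 : w3 ^ 2 ≠ 1 := by
    intro h
    have : w3 = w3 ^ 3 := by
      calc w3 = w3 ^ 2 * w3 := by rw [h, one_mul]
        _ = w3 ^ 3 := by ring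
    exact h1 (this.trans h3)
  refine ⟨?_, ?_⟩
  · refine Finset.sum_eq_zero fun c _ => ?_
    have hA : ∑ b ∈ Finset.range M ×ˢ Finset.range M, ∑ b' ∈ Finset.range M ×ˢ Finset.range M,
        w3 ^ (b.1 + b.2) * w3⁻¹ ^ (b'.1 + b'.2) = 0 := quad_zero h6 h1 hM
    have hB : ∑ b ∈ Finset.range M ×ˢ Finset.range M, ∑ b' ∈ Finset.range M ×ˢ Finset.range M,
        (-w3) ^ (b.1 + b.2) * (-w3⁻¹) ^ (b'.1 + b'.2) = 0 := quad_zero hm6 hm1 hM
    rcases Nat.mod_two_eq_zero_or_one c with hc | hc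
    · have e1 : ∀ b b' : ℕ × ℕ, w3 ^ (((b.1 : ℤ) + b.2) - (b'.1 + b'.2)) * (-1) ^ c *
          cl4 (-((b.1 : ℤ) + b.2) - c) (b.1 + b.2) (b'.1 + b'.2 + c) (-((b'.1 : ℤ) + b'.2)) =
          ((-1) ^ c / 3) * (w3 ^ (b.1 + b.2) * w3⁻¹ ^ (b'.1 + b'.2))
            + (2 * (-1) ^ c / 3) * ((-w3) ^ (b.1 + b.2) * (-w3⁻¹) ^ (b'.1 + b'.2)) := by
        intro b b'
        have h4 := QJ.SUM.cl4_even (b.1 + b.2) (b'.1 + b'.2) c hc
        have h5 := QJ.SUM.zsub h0 (b.1 + b.2) (b'.1 + b'.2)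
        push_cast at h4 h5
        rw [h4, h5, neg_pow w3, neg_pow w3⁻¹]
        ring
      simp only [e1, Finset.sum_add_distrib, ← Finset.mul_sum]
      simp only [← Finset.mul_sum] at hA hB
      rw [hA, hB]
      ring
    · have e1 : ∀ b b' : ℕ × ℕ, w3 ^ (((b.1 : ℤ) + b.2) - (b'.1 + b'.2)) * (-1) ^ c *
          cl4 (-((b.1 : ℤ) + b.2) - c) (b.1 + b.2) (b'.1 + b'.2 + c) (-((b'.1 : ℤ) + b'.2)) =
          (-(-1) ^ c / 3) * (w3 ^ (b.1 + b.2) * w3⁻¹ ^ (b'.1 + b'.2)) := by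
        intro b b'
        have h4 := QJ.SUM.cl4_odd (b.1 + b.2) (b'.1 + b'.2) c hc
        have h5 := QJ.SUM.zsub h0 (b.1 + b.2) (b'.1 + b'.2)
        push_cast at h4 h5
        rw [h4, h5]
        ring
      simp only [e1, ← Finset.mul_sum]
      simp only [← Finset.mul_sum] at hA
      rw [hA]
      ring
  · have e1 : ∀ (c : ℕ) (b : ℕ × ℕ),
        w3 ^ (((b.1 : ℤ) + b.2) - c) * cl3 (-((b.1 : ℤ) + b.2) - c) (b.1 + b.2) =
          (1 / 2) * ((w3 ^ 2) ^ (b.1 + b.2) * ((w3 ^ 2)⁻¹) ^ c) + 1 / 2 := by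
      intro c b
      have h4 := QJ.SUM.cl3_term h3 h0 hs (b.1 + b.2) c
      rw [← cl3_swap] at h4
      push_cast at h4
      rw [h4]
    simp only [e1, Finset.sum_add_distrib, ← Finset.mul_sum, ← Finset.sum_mul]
    rw [pair_zero hq6 hq1 hM]
    simp only [zero_mul, mul_zero, zero_add, Finset.sum_const,
      Finset.card_range, Finset.card_product, nsmul_eq_mul]
    push_cast
    ring

end U3
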