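import Pool.Agent.U3.Stmts
import Pool.Agent.QJ.Ops
import Pool.Agent.QJ.Dom

/-!
U3, module DIR: the properties of the limit measure (growth, no odd moments, transport).
-/

open Complex MeasureTheory Filter Topology Set
open scoped ContDiff Manifold

namespace U3

open QE QJ

noncomputable section

namespace DIR

variable {V : Set ℂ} {σ : ℂ → ℝ} {h : ℕ → ℝ} {φ : ℕ → ℂ → ℂ}

theorem cutoff {U K : Set ℂ} (hU : IsOpen U) (hK : IsCompact K) (hKU : K ⊆ U) :
    ∃ f : ℂ → ℝ, Test U (fun z => (f z : ℂ)) ∧ (∀ z ∈ K, f z = 1) ∧ (∀ z, 0 ≤ f z ∧ f z ≤ 1) ∧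
      Continuous f ∧ HasCompactSupport f ∧ ∀ z, z ∉ U → f z = 0 := by
  obtain ⟨K', hK', hKK', hK'U⟩ := exists_compact_between hK hU hKU
  obtain ⟨f, hf1, hf2, hf3⟩ := exists_contMDiffMap_one_nhds_of_subset_interior (n := (⊤ : ℕ∞)) 𝓘(ℝ, ℂ)
    hK.isClosed hKK'
  have hfs : ContDiff ℝ ∞ (f : ℂ → ℝ) := f.contMDiff.contDiff
  have hsupp : Function.support (fun z => (f z : ℂ)) ⊆ K' := by
    intro z hz
    by_contra h
    exact hz (by simp [hf2 z h])
  have hts : tsupport (fun z => (f z : ℂ)) ⊆ K' :=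
    closure_minimal hsupp hK'.isClosed
  refine ⟨fun z => f z, ⟨ofRealCLM.contDiff.comp hfs,
    hK'.of_isClosed_subset (isClosed_tsupport _) hts, hts.trans hK'U⟩, ?_, ?_, hfs.continuous, ?_, ?_⟩
  · intro z hz
    have := hf1.filter_mono (nhds_le_nhdsSet hz)
    exact this.self_of_nhds
  · exact fun z => hf3 z
  · exact HasCompactSupport.intro hK' fun z hz => hf2 z hz
  · intro z hz
    exact hf2 z fun h => hz (hK'U h)

/-- test functions times the powers of the direction are integrable -/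
theorem integ {Ω : Type} [MeasurableSpace Ω] {μ : Measure Ω} {p u : Ω → ℂ}
    (hfin : μ Set.univ ≠ ⊤) (hp : Measurable p) (hu : Measurable u) (hunit : ∀ o, ‖u o‖ = 1)
    {f : ℂ → ℂ} (hf : Continuous f) (hc : HasCompactSupport f) (k : ℤ) :
    Integrable (fun o => f (p o) * u o ^ k) μ := by
  have : IsFiniteMeasure μ := ⟨lt_top_iff_ne_top.2 hfin⟩
  obtain ⟨C, hC⟩ := hc.exists_bound_of_continuous hf
  refine Integrable.of_bound ((hf.measurable.comp hp).mul (hu.pow_const k)).aestronglyMeasurable C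
    (ae_of_all _ fun o => ?_)
  rw [norm_mul, norm_zpow, hunit, one_zpow, mul_one]
  exact hC _

/-- integration against a sequence which tends to zero in `L²` -/
theorem test_l2z {ζ : ℂ → ℂ} (hζ : Test V ζ) {e : ℕ → ℂ → ℂ} (he : L2z V e)
    (se : ∀ n, ContDiff ℝ ∞ (e n)) : Tendsto (fun n => ∫ z, ζ z * e n z) atTop (𝓝 0) := by
  have hK : IsCompact (tsupport ζ) := hζ.supp
  rw [Metric.tendsto_nhds]
  intro ε hε
  obtain ⟨G, hG⟩ : ∃ G, G = ∫ z in tsupport ζ, ‖ζ z‖ ^ 2 := ⟨_, rfl⟩
  have hG0 : 0 ≤ G := by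
    rw [hG]
    exact integral_nonneg fun z => by positivity
  obtain ⟨l, hl⟩ : ∃ l, l = ε / (G + 1) := ⟨_, rfl⟩
  have hl0 : 0 < l := by
    rw [hl]
    positivity
  have hlG : l * G ≤ ε := by
    have : l * (G + 1) = ε := by
      rw [hl]
      field_simp
    nlinarith
  have h1 := (he _ hK hζ.sub).eventually (gt_mem_nhds (show (0 : ℝ) < l * ε by positivity))
  filter_upwards [h1] with n hn
  rw [dist_zero_right]
  have e1 : ∫ z, ζ z * e n z = ∫ z in tsupport ζ, ζ z * e n z := by
    symm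
    apply setIntegral_eq_integral_of_forall_compl_eq_zero
    intro z hz
    rw [image_eq_zero_of_notMem_tsupport hz, zero_mul]
  have c1 : IntegrableOn (fun z => ‖ζ z‖ ^ 2) (tsupport ζ) :=
    (hζ.smooth.continuous.norm.pow 2).continuousOn.integrableOn_compact hK
  have c2 : IntegrableOn (fun z => ‖e n z‖ ^ 2) (tsupport ζ) :=
    ((se n).continuous.norm.pow 2).continuousOn.integrableOn_compact hK
  have e2 : ‖∫ z in tsupport ζ, ζ z * e n z‖
      ≤ (l * G + l⁻¹ * ∫ z in tsupport ζ, ‖e n z‖ ^ 2) / 2 := by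
    calc ‖∫ z in tsupport ζ, ζ z * e n z‖ ≤ ∫ z in tsupport ζ, ‖ζ z * e n z‖ :=
          norm_integral_le_integral_norm _
      _ ≤ ∫ z in tsupport ζ, (l * ‖ζ z‖ ^ 2 + l⁻¹ * ‖e n z‖ ^ 2) / 2 := by
          refine integral_mono_of_nonneg (Filter.Eventually.of_forall fun z => norm_nonneg _)
            (((c1.const_mul _).add (c2.const_mul _)).div_const 2)
            (Filter.Eventually.of_forall fun z => ?_)
          simp only [norm_mul]
          have h2 : 0 ≤ l⁻¹ * (l * ‖ζ z‖ - ‖e n z‖) ^ 2 := by positivity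
          have h3 : l⁻¹ * (l * ‖ζ z‖ - ‖e n z‖) ^ 2
              = l * ‖ζ z‖ ^ 2 - 2 * (‖ζ z‖ * ‖e n z‖) + l⁻¹ * ‖e n z‖ ^ 2 := by
            field_simp
            ring
          rw [h3] at h2
          linarith
      _ = _ := by
          rw [integral_div, integral_add (c1.const_mul _) (c2.const_mul _), integral_const_mul,
            integral_const_mul, hG]
  have e3 : l⁻¹ * ∫ z in tsupport ζ, ‖e n z‖ ^ 2 < ε := by
    rw [inv_mul_lt_iff₀ hl0]
    exact hn
  rw [e1]
  linarith

/-- integration by parts -/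
theorem parts_Db (hσ : ContDiff ℝ ∞ σ) (k : ℤ) {ψ A : ℂ → ℂ} (hψ : Test V ψ)
    (hA : ContDiff ℝ ∞ A) :
    ∫ z, ex σ 2 z * ψ z * Db σ (k + 1) A z = - ∫ z, ex σ 2 z * Db σ (-k) ψ z * A z := by
  have h1 := int_Db hσ (F := fun z => ψ z * A z) (hψ.smooth.mul hA) hψ.supp.mul_right
  have e : ∀ z, ex σ 2 z * Db σ 1 (fun z => ψ z * A z) z
      = ex σ 2 z * Db σ (-k) ψ z * A z + ex σ 2 z * ψ z * Db σ (k + 1) A z := by
    intro z
    have a1 := Db_mul hσ (-k) (k + 1) (cd_at hψ.smooth z) (cd_at hA z)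
    rw [show -k + (k + 1) = 1 by ring] at a1
    rw [a1]
    ring
  have i1 : Integrable fun z => ex σ 2 z * Db σ (-k) ψ z * A z := by
    have := test_int (test_Db hσ (-k) hψ) ((contDiff_ex hσ 2).mul hA).continuous
    refine this.congr (Filter.Eventually.of_forall fun z => ?_)
    simp only []; ring
  have i2 : Integrable fun z => ex σ 2 z * ψ z * Db σ (k + 1) A z := by
    have := test_int hψ ((contDiff_ex hσ 2).mul (contDiff_Db hσ (k + 1) hA)).continuous
    refine this.congr (Filter.Eventually.of_forall fun z => ?_)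
    simp only []; ring
  simp only [e] at h1
  rw [integral_add i1 i2] at h1
  linear_combination h1

/-- integration by parts -/
theorem parts_D (hσ : ContDiff ℝ ∞ σ) (k : ℤ) {ψ A : ℂ → ℂ} (hψ : Test V ψ)
    (hA : ContDiff ℝ ∞ A) :
    ∫ z, ex σ 2 z * ψ z * D σ (k - 1) A z = - ∫ z, ex σ 2 z * D σ (-k) ψ z * A z := by
  have h1 := int_D hσ (F := fun z => ψ z * A z) (hψ.smooth.mul hA) hψ.supp.mul_right
  have e : ∀ z, ex σ 2 z * D σ (-1) (fun z => ψ z * A z) z
      = ex σ 2 z * D σ (-k) ψ z * A z + ex σ 2 z * ψ z * D σ (k - 1) A z := by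
    intro z
    have a1 := D_mul hσ (-k) (k - 1) (cd_at hψ.smooth z) (cd_at hA z)
    rw [show -k + (k - 1) = -1 by ring] at a1
    rw [a1]
    ring
  have i1 : Integrable fun z => ex σ 2 z * D σ (-k) ψ z * A z := by
    have := test_int (test_D hσ (-k) hψ) ((contDiff_ex hσ 2).mul hA).continuous
    refine this.congr (Filter.Eventually.of_forall fun z => ?_)
    simp only []; ring
  have i2 : Integrable fun z => ex σ 2 z * ψ z * D σ (k - 1) A z := by
    have := test_int hψ ((contDiff_ex hσ 2).mul (contDiff_D hσ (k - 1) hA)).continuous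
    refine this.congr (Filter.Eventually.of_forall fun z => ?_)
    simp only []; ring
  simp only [e] at h1
  rw [integral_add i1 i2] at h1
  linear_combination h1

variable {Ω : Type} [MeasurableSpace Ω] {μ : Measure Ω} {p u : Ω → ℂ}

/-- the odd moments vanish -/
theorem odd_zero (M : LimM V σ h φ μ p u) (k : ℤ) (hk : Odd k) (ζ : ℂ → ℂ) (hζ : Test V ζ) :
    ∫ o, ζ (p o) * u o ^ k ∂μ = 0 := by
  have h1 := M.lim k 0 ζ hζ
  have h2 := M.lim 0 k ζ hζ
  have e : (fun n => ∫ z, ζ z * (E σ h φ k n z * E σ h φ 0 n z))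
      = fun n => ∫ z, ζ z * (E σ h φ 0 n z * E σ h φ k n z) := by
    funext n
    congr 1
    funext z
    ring
  rw [e] at h1
  have h3 := tendsto_nhds_unique h1 h2
  rw [add_zero, zero_add, zpow_zero, one_mul, hk.neg_one_zpow] at h3
  linear_combination (1 / 2 : ℂ) * h3

/-- the transport equation -/
theorem transport (hTriQ : StmtTriQ) (L : LocB V σ h φ) (M : LimM V σ h φ μ p u) (k : ℤ)
    (ψ : ℂ → ℂ) (hψ : Test V ψ) :
    ∫ o, ex σ 2 (p o) * (Db σ (-k) ψ (p o) * u o ^ (k + 1) - D σ (-k) ψ (p o) * u o ^ (k - 1)) ∂μ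
      = 0 := by
  have hσ := L.sm
  have T := hTriQ V σ h φ L (k - 1) 0
  have hA := T.sA
  have hB := T.sB
  have he := T.eA
  have t1 : Test V (fun z => ex σ 2 z * Db σ (-k) ψ z) := by
    have := test_mul (test_Db hσ (-k) hψ) (contDiff_ex hσ 2)
    have e : (fun z => ex σ 2 z * Db σ (-k) ψ z) = fun z => Db σ (-k) ψ z * ex σ 2 z := by
      funext z
      ring
    rw [e]
    exact this
  have t2 : Test V (fun z => ex σ 2 z * D σ (-k) ψ z) := by
    have := test_mul (test_D hσ (-k) hψ) (contDiff_ex hσ 2)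
    have e : (fun z => ex σ 2 z * D σ (-k) ψ z) = fun z => D σ (-k) ψ z * ex σ 2 z := by
      funext z
      ring
    rw [e]
    exact this
  have t3 : Test V (fun z => ex σ 2 z * ψ z) := by
    have := test_mul hψ (contDiff_ex hσ 2)
    have e : (fun z => ex σ 2 z * ψ z) = fun z => ψ z * ex σ 2 z := by
      funext z
      ring
    rw [e]
    exact this
  have l1 := M.lim k 1 _ t1
  have l2 := M.lim (k - 1) 0 _ t2
  have q1 : k - 1 + 0 + 2 = k + 1 := by ring
  have q2 : k - 1 + 0 = k - 1 := by ring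
  have q3 : k - 1 + 1 = k := by ring
  have q4 : (0 : ℤ) + 1 = 1 := by ring
  rw [q1, q2] at he
  simp only [q3, q4] at he hA
  have l0 := test_l2z t3 he (fun n => (contDiff_Db hσ _ (hA n)).add (contDiff_D hσ _ (hB n)))
  have key : ∀ n, (∫ z, ex σ 2 z * ψ z *
      (Db σ (k + 1) (fun z => E σ h φ k n z * E σ h φ 1 n z) z
        + D σ (k - 1) (fun z => E σ h φ (k - 1) n z * E σ h φ 0 n z) z))
      = - (∫ z, ex σ 2 z * Db σ (-k) ψ z * (E σ h φ k n z * E σ h φ 1 n z))
        - ∫ z, ex σ 2 z * D σ (-k) ψ z * (E σ h φ (k - 1) n z * E σ h φ 0 n z) := by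
    intro n
    have a1 := parts_Db hσ k hψ (hA n)
    have a2 := parts_D hσ k hψ (hB n)
    have i1 : Integrable fun z => ex σ 2 z * ψ z *
        Db σ (k + 1) (fun z => E σ h φ k n z * E σ h φ 1 n z) z := by
      have := test_int hψ ((contDiff_ex hσ 2).mul (contDiff_Db hσ (k + 1) (hA n))).continuous
      refine this.congr (Filter.Eventually.of_forall fun z => ?_)
      simp only []; ring
    have i2 : Integrable fun z => ex σ 2 z * ψ z *
        D σ (k - 1) (fun z => E σ h φ (k - 1) n z * E σ h φ 0 n z) z := by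
      have := test_int hψ ((contDiff_ex hσ 2).mul (contDiff_D hσ (k - 1) (hB n))).continuous
      refine this.congr (Filter.Eventually.of_forall fun z => ?_)
      simp only []; ring
    have e : ∀ z, ex σ 2 z * ψ z *
      (Db σ (k + 1) (fun z => E σ h φ k n z * E σ h φ 1 n z) z
        + D σ (k - 1) (fun z => E σ h φ (k - 1) n z * E σ h φ 0 n z) z)
      = ex σ 2 z * ψ z * Db σ (k + 1) (fun z => E σ h φ k n z * E σ h φ 1 n z) z
        + ex σ 2 z * ψ z * D σ (k - 1) (fun z => E σ h φ (k - 1) n z * E σ h φ 0 n z) z := by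
      intro z
      ring
    simp only [e]
    rw [integral_add i1 i2, a1, a2]
    ring
  have l3 := (l1.neg).sub l2
  have l4 := tendsto_nhds_unique (l0.congr key) l3
  rw [zpow_one, zpow_zero, one_mul, q2] at l4
  have i1 := integ M.fin M.mp M.mu M.unit t1.smooth.continuous t1.supp (k + 1)
  have i2 := integ M.fin M.mp M.mu M.unit t2.smooth.continuous t2.supp (k - 1)
  have e : ∀ o, ex σ 2 (p o) * (Db σ (-k) ψ (p o) * u o ^ (k + 1) - D σ (-k) ψ (p o) * u o ^ (k - 1))
      = ex σ 2 (p o) * Db σ (-k) ψ (p o) * u o ^ (k + 1)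
        - ex σ 2 (p o) * D σ (-k) ψ (p o) * u o ^ (k - 1) := by
    intro o
    ring
  simp only [e]
  rw [integral_sub i1 i2]
  linear_combination -l4

/-- linear growth -/
theorem grow (hGroA : StmtGroA) (L : LocB V σ h φ) (M : LimM V σ h φ μ p u) :
    ∀ K, IsCompact K → K ⊆ V → ∃ C : ℝ, ∀ z ∈ K, ∀ s > 0,
      (μ (p ⁻¹' (K ∩ Metric.closedBall z s))).toReal ≤ C * s := by
  intro K hK hKV
  have : IsFiniteMeasure μ := ⟨lt_top_iff_ne_top.2 M.fin⟩
  obtain ⟨K1, hK1, hKK1, hK1V⟩ := exists_compact_between hK L.op hKV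
  obtain ⟨C, hC⟩ := (hGroA V σ h φ L).grow K1 hK1 hK1V 0
  refine ⟨2 * C, fun z hz s hs => ?_⟩
  have hS : IsCompact (K ∩ Metric.closedBall z s) := hK.inter_right Metric.isClosed_closedBall
  have hU : IsOpen (interior K1 ∩ Metric.ball z (2 * s)) :=
    isOpen_interior.inter Metric.isOpen_ball
  have hSU : K ∩ Metric.closedBall z s ⊆ interior K1 ∩ Metric.ball z (2 * s) := by
    rintro w ⟨hw1, hw2⟩
    refine ⟨hKK1 hw1, ?_⟩
    rw [Metric.mem_closedBall] at hw2
    rw [Metric.mem_ball]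
    linarith
  obtain ⟨f, hf1, hf2, hf3, hf4, hf5, hf6⟩ := cutoff hU hS hSU
  have hT : Test V (fun z => (f z : ℂ)) :=
    hf1.mono (inter_subset_left.trans (interior_subset.trans hK1V))
  have lim := M.lim 0 0 _ hT
  have hE : E σ h φ 0 = φ := rfl
  rw [hE] at lim
  have hTc : IsCompact (K1 ∩ Metric.closedBall z (2 * s)) :=
    hK1.inter_right Metric.isClosed_closedBall
  have hb : ∀ᶠ n in atTop, ‖∫ w, (f w : ℂ) * (φ n w * φ n w)‖ ≤ C * (2 * s) := by
    filter_upwards [hC] with n hn
    refine le_trans ?_ (hn z (interior_subset (hKK1 hz)) (2 * s) (by linarith))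
    calc ‖∫ w, (f w : ℂ) * (φ n w * φ n w)‖ ≤ ∫ w, ‖(f w : ℂ) * (φ n w * φ n w)‖ :=
          norm_integral_le_integral_norm _
      _ ≤ ∫ w, (K1 ∩ Metric.closedBall z (2 * s)).indicator (RR h φ 0 n) w := by
          refine integral_mono_of_nonneg (Filter.Eventually.of_forall fun w => norm_nonneg _)
            ?_ (Filter.Eventually.of_forall fun w => ?_)
          · rw [integrable_indicator_iff hTc.measurableSet]
            exact (continuous_RR L.smφ 0 n).continuousOn.integrableOn_compact hTc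
          · simp only []
            by_cases hw : w ∈ interior K1 ∩ Metric.ball z (2 * s)
            · have hw' : w ∈ K1 ∩ Metric.closedBall z (2 * s) :=
                ⟨interior_subset hw.1, Metric.ball_subset_closedBall hw.2⟩
              rw [indicator_of_mem hw']
              have a1 := W_sq_le (h := h) (φ := φ) (a := 0) (b := 0) (N := 0) le_rfl le_rfl n w
              rw [W_zero] at a1
              have a2 := hf3 w
              rw [norm_mul, norm_mul, Complex.norm_real, Real.norm_of_nonneg a2.1]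
              have a3 : 0 ≤ ‖φ n w‖ * ‖φ n w‖ := by positivity
              nlinarith
            · rw [hf6 w hw]
              simp only [ofReal_zero, zero_mul, norm_zero]
              exact indicator_nonneg (fun x _ => (RR_pos h φ 0 n x).le) w
      _ = _ := integral_indicator hTc.measurableSet
  have hlim := le_of_tendsto lim.norm hb
  have hmeas : MeasurableSet (p ⁻¹' (K ∩ Metric.closedBall z s)) := M.mp hS.measurableSet
  have e1 : (∫ o, ((f (p o) : ℝ) : ℂ) * u o ^ ((0 : ℤ) + 0) ∂μ) = ((∫ o, f (p o) ∂μ : ℝ) : ℂ) := by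
    rw [← integral_complex_ofReal]
    congr 1
    funext o
    rw [add_zero, zpow_zero, mul_one]
  rw [e1, zpow_zero, one_mul, Complex.norm_real] at hlim
  have i1 : Integrable (fun o => f (p o)) μ := by
    refine Integrable.of_bound (hf4.measurable.comp M.mp).aestronglyMeasurable 1
      (ae_of_all _ fun o => ?_)
    rw [Real.norm_of_nonneg (hf3 _).1]
    exact (hf3 _).2
  have e2 : (μ (p ⁻¹' (K ∩ Metric.closedBall z s))).toReal
      = ∫ o, (p ⁻¹' (K ∩ Metric.closedBall z s)).indicator (fun _ => (1 : ℝ)) o ∂μ := by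
    rw [integral_indicator hmeas, setIntegral_const, smul_eq_mul, mul_one]
    rfl
  have e3 : ∫ o, (p ⁻¹' (K ∩ Metric.closedBall z s)).indicator (fun _ => (1 : ℝ)) o ∂μ
      ≤ ∫ o, f (p o) ∂μ := by
    refine integral_mono_of_nonneg (Filter.Eventually.of_forall fun o =>
      indicator_nonneg (fun _ _ => zero_le_one) o) i1 (Filter.Eventually.of_forall fun o => ?_)
    by_cases ho : o ∈ p ⁻¹' (K ∩ Metric.closedBall z s)
    · simp only []
      rw [indicator_of_mem ho, hf2 _ ho]
    · simp only []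
      rw [indicator_of_notMem ho]
      exact (hf3 _).1
  rw [e2]
  have e4 : ∫ o, f (p o) ∂μ ≤ ‖∫ o, f (p o) ∂μ‖ := Real.le_norm_self _
  linarith

end DIR

/-- DIR: the properties of the limit measure -/
theorem stmtDir (hGroA : StmtGroA) (hTriQ : StmtTriQ) : StmtDir := by
  intro V σ h φ Ω _ μ p u L M
  exact
    { fin := M.fin
      mp := M.mp
      mu := M.mu
      unit := M.unit
      cpt := M.cpt
      grow := DIR.grow hGroA L M
      odd := DIR.odd_zero M
      transport := DIR.transport hTriQ L M }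

end

end U3
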