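import Pool.Agent.U3.Stmts
import Pool.Agent.QJ.Ops
import Pool.Agent.QJ.Dom

/-!
KSZ: the size of the kernel of the mollifier.
-/

open Complex MeasureTheory Filter Topology Set
open scoped ContDiff

namespace U3

open QE QJ

noncomputable section

namespace KSZ

lemma norm_exp_sub_one_le (x : ℝ) : ‖Complex.exp ((x : ℂ) * Complex.I) - 1‖ ≤ |x| := by
  have h := Real.norm_exp_I_mul_ofReal_sub_one_le (x := x)
  rw [mul_comm, Real.norm_eq_abs] at h
  exact h

lemma contDiff_sg {σ : ℂ → ℝ} (hσ : ContDiff ℝ ∞ σ) : ContDiff ℝ ∞ (sg σ) :=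
  contDiff_dz (contDiff_sig hσ)

end KSZ

theorem stmtKsz : StmtKsz := by
  intro β σ K hβ hσ hK
  obtain ⟨S, hS⟩ := hK.exists_bound_of_continuousOn hσ.continuous.continuousOn
  obtain ⟨G, hG⟩ := hK.exists_bound_of_continuousOn (KSZ.contDiff_sg hσ).continuous.continuousOn
  obtain ⟨B, hB⟩ := (isCompact_Icc (a := (0 : ℝ)) (b := 1)).exists_bound_of_continuousOn
    hβ.smooth.continuous.continuousOn
  have hB0 : 0 ≤ B := (norm_nonneg _).trans (hB 0 ⟨le_rfl, zero_le_one⟩)
  have hβB : ∀ t, 0 ≤ t → β t ≤ B := by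
    intro t ht
    rcases le_total 1 t with h | h
    · rw [hβ.supp t h]; exact hB0
    · exact (le_abs_self _).trans (hB t ⟨ht, h⟩)
  have e1 : 0 < Real.exp (2 * |S|) := Real.exp_pos _
  have e2 : 0 < Real.exp |S| := Real.exp_pos _
  refine ⟨Real.exp (2 * |S|) * B + Real.exp |S| + 2 * |G|, by positivity, ?_⟩
  intro ε hε z hz w hw
  have hε2 : 0 < ε ^ 2 := by positivity
  have hr : 0 ≤ r2 σ z w / ε ^ 2 := by unfold r2; positivity
  have hσz : |σ z| ≤ |S| := (hS z hz).trans (le_abs_self _)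
  have hσw : |σ w| ≤ |S| := (hS w hw).trans (le_abs_self _)
  have hgz : ‖sg σ z‖ ≤ |G| := (hG z hz).trans (le_abs_self _)
  have hgw : ‖sg σ w‖ ≤ |G| := (hG w hw).trans (le_abs_self _)
  have him : |((sg σ z + sg σ w) * (w - z)).im| ≤ 2 * |G| * ‖w - z‖ := by
    refine (Complex.abs_im_le_norm _).trans ?_
    rw [norm_mul]
    have : ‖sg σ z + sg σ w‖ ≤ 2 * |G| := by
      have := norm_add_le (sg σ z) (sg σ w); linarith
    exact mul_le_mul_of_nonneg_right this (norm_nonneg _)
  have hC : 2 * |G| * ‖w - z‖ ≤ (Real.exp (2 * |S|) * B + Real.exp |S| + 2 * |G|) * ‖w - z‖ := by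
    refine mul_le_mul_of_nonneg_right ?_ (norm_nonneg _)
    have : 0 ≤ Real.exp (2 * |S|) * B := by positivity
    linarith
  refine ⟨?_, ?_, ?_, ?_, ?_⟩
  · unfold ke gb
    have := hβ.nonneg (r2 σ z w / ε ^ 2)
    positivity
  · unfold ke gb
    rw [← mul_div_assoc]
    refine div_le_div_of_nonneg_right ?_ hε2.le
    have h1 : Real.exp (2 * σ w) * β (r2 σ z w / ε ^ 2) ≤ Real.exp (2 * |S|) * B := by
      refine mul_le_mul ?_ (hβB _ hr) (hβ.nonneg _) e1.le
      refine Real.exp_le_exp.2 ?_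
      have := (le_abs_self (σ w)).trans hσw
      linarith
    have : 0 ≤ 2 * |G| := by positivity
    linarith
  · intro hd
    unfold ke gb
    rw [hβ.supp, zero_div, mul_zero]
    rw [le_div_iff₀ hε2, one_mul]
    unfold r2
    have h1 : Real.exp |S| * ε ≤ ‖w - z‖ := by
      refine le_trans ?_ hd.le
      refine mul_le_mul_of_nonneg_right ?_ hε.le
      have a : 0 ≤ Real.exp (2 * |S|) * B := by positivity
      have b : 0 ≤ 2 * |G| := by positivity
      linarith
    have h2 : (Real.exp |S| * ε) ^ 2 ≤ ‖w - z‖ ^ 2 := pow_le_pow_left₀ (by positivity) h1 2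
    have h3 : Real.exp (-(2 * |S|)) ≤ Real.exp (σ z + σ w) := by
      refine Real.exp_le_exp.2 ?_
      have a := neg_le_of_abs_le hσz
      have b := neg_le_of_abs_le hσw
      linarith
    have h4 : Real.exp (-(2 * |S|)) * (Real.exp |S| * ε) ^ 2 = ε ^ 2 := by
      rw [mul_pow, ← Real.exp_nat_mul, ← mul_assoc, ← Real.exp_add]
      have : -(2 * |S|) + ((2 : ℕ) : ℝ) * |S| = 0 := by push_cast; ring
      rw [this, Real.exp_zero, one_mul]
    rw [← h4]
    exact mul_le_mul h3 h2 (by positivity) (Real.exp_pos _).le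
  · refine le_trans ?_ hC
    unfold ta
    exact (KSZ.norm_exp_sub_one_le _).trans him
  · refine le_trans ?_ hC
    unfold ta
    rw [← Complex.exp_neg, ← neg_mul, ← Complex.ofReal_neg]
    refine (KSZ.norm_exp_sub_one_le _).trans ?_
    rw [abs_neg]
    exact him

end

end U3
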