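import Pool.Agent.U3.Stmts

/-!
Third order statistics: the odd mollified moments vanish (PEO).

The integrand of the mollified moment at `z` is a test function of the base point, after
multiplication by a cut-off function which is equal to one close to the compact set.
-/

open Complex MeasureTheory Filter Topology Set
open scoped ContDiff

namespace U3

open QE QJ

namespace PEO

variable {β : ℝ → ℝ} {σ : ℂ → ℝ}

theorem contDiff_sg (hσ : ContDiff ℝ ∞ σ) : ContDiff ℝ ∞ (sg σ) :=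
  contDiff_dz (ofRealCLM.contDiff.comp hσ)

theorem contDiff_ke (hβ : Bump β) (hσ : ContDiff ℝ ∞ σ) (ε : ℝ) (z : ℂ) :
    ContDiff ℝ ∞ (fun w => (ke β σ ε z w : ℂ)) := by
  have h1 : ContDiff ℝ ∞ (fun w => r2 σ z w) := by
    unfold r2
    exact (Real.contDiff_exp.comp (contDiff_const.add hσ)).mul
      ((contDiff_id.sub contDiff_const).norm_sq ℝ)
  have h2 : ContDiff ℝ ∞ (fun w => ke β σ ε z w) := by
    unfold ke gb
    exact (Real.contDiff_exp.comp (contDiff_const.mul hσ)).mul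
      ((hβ.smooth.comp (h1.div_const _)).div_const _)
  exact ofRealCLM.contDiff.comp h2

theorem contDiff_ta (hσ : ContDiff ℝ ∞ σ) (k : ℤ) (z : ℂ) :
    ContDiff ℝ ∞ (fun w => (ta σ z w)⁻¹ ^ k) := by
  have h1 : ContDiff ℝ ∞ (fun w : ℂ => ((((sg σ z + sg σ w) * (w - z)).im : ℝ) : ℂ) * I) := by
    refine ContDiff.mul ?_ contDiff_const
    refine ofRealCLM.contDiff.comp ?_
    exact imCLM.contDiff.comp ((contDiff_const.add (contDiff_sg hσ)).mul
      (contDiff_id.sub contDiff_const))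
  have h2 : (fun w => (ta σ z w)⁻¹ ^ k) = fun w =>
      Complex.exp ((k : ℂ) * -(((((sg σ z + sg σ w) * (w - z)).im : ℝ) : ℂ) * I)) := by
    funext w
    unfold ta
    rw [← Complex.exp_neg, ← Complex.exp_int_mul]
  rw [h2]
  exact Complex.contDiff_exp.comp (contDiff_const.mul h1.neg)

end PEO

open PEO in
/-- PEO: the odd mollified moments vanish. -/
theorem stmtPeO (hKsz : StmtKsz) : StmtPeO := by
  intro β V σ Ω _ μ p u k hβ hV hσ hD hk K hK hKV
  obtain ⟨δ, hδ, hδV⟩ := hK.exists_cthickening_subset_open hV hKV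
  obtain ⟨χ, hχ, hχ1, -⟩ := QE.exists_cutoff hV hK.cthickening hδV
  obtain ⟨K₀, hK₀, h0⟩ := hD.cpt
  obtain ⟨C, hC, hke⟩ := hKsz β σ (K₀ ∪ Metric.cthickening δ K) hβ hσ (hK₀.union hK.cthickening)
  have hε : ∀ᶠ ε in 𝓝[>] (0 : ℝ), 0 < ε ∧ C * ε < δ := by
    refine (eventually_mem_nhdsWithin).and ?_
    have h1 : Tendsto (fun ε : ℝ => C * ε) (𝓝 0) (𝓝 (C * 0)) :=
      (continuous_const.mul continuous_id).tendsto 0
    rw [mul_zero] at h1
    exact (h1.mono_left nhdsWithin_le_nhds).eventually (gt_mem_nhds hδ)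
  filter_upwards [hε] with ε hε z hz
  have hT : Test V (fun w => χ w * ((ke β σ ε z w : ℂ) * (ta σ z w)⁻¹ ^ k)) :=
    hχ.mul hV ((contDiff_ke hβ hσ ε z).mul (contDiff_ta hσ k z)).contDiffOn
  have h1 := hD.odd k hk _ hT
  have h2 : pe β σ ε μ p u k z =
      ∫ o, (χ (p o) * ((ke β σ ε z (p o) : ℂ) * (ta σ z (p o))⁻¹ ^ k)) * u o ^ k ∂μ := by
    unfold pe
    refine integral_congr_ae ?_
    filter_upwards [h0] with o ho
    have hz1 : z ∈ Metric.cthickening δ K := Metric.self_subset_cthickening K hz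
    obtain ⟨-, -, h3, -, -⟩ := hke ε hε.1 z (Or.inr hz1) (p o) (Or.inl ho)
    by_cases h4 : C * ε < ‖p o - z‖
    · rw [h3 h4]
      simp
    · have h5 : p o ∈ Metric.cthickening δ K := by
        refine Metric.mem_cthickening_of_dist_le (p o) z δ K hz ?_
        rw [dist_eq_norm]
        linarith
      have h6 : χ (p o) = 1 := (hχ1 _ h5).self_of_nhds
      rw [h6, one_mul, mul_zpow]
      ring
  rw [h2, h1]

end U3
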