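import Pool.Agent.U3.Stmts
import Pool.Agent.QJ.Ops
import Pool.Agent.QJ.Dom

/-!
PES: the mollified moments are smooth, and their derivatives
-/

open Complex MeasureTheory Filter Topology Set
open scoped ContDiff

namespace U3

open QE QJ

noncomputable section

namespace PES

/-- the kernel of the mollified moments as a function of two variables -/
def FK (β : ℝ → ℝ) (σ : ℂ → ℝ) (ε : ℝ) (k : ℤ) (x : ℂ × ℂ) : ℂ :=
  (ke β σ ε x.1 x.2 : ℂ) * (ta σ x.1 x.2)⁻¹ ^ k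

lemma ta_zpow (σ : ℂ → ℝ) (k : ℤ) (z w : ℂ) :
    (ta σ z w)⁻¹ ^ k =
      Complex.exp ((k : ℂ) * -((((sg σ z + sg σ w) * (w - z)).im : ℝ) * Complex.I)) := by
  unfold ta
  rw [← Complex.exp_neg, ← Complex.exp_int_mul]

lemma contDiff_sg {σ : ℂ → ℝ} (hσ : ContDiff ℝ ∞ σ) : ContDiff ℝ ∞ (sg σ) :=
  contDiff_dz (contDiff_sig hσ)

lemma contDiff_FK {β : ℝ → ℝ} {σ : ℂ → ℝ} (hβ : ContDiff ℝ ∞ β) (hσ : ContDiff ℝ ∞ σ) (ε : ℝ)
    (k : ℤ) : ContDiff ℝ ∞ (FK β σ ε k) := by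
  have h1 : ContDiff ℝ ∞ fun x : ℂ × ℂ => σ x.1 := hσ.comp contDiff_fst
  have h2 : ContDiff ℝ ∞ fun x : ℂ × ℂ => σ x.2 := hσ.comp contDiff_snd
  have h3 : ContDiff ℝ ∞ fun x : ℂ × ℂ => sg σ x.1 := (contDiff_sg hσ).comp contDiff_fst
  have h4 : ContDiff ℝ ∞ fun x : ℂ × ℂ => sg σ x.2 := (contDiff_sg hσ).comp contDiff_snd
  have h5 : ContDiff ℝ ∞ fun x : ℂ × ℂ => x.2 - x.1 := contDiff_snd.sub contDiff_fst
  have h6 : ContDiff ℝ ∞ fun x : ℂ × ℂ => r2 σ x.1 x.2 := by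
    unfold r2
    exact ((h1.add h2).exp).mul (h5.norm_sq ℝ)
  have h7 : ContDiff ℝ ∞ fun x : ℂ × ℂ => ke β σ ε x.1 x.2 := by
    unfold ke gb
    exact ((contDiff_const.mul h2).exp).mul ((hβ.comp (h6.div_const _)).div_const _)
  have h8 : ContDiff ℝ ∞ fun x : ℂ × ℂ => (((sg σ x.1 + sg σ x.2) * (x.2 - x.1)).im : ℝ) :=
    Complex.imCLM.contDiff.comp ((h3.add h4).mul h5)
  have h9 : ContDiff ℝ ∞ fun x : ℂ × ℂ =>
      ((((sg σ x.1 + sg σ x.2) * (x.2 - x.1)).im : ℝ) : ℂ) := ofRealCLM.contDiff.comp h8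
  unfold FK
  simp only [ta_zpow]
  exact (ofRealCLM.contDiff.comp h7).mul ((contDiff_const.mul (h9.mul contDiff_const).neg).cexp)

lemma norm_zpow_one {u : ℂ} (hu : ‖u‖ = 1) (k : ℤ) : ‖u ^ k‖ = 1 := by
  rw [norm_zpow, hu, one_zpow]

end PES

/-- PES -/
theorem stmtPeS (hPar : StmtPar) : StmtPeS := by
  intro β V σ Ω _ μ p u hβ hσ hD ε hε k
  have hF := PES.contDiff_FK hβ.smooth hσ ε k
  have hv : Measurable fun o => u o ^ k := hD.mu.pow_const k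
  have hv1 : ∀ o, ‖u o ^ k‖ ≤ 1 := fun o => (PES.norm_zpow_one (hD.unit o) k).le
  have e : ∀ z, pe β σ ε μ p u k z = ∫ o, PES.FK β σ ε k (z, p o) * u o ^ k ∂μ := by
    intro z
    unfold pe PES.FK
    refine integral_congr_ae (Filter.Eventually.of_forall fun o => ?_)
    simp only [mul_zpow]
    ring
  have e' : pe β σ ε μ p u k = fun z => ∫ o, PES.FK β σ ε k (z, p o) * u o ^ k ∂μ := funext e
  refine ⟨?_, ?_, ?_⟩
  · rw [e']
    exact (hPar Ω μ p (fun o => u o ^ k) (PES.FK β σ ε k) hD.fin hD.mp hv hv1 hD.cpt hF).1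
  · intro k' z
    have hF1 : ContDiff ℝ ∞ fun x : ℂ × ℂ => ex σ (-k') x.1 * PES.FK β σ ε k x :=
      ((contDiff_ex hσ (-k')).comp contDiff_fst).mul hF
    have h1 := (hPar Ω μ p (fun o => u o ^ k) _ hD.fin hD.mp hv hv1 hD.cpt hF1).2.1 z
    have h2 : (fun w => ex σ (-k') w * pe β σ ε μ p u k w) =
        fun z => ∫ o, ex σ (-k') z * PES.FK β σ ε k (z, p o) * u o ^ k ∂μ := by
      funext w
      rw [e w, ← integral_const_mul]
      simp only [mul_assoc]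
    unfold D
    rw [h2, h1, ← integral_const_mul]
    simp only [mul_assoc]
    rfl
  · intro k' z
    have hF1 : ContDiff ℝ ∞ fun x : ℂ × ℂ => ex σ k' x.1 * PES.FK β σ ε k x :=
      ((contDiff_ex hσ k').comp contDiff_fst).mul hF
    have h1 := (hPar Ω μ p (fun o => u o ^ k) _ hD.fin hD.mp hv hv1 hD.cpt hF1).2.2 z
    have h2 : (fun w => ex σ k' w * pe β σ ε μ p u k w) =
        fun z => ∫ o, ex σ k' z * PES.FK β σ ε k (z, p o) * u o ^ k ∂μ := by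
      funext w
      rw [e w, ← integral_const_mul]
      simp only [mul_assoc]
    unfold Db
    rw [h2, h1, ← integral_const_mul]
    simp only [mul_assoc]
    rfl

end

end U3
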