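import Pool.Agent.U3.Stmts
import Pool.Agent.QJ.Ops
import Pool.Agent.QJ.Dom

/-!
XBD: the pairs at about 120 degrees.
-/

open Complex MeasureTheory Filter Topology Set
open scoped ContDiff

namespace U3

open QE QJ

namespace XBD

lemma norm_ta (σ : ℂ → ℝ) (z w : ℂ) : ‖ta σ z w‖ = 1 := by
  unfold ta
  exact Complex.norm_exp_ofReal_mul_I _

lemma norm_w3 : ‖w3‖ = 1 := by
  unfold w3
  have h : (2 * Real.pi * Complex.I / 3 : ℂ) = ((2 * Real.pi / 3 : ℝ) : ℂ) * Complex.I := by
    push_cast; ring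
  rw [h]
  exact Complex.norm_exp_ofReal_mul_I _

/-- directions at about 120 degrees -/
lemma dir_le {a a' v v' : ℂ} {η κ : ℝ} (ha : ‖a‖ = 1) (ha' : ‖a'‖ = 1) (hv : ‖v‖ = 1)
    (hv' : ‖v'‖ = 1) (h1 : ‖a - 1‖ ≤ κ) (h2 : ‖a' - 1‖ ≤ κ)
    (h : ‖w3 * ((a * v) / (a' * v')) - 1‖ < η) : ‖w3 * v - v'‖ ≤ η + 2 * κ := by
  have hn1 : a' ≠ 0 := by
    rw [← norm_ne_zero_iff, ha']
    norm_num
  have hn2 : v' ≠ 0 := by
    rw [← norm_ne_zero_iff, hv']
    norm_num
  have e1 : w3 * (a * v) - a' * v' = (w3 * ((a * v) / (a' * v')) - 1) * (a' * v') := by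
    field_simp
  have e2 : ‖w3 * (a * v) - a' * v'‖ ≤ η := by
    rw [e1, norm_mul, norm_mul, ha', hv', one_mul, mul_one]
    exact h.le
  have e3 : w3 * v - v' = (w3 * (a * v) - a' * v') - w3 * ((a - 1) * v) + (a' - 1) * v' := by ring
  rw [e3]
  refine (norm_add_le _ _).trans ?_
  have e4 := norm_sub_le (w3 * (a * v) - a' * v') (w3 * ((a - 1) * v))
  have e5 : ‖w3 * ((a - 1) * v)‖ ≤ κ := by
    rw [norm_mul, norm_mul, norm_w3, hv, one_mul, mul_one]
    exact h1
  have e6 : ‖(a' - 1) * v'‖ ≤ κ := by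
    rw [norm_mul, hv', mul_one]
    exact h2
  linarith

end XBD

open XBD in
/-- **XBD** -/
theorem stmtXbd (hKsz : StmtKsz) : StmtXbd := by
  classical
  intro β V σ Ω _ μ p u K hβ hσ hD hK
  obtain ⟨K1, hK1, hpK1⟩ := hD.cpt
  obtain ⟨C0, hC0, hks⟩ := hKsz β σ (K ∪ K1) hβ hσ (hK.union hK1)
  have hfin : IsFiniteMeasure μ := ⟨lt_top_iff_ne_top.2 hD.fin⟩
  have hpi := Real.pi_pos
  refine ⟨4 * Real.pi * C0 ^ 6, by positivity, ?_⟩
  intro ζ hζc hζ01 hζK O hO hζO η hη b hb hpairs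
  have hts : IsCompact (tsupport ζ) := hK.of_isClosed_subset (isClosed_tsupport _) hζK
  obtain ⟨δ, hδ, hδO⟩ := hts.exists_thickening_subset_open hO hζO
  obtain ⟨e1, he1, hp1⟩ := mem_nhdsGT_iff_exists_Ioo_subset.1 hpairs
  have he1' : 0 < e1 := he1
  have hev : ∀ᶠ ε in 𝓝[>] (0 : ℝ), 0 < ε ∧ 2 * C0 * ε < e1 ∧ C0 * ε < δ ∧ 2 * C0 ^ 2 * ε ≤ η := by
    have h0 : ∀ᶠ ε in 𝓝[>] (0 : ℝ), 0 < ε := eventually_mem_nhdsWithin
    have hc : ∀ c r : ℝ, 0 < c → 0 < r → ∀ᶠ ε in 𝓝[>] (0 : ℝ), c * ε < r := by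
      intro c r hc hr
      have h1 : ∀ᶠ ε in 𝓝 (0 : ℝ), c * ε < r := by
        have : Tendsto (fun ε : ℝ => c * ε) (𝓝 0) (𝓝 (c * 0)) :=
          (continuous_const.mul continuous_id).tendsto 0
        rw [mul_zero] at this
        exact this.eventually (gt_mem_nhds hr)
      exact h1.filter_mono nhdsWithin_le_nhds
    filter_upwards [h0, hc (2 * C0) e1 (by positivity) he1', hc C0 δ hC0 hδ,
      hc (2 * C0 ^ 2) η (by positivity) hη] with ε h1 h2 h3 h4
    exact ⟨h1, h2, h3, h4.le⟩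
  filter_upwards [hev] with ε hε
  obtain ⟨h0, h1, h2, h3⟩ := hε
  -- the set of pairs
  set S : Set (Ω × Ω) := {x | p x.1 ∈ O ∧ ‖p x.1 - p x.2‖ ≤ 2 * C0 * ε ∧
    ‖w3 * u x.1 - u x.2‖ ≤ 2 * η} with hSdef
  have hSm : MeasurableSet S := by
    have m1 : Measurable fun x : Ω × Ω => p x.1 := hD.mp.comp measurable_fst
    have m2 : Measurable fun x : Ω × Ω => p x.2 := hD.mp.comp measurable_snd
    have m3 : Measurable fun x : Ω × Ω => u x.1 := hD.mu.comp measurable_fst
    have m4 : Measurable fun x : Ω × Ω => u x.2 := hD.mu.comp measurable_snd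
    exact (m1 hO.measurableSet).inter
      ((measurableSet_le (m1.sub m2).norm measurable_const).inter
        (measurableSet_le ((m3.const_mul w3).sub m4).norm measurable_const))
  have hSb : (μ.prod μ).real S ≤ b * (2 * C0 * ε) ^ 2 :=
    hp1 (show 2 * C0 * ε ∈ Ioo 0 e1 from ⟨by positivity, h1⟩)
  -- the comparison function
  set c : ℝ := (C0 / ε ^ 2) ^ 2 with hc
  have hc0 : 0 < c := by positivity
  set A : Set (ℂ × (Ω × Ω)) := {y | ‖p y.2.1 - y.1‖ ≤ C0 * ε ∧ y.2 ∈ S} with hAdef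
  have hAm : MeasurableSet A := by
    have m1 : Measurable fun y : ℂ × (Ω × Ω) => p y.2.1 :=
      hD.mp.comp (measurable_fst.comp measurable_snd)
    exact (measurableSet_le (m1.sub measurable_fst).norm measurable_const).inter
      (measurable_snd hSm)
  set g : ℂ × (Ω × Ω) → ℝ := A.indicator (fun _ => c) with hg
  have hgm : Measurable g := measurable_const.indicator hAm
  have hg0 : ∀ y, 0 ≤ g y := fun y => indicator_nonneg (fun _ _ => hc0.le) y
  have hgc : ∀ y, g y ≤ c := fun y => indicator_le_self' (fun _ _ => hc0.le) y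
  have hζi : Integrable ζ := hζc.integrable_of_hasCompactSupport hts
  have hGi : Integrable (fun y : ℂ × (Ω × Ω) => ζ y.1 * g y) (volume.prod (μ.prod μ)) := by
    refine (hζi.comp_fst (μ.prod μ)).mul_bdd (c := c) hgm.aestronglyMeasurable ?_
    filter_upwards with y
    rw [Real.norm_eq_abs, abs_of_nonneg (hg0 y)]
    exact hgc y
  -- the kernel is below the comparison function
  have hae : ∀ᵐ x ∂(μ.prod μ), p x.1 ∈ K1 ∧ p x.2 ∈ K1 :=
    (Measure.quasiMeasurePreserving_fst.ae hpK1).and (Measure.quasiMeasurePreserving_snd.ae hpK1)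
  set F : ℂ → Ω × Ω → ℝ := fun z x => ke β σ ε z (p x.1) * ke β σ ε z (p x.2) *
    (if ‖w3 * (((ta σ z (p x.1))⁻¹ * u x.1) / ((ta σ z (p x.2))⁻¹ * u x.2)) - 1‖ < η
      then 1 else 0) with hF
  have hFle : ∀ z ∈ tsupport ζ, ∀ᵐ x ∂(μ.prod μ), 0 ≤ F z x ∧ F z x ≤ g (z, x) := by
    intro z hz
    filter_upwards [hae] with x hx
    have hzL : z ∈ K ∪ K1 := Or.inl (hζK hz)
    obtain ⟨a1, a2, a3, a4, a5⟩ := hks ε h0 z hzL (p x.1) (Or.inr hx.1)
    obtain ⟨b1, b2, b3, b4, b5⟩ := hks ε h0 z hzL (p x.2) (Or.inr hx.2)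
    have hkk : 0 ≤ ke β σ ε z (p x.1) * ke β σ ε z (p x.2) := mul_nonneg a1 b1
    by_cases hcond : ‖w3 * (((ta σ z (p x.1))⁻¹ * u x.1) / ((ta σ z (p x.2))⁻¹ * u x.2)) - 1‖ < η
    · have eF : F z x = ke β σ ε z (p x.1) * ke β σ ε z (p x.2) := by
        simp only [hF, if_pos hcond, mul_one]
      rw [eF]
      refine ⟨hkk, ?_⟩
      by_cases hz1 : C0 * ε < ‖p x.1 - z‖
      · rw [a3 hz1, zero_mul]
        exact hg0 _
      by_cases hz2 : C0 * ε < ‖p x.2 - z‖
      · rw [b3 hz2, mul_zero]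
        exact hg0 _
      rw [not_lt] at hz1 hz2
      have hmem : (z, x) ∈ A := by
        refine ⟨hz1, ?_, ?_, ?_⟩
        · apply hδO
          rw [Metric.mem_thickening_iff]
          exact ⟨z, hz, by rw [dist_eq_norm]; linarith⟩
        · have e2 : p x.1 - p x.2 = (p x.1 - z) - (p x.2 - z) := by ring
          rw [e2]
          exact (norm_sub_le _ _).trans (by linarith)
        · have n1 : ‖(ta σ z (p x.1))⁻¹‖ = 1 := by rw [norm_inv, norm_ta, inv_one]
          have n2 : ‖(ta σ z (p x.2))⁻¹‖ = 1 := by rw [norm_inv, norm_ta, inv_one]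
          have d1 : ‖(ta σ z (p x.1))⁻¹ - 1‖ ≤ C0 ^ 2 * ε :=
            a5.trans (by nlinarith)
          have d2 : ‖(ta σ z (p x.2))⁻¹ - 1‖ ≤ C0 ^ 2 * ε :=
            b5.trans (by nlinarith)
          have := dir_le n1 n2 (hD.unit x.1) (hD.unit x.2) d1 d2 hcond
          linarith
      have eg : g (z, x) = c := indicator_of_mem hmem _
      rw [eg, hc, sq]
      exact mul_le_mul a2 b2 b1 (by positivity)
    · have eF : F z x = 0 := by
        simp only [hF, if_neg hcond, mul_zero]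
      rw [eF]
      exact ⟨le_rfl, hg0 _⟩
  -- slices
  have hslice : ∀ z, Integrable (fun x => g (z, x)) (μ.prod μ) := by
    intro z
    refine Integrable.of_bound (hgm.comp measurable_prodMk_left).aestronglyMeasurable c ?_
    filter_upwards with x
    rw [Real.norm_eq_abs, abs_of_nonneg (hg0 _)]
    exact hgc _
  have hinner : ∀ z, 0 ≤ ζ z * ∫ x, F z x ∂(μ.prod μ) ∧
      ζ z * ∫ x, F z x ∂(μ.prod μ) ≤ ∫ x, ζ z * g (z, x) ∂(μ.prod μ) := by
    intro z
    by_cases hz : z ∈ tsupport ζ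
    · have hf := hFle z hz
      have q1 : 0 ≤ ∫ x, F z x ∂(μ.prod μ) :=
        integral_nonneg_of_ae (hf.mono fun x hx => hx.1)
      have q2 : ∫ x, F z x ∂(μ.prod μ) ≤ ∫ x, g (z, x) ∂(μ.prod μ) :=
        integral_mono_of_nonneg (hf.mono fun x hx => hx.1) (hslice z) (hf.mono fun x hx => hx.2)
      refine ⟨mul_nonneg (hζ01 z).1 q1, ?_⟩
      rw [integral_const_mul]
      exact mul_le_mul_of_nonneg_left q2 (hζ01 z).1
    · have hz0 : ζ z = 0 := image_eq_zero_of_notMem_tsupport hz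
      rw [hz0]
      simp
  have hstep1 : ∫ z, ζ z * ∫ x, F z x ∂(μ.prod μ) ≤
      ∫ z, ∫ x, ζ z * g (z, x) ∂(μ.prod μ) :=
    integral_mono_of_nonneg (Eventually.of_forall fun z => (hinner z).1)
      hGi.integral_prod_left (Eventually.of_forall fun z => (hinner z).2)
  have hswap : ∫ z, ∫ x, ζ z * g (z, x) ∂(μ.prod μ) =
      ∫ x, (∫ z, ζ z * g (z, x)) ∂(μ.prod μ) :=
    integral_integral_swap (f := fun z x => ζ z * g (z, x)) hGi
  -- the inner integral after the exchange
  have hball : ∀ a : ℂ, volume.real (Metric.closedBall a (C0 * ε)) = Real.pi * (C0 * ε) ^ 2 := by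
    intro a
    unfold Measure.real
    rw [Complex.volume_closedBall, ENNReal.toReal_mul, ENNReal.toReal_pow,
      ENNReal.toReal_ofReal (by positivity), ENNReal.coe_toReal, NNReal.coe_real_pi]
    ring
  have hin2 : ∀ x, 0 ≤ ∫ z, ζ z * g (z, x) ∧
      ∫ z, ζ z * g (z, x) ≤ S.indicator (fun _ => c * (Real.pi * (C0 * ε) ^ 2)) x := by
    intro x
    refine ⟨integral_nonneg fun z => mul_nonneg (hζ01 z).1 (hg0 _), ?_⟩
    by_cases hx : x ∈ S
    · rw [indicator_of_mem hx]
      set B := Metric.closedBall (p x.1) (C0 * ε) with hB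
      have hBfin : volume B ≠ ⊤ := measure_closedBall_lt_top.ne
      have hBi : Integrable (B.indicator fun _ : ℂ => c) :=
        (integrable_indicator_iff measurableSet_closedBall).2 (integrableOn_const hBfin)
      have hle : ∀ z, ζ z * g (z, x) ≤ B.indicator (fun _ => c) z := by
        intro z
        by_cases hzB : z ∈ B
        · rw [indicator_of_mem hzB]
          exact (mul_le_of_le_one_left (hg0 _) (hζ01 z).2).trans (hgc _)
        · rw [indicator_of_notMem hzB]
          have : (z, x) ∉ A := by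
            intro hmem
            apply hzB
            rw [hB, Metric.mem_closedBall, dist_comm, dist_eq_norm]
            exact hmem.1
          have eg : g (z, x) = 0 := indicator_of_notMem this _
          rw [eg, mul_zero]
      have := integral_mono_of_nonneg
        (Eventually.of_forall fun z => mul_nonneg (hζ01 z).1 (hg0 (z, x))) hBi
        (Eventually.of_forall hle)
      refine this.trans (le_of_eq ?_)
      rw [integral_indicator measurableSet_closedBall, setIntegral_const, smul_eq_mul, hball,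
        mul_comm]
    · rw [indicator_of_notMem hx]
      have : ∀ z, ζ z * g (z, x) = 0 := by
        intro z
        have hn : (z, x) ∉ A := fun hmem => hx hmem.2
        have eg : g (z, x) = 0 := indicator_of_notMem hn _
        rw [eg, mul_zero]
      simp [this]
  have hSi : Integrable (S.indicator fun _ => c * (Real.pi * (C0 * ε) ^ 2)) (μ.prod μ) :=
    (integrable_indicator_iff hSm).2 (integrableOn_const (measure_ne_top _ _))
  have hstep2 : ∫ x, (∫ z, ζ z * g (z, x)) ∂(μ.prod μ) ≤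
      (μ.prod μ).real S * (c * (Real.pi * (C0 * ε) ^ 2)) := by
    refine (integral_mono_of_nonneg (Eventually.of_forall fun x => (hin2 x).1) hSi
      (Eventually.of_forall fun x => (hin2 x).2)).trans (le_of_eq ?_)
    rw [integral_indicator hSm, setIntegral_const, smul_eq_mul]
  show ∫ z, ζ z * ∫ x, F z x ∂(μ.prod μ) ≤ 4 * Real.pi * C0 ^ 6 * b
  refine (hstep1.trans (hswap.le.trans hstep2)).trans ?_
  have hfinal : b * (2 * C0 * ε) ^ 2 * (c * (Real.pi * (C0 * ε) ^ 2)) =
      4 * Real.pi * C0 ^ 6 * b := by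
    rw [hc]
    field_simp
    ring
  rw [← hfinal]
  exact mul_le_mul_of_nonneg_right hSb (by positivity)

end U3
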