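import Pool.Agent.U3.Stmts
import Pool.Agent.U3.DIR
import Pool.Agent.U3.JETC
import Pool.Agent.U3.KSZ
import Pool.Agent.U3.PEO
import Pool.Agent.U3.PES
import Pool.Agent.U3.XBD
import Pool.Agent.QJ.Ops
import Pool.Agent.QJ.Dom

/-!
CUBI: the cubic inequality.
-/

open Complex MeasureTheory Filter Topology Set
open scoped ContDiff

namespace U3

open QE QJ

noncomputable section

namespace CUBI

variable {V : Set ℂ} {σ : ℂ → ℝ} {h : ℕ → ℝ} {φ : ℕ → ℂ → ℂ}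

/-! ### The jets -/

lemma smE (L : LocB V σ h φ) (j : ℤ) (n : ℕ) : ContDiff ℝ ∞ (E σ h φ j n) :=
  (stmtJetC V σ h φ L j).1.smooth n

lemma cE (L : LocB V σ h φ) (j : ℤ) (n : ℕ) : Continuous (E σ h φ j n) := (smE L j n).continuous

lemma conj_E (L : LocB V σ h φ) (j : ℤ) (n : ℕ) (z : ℂ) :
    (starRingEnd ℂ) (E σ h φ j n z) = (-1 : ℂ) ^ j * E σ h φ (-j) n z := by
  obtain ⟨m, rfl | rfl⟩ := j.eq_nat_or_neg
  · have e1 := congrFun (congrFun (JETA.E_neg L m) n) z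
    have e2 : E σ h φ (m : ℤ) n z = jet σ h φ m n z := rfl
    rw [e1, e2, zpow_natCast, ← mul_assoc, ← mul_pow]
    norm_num
  · have e1 := congrFun (congrFun (JETA.E_neg L m) n) z
    have e2 : E σ h φ (m : ℤ) n z = jet σ h φ m n z := rfl
    rw [e1, neg_neg, e2, map_mul, Complex.conj_conj, map_pow, map_neg, map_one, zpow_neg,
      zpow_natCast, ← inv_pow, inv_neg, inv_one]

/-! ### The root of unity -/

lemma w3_ne : w3 ≠ 0 := Complex.exp_ne_zero _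

lemma conj_w3 : (starRingEnd ℂ) w3 = w3⁻¹ := by
  unfold w3
  rw [← Complex.exp_conj, ← Complex.exp_neg]
  congr 1
  simp only [map_div₀, map_mul, Complex.conj_ofReal, Complex.conj_I, map_ofNat]
  ring

lemma w3_sub (j k : ℤ) : w3 ^ (j - k) = w3 ^ j * w3 ^ (-k) := by
  rw [sub_eq_add_neg, zpow_add₀ w3_ne]

lemma norm_w3z (k : ℤ) : ‖w3 ^ k‖ = 1 := by
  rw [norm_zpow, XBD.norm_w3, one_zpow]

lemma neg_one_sq (k : ℤ) : (-1 : ℂ) ^ k * (-1 : ℂ) ^ k = 1 := by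
  rw [← mul_zpow]
  norm_num

/-! ### Integrals of sums -/

lemma int_sum {ζ : ℂ → ℂ} (hζ : Test V ζ) {ι : Type} (s : Finset ι) (k : ι → ℂ)
    (f : ι → ℂ → ℂ) (hf : ∀ i, Continuous (f i)) :
    ∫ z, ∑ i ∈ s, k i * (ζ z * f i z) = ∑ i ∈ s, k i * ∫ z, ζ z * f i z := by
  rw [integral_finsetSum]
  · exact Finset.sum_congr rfl fun i _ => integral_const_mul _ _
  · intro i _
    exact (test_int hζ (hf i)).const_mul _

lemma int_sum2 {ζ : ℂ → ℂ} (hζ : Test V ζ) {ι κ : Type} (s : Finset ι) (t : Finset κ)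
    (k : ι → κ → ℂ) (f : ι → κ → ℂ → ℂ) (hf : ∀ i j, Continuous (f i j)) :
    ∫ z, ∑ i ∈ s, ∑ j ∈ t, k i j * (ζ z * f i j z)
      = ∑ i ∈ s, ∑ j ∈ t, k i j * ∫ z, ζ z * f i j z := by
  have h1 := int_sum hζ (s ×ˢ t) (fun p => k p.1 p.2) (fun p => f p.1 p.2)
    (fun p => hf p.1 p.2)
  simp only [Finset.sum_product] at h1
  exact h1

lemma int_sum3 {ζ : ℂ → ℂ} (hζ : Test V ζ) {ι κ τ : Type} (s : Finset ι) (t : Finset κ)
    (u : Finset τ) (k : ι → κ → τ → ℂ) (f : ι → κ → τ → ℂ → ℂ)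
    (hf : ∀ i j l, Continuous (f i j l)) :
    ∫ z, ∑ i ∈ s, ∑ j ∈ t, ∑ l ∈ u, k i j l * (ζ z * f i j l z)
      = ∑ i ∈ s, ∑ j ∈ t, ∑ l ∈ u, k i j l * ∫ z, ζ z * f i j l z := by
  have h1 := int_sum hζ (s ×ˢ (t ×ˢ u)) (fun p => k p.1 p.2.1 p.2.2)
    (fun p => f p.1 p.2.1 p.2.2) (fun p => hf p.1 p.2.1 p.2.2)
  simp only [Finset.sum_product] at h1
  exact h1

/-! ### The sums -/

/-- the inner sum -/
def X (σ : ℂ → ℝ) (h : ℕ → ℝ) (φ : ℕ → ℂ → ℂ) (M c n : ℕ) (z : ℂ) : ℂ :=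
  ∑ b ∈ Finset.range M ×ˢ Finset.range M, w3 ^ ((b.1 : ℤ) + b.2)
    * (E σ h φ (-((b.1 : ℤ) + b.2) - c) n z * E σ h φ (b.1 + b.2) n z)

/-- the sum of the test functions -/
def Y (σ : ℂ → ℝ) (h : ℕ → ℝ) (φ : ℕ → ℂ → ℂ) (J : Finset ℤ) (f : ℤ → ℂ → ℂ) (c n : ℕ)
    (z : ℂ) : ℂ :=
  ∑ j ∈ J, f j z * E σ h φ (c + j) n z

/-- the outer sum -/
def S (σ : ℂ → ℝ) (h : ℕ → ℝ) (φ : ℕ → ℂ → ℂ) (J : Finset ℤ) (f : ℤ → ℂ → ℂ) (M n : ℕ)
    (z : ℂ) : ℂ :=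
  ∑ c ∈ Finset.range M, w3 ^ (-(c : ℤ)) * (Y σ h φ J f c n z * X σ h φ M c n z)

lemma cont_X (L : LocB V σ h φ) (M c n : ℕ) : Continuous (X σ h φ M c n) := by
  unfold X
  exact continuous_finsetSum _ fun b _ => continuous_const.mul ((cE L _ n).mul (cE L _ n))

lemma cont_Y (L : LocB V σ h φ) (J : Finset ℤ) {f : ℤ → ℂ → ℂ} (hf : ∀ j, Continuous (f j))
    (c n : ℕ) : Continuous (Y σ h φ J f c n) := by
  unfold Y
  exact continuous_finsetSum _ fun j _ => (hf j).mul (cE L _ n)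

lemma cont_S (L : LocB V σ h φ) (J : Finset ℤ) {f : ℤ → ℂ → ℂ} (hf : ∀ j, Continuous (f j))
    (M n : ℕ) : Continuous (S σ h φ J f M n) := by
  unfold S
  exact continuous_finsetSum _ fun c _ => continuous_const.mul
    ((cont_Y L J hf c n).mul (cont_X L M c n))

lemma normsq_X (L : LocB V σ h φ) (M c n : ℕ) (z : ℂ) :
    ((‖X σ h φ M c n z‖ ^ 2 : ℝ) : ℂ) = ∑ b ∈ Finset.range M ×ˢ Finset.range M,
      ∑ b' ∈ Finset.range M ×ˢ Finset.range M,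
      w3 ^ (((b.1 : ℤ) + b.2) - (b'.1 + b'.2)) * (-1) ^ c *
        (E σ h φ (-((b.1 : ℤ) + b.2) - c) n z * E σ h φ (b.1 + b.2) n z
          * E σ h φ (b'.1 + b'.2 + c) n z * E σ h φ (-((b'.1 : ℤ) + b'.2)) n z) := by
  have h1 := Complex.mul_conj' (X σ h φ M c n z)
  have h2 : (starRingEnd ℂ) (X σ h φ M c n z) = ∑ b' ∈ Finset.range M ×ˢ Finset.range M,
      w3 ^ (-((b'.1 : ℤ) + b'.2)) * (-1) ^ c * (E σ h φ (b'.1 + b'.2 + c) n z
        * E σ h φ (-((b'.1 : ℤ) + b'.2)) n z) := by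
    unfold X
    rw [map_sum]
    refine Finset.sum_congr rfl fun b _ => ?_
    rw [map_mul, map_mul, conj_E L, conj_E L, map_zpow₀, conj_w3, inv_zpow', neg_sub]
    have e1 : (-1 : ℂ) ^ (-((b.1 : ℤ) + b.2) - c) * (-1 : ℂ) ^ ((b.1 : ℤ) + b.2) = (-1) ^ c := by
      rw [← zpow_add₀ (by norm_num : (-1 : ℂ) ≠ 0),
        show -((b.1 : ℤ) + b.2) - c + ((b.1 : ℤ) + b.2) = -(c : ℤ) by ring,
        zpow_neg, zpow_natCast, ← inv_pow, inv_neg, inv_one]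
    have e2 : (c : ℤ) - -((b.1 : ℤ) + b.2) = (b.1 : ℤ) + b.2 + c := by ring
    rw [e2, ← e1]
    ring
  push_cast
  rw [← h1, h2]
  unfold X
  rw [Finset.sum_mul_sum]
  refine Finset.sum_congr rfl fun b _ => Finset.sum_congr rfl fun b' _ => ?_
  rw [w3_sub ((b.1 : ℤ) + b.2) ((b'.1 : ℤ) + b'.2)]
  ring

lemma normsq_Y (L : LocB V σ h φ) (J : Finset ℤ) (f : ℤ → ℂ → ℂ) (c n : ℕ) (z : ℂ) :
    ((‖Y σ h φ J f c n z‖ ^ 2 : ℝ) : ℂ) = ∑ j ∈ J, ∑ l ∈ J, (-1 : ℂ) ^ ((c : ℤ) + l) *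
      (f j z * (starRingEnd ℂ) (f l z) * (E σ h φ (c + j) n z * E σ h φ (-((c : ℤ) + l)) n z)) := by
  have h1 := Complex.mul_conj' (Y σ h φ J f c n z)
  have h2 : (starRingEnd ℂ) (Y σ h φ J f c n z) = ∑ l ∈ J,
      (-1 : ℂ) ^ ((c : ℤ) + l) * ((starRingEnd ℂ) (f l z) * E σ h φ (-((c : ℤ) + l)) n z) := by
    unfold Y
    rw [map_sum]
    refine Finset.sum_congr rfl fun l _ => ?_
    rw [map_mul, conj_E L]
    ring
  push_cast
  rw [← h1, h2]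
  unfold Y
  rw [Finset.sum_mul_sum]
  refine Finset.sum_congr rfl fun j _ => Finset.sum_congr rfl fun l _ => ?_
  ring

lemma int_S (L : LocB V σ h φ) {ζ : ℂ → ℂ} (hζ : Test V ζ) (J : Finset ℤ) {f : ℤ → ℂ → ℂ}
    (hf : ∀ j, Continuous (f j)) (M n : ℕ) :
    ∫ z, ζ z * S σ h φ J f M n z = ∑ j ∈ J, ∑ c ∈ Finset.range M,
      ∑ b ∈ Finset.range M ×ˢ Finset.range M,
      w3 ^ (((b.1 : ℤ) + b.2) - c) * E3 σ h φ (fun z => ζ z * f j z) (c + j)
        (-((b.1 : ℤ) + b.2) - c) (b.1 + b.2) n := by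
  unfold E3
  have h1 := int_sum3 hζ J (Finset.range M) (Finset.range M ×ˢ Finset.range M)
    (fun _ c b => w3 ^ (((b.1 : ℤ) + b.2) - (c : ℤ)))
    (fun j c b z => f j z * (E σ h φ (c + j) n z * E σ h φ (-((b.1 : ℤ) + b.2) - c) n z
      * E σ h φ (b.1 + b.2) n z))
    (fun j c b => (hf j).mul (((cE L _ n).mul (cE L _ n)).mul (cE L _ n)))
  have h2 : ∀ (j : ℤ) (c : ℕ) (b : ℕ × ℕ), (∫ z, ζ z * f j z * (E σ h φ (c + j) n z
      * E σ h φ (-((b.1 : ℤ) + b.2) - c) n z * E σ h φ (b.1 + b.2) n z))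
      = ∫ z, ζ z * (f j z * (E σ h φ (c + j) n z * E σ h φ (-((b.1 : ℤ) + b.2) - c) n z
      * E σ h φ (b.1 + b.2) n z)) := by
    intro j c b
    refine integral_congr_ae (Filter.Eventually.of_forall fun z => ?_)
    simp only []
    ring
  simp only [h2]
  rw [← h1]
  refine integral_congr_ae (Filter.Eventually.of_forall fun z => ?_)
  show ζ z * S σ h φ J f M n z = _
  unfold S X Y
  simp only [Finset.mul_sum, Finset.sum_mul]
  rw [Finset.sum_comm (s := J) (t := Finset.range M)]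
  refine Finset.sum_congr rfl fun c _ => ?_
  rw [Finset.sum_comm (t := J)]
  refine Finset.sum_congr rfl fun j _ => Finset.sum_congr rfl fun b _ => ?_
  rw [w3_sub ((b.1 : ℤ) + b.2) (c : ℤ)]
  ring

/-! ### The Cauchy-Schwarz inequality -/

lemma two_mul_le {t a b : ℝ} (ht : 0 < t) : 2 * (a * b) ≤ t * a ^ 2 + t⁻¹ * b ^ 2 := by
  have h1 : t * (a - t⁻¹ * b) ^ 2 = t * a ^ 2 + t⁻¹ * b ^ 2 - 2 * (a * b) := by
    field_simp
    ring
  have h2 : 0 ≤ t * (a - t⁻¹ * b) ^ 2 := by positivity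
  linarith

lemma cs_sq {I A B : ℝ} (hI : 0 ≤ I) (hA : 0 ≤ A) (hB : 0 ≤ B)
    (hh : ∀ t : ℝ, 0 < t → 2 * I ≤ t * A + t⁻¹ * B) : I ^ 2 ≤ A * B := by
  have h1 : ∀ x : ℝ, 0 ≤ A * (x * x) + (-(2 * I)) * x + B := by
    intro x
    rcases le_or_gt x 0 with hx | hx
    · have e1 : 0 ≤ A * (x * x) := mul_nonneg hA (mul_self_nonneg x)
      have e2 : 0 ≤ (-(2 * I)) * x := by nlinarith
      linarith
    · have e1 := mul_le_mul_of_nonneg_left (hh x hx) hx.le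
      have e2 : x * (x * A + x⁻¹ * B) = A * (x * x) + B := by
        field_simp
      rw [e2] at e1
      linarith
  have h2 := discrim_le_zero h1
  unfold discrim at h2
  nlinarith

lemma main_ineq (L : LocB V σ h φ) {r : ℂ → ℝ} (hζ : Test V (fun z => (r z : ℂ)))
    (hr : ∀ z, 0 ≤ r z) (J : Finset ℤ) {f : ℤ → ℂ → ℂ} (hf : ∀ j, Continuous (f j)) (M n : ℕ) :
    ‖∫ z, (r z : ℂ) * S σ h φ J f M n z‖ ^ 2
      ≤ (∫ z, r z * ∑ c ∈ Finset.range M, ‖Y σ h φ J f c n z‖ ^ 2)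
        * (∫ z, r z * ∑ c ∈ Finset.range M, ‖X σ h φ M c n z‖ ^ 2) := by
  have hrc : Continuous r := Complex.continuous_re.comp hζ.smooth.continuous
  have hrs : HasCompactSupport r := hζ.supp.comp_left (g := Complex.re) Complex.zero_re
  have cY : Continuous fun z => ∑ c ∈ Finset.range M, ‖Y σ h φ J f c n z‖ ^ 2 :=
    continuous_finsetSum _ fun c _ => (cont_Y L J hf c n).norm.pow 2
  have cX : Continuous fun z => ∑ c ∈ Finset.range M, ‖X σ h φ M c n z‖ ^ 2 :=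
    continuous_finsetSum _ fun c _ => (cont_X L M c n).norm.pow 2
  have iY : Integrable fun z => r z * ∑ c ∈ Finset.range M, ‖Y σ h φ J f c n z‖ ^ 2 :=
    (hrc.mul cY).integrable_of_hasCompactSupport hrs.mul_right
  have iX : Integrable fun z => r z * ∑ c ∈ Finset.range M, ‖X σ h φ M c n z‖ ^ 2 :=
    (hrc.mul cX).integrable_of_hasCompactSupport hrs.mul_right
  have iS : Integrable fun z => (r z : ℂ) * S σ h φ J f M n z := test_int hζ (cont_S L J hf M n)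
  refine cs_sq (norm_nonneg _)
    (integral_nonneg fun z => mul_nonneg (hr z) (Finset.sum_nonneg fun c _ => by positivity))
    (integral_nonneg fun z => mul_nonneg (hr z) (Finset.sum_nonneg fun c _ => by positivity)) ?_
  intro t ht
  have hpt : ∀ z, 2 * ‖(r z : ℂ) * S σ h φ J f M n z‖
      ≤ t * (r z * ∑ c ∈ Finset.range M, ‖Y σ h φ J f c n z‖ ^ 2)
        + t⁻¹ * (r z * ∑ c ∈ Finset.range M, ‖X σ h φ M c n z‖ ^ 2) := by
    intro z
    rw [norm_mul, Complex.norm_real, Real.norm_of_nonneg (hr z)]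
    have e1 : 2 * ‖S σ h φ J f M n z‖ ≤ t * ∑ c ∈ Finset.range M, ‖Y σ h φ J f c n z‖ ^ 2
        + t⁻¹ * ∑ c ∈ Finset.range M, ‖X σ h φ M c n z‖ ^ 2 := by
      rw [Finset.mul_sum, Finset.mul_sum, ← Finset.sum_add_distrib]
      have e2 : ‖S σ h φ J f M n z‖ ≤ ∑ c ∈ Finset.range M,
          ‖Y σ h φ J f c n z‖ * ‖X σ h φ M c n z‖ := by
        unfold S
        refine (norm_sum_le _ _).trans (Finset.sum_le_sum fun c _ => ?_)
        rw [norm_mul, norm_w3z, one_mul, norm_mul]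
      calc 2 * ‖S σ h φ J f M n z‖ ≤ 2 * ∑ c ∈ Finset.range M,
          ‖Y σ h φ J f c n z‖ * ‖X σ h φ M c n z‖ := by linarith
        _ = ∑ c ∈ Finset.range M, 2 * (‖Y σ h φ J f c n z‖ * ‖X σ h φ M c n z‖) := by
          rw [Finset.mul_sum]
        _ ≤ _ := Finset.sum_le_sum fun c _ => two_mul_le ht
    have e3 := mul_le_mul_of_nonneg_left e1 (hr z)
    calc 2 * (r z * ‖S σ h φ J f M n z‖) = r z * (2 * ‖S σ h φ J f M n z‖) := by ring
      _ ≤ _ := e3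
      _ = _ := by ring
  have h1 : 2 * ‖∫ z, (r z : ℂ) * S σ h φ J f M n z‖
      ≤ ∫ z, 2 * ‖(r z : ℂ) * S σ h φ J f M n z‖ := by
    rw [integral_const_mul]
    exact mul_le_mul_of_nonneg_left (norm_integral_le_integral_norm _) (by norm_num)
  refine h1.trans ?_
  rw [← integral_const_mul t, ← integral_const_mul t⁻¹,
    ← integral_add (iY.const_mul t) (iX.const_mul t⁻¹)]
  exact integral_mono (iS.norm.const_mul 2) ((iY.const_mul t).add (iX.const_mul t⁻¹)) hpt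

/-! ### The limit of the first factor -/

section meas

variable {Ω : Type} [MeasurableSpace Ω] {μ : Measure Ω} {p u : Ω → ℂ}

lemma lim_Y (L : LocB V σ h φ) (hM : LimM V σ h φ μ p u) {r : ℂ → ℝ}
    (hζ : Test V (fun z => (r z : ℂ))) (J : Finset ℤ) {f : ℤ → ℂ → ℂ}
    (hf : ∀ j, ContDiff ℝ ∞ (f j)) (M : ℕ) :
    Tendsto (fun n => ∫ z, r z * ∑ c ∈ Finset.range M, ‖Y σ h φ J f c n z‖ ^ 2) atTop
      (𝓝 (M * ∫ o, r (p o) * ‖∑ j ∈ J, f j (p o) * u o ^ j‖ ^ 2 ∂μ)) := by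
  have hfc : ∀ j l, ContDiff ℝ ∞ fun z => f j z * (starRingEnd ℂ) (f l z) := fun j l =>
    (hf j).mul (conjCLE.contDiff.comp (hf l))
  have hT : ∀ j l, Test V fun z => (r z : ℂ) * (f j z * (starRingEnd ℂ) (f l z)) := fun j l =>
    test_mul hζ (hfc j l)
  -- the integrals as sums
  have e1 : ∀ n, ((∫ z, r z * ∑ c ∈ Finset.range M, ‖Y σ h φ J f c n z‖ ^ 2 : ℝ) : ℂ)
      = ∑ c ∈ Finset.range M, ∑ j ∈ J, ∑ l ∈ J, (-1 : ℂ) ^ ((c : ℤ) + l) *
        ∫ z, (r z : ℂ) * (f j z * (starRingEnd ℂ) (f l z))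
          * (E σ h φ (c + j) n z * E σ h φ (-((c : ℤ) + l)) n z) := by
    intro n
    have h1 := int_sum3 hζ (Finset.range M) J J (fun c _ l => (-1 : ℂ) ^ ((c : ℤ) + l))
      (fun c j l z => f j z * (starRingEnd ℂ) (f l z)
        * (E σ h φ (c + j) n z * E σ h φ (-((c : ℤ) + l)) n z))
      (fun c j l => (hfc j l).continuous.mul ((cE L _ n).mul (cE L _ n)))
    have h2 : ∀ (c : ℕ) (j l : ℤ), (∫ z, (r z : ℂ) * (f j z * (starRingEnd ℂ) (f l z))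
          * (E σ h φ (c + j) n z * E σ h φ (-((c : ℤ) + l)) n z))
        = ∫ z, (r z : ℂ) * (f j z * (starRingEnd ℂ) (f l z)
          * (E σ h φ (c + j) n z * E σ h φ (-((c : ℤ) + l)) n z)) := by
      intro c j l
      refine integral_congr_ae (Filter.Eventually.of_forall fun z => ?_)
      simp only []
      ring
    simp only [h2]
    rw [← h1, ← integral_complex_ofReal]
    refine integral_congr_ae (Filter.Eventually.of_forall fun z => ?_)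
    show ((r z * ∑ c ∈ Finset.range M, ‖Y σ h φ J f c n z‖ ^ 2 : ℝ) : ℂ) = _
    rw [Complex.ofReal_mul, Complex.ofReal_sum, Finset.mul_sum]
    refine Finset.sum_congr rfl fun c _ => ?_
    rw [normsq_Y L, Finset.mul_sum]
    refine Finset.sum_congr rfl fun j _ => ?_
    rw [Finset.mul_sum]
    refine Finset.sum_congr rfl fun l _ => ?_
    ring
  have e2 : ((M * ∫ o, r (p o) * ‖∑ j ∈ J, f j (p o) * u o ^ j‖ ^ 2 ∂μ : ℝ) : ℂ)
      = ∑ c ∈ Finset.range M, ∑ j ∈ J, ∑ l ∈ J, (-1 : ℂ) ^ ((c : ℤ) + l) *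
        ((-1) ^ (-((c : ℤ) + l)) * ∫ o, (r (p o) : ℂ) * (f j (p o) * (starRingEnd ℂ) (f l (p o)))
          * u o ^ ((c : ℤ) + j + -((c : ℤ) + l)) ∂μ) := by
    have h1 : ∀ c ∈ Finset.range M, (∑ j ∈ J, ∑ l ∈ J, (-1 : ℂ) ^ ((c : ℤ) + l) *
        ((-1) ^ (-((c : ℤ) + l)) * ∫ o, (r (p o) : ℂ) * (f j (p o) * (starRingEnd ℂ) (f l (p o)))
          * u o ^ ((c : ℤ) + j + -((c : ℤ) + l)) ∂μ))
        = ((∫ o, r (p o) * ‖∑ j ∈ J, f j (p o) * u o ^ j‖ ^ 2 ∂μ : ℝ) : ℂ) := by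
      intro c _
      have k1 : ∀ j l : ℤ, (-1 : ℂ) ^ ((c : ℤ) + l) *
        ((-1) ^ (-((c : ℤ) + l)) * ∫ o, (r (p o) : ℂ) * (f j (p o) * (starRingEnd ℂ) (f l (p o)))
          * u o ^ ((c : ℤ) + j + -((c : ℤ) + l)) ∂μ)
          = ∫ o, (r (p o) : ℂ) * (f j (p o) * (starRingEnd ℂ) (f l (p o))) * u o ^ (j - l) ∂μ := by
        intro j l
        rw [← mul_assoc, ← zpow_add₀ (by norm_num : (-1 : ℂ) ≠ 0),
          show (c : ℤ) + l + -((c : ℤ) + l) = 0 by ring, zpow_zero, one_mul,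
          show (c : ℤ) + j + -((c : ℤ) + l) = j - l by ring]
      simp only [k1]
      have k2 : ∀ j l : ℤ, Integrable (fun o => (r (p o) : ℂ) * (f j (p o)
          * (starRingEnd ℂ) (f l (p o))) * u o ^ (j - l)) μ := fun j l =>
        DIR.integ hM.fin hM.mp hM.mu hM.unit (hT j l).smooth.continuous (hT j l).supp (j - l)
      have k3 : ∀ j : ℤ, (∑ l ∈ J, ∫ o, (r (p o) : ℂ) * (f j (p o)
          * (starRingEnd ℂ) (f l (p o))) * u o ^ (j - l) ∂μ)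
          = ∫ o, ∑ l ∈ J, (r (p o) : ℂ) * (f j (p o)
          * (starRingEnd ℂ) (f l (p o))) * u o ^ (j - l) ∂μ := fun j =>
        (integral_finsetSum _ fun l _ => k2 j l).symm
      simp only [k3]
      rw [← integral_finsetSum _ (fun j _ => integrable_finsetSum _ fun l _ => k2 j l),
        ← integral_complex_ofReal]
      refine integral_congr_ae (Filter.Eventually.of_forall fun o => ?_)
      have hu0 : u o ≠ 0 := by
        rw [← norm_ne_zero_iff, hM.unit o]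
        norm_num
      have hcu : (starRingEnd ℂ) (u o) = (u o)⁻¹ := by
        have k4 := Complex.mul_conj' (u o)
        rw [hM.unit o] at k4
        field_simp
        rw [mul_comm]
        simpa using k4
      have k5 := Complex.mul_conj' (∑ j ∈ J, f j (p o) * u o ^ j)
      simp only []
      rw [Complex.ofReal_mul, Complex.ofReal_pow, ← k5, map_sum, Finset.sum_mul_sum,
        Finset.mul_sum]
      refine Finset.sum_congr rfl fun j _ => ?_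
      rw [Finset.mul_sum]
      refine Finset.sum_congr rfl fun l _ => ?_
      rw [map_mul, map_zpow₀, hcu, inv_zpow', sub_eq_add_neg, zpow_add₀ hu0]
      ring
    rw [Finset.sum_congr rfl h1, Finset.sum_const, Finset.card_range, nsmul_eq_mul]
    push_cast
    rfl
  have h1 : Tendsto (fun n => ((∫ z, r z * ∑ c ∈ Finset.range M, ‖Y σ h φ J f c n z‖ ^ 2 : ℝ) : ℂ))
      atTop (𝓝 ((M * ∫ o, r (p o) * ‖∑ j ∈ J, f j (p o) * u o ^ j‖ ^ 2 ∂μ : ℝ) : ℂ)) := by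
    simp only [e1]
    rw [e2]
    exact tendsto_finsetSum _ fun c _ => tendsto_finsetSum _ fun j _ => tendsto_finsetSum _
      fun l _ => (hM.lim _ _ _ (hT j l)).const_mul _
  have h2 := (Complex.continuous_re.tendsto _).comp h1
  exact h2

end meas

/-! ### The bump -/

lemma exists_bump : ∃ β : ℝ → ℝ, Bump β := by
  set β₀ : ℝ → ℝ := fun t => Real.smoothTransition (1 - t) with hβ₀
  have sm : ContDiff ℝ ∞ β₀ := Real.smoothTransition.contDiff.comp (contDiff_const.sub contDiff_id)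
  have nn : ∀ t, 0 ≤ β₀ t := fun t => Real.smoothTransition.nonneg _
  have sp : ∀ t, 1 ≤ t → β₀ t = 0 := fun t ht =>
    Real.smoothTransition.zero_of_nonpos (by linarith)
  have hc : Continuous fun z : ℂ => β₀ (‖z‖ ^ 2) := sm.continuous.comp (continuous_norm.pow 2)
  have hs : HasCompactSupport fun z : ℂ => β₀ (‖z‖ ^ 2) := by
    refine HasCompactSupport.intro (isCompact_closedBall (0 : ℂ) 1) fun z hz => ?_
    rw [Metric.mem_closedBall, dist_zero_right, not_le] at hz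
    exact sp _ (by nlinarith)
  have hp : 0 < ∫ z : ℂ, β₀ (‖z‖ ^ 2) := by
    refine hc.integral_pos_of_hasCompactSupport_nonneg_nonzero hs (fun z => nn _) (x := 0) ?_
    have : β₀ (‖(0 : ℂ)‖ ^ 2) = 1 := by
      rw [hβ₀]
      simp
    simp only [this]
    norm_num
  refine ⟨fun t => β₀ t / ∫ z : ℂ, β₀ (‖z‖ ^ 2), sm.div_const _, fun t => div_nonneg (nn t) hp.le,
    fun t ht => by rw [sp t ht, zero_div], ?_⟩
  rw [integral_div, div_self hp.ne']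

lemma ke_nonneg {β : ℝ → ℝ} (hβ : Bump β) (σ : ℂ → ℝ) (ε : ℝ) (z w : ℂ) : 0 ≤ ke β σ ε z w := by
  unfold ke gb
  have := hβ.nonneg (r2 σ z w / ε ^ 2)
  positivity

/-! ### The kernel at a fixed point -/

section ker

variable {Ω : Type} [MeasurableSpace Ω] {μ : Measure Ω} {κ : Ω → ℝ} {U : Ω → ℂ}

lemma cont_GM (M : ℕ) : Continuous (GM M) := by
  unfold GM
  exact continuous_finsetSum _ fun b _ => continuous_pow b

lemma cont_FM (M : ℕ) : Continuous (FM M) := by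
  unfold FM
  have h1 : Continuous fun t : ℂ => GM M (w3 * t) := (cont_GM M).comp (continuous_const.mul continuous_id)
  have h2 : Continuous fun t : ℂ => GM M ((starRingEnd ℂ) w3 * t) :=
    (cont_GM M).comp (continuous_const.mul continuous_id)
  exact (continuous_const.mul ((h1.pow 2).mul (Complex.continuous_conj.comp (h1.pow 2)))).add
    (((h1.pow 2).mul (h2.pow 2)).mul (cont_GM M))

lemma quot_meas (hU : Measurable U) : Measurable fun x : Ω × Ω => U x.1 / U x.2 :=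
  (hU.comp measurable_fst).div (hU.comp measurable_snd)

lemma quot_norm (hU1 : ∀ o, ‖U o‖ = 1) (x : Ω × Ω) : ‖U x.1 / U x.2‖ = 1 := by
  rw [norm_div, hU1, hU1, div_one]

lemma sq_sub_le {t : ℂ} (ht : ‖t‖ = 1) : ‖t ^ 2 - 1‖ ^ 2 ≤ 4 := by
  have h1 : ‖t ^ 2 - 1‖ ≤ 2 := by
    refine (norm_sub_le _ _).trans ?_
    rw [norm_pow, ht, norm_one]
    norm_num
  have h2 := norm_nonneg (t ^ 2 - 1)
  nlinarith

lemma int_kk [IsFiniteMeasure μ] (hκ : Integrable κ μ) :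
    Integrable (fun x : Ω × Ω => κ x.1 * κ x.2) (μ.prod μ) := hκ.mul_prod hκ

lemma int_sqk [IsFiniteMeasure μ] (hκ : Integrable κ μ) (hU : Measurable U)
    (hU1 : ∀ o, ‖U o‖ = 1) :
    Integrable (fun x : Ω × Ω => κ x.1 * κ x.2 * ‖(U x.1 / U x.2) ^ 2 - 1‖ ^ 2) (μ.prod μ) := by
  refine (int_kk hκ).mul_bdd (c := 4) ?_ (ae_of_all _ fun x => ?_)
  · exact ((((quot_meas hU).pow_const 2).sub_const 1).norm.pow_const 2).aestronglyMeasurable
  · rw [Real.norm_eq_abs, abs_of_nonneg (by positivity)]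
    exact sq_sub_le (quot_norm hU1 x)

lemma meas_ind (hU : Measurable U) (η : ℝ) : Measurable fun x : Ω × Ω =>
    (if ‖w3 * (U x.1 / U x.2) - 1‖ < η then (1 : ℝ) else 0) := by
  refine Measurable.ite ?_ measurable_const measurable_const
  exact measurableSet_lt (((quot_meas hU).const_mul w3).sub_const 1).norm measurable_const

lemma ind_bd (x : Prop) [Decidable x] : ‖(if x then (1 : ℝ) else 0)‖ ≤ 1 := by
  split_ifs <;> simp

lemma int_ind [IsFiniteMeasure μ] (hκ : Integrable κ μ) (hU : Measurable U) (η : ℝ) :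
    Integrable (fun x : Ω × Ω => κ x.1 * κ x.2 *
      (if ‖w3 * (U x.1 / U x.2) - 1‖ < η then (1 : ℝ) else 0)) (μ.prod μ) :=
  (int_kk hκ).mul_bdd (c := 1) (meas_ind hU η).aestronglyMeasurable (ae_of_all _ fun _ => ind_bd _)

lemma ker_bound [IsFiniteMeasure μ] (hκ : Integrable κ μ) (hκ0 : ∀ o, 0 ≤ κ o)
    (hU : Measurable U) (hU1 : ∀ o, ‖U o‖ = 1) (M : ℕ) {CF η : ℝ}
    (hF : ∀ t : ℂ, ‖t‖ = 1 → ‖FM M t‖ ≤ ‖t ^ 2 - 1‖ ^ 2 *
      (CF * (M : ℝ) ^ 3 + (if ‖w3 * t - 1‖ < η then (M : ℝ) ^ 5 else 0))) :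
    ‖∫ x : Ω × Ω, (κ x.1 * κ x.2 : ℝ) * FM M (U x.1 / U x.2) ∂(μ.prod μ)‖ ≤
      CF * (M : ℝ) ^ 3 * (∫ x : Ω × Ω, κ x.1 * κ x.2 * ‖(U x.1 / U x.2) ^ 2 - 1‖ ^ 2 ∂(μ.prod μ))
      + 4 * (M : ℝ) ^ 5 * ∫ x : Ω × Ω, κ x.1 * κ x.2 *
        (if ‖w3 * (U x.1 / U x.2) - 1‖ < η then (1 : ℝ) else 0) ∂(μ.prod μ) := by
  refine (norm_integral_le_integral_norm _).trans ?_
  have i2 := (int_sqk hκ hU hU1).const_mul (CF * (M : ℝ) ^ 3)
  have i3 := (int_ind hκ hU η).const_mul (4 * (M : ℝ) ^ 5)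
  rw [← integral_const_mul, ← integral_const_mul, ← integral_add i2 i3]
  refine integral_mono_of_nonneg (ae_of_all _ fun x => norm_nonneg _) (i2.add i3)
    (ae_of_all _ fun x => ?_)
  simp only []
  have ht := quot_norm hU1 x
  have hk : 0 ≤ κ x.1 * κ x.2 := mul_nonneg (hκ0 _) (hκ0 _)
  rw [norm_mul, Complex.norm_real, Real.norm_of_nonneg hk]
  have h1 := mul_le_mul_of_nonneg_left (hF _ ht) hk
  refine h1.trans ?_
  show _ ≤ CF * (M : ℝ) ^ 3 * (κ x.1 * κ x.2 * ‖(U x.1 / U x.2) ^ 2 - 1‖ ^ 2)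
      + 4 * (M : ℝ) ^ 5 * (κ x.1 * κ x.2 *
        (if ‖w3 * (U x.1 / U x.2) - 1‖ < η then (1 : ℝ) else 0))
  have h2 := sq_sub_le ht
  split_ifs with hc
  · have h3 : κ x.1 * κ x.2 * (M : ℝ) ^ 5 * ‖(U x.1 / U x.2) ^ 2 - 1‖ ^ 2
        ≤ κ x.1 * κ x.2 * (M : ℝ) ^ 5 * 4 := mul_le_mul_of_nonneg_left h2 (by positivity)
    linarith
  · linarith

lemma ker_two [IsFiniteMeasure μ] (hκ : Integrable κ μ) (hU : Measurable U)
    (hU1 : ∀ o, ‖U o‖ = 1) :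
    ((∫ x : Ω × Ω, κ x.1 * κ x.2 * ‖(U x.1 / U x.2) ^ 2 - 1‖ ^ 2 ∂(μ.prod μ) : ℝ) : ℂ)
      = 2 * ((∫ o, (κ o : ℂ) * U o ^ (0 : ℤ) ∂μ) * ∫ o, (κ o : ℂ) * U o ^ (0 : ℤ) ∂μ)
        - 2 * ((∫ o, (κ o : ℂ) * U o ^ (2 : ℤ) ∂μ) * ∫ o, (κ o : ℂ) * U o ^ (-2 : ℤ) ∂μ) := by
  have hi : ∀ k : ℤ, Integrable (fun o => (κ o : ℂ) * U o ^ k) μ := by
    intro k
    refine hκ.ofReal.mul_bdd (c := 1) (hU.pow_const k).aestronglyMeasurable (ae_of_all _ fun o => ?_)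
    rw [norm_zpow, hU1, one_zpow]
  have hp : ∀ k l : ℤ, Integrable (fun x : Ω × Ω => ((κ x.1 : ℂ) * U x.1 ^ k)
      * ((κ x.2 : ℂ) * U x.2 ^ l)) (μ.prod μ) := fun k l => (hi k).mul_prod (hi l)
  have hq : ∀ k l : ℤ, ∫ x : Ω × Ω, ((κ x.1 : ℂ) * U x.1 ^ k)
      * ((κ x.2 : ℂ) * U x.2 ^ l) ∂(μ.prod μ)
      = (∫ o, (κ o : ℂ) * U o ^ k ∂μ) * ∫ o, (κ o : ℂ) * U o ^ l ∂μ := fun k l =>
    integral_prod_mul (fun o => (κ o : ℂ) * U o ^ k) (fun o => (κ o : ℂ) * U o ^ l)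
  have e : ∀ x : Ω × Ω, ((κ x.1 * κ x.2 * ‖(U x.1 / U x.2) ^ 2 - 1‖ ^ 2 : ℝ) : ℂ)
      = 2 * (((κ x.1 : ℂ) * U x.1 ^ (0 : ℤ)) * ((κ x.2 : ℂ) * U x.2 ^ (0 : ℤ)))
        - ((κ x.1 : ℂ) * U x.1 ^ (2 : ℤ)) * ((κ x.2 : ℂ) * U x.2 ^ (-2 : ℤ))
        - ((κ x.1 : ℂ) * U x.1 ^ (-2 : ℤ)) * ((κ x.2 : ℂ) * U x.2 ^ (2 : ℤ)) := by
    intro x
    have hne : ∀ o, U o ≠ 0 := fun o => by
      rw [← norm_ne_zero_iff, hU1 o]
      norm_num
    have hcu : ∀ o, (starRingEnd ℂ) (U o) = (U o)⁻¹ := by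
      intro o
      have k4 := Complex.mul_conj' (U o)
      rw [hU1 o] at k4
      have := hne o
      field_simp
      rw [mul_comm]
      simpa using k4
    have k1 := Complex.mul_conj' ((U x.1 / U x.2) ^ 2 - 1)
    rw [Complex.ofReal_mul, Complex.ofReal_mul, Complex.ofReal_pow, ← k1]
    simp only [map_sub, map_pow, map_div₀, hcu, map_one]
    have n1 := hne x.1
    have n2 := hne x.2
    rw [zpow_zero, zpow_zero, zpow_neg, zpow_neg, show ((2 : ℤ)) = ((2 : ℕ) : ℤ) by norm_num,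
      zpow_natCast, zpow_natCast]
    field_simp
    ring
  have i1 : Integrable (fun x : Ω × Ω =>
      2 * (((κ x.1 : ℂ) * U x.1 ^ (0 : ℤ)) * ((κ x.2 : ℂ) * U x.2 ^ (0 : ℤ)))
        - ((κ x.1 : ℂ) * U x.1 ^ (2 : ℤ)) * ((κ x.2 : ℂ) * U x.2 ^ (-2 : ℤ))) (μ.prod μ) :=
    ((hp 0 0).const_mul 2).sub (hp 2 (-2))
  rw [← integral_complex_ofReal]
  simp only [e]
  rw [integral_sub i1 (hp (-2) 2),
    integral_sub ((hp 0 0).const_mul 2) (hp 2 (-2)), integral_const_mul, hq, hq, hq]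
  ring

lemma ker_ind [IsFiniteMeasure μ] (hκ : Integrable κ μ) (hκ0 : ∀ o, 0 ≤ κ o) (hU : Measurable U)
    (η : ℝ) :
    0 ≤ ∫ x : Ω × Ω, κ x.1 * κ x.2 *
        (if ‖w3 * (U x.1 / U x.2) - 1‖ < η then (1 : ℝ) else 0) ∂(μ.prod μ) ∧
    ∫ x : Ω × Ω, κ x.1 * κ x.2 *
        (if ‖w3 * (U x.1 / U x.2) - 1‖ < η then (1 : ℝ) else 0) ∂(μ.prod μ)
      ≤ ‖∫ o, (κ o : ℂ) * U o ^ (0 : ℤ) ∂μ‖ ^ 2 := by
  have h0 : ∀ x : Ω × Ω, 0 ≤ (if ‖w3 * (U x.1 / U x.2) - 1‖ < η then (1 : ℝ) else 0) := fun x => by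
    split_ifs <;> norm_num
  have h1 : ∀ x : Ω × Ω, (if ‖w3 * (U x.1 / U x.2) - 1‖ < η then (1 : ℝ) else 0) ≤ 1 := fun x => by
    split_ifs <;> norm_num
  refine ⟨integral_nonneg fun x => mul_nonneg (mul_nonneg (hκ0 _) (hκ0 _)) (h0 x), ?_⟩
  have e1 : ∫ o, (κ o : ℂ) * U o ^ (0 : ℤ) ∂μ = ((∫ o, κ o ∂μ : ℝ) : ℂ) := by
    rw [← integral_complex_ofReal]
    simp only [zpow_zero, mul_one]
  have e2 : ‖∫ o, (κ o : ℂ) * U o ^ (0 : ℤ) ∂μ‖ ^ 2 = ∫ x : Ω × Ω, κ x.1 * κ x.2 ∂(μ.prod μ) := by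
    rw [e1, Complex.norm_real, Real.norm_of_nonneg (integral_nonneg hκ0), integral_prod_mul]
    ring
  rw [e2]
  refine integral_mono (int_ind hκ hU η) (int_kk hκ) fun x => ?_
  exact mul_le_of_le_one_right (mul_nonneg (hκ0 _) (hκ0 _)) (h1 x)

end ker

/-! ### The Wick terms -/

section wick

variable {Ω : Type} [MeasurableSpace Ω] {μ : Measure Ω} {p u : Ω → ℂ} {β : ℝ → ℝ}

/-- the odd moments vanish, uniformly in the order -/
lemma odd_zero (hβ : Bump β) (hV : IsOpen V) (hσ : ContDiff ℝ ∞ σ) (hD : DirM V σ μ p u)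
    {K : Set ℂ} (hK : IsCompact K) (hKV : K ⊆ V) :
    ∀ᶠ ε in 𝓝[>] (0 : ℝ), ∀ z ∈ K, ∀ k : ℤ, Odd k → pe β σ ε μ p u k z = 0 := by
  obtain ⟨δ, hδ, hδV⟩ := hK.exists_cthickening_subset_open hV hKV
  obtain ⟨χ, hχ, hχ1, -⟩ := QE.exists_cutoff hV hK.cthickening hδV
  obtain ⟨K₀, hK₀, h0⟩ := hD.cpt
  obtain ⟨C, hC, hke⟩ := stmtKsz β σ (K₀ ∪ Metric.cthickening δ K) hβ hσ (hK₀.union hK.cthickening)
  have hε : ∀ᶠ ε in 𝓝[>] (0 : ℝ), 0 < ε ∧ C * ε < δ := by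
    refine (eventually_mem_nhdsWithin).and ?_
    have h1 : Tendsto (fun ε : ℝ => C * ε) (𝓝 0) (𝓝 (C * 0)) :=
      (continuous_const.mul continuous_id).tendsto 0
    rw [mul_zero] at h1
    exact (h1.mono_left nhdsWithin_le_nhds).eventually (gt_mem_nhds hδ)
  filter_upwards [hε] with ε hε z hz k hk
  have hT : Test V (fun w => χ w * ((ke β σ ε z w : ℂ) * (ta σ z w)⁻¹ ^ k)) :=
    hχ.mul hV ((PEO.contDiff_ke hβ hσ ε z).mul (PEO.contDiff_ta hσ k z)).contDiffOn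
  have h1 := hD.odd k hk _ hT
  have h2 : pe β σ ε μ p u k z =
      ∫ o, (χ (p o) * ((ke β σ ε z (p o) : ℂ) * (ta σ z (p o))⁻¹ ^ k)) * u o ^ k ∂μ := by
    unfold pe
    refine integral_congr_ae ?_
    filter_upwards [h0] with o ho
    have hz1 : z ∈ Metric.cthickening δ K := Metric.self_subset_cthickening K hz
    obtain ⟨-, -, h3, -, -⟩ := hke ε hε.1 z (Or.inr hz1) (p o) (Or.inl ho)
    by_cases h4 : C * ε < ‖p o - z‖
    · rw [h3 h4]
      simp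
    · have h5 : p o ∈ Metric.cthickening δ K := by
        refine Metric.mem_cthickening_of_dist_le (p o) z δ K hz ?_
        rw [dist_eq_norm]
        linarith
      have h6 : χ (p o) = 1 := (hχ1 _ h5).self_of_nhds
      rw [h6, one_mul, mul_zpow]
      ring
  rw [h2, h1]

/-- the kernel at a point, as a function on `Ω` -/
def kz (β : ℝ → ℝ) (σ : ℂ → ℝ) (ε : ℝ) (p : Ω → ℂ) (z : ℂ) (o : Ω) : ℝ := ke β σ ε z (p o)

/-- the transported direction -/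
def uz (σ : ℂ → ℝ) (p u : Ω → ℂ) (z : ℂ) (o : Ω) : ℂ := (ta σ z (p o))⁻¹ * u o

lemma cont_ke2 (hβ : Bump β) (hσ : ContDiff ℝ ∞ σ) (ε : ℝ) :
    Continuous fun x : ℂ × ℂ => ke β σ ε x.1 x.2 := by
  have h1 := (PES.contDiff_FK hβ.smooth hσ ε 0).continuous
  have h2 := Complex.continuous_re.comp h1
  refine h2.congr fun x => ?_
  show (PES.FK β σ ε 0 x).re = _
  unfold PES.FK
  rw [zpow_zero, mul_one, Complex.ofReal_re]

lemma cont_ta2 (hσ : ContDiff ℝ ∞ σ) : Continuous fun x : ℂ × ℂ => (ta σ x.1 x.2)⁻¹ := by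
  have h4 : Continuous (sg σ) := (PES.contDiff_sg hσ).continuous
  have h0 : Continuous fun x : ℂ × ℂ => ta σ x.1 x.2 := by
    unfold ta
    refine Complex.continuous_exp.comp (Continuous.mul ?_ continuous_const)
    refine Complex.continuous_ofReal.comp (Complex.continuous_im.comp ?_)
    exact ((h4.comp continuous_fst).add (h4.comp continuous_snd)).mul
      (continuous_snd.sub continuous_fst)
  refine h0.inv₀ fun x => ?_
  rw [← norm_ne_zero_iff, XBD.norm_ta]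
  norm_num

lemma kz_int [IsFiniteMeasure μ] (hβ : Bump β) (hσ : ContDiff ℝ ∞ σ) (hp : Measurable p)
    (hc : ∃ K, IsCompact K ∧ ∀ᵐ o ∂μ, p o ∈ K) (ε : ℝ) (z : ℂ) :
    Integrable (kz β σ ε p z) μ := by
  obtain ⟨K, hK, hpK⟩ := hc
  have h1 : Continuous fun w => ke β σ ε z w :=
    (cont_ke2 hβ hσ ε).comp (f := fun w : ℂ => (z, w)) (continuous_const.prodMk continuous_id)
  obtain ⟨C, hC⟩ := hK.exists_bound_of_continuousOn h1.continuousOn
  refine Integrable.of_bound (h1.measurable.comp hp).aestronglyMeasurable C ?_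
  filter_upwards [hpK] with o ho
  exact hC _ ho

lemma uz_meas (hσ : ContDiff ℝ ∞ σ) (hp : Measurable p) (hu : Measurable u) (z : ℂ) :
    Measurable (uz σ p u z) := by
  have h1 := (cont_ta2 hσ).comp (f := fun w : ℂ => (z, w)) (continuous_const.prodMk continuous_id)
  have h2 : Measurable fun o => (ta σ z (p o))⁻¹ := h1.measurable.comp hp
  unfold uz
  exact h2.mul hu

lemma uz_norm (hu : ∀ o, ‖u o‖ = 1) (z : ℂ) (o : Ω) : ‖uz σ p u z o‖ = 1 := by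
  unfold uz
  rw [norm_mul, norm_inv, XBD.norm_ta, hu, inv_one, one_mul]

/-- the pairs at about 120 degrees, as a function of the point -/
def Xi (β : ℝ → ℝ) (σ : ℂ → ℝ) (ε η : ℝ) (μ : Measure Ω) (p u : Ω → ℂ) (z : ℂ) : ℝ :=
  ∫ x : Ω × Ω, ke β σ ε z (p x.1) * ke β σ ε z (p x.2) *
        (if ‖w3 * (((ta σ z (p x.1))⁻¹ * u x.1) / ((ta σ z (p x.2))⁻¹ * u x.2)) - 1‖ < η
          then 1 else 0) ∂(μ.prod μ)

lemma Xi_meas [IsFiniteMeasure μ] (hβ : Bump β) (hσ : ContDiff ℝ ∞ σ) (hp : Measurable p)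
    (hu : Measurable u) (ε η : ℝ) : StronglyMeasurable (Xi β σ ε η μ p u) := by
  have m1 : Measurable fun y : ℂ × (Ω × Ω) => ke β σ ε y.1 (p y.2.1) :=
    (cont_ke2 hβ hσ ε).measurable.comp
      (measurable_fst.prodMk (hp.comp (measurable_fst.comp measurable_snd)))
  have m2 : Measurable fun y : ℂ × (Ω × Ω) => ke β σ ε y.1 (p y.2.2) :=
    (cont_ke2 hβ hσ ε).measurable.comp
      (measurable_fst.prodMk (hp.comp (measurable_snd.comp measurable_snd)))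
  have m3 : Measurable fun y : ℂ × (Ω × Ω) => (ta σ y.1 (p y.2.1))⁻¹ * u y.2.1 :=
    ((cont_ta2 hσ).measurable.comp
      (measurable_fst.prodMk (hp.comp (measurable_fst.comp measurable_snd)))).mul
      (hu.comp (measurable_fst.comp measurable_snd))
  have m4 : Measurable fun y : ℂ × (Ω × Ω) => (ta σ y.1 (p y.2.2))⁻¹ * u y.2.2 :=
    ((cont_ta2 hσ).measurable.comp
      (measurable_fst.prodMk (hp.comp (measurable_snd.comp measurable_snd)))).mul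
      (hu.comp (measurable_snd.comp measurable_snd))
  have m5 : Measurable fun y : ℂ × (Ω × Ω) => (if ‖w3 * (((ta σ y.1 (p y.2.1))⁻¹ * u y.2.1) /
      ((ta σ y.1 (p y.2.2))⁻¹ * u y.2.2)) - 1‖ < η then (1 : ℝ) else 0) := by
    refine Measurable.ite ?_ measurable_const measurable_const
    exact measurableSet_lt (((m3.div m4).const_mul w3).sub_const 1).norm measurable_const
  have m6 := ((m1.mul m2).mul m5).stronglyMeasurable
  exact m6.integral_prod_right (ν := μ.prod μ)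

lemma cont_wkp {P : ℤ → ℂ → ℂ} (hP : ∀ k, Continuous (P k)) (a b c d : ℤ) :
    Continuous (wkp P a b c d) := by
  unfold wkp
  have h : ∀ j k : ℤ, Continuous fun z => P j z * P k z := fun j k => (hP j).mul (hP k)
  exact ((continuous_const.mul (h _ _)).add (continuous_const.mul (h _ _))).add
    (continuous_const.mul (h _ _))

lemma wick_bound [IsFiniteMeasure μ] (hWks : StmtWks) (hPeS : StmtPeS) (hβ : Bump β)
    (hσ : ContDiff ℝ ∞ σ) (hD : DirM V σ μ p u) {r : ℂ → ℝ} (hζ : Test V (fun z => (r z : ℂ)))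
    (hr : ∀ z, 0 ≤ r z) {M : ℕ} (hM6 : 6 ∣ M) (hM0 : 0 < M) {CF η : ℝ} (hCF : 0 ≤ CF)
    (hF : ∀ t : ℂ, ‖t‖ = 1 → ‖FM M t‖ ≤ ‖t ^ 2 - 1‖ ^ 2 *
      (CF * (M : ℝ) ^ 3 + (if ‖w3 * t - 1‖ < η then (M : ℝ) ^ 5 else 0)))
    {ε : ℝ} (hε : 0 < ε)
    (hodd : ∀ z ∈ tsupport r, ∀ k : ℤ, Odd k → pe β σ ε μ p u k z = 0) :
    ‖∑ c ∈ Finset.range M, ∑ b ∈ Finset.range M ×ˢ Finset.range M,
      ∑ b' ∈ Finset.range M ×ˢ Finset.range M,
        w3 ^ (((b.1 : ℤ) + b.2) - (b'.1 + b'.2)) * (-1) ^ c *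
          ∫ z, (r z : ℂ) * wkp (pe β σ ε μ p u) (-((b.1 : ℤ) + b.2) - c) (b.1 + b.2)
            (b'.1 + b'.2 + c) (-((b'.1 : ℤ) + b'.2)) z‖
      ≤ CF * (M : ℝ) ^ 3 * ‖∫ z, (r z : ℂ) * (2 * (pe β σ ε μ p u 0 z * pe β σ ε μ p u 0 z)
        - 2 * (pe β σ ε μ p u 2 z * pe β σ ε μ p u (-2) z))‖
        + 4 * (M : ℝ) ^ 5 * ∫ z, r z * Xi β σ ε η μ p u z := by
  have hPc : ∀ k, Continuous (pe β σ ε μ p u k) := fun k =>
    (hPeS β V σ Ω μ p u hβ hσ hD ε hε k).1.continuous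
  have hrc : Continuous r := Complex.continuous_re.comp hζ.smooth.continuous
  have hrs : HasCompactSupport r := hζ.supp.comp_left (g := Complex.re) Complex.zero_re
  have h1 := int_sum3 hζ (Finset.range M) (Finset.range M ×ˢ Finset.range M)
    (Finset.range M ×ˢ Finset.range M)
    (fun c b b' => w3 ^ (((b.1 : ℤ) + b.2) - (b'.1 + b'.2)) * (-1) ^ c)
    (fun c b b' z => wkp (pe β σ ε μ p u) (-((b.1 : ℤ) + b.2) - c) (b.1 + b.2)
            (b'.1 + b'.2 + c) (-((b'.1 : ℤ) + b'.2)) z)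
    (fun c b b' => cont_wkp hPc _ _ _ _)
  rw [← h1]
  set H : ℂ → ℂ := fun z => 2 * (pe β σ ε μ p u 0 z * pe β σ ε μ p u 0 z)
        - 2 * (pe β σ ε μ p u 2 z * pe β σ ε μ p u (-2) z) with hH
  have hHc : Continuous H := (continuous_const.mul ((hPc 0).mul (hPc 0))).sub
    (continuous_const.mul ((hPc 2).mul (hPc (-2))))
  have key : ∀ z ∈ tsupport r, ‖∑ c ∈ Finset.range M, ∑ b ∈ Finset.range M ×ˢ Finset.range M,
      ∑ b' ∈ Finset.range M ×ˢ Finset.range M,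
        w3 ^ (((b.1 : ℤ) + b.2) - (b'.1 + b'.2)) * (-1) ^ c *
          wkp (pe β σ ε μ p u) (-((b.1 : ℤ) + b.2) - c) (b.1 + b.2)
            (b'.1 + b'.2 + c) (-((b'.1 : ℤ) + b'.2)) z‖
      ≤ CF * (M : ℝ) ^ 3 * (H z).re + 4 * (M : ℝ) ^ 5 * Xi β σ ε η μ p u z := by
    intro z hz
    have k1 := kz_int (μ := μ) hβ hσ hD.mp hD.cpt ε z
    have k2 := uz_meas hσ hD.mp hD.mu z
    have k3 := uz_norm (σ := σ) (p := p) hD.unit z
    rw [hWks Ω μ (kz β σ ε p z) (uz σ p u z) M (pe β σ ε μ p u) z hD.fin k1 k2 k3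
      (fun k => rfl) (hodd z hz) hM6 hM0]
    have k4 := ker_bound k1 (fun o => ke_nonneg hβ σ ε z (p o)) k2 k3 M hF
    have k5 := congrArg Complex.re (ker_two k1 k2 k3)
    rw [Complex.ofReal_re] at k5
    rw [k5] at k4
    exact k4
  have iH : Integrable fun z => r z * (H z).re :=
    (hrc.mul (Complex.continuous_re.comp hHc)).integrable_of_hasCompactSupport hrs.mul_right
  have hXi : ∀ z, 0 ≤ Xi β σ ε η μ p u z ∧ Xi β σ ε η μ p u z ≤ ‖pe β σ ε μ p u 0 z‖ ^ 2 := fun z =>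
    ker_ind (kz_int (μ := μ) hβ hσ hD.mp hD.cpt ε z) (fun o => ke_nonneg hβ σ ε z (p o))
      (uz_meas hσ hD.mp hD.mu z) η
  have iX : Integrable fun z => r z * Xi β σ ε η μ p u z := by
    have i0 : Integrable fun z => r z * ‖pe β σ ε μ p u 0 z‖ ^ 2 :=
      (hrc.mul ((hPc 0).norm.pow 2)).integrable_of_hasCompactSupport hrs.mul_right
    refine i0.mono' (hrc.measurable.aestronglyMeasurable.mul
      (Xi_meas hβ hσ hD.mp hD.mu ε η).aestronglyMeasurable) (ae_of_all _ fun z => ?_)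
    rw [Real.norm_eq_abs, abs_of_nonneg (mul_nonneg (hr z) (hXi z).1)]
    exact mul_le_mul_of_nonneg_left (hXi z).2 (hr z)
  have hpt : ∀ z, ‖∑ c ∈ Finset.range M, ∑ b ∈ Finset.range M ×ˢ Finset.range M,
      ∑ b' ∈ Finset.range M ×ˢ Finset.range M,
        w3 ^ (((b.1 : ℤ) + b.2) - (b'.1 + b'.2)) * (-1) ^ c *
          ((r z : ℂ) * wkp (pe β σ ε μ p u) (-((b.1 : ℤ) + b.2) - c) (b.1 + b.2)
            (b'.1 + b'.2 + c) (-((b'.1 : ℤ) + b'.2)) z)‖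
      ≤ CF * (M : ℝ) ^ 3 * (r z * (H z).re) + 4 * (M : ℝ) ^ 5 * (r z * Xi β σ ε η μ p u z) := by
    intro z
    have e1 : (∑ c ∈ Finset.range M, ∑ b ∈ Finset.range M ×ˢ Finset.range M,
      ∑ b' ∈ Finset.range M ×ˢ Finset.range M,
        w3 ^ (((b.1 : ℤ) + b.2) - (b'.1 + b'.2)) * (-1) ^ c *
          ((r z : ℂ) * wkp (pe β σ ε μ p u) (-((b.1 : ℤ) + b.2) - c) (b.1 + b.2)
            (b'.1 + b'.2 + c) (-((b'.1 : ℤ) + b'.2)) z))
        = (r z : ℂ) * ∑ c ∈ Finset.range M, ∑ b ∈ Finset.range M ×ˢ Finset.range M,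
      ∑ b' ∈ Finset.range M ×ˢ Finset.range M,
        w3 ^ (((b.1 : ℤ) + b.2) - (b'.1 + b'.2)) * (-1) ^ c *
          wkp (pe β σ ε μ p u) (-((b.1 : ℤ) + b.2) - c) (b.1 + b.2)
            (b'.1 + b'.2 + c) (-((b'.1 : ℤ) + b'.2)) z := by
      rw [Finset.mul_sum]
      refine Finset.sum_congr rfl fun c _ => ?_
      rw [Finset.mul_sum]
      refine Finset.sum_congr rfl fun b _ => ?_
      rw [Finset.mul_sum]
      exact Finset.sum_congr rfl fun b' _ => by ring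
    rw [e1, norm_mul, Complex.norm_real, Real.norm_of_nonneg (hr z)]
    by_cases hz : z ∈ tsupport r
    · have := mul_le_mul_of_nonneg_left (key z hz) (hr z)
      linarith
    · have hz0 : r z = 0 := image_eq_zero_of_notMem_tsupport hz
      rw [hz0]
      simp
  refine (norm_integral_le_integral_norm _).trans ?_
  have i2 := iH.const_mul (CF * (M : ℝ) ^ 3)
  have i3 := iX.const_mul (4 * (M : ℝ) ^ 5)
  have e2 : ∫ z, (CF * (M : ℝ) ^ 3 * (r z * (H z).re)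
      + 4 * (M : ℝ) ^ 5 * (r z * Xi β σ ε η μ p u z))
      = CF * (M : ℝ) ^ 3 * (∫ z, r z * (H z).re)
        + 4 * (M : ℝ) ^ 5 * ∫ z, r z * Xi β σ ε η μ p u z := by
    rw [← integral_const_mul, ← integral_const_mul]
    exact integral_add i2 i3
  refine (le_trans (integral_mono_of_nonneg (g := fun z => CF * (M : ℝ) ^ 3 * (r z * (H z).re)
      + 4 * (M : ℝ) ^ 5 * (r z * Xi β σ ε η μ p u z)) (ae_of_all _ fun z => norm_nonneg _)
      (i2.add i3) (ae_of_all _ hpt)) e2.le).trans ?_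
  have e3 : ∫ z, r z * (H z).re = (∫ z, (r z : ℂ) * H z).re := by
    have k1 := integral_re (𝕜 := ℂ) (test_int hζ hHc)
    rw [show (∫ z, (r z : ℂ) * H z).re = RCLike.re (∫ z, (r z : ℂ) * H z) from rfl, ← k1]
    refine integral_congr_ae (Filter.Eventually.of_forall fun z => ?_)
    show r z * (H z).re = ((r z : ℂ) * H z).re
    rw [Complex.re_ofReal_mul]
  have e4 : ∫ z, r z * (H z).re ≤ ‖∫ z, (r z : ℂ) * H z‖ := by
    rw [e3]
    exact Complex.re_le_norm _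
  have e5 : 0 ≤ CF * (M : ℝ) ^ 3 := by positivity
  have e6 := mul_le_mul_of_nonneg_left e4 e5
  linarith

end wick

/-! ### The limits -/

lemma lim_S (hE3s : StmtE3s) (hCls : StmtCls) (L : LocB V σ h φ) {ζ : ℂ → ℂ} (hζ : Test V ζ)
    (J : Finset ℤ) {f : ℤ → ℂ → ℂ} (hf : ∀ j, ContDiff ℝ ∞ (f j)) {M : ℕ} (hM6 : 6 ∣ M)
    (hM0 : 0 < M) :
    Tendsto (fun n => (∫ z, ζ z * S σ h φ J f M n z)
      - (M : ℂ) ^ 3 / 2 * TT σ h φ J (fun j z => ζ z * f j z) n) atTop (𝓝 0) := by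
  have h1 : Tendsto (fun n => ∑ j ∈ J, ∑ c ∈ Finset.range M,
      ∑ b ∈ Finset.range M ×ˢ Finset.range M, w3 ^ (((b.1 : ℤ) + b.2) - c) *
        (E3 σ h φ (fun z => ζ z * f j z) (c + j) (-((b.1 : ℤ) + b.2) - c) (b.1 + b.2) n
          - (if 3 ∣ j then cl3 (-((b.1 : ℤ) + b.2) - c) (b.1 + b.2)
            * E3 σ h φ (fun z => ζ z * f j z) (j / 3) (j / 3) (j / 3) n else 0))) atTop
      (𝓝 (∑ j ∈ J, ∑ c ∈ Finset.range M,
      ∑ b ∈ Finset.range M ×ˢ Finset.range M, w3 ^ (((b.1 : ℤ) + b.2) - c) * 0)) :=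
    tendsto_finsetSum _ fun j _ => tendsto_finsetSum _ fun c _ => tendsto_finsetSum _ fun b _ =>
      (hE3s V σ h φ L _ (test_mul hζ (hf j)) _ _ _ j (by ring)).const_mul _
  simp only [mul_zero, Finset.sum_const_zero] at h1
  refine h1.congr fun n => ?_
  rw [int_S L hζ J (fun j => (hf j).continuous)]
  have h2 : ∀ j : ℤ, (∑ c ∈ Finset.range M, ∑ b ∈ Finset.range M ×ˢ Finset.range M,
      w3 ^ (((b.1 : ℤ) + b.2) - c) * (if 3 ∣ j then cl3 (-((b.1 : ℤ) + b.2) - c) (b.1 + b.2)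
            * E3 σ h φ (fun z => ζ z * f j z) (j / 3) (j / 3) (j / 3) n else 0))
      = (M : ℂ) ^ 3 / 2 * (if 3 ∣ j then E3 σ h φ (fun z => ζ z * f j z) (j / 3) (j / 3) (j / 3) n
        else 0) := by
    intro j
    by_cases hj : 3 ∣ j
    · simp only [if_pos hj]
      rw [← (hCls M hM6 hM0).2, Finset.sum_mul]
      refine Finset.sum_congr rfl fun c _ => ?_
      rw [Finset.sum_mul]
      exact Finset.sum_congr rfl fun b _ => by ring
    · simp only [if_neg hj, mul_zero, Finset.sum_const_zero]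
  unfold TT
  simp only [mul_sub, Finset.sum_sub_distrib]
  rw [Finset.sum_congr rfl fun j _ => h2 j, Finset.mul_sum]

lemma lim_X (hFouB : StmtFouB) (hCls : StmtCls) {Ω : Type} [MeasurableSpace Ω] {μ : Measure Ω}
    {p u : Ω → ℂ} {β : ℝ → ℝ} (hβ : Bump β) (L : LocB V σ h φ) (hM : LimM V σ h φ μ p u)
    {ε : ℕ → ℝ} (hε : ∀ n, 0 < ε n) (hε0 : Tendsto ε atTop (𝓝 0)) {r : ℂ → ℝ}
    (hζ : Test V (fun z => (r z : ℂ))) {M : ℕ} (hM6 : 6 ∣ M) (hM0 : 0 < M) :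
    Tendsto (fun n => ((∫ z, r z * ∑ c ∈ Finset.range M, ‖X σ h φ M c n z‖ ^ 2 : ℝ) : ℂ)
      - ∑ c ∈ Finset.range M, ∑ b ∈ Finset.range M ×ˢ Finset.range M,
        ∑ b' ∈ Finset.range M ×ˢ Finset.range M,
        w3 ^ (((b.1 : ℤ) + b.2) - (b'.1 + b'.2)) * (-1) ^ c *
          ∫ z, (r z : ℂ) * wkp (pe β σ (ε n) μ p u) (-((b.1 : ℤ) + b.2) - c) (b.1 + b.2)
            (b'.1 + b'.2 + c) (-((b'.1 : ℤ) + b'.2)) z) atTop (𝓝 0) := by
  have h1 : Tendsto (fun n => ∑ c ∈ Finset.range M, ∑ b ∈ Finset.range M ×ˢ Finset.range M,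
        ∑ b' ∈ Finset.range M ×ˢ Finset.range M,
        w3 ^ (((b.1 : ℤ) + b.2) - (b'.1 + b'.2)) * (-1) ^ c *
        (E4 σ h φ (fun z => (r z : ℂ)) (-((b.1 : ℤ) + b.2) - c) (b.1 + b.2)
            (b'.1 + b'.2 + c) (-((b'.1 : ℤ) + b'.2)) n
          - ((∫ z, (r z : ℂ) * wkp (pe β σ (ε n) μ p u) (-((b.1 : ℤ) + b.2) - c) (b.1 + b.2)
            (b'.1 + b'.2 + c) (-((b'.1 : ℤ) + b'.2)) z)
            + cl4 (-((b.1 : ℤ) + b.2) - c) (b.1 + b.2) (b'.1 + b'.2 + c) (-((b'.1 : ℤ) + b'.2))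
              * (E4 σ h φ (fun z => (r z : ℂ)) 0 0 0 0 n
                - ∫ z, (r z : ℂ) * wkp (pe β σ (ε n) μ p u) 0 0 0 0 z)))) atTop
      (𝓝 (∑ c ∈ Finset.range M, ∑ b ∈ Finset.range M ×ˢ Finset.range M,
        ∑ b' ∈ Finset.range M ×ˢ Finset.range M,
        w3 ^ (((b.1 : ℤ) + b.2) - (b'.1 + b'.2)) * (-1) ^ c * 0)) :=
    tendsto_finsetSum _ fun c _ => tendsto_finsetSum _ fun b _ => tendsto_finsetSum _ fun b' _ =>
      (hFouB β V σ h φ Ω μ p u ε hβ L hM hε hε0 _ hζ _ _ _ _ (by ring)).const_mul _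
  simp only [mul_zero, Finset.sum_const_zero] at h1
  refine h1.congr fun n => ?_
  have e1 : ((∫ z, r z * ∑ c ∈ Finset.range M, ‖X σ h φ M c n z‖ ^ 2 : ℝ) : ℂ)
      = ∑ c ∈ Finset.range M, ∑ b ∈ Finset.range M ×ˢ Finset.range M,
        ∑ b' ∈ Finset.range M ×ˢ Finset.range M,
        w3 ^ (((b.1 : ℤ) + b.2) - (b'.1 + b'.2)) * (-1) ^ c *
          E4 σ h φ (fun z => (r z : ℂ)) (-((b.1 : ℤ) + b.2) - c) (b.1 + b.2)
            (b'.1 + b'.2 + c) (-((b'.1 : ℤ) + b'.2)) n := by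
    unfold E4
    rw [← int_sum3 hζ (Finset.range M) (Finset.range M ×ˢ Finset.range M)
      (Finset.range M ×ˢ Finset.range M)
      (fun c b b' => w3 ^ (((b.1 : ℤ) + b.2) - (b'.1 + b'.2)) * (-1) ^ c)
      (fun c b b' z => E σ h φ (-((b.1 : ℤ) + b.2) - c) n z * E σ h φ (b.1 + b.2) n z
          * E σ h φ (b'.1 + b'.2 + c) n z * E σ h φ (-((b'.1 : ℤ) + b'.2)) n z)
      (fun c b b' => (((cE L _ n).mul (cE L _ n)).mul (cE L _ n)).mul (cE L _ n)),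
      ← integral_complex_ofReal]
    refine integral_congr_ae (Filter.Eventually.of_forall fun z => ?_)
    show ((r z * ∑ c ∈ Finset.range M, ‖X σ h φ M c n z‖ ^ 2 : ℝ) : ℂ) = _
    rw [Complex.ofReal_mul, Complex.ofReal_sum, Finset.mul_sum]
    refine Finset.sum_congr rfl fun c _ => ?_
    rw [normsq_X L, Finset.mul_sum]
    refine Finset.sum_congr rfl fun b _ => ?_
    rw [Finset.mul_sum]
    exact Finset.sum_congr rfl fun b' _ => by ring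
  rw [e1]
  have s1 := (hCls M hM6 hM0).1
  simp only [mul_sub, mul_add, Finset.sum_sub_distrib, Finset.sum_add_distrib, ← mul_assoc,
    ← Finset.sum_mul]
  rw [s1]
  ring

/-- the choice of the number of terms -/
lemma choose_M {c I δ : ℝ} (hc : 0 ≤ c) (hI : 0 ≤ I) (hδ : 0 < δ) :
    ∃ M : ℕ, 6 ∣ M ∧ 0 < M ∧ 4 * I * c / (M : ℝ) ^ 2 ≤ δ / 2 := by
  obtain ⟨m, hm⟩ := exists_nat_gt (8 * I * c / δ)
  have h0 : 0 ≤ 8 * I * c / δ := by positivity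
  have hm0 : (0 : ℝ) < m := lt_of_le_of_lt h0 hm
  have hm1 : 0 < m := by exact_mod_cast hm0
  have hm2 : (1 : ℝ) ≤ m := by exact_mod_cast hm1
  refine ⟨6 * m, ⟨m, rfl⟩, by positivity, ?_⟩
  rw [div_lt_iff₀ hδ] at hm
  rw [div_le_iff₀ (by positivity)]
  push_cast
  have h1 : (m : ℝ) ≤ (6 * (m : ℝ)) ^ 2 := by nlinarith
  have h2 : δ / 2 * m ≤ δ / 2 * (6 * (m : ℝ)) ^ 2 := mul_le_mul_of_nonneg_left h1 (by positivity)
  linarith

end CUBI

open CUBI in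
/-- **CUBI**: the cubic inequality -/
theorem stmtCubI (hDir : StmtDir) (hE3s : StmtE3s) (hFouB : StmtFouB) (hFir : StmtFir)
    (hWks : StmtWks) (hCls : StmtCls) (hJbd : StmtJbd) (hXbd : StmtXbd) (hPeS : StmtPeS) :
    StmtCubI := by
  intro V σ h φ Ω _ μ p u L hM K hK hKV
  obtain ⟨β, hβ⟩ := exists_bump
  have hD := hDir V σ h φ Ω μ p u L hM
  have : IsFiniteMeasure μ := ⟨lt_top_iff_ne_top.2 hD.fin⟩
  obtain ⟨CX, hCX, hX⟩ := hXbd β V σ Ω μ p u K hβ L.sm hD hK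
  refine ⟨16 * CX, by positivity, ?_⟩
  intro r hζ hr hrK O hO hrO J f hf η hη b hb hpairs δ hδ
  have hr0 : ∀ z, 0 ≤ r z := fun z => (hr z).1
  have hrc : Continuous r := Complex.continuous_re.comp hζ.smooth.continuous
  -- the angle
  set η' : ℝ := min (η / 2) (1 / 10) with hη'
  have hη0 : 0 < η' := lt_min (by linarith) (by norm_num)
  have hη2 : 2 * η' ≤ η := by
    have := min_le_left (η / 2) (1 / 10)
    linarith
  obtain ⟨CF, hCF, hF⟩ := hFir η' hη0 (min_le_right _ _)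
  -- the sequence
  set ε : ℕ → ℝ := fun n => 1 / ((n : ℝ) + 1) with hεdef
  have hε : ∀ n, 0 < ε n := fun n => by
    rw [hεdef]
    positivity
  have hε0 : Tendsto ε atTop (𝓝 0) := tendsto_one_div_add_atTop_nhds_zero_nat
  have hεr : Tendsto ε atTop (𝓝[>] (0 : ℝ)) :=
    tendsto_nhdsWithin_iff.2 ⟨hε0, Eventually.of_forall hε⟩
  obtain ⟨c0, hc0⟩ := hJbd β V σ Ω μ p u ε hβ L.op L.sm hD hε hε0 _ hζ
  set I : ℝ := ∫ o, r (p o) * ‖∑ j ∈ J, f j (p o) * u o ^ j‖ ^ 2 ∂μ with hI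
  have hI0 : 0 ≤ I := integral_nonneg fun o => mul_nonneg (hr0 _) (by positivity)
  set c1 : ℝ := max c0 0 with hc1
  have hc10 : 0 ≤ c1 := le_max_right _ _
  obtain ⟨M, hM6, hM0, hMb⟩ := choose_M (c := CF * c1) (I := I) (by positivity) hI0 hδ
  have hM0' : (0 : ℝ) < M := by exact_mod_cast hM0
  -- the pairs
  have hX1 := hX r hrc hr hrK O hO hrO η' hη0 b hb (by
    filter_upwards [hpairs] with e he
    refine le_trans ?_ he
    refine ENNReal.toReal_mono (measure_ne_top _ _) (measure_mono ?_)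
    rintro x ⟨h1, h2, h3⟩
    exact ⟨h1, h2, h3.trans hη2⟩)
  have hX2 : ∀ᶠ n in atTop, ∫ z, r z * Xi β σ (ε n) η' μ p u z ≤ CX * b := hεr.eventually hX1
  have hts : IsCompact (tsupport r) := hK.of_isClosed_subset (isClosed_tsupport _) hrK
  have hodd := hεr.eventually (odd_zero hβ L.op L.sm hD hts (hrK.trans hKV))
  -- the sequences
  set A : ℕ → ℝ := fun n => ∫ z, r z * ∑ c ∈ Finset.range M, ‖Y σ h φ J f c n z‖ ^ 2 with hA
  set B : ℕ → ℝ := fun n => ∫ z, r z * ∑ c ∈ Finset.range M, ‖X σ h φ M c n z‖ ^ 2 with hB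
  set G : ℕ → ℂ := fun n => ∑ c ∈ Finset.range M, ∑ b ∈ Finset.range M ×ˢ Finset.range M,
        ∑ b' ∈ Finset.range M ×ˢ Finset.range M,
        w3 ^ (((b.1 : ℤ) + b.2) - (b'.1 + b'.2)) * (-1) ^ c *
          ∫ z, (r z : ℂ) * wkp (pe β σ (ε n) μ p u) (-((b.1 : ℤ) + b.2) - c) (b.1 + b.2)
            (b'.1 + b'.2 + c) (-((b'.1 : ℤ) + b'.2)) z with hG
  set T : ℕ → ℂ := TT σ h φ J (fun j z => (r z : ℂ) * f j z) with hT
  set e1 : ℕ → ℝ := fun n => ‖(B n : ℂ) - G n‖ with he1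
  set e2 : ℕ → ℝ := fun n => ‖(∫ z, (r z : ℂ) * S σ h φ J f M n z) - (M : ℂ) ^ 3 / 2 * T n‖ with he2
  have lA : Tendsto A atTop (𝓝 (M * I)) := lim_Y L hM hζ J hf M
  have lB : Tendsto e1 atTop (𝓝 0) := by
    have := (lim_X hFouB hCls hβ L hM hε hε0 hζ hM6 hM0).norm
    rw [norm_zero] at this
    exact this
  have lS : Tendsto e2 atTop (𝓝 0) := by
    have := (lim_S hE3s hCls L hζ J hf hM6 hM0).norm
    rw [norm_zero] at this
    exact this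
  set D0 : ℝ := CF * (M : ℝ) ^ 3 * c1 + 4 * (M : ℝ) ^ 5 * (CX * b) with hD0
  have hD00 : 0 ≤ D0 := by positivity
  have hGb : ∀ᶠ n in atTop, ‖G n‖ ≤ D0 := by
    filter_upwards [hX2, hc0, hodd] with n h1 h2 h3
    have k1 := wick_bound hWks hPeS hβ L.sm hD hζ hr0 hM6 hM0 hCF.le (hF M hM6 hM0) (hε n) h3
    have k2 : ‖∫ z, (r z : ℂ) * (2 * (pe β σ (ε n) μ p u 0 z * pe β σ (ε n) μ p u 0 z)
        - 2 * (pe β σ (ε n) μ p u 2 z * pe β σ (ε n) μ p u (-2) z))‖ ≤ c1 :=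
      h2.trans (le_max_left _ _)
    have k3 : 0 ≤ CF * (M : ℝ) ^ 3 := by positivity
    have k4 : 0 ≤ 4 * (M : ℝ) ^ 5 := by positivity
    have k5 := mul_le_mul_of_nonneg_left k2 k3
    have k6 := mul_le_mul_of_nonneg_left h1 k4
    rw [hD0]
    refine k1.trans ?_
    linarith
  have hA0 : ∀ n, 0 ≤ A n := fun n => integral_nonneg fun z =>
    mul_nonneg (hr0 z) (Finset.sum_nonneg fun c _ => by positivity)
  have hB0 : ∀ n, 0 ≤ B n := fun n => integral_nonneg fun z =>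
    mul_nonneg (hr0 z) (Finset.sum_nonneg fun c _ => by positivity)
  -- the comparison sequence
  set g : ℕ → ℝ := fun n => 2 / (M : ℝ) ^ 3 * (Real.sqrt (A n * (D0 + e1 n)) + e2 n) with hg
  have lg : Tendsto g atTop (𝓝 (2 / (M : ℝ) ^ 3 * (Real.sqrt (M * I * (D0 + 0)) + 0))) :=
    (((lA.mul (lB.const_add D0)).sqrt).add lS).const_mul _
  have lg2 := lg.pow 2
  have hlim : (2 / (M : ℝ) ^ 3 * (Real.sqrt (M * I * (D0 + 0)) + 0)) ^ 2
      ≤ 16 * CX * b * I + δ / 2 := by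
    rw [add_zero, add_zero, mul_pow, Real.sq_sqrt (by positivity)]
    have k1 : (2 / (M : ℝ) ^ 3) ^ 2 * (M * I * D0) = 4 * I * (CF * c1) / (M : ℝ) ^ 2
        + 16 * CX * b * I := by
      rw [hD0]
      field_simp
      ring
    rw [k1]
    linarith
  have hev : ∀ᶠ n in atTop, g n ^ 2 < 16 * CX * b * I + δ :=
    lg2.eventually (gt_mem_nhds (by linarith))
  filter_upwards [hev, hGb] with n h1 h2
  have k1 : B n ≤ D0 + e1 n := by
    have m1 : ‖(B n : ℂ)‖ ≤ ‖G n‖ + ‖(B n : ℂ) - G n‖ := by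
      have := norm_add_le (G n) ((B n : ℂ) - G n)
      rwa [add_sub_cancel] at this
    rw [Complex.norm_real, Real.norm_of_nonneg (hB0 n)] at m1
    have m2 : e1 n = ‖(B n : ℂ) - G n‖ := rfl
    linarith
  have k2 : ‖∫ z, (r z : ℂ) * S σ h φ J f M n z‖ ≤ Real.sqrt (A n * (D0 + e1 n)) := by
    refine Real.le_sqrt_of_sq_le ?_
    refine (main_ineq L hζ hr0 J (fun j => (hf j).continuous) M n).trans ?_
    exact mul_le_mul_of_nonneg_left k1 (hA0 n)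
  have k3 : ‖(M : ℂ) ^ 3 / 2 * T n‖ ≤ ‖∫ z, (r z : ℂ) * S σ h φ J f M n z‖ + e2 n := by
    have m1 := norm_sub_le (∫ z, (r z : ℂ) * S σ h φ J f M n z)
      ((∫ z, (r z : ℂ) * S σ h φ J f M n z) - (M : ℂ) ^ 3 / 2 * T n)
    rwa [sub_sub_cancel] at m1
  have k4 : ‖(M : ℂ) ^ 3 / 2 * T n‖ = (M : ℝ) ^ 3 / 2 * ‖T n‖ := by
    rw [norm_mul, norm_div, norm_pow, Complex.norm_natCast]
    norm_num
  have k5 : ‖T n‖ ≤ g n := by
    rw [k4] at k3
    have m1 : (M : ℝ) ^ 3 / 2 * ‖T n‖ ≤ Real.sqrt (A n * (D0 + e1 n)) + e2 n := by linarith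
    have m2 : ‖T n‖ = 2 / (M : ℝ) ^ 3 * ((M : ℝ) ^ 3 / 2 * ‖T n‖) := by
      field_simp
    rw [m2]
    exact mul_le_mul_of_nonneg_left m1 (by positivity)
  have k6 : ‖T n‖ ^ 2 ≤ g n ^ 2 := pow_le_pow_left₀ (norm_nonneg _) k5 2
  have k7 : 16 * CX * b * (∫ o, r (p o) * ‖∑ j ∈ J, f j (p o) * u o ^ j‖ ^ 2 ∂μ)
      = 16 * CX * b * I := rfl
  rw [k7]
  linarith

end

end U3
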