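import Pool.Agent.U3.Stmts
import Pool.Agent.QJ.Ops
import Pool.Agent.QJ.Dom

/-!
DENS: density of the trigonometric polynomials with test functions as coefficients.
-/

open Complex MeasureTheory Filter Topology Set
open scoped ContDiff

namespace U3

open QE QJ

noncomputable section

namespace DENS

/-- trigonometric polynomials with smooth coefficients, on the unit circle -/
def Pol (g : ℂ × ℂ → ℂ) : Prop :=
  ∃ (ι : Type) (s : Finset ι) (k : ι → ℤ) (f : ι → ℂ → ℂ), (∀ i, ContDiff ℝ ∞ (f i)) ∧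
    ∀ x : ℂ × ℂ, ‖x.2‖ = 1 → g x = ∑ i ∈ s, f i x.1 * x.2 ^ (k i)

theorem Pol.add {g g' : ℂ × ℂ → ℂ} (h : Pol g) (h' : Pol g') : Pol (fun x => g x + g' x) := by
  obtain ⟨ι, s, k, f, hf, he⟩ := h
  obtain ⟨ι', s', k', f', hf', he'⟩ := h'
  refine ⟨ι ⊕ ι', s.disjSum s', Sum.elim k k', Sum.elim f f', ?_, ?_⟩
  · rintro (i | i)
    · exact hf i
    · exact hf' i
  · intro x hx
    rw [Finset.sum_disjSum]
    beta_reduce
    rw [he x hx, he' x hx]
    rfl

theorem Pol.mul {g g' : ℂ × ℂ → ℂ} (h : Pol g) (h' : Pol g') : Pol (fun x => g x * g' x) := by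
  obtain ⟨ι, s, k, f, hf, he⟩ := h
  obtain ⟨ι', s', k', f', hf', he'⟩ := h'
  refine ⟨ι × ι', s ×ˢ s', fun p => k p.1 + k' p.2, fun p z => f p.1 z * f' p.2 z, ?_, ?_⟩
  · intro p
    exact (hf p.1).mul (hf' p.2)
  · intro x hx
    have hx0 : x.2 ≠ 0 := by
      intro h0; rw [h0, norm_zero] at hx; exact zero_ne_one hx
    beta_reduce
    rw [he x hx, he' x hx, Finset.sum_mul_sum, Finset.sum_product]
    refine Finset.sum_congr rfl fun i _ => Finset.sum_congr rfl fun j _ => ?_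
    simp only
    rw [zpow_add₀ hx0]; ring

theorem Pol.const (c : ℂ) : Pol (fun _ => c) := by
  refine ⟨Unit, {()}, fun _ => 0, fun _ _ => c, fun _ => contDiff_const, ?_⟩
  intro x _
  simp

theorem Pol.fst : Pol (fun x => x.1) := by
  refine ⟨Unit, {()}, fun _ => 0, fun _ z => z, fun _ => contDiff_id, ?_⟩
  intro x _
  simp

theorem Pol.snd : Pol (fun x => x.2) := by
  refine ⟨Unit, {()}, fun _ => 1, fun _ _ => 1, fun _ => contDiff_const, ?_⟩
  intro x _
  simp

theorem Pol.star {g : ℂ × ℂ → ℂ} (h : Pol g) : Pol (fun x => (starRingEnd ℂ) (g x)) := by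
  obtain ⟨ι, s, k, f, hf, he⟩ := h
  refine ⟨ι, s, fun i => - k i, fun i z => (starRingEnd ℂ) (f i z), ?_, ?_⟩
  · intro i
    exact Complex.conjCLE.contDiff.comp (hf i)
  · intro x hx
    beta_reduce
    rw [he x hx, map_sum]
    refine Finset.sum_congr rfl fun i _ => ?_
    have h1 : (starRingEnd ℂ) x.2 = (x.2)⁻¹ := by
      rw [Complex.inv_def, Complex.normSq_eq_norm_sq, hx]; simp
    rw [map_mul, map_zpow₀, h1, inv_zpow, zpow_neg]

/-- the star subalgebra of trigonometric polynomials on a subset of `ℂ × circle` -/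
def alg (Y : Set (ℂ × ℂ)) : StarSubalgebra ℂ C(Y, ℂ) where
  carrier := {g | ∃ p, Pol p ∧ ∀ y : Y, g y = p y.1}
  mul_mem' := by
    rintro a b ⟨p, hp, ha⟩ ⟨q, hq, hb⟩
    exact ⟨_, hp.mul hq, fun y => by rw [ContinuousMap.mul_apply, ha y, hb y]⟩
  add_mem' := by
    rintro a b ⟨p, hp, ha⟩ ⟨q, hq, hb⟩
    exact ⟨_, hp.add hq, fun y => by rw [ContinuousMap.add_apply, ha y, hb y]⟩
  algebraMap_mem' := fun c => ⟨_, Pol.const c, fun _ => rfl⟩
  star_mem' := by
    rintro a ⟨p, hp, ha⟩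
    exact ⟨_, hp.star, fun y => by
      rw [ContinuousMap.star_apply, ha y]; rfl⟩

theorem alg_sep (Y : Set (ℂ × ℂ)) : (alg Y).SeparatesPoints := by
  intro x y hxy
  by_cases h1 : x.1.1 = y.1.1
  · have h2 : x.1.2 ≠ y.1.2 := by
      intro h2; exact hxy (Subtype.ext (Prod.ext h1 h2))
    refine ⟨fun y => y.1.2, ⟨⟨fun y => y.1.2, by fun_prop⟩, ⟨_, Pol.snd, fun _ => rfl⟩, rfl⟩, h2⟩
  · refine ⟨fun y => y.1.1, ⟨⟨fun y => y.1.1, by fun_prop⟩, ⟨_, Pol.fst, fun _ => rfl⟩, rfl⟩, h1⟩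

theorem approx {L : Set ℂ} (hL : IsCompact L) {H : ℂ × ℂ → ℂ} (hH : Continuous H) {δ : ℝ}
    (hδ : 0 < δ) : ∃ p, Pol p ∧ ∀ x : ℂ × ℂ, x.1 ∈ L → ‖x.2‖ = 1 → ‖H x - p x‖ ≤ δ := by
  have hY : IsCompact (L ×ˢ Metric.sphere (0 : ℂ) 1) := hL.prod (isCompact_sphere 0 1)
  set Y := L ×ˢ Metric.sphere (0 : ℂ) 1 with hYdef
  have : CompactSpace Y := isCompact_iff_compactSpace.mp hY
  have htop := ContinuousMap.starSubalgebra_topologicalClosure_eq_top_of_separatesPoints (alg Y)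
    (alg_sep Y)
  let H' : C(Y, ℂ) := ⟨fun y => H y.1, by fun_prop⟩
  have hmem : H' ∈ (alg Y).topologicalClosure := by rw [htop]; exact StarSubalgebra.mem_top
  have hcl : H' ∈ closure ((alg Y : Set C(Y, ℂ))) := hmem
  obtain ⟨g, ⟨p, hp, hg⟩, hd⟩ := Metric.mem_closure_iff.mp hcl δ hδ
  refine ⟨p, hp, fun x hx1 hx2 => ?_⟩
  have hxY : x ∈ Y := ⟨hx1, by simpa using hx2⟩
  have h1 := (H' - g).norm_coe_le_norm ⟨x, hxY⟩
  rw [dist_eq_norm] at hd
  rw [ContinuousMap.sub_apply, hg ⟨x, hxY⟩] at h1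
  exact h1.trans hd.le

end DENS

open DENS in
theorem stmtDens : StmtDens := by
  intro O θ hO hθ hsupp F hF hFb hFO ε hε
  obtain ⟨C, hC⟩ := hFb
  have hC0 : 0 ≤ C := (norm_nonneg _).trans (hC 0)
  have : IsFiniteMeasure θ := ⟨lt_top_iff_ne_top.mpr hθ⟩
  have : IsFiniteMeasure (θ.map Prod.fst) := Measure.isFiniteMeasure_map θ _
  -- the compact set
  have hε1 : 0 < ε / (36 * (C ^ 2 + 1)) := by positivity
  obtain ⟨K, hKO, hK, hKm⟩ := hO.measurableSet.exists_isCompact_sdiff_lt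
    (μ := θ.map Prod.fst) (measure_ne_top _ _) (ENNReal.ofReal_pos.mpr hε1).ne'
  have hA : MeasurableSet (O \ K) := hO.measurableSet.diff hK.measurableSet
  rw [Measure.map_apply measurable_fst hA] at hKm
  set A : Set (ℂ × ℂ) := Prod.fst ⁻¹' (O \ K) with hAdef
  have hAm : MeasurableSet A := measurable_fst hA
  obtain ⟨χ, hχ, hχ1, hχ2⟩ := exists_cutoff hO hK hKO
  -- the continuous function
  have hFm : MemLp F (ENNReal.ofReal 2) θ :=
    MemLp.of_bound hF.aestronglyMeasurable C (Eventually.of_forall hC)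
  obtain ⟨H, hHs, hHi, hHc, hHm⟩ := hFm.exists_hasCompactSupport_integral_rpow_sub_le
    (p := 2) (by norm_num) (ε := ε / 9) (by positivity)
  have hHi' : ∫ x, ‖F x - H x‖ ^ 2 ∂θ ≤ ε / 9 := by
    refine le_of_eq_of_le (integral_congr_ae (Eventually.of_forall fun x => ?_)) hHi
    beta_reduce
    rw [Real.rpow_two]
  set M : ℝ := θ.real Set.univ with hM
  have hM0 : 0 ≤ M := measureReal_nonneg
  set δ : ℝ := Real.sqrt (ε / (9 * (M + 1))) with hδdef
  have hδ : 0 < δ := Real.sqrt_pos.mpr (by positivity)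
  have hδ2 : δ ^ 2 = ε / (9 * (M + 1)) := Real.sq_sqrt (by positivity)
  obtain ⟨p, ⟨ι, s, k, f, hf, hp⟩, hHp⟩ := approx hχ.supp hHc hδ
  classical
  refine ⟨s.image k, fun j z => χ z * ∑ i ∈ s with k i = j, f i z, ?_, ?_⟩
  · intro j
    exact hχ.mul hO (ContDiff.sum fun i _ => hf i).contDiffOn
  · have hae : ∀ᵐ x ∂θ, ‖x.2‖ = 1 := by
      rw [ae_iff]; exact hsupp
    have hbd : ∀ᵐ x ∂θ, ‖F x - ∑ j ∈ s.image k, (χ x.1 * ∑ i ∈ s with k i = j, f i x.1) * x.2 ^ j‖ ^ 2
        ≤ 3 * (A.indicator (fun _ => 4 * C ^ 2) x + ‖F x - H x‖ ^ 2 + δ ^ 2) := by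
      filter_upwards [hae] with x hx
      have e1 : ∑ j ∈ s.image k, (χ x.1 * ∑ i ∈ s with k i = j, f i x.1) * x.2 ^ j = χ x.1 * p x := by
        rw [hp x hx, ← Finset.sum_fiberwise_of_maps_to (s := s) (t := s.image k) (g := k)
          (fun i hi => Finset.mem_image_of_mem k hi), Finset.mul_sum]
        refine Finset.sum_congr rfl fun j _ => ?_
        rw [mul_assoc, Finset.sum_mul]
        congr 1
        refine Finset.sum_congr rfl fun i hi => ?_
        rw [(Finset.mem_filter.mp hi).2]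
      rw [e1]
      have e2 : F x - χ x.1 * p x
          = (1 - χ x.1) * F x + χ x.1 * (F x - H x) + χ x.1 * (H x - p x) := by ring
      have b1 : ‖(1 - χ x.1) * F x‖ ^ 2 ≤ A.indicator (fun _ => 4 * C ^ 2) x := by
        by_cases hxA : x ∈ A
        · rw [Set.indicator_of_mem hxA]
          have h1 : ‖(1 - χ x.1) * F x‖ ≤ 2 * C := by
            rw [norm_mul]
            have h2 : ‖1 - χ x.1‖ ≤ 2 := by
              refine (norm_sub_le _ _).trans ?_
              rw [norm_one]; linarith [hχ2 x.1]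
            exact mul_le_mul h2 (hC x) (norm_nonneg _) (by norm_num)
          calc ‖(1 - χ x.1) * F x‖ ^ 2 ≤ (2 * C) ^ 2 := pow_le_pow_left₀ (norm_nonneg _) h1 2
            _ = 4 * C ^ 2 := by ring
        · rw [Set.indicator_of_notMem hxA]
          have h0 : (1 - χ x.1) * F x = 0 := by
            by_cases hxO : x.1 ∈ O
            · have hxK : x.1 ∈ K := by
                by_contra hxK; exact hxA ⟨hxO, hxK⟩
              rw [(hχ1 x.1 hxK).self_of_nhds, sub_self, zero_mul]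
            · rw [hFO x hxO, mul_zero]
          rw [h0, norm_zero]; norm_num
      have b2 : ‖χ x.1 * (F x - H x)‖ ^ 2 ≤ ‖F x - H x‖ ^ 2 := by
        refine pow_le_pow_left₀ (norm_nonneg _) ?_ 2
        rw [norm_mul]
        exact mul_le_of_le_one_left (norm_nonneg _) (hχ2 _)
      have b3 : ‖χ x.1 * (H x - p x)‖ ^ 2 ≤ δ ^ 2 := by
        refine pow_le_pow_left₀ (norm_nonneg _) ?_ 2
        by_cases hxs : x.1 ∈ tsupport χ
        · rw [norm_mul]
          exact (mul_le_of_le_one_left (norm_nonneg _) (hχ2 _)).trans (hHp x hxs hx)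
        · rw [image_eq_zero_of_notMem_tsupport hxs, zero_mul, norm_zero]; exact hδ.le
      have b4 : ‖F x - χ x.1 * p x‖ ^ 2
          ≤ 3 * (‖(1 - χ x.1) * F x‖ ^ 2 + ‖χ x.1 * (F x - H x)‖ ^ 2
            + ‖χ x.1 * (H x - p x)‖ ^ 2) := by
        rw [e2]
        have h3 := norm_add₃_le (a := (1 - χ x.1) * F x) (b := χ x.1 * (F x - H x))
          (c := χ x.1 * (H x - p x))
        have h4 := pow_le_pow_left₀ (norm_nonneg _) h3 2
        refine h4.trans ?_
        nlinarith [sq_nonneg (‖(1 - χ x.1) * F x‖ - ‖χ x.1 * (F x - H x)‖),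
          sq_nonneg (‖(1 - χ x.1) * F x‖ - ‖χ x.1 * (H x - p x)‖),
          sq_nonneg (‖χ x.1 * (F x - H x)‖ - ‖χ x.1 * (H x - p x)‖)]
      linarith
    have i1 : Integrable (A.indicator (fun _ => 4 * C ^ 2)) θ :=
      (integrable_const _).indicator hAm
    have i2 : Integrable (fun x => ‖F x - H x‖ ^ 2) θ := by
      have h2 : MemLp (fun x => F x - H x) 2 θ := by
        have h3 : MemLp (F - H) 2 θ := by
          have h4 := hFm.sub hHm
          simpa using h4
        exact h3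
      exact h2.integrable_norm_pow (by norm_num)
    have i3 : Integrable (fun _ : ℂ × ℂ => δ ^ 2) θ := integrable_const _
    have i4 : Integrable (fun x => 3 * (A.indicator (fun _ => 4 * C ^ 2) x + ‖F x - H x‖ ^ 2 + δ ^ 2)) θ :=
      ((i1.add i2).add i3).const_mul 3
    refine (integral_mono_of_nonneg (Eventually.of_forall fun x => by positivity) i4 hbd).trans ?_
    have e5 : ∫ x, (A.indicator (fun _ => 4 * C ^ 2) x + ‖F x - H x‖ ^ 2 + δ ^ 2) ∂θ
        = (∫ x, A.indicator (fun _ => 4 * C ^ 2) x ∂θ) + (∫ x, ‖F x - H x‖ ^ 2 ∂θ)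
          + ∫ _x : ℂ × ℂ, δ ^ 2 ∂θ := by
      have e6 := integral_add (i1.add i2) i3
      have e7 := integral_add i1 i2
      simp only [Pi.add_apply] at e6 e7
      rw [e6, e7]
    rw [integral_const_mul, e5, integral_const, integral_indicator hAm, setIntegral_const]
    have c1 : θ.real A • (4 * C ^ 2) ≤ ε / 9 := by
      have h1 : θ.real A ≤ ε / (36 * (C ^ 2 + 1)) := by
        rw [Measure.real]
        exact ENNReal.toReal_le_of_le_ofReal hε1.le hKm.le
      rw [smul_eq_mul]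
      calc θ.real A * (4 * C ^ 2) ≤ ε / (36 * (C ^ 2 + 1)) * (4 * C ^ 2) :=
            mul_le_mul_of_nonneg_right h1 (by positivity)
        _ ≤ ε / (36 * (C ^ 2 + 1)) * (4 * (C ^ 2 + 1)) :=
            mul_le_mul_of_nonneg_left (by linarith) hε1.le
        _ = ε / 9 := by field_simp; norm_num
    have c3 : θ.real Set.univ • δ ^ 2 ≤ ε / 9 := by
      rw [smul_eq_mul, hδ2, ← hM]
      calc M * (ε / (9 * (M + 1))) ≤ (M + 1) * (ε / (9 * (M + 1))) :=
            mul_le_mul_of_nonneg_right (by linarith) (by positivity)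
        _ = ε / 9 := by field_simp
    linarith

end

end U3
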