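import Pool.Agent.U3.Stmts
import Pool.Agent.QJ.FOU

/-!
E3S: the three-jet integrals in terms of those with equal spins.
-/

open Complex MeasureTheory Filter Topology Set
open scoped ContDiff

namespace U3

open QE QJ

namespace E3S

theorem swap_ab (σ : ℂ → ℝ) (h : ℕ → ℝ) (φ : ℕ → ℂ → ℂ) (ζ : ℂ → ℂ) (a b c : ℤ) :
    E3 σ h φ ζ b a c = E3 σ h φ ζ a b c := by
  funext n
  unfold E3
  refine integral_congr_ae (Filter.Eventually.of_forall fun z => ?_)
  show ζ z * (E σ h φ b n z * E σ h φ a n z * E σ h φ c n z) = _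
  ring

theorem swap_bc (σ : ℂ → ℝ) (h : ℕ → ℝ) (φ : ℕ → ℂ → ℂ) (ζ : ℂ → ℂ) (a b c : ℤ) :
    E3 σ h φ ζ a c b = E3 σ h φ ζ a b c := by
  funext n
  unfold E3
  refine integral_congr_ae (Filter.Eventually.of_forall fun z => ?_)
  show ζ z * (E σ h φ a n z * E σ h φ c n z * E σ h φ b n z) = _
  ring

end E3S

theorem stmtE3s (hIfoB : StmtIfoB) (hAltS : StmtAltS) : StmtE3s := by
  intro V σ h φ L ζ hζ a b c s habc
  obtain ⟨-, hup, hdn⟩ := hIfoB V σ h φ L ζ hζ
  let e : ℤ → ℤ → ℤ → (ℕ → ℂ) ⧸ FOU.nul := fun a b c => FOU.nul.mkQ (E3 σ h φ ζ a b c)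
  have h1 := hAltS _ e s (fun a b c => by
      show FOU.nul.mkQ _ = FOU.nul.mkQ _
      rw [E3S.swap_ab])
    (fun a b c => by
      show FOU.nul.mkQ _ = FOU.nul.mkQ _
      rw [E3S.swap_bc])
    (fun a b c _ => by
      show FOU.nul.mkQ _ + FOU.nul.mkQ _ + FOU.nul.mkQ _ = 0
      rw [← map_add, ← map_add, Submodule.mkQ_apply, Submodule.Quotient.mk_eq_zero]
      exact hup a b c)
    (fun a b c _ => by
      show FOU.nul.mkQ _ + FOU.nul.mkQ _ + FOU.nul.mkQ _ = 0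
      rw [← map_add, ← map_add, Submodule.mkQ_apply, Submodule.Quotient.mk_eq_zero]
      exact hdn a b c) a b c habc
  by_cases h3 : 3 ∣ s
  · rw [if_pos h3] at h1
    have h2 : FOU.nul.mkQ (E3 σ h φ ζ a b c
        - cl3 b c • E3 σ h φ ζ (s / 3) (s / 3) (s / 3)) = 0 := by
      rw [map_sub, map_smul, sub_eq_zero]
      exact h1
    rw [Submodule.mkQ_apply, Submodule.Quotient.mk_eq_zero] at h2
    simp only [if_pos h3]
    exact h2
  · rw [if_neg h3] at h1
    have h2 : FOU.nul.mkQ (E3 σ h φ ζ a b c) = 0 := h1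
    rw [Submodule.mkQ_apply, Submodule.Quotient.mk_eq_zero] at h2
    simp only [if_neg h3, sub_zero]
    exact h2

end U3
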