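import Pool.Agent.U3.Stmts
import Pool.Agent.QJ.Ops
import Pool.Agent.QJ.Dom

/-!
E3Z: the local theorem, all three-jet integrals tend to zero.
-/

open Complex MeasureTheory Filter Topology Set
open scoped ContDiff Manifold

namespace U3

open QE QJ

noncomputable section

namespace E3Z

/-! ### Smoothness -/

lemma contDiff_jet {σ : ℂ → ℝ} (hσ : ContDiff ℝ ∞ σ) {h : ℕ → ℝ} {φ : ℕ → ℂ → ℂ}
    (hφ : ∀ n, ContDiff ℝ ∞ (φ n)) (m n : ℕ) : ContDiff ℝ ∞ (jet σ h φ m n) := by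
  induction m with
  | zero => exact hφ n
  | succ m ih => exact contDiff_const.mul (contDiff_D hσ m ih)

lemma contDiff_E {σ : ℂ → ℝ} (hσ : ContDiff ℝ ∞ σ) {h : ℕ → ℝ} {φ : ℕ → ℂ → ℂ}
    (hφ : ∀ n, ContDiff ℝ ∞ (φ n)) (j : ℤ) (n : ℕ) : ContDiff ℝ ∞ (E σ h φ j n) := by
  rcases j with m | m
  · exact contDiff_jet hσ hφ m n
  · exact contDiff_const.mul (Complex.conjCLE.contDiff.comp (contDiff_jet hσ hφ (m + 1) n))

/-! ### Cutoffs -/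

lemma tsupport_real (χ : ℂ → ℝ) : tsupport (fun z => (χ z : ℂ)) = tsupport χ := by
  unfold tsupport
  congr 1
  ext z
  simp [Function.mem_support]

lemma real_cutoff {U K : Set ℂ} (hU : IsOpen U) (hK : IsCompact K) (hKU : K ⊆ U) :
    ∃ χ : ℂ → ℝ, Test U (fun z => (χ z : ℂ)) ∧ (∀ z ∈ K, χ z = 1) ∧
      ∀ z, 0 ≤ χ z ∧ χ z ≤ 1 := by
  obtain ⟨K', hK', hKK', hK'U⟩ := exists_compact_between hK hU hKU
  obtain ⟨f, hf1, hf2, hf3⟩ :=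
    exists_contMDiffMap_one_nhds_of_subset_interior (n := (⊤ : ℕ∞)) 𝓘(ℝ, ℂ) hK.isClosed hKK'
  have hfs : ContDiff ℝ ∞ (f : ℂ → ℝ) := f.contMDiff.contDiff
  have hsupp : Function.support (fun z => (f z : ℂ)) ⊆ K' := by
    intro z hz
    by_contra h
    exact hz (by simp [hf2 z h])
  have hts : tsupport (fun z => (f z : ℂ)) ⊆ K' :=
    closure_minimal hsupp hK'.isClosed
  refine ⟨f, ⟨ofRealCLM.contDiff.comp hfs,
    hK'.of_isClosed_subset (isClosed_tsupport _) hts, hts.trans hK'U⟩, ?_, ?_⟩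
  · intro z hz
    exact (hf1.filter_mono (nhds_le_nhdsSet hz)).self_of_nhds
  · intro z
    exact hf3 z

/-! ### The functionals -/

/-- the three-jet integral of total spin `j` -/
def qq (σ : ℂ → ℝ) (h : ℕ → ℝ) (φ : ℕ → ℂ → ℂ) (j : ℤ) (ζ : ℂ → ℂ) (n : ℕ) : ℂ :=
  if 3 ∣ j then E3 σ h φ ζ (j / 3) (j / 3) (j / 3) n else 0

variable {V : Set ℂ} {σ : ℂ → ℝ} {h : ℕ → ℝ} {φ : ℕ → ℂ → ℂ}

lemma TT_eq (J : Finset ℤ) (f : ℤ → ℂ → ℂ) (n : ℕ) :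
    TT σ h φ J f n = ∑ j ∈ J, qq σ h φ j (f j) n := rfl

lemma qq_add (L : LocB V σ h φ) (j : ℤ) {ζ ζ' : ℂ → ℂ} (hζ : Test V ζ) (hζ' : Test V ζ') (n : ℕ) :
    qq σ h φ j (fun z => ζ z + ζ' z) n = qq σ h φ j ζ n + qq σ h φ j ζ' n := by
  unfold qq
  split_ifs with h3
  · have hc : Continuous (fun z => E σ h φ (j / 3) n z * E σ h φ (j / 3) n z
        * E σ h φ (j / 3) n z) := by
      have := (contDiff_E (h := h) L.sm L.smφ (j / 3) n).continuous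
      exact (this.mul this).mul this
    unfold E3
    rw [← integral_add (test_int hζ hc) (test_int hζ' hc)]
    congr 1
    funext z
    ring
  · simp

lemma qq_smul (j : ℤ) (c : ℂ) (ζ : ℂ → ℂ) (n : ℕ) :
    qq σ h φ j (fun z => c * ζ z) n = c * qq σ h φ j ζ n := by
  unfold qq
  split_ifs with h3
  · unfold E3
    rw [← integral_const_mul]
    congr 1
    funext z
    ring
  · simp

lemma qq_congr (j : ℤ) {ζ ζ' : ℂ → ℂ} (he : ∀ z, ζ z = ζ' z) (n : ℕ) :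
    qq σ h φ j ζ n = qq σ h φ j ζ' n := by
  have : ζ = ζ' := funext he
  rw [this]

variable {Ω : Type} [MeasurableSpace Ω] {μ : Measure Ω} {p u : Ω → ℂ}

/-- monotonicity of the mass of the close pairs -/
lemma pairs_mono (hfin : μ Set.univ ≠ ⊤) {O K' : Set ℂ} (hO : O ⊆ K') (η b b' : ℝ) (hb : b ≤ b')
    (H : ∀ᶠ ε in 𝓝[>] (0 : ℝ),
      ((μ.prod μ) {x | p x.1 ∈ K' ∧ ‖p x.1 - p x.2‖ ≤ ε ∧ ‖w3 * u x.1 - u x.2‖ ≤ η}).toReal
        ≤ b * ε ^ 2) :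
    ∀ᶠ ε in 𝓝[>] (0 : ℝ),
      ((μ.prod μ) {x | p x.1 ∈ O ∧ ‖p x.1 - p x.2‖ ≤ ε ∧ ‖w3 * u x.1 - u x.2‖ ≤ η}).toReal
        ≤ b' * ε ^ 2 := by
  have : IsFiniteMeasure μ := ⟨lt_top_iff_ne_top.2 hfin⟩
  filter_upwards [H] with ε hε
  have h1 : ((μ.prod μ) {x | p x.1 ∈ O ∧ ‖p x.1 - p x.2‖ ≤ ε ∧ ‖w3 * u x.1 - u x.2‖ ≤ η}).toReal
      ≤ ((μ.prod μ) {x | p x.1 ∈ K' ∧ ‖p x.1 - p x.2‖ ≤ ε ∧ ‖w3 * u x.1 - u x.2‖ ≤ η}).toReal := by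
    apply ENNReal.toReal_mono (measure_ne_top _ _)
    apply measure_mono
    rintro x ⟨h1, h2, h3⟩
    exact ⟨hO h1, h2, h3⟩
  have h2 : b * ε ^ 2 ≤ b' * ε ^ 2 := mul_le_mul_of_nonneg_right hb (sq_nonneg ε)
  linarith

/-- the uniform bound -/
lemma bound (hCubI : StmtCubI) {G : ℕ → Set ℂ} {B : Set (ℂ × ℂ)} (L : LocB V σ h φ)
    (M : LimM V σ h φ μ p u) (Ge : GeoM V μ p u G B) {K : Set ℂ} (hK : IsCompact K)
    (hKV : K ⊆ V) : ∃ C : ℝ, 0 ≤ C ∧ ∀ ζ : ℂ → ℝ, Test V (fun z => (ζ z : ℂ)) →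
      (∀ z, 0 ≤ ζ z ∧ ζ z ≤ 1) → tsupport ζ ⊆ K → ∀ (J : Finset ℤ) (f : ℤ → ℂ → ℂ),
      (∀ j, ContDiff ℝ ∞ (f j)) → ∀ δ > 0, ∀ᶠ n in atTop,
      ‖∑ j ∈ J, qq σ h φ j (fun z => (ζ z : ℂ) * f j z) n‖ ^ 2
        ≤ C * (∫ o, ζ (p o) * ‖∑ j ∈ J, f j (p o) * u o ^ j‖ ^ 2 ∂μ) + δ := by
  obtain ⟨C, hC, H⟩ := hCubI V σ h φ Ω μ p u L M K hK hKV
  obtain ⟨K', hK', hKK', hK'V⟩ := exists_compact_between hK L.op hKV
  obtain ⟨b, η, hη, hb⟩ := Ge.bdd K' hK' hK'V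
  refine ⟨C * max b 0, mul_nonneg hC.le (le_max_right _ _), ?_⟩
  intro ζ hζ h01 hts J f hf δ hδ
  exact H ζ hζ h01 hts (interior K') isOpen_interior (hts.trans hKK') J f hf η hη (max b 0)
    (le_max_right _ _) (pairs_mono M.fin interior_subset η b _ (le_max_left _ _) hb) δ hδ

/-- the small bound -/
lemma small (hCubI : StmtCubI) {G : ℕ → Set ℂ} {B : Set (ℂ × ℂ)} (L : LocB V σ h φ)
    (M : LimM V σ h φ μ p u) (Ge : GeoM V μ p u G B) {K : Set ℂ} (hK : IsCompact K)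
    (hKV : K ⊆ V) (δ : ℝ) (hδ : 0 < δ) : ∃ N, ∀ ζ : ℂ → ℝ, Test V (fun z => (ζ z : ℂ)) →
      (∀ z, 0 ≤ ζ z ∧ ζ z ≤ 1) → tsupport ζ ⊆ K → Disjoint (tsupport ζ) (G N) →
      ∀ (J : Finset ℤ) (f : ℤ → ℂ → ℂ),
      (∀ j, ContDiff ℝ ∞ (f j)) → ∀ δ' > 0, ∀ᶠ n in atTop,
      ‖∑ j ∈ J, qq σ h φ j (fun z => (ζ z : ℂ) * f j z) n‖ ^ 2
        ≤ δ * (∫ o, ζ (p o) * ‖∑ j ∈ J, f j (p o) * u o ^ j‖ ^ 2 ∂μ) + δ' := by
  obtain ⟨C, hC, H⟩ := hCubI V σ h φ Ω μ p u L M K hK hKV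
  obtain ⟨K₁, hK₁, hKK₁, hK₁V⟩ := exists_compact_between hK L.op hKV
  obtain ⟨N, hN⟩ := Ge.small K₁ hK₁ hK₁V (δ / C) (by positivity)
  refine ⟨N, ?_⟩
  intro ζ hζ h01 hts hdis J f hf δ' hδ'
  have hcomp : IsCompact (tsupport ζ) := hK.of_isClosed_subset (isClosed_tsupport _) hts
  have hop : IsOpen (interior K₁ ∩ (G N)ᶜ) := isOpen_interior.inter (Ge.clG N).isOpen_compl
  have hsub : tsupport ζ ⊆ interior K₁ ∩ (G N)ᶜ := fun z hz =>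
    ⟨hKK₁ (hts hz), fun hz' => Set.disjoint_left.1 hdis hz hz'⟩
  obtain ⟨K', hK', hKK', hK'V⟩ := exists_compact_between hcomp hop hsub
  obtain ⟨η, hη, hb⟩ := hN K' hK' (fun z hz => interior_subset (hK'V hz).1)
    (Set.disjoint_left.2 fun z hz hz' => (hK'V hz).2 hz')
  have key := H ζ hζ h01 hts (interior K') isOpen_interior hKK' J f hf η hη (δ / C)
    (by positivity) (pairs_mono M.fin interior_subset η _ _ le_rfl hb) δ' hδ'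
  have e : C * (δ / C) = δ := by field_simp
  rw [e] at key
  exact key

/-- every functional is bounded -/
lemma qq_bdd (hCubI : StmtCubI) {G : ℕ → Set ℂ} {B : Set (ℂ × ℂ)} (L : LocB V σ h φ)
    (M : LimM V σ h φ μ p u) (Ge : GeoM V μ p u G B) (j : ℤ) {ζ : ℂ → ℂ} (hζ : Test V ζ) :
    ∃ C : ℝ, ∀ᶠ n in atTop, ‖qq σ h φ j ζ n‖ ≤ C := by
  obtain ⟨χ, hχ, hχ1, h01⟩ := real_cutoff L.op (hζ.supp : IsCompact (tsupport ζ)) hζ.sub
  have hcomp : IsCompact (tsupport χ) := by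
    rw [← tsupport_real]
    exact hχ.supp
  have hsub : tsupport χ ⊆ V := by
    rw [← tsupport_real]
    exact hχ.sub
  obtain ⟨C, hC, H⟩ := bound hCubI L M Ge hcomp hsub
  have key := H χ hχ h01 le_rfl {j} (fun _ => ζ) (fun _ => hζ.smooth) 1 one_pos
  obtain ⟨I, hI⟩ : ∃ I : ℝ, I = C * (∫ o, χ (p o) * ‖∑ j ∈ ({j} : Finset ℤ),
    ζ (p o) * u o ^ j‖ ^ 2 ∂μ) + 1 := ⟨_, rfl⟩
  refine ⟨I + 1, ?_⟩
  filter_upwards [key] with n hn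
  rw [← hI, Finset.sum_singleton] at hn
  have e : qq σ h φ j (fun z => (χ z : ℂ) * ζ z) n = qq σ h φ j ζ n := by
    apply qq_congr
    intro z
    by_cases hz : z ∈ tsupport ζ
    · rw [hχ1 z hz]
      simp
    · have : ζ z = 0 := image_eq_zero_of_notMem_tsupport hz
      rw [this, mul_zero]
  rw [e] at hn
  nlinarith [sq_nonneg (‖qq σ h φ j ζ n‖ - 1), norm_nonneg (qq σ h φ j ζ n)]

/-- the functionals tend to zero -/
lemma qq_zero (hCubI : StmtCubI) (hEnd : StmtEnd) {G : ℕ → Set ℂ} {B : Set (ℂ × ℂ)}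
    (L : LocB V σ h φ) (M : LimM V σ h φ μ p u) (Ge : GeoM V μ p u G B) (j₀ : ℤ) {ζ₀ : ℂ → ℂ}
    (hζ₀ : Test V ζ₀) : Tendsto (qq σ h φ j₀ ζ₀) atTop (𝓝 0) := by
  by_contra hcon
  -- a positive lower bound along infinitely many indices
  obtain ⟨δ₀, hδ₀, hfr⟩ : ∃ δ₀ : ℝ, 0 < δ₀ ∧ ∃ᶠ n in atTop, δ₀ ≤ ‖qq σ h φ j₀ ζ₀ n‖ := by
    by_contra hno
    push Not at hno
    apply hcon
    rw [Metric.tendsto_nhds]
    intro ε hε
    filter_upwards [hno ε hε] with n hn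
    rw [dist_zero_right]
    exact hn
  have hne : (atTop ⊓ 𝓟 {n | δ₀ ≤ ‖qq σ h φ j₀ ζ₀ n‖} : Filter ℕ).NeBot := by
    rw [← Filter.frequently_mem_iff_neBot]
    exact hfr
  obtain ⟨F, hF⟩ : ∃ F : Ultrafilter ℕ, (F : Filter ℕ) ≤
      atTop ⊓ 𝓟 {n | δ₀ ≤ ‖qq σ h φ j₀ ζ₀ n‖} := Ultrafilter.exists_le _
  have hFtop : (F : Filter ℕ) ≤ atTop := hF.trans inf_le_left
  have hFset : ∀ᶠ n in (F : Filter ℕ), δ₀ ≤ ‖qq σ h φ j₀ ζ₀ n‖ :=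
    (hF.trans inf_le_right) (mem_principal_self _)
  -- the limits
  have hex : ∀ (j : ℤ) (ζ : ℂ → ℂ), Test V ζ → ∃ l : ℂ,
      Tendsto (qq σ h φ j ζ) (F : Filter ℕ) (𝓝 l) := by
    intro j ζ hζ
    obtain ⟨C, hC⟩ := qq_bdd hCubI L M Ge j hζ
    obtain ⟨l, -, hl⟩ := (isCompact_closedBall (0 : ℂ) C).ultrafilter_le_nhds
      (F.map (qq σ h φ j ζ)) (by
        rw [Ultrafilter.coe_map]
        refine tendsto_principal.2 ?_
        filter_upwards [hFtop hC] with n hn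
        exact mem_closedBall_zero_iff.2 hn)
    exact ⟨l, hl⟩
  let t : ℤ → (ℂ → ℂ) → ℂ := fun j ζ => limUnder (F : Filter ℕ) (qq σ h φ j ζ)
  have ht : ∀ (j : ℤ) (ζ : ℂ → ℂ), Test V ζ →
      Tendsto (qq σ h φ j ζ) (F : Filter ℕ) (𝓝 (t j ζ)) := fun j ζ hζ =>
    tendsto_nhds_limUnder (hex j ζ hζ)
  have huniq : ∀ (j : ℤ) (ζ : ℂ → ℂ), Test V ζ → ∀ l : ℂ,
      Tendsto (qq σ h φ j ζ) (F : Filter ℕ) (𝓝 l) → t j ζ = l := fun j ζ hζ l hl =>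
    tendsto_nhds_unique (ht j ζ hζ) hl
  -- passing to the limit in the bounds
  have hpass : ∀ (ζ : ℂ → ℝ), Test V (fun z => (ζ z : ℂ)) → ∀ (J : Finset ℤ) (f : ℤ → ℂ → ℂ),
      (∀ j, ContDiff ℝ ∞ (f j)) → ∀ R : ℝ, (∀ δ > 0, ∀ᶠ n in atTop,
        ‖∑ j ∈ J, qq σ h φ j (fun z => (ζ z : ℂ) * f j z) n‖ ^ 2 ≤ R + δ) →
      ‖∑ j ∈ J, t j (fun z => (ζ z : ℂ) * f j z)‖ ^ 2 ≤ R := by
    intro ζ hζ J f hf R hR
    have h1 : Tendsto (fun n => ‖∑ j ∈ J, qq σ h φ j (fun z => (ζ z : ℂ) * f j z) n‖ ^ 2)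
        (F : Filter ℕ) (𝓝 (‖∑ j ∈ J, t j (fun z => (ζ z : ℂ) * f j z)‖ ^ 2)) :=
      ((tendsto_finsetSum J fun j _ => ht j _ (test_mul hζ (hf j))).norm).pow 2
    refine le_of_forall_pos_le_add fun δ hδ => ?_
    exact le_of_tendsto h1 (hFtop (hR δ hδ))
  have hzero := hEnd V Ω μ p u t G B L.op M.fin M.mp M.mu M.unit ?_ ?_ ?_ ?_ ?_ Ge.clG Ge.mB
    Ge.conc Ge.rot j₀ ζ₀ hζ₀
  · -- contradiction
    have h1 := (ht j₀ ζ₀ hζ₀).norm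
    have h2 : δ₀ ≤ ‖t j₀ ζ₀‖ := ge_of_tendsto h1 hFset
    rw [hzero, norm_zero] at h2
    linarith
  · -- additivity
    intro j ζ ζ' hζ hζ'
    apply huniq j _ ⟨hζ.smooth.add hζ'.smooth, hζ.supp.add hζ'.supp,
      (closure_mono (Function.support_add _ _)).trans (by
        rw [closure_union]
        exact union_subset hζ.sub hζ'.sub)⟩
    have := (ht j ζ hζ).add (ht j ζ' hζ')
    refine this.congr fun n => ?_
    exact (qq_add L j hζ hζ' n).symm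
  · -- homogeneity
    intro j c ζ hζ
    apply huniq j _ ⟨contDiff_const.mul hζ.smooth, hζ.supp.mul_left,
      (closure_mono fun z hz => right_ne_zero_of_mul hz).trans hζ.sub⟩
    have := (ht j ζ hζ).const_mul c
    refine this.congr fun n => ?_
    exact (qq_smul j c ζ n).symm
  · -- spins not divisible by three
    intro j ζ hζ h3
    apply huniq j ζ hζ
    have : qq σ h φ j ζ = fun _ => 0 := by
      funext n
      unfold qq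
      rw [if_neg h3]
    rw [this]
    exact tendsto_const_nhds
  · -- the bound
    intro K hK hKV
    obtain ⟨C, -, H⟩ := bound hCubI L M Ge hK hKV
    exact ⟨C, fun ζ hζ h01 hts J f hf => hpass ζ hζ J f hf _ (H ζ hζ h01 hts J f hf)⟩
  · -- the small bound
    intro K hK hKV δ hδ
    obtain ⟨N, H⟩ := small hCubI L M Ge hK hKV δ hδ
    exact ⟨N, fun ζ hζ h01 hts hdis J f hf =>
      hpass ζ hζ J f hf _ (H ζ hζ h01 hts hdis J f hf)⟩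

end E3Z

open E3Z in
/-- E3Z -/
theorem stmtE3z (hE3s : StmtE3s) (hCubI : StmtCubI) (hEnd : StmtEnd) : StmtE3z := by
  intro V σ h φ Ω _ μ p u G B L M Ge ζ hζ a b c
  have h1 := hE3s V σ h φ L ζ hζ a b c (a + b + c) rfl
  have h2 := qq_zero hCubI hEnd L M Ge (a + b + c) hζ
  have h3 := h1.add (h2.const_mul (cl3 b c))
  rw [mul_zero, add_zero] at h3
  refine h3.congr fun n => ?_
  unfold qq
  split_ifs with h4
  · ring
  · ring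

end

end U3
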