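import Pool.Agent.U3.Stmts
import Pool.Agent.QJ.GRO

/-!
An invariant functional carried by geodesic arcs vanishes (`StmtEnd`).
-/

open Complex MeasureTheory Filter Topology Set
open scoped ContDiff

namespace U3

open QE QJ

noncomputable section

namespace ENDL

/-- bounded measurable functions -/
def BM {X : Type} [MeasurableSpace X] (h : X → ℂ) : Prop :=
  Measurable h ∧ ∃ C : ℝ, ∀ o, ‖h o‖ ≤ C

section BM

variable {Ω : Type} [MeasurableSpace Ω] {μ : Measure Ω} [IsFiniteMeasure μ]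

theorem BM.int {h : Ω → ℂ} (hh : BM h) : Integrable (fun o => ‖h o‖ ^ 2) μ := by
  obtain ⟨hm, C, hC⟩ := hh
  refine Integrable.of_bound (hm.norm.pow_const 2).aestronglyMeasurable (C ^ 2)
    (Filter.Eventually.of_forall fun o => ?_)
  rw [Real.norm_of_nonneg (by positivity)]
  exact pow_le_pow_left₀ (norm_nonneg _) (hC o) 2

theorem BM.sub {X : Type} [MeasurableSpace X] {h k : X → ℂ} (hh : BM h) (hk : BM k) :
    BM (fun o => h o - k o) := by
  obtain ⟨hm, C, hC⟩ := hh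
  obtain ⟨km, D, hD⟩ := hk
  exact ⟨hm.sub km, C + D, fun o => (norm_sub_le _ _).trans (add_le_add (hC o) (hD o))⟩

theorem BM.comp {X Y : Type} [MeasurableSpace X] [MeasurableSpace Y] {h : Y → ℂ} (hh : BM h)
    {a : X → Y} (ha : Measurable a) : BM (fun o => h (a o)) := by
  obtain ⟨hm, C, hC⟩ := hh
  exact ⟨hm.comp ha, C, fun o => hC _⟩

theorem BM.nonneg {X : Type} [MeasurableSpace X] {h : X → ℂ} (hh : BM h) [Nonempty X] :
    ∃ C : ℝ, 0 ≤ C ∧ ∀ o, ‖h o‖ ≤ C := by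
  obtain ⟨hm, C, hC⟩ := hh
  exact ⟨C, (norm_nonneg _).trans (hC (Classical.arbitrary X)), hC⟩

theorem sq_tri (x y z : ℂ) : ‖x - y‖ ^ 2 ≤ 2 * ‖x - z‖ ^ 2 + 2 * ‖z - y‖ ^ 2 := by
  have h1 : ‖x - y‖ ≤ ‖x - z‖ + ‖z - y‖ := by
    have := norm_add_le (x - z) (z - y)
    rwa [sub_add_sub_cancel] at this
  have h2 : ‖x - y‖ ^ 2 ≤ (‖x - z‖ + ‖z - y‖) ^ 2 := pow_le_pow_left₀ (norm_nonneg _) h1 2
  nlinarith [sq_nonneg (‖x - z‖ - ‖z - y‖)]

theorem tri {a b c : Ω → ℂ} (ha : BM a) (hb : BM b) (hc : BM c) :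
    ∫ o, ‖a o - b o‖ ^ 2 ∂μ ≤ 2 * ∫ o, ‖a o - c o‖ ^ 2 ∂μ + 2 * ∫ o, ‖c o - b o‖ ^ 2 ∂μ := by
  rw [← integral_const_mul, ← integral_const_mul, ← integral_add
    ((ha.sub hc).int.const_mul 2) ((hc.sub hb).int.const_mul 2)]
  exact integral_mono (ha.sub hb).int
    (((ha.sub hc).int.const_mul 2).add ((hc.sub hb).int.const_mul 2)) fun o => sq_tri _ _ _

end BM

/-- the trigonometric polynomial with coefficients `f` -/
def Ph {Ω : Type} (p u : Ω → ℂ) (J : Finset ℤ) (f : ℤ → ℂ → ℂ) (o : Ω) : ℂ :=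
  ∑ j ∈ J, f j (p o) * u o ^ j

theorem bm_Ph {Ω : Type} [MeasurableSpace Ω] {p u : Ω → ℂ} (hp : Measurable p) (hu : Measurable u)
    (hu1 : ∀ o, ‖u o‖ = 1) {U : Set ℂ} (J : Finset ℤ) {f : ℤ → ℂ → ℂ} (hf : ∀ j, Test U (f j)) :
    BM (Ph p u J f) := by
  have hb : ∀ j, ∃ C : ℝ, ∀ z, ‖f j z‖ ≤ C := fun j =>
    (hf j).smooth.continuous.bounded_above_of_compact_support (hf j).supp
  choose C hC using hb
  refine ⟨Finset.measurable_fun_sum J fun j _ =>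
    (((hf j).smooth.continuous.measurable).comp hp).mul (hu.pow_const j),
    ∑ j ∈ J, C j, fun o => ?_⟩
  refine (norm_sum_le _ _).trans (Finset.sum_le_sum fun j _ => ?_)
  rw [norm_mul, norm_zpow, hu1 o, one_zpow, mul_one]
  exact hC j _

/-- the approximation of a function on the base space, together with its rotation -/
theorem dens_pull (hDens : StmtDens) {Ω : Type} [MeasurableSpace Ω] {μ : Measure Ω}
    [IsFiniteMeasure μ] {p u : Ω → ℂ} (hp : Measurable p) (hu : Measurable u)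
    (hu1 : ∀ o, ‖u o‖ = 1) {w : ℂ} (hw : ‖w‖ = 1) {O : Set ℂ} (hO : IsOpen O) {F : ℂ × ℂ → ℂ}
    (hF : BM F) (hF0 : ∀ x, x.1 ∉ O → F x = 0) {ε : ℝ} (hε : 0 < ε) :
    ∃ (J : Finset ℤ) (f : ℤ → ℂ → ℂ), (∀ j, Test O (f j)) ∧
      ∫ o, ‖F (p o, u o) - Ph p u J f o‖ ^ 2 ∂μ ≤ ε ∧
      ∫ o, ‖F (p o, w * u o) - Ph p (fun o => w * u o) J f o‖ ^ 2 ∂μ ≤ ε := by
  have ha : Measurable (fun o => (p o, u o)) := hp.prodMk hu
  have hu' : Measurable (fun o => w * u o) := hu.const_mul w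
  have hu1' : ∀ o, ‖w * u o‖ = 1 := fun o => by rw [norm_mul, hw, hu1, mul_one]
  have hb : Measurable (fun o => (p o, w * u o)) := hp.prodMk hu'
  obtain ⟨J, f, hf, hle⟩ := hDens O (μ.map (fun o => (p o, u o)) + μ.map (fun o => (p o, w * u o)))
    hO (by
      rw [Measure.add_apply, Measure.map_apply ha MeasurableSet.univ,
        Measure.map_apply hb MeasurableSet.univ]
      exact ENNReal.add_ne_top.mpr ⟨measure_ne_top _ _, measure_ne_top _ _⟩) (by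
      have hs : MeasurableSet {x : ℂ × ℂ | ‖x.2‖ ≠ 1} :=
        (measurableSet_eq_fun measurable_snd.norm measurable_const).compl
      rw [Measure.add_apply, Measure.map_apply ha hs, Measure.map_apply hb hs]
      have e1 : (fun o => (p o, u o)) ⁻¹' {x : ℂ × ℂ | ‖x.2‖ ≠ 1} = ∅ := by
        ext o
        simp [hu1 o]
      have e2 : (fun o => (p o, w * u o)) ⁻¹' {x : ℂ × ℂ | ‖x.2‖ ≠ 1} = ∅ := by
        ext o
        simp [hu1 o, hw]
      rw [e1, e2, measure_empty, add_zero]) F hF.1 hF.2 hF0 ε hε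
  refine ⟨J, f, hf, ?_⟩
  have hm : Measurable (fun x : ℂ × ℂ => ‖F x - ∑ j ∈ J, f j x.1 * x.2 ^ j‖ ^ 2) :=
    (hF.1.sub (Finset.measurable_fun_sum J fun j _ =>
      (((hf j).smooth.continuous.measurable).comp measurable_fst).mul
        (measurable_snd.pow_const j))).norm.pow_const 2
  have i1 : Integrable (fun o => ‖F (p o, u o) - Ph p u J f o‖ ^ 2) μ :=
    ((hF.comp ha).sub (bm_Ph hp hu hu1 J hf)).int
  have i2 : Integrable (fun o => ‖F (p o, w * u o) - Ph p (fun o => w * u o) J f o‖ ^ 2) μ :=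
    ((hF.comp hb).sub (bm_Ph hp hu' hu1' J hf)).int
  rw [integral_add_measure ((integrable_map_measure hm.aestronglyMeasurable ha.aemeasurable).mpr i1)
    ((integrable_map_measure hm.aestronglyMeasurable hb.aemeasurable).mpr i2),
    integral_map ha.aemeasurable hm.aestronglyMeasurable,
    integral_map hb.aemeasurable hm.aestronglyMeasurable] at hle
  have n1 : 0 ≤ ∫ o, ‖F (p o, u o) - Ph p u J f o‖ ^ 2 ∂μ :=
    integral_nonneg fun o => by positivity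
  have n2 : 0 ≤ ∫ o, ‖F (p o, w * u o) - Ph p (fun o => w * u o) J f o‖ ^ 2 ∂μ :=
    integral_nonneg fun o => by positivity
  unfold Ph at *
  constructor
  · linarith
  · linarith

theorem test_add {U : Set ℂ} {ζ ξ : ℂ → ℂ} (hζ : Test U ζ) (hξ : Test U ξ) :
    Test U (fun z => ζ z + ξ z) := by
  have hs : Function.support (fun z => ζ z + ξ z) ⊆ tsupport ζ ∪ tsupport ξ := by
    intro z hz
    by_contra hcon
    rw [Set.mem_union, not_or] at hcon
    apply hz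
    show ζ z + ξ z = 0
    rw [image_eq_zero_of_notMem_tsupport hcon.1, image_eq_zero_of_notMem_tsupport hcon.2, add_zero]
  have hts : tsupport (fun z => ζ z + ξ z) ⊆ tsupport ζ ∪ tsupport ξ :=
    closure_minimal hs ((isClosed_tsupport _).union (isClosed_tsupport _))
  have hK : IsCompact (tsupport ζ ∪ tsupport ξ) :=
    IsCompact.union hζ.supp hξ.supp
  exact ⟨hζ.smooth.add hξ.smooth, hK.of_isClosed_subset (isClosed_tsupport _) hts,
    hts.trans (Set.union_subset hζ.sub hξ.sub)⟩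

/-- the difference of two families -/
theorem diff_fam {U V : Set ℂ} (hUV : U ⊆ V) {t : ℤ → (ℂ → ℂ) → ℂ}
    (hadd : ∀ j ζ ζ', Test V ζ → Test V ζ' → t j (fun z => ζ z + ζ' z) = t j ζ + t j ζ')
    (hmul : ∀ j (c : ℂ) ζ, Test V ζ → t j (fun z => c * ζ z) = c * t j ζ)
    (J J' : Finset ℤ) {f f' : ℤ → ℂ → ℂ} (hf : ∀ j, Test U (f j)) (hf' : ∀ j, Test U (f' j)) :
    ∃ (I : Finset ℤ) (d : ℤ → ℂ → ℂ), (∀ j, Test U (d j)) ∧
      ∑ j ∈ I, t j (d j) = ∑ j ∈ J, t j (f j) - ∑ j ∈ J', t j (f' j) ∧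
      ∀ (Ω : Type) (p u : Ω → ℂ) (o : Ω), Ph p u I d o = Ph p u J f o - Ph p u J' f' o := by
  classical
  have hc : ∀ (c : ℂ) {ζ : ℂ → ℂ}, Test U ζ → Test U (fun z => c * ζ z) := by
    intro c ζ hζ
    refine ⟨contDiff_const.mul hζ.smooth, hζ.supp.mul_left, (closure_mono ?_).trans hζ.sub⟩
    intro z hz
    simp only [Function.mem_support] at hz ⊢
    intro h0
    exact hz (by simp [h0])
  refine ⟨J ∪ J', fun j z => (if j ∈ J then 1 else 0) * f j z + (if j ∈ J' then -1 else 0) * f' j z,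
    fun j => test_add (hc _ (hf j)) (hc _ (hf' j)), ?_, ?_⟩
  · have e : ∀ j, t j (fun z => (if j ∈ J then (1 : ℂ) else 0) * f j z +
        (if j ∈ J' then (-1 : ℂ) else 0) * f' j z) =
        (if j ∈ J then t j (f j) else 0) - (if j ∈ J' then t j (f' j) else 0) := by
      intro j
      rw [hadd j _ _ ((hc _ (hf j)).mono hUV) ((hc _ (hf' j)).mono hUV),
        hmul j _ _ ((hf j).mono hUV), hmul j _ _ ((hf' j).mono hUV)]
      split_ifs <;> ring
    rw [Finset.sum_congr rfl fun j _ => e j, Finset.sum_sub_distrib, Finset.sum_ite_mem,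
      Finset.sum_ite_mem, Finset.union_inter_cancel_left, Finset.union_inter_cancel_right]
  · intro Ω p u o
    unfold Ph
    have e : ∀ j, ((if j ∈ J then (1 : ℂ) else 0) * f j (p o) +
        (if j ∈ J' then (-1 : ℂ) else 0) * f' j (p o)) * u o ^ j =
        (if j ∈ J then f j (p o) * u o ^ j else 0) -
          (if j ∈ J' then f' j (p o) * u o ^ j else 0) := by
      intro j
      split_ifs <;> ring
    rw [Finset.sum_congr rfl fun j _ => e j, Finset.sum_sub_distrib, Finset.sum_ite_mem,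
      Finset.sum_ite_mem, Finset.union_inter_cancel_left, Finset.union_inter_cancel_right]

/-- removal of the cutoff function -/
theorem bound_of {Ω : Type} [MeasurableSpace Ω] {μ : Measure Ω} [IsFiniteMeasure μ] {p u : Ω → ℂ}
    (hp : Measurable p) (hu : Measurable u) (hu1 : ∀ o, ‖u o‖ = 1) {t : ℤ → (ℂ → ℂ) → ℂ}
    {O : Set ℂ} (hO : IsOpen O) {C : ℝ} (hC : 0 ≤ C)
    (hb : ∀ ζ : ℂ → ℝ, Test O (fun z => (ζ z : ℂ)) → (∀ z, 0 ≤ ζ z ∧ ζ z ≤ 1) →
      ∀ (J : Finset ℤ) (f : ℤ → ℂ → ℂ), (∀ j, ContDiff ℝ ∞ (f j)) →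
      ‖∑ j ∈ J, t j (fun z => (ζ z : ℂ) * f j z)‖ ^ 2
        ≤ C * ∫ o, ζ (p o) * ‖∑ j ∈ J, f j (p o) * u o ^ j‖ ^ 2 ∂μ)
    (J : Finset ℤ) {f : ℤ → ℂ → ℂ} (hf : ∀ j, Test O (f j)) :
    ‖∑ j ∈ J, t j (f j)‖ ^ 2 ≤ C * ∫ o, ‖Ph p u J f o‖ ^ 2 ∂μ := by
  obtain ⟨ζ, hζ, hζ1, hζ2, hζc, -, -⟩ := GRO.exists_cutoff_real hO
    (J.isCompact_biUnion fun j _ => ((hf j).supp : IsCompact (tsupport (f j))))
    (iUnion₂_subset fun j _ => (hf j).sub)
  have h1 := hb ζ hζ hζ2 J f fun j => (hf j).smooth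
  have h2 : ∑ j ∈ J, t j (fun z => (ζ z : ℂ) * f j z) = ∑ j ∈ J, t j (f j) := by
    refine Finset.sum_congr rfl fun j hj => ?_
    congr 1
    funext z
    by_cases hz : z ∈ tsupport (f j)
    · rw [hζ1 z (mem_iUnion₂.mpr ⟨j, hj, hz⟩)]
      simp
    · rw [image_eq_zero_of_notMem_tsupport hz, mul_zero]
  rw [h2] at h1
  refine h1.trans (mul_le_mul_of_nonneg_left ?_ hC)
  have hP := bm_Ph hp hu hu1 J hf
  obtain ⟨hPm, M, hM⟩ := id hP
  refine integral_mono (Integrable.of_bound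
    ((hζc.measurable.comp hp).mul (hPm.norm.pow_const 2)).aestronglyMeasurable (M ^ 2)
    (Filter.Eventually.of_forall fun o => ?_)) hP.int fun o => ?_
  · have h3 := hζ2 (p o)
    change ‖ζ (p o) * ‖Ph p u J f o‖ ^ 2‖ ≤ M ^ 2
    have h4 : ‖Ph p u J f o‖ ^ 2 ≤ M ^ 2 := pow_le_pow_left₀ (norm_nonneg _) (hM o) 2
    have h5 : 0 ≤ ‖Ph p u J f o‖ ^ 2 := by positivity
    rw [Real.norm_of_nonneg (mul_nonneg h3.1 h5)]
    nlinarith
  · change ζ (p o) * ‖Ph p u J f o‖ ^ 2 ≤ ‖Ph p u J f o‖ ^ 2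
    have h5 : 0 ≤ ‖Ph p u J f o‖ ^ 2 := by positivity
    nlinarith [(hζ2 (p o)).2]

/-- the functional is small on families which approximate a function that vanishes on `B` -/
theorem key (hDens : StmtDens) {Ω : Type} [MeasurableSpace Ω] {μ : Measure Ω}
    [IsFiniteMeasure μ] {p u : Ω → ℂ} (hp : Measurable p) (hu : Measurable u)
    (hu1 : ∀ o, ‖u o‖ = 1) {U V : Set ℂ} (hU : IsOpen U) (hUV : U ⊆ V) {t : ℤ → (ℂ → ℂ) → ℂ}
    (hadd : ∀ j ζ ζ', Test V ζ → Test V ζ' → t j (fun z => ζ z + ζ' z) = t j ζ + t j ζ')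
    (hmul : ∀ j (c : ℂ) ζ, Test V ζ → t j (fun z => c * ζ z) = c * t j ζ)
    {G : ℕ → Set ℂ} {B : Set (ℂ × ℂ)} {C : ℝ} (hC : 0 ≤ C)
    (hb : ∀ (J : Finset ℤ) (f : ℤ → ℂ → ℂ), (∀ j, Test U (f j)) →
      ‖∑ j ∈ J, t j (f j)‖ ^ 2 ≤ C * ∫ o, ‖Ph p u J f o‖ ^ 2 ∂μ)
    (hs : ∀ δ > 0, ∃ N, ∀ (J : Finset ℤ) (f : ℤ → ℂ → ℂ), (∀ j, Test (U ∩ (G N)ᶜ) (f j)) →
      ‖∑ j ∈ J, t j (f j)‖ ^ 2 ≤ δ * ∫ o, ‖Ph p u J f o‖ ^ 2 ∂μ)
    (hG : ∀ N, IsClosed (G N)) (hGB : ∀ N, μ {o | p o ∈ G N ∧ (p o, u o) ∉ B} = 0)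
    {F : ℂ × ℂ → ℂ} (hF : BM F) (hF0 : ∀ x, x.1 ∉ U → F x = 0)
    (hFB : μ {o | F (p o, u o) ≠ 0 ∧ (p o, u o) ∈ B} = 0) {ε : ℝ} (hε : 0 < ε) :
    ∃ η > 0, ∀ (J : Finset ℤ) (f : ℤ → ℂ → ℂ), (∀ j, Test U (f j)) →
      ∫ o, ‖F (p o, u o) - Ph p u J f o‖ ^ 2 ∂μ ≤ η → ‖∑ j ∈ J, t j (f j)‖ ^ 2 ≤ ε := by
  set I : ℝ := ∫ o, ‖F (p o, u o)‖ ^ 2 ∂μ with hI
  have hI0 : 0 ≤ I := integral_nonneg fun o => by positivity
  obtain ⟨N, hN⟩ := hs (ε / (8 * (I + 1))) (by positivity)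
  have hη : 0 < min 1 (ε / (16 * (C + 1))) := lt_min one_pos (by positivity)
  refine ⟨min 1 (ε / (16 * (C + 1))), hη, fun J f hf hle => ?_⟩
  set η := min 1 (ε / (16 * (C + 1))) with hηd
  have hη1 : η ≤ 1 := min_le_left _ _
  have hη2 : 16 * (C + 1) * η ≤ ε := by
    have h1 : η ≤ ε / (16 * (C + 1)) := min_le_right _ _
    rw [le_div_iff₀ (by positivity)] at h1
    linarith
  -- the function off `G N`
  have hO : IsOpen (U ∩ (G N)ᶜ) := hU.inter (hG N).isOpen_compl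
  classical
  have hF' : BM (fun x : ℂ × ℂ => if x.1 ∈ G N then 0 else F x) := by
    obtain ⟨hm, M, hM⟩ := hF
    refine ⟨Measurable.ite (measurable_fst (hG N).measurableSet) measurable_const hm, M,
      fun x => ?_⟩
    show ‖if x.1 ∈ G N then 0 else F x‖ ≤ M
    split_ifs
    · rw [norm_zero]
      exact (norm_nonneg _).trans (hM x)
    · exact hM x
  obtain ⟨J', f', hf', hle', -⟩ := dens_pull hDens (μ := μ) hp hu hu1 (w := 1) (norm_one) hO hF'
    (fun x hx => by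
      show (if x.1 ∈ G N then 0 else F x) = 0
      split_ifs with hG'
      · rfl
      · exact hF0 x fun hxU => hx ⟨hxU, hG'⟩) hη
  have hae : ∀ᵐ o ∂μ, (if p o ∈ G N then 0 else F (p o, u o)) = F (p o, u o) := by
    rw [ae_iff]
    refine measure_mono_null ?_ (measure_union_null (hGB N) hFB)
    intro o ho
    rw [mem_ofPred_eq] at ho
    by_cases h1 : p o ∈ G N
    · rw [if_pos h1] at ho
      by_cases h2 : (p o, u o) ∈ B
      · exact Or.inr ⟨fun h3 => ho h3.symm, h2⟩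
      · exact Or.inl ⟨h1, h2⟩
    · rw [if_neg h1] at ho
      exact absurd rfl ho
  have hle2 : ∫ o, ‖F (p o, u o) - Ph p u J' f' o‖ ^ 2 ∂μ ≤ η := by
    refine le_trans (le_of_eq (integral_congr_ae ?_)) hle'
    filter_upwards [hae] with o ho
    show ‖F (p o, u o) - Ph p u J' f' o‖ ^ 2 =
      ‖(if p o ∈ G N then 0 else F (p o, u o)) - Ph p u J' f' o‖ ^ 2
    rw [ho]
  have hf'U : ∀ j, Test U (f' j) := fun j => (hf' j).mono inter_subset_left
  have ha : Measurable (fun o => (p o, u o)) := hp.prodMk hu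
  have bF : BM (fun o => F (p o, u o)) := hF.comp ha
  have b1 := bm_Ph hp hu hu1 J hf
  have b2 := bm_Ph hp hu hu1 J' hf'U
  obtain ⟨I', d, hd, hd1, hd2⟩ := diff_fam hUV hadd hmul J J' hf hf'U
  have h1 := hb I' d hd
  have h2 : ∫ o, ‖Ph p u I' d o‖ ^ 2 ∂μ ≤ 4 * η := by
    have e : (fun o => ‖Ph p u I' d o‖ ^ 2) = fun o => ‖Ph p u J f o - Ph p u J' f' o‖ ^ 2 := by
      funext o
      rw [hd2]
    rw [e]
    have h3 := tri (μ := μ) b1 b2 bF
    have e2 : ∫ o, ‖Ph p u J f o - F (p o, u o)‖ ^ 2 ∂μ =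
        ∫ o, ‖F (p o, u o) - Ph p u J f o‖ ^ 2 ∂μ :=
      integral_congr_ae (Filter.Eventually.of_forall fun o => by simp only [norm_sub_rev])
    rw [e2] at h3
    linarith
  have h3 := hN J' f' hf'
  have h4 : ∫ o, ‖Ph p u J' f' o‖ ^ 2 ∂μ ≤ 2 * I + 2 * η := by
    have z0 : BM (fun _ : Ω => (0 : ℂ)) := ⟨measurable_const, 0, fun o => by simp⟩
    have h5 := tri (μ := μ) z0 b2 bF
    simp only [zero_sub, norm_neg] at h5
    linarith
  rw [hd1] at h1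
  have h5 : ‖∑ j ∈ J, t j (f j)‖ ^ 2 ≤
      2 * ‖∑ j ∈ J, t j (f j) - ∑ j ∈ J', t j (f' j)‖ ^ 2 + 2 * ‖∑ j ∈ J', t j (f' j)‖ ^ 2 := by
    have := sq_tri (∑ j ∈ J, t j (f j)) 0 (∑ j ∈ J', t j (f' j))
    simpa using this
  have h6 : C * ∫ o, ‖Ph p u I' d o‖ ^ 2 ∂μ ≤ C * (4 * η) := mul_le_mul_of_nonneg_left h2 hC
  have h7 : ε / (8 * (I + 1)) * ∫ o, ‖Ph p u J' f' o‖ ^ 2 ∂μ ≤
      ε / (8 * (I + 1)) * (2 * (I + 1)) := by
    refine mul_le_mul_of_nonneg_left ?_ (by positivity)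
    linarith
  have h8 : ε / (8 * (I + 1)) * (2 * (I + 1)) = ε / 4 := by
    field_simp
    ring
  rw [h8] at h7
  nlinarith

theorem w3_norm : ‖w3‖ = 1 := by
  unfold w3
  rw [show (2 * Real.pi * Complex.I / 3 : ℂ) = ((2 * Real.pi / 3 : ℝ) : ℂ) * Complex.I by
    push_cast; ring]
  exact Complex.norm_exp_ofReal_mul_I _

theorem w3_cube : w3 ^ 3 = 1 := by
  unfold w3
  rw [← Complex.exp_nat_mul]
  rw [show ((3 : ℕ) : ℂ) * (2 * Real.pi * Complex.I / 3) = 2 * Real.pi * Complex.I by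
    push_cast; ring]
  exact Complex.exp_two_pi_mul_I

theorem w3_zpow {j : ℤ} (hj : (3 : ℤ) ∣ j) : w3 ^ j = 1 := by
  obtain ⟨k, rfl⟩ := hj
  rw [zpow_mul]
  have : w3 ^ (3 : ℤ) = 1 := by
    have := w3_cube
    exact_mod_cast this
  rw [this, one_zpow]

end ENDL

open ENDL in
/-- **(ENDL)** -/
theorem stmtEnd (hDens : StmtDens) : StmtEnd := by
  intro V Ω _ μ p u t G B hV hμ hp hu hu1 hadd hmul h3 hbd hsm hG hB hGB hrot j₀ ζ₀ hζ₀
  have : IsFiniteMeasure μ := ⟨lt_top_iff_ne_top.mpr hμ⟩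
  obtain ⟨K, hK, hK1, hK2⟩ := exists_compact_between (hζ₀.supp : IsCompact (tsupport ζ₀)) hV
    hζ₀.sub
  set U : Set ℂ := interior K with hUd
  have hU : IsOpen U := isOpen_interior
  have hUK : U ⊆ K := interior_subset
  have hUV : U ⊆ V := hUK.trans hK2
  have hζU : Test U ζ₀ := ⟨hζ₀.smooth, hζ₀.supp, hK1⟩
  -- the two bounds
  obtain ⟨C₀, hC₀⟩ := hbd K hK hK2
  have hb : ∀ (J : Finset ℤ) (f : ℤ → ℂ → ℂ), (∀ j, Test U (f j)) →
      ‖∑ j ∈ J, t j (f j)‖ ^ 2 ≤ max C₀ 0 * ∫ o, ‖Ph p u J f o‖ ^ 2 ∂μ := by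
    intro J f hf
    refine bound_of hp hu hu1 hU (le_max_right _ _) ?_ J hf
    intro ζ hζ hζ1 J f hf
    refine (hC₀ ζ (hζ.mono hUV) hζ1 ?_ J f hf).trans
      (mul_le_mul_of_nonneg_right (le_max_left _ _) (integral_nonneg fun o =>
        mul_nonneg (hζ1 _).1 (by positivity)))
    intro z hz
    have e : tsupport (fun z => (ζ z : ℂ)) = tsupport ζ := by
      unfold tsupport
      congr 1
      ext z
      simp
    exact hUK (hζ.sub (by rw [e]; exact hz))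
  have hs : ∀ δ > 0, ∃ N, ∀ (J : Finset ℤ) (f : ℤ → ℂ → ℂ), (∀ j, Test (U ∩ (G N)ᶜ) (f j)) →
      ‖∑ j ∈ J, t j (f j)‖ ^ 2 ≤ δ * ∫ o, ‖Ph p u J f o‖ ^ 2 ∂μ := by
    intro δ hδ
    obtain ⟨N, hN⟩ := hsm K hK hK2 δ hδ
    refine ⟨N, fun J f hf => bound_of hp hu hu1 (hU.inter (hG N).isOpen_compl) hδ.le ?_ J hf⟩
    intro ζ hζ hζ1 J f hf
    have e : tsupport (fun z => (ζ z : ℂ)) = tsupport ζ := by
      unfold tsupport
      congr 1
      ext z
      simp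
    have hsub := hζ.sub
    rw [e] at hsub
    refine hN ζ (hζ.mono (inter_subset_left.trans hUV)) hζ1
      (hsub.trans (inter_subset_left.trans hUK)) ?_ J f hf
    rw [disjoint_left]
    exact fun z hz => (hsub hz).2
  have hC : 0 ≤ max C₀ 0 := le_max_right _ _
  -- the functions
  classical
  obtain ⟨M, hM⟩ := hζ₀.smooth.continuous.bounded_above_of_compact_support hζ₀.supp
  set F₀ : ℂ × ℂ → ℂ := fun x => if ‖x.2‖ = 1 then ζ₀ x.1 * x.2 ^ j₀ else 0 with hF₀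
  have bF₀ : BM F₀ := by
    refine ⟨Measurable.ite (measurableSet_eq_fun measurable_snd.norm measurable_const)
      ((hζ₀.smooth.continuous.measurable.comp measurable_fst).mul (measurable_snd.pow_const j₀))
      measurable_const, M, fun x => ?_⟩
    show ‖if ‖x.2‖ = 1 then ζ₀ x.1 * x.2 ^ j₀ else 0‖ ≤ M
    split_ifs with hx
    · rw [norm_mul, norm_zpow, hx, one_zpow, mul_one]
      exact hM _
    · rw [norm_zero]
      exact (norm_nonneg _).trans (hM 0)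
  have zF₀ : ∀ x, x.1 ∉ U → F₀ x = 0 := by
    intro x hx
    show (if ‖x.2‖ = 1 then ζ₀ x.1 * x.2 ^ j₀ else 0) = 0
    split_ifs
    · rw [image_eq_zero_of_notMem_tsupport fun h => hx (hK1 h), zero_mul]
    · rfl
  set F₁ : ℂ × ℂ → ℂ := fun x => if x ∈ B then F₀ x else 0 with hF₁
  have bF₁ : BM F₁ := by
    obtain ⟨hm, M, hM⟩ := bF₀
    refine ⟨Measurable.ite hB hm measurable_const, M, fun x => ?_⟩
    show ‖if x ∈ B then F₀ x else 0‖ ≤ M
    split_ifs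
    · exact hM x
    · rw [norm_zero]
      exact (norm_nonneg _).trans (hM x)
  have zF₁ : ∀ x, x.1 ∉ U → F₁ x = 0 := by
    intro x hx
    show (if x ∈ B then F₀ x else 0) = 0
    split_ifs
    · exact zF₀ x hx
    · rfl
  have bF₂ : BM (fun x : ℂ × ℂ => F₁ (x.1, w3 * x.2)) :=
    bF₁.comp (measurable_fst.prodMk (measurable_snd.const_mul w3))
  by_contra hne
  have hpos : 0 < ‖t j₀ ζ₀‖ ^ 2 := by
    have := norm_pos_iff.mpr hne
    positivity
  set ε : ℝ := ‖t j₀ ζ₀‖ ^ 2 / 8 with hε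
  have hε0 : 0 < ε := by positivity
  obtain ⟨η₁, hη₁, k₁⟩ := key hDens (μ := μ) hp hu hu1 hU hUV hadd hmul hC hb hs hG hGB
    (bF₀.sub bF₁) (fun x hx => by simp only [zF₀ x hx, zF₁ x hx, sub_zero]) (by
      have : {o | F₀ (p o, u o) - F₁ (p o, u o) ≠ 0 ∧ (p o, u o) ∈ B} = ∅ := by
        ext o
        simp only [mem_ofPred_eq, mem_empty_iff_false, iff_false, not_and]
        intro h1 h2
        apply h1
        show F₀ (p o, u o) - (if (p o, u o) ∈ B then F₀ (p o, u o) else 0) = 0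
        rw [if_pos h2, sub_self]
      rw [this, measure_empty]) hε0
  obtain ⟨η₂, hη₂, k₂⟩ := key hDens (μ := μ) hp hu hu1 hU hUV hadd hmul hC hb hs hG hGB
    bF₂ (fun x hx => zF₁ _ hx) (by
      refine measure_mono_null ?_ hrot
      rintro o ⟨h1, h2⟩
      refine ⟨h2, ?_⟩
      by_contra h4
      apply h1
      show (if (p o, w3 * u o) ∈ B then F₀ (p o, w3 * u o) else 0) = 0
      rw [if_neg h4]) hε0
  obtain ⟨J, f, hf, l₁, l₂⟩ := dens_pull hDens (μ := μ) hp hu hu1 w3_norm hU bF₁ zF₁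
    (lt_min hη₁ hη₂)
  -- the first difference
  obtain ⟨I, d, hd, hd1, hd2⟩ := diff_fam hUV hadd hmul {j₀} J (f := fun _ => ζ₀)
    (fun _ => hζU) hf
  have a1 : ‖∑ j ∈ I, t j (d j)‖ ^ 2 ≤ ε := by
    refine k₁ I d hd (le_trans (le_of_eq ?_) (l₁.trans (min_le_left _ _)))
    refine integral_congr_ae (Filter.Eventually.of_forall fun o => ?_)
    have e1 : F₀ (p o, u o) = ζ₀ (p o) * u o ^ j₀ := by
      show (if ‖u o‖ = 1 then ζ₀ (p o) * u o ^ j₀ else 0) = _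
      rw [if_pos (hu1 o)]
    have e2 : Ph p u {j₀} (fun _ => ζ₀) o = ζ₀ (p o) * u o ^ j₀ := by
      unfold Ph
      rw [Finset.sum_singleton]
    simp only [hd2, e1, e2]
    rw [show ζ₀ (p o) * u o ^ j₀ - F₁ (p o, u o) - (ζ₀ (p o) * u o ^ j₀ - Ph p u J f o) =
      -(F₁ (p o, u o) - Ph p u J f o) by ring, norm_neg]
  -- the rotated family
  have hc : ∀ j, Test U (fun z => w3 ^ j * f j z) := by
    intro j
    refine ⟨contDiff_const.mul (hf j).smooth, (hf j).supp.mul_left,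
      (closure_mono ?_).trans (hf j).sub⟩
    intro z hz
    simp only [Function.mem_support] at hz ⊢
    intro h0
    exact hz (by simp [h0])
  have a2 : ‖∑ j ∈ J, t j (fun z => w3 ^ j * f j z)‖ ^ 2 ≤ ε := by
    refine k₂ J _ hc (le_trans (le_of_eq ?_) (l₂.trans (min_le_right _ _)))
    refine integral_congr_ae (Filter.Eventually.of_forall fun o => ?_)
    have e1 : Ph p u J (fun j z => w3 ^ j * f j z) o = Ph p (fun o => w3 * u o) J f o := by
      unfold Ph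
      refine Finset.sum_congr rfl fun j _ => ?_
      rw [mul_zpow]
      ring
    simp only [e1]
  have e3 : ∑ j ∈ J, t j (fun z => w3 ^ j * f j z) = ∑ j ∈ J, t j (f j) := by
    refine Finset.sum_congr rfl fun j _ => ?_
    rw [hmul j _ _ ((hf j).mono hUV)]
    by_cases hj : (3 : ℤ) ∣ j
    · rw [w3_zpow hj, one_mul]
    · rw [h3 j _ ((hf j).mono hUV) hj, mul_zero]
  rw [e3] at a2
  rw [hd1, Finset.sum_singleton] at a1
  have a3 := sq_tri (t j₀ ζ₀) 0 (∑ j ∈ J, t j (f j))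
  simp only [sub_zero] at a3
  linarith

end

end U3
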