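import Pool.Agent.U3.Stmts
import Pool.Agent.QJ.Ops
import Pool.Agent.QJ.Dom

/-!
The bound of the kernel of the cubic argument (StmtFir).
-/

open Complex MeasureTheory Filter Topology Set
open scoped ContDiff

namespace U3

open QE QJ

noncomputable section

namespace FIR

lemma w3_eq : w3 = Complex.exp (((2 * Real.pi / 3 : ℝ) : ℂ) * Complex.I) := by
  unfold w3
  congr 1
  push_cast
  ring

lemma w3_norm : ‖w3‖ = 1 := by
  rw [w3_eq]; exact Complex.norm_exp_ofReal_mul_I _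

lemma w3_re : w3.re = -(1 / 2) := by
  rw [w3_eq, Complex.exp_ofReal_mul_I_re]
  have : (2 * Real.pi / 3 : ℝ) = Real.pi - Real.pi / 3 := by ring
  rw [this, Real.cos_pi_sub, Real.cos_pi_div_three]

lemma w3_cube : w3 ^ 3 = 1 := by
  unfold w3
  rw [← Complex.exp_nat_mul]
  have : ((3 : ℕ) : ℂ) * (2 * Real.pi * Complex.I / 3) = 2 * Real.pi * Complex.I := by
    push_cast
    ring
  rw [this, Complex.exp_two_pi_mul_I]

lemma cw3_norm : ‖(starRingEnd ℂ) w3‖ = 1 := by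
  rw [Complex.norm_conj, w3_norm]

lemma cw3_re : ((starRingEnd ℂ) w3).re = -(1 / 2) := by
  rw [Complex.conj_re, w3_re]

lemma cw3_mul : (starRingEnd ℂ) w3 * w3 = 1 := by
  rw [Complex.conj_mul', w3_norm]
  simp

lemma cw3_cube : ((starRingEnd ℂ) w3) ^ 3 = 1 := by
  rw [← map_pow, w3_cube, map_one]

lemma cw3_eq : (starRingEnd ℂ) w3 = w3 ^ 2 := by
  have h := cw3_mul
  have h3 := w3_cube
  calc (starRingEnd ℂ) w3 = (starRingEnd ℂ) w3 * w3 ^ 3 := by rw [h3, mul_one]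
    _ = ((starRingEnd ℂ) w3 * w3) * w3 ^ 2 := by ring
    _ = w3 ^ 2 := by rw [h, one_mul]

lemma far {x : ℂ} (hx : x.re = -(1 / 2)) : 3 / 2 ≤ ‖x - 1‖ := by
  have h := Complex.abs_re_le_norm (x - 1)
  rw [Complex.sub_re, Complex.one_re, hx] at h
  have : |(-(1 / 2) : ℝ) - 1| = 3 / 2 := by
    rw [abs_of_neg (by norm_num)]; norm_num
  rw [this] at h
  exact h

/-- a point close to one, rotated by a far rotation, is far from one -/
lemma far_mul {x a : ℂ} {η : ℝ} (hx : x.re = -(1 / 2)) (hn : ‖x‖ = 1) (ha : ‖a - 1‖ < η)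
    (hη : η ≤ 1 / 10) : 1 ≤ ‖x * a - 1‖ := by
  have h1 := far hx
  have h2 : ‖x - 1‖ ≤ ‖x * a - 1‖ + ‖x * (a - 1)‖ := by
    have : x - 1 = (x * a - 1) - x * (a - 1) := by ring
    calc ‖x - 1‖ = ‖(x * a - 1) - x * (a - 1)‖ := by rw [← this]
      _ ≤ _ := norm_sub_le _ _
  rw [norm_mul, hn, one_mul] at h2
  linarith

lemma far_mul2 {x a : ℂ} {η : ℝ} (hx : x.re = -(1 / 2)) (hn : ‖x‖ = 1) (ha : ‖a - 1‖ < η)
    (ha1 : ‖a‖ = 1) (hη : η ≤ 1 / 10) : 1 ≤ ‖x * a ^ 2 - 1‖ := by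
  have h1 := far hx
  have h2 : ‖x - 1‖ ≤ ‖x * a ^ 2 - 1‖ + ‖x * ((a - 1) * (a + 1))‖ := by
    have : x - 1 = (x * a ^ 2 - 1) - x * ((a - 1) * (a + 1)) := by ring
    calc ‖x - 1‖ = ‖(x * a ^ 2 - 1) - x * ((a - 1) * (a + 1))‖ := by rw [← this]
      _ ≤ _ := norm_sub_le _ _
  have h3 : ‖a + 1‖ ≤ 2 := by
    calc ‖a + 1‖ ≤ ‖a‖ + ‖(1 : ℂ)‖ := norm_add_le _ _
      _ = 2 := by rw [ha1, norm_one]; norm_num
  rw [norm_mul, hn, one_mul, norm_mul] at h2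
  have h4 : ‖a - 1‖ * ‖a + 1‖ ≤ (1 / 10) * 2 :=
    mul_le_mul (by linarith) h3 (norm_nonneg _) (by norm_num)
  linarith

lemma GM_le (M : ℕ) {x : ℂ} (hx : ‖x‖ = 1) : ‖GM M x‖ ≤ M := by
  unfold GM
  calc ‖∑ b ∈ Finset.range M, x ^ b‖ ≤ ∑ b ∈ Finset.range M, ‖x ^ b‖ := norm_sum_le _ _
    _ = ∑ b ∈ Finset.range M, (1 : ℝ) := by
        refine Finset.sum_congr rfl fun b _ => ?_
        rw [norm_pow, hx, one_pow]
    _ = M := by simp

lemma GM_mul (M : ℕ) (x : ℂ) : GM M x * (x - 1) = x ^ M - 1 := geom_sum_mul x M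

lemma GM_le_div (M : ℕ) {x : ℂ} {c L : ℝ} (hc : 0 < c) (hx : c ≤ ‖x - 1‖)
    (hL : ‖x ^ M - 1‖ ≤ L) : ‖GM M x‖ ≤ L / c := by
  have h := GM_mul M x
  have h1 : ‖GM M x‖ * ‖x - 1‖ = ‖x ^ M - 1‖ := by rw [← norm_mul, h]
  rw [le_div_iff₀ hc]
  calc ‖GM M x‖ * c ≤ ‖GM M x‖ * ‖x - 1‖ := mul_le_mul_of_nonneg_left hx (norm_nonneg _)
    _ = ‖x ^ M - 1‖ := h1
    _ ≤ L := hL

lemma pow_sub_le_two {x : ℂ} (hx : ‖x‖ = 1) (M : ℕ) : ‖x ^ M - 1‖ ≤ 2 := by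
  calc ‖x ^ M - 1‖ ≤ ‖x ^ M‖ + ‖(1 : ℂ)‖ := norm_sub_le _ _
    _ = 2 := by rw [norm_pow, hx, one_pow, norm_one]; norm_num

lemma pow_sub_le {t : ℂ} (ht : ‖t‖ = 1) {M : ℕ} (hM : 2 ∣ M) :
    ‖t ^ M - 1‖ ≤ (M : ℝ) / 2 * ‖t ^ 2 - 1‖ := by
  obtain ⟨m, rfl⟩ := hM
  have h : t ^ (2 * m) - 1 = GM m (t ^ 2) * (t ^ 2 - 1) := by
    rw [GM_mul, pow_mul]
  have h2 : ‖t ^ 2‖ = 1 := by rw [norm_pow, ht, one_pow]
  rw [h, norm_mul]
  have h3 := GM_le m h2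
  push_cast
  have : (2 * (m : ℝ)) / 2 = m := by ring
  rw [this]
  exact mul_le_mul_of_nonneg_right h3 (norm_nonneg _)

lemma pow_eq {x t : ℂ} (hx : x ^ 3 = 1) {M : ℕ} (hM : 3 ∣ M) : (x * t) ^ M = t ^ M := by
  obtain ⟨m, rfl⟩ := hM
  rw [mul_pow, pow_mul x 3 m, hx, one_pow, one_mul]

end FIR

open FIR in
theorem stmtFir : StmtFir := by
  intro η hη hη1
  refine ⟨2 / η ^ 4 + 8, by positivity, ?_⟩
  intro M h6 hM0 t ht
  have h2 : 2 ∣ M := dvd_trans (by norm_num) h6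
  have h3 : 3 ∣ M := dvd_trans (by norm_num) h6
  set a : ℂ := w3 * t with ha
  set b : ℂ := (starRingEnd ℂ) w3 * t with hb
  have hna : ‖a‖ = 1 := by rw [ha, norm_mul, w3_norm, ht, one_mul]
  have hnb : ‖b‖ = 1 := by rw [hb, norm_mul, cw3_norm, ht, one_mul]
  have hpa : a ^ M = t ^ M := pow_eq w3_cube h3
  have hpb : b ^ M = t ^ M := pow_eq cw3_cube h3
  set L : ℝ := ‖t ^ M - 1‖ with hL
  set s : ℝ := ‖t ^ 2 - 1‖ with hs
  have hL0 : 0 ≤ L := norm_nonneg _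
  have hs0 : 0 ≤ s := norm_nonneg _
  have hL2 : L ≤ 2 := pow_sub_le_two ht M
  have hLs : L ≤ (M : ℝ) / 2 * s := pow_sub_le ht h2
  have hM1 : (1 : ℝ) ≤ M := by exact_mod_cast hM0
  have hL4 : L ^ 4 ≤ (M : ℝ) ^ 2 * s ^ 2 := by
    have h1 : L ^ 2 ≤ 4 := by nlinarith
    have h4 : L ^ 2 ≤ ((M : ℝ) / 2 * s) ^ 2 := pow_le_pow_left₀ hL0 hLs 2
    calc L ^ 4 = L ^ 2 * L ^ 2 := by ring
      _ ≤ 4 * ((M : ℝ) / 2 * s) ^ 2 := mul_le_mul h1 h4 (by positivity) (by norm_num)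
      _ = (M : ℝ) ^ 2 * s ^ 2 := by ring
  have hLa : ‖a ^ M - 1‖ ≤ L := by rw [hpa]
  have hLb : ‖b ^ M - 1‖ ≤ L := by rw [hpb]
  have hGa := GM_le M hna
  have hGb := GM_le M hnb
  have hGt := GM_le M ht
  -- the two terms
  have hFM : ‖FM M t‖ ≤ M * ‖GM M a‖ ^ 4 + ‖GM M a‖ ^ 2 * ‖GM M b‖ ^ 2 * ‖GM M t‖ := by
    unfold FM
    refine (norm_add_le _ _).trans ?_
    apply le_of_eq
    rw [norm_mul, norm_mul, Complex.norm_conj, norm_mul, norm_mul, norm_pow, norm_pow,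
      Complex.norm_natCast]
    ring
  -- first term
  have hT1 : (M : ℝ) * ‖GM M a‖ ^ 4 ≤ s ^ 2 * ((1 / η ^ 4) * (M : ℝ) ^ 3 +
      (if ‖a - 1‖ < η then (M : ℝ) ^ 5 else 0)) := by
    split_ifs with hc
    · have h1 : ‖GM M a‖ ^ 4 ≤ (M : ℝ) ^ 4 := pow_le_pow_left₀ (norm_nonneg _) hGa 4
      have h4 : 1 ≤ s := by
        have hta : t ^ 2 = w3 * a ^ 2 := by
          rw [ha]
          have := w3_cube
          calc t ^ 2 = w3 ^ 3 * t ^ 2 := by rw [this, one_mul]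
            _ = w3 * (w3 * t) ^ 2 := by ring
        rw [hs, hta]
        exact far_mul2 w3_re w3_norm hc hna hη1
      have h5 : (1 : ℝ) ≤ s ^ 2 := by nlinarith
      have h6 : (M : ℝ) * ‖GM M a‖ ^ 4 ≤ (M : ℝ) ^ 5 := by
        calc (M : ℝ) * ‖GM M a‖ ^ 4 ≤ M * (M : ℝ) ^ 4 :=
              mul_le_mul_of_nonneg_left h1 (by positivity)
          _ = (M : ℝ) ^ 5 := by ring
      have h7 : (0 : ℝ) ≤ 1 / η ^ 4 * (M : ℝ) ^ 3 := by positivity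
      have h8 : (0 : ℝ) ≤ (M : ℝ) ^ 5 := by positivity
      nlinarith
    · have hc' : η ≤ ‖a - 1‖ := not_lt.mp hc
      have h1 : ‖GM M a‖ ≤ L / η := GM_le_div M hη hc' hLa
      have h4 : ‖GM M a‖ ^ 4 ≤ (L / η) ^ 4 := pow_le_pow_left₀ (norm_nonneg _) h1 4
      have h5 : (L / η) ^ 4 = L ^ 4 * (1 / η ^ 4) := by
        rw [div_pow]; ring
      have h6 : (0 : ℝ) ≤ 1 / η ^ 4 := by positivity
      calc (M : ℝ) * ‖GM M a‖ ^ 4 ≤ M * (L ^ 4 * (1 / η ^ 4)) := by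
            rw [← h5]; exact mul_le_mul_of_nonneg_left h4 (by positivity)
        _ ≤ M * (((M : ℝ) ^ 2 * s ^ 2) * (1 / η ^ 4)) :=
            mul_le_mul_of_nonneg_left (mul_le_mul_of_nonneg_right hL4 h6) (by positivity)
        _ = s ^ 2 * (1 / η ^ 4 * (M : ℝ) ^ 3 + 0) := by ring
  -- second term
  have hT2 : ‖GM M a‖ ^ 2 * ‖GM M b‖ ^ 2 * ‖GM M t‖
      ≤ s ^ 2 * ((1 / η ^ 4 + 8) * (M : ℝ) ^ 3) := by
    have hM3 : (M : ℝ) ^ 2 ≤ (M : ℝ) ^ 3 := pow_le_pow_right₀ hM1 (by norm_num)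
    by_cases hc : ‖a - 1‖ < η
    · have h4 : 1 ≤ s := by
        have hta : t ^ 2 = w3 * a ^ 2 := by
          rw [ha]
          have := w3_cube
          calc t ^ 2 = w3 ^ 3 * t ^ 2 := by rw [this, one_mul]
            _ = w3 * (w3 * t) ^ 2 := by ring
        rw [hs, hta]
        exact far_mul2 w3_re w3_norm hc hna hη1
      have hb1 : 1 ≤ ‖b - 1‖ := by
        have hba : b = w3 * a := by
          rw [hb, ha, cw3_eq]; ring
        rw [hba]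
        exact far_mul w3_re w3_norm hc hη1
      have ht1 : 1 ≤ ‖t - 1‖ := by
        have hta : t = (starRingEnd ℂ) w3 * a := by
          rw [ha, ← mul_assoc, cw3_mul, one_mul]
        rw [hta]
        exact far_mul cw3_re cw3_norm hc hη1
      have hGb2 : ‖GM M b‖ ≤ 2 := by
        have := GM_le_div M one_pos hb1 (hLb.trans hL2)
        simpa using this
      have hGt2 : ‖GM M t‖ ≤ 2 := by
        have := GM_le_div M one_pos ht1 hL2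
        simpa using this
      have h5 : (1 : ℝ) ≤ s ^ 2 := by nlinarith
      have h6 : ‖GM M a‖ ^ 2 ≤ (M : ℝ) ^ 2 := pow_le_pow_left₀ (norm_nonneg _) hGa 2
      have h7 : ‖GM M b‖ ^ 2 ≤ (2 : ℝ) ^ 2 := pow_le_pow_left₀ (norm_nonneg _) hGb2 2
      have h8 : ‖GM M a‖ ^ 2 * ‖GM M b‖ ^ 2 * ‖GM M t‖ ≤ (M : ℝ) ^ 2 * 2 ^ 2 * 2 :=
        mul_le_mul (mul_le_mul h6 h7 (by positivity) (by positivity)) hGt2 (norm_nonneg _)
          (by positivity)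
      have h9 : (0 : ℝ) ≤ 1 / η ^ 4 * (M : ℝ) ^ 3 := by positivity
      have h10 : (0 : ℝ) ≤ (M : ℝ) ^ 3 := by positivity
      have h11 : 8 * (M : ℝ) ^ 3 ≤ (1 / η ^ 4 + 8) * (M : ℝ) ^ 3 := by nlinarith
      have h12 : (1 / η ^ 4 + 8) * (M : ℝ) ^ 3 ≤ s ^ 2 * ((1 / η ^ 4 + 8) * (M : ℝ) ^ 3) := by
        have : (0 : ℝ) ≤ (1 / η ^ 4 + 8) * (M : ℝ) ^ 3 := by positivity
        nlinarith
      linarith
    · by_cases hd : ‖b - 1‖ < η
      · have h4 : 1 ≤ s := by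
          have hta : t ^ 2 = (starRingEnd ℂ) w3 * b ^ 2 := by
            rw [hb]
            have := cw3_cube
            calc t ^ 2 = ((starRingEnd ℂ) w3) ^ 3 * t ^ 2 := by rw [this, one_mul]
              _ = (starRingEnd ℂ) w3 * ((starRingEnd ℂ) w3 * t) ^ 2 := by ring
          rw [hs, hta]
          exact far_mul2 cw3_re cw3_norm hd hnb hη1
        have ha1 : 1 ≤ ‖a - 1‖ := by
          have hab : a = (starRingEnd ℂ) w3 * b := by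
            rw [hb, ha, cw3_eq]
            have := w3_cube
            calc w3 * t = w3 ^ 3 * w3 * t := by rw [this, one_mul]
              _ = w3 ^ 2 * (w3 ^ 2 * t) := by ring
          rw [hab]
          exact far_mul cw3_re cw3_norm hd hη1
        have ht1 : 1 ≤ ‖t - 1‖ := by
          have hta : t = w3 * b := by
            rw [hb, ← mul_assoc, mul_comm w3, cw3_mul, one_mul]
          rw [hta]
          exact far_mul w3_re w3_norm hd hη1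
        have hGa2 : ‖GM M a‖ ≤ 2 := by
          have := GM_le_div M one_pos ha1 (hLa.trans hL2)
          simpa using this
        have hGt2 : ‖GM M t‖ ≤ 2 := by
          have := GM_le_div M one_pos ht1 hL2
          simpa using this
        have h5 : (1 : ℝ) ≤ s ^ 2 := by nlinarith
        have h6 : ‖GM M b‖ ^ 2 ≤ (M : ℝ) ^ 2 := pow_le_pow_left₀ (norm_nonneg _) hGb 2
        have h7 : ‖GM M a‖ ^ 2 ≤ (2 : ℝ) ^ 2 := pow_le_pow_left₀ (norm_nonneg _) hGa2 2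
        have h8 : ‖GM M a‖ ^ 2 * ‖GM M b‖ ^ 2 * ‖GM M t‖ ≤ (2 : ℝ) ^ 2 * (M : ℝ) ^ 2 * 2 :=
          mul_le_mul (mul_le_mul h7 h6 (by positivity) (by positivity)) hGt2 (norm_nonneg _)
            (by positivity)
        have h9 : (0 : ℝ) ≤ 1 / η ^ 4 * (M : ℝ) ^ 3 := by positivity
        have h11 : 8 * (M : ℝ) ^ 3 ≤ (1 / η ^ 4 + 8) * (M : ℝ) ^ 3 := by nlinarith
        have h12 : (1 / η ^ 4 + 8) * (M : ℝ) ^ 3 ≤ s ^ 2 * ((1 / η ^ 4 + 8) * (M : ℝ) ^ 3) := by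
          have : (0 : ℝ) ≤ (1 / η ^ 4 + 8) * (M : ℝ) ^ 3 := by positivity
          nlinarith
        linarith
      · have hca : η ≤ ‖a - 1‖ := not_lt.mp hc
        have hcb : η ≤ ‖b - 1‖ := not_lt.mp hd
        have h1 : ‖GM M a‖ ^ 2 ≤ (L / η) ^ 2 :=
          pow_le_pow_left₀ (norm_nonneg _) (GM_le_div M hη hca hLa) 2
        have h4 : ‖GM M b‖ ^ 2 ≤ (L / η) ^ 2 :=
          pow_le_pow_left₀ (norm_nonneg _) (GM_le_div M hη hcb hLb) 2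
        have h5 : (L / η) ^ 2 * (L / η) ^ 2 * M = L ^ 4 * (1 / η ^ 4) * M := by
          rw [div_pow]
          field_simp
        have h6 : (0 : ℝ) ≤ 1 / η ^ 4 := by positivity
        have h7 : (0 : ℝ) ≤ s ^ 2 * (8 * (M : ℝ) ^ 3) := by positivity
        calc ‖GM M a‖ ^ 2 * ‖GM M b‖ ^ 2 * ‖GM M t‖ ≤ (L / η) ^ 2 * (L / η) ^ 2 * M :=
              mul_le_mul (mul_le_mul h1 h4 (by positivity) (by positivity)) hGt (norm_nonneg _)
                (by positivity)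
          _ = L ^ 4 * (1 / η ^ 4) * M := h5
          _ ≤ ((M : ℝ) ^ 2 * s ^ 2) * (1 / η ^ 4) * M :=
              mul_le_mul_of_nonneg_right (mul_le_mul_of_nonneg_right hL4 h6) (by positivity)
          _ = s ^ 2 * (1 / η ^ 4 * (M : ℝ) ^ 3) := by ring
          _ ≤ s ^ 2 * (1 / η ^ 4 * (M : ℝ) ^ 3) + s ^ 2 * (8 * (M : ℝ) ^ 3) := by linarith
          _ = s ^ 2 * ((1 / η ^ 4 + 8) * (M : ℝ) ^ 3) := by ring
  calc ‖FM M t‖ ≤ M * ‖GM M a‖ ^ 4 + ‖GM M a‖ ^ 2 * ‖GM M b‖ ^ 2 * ‖GM M t‖ := hFM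
    _ ≤ s ^ 2 * ((1 / η ^ 4) * (M : ℝ) ^ 3 + (if ‖a - 1‖ < η then (M : ℝ) ^ 5 else 0))
        + s ^ 2 * ((1 / η ^ 4 + 8) * (M : ℝ) ^ 3) := add_le_add hT1 hT2
    _ = s ^ 2 * ((2 / η ^ 4 + 8) * (M : ℝ) ^ 3 + (if ‖a - 1‖ < η then (M : ℝ) ^ 5 else 0)) := by
        ring

end

end U3
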