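import Pool.Agent.U3.Stmts
import Pool.Agent.QJ.Ops
import Pool.Agent.QJ.Dom

/-!
FOUB: the four-jet integrals without equidistribution.
-/

open Complex MeasureTheory Filter Topology Set
open scoped ContDiff

namespace U3

open QE QJ

namespace FOUB

/-- the null sequences -/
def nul : Submodule ℂ (ℕ → ℂ) where
  carrier := {f | Tendsto f atTop (𝓝 0)}
  add_mem' := by
    intro f g hf hg
    have h1 := Tendsto.add hf hg
    rw [add_zero] at h1
    exact h1
  zero_mem' := by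
    exact tendsto_const_nhds
  smul_mem' := by
    intro c f hf
    have h1 := Tendsto.const_mul c hf
    rw [mul_zero] at h1
    exact h1

theorem mem_nul (f : ℕ → ℂ) : f ∈ nul ↔ Tendsto f atTop (𝓝 0) := Iff.rfl

theorem E4_ab (σ : ℂ → ℝ) (h : ℕ → ℝ) (φ : ℕ → ℂ → ℂ) (ζ : ℂ → ℂ) (a b c d : ℤ) (n : ℕ) :
    E4 σ h φ ζ b a c d n = E4 σ h φ ζ a b c d n := by
  unfold E4
  congr 1
  funext z
  ring

theorem E4_bc (σ : ℂ → ℝ) (h : ℕ → ℝ) (φ : ℕ → ℂ → ℂ) (ζ : ℂ → ℂ) (a b c d : ℤ) (n : ℕ) :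
    E4 σ h φ ζ a c b d n = E4 σ h φ ζ a b c d n := by
  unfold E4
  congr 1
  funext z
  ring

theorem E4_cd (σ : ℂ → ℝ) (h : ℕ → ℝ) (φ : ℕ → ℂ → ℂ) (ζ : ℂ → ℂ) (a b c d : ℤ) (n : ℕ) :
    E4 σ h φ ζ a b d c n = E4 σ h φ ζ a b c d n := by
  unfold E4
  congr 1
  funext z
  ring

/-- the sign `(-1)^k` -/
theorem sg_add (j k : ℤ) : (-1 : ℂ) ^ (j + k) = (-1) ^ j * (-1) ^ k :=
  zpow_add₀ (by norm_num) j k

theorem sg_add_one (j : ℤ) : (-1 : ℂ) ^ (j + 1) = - (-1) ^ j := by
  rw [sg_add, zpow_one]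
  ring

theorem sg_sub_one (j : ℤ) : (-1 : ℂ) ^ (j - 1) = - (-1) ^ j := by
  have h := sg_add_one (j - 1)
  rw [sub_add_cancel] at h
  rw [h, neg_neg]

/-- signs of integers with even difference agree -/
theorem sg_even (j k : ℤ) (h : Even (j + k)) : (-1 : ℂ) ^ j = (-1) ^ k := by
  rcases Int.even_or_odd j with hj | hj
  · have hk : Even k := by
      have := Int.even_add.1 h
      exact this.1 hj
    rw [hj.neg_one_zpow, hk.neg_one_zpow]
  · have hk : Odd k := by
      have h1 := Int.even_add.1 h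
      rcases Int.even_or_odd k with he | ho
      · exact absurd (h1.2 he) (Int.not_even_iff_odd.2 hj)
      · exact ho
    rw [hj.neg_one_zpow, hk.neg_one_zpow]

theorem wkp_ab (P : ℤ → ℂ → ℂ) (a b c d : ℤ) (z : ℂ) (h : Odd (a + b) → P (a + b) z = 0) :
    wkp P b a c d z = wkp P a b c d z := by
  unfold wkp
  rw [add_comm b a]
  rcases Int.even_or_odd (a + b) with he | ho
  · have h1 : (-1 : ℂ) ^ (a + d) = (-1) ^ (b + d) := by
      rw [sg_add, sg_add, sg_even a b he]
    rw [h1]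
    ring
  · rw [h ho]
    ring

theorem wkp_bc (P : ℤ → ℂ → ℂ) (a b c d : ℤ) (z : ℂ) (h : Odd (b + c) → P (b + c) z = 0) :
    wkp P a c b d z = wkp P a b c d z := by
  unfold wkp
  rw [add_comm c b]
  rcases Int.even_or_odd (b + c) with he | ho
  · have h1 : (-1 : ℂ) ^ (b + d) = (-1) ^ (c + d) := by
      rw [sg_add, sg_add, sg_even b c he]
    rw [h1]
    ring
  · rw [h ho]
    ring

theorem wkp_cd (P : ℤ → ℂ → ℂ) (a b c d : ℤ) (z : ℂ) (h : Odd (c + d) → P (c + d) z = 0) :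
    wkp P a b d c z = wkp P a b c d z := by
  unfold wkp
  rw [add_comm d c]
  rcases Int.even_or_odd (c + d) with he | ho
  · have h1 : (-1 : ℂ) ^ (b + c) = (-1) ^ (b + d) := by
      rw [sg_add, sg_add, sg_even c d he]
    rw [h1]
    ring
  · rw [h ho]
    ring

theorem wkp_second (P : ℤ → ℂ → ℂ) (a b c d : ℤ) (z : ℂ) :
    wkp P (a + 1) (b + 1) (c - 1) (d - 1) z + wkp P (a - 1) (b - 1) (c + 1) (d + 1) z
        - 2 * wkp P a b c d z
      = ((-1) ^ (b + 1) * P (a + b + 2) z) * ((-1) ^ (d - 1) * P (c + d - 2) z)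
        + ((-1) ^ (b - 1) * P (a + b - 2) z) * ((-1) ^ (d + 1) * P (c + d + 2) z)
        - 2 * (((-1) ^ b * P (a + b) z) * ((-1) ^ d * P (c + d) z)) := by
  unfold wkp
  have e1 : (a + 1) + (b + 1) = a + b + 2 := by ring
  have e2 : (c - 1) + (d - 1) = c + d - 2 := by ring
  have e3 : (a - 1) + (b - 1) = a + b - 2 := by ring
  have e4 : (c + 1) + (d + 1) = c + d + 2 := by ring
  have e5 : (a + 1) + (c - 1) = a + c := by ring
  have e6 : (b + 1) + (d - 1) = b + d := by ring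
  have e7 : (a + 1) + (d - 1) = a + d := by ring
  have e8 : (b + 1) + (c - 1) = b + c := by ring
  have e9 : (a - 1) + (c + 1) = a + c := by ring
  have e10 : (b - 1) + (d + 1) = b + d := by ring
  have e11 : (a - 1) + (d + 1) = a + d := by ring
  have e12 : (b - 1) + (c + 1) = b + c := by ring
  have s1 : (-1 : ℂ) ^ (c + d - 2) = (-1) ^ (c + d) := by
    have h : c + d - 2 = (c + d - 1) - 1 := by ring
    rw [h, sg_sub_one, sg_sub_one, neg_neg]
  have s2 : (-1 : ℂ) ^ (c + d + 2) = (-1) ^ (c + d) := by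
    have h : c + d + 2 = (c + d + 1) + 1 := by ring
    rw [h, sg_add_one, sg_add_one, neg_neg]
  rw [e1, e2, e3, e4, e5, e6, e7, e8, e9, e10, e11, e12, s1, s2, sg_add_one b, sg_sub_one b,
    sg_add_one d, sg_sub_one d, sg_add b d]
  ring

theorem wkp_first (P : ℤ → ℂ → ℂ) (a b c d : ℤ) (z : ℂ) :
    wkp P (a + 1) b c d z + wkp P a (b + 1) c d z + wkp P a b (c + 1) d z
      + wkp P a b c (d + 1) z = 0 := by
  unfold wkp
  have e1 : (a + 1) + b = a + b + 1 := by ring
  have e2 : a + (b + 1) = a + b + 1 := by ring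
  have e3 : (c + 1) + d = c + d + 1 := by ring
  have e4 : c + (d + 1) = c + d + 1 := by ring
  have e5 : (a + 1) + c = a + c + 1 := by ring
  have e6 : a + (c + 1) = a + c + 1 := by ring
  have e7 : (b + 1) + d = b + d + 1 := by ring
  have e8 : b + (d + 1) = b + d + 1 := by ring
  have e9 : (a + 1) + d = a + d + 1 := by ring
  have e10 : a + (d + 1) = a + d + 1 := by ring
  have e11 : (b + 1) + c = b + c + 1 := by ring
  have e12 : b + (c + 1) = b + c + 1 := by ring
  rw [e1, e2, e3, e4, e5, e6, e7, e8, e9, e10, e11, e12, sg_add_one (b + d), sg_add_one (c + d)]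
  ring

theorem int2 {f g : ℂ → ℂ} (hf : Integrable f) (hg : Integrable g) :
    ∫ z, (f z + g z) = (∫ z, f z) + ∫ z, g z := integral_add hf hg

theorem int2s {f g : ℂ → ℂ} (hf : Integrable f) (hg : Integrable g) :
    ∫ z, (f z - g z) = (∫ z, f z) - ∫ z, g z := integral_sub hf hg

theorem cont_wkp {P : ℤ → ℂ → ℂ} (hP : ∀ k, Continuous (P k)) (a b c d : ℤ) :
    Continuous (wkp P a b c d) := by
  unfold wkp
  have h : ∀ j k : ℤ, Continuous fun z => P j z * P k z := fun j k => (hP j).mul (hP k)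
  exact ((continuous_const.mul (h _ _)).add (continuous_const.mul (h _ _))).add
    (continuous_const.mul (h _ _))

theorem int4 {f₁ f₂ f₃ f₄ : ℂ → ℂ} (h₁ : Integrable f₁) (h₂ : Integrable f₂) (h₃ : Integrable f₃)
    (h₄ : Integrable f₄) :
    (∫ z, f₁ z) + (∫ z, f₂ z) + (∫ z, f₃ z) + (∫ z, f₄ z)
      = ∫ z, (f₁ z + f₂ z + f₃ z + f₄ z) := by
  have k1 := integral_add h₁ h₂
  have k2 := integral_add (h₁.add h₂) h₃
  have k3 := integral_add ((h₁.add h₂).add h₃) h₄
  simp only [Pi.add_apply] at k1 k2 k3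
  rw [k3, k2, k1]

theorem int3 {f₁ f₂ f₃ : ℂ → ℂ} (h₁ : Integrable f₁) (h₂ : Integrable f₂) (h₃ : Integrable f₃) :
    (∫ z, f₁ z) + (∫ z, f₂ z) - 2 * (∫ z, f₃ z) = ∫ z, (f₁ z + f₂ z - 2 * f₃ z) := by
  have k1 := integral_add h₁ h₂
  have k2 := integral_sub (h₁.add h₂) (h₃.const_mul 2)
  have k3 := integral_const_mul (μ := volume) (2 : ℂ) f₃
  simp only [Pi.add_apply] at k1 k2
  rw [k2, k1, k3]

theorem tmul {V : Set ℂ} {ζ : ℂ → ℂ} (hζ : Test V ζ) {f g : ℂ → ℂ} (hf : Continuous f)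
    (hg : Continuous g) : Integrable fun z => ζ z * (f z * g z) :=
  test_int hζ (hf.mul hg)

/-- the bilinear form of the triples -/
theorem split {V : Set ℂ} {ζ : ℂ → ℂ} (hζ : Test V ζ) {QA QB QC QA' QB' QC' PA PB PC PA' PB' PC' :
    ℂ → ℂ} (h1 : Continuous QA) (h2 : Continuous QB) (h3 : Continuous QC) (h4 : Continuous QA')
    (h5 : Continuous QB') (h6 : Continuous QC') (k1 : Continuous PA) (k2 : Continuous PB)
    (k3 : Continuous PC) (k4 : Continuous PA') (k5 : Continuous PB') (k6 : Continuous PC') :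
    (∫ z, ζ z * ((QA z - PA z) * QC' z + (QC z - PC z) * QA' z - 2 * ((QB z - PB z) * QB' z)))
      + (∫ z, ζ z * (PA z * (QC' z - PC' z) + PC z * (QA' z - PA' z)
        - 2 * (PB z * (QB' z - PB' z))))
      = ((∫ z, ζ z * (QA z * QC' z)) + (∫ z, ζ z * (QC z * QA' z))
          - 2 * (∫ z, ζ z * (QB z * QB' z)))
        - ((∫ z, ζ z * (PA z * PC' z)) + (∫ z, ζ z * (PC z * PA' z))
          - 2 * (∫ z, ζ z * (PB z * PB' z))) := by
  have i1 := tmul hζ h1 h6
  have i2 := tmul hζ h3 h4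
  have i3 := tmul hζ h2 h5
  have j1 := tmul hζ k1 k6
  have j2 := tmul hζ k3 k4
  have j3 := tmul hζ k2 k5
  have m1 : Integrable fun z => ζ z * ((QA z - PA z) * QC' z + (QC z - PC z) * QA' z
      - 2 * ((QB z - PB z) * QB' z)) :=
    test_int hζ ((((h1.sub k1).mul h6).add ((h3.sub k3).mul h4)).sub
      (continuous_const.mul ((h2.sub k2).mul h5)))
  have m2 : Integrable fun z => ζ z * (PA z * (QC' z - PC' z) + PC z * (QA' z - PA' z)
        - 2 * (PB z * (QB' z - PB' z))) :=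
    test_int hζ (((k1.mul (h6.sub k6)).add (k3.mul (h4.sub k4))).sub
      (continuous_const.mul (k2.mul (h5.sub k5))))
  have m3 : Integrable fun z => ζ z * (QA z * QC' z) + ζ z * (QC z * QA' z)
      - 2 * (ζ z * (QB z * QB' z)) := (i1.add i2).sub (i3.const_mul 2)
  have m4 : Integrable fun z => ζ z * (PA z * PC' z) + ζ z * (PC z * PA' z)
      - 2 * (ζ z * (PB z * PB' z)) := (j1.add j2).sub (j3.const_mul 2)
  rw [int3 i1 i2 i3, int3 j1 j2 j3, ← int2 m1 m2, ← int2s m3 m4]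
  refine integral_congr_ae (Eventually.of_forall fun z => ?_)
  ring

theorem castB {V : Set ℂ} {σ : ℂ → ℝ} {N N' : ℤ} {A B C : ℕ → ℂ → ℂ} (h : N = N')
    (t : TripB V σ N A B C) : TripB V σ N' A B C := by
  subst h
  exact t

theorem castZ {V : Set ℂ} {σ : ℂ → ℝ} {N N' : ℤ} {A B C : ℕ → ℂ → ℂ} (h : N = N')
    (t : TripZ V σ N A B C) : TripZ V σ N' A B C := by
  subst h
  exact t

end FOUB

open FOUB in
/-- FOUB: the four-jet integrals -/
theorem stmtFouB (hIfoB : StmtIfoB) (hNf : StmtNf) (hTriQ : StmtTriQ) (hTriP : StmtTriP)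
    (hTriD : StmtTriD) (hDir : StmtDir) (hPeO : StmtPeO) (hAlf : QJ.StmtAlf) : StmtFouB := by
  intro β V σ h φ Ω _ μ p u ε hβ hL hM hε hε0 ζ hζ a b c d habcd
  have hD := hDir V σ h φ Ω μ p u hL hM
  have hεr : Tendsto ε atTop (𝓝[>] (0 : ℝ)) :=
    tendsto_nhdsWithin_iff.2 ⟨hε0, Eventually.of_forall hε⟩
  -- smoothness of the mollified moments
  have hPc : ∀ n k, Continuous (pe β σ (ε n) μ p u k) := by
    intro n k
    have h1 := (hTriP β V σ Ω μ p u ε k 0 hβ hL.op hL.sm hD hε hε0).sB n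
    have h2 : (fun z => (-1 : ℂ) ^ (0 : ℤ) * pe β σ (ε n) μ p u (k + 0) z)
        = pe β σ (ε n) μ p u k := by
      funext z
      rw [zpow_zero, one_mul, add_zero]
    rw [h2] at h1
    exact h1.continuous
  have hodd : ∀ k : ℤ, ∀ᶠ n in atTop, ∀ z ∈ tsupport ζ, Odd k → pe β σ (ε n) μ p u k z = 0 := by
    intro k
    by_cases hk : Odd k
    · have h1 := hεr.eventually (hPeO β V σ Ω μ p u k hβ hL.op hL.sm hD hk (tsupport ζ) hζ.supp hζ.sub)
      filter_upwards [h1] with n hn z hz _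
      exact hn z hz
    · exact Eventually.of_forall fun n z _ hk' => absurd hk' hk
  let g : ℤ → ℤ → ℤ → ℤ → ℕ → ℂ := fun a b c d n => E4 σ h φ ζ a b c d n
    - ∫ z, ζ z * wkp (pe β σ (ε n) μ p u) a b c d z
  let e : ℤ → ℤ → ℤ → ℤ → (ℕ → ℂ) ⧸ nul := fun a b c d => Submodule.Quotient.mk (g a b c d)
  -- integrals of functions which agree on the support
  have hcongr : ∀ f₁ f₂ : ℕ → ℂ → ℂ, (∀ᶠ n in atTop, ∀ z ∈ tsupport ζ, f₁ n z = f₂ n z) →
      ∀ᶠ n in atTop, ∫ z, ζ z * f₁ n z = ∫ z, ζ z * f₂ n z := by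
    intro f₁ f₂ hf
    filter_upwards [hf] with n hn
    refine integral_congr_ae (Eventually.of_forall fun z => ?_)
    by_cases hz : z ∈ tsupport ζ
    · simp only [hn z hz]
    · simp only [image_eq_zero_of_notMem_tsupport hz, zero_mul]
  have key := hAlf ((ℕ → ℂ) ⧸ nul) e ?_ ?_ ?_ ?_ ?_ a b c d habcd
  · have h1 : e a b c d = Submodule.Quotient.mk (cl4 a b c d • g 0 0 0 0) := by
      rw [key]; rfl
    have h2 : g a b c d - cl4 a b c d • g 0 0 0 0 ∈ nul := (Submodule.Quotient.eq nul).1 h1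
    rw [mem_nul] at h2
    refine h2.congr (fun n => ?_)
    simp only [g, Pi.sub_apply, Pi.smul_apply, smul_eq_mul]
    ring
  · intro a b c d
    refine (Submodule.Quotient.eq nul).2 ?_
    rw [mem_nul]
    refine (tendsto_congr' ?_).2 tendsto_const_nhds
    filter_upwards [hcongr (fun n => wkp (pe β σ (ε n) μ p u) b a c d)
      (fun n => wkp (pe β σ (ε n) μ p u) a b c d) (by
        filter_upwards [hodd (a + b)] with n hn z hz
        exact wkp_ab _ a b c d z (hn z hz))] with n hn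
    simp only [g, Pi.sub_apply, E4_ab σ h φ ζ a b c d, hn, sub_self]
  · intro a b c d
    refine (Submodule.Quotient.eq nul).2 ?_
    rw [mem_nul]
    refine (tendsto_congr' ?_).2 tendsto_const_nhds
    filter_upwards [hcongr (fun n => wkp (pe β σ (ε n) μ p u) a c b d)
      (fun n => wkp (pe β σ (ε n) μ p u) a b c d) (by
        filter_upwards [hodd (b + c)] with n hn z hz
        exact wkp_bc _ a b c d z (hn z hz))] with n hn
    simp only [g, Pi.sub_apply, E4_bc σ h φ ζ a b c d, hn, sub_self]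
  · intro a b c d
    refine (Submodule.Quotient.eq nul).2 ?_
    rw [mem_nul]
    refine (tendsto_congr' ?_).2 tendsto_const_nhds
    filter_upwards [hcongr (fun n => wkp (pe β σ (ε n) μ p u) a b d c)
      (fun n => wkp (pe β σ (ε n) μ p u) a b c d) (by
        filter_upwards [hodd (c + d)] with n hn z hz
        exact wkp_cd _ a b c d z (hn z hz))] with n hn
    simp only [g, Pi.sub_apply, E4_cd σ h φ ζ a b c d, hn, sub_self]
  · intro a b c d hs
    have h1 : e (a + 1) (b + 1) (c - 1) (d - 1) + e (a - 1) (b - 1) (c + 1) (d + 1)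
        = Submodule.Quotient.mk (g (a + 1) (b + 1) (c - 1) (d - 1)
          + g (a - 1) (b - 1) (c + 1) (d + 1)) := rfl
    have h2 : (2 : ℂ) • e a b c d = Submodule.Quotient.mk ((2 : ℂ) • g a b c d) := rfl
    rw [h1, h2]
    refine (Submodule.Quotient.eq nul).2 ?_
    rw [mem_nul]
    have hcd : c + d = -(a + b) := by omega
    have TQ := hTriQ V σ h φ hL a b
    have TQ' := hTriQ V σ h φ hL c d
    have TP := hTriP β V σ Ω μ p u ε a b hβ hL.op hL.sm hD hε hε0
    have TP' := hTriP β V σ Ω μ p u ε c d hβ hL.op hL.sm hD hε hε0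
    have TD := hTriD β V σ h φ Ω μ p u ε a b hβ hL hM hε hε0
    have TD' := hTriD β V σ h φ Ω μ p u ε c d hβ hL hM hε hε0
    have n1 := (hNf V σ (a + b) _ _ _ _ _ _ hL.op hL.sm TD.toTripB (castB hcd TQ') ζ hζ).1
      (Or.inl TD)
    have n2 := (hNf V σ (a + b) _ _ _ _ _ _ hL.op hL.sm TP (castZ hcd TD').toTripB ζ hζ).1
      (Or.inr (castZ hcd TD'))
    have n3 := n1.add n2
    rw [add_zero] at n3
    refine n3.congr (fun n => ?_)
    rw [split hζ (TQ.sA n).continuous (TQ.sB n).continuous (TQ.sC n).continuous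
      (TQ'.sA n).continuous (TQ'.sB n).continuous (TQ'.sC n).continuous
      (TP.sA n).continuous (TP.sB n).continuous (TP.sC n).continuous
      (TP'.sA n).continuous (TP'.sB n).continuous (TP'.sC n).continuous]
    have f1 : E4 σ h φ ζ (a + 1) (b + 1) (c - 1) (d - 1) n
        = ∫ z, ζ z * (E σ h φ (a + 1) n z * E σ h φ (b + 1) n z
          * (E σ h φ (c - 1) n z * E σ h φ (d - 1) n z)) :=
      integral_congr_ae (Eventually.of_forall fun z => by ring)
    have f2 : E4 σ h φ ζ (a - 1) (b - 1) (c + 1) (d + 1) n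
        = ∫ z, ζ z * (E σ h φ (a - 1) n z * E σ h φ (b - 1) n z
          * (E σ h φ (c + 1) n z * E σ h φ (d + 1) n z)) :=
      integral_congr_ae (Eventually.of_forall fun z => by ring)
    have f3 : E4 σ h φ ζ a b c d n
        = ∫ z, ζ z * (E σ h φ a n z * E σ h φ b n z
          * (E σ h φ c n z * E σ h φ d n z)) :=
      integral_congr_ae (Eventually.of_forall fun z => by ring)
    have i1 : ∀ a b c d : ℤ, Integrable fun z => ζ z * wkp (pe β σ (ε n) μ p u) a b c d z :=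
      fun a b c d => test_int hζ (cont_wkp (hPc n) a b c d)
    have f4 : (∫ z, ζ z * (((-1) ^ (b + 1) * pe β σ (ε n) μ p u (a + b + 2) z)
            * ((-1) ^ (d - 1) * pe β σ (ε n) μ p u (c + d - 2) z)))
        + (∫ z, ζ z * (((-1) ^ (b - 1) * pe β σ (ε n) μ p u (a + b - 2) z)
            * ((-1) ^ (d + 1) * pe β σ (ε n) μ p u (c + d + 2) z)))
        - 2 * (∫ z, ζ z * (((-1) ^ b * pe β σ (ε n) μ p u (a + b) z)
            * ((-1) ^ d * pe β σ (ε n) μ p u (c + d) z)))
        = (∫ z, ζ z * wkp (pe β σ (ε n) μ p u) (a + 1) (b + 1) (c - 1) (d - 1) z)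
          + (∫ z, ζ z * wkp (pe β σ (ε n) μ p u) (a - 1) (b - 1) (c + 1) (d + 1) z)
          - 2 * (∫ z, ζ z * wkp (pe β σ (ε n) μ p u) a b c d z) := by
      rw [int3 (i1 _ _ _ _) (i1 _ _ _ _) (i1 _ _ _ _),
        int3 (tmul hζ (TP.sA n).continuous (TP'.sC n).continuous)
          (tmul hζ (TP.sC n).continuous (TP'.sA n).continuous)
          (tmul hζ (TP.sB n).continuous (TP'.sB n).continuous)]
      refine integral_congr_ae (Eventually.of_forall fun z => ?_)
      have h6 := wkp_second (pe β σ (ε n) μ p u) a b c d z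
      simp only
      linear_combination (- ζ z) * h6
    rw [f4, ← f1, ← f2, ← f3]
    simp only [g, Pi.add_apply, Pi.sub_apply, Pi.smul_apply, smul_eq_mul]
    ring
  · intro a b c d hs
    have h1 : e (a + 1) b c d + e a (b + 1) c d + e a b (c + 1) d + e a b c (d + 1)
        = Submodule.Quotient.mk (g (a + 1) b c d + g a (b + 1) c d + g a b (c + 1) d
          + g a b c (d + 1)) := rfl
    rw [h1]
    refine (Submodule.Quotient.mk_eq_zero nul).2 ?_
    rw [mem_nul]
    refine ((hIfoB V σ h φ hL ζ hζ).1 a b c d).congr (fun n => ?_)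
    simp only [g, Pi.add_apply]
    have i1 : ∀ a b c d : ℤ, Integrable fun z => ζ z * wkp (pe β σ (ε n) μ p u) a b c d z :=
      fun a b c d => test_int hζ (cont_wkp (hPc n) a b c d)
    have h5 : (∫ z, ζ z * wkp (pe β σ (ε n) μ p u) (a + 1) b c d z)
        + (∫ z, ζ z * wkp (pe β σ (ε n) μ p u) a (b + 1) c d z)
        + (∫ z, ζ z * wkp (pe β σ (ε n) μ p u) a b (c + 1) d z)
        + (∫ z, ζ z * wkp (pe β σ (ε n) μ p u) a b c (d + 1) z) = 0 := by
      rw [int4 (i1 _ _ _ _) (i1 _ _ _ _) (i1 _ _ _ _) (i1 _ _ _ _)]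
      rw [← integral_zero ℂ ℂ (μ := volume)]
      refine integral_congr_ae (Eventually.of_forall fun z => ?_)
      have h6 := wkp_first (pe β σ (ε n) μ p u) a b c d z
      simp only
      linear_combination ζ z * h6
    linear_combination h5

end U3
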