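import Pool.Agent.U3.Stmts
import Pool.Agent.QJ.GRO

/-!
Growth of the jets of arbitrary sequences of eigenfunctions, from the Morawetz estimate and the
pointwise bound.
-/

open Complex MeasureTheory Filter Topology Set Metric
open scoped ContDiff Manifold

namespace U3

open QE QJ QJ.GRO

noncomputable section

namespace GROA

theorem ru_eq {V : Set ℂ} {σ : ℂ → ℝ} {h : ℕ → ℝ} {φ : ℕ → ℂ → ℂ} (hL : LocB V σ h φ) (n : ℕ) :
    φ n = fun z => ((ru φ n z : ℝ) : ℂ) := by
  funext z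
  exact (Complex.conj_eq_iff_re.mp (hL.real n z)).symm

theorem norm_sq_eq {V : Set ℂ} {σ : ℂ → ℝ} {h : ℕ → ℝ} {φ : ℕ → ℂ → ℂ} (hL : LocB V σ h φ) (n : ℕ)
    (z : ℂ) : ‖φ n z‖ ^ 2 = ru φ n z ^ 2 := by
  have h1 : φ n z = ((ru φ n z : ℝ) : ℂ) := congrFun (ru_eq hL n) z
  rw [h1, Complex.norm_real, Real.norm_eq_abs, sq_abs]

theorem contDiff_ru {V : Set ℂ} {σ : ℂ → ℝ} {h : ℕ → ℝ} {φ : ℕ → ℂ → ℂ} (hL : LocB V σ h φ) (n : ℕ) :
    ContDiff ℝ ∞ (ru φ n) := reCLM.contDiff.comp (hL.smφ n)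

theorem ru_eig {V : Set ℂ} {σ : ℂ → ℝ} {h : ℕ → ℝ} {φ : ℕ → ℂ → ℂ} (hL : LocB V σ h φ) (n : ℕ) {z : ℂ}
    (hz : z ∈ V) : h n ^ 2 * lap (ru φ n) z = - (Real.exp (2 * σ z) * ru φ n z) := by
  have h1 := hL.eig n z hz
  rw [← lap_eq (contDiff_ru hL n), ← ru_eq hL n]
  have h2 := congrArg Complex.re h1
  have h3 : (4 * (h n : ℂ) ^ 2 * dz (dzb (φ n)) z).re = 4 * h n ^ 2 * (dz (dzb (φ n)) z).re := by
    have : (4 * (h n : ℂ) ^ 2 : ℂ) = ((4 * h n ^ 2 : ℝ) : ℂ) := by push_cast; ring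
    rw [this, Complex.re_ofReal_mul]
  have h4 : (-ex σ 2 z * φ n z).re = - (Real.exp (2 * σ z) * ru φ n z) := by
    have : -ex σ 2 z = ((-Real.exp (2 * σ z) : ℝ) : ℂ) := by
      unfold ex
      push_cast
      rfl
    rw [this, Complex.re_ofReal_mul]
    unfold ru
    ring
  rw [h3] at h2
  rw [h4] at h2
  rw [← h2]
  ring

/-- a bound of the mass on compact sets -/
theorem mass_bound {V : Set ℂ} {σ : ℂ → ℝ} {h : ℕ → ℝ} {φ : ℕ → ℂ → ℂ} (hL : LocB V σ h φ)
    {K : Set ℂ} (hK : IsCompact K) (hKV : K ⊆ V) :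
    ∃ M : ℝ, 0 ≤ M ∧ ∀ᶠ n in atTop, ∫ w in K, ‖φ n w‖ ^ 2 ≤ M := by
  obtain ⟨C, hC⟩ := hL.bdd K hK hKV
  refine ⟨max C 0, le_max_right _ _, ?_⟩
  filter_upwards [hC] with n hn
  exact hn.trans (le_max_left _ _)

theorem mor_apply (hMor : StmtMor) {V : Set ℂ} {σ : ℂ → ℝ} {h : ℕ → ℝ} {φ : ℕ → ℂ → ℂ}
    (hL : LocB V σ h φ) {K1 : Set ℂ} (hK1 : IsCompact K1) (hK1V : K1 ⊆ V) :
    ∃ C : ℝ, 0 < C ∧ ∀ (n : ℕ) (z : ℂ) (r r0 : ℝ), h n ≤ r → r ≤ r0 → r0 ≤ 1 →
      closedBall z (3 * r0) ⊆ K1 →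
      ∫ w in closedBall z r, ‖φ n w‖ ^ 2 ≤
        C * (r / r0) * ∫ w in closedBall z (3 * r0), ‖φ n w‖ ^ 2 := by
  have hg : ContDiff ℝ ∞ (fun z => Real.exp (2 * σ z)) := (contDiff_const.mul hL.sm).exp
  obtain ⟨B0, hB0⟩ := hK1.exists_bound_of_continuousOn hL.sm.continuous.continuousOn
  obtain ⟨B1, hB1⟩ := hK1.exists_bound_of_continuousOn (contDiff_d1 hg).continuous.continuousOn
  obtain ⟨B2, hB2⟩ := hK1.exists_bound_of_continuousOn (contDiff_d2 hg).continuous.continuousOn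
  obtain ⟨C, hC, h1⟩ := hMor (Real.exp (-(2 * B0))) (max (Real.exp (2 * B0)) (max B1 B2))
    (Real.exp_pos _)
  refine ⟨C, hC, ?_⟩
  intro n z r r0 hr hr0 hr1 hsub
  have h2 := h1 (ru φ n) (fun z => Real.exp (2 * σ z)) z (h n) r r0 (contDiff_ru hL n) hg
    (hL.hpos n) hr hr0 hr1 ?_ ?_
  · simp only [norm_sq_eq hL]
    exact h2
  · intro w hw
    have hw1 := hsub hw
    have e0 := hB0 w hw1
    rw [Real.norm_eq_abs, abs_le] at e0
    have e1 := hB1 w hw1
    have e2 := hB2 w hw1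
    refine ⟨?_, ?_, ?_, ?_⟩
    · exact Real.exp_le_exp.mpr (by linarith)
    · exact (Real.exp_le_exp.mpr (by linarith)).trans (le_max_left _ _)
    · exact e1.trans ((le_max_left _ _).trans (le_max_right _ _))
    · exact e2.trans ((le_max_right _ _).trans (le_max_right _ _))
  · intro w hw
    exact ru_eig hL n (hK1V (hsub hw))

theorem cont_sq {V : Set ℂ} {σ : ℂ → ℝ} {h : ℕ → ℝ} {φ : ℕ → ℂ → ℂ} (hL : LocB V σ h φ) (n : ℕ) :
    Continuous fun z => ‖φ n z‖ ^ 2 := ((hL.smφ n).continuous.norm).pow 2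

theorem sq_mono {V : Set ℂ} {σ : ℂ → ℝ} {h : ℕ → ℝ} {φ : ℕ → ℂ → ℂ} (hL : LocB V σ h φ) (n : ℕ)
    {S T : Set ℂ} (hT : IsCompact T) (hST : S ⊆ T) :
    ∫ w in S, ‖φ n w‖ ^ 2 ≤ ∫ w in T, ‖φ n w‖ ^ 2 := by
  apply setIntegral_mono_set
  · exact (cont_sq hL n).continuousOn.integrableOn_compact hT
  · exact Filter.Eventually.of_forall fun z => by positivity
  · exact LE.le.eventuallyLE hST

/-- the constants for a compact set -/
theorem setup (hMor : StmtMor) (hPtw : StmtPtwB) {V : Set ℂ} {σ : ℂ → ℝ} {h : ℕ → ℝ}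
    {φ : ℕ → ℂ → ℂ} (hL : LocB V σ h φ) {K : Set ℂ} (hK : IsCompact K) (hKV : K ⊆ V) (N : ℕ) :
    ∃ δ c C1 C2 : ℝ, 0 < δ ∧ δ ≤ 1 ∧ 1 ≤ c ∧ 0 ≤ C1 ∧ 0 < C2 ∧
      IsCompact (cthickening (3 * δ) K) ∧ cthickening (3 * δ) K ⊆ V ∧
      (∀ᶠ n in atTop, ∀ z ∈ K, RR h φ N n z ≤
        C1 * (1 + 1 / h n ^ 2 * ∫ w in closedBall z (c * h n), ‖φ n w‖ ^ 2)) ∧
      (∀ n, ∀ z ∈ K, ∀ r r0 : ℝ, h n ≤ r → r ≤ r0 → r0 ≤ δ →
        ∫ w in closedBall z r, ‖φ n w‖ ^ 2 ≤
          C2 * (r / r0) * ∫ w in closedBall z (3 * r0), ‖φ n w‖ ^ 2) := by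
  obtain ⟨δ0, hδ0, hδV⟩ := hK.exists_cthickening_subset_open hL.op hKV
  have hδ1 : 3 * min 1 (δ0 / 3) ≤ δ0 := by
    have := min_le_right 1 (δ0 / 3)
    linarith
  have hδ2 : cthickening (3 * min 1 (δ0 / 3)) K ⊆ V := (cthickening_mono hδ1 K).trans hδV
  obtain ⟨c, C, hc, hptw⟩ := hPtw V σ h φ hL K hK hKV N
  obtain ⟨C2, hC2, hmor⟩ := mor_apply hMor hL hK.cthickening hδ2
  refine ⟨min 1 (δ0 / 3), max c 1, max C 0, C2, lt_min one_pos (by linarith), min_le_left _ _,
    le_max_right _ _, le_max_right _ _, hC2, hK.cthickening, hδ2, ?_, ?_⟩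
  · filter_upwards [hptw] with n hn z hz
    have h1 := hn z hz
    have hpos := hL.hpos n
    have h2 : ∫ w in closedBall z (c * h n), ‖φ n w‖ ^ 2 ≤
        ∫ w in closedBall z (max c 1 * h n), ‖φ n w‖ ^ 2 := by
      apply sq_mono hL n (isCompact_closedBall _ _)
      apply closedBall_subset_closedBall
      exact mul_le_mul_of_nonneg_right (le_max_left _ _) hpos.le
    have h3 : 0 ≤ ∫ w in closedBall z (c * h n), ‖φ n w‖ ^ 2 :=
      integral_nonneg fun w => by positivity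
    have h4 : (0 : ℝ) ≤ 1 / h n ^ 2 := by positivity
    have h5 : 1 + 1 / h n ^ 2 * ∫ w in closedBall z (c * h n), ‖φ n w‖ ^ 2 ≤
        1 + 1 / h n ^ 2 * ∫ w in closedBall z (max c 1 * h n), ‖φ n w‖ ^ 2 := by
      have := mul_le_mul_of_nonneg_left h2 h4
      linarith
    have h6 : 0 ≤ 1 + 1 / h n ^ 2 * ∫ w in closedBall z (c * h n), ‖φ n w‖ ^ 2 := by positivity
    calc RR h φ N n z ≤ C * (1 + 1 / h n ^ 2 * ∫ w in closedBall z (c * h n), ‖φ n w‖ ^ 2) := h1
      _ ≤ max C 0 * (1 + 1 / h n ^ 2 * ∫ w in closedBall z (c * h n), ‖φ n w‖ ^ 2) :=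
          mul_le_mul_of_nonneg_right (le_max_left _ _) h6
      _ ≤ _ := mul_le_mul_of_nonneg_left h5 (le_max_right _ _)
  · intro n z hz r r0 hr hr0 hr1
    apply hmor n z r r0 hr hr0 (hr1.trans (min_le_left _ _))
    apply (closedBall_subset_cthickening hz (3 * r0)).trans
    apply cthickening_mono
    linarith

theorem growth (hMor : StmtMor) (hPtw : StmtPtwB) {V : Set ℂ} {σ : ℂ → ℝ} {h : ℕ → ℝ}
    {φ : ℕ → ℂ → ℂ} (hL : LocB V σ h φ) {K : Set ℂ} (hK : IsCompact K) (hKV : K ⊆ V) (N : ℕ) :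
    ∃ C : ℝ, ∀ᶠ n in atTop, ∀ z ∈ K, ∀ s > 0,
      ∫ w in K ∩ closedBall z s, RR h φ N n w ≤ C * s := by
  obtain ⟨δ, c, C1, C2, hδ, hδ1, hc, hC1, hC2, hKc, hKcV, hptw, hmor⟩ := setup hMor hPtw hL hK hKV N
  obtain ⟨M, hM, hmass⟩ := mass_bound hL hKc hKcV
  obtain ⟨vK, hvK⟩ : ∃ vK : ℝ, vK = (volume K).toReal := ⟨_, rfl⟩
  have hvK0 : 0 ≤ vK := by
    rw [hvK]
    exact ENNReal.toReal_nonneg
  refine ⟨C1 * (2 / δ * (vK + Real.pi * c ^ 2 * M)) +
    C1 * (Real.pi + Real.pi * c ^ 2 * (C2 * ((1 + c) / δ) * M)) +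
    C1 * (Real.pi + Real.pi * (C2 * (c / δ) * M)), ?_⟩
  have hpi := Real.pi_pos
  have hA1 : 0 ≤ C1 * (2 / δ * (vK + Real.pi * c ^ 2 * M)) := by positivity
  have hA2 : 0 ≤ C1 * (Real.pi + Real.pi * c ^ 2 * (C2 * ((1 + c) / δ) * M)) := by positivity
  have hA3 : 0 ≤ C1 * (Real.pi + Real.pi * (C2 * (c / δ) * M)) := by positivity
  have hh2 : ∀ᶠ n in atTop, c * h n < δ / 2 := by
    have h1 := hL.hlim.const_mul c
    rw [mul_zero] at h1
    exact h1.eventually (gt_mem_nhds (by linarith))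
  filter_upwards [hptw, hmass, hh2] with n hn1 hn2 hn3 z hz s hs
  have hpos := hL.hpos n
  have hcn : h n ≤ c * h n := by nlinarith
  have hcontS := cont_sq hL n
  have hS : IsCompact (K ∩ closedBall z s) := hK.inter_right isClosed_closedBall
  have hSfin : volume (K ∩ closedBall z s) ≠ ⊤ := hS.measure_lt_top.ne
  have hSK : (volume (K ∩ closedBall z s)).toReal ≤ vK := by
    rw [hvK]
    exact ENNReal.toReal_mono hK.measure_lt_top.ne (measure_mono inter_subset_left)
  have hSs : (volume (K ∩ closedBall z s)).toReal ≤ Real.pi * s ^ 2 := by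
    rw [← vol_closedBall z hs.le]
    exact ENNReal.toReal_mono (isCompact_closedBall z s).measure_lt_top.ne
      (measure_mono inter_subset_right)
  -- the basic inequality
  have key : ∀ T : Set ℂ, IsCompact T → (∀ w ∈ K ∩ closedBall z s, closedBall w (c * h n) ⊆ T) →
      ∫ w in K ∩ closedBall z s, RR h φ N n w ≤
        C1 * ((volume (K ∩ closedBall z s)).toReal + Real.pi * c ^ 2 * ∫ w in T, ‖φ n w‖ ^ 2) := by
    intro T hT hST
    have hint := integrable_avg hcontS hS (c * h n)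
    calc ∫ w in K ∩ closedBall z s, RR h φ N n w
        ≤ ∫ w in K ∩ closedBall z s,
            C1 * (1 + 1 / h n ^ 2 * ∫ v in closedBall w (c * h n), ‖φ n v‖ ^ 2) := by
          apply integral_mono_of_nonneg
          · exact Filter.Eventually.of_forall fun w => RR_nonneg h φ N n w
          · exact ((integrableOn_const hSfin).add (hint.const_mul _)).const_mul _
          · rw [EventuallyLE, ae_restrict_iff' hS.measurableSet]
            exact Filter.Eventually.of_forall fun w hw => hn1 w hw.1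
      _ = C1 * ((volume (K ∩ closedBall z s)).toReal + 1 / h n ^ 2 *
            ∫ w in K ∩ closedBall z s, ∫ v in closedBall w (c * h n), ‖φ n v‖ ^ 2) := by
          rw [integral_const_mul]
          congr 1
          have hi1 : Integrable (fun _ : ℂ => (1 : ℝ)) (volume.restrict (K ∩ closedBall z s)) :=
            integrableOn_const hSfin
          have hi2 : Integrable (fun w => 1 / h n ^ 2 * ∫ v in closedBall w (c * h n), ‖φ n v‖ ^ 2)
            (volume.restrict (K ∩ closedBall z s)) := hint.const_mul _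
          rw [integral_add hi1 hi2, integral_const_mul, setIntegral_const, smul_eq_mul, mul_one]
          rfl
      _ ≤ C1 * ((volume (K ∩ closedBall z s)).toReal + 1 / h n ^ 2 *
            (Real.pi * (c * h n) ^ 2 * ∫ w in T, ‖φ n w‖ ^ 2)) := by
          apply mul_le_mul_of_nonneg_left _ hC1
          have := mul_le_mul_of_nonneg_left (avg_le hcontS (fun v => by positivity) hS hT
            (by positivity : 0 ≤ c * h n) hST) (by positivity : (0 : ℝ) ≤ 1 / h n ^ 2)
          linarith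
      _ = _ := by
          have hne : h n ≠ 0 := hpos.ne'
          field_simp
  rcases le_or_gt (δ / 2) s with hs1 | hs1
  · -- large radius
    have h1 := key _ hKc (by
      intro w hw
      apply (closedBall_subset_cthickening hw.1 (c * h n)).trans
      apply cthickening_mono
      linarith)
    have h2 : C1 * ((volume (K ∩ closedBall z s)).toReal +
        Real.pi * c ^ 2 * ∫ w in cthickening (3 * δ) K, ‖φ n w‖ ^ 2) ≤
        C1 * (vK + Real.pi * c ^ 2 * M) := by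
      apply mul_le_mul_of_nonneg_left _ hC1
      have := mul_le_mul_of_nonneg_left hn2 (by positivity : 0 ≤ Real.pi * c ^ 2)
      linarith
    have h3 : C1 * (vK + Real.pi * c ^ 2 * M) ≤
        C1 * (2 / δ * (vK + Real.pi * c ^ 2 * M)) * s := by
      have h4 : 1 ≤ 2 / δ * s := by
        rw [div_mul_eq_mul_div, le_div_iff₀ hδ]
        linarith
      have h5 : 0 ≤ C1 * (vK + Real.pi * c ^ 2 * M) := by positivity
      calc C1 * (vK + Real.pi * c ^ 2 * M) = C1 * (vK + Real.pi * c ^ 2 * M) * 1 := by ring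
        _ ≤ C1 * (vK + Real.pi * c ^ 2 * M) * (2 / δ * s) := mul_le_mul_of_nonneg_left h4 h5
        _ = _ := by ring
    have h6 := mul_nonneg hA2 hs.le
    have h7 := mul_nonneg hA3 hs.le
    linarith
  · rcases le_or_gt (h n) s with hs2 | hs2
    · -- intermediate radius
      have h1 := key (closedBall z (s + c * h n)) (isCompact_closedBall _ _) (by
        intro w hw
        apply closedBall_subset_closedBall'
        have := mem_closedBall.mp hw.2
        linarith)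
      have h2 := hmor n z hz (s + c * h n) δ (by linarith) (by linarith) le_rfl
      have h3 : ∫ w in closedBall z (3 * δ), ‖φ n w‖ ^ 2 ≤ M :=
        (sq_mono hL n hKc (closedBall_subset_cthickening hz _)).trans hn2
      have h4 : ∫ w in closedBall z (s + c * h n), ‖φ n w‖ ^ 2 ≤ C2 * ((1 + c) / δ) * M * s := by
        calc _ ≤ C2 * ((s + c * h n) / δ) * ∫ w in closedBall z (3 * δ), ‖φ n w‖ ^ 2 := h2
          _ ≤ C2 * ((s + c * h n) / δ) * M := mul_le_mul_of_nonneg_left h3 (by positivity)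
          _ ≤ C2 * ((s + c * s) / δ) * M := by
              gcongr
          _ = _ := by ring
      have h5 : C1 * ((volume (K ∩ closedBall z s)).toReal +
          Real.pi * c ^ 2 * ∫ w in closedBall z (s + c * h n), ‖φ n w‖ ^ 2) ≤
          C1 * (Real.pi * s + Real.pi * c ^ 2 * (C2 * ((1 + c) / δ) * M * s)) := by
        apply mul_le_mul_of_nonneg_left _ hC1
        have h6 := mul_le_mul_of_nonneg_left h4 (by positivity : 0 ≤ Real.pi * c ^ 2)
        have h7 : Real.pi * s ^ 2 ≤ Real.pi * s := by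
          apply mul_le_mul_of_nonneg_left _ hpi.le
          nlinarith
        linarith
      have h8 := mul_nonneg hA1 hs.le
      have h9 := mul_nonneg hA3 hs.le
      have h10 : C1 * (Real.pi * s + Real.pi * c ^ 2 * (C2 * ((1 + c) / δ) * M * s)) =
          C1 * (Real.pi + Real.pi * c ^ 2 * (C2 * ((1 + c) / δ) * M)) * s := by ring
      linarith
    · -- small radius
      have h1 : ∀ w ∈ K ∩ closedBall z s, RR h φ N n w ≤ C1 * (1 + C2 * (c / δ) * M / h n) := by
        intro w hw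
        have h2 := hmor n w hw.1 (c * h n) δ hcn (by linarith) le_rfl
        have h3 : ∫ w in closedBall w (3 * δ), ‖φ n w‖ ^ 2 ≤ M :=
          (sq_mono hL n hKc (closedBall_subset_cthickening hw.1 _)).trans hn2
        have h4 : ∫ v in closedBall w (c * h n), ‖φ n v‖ ^ 2 ≤ C2 * (c * h n / δ) * M :=
          h2.trans (mul_le_mul_of_nonneg_left h3 (by positivity))
        calc RR h φ N n w
            ≤ C1 * (1 + 1 / h n ^ 2 * ∫ v in closedBall w (c * h n), ‖φ n v‖ ^ 2) := hn1 w hw.1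
          _ ≤ C1 * (1 + 1 / h n ^ 2 * (C2 * (c * h n / δ) * M)) := by
              apply mul_le_mul_of_nonneg_left _ hC1
              have := mul_le_mul_of_nonneg_left h4 (by positivity : (0 : ℝ) ≤ 1 / h n ^ 2)
              linarith
          _ = _ := by
              have hne : h n ≠ 0 := hpos.ne'
              field_simp
      have h2 : ∫ w in K ∩ closedBall z s, RR h φ N n w ≤
          C1 * (1 + C2 * (c / δ) * M / h n) * (Real.pi * s ^ 2) := by
        calc ∫ w in K ∩ closedBall z s, RR h φ N n w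
            ≤ ∫ w in K ∩ closedBall z s, C1 * (1 + C2 * (c / δ) * M / h n) := by
              apply integral_mono_of_nonneg
              · exact Filter.Eventually.of_forall fun w => RR_nonneg h φ N n w
              · exact integrableOn_const hSfin
              · rw [EventuallyLE, ae_restrict_iff' hS.measurableSet]
                exact Filter.Eventually.of_forall h1
          _ = (volume (K ∩ closedBall z s)).toReal * (C1 * (1 + C2 * (c / δ) * M / h n)) := by
              rw [setIntegral_const, smul_eq_mul]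
              rfl
          _ ≤ Real.pi * s ^ 2 * (C1 * (1 + C2 * (c / δ) * M / h n)) :=
              mul_le_mul_of_nonneg_right hSs (by positivity)
          _ = _ := by ring
      have h3 : C1 * (1 + C2 * (c / δ) * M / h n) * (Real.pi * s ^ 2) ≤
          C1 * (Real.pi + Real.pi * (C2 * (c / δ) * M)) * s := by
        have h4 : s ^ 2 ≤ s := by nlinarith
        have h5 : s ^ 2 / h n ≤ s := by
          rw [div_le_iff₀ hpos]
          nlinarith
        have h6 : C1 * (1 + C2 * (c / δ) * M / h n) * (Real.pi * s ^ 2) =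
            C1 * (Real.pi * s ^ 2 + Real.pi * (C2 * (c / δ) * M) * (s ^ 2 / h n)) := by
          field_simp
        have h7 : C1 * (Real.pi + Real.pi * (C2 * (c / δ) * M)) * s =
            C1 * (Real.pi * s + Real.pi * (C2 * (c / δ) * M) * s) := by ring
        rw [h6, h7]
        gcongr
      have h8 := mul_nonneg hA1 hs.le
      have h9 := mul_nonneg hA2 hs.le
      linarith

theorem bdd (hMor : StmtMor) (hPtw : StmtPtwB) {V : Set ℂ} {σ : ℂ → ℝ} {h : ℕ → ℝ}
    {φ : ℕ → ℂ → ℂ} (hL : LocB V σ h φ) {K : Set ℂ} (hK : IsCompact K) (hKV : K ⊆ V) (N : ℕ) :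
    ∃ C : ℝ, ∀ᶠ n in atTop, ∀ z ∈ K, h n * RR h φ N n z ≤ C := by
  obtain ⟨δ, c, C1, C2, hδ, hδ1, hc, hC1, hC2, hKc, hKcV, hptw, hmor⟩ := setup hMor hPtw hL hK hKV N
  obtain ⟨M, hM, hmass⟩ := mass_bound hL hKc hKcV
  refine ⟨C1 + C1 * (C2 * (c / δ) * M), ?_⟩
  have hh2 : ∀ᶠ n in atTop, c * h n < δ := by
    have h1 := hL.hlim.const_mul c
    rw [mul_zero] at h1
    exact h1.eventually (gt_mem_nhds hδ)
  have hh1 : ∀ᶠ n in atTop, h n < 1 := hL.hlim.eventually (gt_mem_nhds one_pos)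
  filter_upwards [hptw, hmass, hh2, hh1] with n hn1 hn2 hn3 hn4 z hz
  have hpos := hL.hpos n
  have hcn : h n ≤ c * h n := by nlinarith
  have h2 := hmor n z hz (c * h n) δ hcn hn3.le le_rfl
  have h3 : ∫ w in closedBall z (3 * δ), ‖φ n w‖ ^ 2 ≤ M :=
    (sq_mono hL n hKc (closedBall_subset_cthickening hz _)).trans hn2
  have h4 : ∫ v in closedBall z (c * h n), ‖φ n v‖ ^ 2 ≤ C2 * (c * h n / δ) * M :=
    h2.trans (mul_le_mul_of_nonneg_left h3 (by positivity))
  calc h n * RR h φ N n z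
      ≤ h n * (C1 * (1 + 1 / h n ^ 2 * ∫ v in closedBall z (c * h n), ‖φ n v‖ ^ 2)) :=
        mul_le_mul_of_nonneg_left (hn1 z hz) hpos.le
    _ ≤ h n * (C1 * (1 + 1 / h n ^ 2 * (C2 * (c * h n / δ) * M))) := by
        apply mul_le_mul_of_nonneg_left _ hpos.le
        apply mul_le_mul_of_nonneg_left _ hC1
        have := mul_le_mul_of_nonneg_left h4 (by positivity : (0 : ℝ) ≤ 1 / h n ^ 2)
        linarith
    _ = C1 * h n + C1 * (C2 * (c / δ) * M) := by
        have hne : h n ≠ 0 := hpos.ne'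
        field_simp
    _ ≤ C1 + C1 * (C2 * (c / δ) * M) := by
        have : C1 * h n ≤ C1 * 1 := mul_le_mul_of_nonneg_left hn4.le hC1
        linarith

end GROA

/-- GROA: growth of the jets -/
theorem stmtGroA (hMor : QJ.StmtMor) (hPtwB : StmtPtwB) : StmtGroA := by
  intro V σ h φ hL
  exact ⟨fun K hK hKV N => GROA.growth hMor hPtwB hL hK hKV N,
    fun K hK hKV N => GROA.bdd hMor hPtwB hL hK hKV N⟩

end

end U3
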