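import Pool.Agent.U3.Stmts
import Pool.Agent.QJ.Ops
import Pool.Agent.QJ.Dom
import Pool.Agent.QJ.FOU

/-!
HCL: the four-jet integrals, multiplied by `h`, are given by the class function.
-/

open Complex MeasureTheory Filter Topology Set
open scoped ContDiff

namespace U3

open QE QJ

noncomputable section

namespace HCL

variable {V : Set ℂ} {σ : ℂ → ℝ} {h : ℕ → ℝ} {φ : ℕ → ℂ → ℂ}

lemma zero_off {ζ : ℂ → ℂ} (hζ : Test V ζ) {z : ℂ} (hz : z ∉ V) : ζ z = 0 :=
  image_eq_zero_of_notMem_tsupport fun hh => hz (hζ.sub hh)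

lemma hlimC (L : LocB V σ h φ) : Tendsto (fun n => (h n : ℂ)) atTop (𝓝 0) := by
  have h1 := (Complex.continuous_ofReal.tendsto 0).comp L.hlim
  rw [Complex.ofReal_zero] at h1
  exact h1

/-- `h ∫ ζ u → 0` if `h ∫_K ‖u‖ → 0` -/
lemma lim_test (hpos : ∀ n, 0 < h n) {u : ℕ → ℂ → ℂ} (hu : ∀ n, ContDiff ℝ ∞ (u n))
    (hz : HZ V h u) {ζ : ℂ → ℂ} (hζ : Test V ζ) :
    Tendsto (fun n => (h n : ℂ) * ∫ z, ζ z * u n z) atTop (𝓝 0) := by
  obtain ⟨C, hC⟩ := hζ.smooth.continuous.bounded_above_of_compact_support hζ.supp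
  have hK : IsCompact (tsupport ζ) := hζ.supp
  have h1 := (hz (tsupport ζ) hK hζ.sub).const_mul C
  rw [mul_zero] at h1
  refine squeeze_zero_norm (fun n => ?_) h1
  have e1 : ∫ z, ζ z * u n z = ∫ z in tsupport ζ, ζ z * u n z := by
    refine (setIntegral_eq_integral_of_forall_compl_eq_zero fun z hz => ?_).symm
    rw [image_eq_zero_of_notMem_tsupport hz, zero_mul]
  have e2 : ‖∫ z in tsupport ζ, ζ z * u n z‖ ≤ ∫ z in tsupport ζ, C * ‖u n z‖ := by
    refine norm_integral_le_of_norm_le ?_ ?_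
    · exact ((hu n).continuous.norm.const_smul C).continuousOn.integrableOn_compact hK
    · refine Filter.Eventually.of_forall fun z => ?_
      rw [norm_mul]
      exact mul_le_mul_of_nonneg_right (hC z) (norm_nonneg _)
  rw [norm_mul, Complex.norm_real, Real.norm_of_nonneg (hpos n).le, e1]
  rw [integral_const_mul] at e2
  calc h n * ‖∫ z in tsupport ζ, ζ z * u n z‖ ≤ h n * (C * ∫ z in tsupport ζ, ‖u n z‖) :=
        mul_le_mul_of_nonneg_left e2 (hpos n).le
    _ = C * (h n * ∫ z in tsupport ζ, ‖u n z‖) := by ring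

/-- the raising step with an additional factor `h`: a sequence `S` with `h D u = S + h² B` satisfies
`h ∫ ζ S → 0` -/
lemma up_h (hInt : StmtIntA) (hIbp : StmtIbpA) (L : LocB V σ h φ) (hG : GrowA V h φ) {ζ : ℂ → ℂ}
    (hζ : Test V ζ) (k : ℤ) {u B S : ℕ → ℂ → ℂ} (hu : Dom V h φ 4 u) (hB : Dom V h φ 4 B)
    (hS : ∀ n, ContDiff ℝ ∞ (S n))
    (he : ∀ n, ∀ z ∈ V, (h n : ℂ) * D σ k (u n) z = S n z + (h n : ℂ) ^ 2 * B n z) :
    Tendsto (fun n => (h n : ℂ) * ∫ z, ζ z * S n z) atTop (𝓝 0) := by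
  have su : ∀ n, ContDiff ℝ ∞ (fun z => (h n : ℂ) * u n z) :=
    fun n => contDiff_const.mul (hu.smooth n)
  have sB : ∀ n, ContDiff ℝ ∞ (fun z => (h n : ℂ) * B n z) :=
    fun n => contDiff_const.mul (hB.smooth n)
  have zu : HZ V h (fun n z => (h n : ℂ) * u n z) :=
    (hInt V h φ u L.hpos L.hlim L.smφ hG hu.smooth).2.2.2.1 hu.bq
  have zB : HZ V h (fun n z => (h n : ℂ) * B n z) :=
    (hInt V h φ B L.hpos L.hlim L.smφ hG hB.smooth).2.2.2.1 hB.bq
  have i1 := (hIbp V σ h (fun n z => (h n : ℂ) * u n z) k L.op L.sm L.hpos su zu ζ hζ).1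
  have i2 := (hlimC L).mul (lim_test L.hpos sB zB hζ)
  have i3 := i1.sub i2
  rw [mul_zero, sub_zero] at i3
  refine i3.congr fun n => ?_
  have e : ∀ z, ζ z * ((h n : ℂ) * D σ k (fun z => (h n : ℂ) * u n z) z)
      = (h n : ℂ) * (ζ z * S n z) + (h n : ℂ) ^ 3 * (ζ z * B n z) := by
    intro z
    by_cases hz : z ∈ V
    · rw [D_const_mul L.sm k _ (cd_at (hu.smooth n) z)]
      linear_combination ζ z * (h n : ℂ) * he n z hz
    · rw [zero_off hζ hz]; ring
  have e' : ∀ z, ζ z * ((h n : ℂ) * B n z) = (h n : ℂ) * (ζ z * B n z) := fun z => by ring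
  have k1 : Integrable (fun z => ζ z * S n z) :=
    hζ.integrable_mul L.op (hS n).continuous.continuousOn
  have k2 : Integrable (fun z => ζ z * B n z) :=
    hζ.integrable_mul L.op (hB.smooth n).continuous.continuousOn
  simp only [e, e']
  rw [integral_add (k1.const_mul _) (k2.const_mul _), integral_const_mul, integral_const_mul,
    integral_const_mul]
  ring

lemma add_four {S f g k l : ℂ → ℂ} (hf : Integrable f) (hg : Integrable g) (hk : Integrable k)
    (hl : Integrable l) (he : ∀ z, S z = f z + g z + k z + l z) :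
    ∫ z, S z = (∫ z, f z) + (∫ z, g z) + (∫ z, k z) + ∫ z, l z := by
  have h1 : Integrable (fun z => f z + g z) := hf.add hg
  have h2 : Integrable (fun z => f z + g z + k z) := h1.add hk
  simp only [he]
  rw [integral_add h2 hl, integral_add h1 hk, integral_add hf hg]

/-- the first recursion -/
lemma first (hInt : StmtIntA) (hIbp : StmtIbpA) (hJ : StmtJetC) (L : LocB V σ h φ)
    (hG : GrowA V h φ) {ζ : ℂ → ℂ} (hζ : Test V ζ) (a b c d : ℤ) :
    Tendsto (fun n => (h n : ℂ) * (E4 σ h φ ζ (a + 1) b c d n + E4 σ h φ ζ a (b + 1) c d n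
      + E4 σ h φ ζ a b (c + 1) d n + E4 σ h φ ζ a b c (d + 1) n)) atTop (𝓝 0) := by
  have hσ := L.sm
  obtain ⟨da, ⟨A1, hA1, h1⟩, -⟩ := hJ V σ h φ L a
  obtain ⟨db, ⟨A2, hA2, h2⟩, -⟩ := hJ V σ h φ L b
  obtain ⟨dc, ⟨A3, hA3, h3⟩, -⟩ := hJ V σ h φ L c
  obtain ⟨dd, ⟨A4, hA4, h4⟩, -⟩ := hJ V σ h φ L d
  have da1 := (hJ V σ h φ L (a + 1)).1
  have db1 := (hJ V σ h φ L (b + 1)).1
  have dc1 := (hJ V σ h φ L (c + 1)).1
  have dd1 := (hJ V σ h φ L (d + 1)).1
  have hV := L.op
  have pr : ∀ {u v w x : ℕ → ℂ → ℂ}, Dom V h φ 1 u → Dom V h φ 1 v → Dom V h φ 1 w →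
      Dom V h φ 1 x → Dom V h φ 4 (fun n z => u n z * v n z * w n z * x n z) := by
    intro u v w x hu hv hw hx
    exact ((hu.mul hV hv).mul hV hw).mul hV hx
  have du := pr da db dc dd
  have q1 := pr da1 db dc dd
  have q2 := pr da db1 dc dd
  have q3 := pr da db dc1 dd
  have q4 := pr da db dc dd1
  have hB := (((pr hA1 db dc dd).add hV (pr da hA2 dc dd)).add hV (pr da db hA3 dd)).add hV
    (pr da db dc hA4)
  have hS := ((q1.add hV q2).add hV q3).add hV q4
  have key := up_h hInt hIbp L hG hζ (a + b + c + d) du hB hS.smooth ?_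
  · refine key.congr fun n => ?_
    have k1 := hζ.integrable_mul hV (q1.smooth n).continuous.continuousOn
    have k2 := hζ.integrable_mul hV (q2.smooth n).continuous.continuousOn
    have k3 := hζ.integrable_mul hV (q3.smooth n).continuous.continuousOn
    have k4 := hζ.integrable_mul hV (q4.smooth n).continuous.continuousOn
    unfold E4
    refine congrArg (fun t => (h n : ℂ) * t) ?_
    exact add_four k1 k2 k3 k4 fun z => by ring
  · intro n z hz
    have sa := cd_at (da.smooth n) z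
    have sb := cd_at (db.smooth n) z
    have sc := cd_at (dc.smooth n) z
    have sd := cd_at (dd.smooth n) z
    have m1 := D_mul hσ a b sa sb
    have m2 := D_mul hσ (a + b) c (sa.fun_mul sb) sc
    have m3 := D_mul hσ (a + b + c) d ((sa.fun_mul sb).fun_mul sc) sd
    rw [m3, m2, m1]
    linear_combination (E σ h φ b n z * E σ h φ c n z * E σ h φ d n z) * h1 n z hz
      + (E σ h φ a n z * E σ h φ c n z * E σ h φ d n z) * h2 n z hz
      + (E σ h φ a n z * E σ h φ b n z * E σ h φ d n z) * h3 n z hz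
      + (E σ h φ a n z * E σ h φ b n z * E σ h φ c n z) * h4 n z hz

lemma three_int {f g k : ℂ → ℂ} (hf : Integrable f) (hg : Integrable g) (hk : Integrable k) :
    ∫ z, (f z + g z - 2 * k z) = (∫ z, f z) + (∫ z, g z) - 2 * ∫ z, k z := by
  have h1 : Integrable (fun z => f z + g z) := hf.add hg
  rw [integral_sub h1 (hk.const_mul 2), integral_add hf hg, integral_const_mul]

/-- the second recursion: the second differences are bounded -/
lemma second (hTriQ : StmtTriQ) (hNf : StmtNf) (L : LocB V σ h φ) {ζ : ℂ → ℂ} (hζ : Test V ζ)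
    (a b c d : ℤ) (habcd : a + b + c + d = 0) :
    Tendsto (fun n => (h n : ℂ) * (E4 σ h φ ζ (a + 1) (b + 1) (c - 1) (d - 1) n
      + E4 σ h φ ζ (a - 1) (b - 1) (c + 1) (d + 1) n - 2 * E4 σ h φ ζ a b c d n))
      atTop (𝓝 0) := by
  have T1 := hTriQ V σ h φ L a b
  have T2 := hTriQ V σ h φ L c d
  have hcd : c + d = -(a + b) := by omega
  rw [hcd] at T2
  obtain ⟨-, c0, hc0⟩ := hNf V σ (a + b) _ _ _ _ _ _ L.op L.sm T1 T2 ζ hζ
  have main : ∀ n, E4 σ h φ ζ (a + 1) (b + 1) (c - 1) (d - 1) n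
      + E4 σ h φ ζ (a - 1) (b - 1) (c + 1) (d + 1) n - 2 * E4 σ h φ ζ a b c d n
      = ∫ z, ζ z * (E σ h φ (a + 1) n z * E σ h φ (b + 1) n z
            * (E σ h φ (c - 1) n z * E σ h φ (d - 1) n z)
          + E σ h φ (a - 1) n z * E σ h φ (b - 1) n z
            * (E σ h φ (c + 1) n z * E σ h φ (d + 1) n z)
          - 2 * (E σ h φ a n z * E σ h φ b n z * (E σ h φ c n z * E σ h φ d n z))) := by
    intro n
    have j1 : Integrable fun z => ζ z * (E σ h φ (a + 1) n z * E σ h φ (b + 1) n z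
        * E σ h φ (c - 1) n z * E σ h φ (d - 1) n z) := by
      have h1 := test_int hζ ((T1.sA n).continuous.mul (T2.sC n).continuous)
      exact h1.congr (Eventually.of_forall fun z => by simp only [Pi.mul_apply]; ring)
    have j2 : Integrable fun z => ζ z * (E σ h φ (a - 1) n z * E σ h φ (b - 1) n z
        * E σ h φ (c + 1) n z * E σ h φ (d + 1) n z) := by
      have h1 := test_int hζ ((T1.sC n).continuous.mul (T2.sA n).continuous)
      exact h1.congr (Eventually.of_forall fun z => by simp only [Pi.mul_apply]; ring)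
    have j3 : Integrable fun z => ζ z * (E σ h φ a n z * E σ h φ b n z
        * E σ h φ c n z * E σ h φ d n z) := by
      have h1 := test_int hζ ((T1.sB n).continuous.mul (T2.sB n).continuous)
      exact h1.congr (Eventually.of_forall fun z => by simp only [Pi.mul_apply]; ring)
    unfold E4
    rw [← three_int j1 j2 j3]
    refine integral_congr_ae (Eventually.of_forall fun z => ?_)
    ring
  have hh : Tendsto (fun n => h n * c0) atTop (𝓝 0) := by
    have h1 := L.hlim.mul_const c0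
    rwa [zero_mul] at h1
  refine squeeze_zero_norm' ?_ hh
  filter_upwards [hc0] with n hn
  rw [main n, norm_mul, Complex.norm_real, Real.norm_of_nonneg (L.hpos n).le]
  exact mul_le_mul_of_nonneg_left hn (L.hpos n).le

end HCL

open HCL in
/-- the four-jet integrals, multiplied by `h`, are given by the class function -/
theorem stmtHcl (hGroA : StmtGroA) (hIntA : StmtIntA) (hIbpA : StmtIbpA) (hJetC : StmtJetC)
    (hTriQ : StmtTriQ) (hNf : StmtNf) (hAlf : QJ.StmtAlf) : StmtHcl := by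
  intro V σ h φ L ζ hζ a b c d habcd
  have hG := hGroA V σ h φ L
  let g : ℤ → ℤ → ℤ → ℤ → ℕ → ℂ := fun a b c d n => (h n : ℂ) * E4 σ h φ ζ a b c d n
  let e : ℤ → ℤ → ℤ → ℤ → (ℕ → ℂ) ⧸ FOU.nul := fun a b c d => FOU.nul.mkQ (g a b c d)
  have key := hAlf _ e
    (fun a b c d => by
      show FOU.nul.mkQ _ = FOU.nul.mkQ _
      refine congrArg _ ?_
      funext n
      show (h n : ℂ) * E4 σ h φ ζ b a c d n = (h n : ℂ) * E4 σ h φ ζ a b c d n
      rw [FOU.E4_ab])
    (fun a b c d => by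
      show FOU.nul.mkQ _ = FOU.nul.mkQ _
      refine congrArg _ ?_
      funext n
      show (h n : ℂ) * E4 σ h φ ζ a c b d n = (h n : ℂ) * E4 σ h φ ζ a b c d n
      rw [FOU.E4_bc])
    (fun a b c d => by
      show FOU.nul.mkQ _ = FOU.nul.mkQ _
      refine congrArg _ ?_
      funext n
      show (h n : ℂ) * E4 σ h φ ζ a b d c n = (h n : ℂ) * E4 σ h φ ζ a b c d n
      rw [FOU.E4_cd])
    (fun a b c d hs => by
      show FOU.nul.mkQ _ + FOU.nul.mkQ _ = (2 : ℂ) • FOU.nul.mkQ _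
      rw [← map_add, ← map_smul, ← sub_eq_zero, ← map_sub, Submodule.mkQ_apply,
        Submodule.Quotient.mk_eq_zero]
      refine (second hTriQ hNf L hζ a b c d hs).congr fun n => ?_
      simp only [g, Pi.sub_apply, Pi.add_apply, Pi.smul_apply, smul_eq_mul]
      ring)
    (fun a b c d _ => by
      show FOU.nul.mkQ _ + FOU.nul.mkQ _ + FOU.nul.mkQ _ + FOU.nul.mkQ _ = 0
      rw [← map_add, ← map_add, ← map_add, Submodule.mkQ_apply, Submodule.Quotient.mk_eq_zero]
      refine (first hIntA hIbpA hJetC L hG hζ a b c d).congr fun n => ?_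
      simp only [g, Pi.add_apply]
      ring)
    a b c d habcd
  have h2 : FOU.nul.mkQ (g a b c d - cl4 a b c d • g 0 0 0 0) = 0 := by
    rw [map_sub, map_smul, sub_eq_zero]
    exact key
  rw [Submodule.mkQ_apply, Submodule.Quotient.mk_eq_zero] at h2
  have h3 : Tendsto (g a b c d - cl4 a b c d • g 0 0 0 0) atTop (𝓝 0) := h2
  refine h3.congr fun n => ?_
  simp only [g, Pi.sub_apply, Pi.smul_apply, smul_eq_mul]
  ring

end

end U3
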