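import Pool.Agent.U3.Stmts
import Pool.Agent.QJ.HOL

/-!
Third order statistics of all eigenfunctions: `∂̄ α` bounded in `L²` and `α = a + ∂ b` with `a`, `b`
bounded in `L¹` imply that `α` is bounded in `L²`.
-/

open Complex MeasureTheory Filter Topology Set
open scoped ContDiff

namespace U3

open QE QJ

noncomputable section

namespace HOLB

/-- the Cauchy transform is bounded in `L²` on compact sets -/
theorem cauchy_bdd {L K : Set ℂ} (hL : IsCompact L) (hK : IsCompact K) (B : ℝ) :
    ∃ C : ℝ, ∀ f : ℂ → ℂ, ContDiff ℝ ∞ f → tsupport f ⊆ L → ∫ z, ‖f z‖ ^ 2 ≤ B →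
      ∫ z in K, ‖cauchy f z‖ ^ 2 ≤ C := by
  set V : ℝ := (volume : Measure ℂ).real L with hV
  have hLfin : (volume : Measure ℂ) L ≠ ⊤ := hL.measure_lt_top.ne
  refine ⟨2 * ((Real.pi * 1) ^ 2 * B) +
    2 * ((1 / (2 * Real.pi * 1) * (V + B)) ^ 2 * (volume : Measure ℂ).real K), ?_⟩
  intro f hf hs hB
  have hc : HasCompactSupport f := hL.of_isClosed_subset (isClosed_tsupport _) hs
  have hcf : Continuous f := hf.continuous
  have hi2 : Integrable (fun z => ‖f z‖ ^ 2) := by
    have : Continuous (fun z => ‖f z‖ ^ 2) := by fun_prop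
    exact this.integrable_of_hasCompactSupport (hc.comp_left (g := fun w => ‖w‖ ^ 2) (by simp))
  have hi1 : Integrable (fun z => ‖f z‖) := (hcf.integrable_of_hasCompactSupport hc).norm
  have hL1 : ∫ z, ‖f z‖ ≤ V + B := by
    have hind : Integrable (L.indicator fun _ => (1 : ℝ)) :=
      (integrable_indicator_iff hL.measurableSet).mpr (integrableOn_const hLfin)
    have hpt : ∀ z, ‖f z‖ ≤ L.indicator (fun _ => (1 : ℝ)) z + ‖f z‖ ^ 2 := by
      intro z
      by_cases hz : z ∈ L
      · rw [Set.indicator_of_mem hz]; nlinarith [sq_nonneg (‖f z‖ - 1), norm_nonneg (f z)]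
      · have : f z = 0 := image_eq_zero_of_notMem_tsupport fun h => hz (hs h)
        rw [Set.indicator_of_notMem hz, this]; simp
    calc ∫ z, ‖f z‖ ≤ ∫ z, (L.indicator (fun _ => (1 : ℝ)) z + ‖f z‖ ^ 2) :=
          integral_mono hi1 (hind.add hi2) hpt
      _ = V + ∫ z, ‖f z‖ ^ 2 := by
          rw [integral_add hind hi2, integral_indicator hL.measurableSet]; simp [hV]
      _ ≤ V + B := by linarith
  have hδ : (0 : ℝ) < 1 := one_pos
  have hkk : Integrable (fun w => ck w - kd 1 w) :=
    (integrable_norm_iff (measurable_ck.sub (continuous_kd hδ).measurable).aestronglyMeasurable).mp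
      (integrable_ck_sub_kd hδ)
  obtain ⟨hy1, hy2⟩ := young_sq hkk hcf hc
  have hsplit : ∀ z, cauchy f z = (∫ w, (ck w - kd 1 w) * f (z - w))
      + ∫ w, kd 1 w * f (z - w) := by
    intro z
    have hi1 : Integrable (fun w => ck w * f (z - w)) := convExists hcf hc z
    have hi3 : Integrable (fun w => f (z - w)) :=
      (hcf.integrable_of_hasCompactSupport hc).comp_sub_left z
    have hi2 : Integrable (fun w => kd 1 w * f (z - w)) :=
      hi3.bdd_mul (continuous_kd hδ).aestronglyMeasurable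
        (Filter.Eventually.of_forall fun w => norm_kd_le hδ w)
    have hi4 : Integrable (fun w => (ck w - kd 1 w) * f (z - w)) := by
      refine (hi1.sub hi2).congr (Filter.Eventually.of_forall fun w => ?_)
      simp only [Pi.sub_apply]; ring
    rw [← integral_add hi4 hi2]
    unfold cauchy
    refine integral_congr_ae (Filter.Eventually.of_forall fun w => ?_)
    simp only []; ring
  have hcontk : Continuous (fun z => ∫ w, kd 1 w * f (z - w)) := by
    have h1 := hc.continuous_convolution_right (ContinuousLinearMap.mul ℝ ℂ)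
      ((continuous_kd hδ).locallyIntegrable (μ := volume)) hcf
    have h2 : (fun z => ∫ w, kd 1 w * f (z - w))
        = convolution (kd 1) f (ContinuousLinearMap.mul ℝ ℂ) volume := by
      funext z; rw [convolution_def]; rfl
    rw [h2]; exact h1
  have hik : IntegrableOn (fun z => ‖∫ w, kd 1 w * f (z - w)‖ ^ 2) K :=
    (by fun_prop : Continuous (fun z => ‖∫ w, kd 1 w * f (z - w)‖ ^ 2)).continuousOn.integrableOn_compact
      hK
  have hic : IntegrableOn (fun z => ‖cauchy f z‖ ^ 2) K := by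
    have := (contDiff_cauchy hf hc).continuous
    exact (by fun_prop : Continuous (fun z => ‖cauchy f z‖ ^ 2)).continuousOn.integrableOn_compact hK
  have hkb : ∀ z, ‖∫ w, kd 1 w * f (z - w)‖ ^ 2 ≤ (1 / (2 * Real.pi * 1) * (V + B)) ^ 2 := by
    intro z
    have hi : Integrable (fun w => ‖f (z - w)‖) := hi1.comp_sub_left z
    gcongr
    calc ‖∫ w, kd 1 w * f (z - w)‖ ≤ ∫ w, ‖kd 1 w * f (z - w)‖ :=
          norm_integral_le_integral_norm _
      _ ≤ ∫ w, 1 / (2 * Real.pi * 1) * ‖f (z - w)‖ := by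
          refine integral_mono_of_nonneg (Filter.Eventually.of_forall fun w => norm_nonneg _)
            (hi.const_mul _) (Filter.Eventually.of_forall fun w => ?_)
          simp only [norm_mul]
          gcongr
          exact norm_kd_le hδ w
      _ = 1 / (2 * Real.pi * 1) * ∫ w, ‖f w‖ := by
          rw [integral_const_mul, integral_sub_left_eq_self (fun w => ‖f w‖) volume z]
      _ ≤ _ := by gcongr
  calc ∫ z in K, ‖cauchy f z‖ ^ 2
      ≤ ∫ z in K, (2 * ‖∫ w, (ck w - kd 1 w) * f (z - w)‖ ^ 2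
        + 2 * ‖∫ w, kd 1 w * f (z - w)‖ ^ 2) := by
        refine integral_mono hic ((hy1.integrableOn.const_mul 2).add (hik.const_mul 2)) fun z => ?_
        simp only []
        rw [hsplit z]
        have h1 := norm_add_le (∫ w, (ck w - kd 1 w) * f (z - w)) (∫ w, kd 1 w * f (z - w))
        nlinarith [norm_nonneg (∫ w, (ck w - kd 1 w) * f (z - w)),
          norm_nonneg (∫ w, kd 1 w * f (z - w)),
          norm_nonneg ((∫ w, (ck w - kd 1 w) * f (z - w)) + ∫ w, kd 1 w * f (z - w)),
          sq_nonneg (‖∫ w, (ck w - kd 1 w) * f (z - w)‖ - ‖∫ w, kd 1 w * f (z - w)‖)]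
    _ = 2 * (∫ z in K, ‖∫ w, (ck w - kd 1 w) * f (z - w)‖ ^ 2)
        + 2 * ∫ z in K, ‖∫ w, kd 1 w * f (z - w)‖ ^ 2 := by
        rw [integral_add (hy1.integrableOn.const_mul 2) (hik.const_mul 2), integral_const_mul,
          integral_const_mul]
    _ ≤ _ := by
        gcongr
        · calc ∫ z in K, ‖∫ w, (ck w - kd 1 w) * f (z - w)‖ ^ 2
              ≤ ∫ z, ‖∫ w, (ck w - kd 1 w) * f (z - w)‖ ^ 2 :=
                setIntegral_le_integral hy1 (Filter.Eventually.of_forall fun z => by positivity)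
            _ ≤ (∫ w, ‖ck w - kd 1 w‖) ^ 2 * ∫ z, ‖f z‖ ^ 2 := hy2
            _ ≤ (Real.pi * 1) ^ 2 * B := by
                gcongr
                exact integral_ck_sub_kd hδ
        · calc ∫ z in K, ‖∫ w, kd 1 w * f (z - w)‖ ^ 2
              ≤ ∫ _ in K, (1 / (2 * Real.pi * 1) * (V + B)) ^ 2 :=
                integral_mono hik (integrableOn_const hK.measure_lt_top.ne) hkb
            _ = _ := by rw [setIntegral_const, smul_eq_mul, mul_comm]

end HOLB

open HOLB QJ.HOL in
theorem stmtHolB : StmtHolB := by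
  intro V α a b hV hα ha hb hab hbd hL2 K hK hKV
  obtain ⟨χ, hχ, hχ1, hχn⟩ := exists_cutoff hV hK hKV
  set L : Set ℂ := tsupport χ with hLdef
  have hLc : IsCompact L := hχ.supp
  have hLV : L ⊆ V := hχ.sub
  set η : ℂ → ℂ := QE.dzb χ with hη
  have hηT : Test V η := hχ.dzb
  have hηL : tsupport η ⊆ L := tsupport_dzb_subset χ
  have hdisj : ∀ z ∈ K, z ∉ tsupport η := by
    intro z hz
    rw [notMem_tsupport_iff_eventuallyEq]
    have h1 : ∀ᶠ w in 𝓝 z, ∀ᶠ u in 𝓝 w, χ u = 1 := (hχ1 z hz).eventually_nhds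
    filter_upwards [h1] with w hw1
    have h2 : χ =ᶠ[𝓝 w] fun _ => 1 := hw1
    rw [hη, dzb_congr h2, dzb_const]
    rfl
  obtain ⟨r, hr, hrd⟩ : ∃ r > 0, ∀ z ∈ K, ∀ w ∈ tsupport η, r ≤ ‖z - w‖ := by
    have hd : Disjoint K (tsupport η) := Set.disjoint_left.2 hdisj
    obtain ⟨r, hr, h1⟩ := hd.exists_thickenings hK (isClosed_tsupport η)
    refine ⟨r, hr, fun z hz w hw1 => ?_⟩
    by_contra hlt
    push Not at hlt
    have h2 : w ∈ Metric.thickening r K := by
      rw [Metric.mem_thickening_iff]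
      exact ⟨z, hz, by rw [dist_comm, dist_eq_norm]; exact hlt⟩
    exact Set.disjoint_left.1 h1 h2 (Metric.self_subset_thickening hr _ hw1)
  -- the decomposition
  have hdec : ∀ n, ∀ z ∈ K, α n z =
      cauchy (fun w => χ w * QE.dzb (α n) w) z + cauchy (fun w => η w * α n w) z := by
    intro n z hz
    have h1 : ContDiff ℝ ∞ (fun w => χ w * α n w) := hχ.smooth.mul (hα n)
    have h2 : HasCompactSupport (fun w => χ w * α n w) := hχ.supp.mul_right
    have h3 := cauchy_dzb h1 h2 z
    have h4 : QE.dzb (fun w => χ w * α n w) = fun w => χ w * QE.dzb (α n) w + η w * α n w := by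
      funext w
      rw [dzb_mul (hχ.smooth.differentiable (by simp) w) ((hα n).differentiable (by simp) w)]
      ring
    have h5 := cauchy_add (f := fun w => χ w * QE.dzb (α n) w) (g := fun w => η w * α n w)
      (hχ.smooth.continuous.mul (contDiff_dzb (hα n)).continuous)
      hχ.supp.mul_right (hηT.smooth.continuous.mul (hα n).continuous) hηT.supp.mul_right z
    rw [h4] at h3
    rw [← h5, h3, (hχ1 z hz).self_of_nhds, one_mul]
  -- the first term
  obtain ⟨B, hB⟩ := hL2 L hLc hLV
  obtain ⟨C1, hC1⟩ := cauchy_bdd hLc hK B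
  have hfirst : ∀ᶠ n in atTop, ∫ z in K, ‖cauchy (fun w => χ w * QE.dzb (α n) w) z‖ ^ 2 ≤ C1 := by
    filter_upwards [hB] with n hn
    refine hC1 _ (hχ.smooth.mul (contDiff_dzb (hα n))) (closure_mono ?_) ?_
    · intro w hw1
      rw [Function.mem_support] at hw1 ⊢
      intro h0
      exact hw1 (by rw [h0, zero_mul])
    · refine le_trans ?_ hn
      have e : ∫ z, ‖χ z * QE.dzb (α n) z‖ ^ 2 = ∫ z in L, ‖χ z * QE.dzb (α n) z‖ ^ 2 := by
        rw [setIntegral_eq_integral_of_forall_compl_eq_zero]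
        intro w hw1
        rw [image_eq_zero_of_notMem_tsupport hw1, zero_mul, norm_zero]
        simp
      rw [e]
      have hc1 : Continuous (fun z => ‖χ z * QE.dzb (α n) z‖ ^ 2) :=
        ((hχ.smooth.continuous.mul (contDiff_dzb (hα n)).continuous).norm).pow 2
      have hc2 : Continuous (fun z => ‖QE.dzb (α n) z‖ ^ 2) :=
        ((contDiff_dzb (hα n)).continuous.norm).pow 2
      refine integral_mono (hc1.continuousOn.integrableOn_compact hLc)
        (hc2.continuousOn.integrableOn_compact hLc) fun z => ?_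
      simp only [norm_mul]
      have h2 : ‖χ z‖ * ‖QE.dzb (α n) z‖ ≤ ‖QE.dzb (α n) z‖ :=
        mul_le_of_le_one_left (norm_nonneg _) (hχn z)
      gcongr
  -- the second term
  obtain ⟨C, hC⟩ := hbd L hLc hLV
  obtain ⟨M1, hM1⟩ : ∃ M, ∀ w, ‖η w‖ ≤ M :=
    hηT.smooth.continuous.bounded_above_of_compact_support hηT.supp
  obtain ⟨M2, hM2⟩ : ∃ M, ∀ w, ‖QE.dz η w‖ ≤ M :=
    hηT.dz.smooth.continuous.bounded_above_of_compact_support hηT.dz.supp
  have hM10 : 0 ≤ M1 := (norm_nonneg _).trans (hM1 0)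
  have hM20 : 0 ≤ M2 := (norm_nonneg _).trans (hM2 0)
  have hsecond : ∀ᶠ n in atTop, ∀ z ∈ K, ‖cauchy (fun w => η w * α n w) z‖ ^ 2 ≤
      (M1 * r⁻¹ * C + (M2 * r⁻¹ + M1 * (r ^ 2)⁻¹) * C) ^ 2 := by
    filter_upwards [hC] with n hn z hz
    have hT := test_ck hV hηT (hdisj z hz)
    have hoff : ∀ w, w ∉ L → η w = 0 := fun w hw1 =>
      image_eq_zero_of_notMem_tsupport fun h => hw1 (hηL h)
    have hb1 : ∀ w, ‖η w * ck (z - w)‖ ≤ M1 * r⁻¹ := by
      intro w
      by_cases hw1 : w ∈ tsupport η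
      · rw [norm_mul]
        gcongr
        · exact hM1 w
        · exact norm_ck_sub_le hr (hrd z hz w hw1)
      · rw [image_eq_zero_of_notMem_tsupport hw1, zero_mul, norm_zero]
        positivity
    have hb2 : ∀ w, ‖QE.dz (fun w => η w * ck (z - w)) w‖ ≤ M2 * r⁻¹ + M1 * (r ^ 2)⁻¹ := by
      intro w
      by_cases hw1 : w ∈ tsupport η
      · have hne : w ≠ z := fun h => hdisj z hz (h ▸ hw1)
        have hd : DifferentiableAt ℝ (fun w => ck (z - w)) w :=
          ((contDiffOn_ck_sub z).contDiffAt (isOpen_compl_singleton.mem_nhds hne)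
            ).differentiableAt (by simp)
        rw [dz_mul (hηT.smooth.differentiable (by simp) w) hd]
        refine (norm_add_le _ _).trans ?_
        rw [norm_mul, norm_mul]
        gcongr
        · exact hM2 w
        · exact norm_ck_sub_le hr (hrd z hz w hw1)
        · exact hM1 w
        · exact norm_dz_ck_sub_le hr (hrd z hz w hw1)
      · have h1 : (fun w => η w * ck (z - w)) =ᶠ[𝓝 w] fun _ => 0 := by
          filter_upwards [notMem_tsupport_iff_eventuallyEq.mp hw1] with u hu
          rw [hu, Pi.zero_apply, zero_mul]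
        rw [dz_congr h1, dz_const, norm_zero]
        positivity
    have hoff2 : ∀ w, w ∉ L → QE.dz (fun w => η w * ck (z - w)) w = 0 := by
      intro w hw1
      have hw2 : w ∉ tsupport η := fun h => hw1 (hηL h)
      have h1 : (fun w => η w * ck (z - w)) =ᶠ[𝓝 w] fun _ => 0 := by
        filter_upwards [notMem_tsupport_iff_eventuallyEq.mp hw2] with u hu
        rw [hu, Pi.zero_apply, zero_mul]
      rw [dz_congr h1, dz_const]
    have e1 : cauchy (fun w => η w * α n w) z = (∫ w, (η w * ck (z - w)) * a n w) -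
        ∫ w, QE.dz (fun w => η w * ck (z - w)) w * b n w := by
      rw [QJ.HOL.cauchy_eq, sub_eq_add_neg, ← integral_mul_dz hV hT (hb n).contDiffOn,
        ← integral_add (hT.integrable_mul hV (ha n).continuous.continuousOn)
          (hT.integrable_mul hV (contDiff_dz (hb n)).continuous.continuousOn)]
      refine integral_congr_ae (Filter.Eventually.of_forall fun w => ?_)
      by_cases hw1 : w ∈ V
      · simp only [hab n w hw1]
        ring
      · have : η w = 0 := hoff w fun h => hw1 (hLV h)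
        simp only [this, zero_mul, add_zero]
    rw [e1]
    have h3 := norm_integral_mul_le hLc (M := M1 * r⁻¹) (ha n).continuous
      (ψ := fun w => η w * ck (z - w)) (fun w hw1 => by rw [hoff w hw1, zero_mul])
      (fun w _ => hb1 w)
    have h4 := norm_integral_mul_le hLc (M := M2 * r⁻¹ + M1 * (r ^ 2)⁻¹) (hb n).continuous
      (ψ := QE.dz (fun w => η w * ck (z - w))) hoff2 (fun w _ => hb2 w)
    have h5 : M1 * r⁻¹ * ∫ w in L, ‖a n w‖ ≤ M1 * r⁻¹ * C := by
      gcongr
      exact hn.1
    have h6 : (M2 * r⁻¹ + M1 * (r ^ 2)⁻¹) * ∫ w in L, ‖b n w‖ ≤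
        (M2 * r⁻¹ + M1 * (r ^ 2)⁻¹) * C := by
      gcongr
      exact hn.2
    gcongr
    exact (norm_sub_le _ _).trans (add_le_add (h3.trans h5) (h4.trans h6))
  -- conclusion
  set C2 : ℝ := (M1 * r⁻¹ * C + (M2 * r⁻¹ + M1 * (r ^ 2)⁻¹) * C) ^ 2 with hC2
  refine ⟨2 * C1 + 2 * (C2 * (volume : Measure ℂ).real K), ?_⟩
  filter_upwards [hfirst, hsecond] with n hn1 hn2
  have hc1 : Continuous (cauchy (fun w => χ w * QE.dzb (α n) w)) :=
    (contDiff_cauchy (hχ.smooth.mul (contDiff_dzb (hα n))) hχ.supp.mul_right).continuous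
  have hc2 : Continuous (cauchy (fun w => η w * α n w)) :=
    (contDiff_cauchy (hηT.smooth.mul (hα n)) hηT.supp.mul_right).continuous
  have hi1 : IntegrableOn (fun z => ‖cauchy (fun w => χ w * QE.dzb (α n) w) z‖ ^ 2) K :=
    ((hc1.norm).pow 2).continuousOn.integrableOn_compact hK
  have hi2 : IntegrableOn (fun z => ‖cauchy (fun w => η w * α n w) z‖ ^ 2) K :=
    ((hc2.norm).pow 2).continuousOn.integrableOn_compact hK
  have hsec : ∫ z in K, ‖cauchy (fun w => η w * α n w) z‖ ^ 2 ≤
      C2 * (volume : Measure ℂ).real K := by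
    calc ∫ z in K, ‖cauchy (fun w => η w * α n w) z‖ ^ 2 ≤ ∫ _ in K, C2 :=
          setIntegral_mono_on hi2 (integrableOn_const hK.measure_lt_top.ne) hK.measurableSet hn2
      _ = _ := by rw [setIntegral_const, smul_eq_mul, mul_comm]
  calc ∫ z in K, ‖α n z‖ ^ 2
      ≤ ∫ z in K, (2 * ‖cauchy (fun w => χ w * QE.dzb (α n) w) z‖ ^ 2 +
        2 * ‖cauchy (fun w => η w * α n w) z‖ ^ 2) := by
        refine setIntegral_mono_on
          ((((hα n).continuous.norm).pow 2).continuousOn.integrableOn_compact hK)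
          ((hi1.const_mul 2).add (hi2.const_mul 2)) hK.measurableSet fun z hz => ?_
        rw [hdec n z hz]
        have h1 := norm_add_le (cauchy (fun w => χ w * QE.dzb (α n) w) z)
          (cauchy (fun w => η w * α n w) z)
        nlinarith [norm_nonneg (cauchy (fun w => χ w * QE.dzb (α n) w) z),
          norm_nonneg (cauchy (fun w => η w * α n w) z),
          norm_nonneg (cauchy (fun w => χ w * QE.dzb (α n) w) z + cauchy (fun w => η w * α n w) z),
          sq_nonneg (‖cauchy (fun w => χ w * QE.dzb (α n) w) z‖ -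
            ‖cauchy (fun w => η w * α n w) z‖)]
    _ = 2 * (∫ z in K, ‖cauchy (fun w => χ w * QE.dzb (α n) w) z‖ ^ 2) +
        2 * ∫ z in K, ‖cauchy (fun w => η w * α n w) z‖ ^ 2 := by
        rw [integral_add (hi1.const_mul 2) (hi2.const_mul 2), integral_const_mul,
          integral_const_mul]
    _ ≤ _ := by gcongr

end

end U3
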