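import Pool.Agent.U3.Stmts
import Pool.Agent.QJ.Ops
import Pool.Agent.QJ.Dom
import Pool.Agent.QJ.INT

/-!
Third order statistics of all eigenfunctions: INTA, integrals of dominated functions.
-/

open Complex MeasureTheory Filter Topology Set
open scoped ContDiff

namespace U3

open QE QJ

namespace INTA

open QJ.INT (intOn cont_RR le_of_sq)

/-- the integrals of `RR` over a compact set are bounded -/
lemma int_RR {V : Set ℂ} {h : ℕ → ℝ} {φ : ℕ → ℂ → ℂ} (hG : GrowA V h φ) {K : Set ℂ}
    (hK : IsCompact K) (hKV : K ⊆ V) (N : ℕ) :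
    ∃ C : ℝ, 0 ≤ C ∧ ∀ᶠ n in atTop, ∫ z in K, RR h φ N n z ≤ C := by
  rcases K.eq_empty_or_nonempty with rfl | ⟨z0, hz0⟩
  · refine ⟨0, le_refl _, Filter.Eventually.of_forall fun n => ?_⟩
    simp
  · obtain ⟨C, hC⟩ := hG.grow K hK hKV N
    obtain ⟨s, hs⟩ := hK.isBounded.subset_closedBall z0
    have h1 : K ∩ Metric.closedBall z0 (max s 1) = K :=
      inter_eq_left.mpr (hs.trans (Metric.closedBall_subset_closedBall (le_max_left _ _)))
    refine ⟨|C * max s 1|, abs_nonneg _, ?_⟩
    filter_upwards [hC] with n hn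
    have h2 := hn z0 hz0 (max s 1) (lt_of_lt_of_le one_pos (le_max_right _ _))
    rw [h1] at h2
    exact h2.trans (le_abs_self _)

/-- `h ∫ RR²` is bounded -/
lemma int_RR2 {V : Set ℂ} {h : ℕ → ℝ} {φ : ℕ → ℂ → ℂ} (hφ : ∀ n, ContDiff ℝ ∞ (φ n))
    (hG : GrowA V h φ) {K : Set ℂ} (hK : IsCompact K) (hKV : K ⊆ V) (N : ℕ) :
    ∃ C : ℝ, 0 ≤ C ∧ ∀ᶠ n in atTop, ∫ z in K, h n * RR h φ N n z ^ 2 ≤ C := by
  obtain ⟨C1, hC1, hI⟩ := int_RR hG hK hKV N
  obtain ⟨C2, hC2⟩ := hG.bdd K hK hKV N
  refine ⟨|C2| * C1, by positivity, ?_⟩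
  filter_upwards [hI, hC2] with n hn1 hn2
  calc ∫ z in K, h n * RR h φ N n z ^ 2 ≤ ∫ z in K, |C2| * RR h φ N n z := by
        refine setIntegral_mono_on
          (intOn (continuous_const.mul ((cont_RR h φ hφ N n).pow 2)) hK)
          (intOn (continuous_const.mul (cont_RR h φ hφ N n)) hK) hK.measurableSet ?_
        intro z hz
        have hR := one_le_RR h φ N n z
        calc h n * RR h φ N n z ^ 2 = (h n * RR h φ N n z) * RR h φ N n z := by ring
          _ ≤ |C2| * RR h φ N n z :=
            mul_le_mul_of_nonneg_right ((hn2 z hz).trans (le_abs_self _)) (by linarith)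
    _ = |C2| * ∫ z in K, RR h φ N n z := integral_const_mul _ _
    _ ≤ |C2| * C1 := mul_le_mul_of_nonneg_left hn1 (abs_nonneg _)

/-- `√(C R³) ≤ (δ C R² + R/δ)/2` -/
lemma three_halves {x C R δ : ℝ} (hx : 0 ≤ x) (hR : 1 ≤ R) (hδ : 0 < δ)
    (h : x ^ 2 ≤ C * R ^ 3) : x ≤ δ * |C| * R ^ 2 + R / δ := by
  have h0 : 0 ≤ δ * |C| * R ^ 2 + R / δ := by positivity
  rw [← sq_le_sq₀ hx h0]
  have h1 : x ^ 2 ≤ |C| * R ^ 3 := by
    refine h.trans (mul_le_mul_of_nonneg_right (le_abs_self C) (by positivity))
  have h2 : (δ * |C| * R ^ 2) * (R / δ) = |C| * R ^ 3 := by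
    field_simp
  have h3 : 0 ≤ δ * |C| * R ^ 2 := by positivity
  have h4 : 0 ≤ R / δ := by positivity
  nlinarith [mul_nonneg h3 h4, sq_nonneg (δ * |C| * R ^ 2), sq_nonneg (R / δ)]

end INTA

open INTA in
open QJ.INT (intOn cont_RR le_of_sq) in
/-- INTA: integrals of dominated functions -/
theorem stmtIntA : StmtIntA := by
  intro V h φ u hpos hlim hφ hG hu
  refine ⟨?_, ?_, ?_, ?_, ?_⟩
  · intro hB K hK hKV
    obtain ⟨N, C, hC⟩ := hB K hK hKV
    obtain ⟨C1, hC1⟩ := hG.grow K hK hKV N
    refine ⟨√|C| * C1, ?_⟩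
    filter_upwards [hC, hC1] with n hn hn1 z hz s hs
    have hKc : IsCompact (K ∩ Metric.closedBall z s) :=
      hK.inter_right Metric.isClosed_closedBall
    have h1 : ∀ w ∈ K ∩ Metric.closedBall z s, ‖u n w‖ ≤ √|C| * RR h φ N n w := by
      intro w hw
      have h2 := le_of_sq (C := C) (R := RR h φ N n w) 1 (norm_nonneg (u n w))
        (zero_le_one.trans (one_le_RR h φ N n w)) (hn w hw.1)
      rwa [pow_one] at h2
    calc ∫ w in K ∩ Metric.closedBall z s, ‖u n w‖
        ≤ ∫ w in K ∩ Metric.closedBall z s, √|C| * RR h φ N n w :=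
          setIntegral_mono_on (intOn (hu n).continuous.norm hKc)
            (intOn (continuous_const.mul (cont_RR h φ hφ N n)) hKc) hKc.measurableSet h1
      _ = √|C| * ∫ w in K ∩ Metric.closedBall z s, RR h φ N n w := integral_const_mul _ _
      _ ≤ √|C| * (C1 * s) := mul_le_mul_of_nonneg_left (hn1 z hz s hs) (Real.sqrt_nonneg _)
      _ = √|C| * C1 * s := by ring
  · intro hB K hK hKV
    obtain ⟨N, C, hC⟩ := hB K hK hKV
    obtain ⟨C2, hC2, hI2⟩ := int_RR2 hφ hG hK hKV N
    have hz : Tendsto (fun n => |C| * (h n * C2)) atTop (𝓝 0) := by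
      have := (hlim.mul_const C2).const_mul |C|
      simpa using this
    refine squeeze_zero' (Filter.Eventually.of_forall fun n => ?_) ?_ hz
    · exact integral_nonneg fun z => by positivity
    · filter_upwards [hC, hI2] with n hn hn1
      have hh := hpos n
      calc ∫ z in K, ‖(h n : ℂ) * u n z‖ ^ 2
          ≤ ∫ z in K, (|C| * h n) * (h n * RR h φ N n z ^ 2) := by
            refine setIntegral_mono_on
              (intOn ((continuous_const.mul (hu n).continuous).norm.pow 2) hK)
              (intOn (continuous_const.mul (continuous_const.mul ((cont_RR h φ hφ N n).pow 2))) hK)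
              hK.measurableSet ?_
            intro z hz
            have hR := one_le_RR h φ N n z
            rw [norm_mul, mul_pow, Complex.norm_real, Real.norm_eq_abs, sq_abs]
            calc h n ^ 2 * ‖u n z‖ ^ 2 ≤ h n ^ 2 * (|C| * RR h φ N n z ^ 2) := by
                  refine mul_le_mul_of_nonneg_left ((hn z hz).trans ?_) (by positivity)
                  exact mul_le_mul_of_nonneg_right (le_abs_self C) (by positivity)
              _ = (|C| * h n) * (h n * RR h φ N n z ^ 2) := by ring
        _ = (|C| * h n) * ∫ z in K, h n * RR h φ N n z ^ 2 := integral_const_mul _ _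
        _ ≤ (|C| * h n) * C2 := mul_le_mul_of_nonneg_left hn1 (by positivity)
        _ = |C| * (h n * C2) := by ring
  · intro hB K hK hKV
    obtain ⟨N, C, hC⟩ := hB K hK hKV
    obtain ⟨C1, hC1, hI⟩ := int_RR hG hK hKV N
    obtain ⟨C2, hC2, hI2⟩ := int_RR2 hφ hG hK hKV N
    rw [Metric.tendsto_atTop']
    intro ε hε
    set δ : ℝ := ε / (2 * (|C| * C2 + 1)) with hδd
    have hδ : 0 < δ := by positivity
    have hz : Tendsto (fun n => h n * (C1 / δ)) atTop (𝓝 0) := by
      have := hlim.mul_const (C1 / δ)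
      simpa using this
    have hz2 : ∀ᶠ n in atTop, h n * (C1 / δ) < ε / 2 := by
      exact hz.eventually_lt_const (by positivity)
    have hev : ∀ᶠ n in atTop, dist (h n * ∫ z in K, ‖u n z‖) 0 < ε := by
      filter_upwards [hC, hI, hI2, hz2] with n hn hn1 hn2 hn3
      have hh := hpos n
      have h1 : ∀ z ∈ K, h n * ‖u n z‖
          ≤ (δ * |C|) * (h n * RR h φ N n z ^ 2) + (h n / δ) * RR h φ N n z := by
        intro z hz
        have h2 := three_halves (norm_nonneg (u n z)) (one_le_RR h φ N n z) hδ (hn z hz)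
        calc h n * ‖u n z‖ ≤ h n * (δ * |C| * RR h φ N n z ^ 2 + RR h φ N n z / δ) :=
              mul_le_mul_of_nonneg_left h2 hh.le
          _ = _ := by ring
      have hc1 : IntegrableOn (fun z => (δ * |C|) * (h n * RR h φ N n z ^ 2)) K :=
        intOn (continuous_const.mul (continuous_const.mul ((cont_RR h φ hφ N n).pow 2))) hK
      have hc2 : IntegrableOn (fun z => (h n / δ) * RR h φ N n z) K :=
        intOn (continuous_const.mul (cont_RR h φ hφ N n)) hK
      have h2 : h n * ∫ z in K, ‖u n z‖ ≤ (δ * |C|) * C2 + (h n / δ) * C1 := by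
        calc h n * ∫ z in K, ‖u n z‖ = ∫ z in K, h n * ‖u n z‖ := (integral_const_mul _ _).symm
          _ ≤ ∫ z in K, ((δ * |C|) * (h n * RR h φ N n z ^ 2) + (h n / δ) * RR h φ N n z) :=
              setIntegral_mono_on
                (intOn (continuous_const.mul (hu n).continuous.norm) hK)
                (hc1.add hc2) hK.measurableSet h1
          _ = (∫ z in K, (δ * |C|) * (h n * RR h φ N n z ^ 2))
              + ∫ z in K, (h n / δ) * RR h φ N n z := integral_add hc1 hc2
          _ = (δ * |C|) * (∫ z in K, h n * RR h φ N n z ^ 2)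
              + (h n / δ) * ∫ z in K, RR h φ N n z := by
              exact congrArg₂ (· + ·) (integral_const_mul _ _) (integral_const_mul _ _)
          _ ≤ (δ * |C|) * C2 + (h n / δ) * C1 :=
              add_le_add (mul_le_mul_of_nonneg_left hn2 (by positivity))
                (mul_le_mul_of_nonneg_left hn1 (by positivity))
      have h3 : 0 ≤ h n * ∫ z in K, ‖u n z‖ :=
        mul_nonneg hh.le (integral_nonneg fun z => norm_nonneg _)
      rw [Real.dist_eq, sub_zero, abs_of_nonneg h3]
      refine lt_of_le_of_lt h2 ?_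
      have h4 : (δ * |C|) * C2 ≤ ε / 2 := by
        have h5 : δ * (2 * (|C| * C2 + 1)) = ε := by
          rw [hδd]
          field_simp
        nlinarith
      have h6 : (h n / δ) * C1 = h n * (C1 / δ) := by ring
      rw [h6]
      linarith
    obtain ⟨n0, hn0⟩ := Filter.eventually_atTop.mp hev
    exact ⟨n0, fun n hn => hn0 n hn.le⟩
  · intro hB K hK hKV
    obtain ⟨N, C, hC⟩ := hB K hK hKV
    obtain ⟨C2, hC2, hI2⟩ := int_RR2 hφ hG hK hKV N
    have hz : Tendsto (fun n => √|C| * (h n * C2)) atTop (𝓝 0) := by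
      have := (hlim.mul_const C2).const_mul √|C|
      simpa using this
    refine squeeze_zero' (Filter.Eventually.of_forall fun n => ?_) ?_ hz
    · exact mul_nonneg (hpos n).le (integral_nonneg fun z => norm_nonneg _)
    · filter_upwards [hC, hI2] with n hn hn1
      have hh := hpos n
      calc h n * ∫ z in K, ‖(h n : ℂ) * u n z‖
          ≤ h n * ∫ z in K, √|C| * (h n * RR h φ N n z ^ 2) := by
            refine mul_le_mul_of_nonneg_left ?_ hh.le
            refine setIntegral_mono_on
              (intOn (continuous_const.mul (hu n).continuous).norm hK)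
              (intOn (continuous_const.mul (continuous_const.mul ((cont_RR h φ hφ N n).pow 2))) hK)
              hK.measurableSet ?_
            intro z hz
            have h2 := le_of_sq (C := C) (R := RR h φ N n z) 2 (norm_nonneg (u n z))
              (zero_le_one.trans (one_le_RR h φ N n z)) (hn z hz)
            rw [norm_mul, Complex.norm_real, Real.norm_eq_abs, abs_of_pos hh]
            calc h n * ‖u n z‖ ≤ h n * (√|C| * RR h φ N n z ^ 2) :=
                  mul_le_mul_of_nonneg_left h2 hh.le
              _ = √|C| * (h n * RR h φ N n z ^ 2) := by ring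
        _ = h n * (√|C| * ∫ z in K, h n * RR h φ N n z ^ 2) := by rw [integral_const_mul]
        _ ≤ h n * (√|C| * C2) :=
            mul_le_mul_of_nonneg_left (mul_le_mul_of_nonneg_left hn1 (Real.sqrt_nonneg _)) hh.le
        _ = √|C| * (h n * C2) := by ring
  · intro hB hS K hK hKV
    obtain ⟨N, C, hC⟩ := hB K hK hKV
    have hz : Tendsto (fun n => √|C| * (h n * ∫ z in K, RR h φ N n z ^ 2)) atTop (𝓝 0) := by
      have := (hS K hK hKV N).const_mul √|C|
      simpa using this
    refine squeeze_zero' (Filter.Eventually.of_forall fun n => ?_) ?_ hz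
    · exact mul_nonneg (hpos n).le (integral_nonneg fun z => norm_nonneg _)
    · filter_upwards [hC] with n hn
      have hh := hpos n
      calc h n * ∫ z in K, ‖u n z‖ ≤ h n * ∫ z in K, √|C| * RR h φ N n z ^ 2 := by
            refine mul_le_mul_of_nonneg_left ?_ hh.le
            refine setIntegral_mono_on (intOn (hu n).continuous.norm hK)
              (intOn (continuous_const.mul ((cont_RR h φ hφ N n).pow 2)) hK)
              hK.measurableSet ?_
            intro z hz
            exact le_of_sq (C := C) (R := RR h φ N n z) 2 (norm_nonneg (u n z))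
              (zero_le_one.trans (one_le_RR h φ N n z)) (hn z hz)
        _ = h n * (√|C| * ∫ z in K, RR h φ N n z ^ 2) := by rw [integral_const_mul]
        _ = √|C| * (h n * ∫ z in K, RR h φ N n z ^ 2) := by ring

end U3
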