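import Pool.Agent.U3.Stmts
import Pool.Agent.QJ.Ops
import Pool.Agent.QJ.Dom

/-!
The transport of the kernel for the other operator.
-/

open Complex MeasureTheory Filter Topology Set
open scoped ContDiff

namespace U3

open QE QJ

noncomputable section

namespace KEM

variable {β : ℝ → ℝ} {σ : ℂ → ℝ}

lemma contDiff_sg (hσ : ContDiff ℝ ∞ σ) : ContDiff ℝ ∞ (sg σ) := by
  unfold sg; exact contDiff_dz (contDiff_sig hσ)

lemma contDiff_r2l (hσ : ContDiff ℝ ∞ σ) (w : ℂ) : ContDiff ℝ ∞ (fun x => r2 σ x w) := by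
  unfold r2
  exact (Real.contDiff_exp.comp (hσ.add contDiff_const)).mul
    ((contDiff_const.sub contDiff_id).norm_sq ℝ)

lemma contDiff_r2r (hσ : ContDiff ℝ ∞ σ) (z : ℂ) : ContDiff ℝ ∞ (fun y => r2 σ z y) := by
  unfold r2
  exact (Real.contDiff_exp.comp (contDiff_const.add hσ)).mul
    ((contDiff_id.sub contDiff_const).norm_sq ℝ)

lemma contDiff_gbl (hβ : ContDiff ℝ ∞ β) (hσ : ContDiff ℝ ∞ σ) (ε : ℝ) (w : ℂ) :
    ContDiff ℝ ∞ (fun x => gb β σ ε x w) := by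
  unfold gb
  exact (hβ.comp ((contDiff_r2l hσ w).div_const _)).div_const _

lemma contDiff_gbr (hβ : ContDiff ℝ ∞ β) (hσ : ContDiff ℝ ∞ σ) (ε : ℝ) (z : ℂ) :
    ContDiff ℝ ∞ (fun y => gb β σ ε z y) := by
  unfold gb
  exact (hβ.comp ((contDiff_r2r hσ z).div_const _)).div_const _

lemma contDiff_kel (hβ : ContDiff ℝ ∞ β) (hσ : ContDiff ℝ ∞ σ) (ε : ℝ) (w : ℂ) :
    ContDiff ℝ ∞ (fun x => ke β σ ε x w) := by
  unfold ke
  exact contDiff_const.mul (contDiff_gbl hβ hσ ε w)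

lemma ta_ne (z w : ℂ) : ta σ z w ≠ 0 := by unfold ta; exact Complex.exp_ne_zero _

lemma ta_zpow (z w : ℂ) (m : ℤ) : (ta σ z w)⁻¹ ^ m
    = Complex.exp (-(m : ℂ) * ((((sg σ z + sg σ w) * (w - z)).im : ℝ) * Complex.I)) := by
  unfold ta
  rw [← Complex.exp_neg, ← Complex.exp_int_mul]
  congr 1; ring

lemma conj_ta (z w : ℂ) (m : ℤ) : (starRingEnd ℂ) ((ta σ z w)⁻¹ ^ (-m)) = (ta σ z w)⁻¹ ^ m := by
  rw [ta_zpow, ta_zpow, ← Complex.exp_conj]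
  congr 1
  have h1 : (starRingEnd ℂ) (m : ℂ) = m := by
    have h2 := conj_ofReal ((m : ℤ) : ℝ)
    rwa [ofReal_intCast] at h2
  simp only [map_mul, conj_ofReal, conj_I, Int.cast_neg, neg_neg, h1]
  ring

lemma contDiff_tal (hσ : ContDiff ℝ ∞ σ) (w : ℂ) (m : ℤ) :
    ContDiff ℝ ∞ (fun x => (ta σ x w)⁻¹ ^ m) := by
  have e : (fun x => (ta σ x w)⁻¹ ^ m) = fun x => Complex.exp (-(m : ℂ) *
      ((((sg σ x + sg σ w) * (w - x)).im : ℝ) * Complex.I)) := by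
    funext x; exact ta_zpow x w m
  rw [e]
  refine ContDiff.cexp (contDiff_const.mul (ContDiff.mul ?_ contDiff_const))
  exact ofRealCLM.contDiff.comp (imCLM.contDiff.comp
    (((contDiff_sg hσ).add contDiff_const).mul (contDiff_const.sub contDiff_id)))

lemma contDiff_tar (hσ : ContDiff ℝ ∞ σ) (z : ℂ) (m : ℤ) :
    ContDiff ℝ ∞ (fun y => (ta σ z y)⁻¹ ^ m) := by
  have e : (fun y => (ta σ z y)⁻¹ ^ m) = fun y => Complex.exp (-(m : ℂ) *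
      ((((sg σ z + sg σ y) * (y - z)).im : ℝ) * Complex.I)) := by
    funext y; exact ta_zpow z y m
  rw [e]
  refine ContDiff.cexp (contDiff_const.mul (ContDiff.mul ?_ contDiff_const))
  exact ofRealCLM.contDiff.comp (imCLM.contDiff.comp
    ((contDiff_const.add (contDiff_sg hσ)).mul (contDiff_id.sub contDiff_const)))

lemma diff1 (hβ : ContDiff ℝ ∞ β) (hσ : ContDiff ℝ ∞ σ) (ε : ℝ) (w : ℂ) (m : ℤ) (z : ℂ) :
    DifferentiableAt ℝ (fun x => (ke β σ ε x w : ℂ) * (ta σ x w)⁻¹ ^ m) z :=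
  cd_at ((ofRealCLM.contDiff.comp (contDiff_kel hβ hσ ε w)).mul (contDiff_tal hσ w m)) z

lemma diff2 (hβ : ContDiff ℝ ∞ β) (hσ : ContDiff ℝ ∞ σ) (ε : ℝ) (z : ℂ) (m : ℤ) (w : ℂ) :
    DifferentiableAt ℝ (fun y => (gb β σ ε z y : ℂ) * (ta σ z y)⁻¹ ^ m) w :=
  cd_at ((ofRealCLM.contDiff.comp (contDiff_gbr hβ hσ ε z)).mul (contDiff_tar hσ z m)) w

lemma key (hβ : ContDiff ℝ ∞ β) (hσ : ContDiff ℝ ∞ σ) (ε : ℝ) (k : ℤ) (z w : ℂ) :
    D σ (k - 1) (fun x => (ke β σ ε x w : ℂ) * (ta σ x w)⁻¹ ^ (k - 1)) z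
        + ex σ 2 w * D σ (-k) (fun y => (gb β σ ε z y : ℂ) * (ta σ z y)⁻¹ ^ k) w
      = (starRingEnd ℂ) (Db σ (-k + 1) (fun x => (ke β σ ε x w : ℂ) * (ta σ x w)⁻¹ ^ (-k + 1)) z
        + ex σ 2 w * Db σ (- -k) (fun y => (gb β σ ε z y : ℂ) * (ta σ z y)⁻¹ ^ (-k)) w) := by
  have h1 := D_conj (σ := σ) (k - 1) hσ (diff1 hβ hσ ε w (-k + 1) z)
  have h2 := D_conj (σ := σ) (-k) hσ (diff2 hβ hσ ε z (-k) w)
  have e1 : (fun x => (starRingEnd ℂ) ((ke β σ ε x w : ℂ) * (ta σ x w)⁻¹ ^ (-k + 1)))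
      = fun x => (ke β σ ε x w : ℂ) * (ta σ x w)⁻¹ ^ (k - 1) := by
    funext x
    rw [map_mul, conj_ofReal, show (-k + 1 : ℤ) = -(k - 1) by ring, conj_ta]
  have e2 : (fun y => (starRingEnd ℂ) ((gb β σ ε z y : ℂ) * (ta σ z y)⁻¹ ^ (-k)))
      = fun y => (gb β σ ε z y : ℂ) * (ta σ z y)⁻¹ ^ k := by
    funext y
    rw [map_mul, conj_ofReal, conj_ta]
  rw [e1, show (-(k - 1) : ℤ) = -k + 1 by ring] at h1
  rw [e2] at h2
  rw [h1, h2, map_add, map_mul, conj_ex]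

end KEM

open KEM in
theorem stmtKem (hKer : StmtKer) : StmtKem := by
  intro β σ k K hβ hσ hK
  obtain ⟨C, ε₀, hC, hε₀, h⟩ := hKer β σ (-k) K hβ hσ hK
  refine ⟨C, ε₀, hC, hε₀, fun ε h1 h2 z hz w hw => ?_⟩
  have h3 := h ε h1 h2 z hz w hw
  rw [key hβ.smooth hσ ε k z w]
  refine ⟨?_, fun h4 => ?_⟩
  · rw [RCLike.norm_conj]; exact h3.1
  · rw [h3.2 h4, map_zero]

end

end U3
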