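import Pool.Agent.U3.Stmts
import Pool.Agent.QJ.Ops
import Pool.Agent.QJ.Dom

/-!
KER: the transport of the kernel.
-/

open Complex MeasureTheory Filter Topology Set
open scoped ContDiff

namespace U3

open QE QJ

noncomputable section

namespace KER

variable {σ : ℂ → ℝ}

/-! ### Calculus -/

lemma dzb_cexp {f : ℂ → ℂ} {z : ℂ} (hf : DifferentiableAt ℝ f z) :
    dzb (fun x => Complex.exp (f x)) z = Complex.exp (f z) * dzb f z := by
  have h := (hf.hasFDerivAt.cexp).fderiv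
  unfold dzb
  rw [h]
  simp only [smul_apply, smul_eq_mul]
  ring

lemma fderiv_eq (f : ℂ → ℂ) (z v : ℂ) :
    fderiv ℝ f z v = dz f z * v + dzb f z * (starRingEnd ℂ) v := by
  have h : v = (v.re : ℝ) • (1 : ℂ) + (v.im : ℝ) • Complex.I := by
    simp
  have h2 : fderiv ℝ f z v = (v.re : ℂ) * fderiv ℝ f z 1 + (v.im : ℂ) * fderiv ℝ f z Complex.I := by
    conv_lhs => rw [h]
    rw [map_add, map_smul, map_smul, Complex.real_smul, Complex.real_smul]
  have h3 : v = (v.re : ℂ) + (v.im : ℂ) * Complex.I := (Complex.re_add_im v).symm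
  have h4 : (starRingEnd ℂ) v = (v.re : ℂ) - (v.im : ℂ) * Complex.I := by
    apply Complex.ext <;> simp
  rw [h2, h4]
  unfold dz dzb
  linear_combination (-(1 / 2) * (fderiv ℝ f z 1 - Complex.I * fderiv ℝ f z Complex.I)) * h3 +
    ((v.im : ℂ) * fderiv ℝ f z Complex.I) * Complex.I_sq

lemma dz_id (z : ℂ) : dz (fun x => x) z = 1 := by
  unfold dz
  rw [fderiv_fun_id]
  simp only [ContinuousLinearMap.id_apply]
  linear_combination (-1 / 2 : ℂ) * I_mul_I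

lemma dzb_id (z : ℂ) : dzb (fun x => x) z = 0 := by
  unfold dzb
  rw [fderiv_fun_id]
  simp only [ContinuousLinearMap.id_apply]
  linear_combination (1 / 2 : ℂ) * I_mul_I

lemma dzb_comp_real {β : ℝ → ℝ} {r : ℂ → ℝ} {z : ℂ} (hβ : DifferentiableAt ℝ β (r z))
    (hr : DifferentiableAt ℝ r z) :
    dzb (fun x => (β (r x) : ℂ)) z = ((deriv β (r z) : ℝ) : ℂ) * dzb (fun x => (r x : ℂ)) z := by
  have h1 : HasFDerivAt (fun x => β (r x)) (deriv β (r z) • fderiv ℝ r z) z :=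
    hβ.hasDerivAt.comp_hasFDerivAt z hr.hasFDerivAt
  have h2 : HasFDerivAt (fun x => (β (r x) : ℂ)) (ofRealCLM.comp (deriv β (r z) • fderiv ℝ r z)) z :=
    ofRealCLM.hasFDerivAt.comp z h1
  have h3 : HasFDerivAt (fun x => (r x : ℂ)) (ofRealCLM.comp (fderiv ℝ r z)) z :=
    ofRealCLM.hasFDerivAt.comp z hr.hasFDerivAt
  unfold dzb
  rw [h2.fderiv, h3.fderiv]
  simp only [ContinuousLinearMap.comp_apply, smul_apply, smul_eq_mul, ofRealCLM_apply]
  push_cast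
  ring

/-- the exponent of the phase -/
def LL (σ : ℂ → ℝ) (z w : ℂ) : ℂ :=
  (1 / 2) * ((sg σ z + sg σ w) * (w - z) - (starRingEnd ℂ) ((sg σ z + sg σ w) * (w - z)))

lemma ta_eq (σ : ℂ → ℝ) (z w : ℂ) : ta σ z w = Complex.exp (LL σ z w) := by
  unfold ta LL
  congr 1
  rw [im_eq_sub_conj]
  field_simp

lemma ta_zpow (σ : ℂ → ℝ) (z w : ℂ) (m : ℤ) :
    (ta σ z w)⁻¹ ^ m = Complex.exp (-(m : ℂ) * LL σ z w) := by
  rw [ta_eq, ← Complex.exp_neg, ← Complex.exp_int_mul]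
  congr 1
  ring

lemma norm_ta (σ : ℂ → ℝ) (z w : ℂ) : ‖ta σ z w‖ = 1 := by
  unfold ta
  exact Complex.norm_exp_ofReal_mul_I _

lemma norm_ta_zpow (σ : ℂ → ℝ) (z w : ℂ) (m : ℤ) : ‖(ta σ z w)⁻¹ ^ m‖ = 1 := by
  rw [norm_zpow, norm_inv, norm_ta, inv_one, one_zpow]

lemma contDiff_sg (hσ : ContDiff ℝ ∞ σ) : ContDiff ℝ ∞ (sg σ) := contDiff_dz (contDiff_sig hσ)

lemma conj_sg (hσ : ContDiff ℝ ∞ σ) (z : ℂ) :
    dzb (fun w => (σ w : ℂ)) z = (starRingEnd ℂ) (sg σ z) := by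
  have h := dzb_conj (cd_at (contDiff_sig hσ) z)
  simp only [conj_ofReal] at h
  exact h

lemma dzb_LL_left (hσ : ContDiff ℝ ∞ σ) (z w : ℂ) :
    dzb (fun x => LL σ x w) z = (1 / 2) * (dzb (sg σ) z * (w - z)
      - (starRingEnd ℂ) (dz (sg σ) z) * (starRingEnd ℂ) (w - z)
      + (starRingEnd ℂ) (sg σ z + sg σ w)) := by
  have d1 : DifferentiableAt ℝ (sg σ) z := cd_at (contDiff_sg hσ) z
  have d2 : DifferentiableAt ℝ (fun x => sg σ x + sg σ w) z := d1.add_const _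
  have d3 : DifferentiableAt ℝ (fun x : ℂ => w - x) z := (differentiableAt_const w).sub differentiableAt_id
  have d4 : DifferentiableAt ℝ (fun x => (sg σ x + sg σ w) * (w - x)) z := d2.fun_mul d3
  have d5 : DifferentiableAt ℝ (fun x => (starRingEnd ℂ) ((sg σ x + sg σ w) * (w - x))) z :=
    conjCLE.differentiableAt.comp z d4
  have e1 : dzb (fun x => (sg σ x + sg σ w) * (w - x)) z = dzb (sg σ) z * (w - z) := by
    rw [dzb_mul d2 d3, dzb_add d1 (differentiableAt_const _), dzb_const,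
      dzb_sub (differentiableAt_const w) differentiableAt_fun_id, dzb_const, dzb_id]
    ring
  have e2 : dz (fun x => (sg σ x + sg σ w) * (w - x)) z
      = dz (sg σ) z * (w - z) - (sg σ z + sg σ w) := by
    rw [dz_mul d2 d3, dz_add d1 (differentiableAt_const _), dz_const,
      dz_sub (differentiableAt_const w) differentiableAt_fun_id, dz_const, dz_id]
    ring
  unfold LL
  rw [dzb_const_mul _ (d4.fun_sub d5), dzb_sub d4 d5, dzb_conj d4, e1, e2]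
  simp only [map_sub, map_mul, map_add]
  ring

lemma dzb_LL_right (hσ : ContDiff ℝ ∞ σ) (z w : ℂ) :
    dzb (fun y => LL σ z y) w = (1 / 2) * (dzb (sg σ) w * (w - z)
      - (starRingEnd ℂ) (dz (sg σ) w) * (starRingEnd ℂ) (w - z)
      - (starRingEnd ℂ) (sg σ z + sg σ w)) := by
  have d1 : DifferentiableAt ℝ (sg σ) w := cd_at (contDiff_sg hσ) w
  have d2 : DifferentiableAt ℝ (fun y => sg σ z + sg σ y) w := (differentiableAt_const _).fun_add d1
  have d3 : DifferentiableAt ℝ (fun y : ℂ => y - z) w := differentiableAt_fun_id.fun_sub (differentiableAt_const z)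
  have d4 : DifferentiableAt ℝ (fun y => (sg σ z + sg σ y) * (y - z)) w := d2.fun_mul d3
  have d5 : DifferentiableAt ℝ (fun y => (starRingEnd ℂ) ((sg σ z + sg σ y) * (y - z))) w :=
    conjCLE.differentiableAt.comp w d4
  have e1 : dzb (fun y => (sg σ z + sg σ y) * (y - z)) w = dzb (sg σ) w * (w - z) := by
    rw [dzb_mul d2 d3, dzb_add (differentiableAt_const _) d1, dzb_const,
      dzb_sub differentiableAt_fun_id (differentiableAt_const z), dzb_const, dzb_id]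
    ring
  have e2 : dz (fun y => (sg σ z + sg σ y) * (y - z)) w
      = dz (sg σ) w * (w - z) + (sg σ z + sg σ w) := by
    rw [dz_mul d2 d3, dz_add (differentiableAt_const _) d1, dz_const,
      dz_sub differentiableAt_fun_id (differentiableAt_const z), dz_const, dz_id]
    ring
  unfold LL
  rw [dzb_const_mul _ (d4.fun_sub d5), dzb_sub d4 d5, dzb_conj d4, e1, e2]
  simp only [map_sub, map_mul, map_add]
  ring

lemma r2_cast (σ : ℂ → ℝ) (z w : ℂ) :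
    (r2 σ z w : ℂ) = ex σ 1 z * (ex σ 1 w * ((w - z) * (starRingEnd ℂ) (w - z))) := by
  unfold r2 ex
  rw [Complex.mul_conj, normSq_eq_norm_sq, Real.exp_add]
  push_cast
  ring_nf

lemma dzb_r2_left (hσ : ContDiff ℝ ∞ σ) (z w : ℂ) :
    dzb (fun x => (r2 σ x w : ℂ)) z
      = (starRingEnd ℂ) (sg σ z) * r2 σ z w - ex σ 1 z * ex σ 1 w * (w - z) := by
  have e0 : (fun x => (r2 σ x w : ℂ))
      = fun x => ex σ 1 x * (ex σ 1 w * ((w - x) * (starRingEnd ℂ) (w - x))) := by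
    funext x; exact r2_cast σ x w
  have d1 : DifferentiableAt ℝ (ex σ 1) z := cd_at (contDiff_ex hσ _) z
  have d3 : DifferentiableAt ℝ (fun x : ℂ => w - x) z := (differentiableAt_const w).sub differentiableAt_id
  have d4 : DifferentiableAt ℝ (fun x : ℂ => (starRingEnd ℂ) (w - x)) z :=
    conjCLE.differentiableAt.comp z d3
  have e1 : dzb (fun x : ℂ => w - x) z = 0 := by
    rw [dzb_sub (differentiableAt_const w) differentiableAt_fun_id, dzb_const, dzb_id, sub_zero]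
  have e2 : dzb (fun x : ℂ => (starRingEnd ℂ) (w - x)) z = -1 := by
    rw [dzb_conj d3, dz_sub (differentiableAt_const w) differentiableAt_fun_id, dz_const, dz_id]
    simp
  rw [e0, dzb_mul d1 ((d3.fun_mul d4).const_mul _), dzb_const_mul _ (d3.fun_mul d4),
    dzb_mul d3 d4, e1, e2, dzb_ex hσ, conj_sg hσ, r2_cast]
  push_cast
  ring

lemma dzb_r2_right (hσ : ContDiff ℝ ∞ σ) (z w : ℂ) :
    dzb (fun y => (r2 σ z y : ℂ)) w
      = (starRingEnd ℂ) (sg σ w) * r2 σ z w + ex σ 1 z * ex σ 1 w * (w - z) := by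
  have e0 : (fun y => (r2 σ z y : ℂ))
      = fun y => ex σ 1 z * (ex σ 1 y * ((y - z) * (starRingEnd ℂ) (y - z))) := by
    funext y; exact r2_cast σ z y
  have d1 : DifferentiableAt ℝ (ex σ 1) w := cd_at (contDiff_ex hσ _) w
  have d3 : DifferentiableAt ℝ (fun y : ℂ => y - z) w :=
    differentiableAt_fun_id.fun_sub (differentiableAt_const z)
  have d4 : DifferentiableAt ℝ (fun y : ℂ => (starRingEnd ℂ) (y - z)) w :=
    conjCLE.differentiableAt.comp w d3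
  have e1 : dzb (fun y : ℂ => y - z) w = 0 := by
    rw [dzb_sub differentiableAt_fun_id (differentiableAt_const z), dzb_const, dzb_id, sub_zero]
  have e2 : dzb (fun y : ℂ => (starRingEnd ℂ) (y - z)) w = 1 := by
    rw [dzb_conj d3, dz_sub differentiableAt_fun_id (differentiableAt_const z), dz_const, dz_id]
    simp
  rw [e0, dzb_const_mul _ (d1.fun_mul (d3.fun_mul d4)), dzb_mul d1 (d3.fun_mul d4),
    dzb_mul d3 d4, e1, e2, dzb_ex hσ, conj_sg hσ, r2_cast]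
  push_cast
  ring

/-! ### The formula -/

lemma contDiff_r2_left (hσ : ContDiff ℝ ∞ σ) (w : ℂ) : ContDiff ℝ ∞ (fun x => r2 σ x w) := by
  unfold r2
  exact (Real.contDiff_exp.comp (hσ.add contDiff_const)).mul ((contDiff_const.sub contDiff_id).norm_sq ℝ)

lemma contDiff_r2_right (hσ : ContDiff ℝ ∞ σ) (z : ℂ) : ContDiff ℝ ∞ (fun y => r2 σ z y) := by
  unfold r2
  exact (Real.contDiff_exp.comp (contDiff_const.add hσ)).mul ((contDiff_id.sub contDiff_const).norm_sq ℝ)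

/-- the derivative of the profile -/
def b1 (β : ℝ → ℝ) (σ : ℂ → ℝ) (ε : ℝ) (z w : ℂ) : ℂ :=
  ((deriv β (r2 σ z w / ε ^ 2) : ℝ) : ℂ) / ε ^ 4

lemma dzb_gb {β : ℝ → ℝ} (hβ : ContDiff ℝ ∞ β) (ε : ℝ) {r : ℂ → ℝ} {z : ℂ}
    (hr : DifferentiableAt ℝ r z) :
    DifferentiableAt ℝ (fun x => ((β (r x / ε ^ 2) / ε ^ 2 : ℝ) : ℂ)) z ∧
    dzb (fun x => ((β (r x / ε ^ 2) / ε ^ 2 : ℝ) : ℂ)) z
      = ((deriv β (r z / ε ^ 2) : ℝ) : ℂ) / ε ^ 4 * dzb (fun x => (r x : ℂ)) z := by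
  have h1 : DifferentiableAt ℝ (fun x => r x / ε ^ 2) z := by
    simpa only [div_eq_mul_inv] using hr.mul_const (ε ^ 2)⁻¹
  have h2 : DifferentiableAt ℝ β (r z / ε ^ 2) := (hβ.differentiable (by simp)) _
  have h3 : DifferentiableAt ℝ (fun x => (β (r x / ε ^ 2) : ℂ)) z := by
    have : DifferentiableAt ℝ (fun x => β (r x / ε ^ 2)) z :=
      DifferentiableAt.comp z (f := fun x => r x / ε ^ 2) h2 h1
    exact ofRealCLM.differentiableAt.comp z this
  have h4 : DifferentiableAt ℝ (fun x => (r x : ℂ)) z := ofRealCLM.differentiableAt.comp z hr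
  have e0 : (fun x => ((β (r x / ε ^ 2) / ε ^ 2 : ℝ) : ℂ))
      = fun x => ((ε : ℂ) ^ 2)⁻¹ * (β (r x / ε ^ 2) : ℂ) := by
    funext x; push_cast; ring
  have e1 : (fun x => ((r x / ε ^ 2 : ℝ) : ℂ)) = fun x => ((ε : ℂ) ^ 2)⁻¹ * (r x : ℂ) := by
    funext x; push_cast; ring
  have e2 : dzb (fun x => (β (r x / ε ^ 2) : ℂ)) z
      = ((deriv β (r z / ε ^ 2) : ℝ) : ℂ) * (((ε : ℂ) ^ 2)⁻¹ * dzb (fun x => (r x : ℂ)) z) := by
    rw [dzb_comp_real (r := fun x => r x / ε ^ 2) h2 h1, e1, dzb_const_mul _ h4]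
  rw [e0]
  refine ⟨h3.const_mul _, ?_⟩
  rw [dzb_const_mul _ h3, e2]
  ring

/-- the exponent -/
def AA (σ : ℂ → ℝ) (z w : ℂ) : ℂ := σ z - σ w + LL σ z w

/-- the bracket -/
def BB (σ : ℂ → ℝ) (z w : ℂ) : ℂ :=
  (starRingEnd ℂ) (sg σ z) * (starRingEnd ℂ) (w - z) - 1
    + Complex.exp (AA σ z w) * (1 + (starRingEnd ℂ) (sg σ w) * (starRingEnd ℂ) (w - z))

/-- the first remainder -/
def R1 (σ : ℂ → ℝ) (z w : ℂ) : ℂ :=
  (starRingEnd ℂ) (sg σ z) - (1 / 2) * (dzb (sg σ) z * (w - z)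
      - (starRingEnd ℂ) (dz (sg σ) z) * (starRingEnd ℂ) (w - z)
      + (starRingEnd ℂ) (sg σ z + sg σ w))

/-- the second remainder -/
def R2 (σ : ℂ → ℝ) (z w : ℂ) : ℂ :=
  (starRingEnd ℂ) (sg σ w) + (1 / 2) * (dzb (sg σ) w * (w - z)
      - (starRingEnd ℂ) (dz (sg σ) w) * (starRingEnd ℂ) (w - z)
      - (starRingEnd ℂ) (sg σ z + sg σ w))

lemma differentiableAt_LL_left (hσ : ContDiff ℝ ∞ σ) (z w : ℂ) :
    DifferentiableAt ℝ (fun x => LL σ x w) z := by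
  have d1 : DifferentiableAt ℝ (sg σ) z := cd_at (contDiff_sg hσ) z
  have d3 : DifferentiableAt ℝ (fun x : ℂ => w - x) z := (differentiableAt_const w).sub differentiableAt_id
  have d4 : DifferentiableAt ℝ (fun x => (sg σ x + sg σ w) * (w - x)) z := (d1.add_const _).fun_mul d3
  have d5 : DifferentiableAt ℝ (fun x => (starRingEnd ℂ) ((sg σ x + sg σ w) * (w - x))) z :=
    conjCLE.differentiableAt.comp z d4
  exact (d4.fun_sub d5).const_mul _

lemma differentiableAt_LL_right (hσ : ContDiff ℝ ∞ σ) (z w : ℂ) :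
    DifferentiableAt ℝ (fun y => LL σ z y) w := by
  have d1 : DifferentiableAt ℝ (sg σ) w := cd_at (contDiff_sg hσ) w
  have d3 : DifferentiableAt ℝ (fun y : ℂ => y - z) w := differentiableAt_fun_id.fun_sub (differentiableAt_const z)
  have d4 : DifferentiableAt ℝ (fun y => (sg σ z + sg σ y) * (y - z)) w :=
    ((differentiableAt_const _).fun_add d1).fun_mul d3
  have d5 : DifferentiableAt ℝ (fun y => (starRingEnd ℂ) ((sg σ z + sg σ y) * (y - z))) w :=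
    conjCLE.differentiableAt.comp w d4
  exact (d4.fun_sub d5).const_mul _

lemma formula {β : ℝ → ℝ} (hβ : ContDiff ℝ ∞ β) (hσ : ContDiff ℝ ∞ σ) (k : ℤ) (ε : ℝ) (z w : ℂ) :
    Db σ (k + 1) (fun x => (ke β σ ε x w : ℂ) * (ta σ x w)⁻¹ ^ (k + 1)) z
        + ex σ 2 w * Db σ (-k) (fun y => (gb β σ ε z y : ℂ) * (ta σ z y)⁻¹ ^ k) w
      = 2 * ex σ (-1) z * ex σ 2 w * (ta σ z w)⁻¹ ^ (k + 1)
          * (b1 β σ ε z w * (ex σ 1 z * ex σ 1 w * (w - z)) * BB σ z w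
            + (k + 1) * (gb β σ ε z w : ℂ) * R1 σ z w)
        + 2 * ex σ 2 w * ex σ (-1) w * (ta σ z w)⁻¹ ^ k * ((-k) * (gb β σ ε z w : ℂ) * R2 σ z w) := by
  -- the functions
  have g1 := dzb_gb hβ ε (r := fun x => r2 σ x w) (z := z)
    ((contDiff_r2_left hσ w).differentiable (by simp) z)
  have g2 := dzb_gb hβ ε (r := fun y => r2 σ z y) (z := w)
    ((contDiff_r2_right hσ z).differentiable (by simp) w)
  have l1 := differentiableAt_LL_left hσ z w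
  have l2 := differentiableAt_LL_right hσ z w
  have f1 : (fun x => (ke β σ ε x w : ℂ) * (ta σ x w)⁻¹ ^ (k + 1))
      = fun x => ex σ 2 w * (((β (r2 σ x w / ε ^ 2) / ε ^ 2 : ℝ) : ℂ)
        * Complex.exp (-((k + 1 : ℤ) : ℂ) * LL σ x w)) := by
    funext x
    rw [ta_zpow]
    unfold ke gb ex
    push_cast
    ring
  have f2 : (fun y => (gb β σ ε z y : ℂ) * (ta σ z y)⁻¹ ^ k)
      = fun y => ((β (r2 σ z y / ε ^ 2) / ε ^ 2 : ℝ) : ℂ) * Complex.exp (-(k : ℂ) * LL σ z y) := by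
    funext y
    rw [ta_zpow]
    rfl
  have x1 : DifferentiableAt ℝ (fun x => Complex.exp (-((k + 1 : ℤ) : ℂ) * LL σ x w)) z :=
    (l1.const_mul _).cexp
  have x2 : DifferentiableAt ℝ (fun y => Complex.exp (-(k : ℂ) * LL σ z y)) w :=
    (l2.const_mul _).cexp
  have y1 : dzb (fun x => Complex.exp (-((k + 1 : ℤ) : ℂ) * LL σ x w)) z
      = Complex.exp (-((k + 1 : ℤ) : ℂ) * LL σ z w) * (-((k + 1 : ℤ) : ℂ) * dzb (fun x => LL σ x w) z) := by
    rw [dzb_cexp (l1.const_mul _), dzb_const_mul _ l1]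
  have y2 : dzb (fun y => Complex.exp (-(k : ℂ) * LL σ z y)) w
      = Complex.exp (-(k : ℂ) * LL σ z w) * (-(k : ℂ) * dzb (fun y => LL σ z y) w) := by
    rw [dzb_cexp (l2.const_mul _), dzb_const_mul _ l2]
  rw [f1, f2, Db_eq hσ _ ((g1.1.fun_mul x1).const_mul _), Db_eq hσ _ (g2.1.fun_mul x2),
    dzb_const_mul _ (g1.1.fun_mul x1), dzb_mul g1.1 x1, dzb_mul g2.1 x2, g1.2, g2.2, y1, y2,
    dzb_LL_left hσ, dzb_LL_right hσ, dzb_r2_left hσ, dzb_r2_right hσ, conj_sg hσ, conj_sg hσ,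
    ta_zpow, ta_zpow]
  have h1 : Complex.exp (-((k + 1 : ℤ) : ℂ) * LL σ z w) * Complex.exp (AA σ z w)
      = ex σ 1 z * ex σ (-1) w * Complex.exp (-(k : ℂ) * LL σ z w) := by
    rw [ex_ofReal, ex_ofReal, ← Complex.exp_add, ← Complex.exp_add, ← Complex.exp_add]
    congr 1
    unfold AA
    push_cast
    ring
  have h2 : ex σ (-1) z * ex σ 1 z = 1 := by
    rw [ex_mul, show (-1 : ℤ) + 1 = 0 by norm_num, ex_zero]
  have h3 := r2_cast σ z w
  have hg : (gb β σ ε z w : ℂ) = ((β (r2 σ z w / ε ^ 2) / ε ^ 2 : ℝ) : ℂ) := rfl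
  rw [hg]
  unfold BB b1 R1 R2
  generalize Complex.exp (AA σ z w) = EA at h1 ⊢
  generalize Complex.exp (-((k + 1 : ℤ) : ℂ) * LL σ z w) = T1 at h1 ⊢
  generalize Complex.exp (-(k : ℂ) * LL σ z w) = T0 at h1 ⊢
  generalize ex σ (-1) w = ew at h1 ⊢
  generalize ex σ (-1) z = ez at h1 h2 ⊢
  rw [h3]
  generalize ex σ 1 z = fz at h1 h2 ⊢
  generalize ex σ 1 w = fw
  generalize ((deriv β (r2 σ z w / ε ^ 2) : ℝ) : ℂ) / (ε : ℂ) ^ 4 = bb
  generalize ((β (r2 σ z w / ε ^ 2) / ε ^ 2 : ℝ) : ℂ) = gg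
  generalize (starRingEnd ℂ) (w - z) = db
  generalize w - z = d
  simp only [map_add]
  generalize (starRingEnd ℂ) (sg σ z) = sz
  generalize (starRingEnd ℂ) (sg σ w) = sw
  push_cast
  linear_combination (-2 * ez * ex σ 2 w * bb * (fz * fw * d) * (1 + sw * db)) * h1
    + (-2 * ex σ 2 w * bb * (fz * fw * d) * (1 + sw * db) * ew * T0) * h2

/-! ### Bounds -/

lemma bnd {G : Type*} [NormedAddCommGroup G] {F : ℂ → G} (hF : Continuous F) (R : ℝ) :
    ∃ M, 0 ≤ M ∧ ∀ x ∈ Metric.closedBall (0 : ℂ) R, ‖F x‖ ≤ M := by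
  obtain ⟨M, hM⟩ := (isCompact_closedBall (0 : ℂ) R).exists_bound_of_continuousOn hF.continuousOn
  exact ⟨max M 0, le_max_right _ _, fun x hx => (hM x hx).trans (le_max_left _ _)⟩

lemma lip {G : Type*} [NormedAddCommGroup G] [NormedSpace ℝ G] {F : ℂ → G}
    (hF : ContDiff ℝ ∞ F) (R : ℝ) : ∃ L, 0 ≤ L ∧ ∀ x ∈ Metric.closedBall (0 : ℂ) R,
      ∀ y ∈ Metric.closedBall (0 : ℂ) R, ‖F y - F x‖ ≤ L * ‖y - x‖ := by
  obtain ⟨L, hL0, hL⟩ := bnd (hF.continuous_fderiv (by simp)) R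
  refine ⟨L, hL0, fun x hx y hy => ?_⟩
  exact (convex_closedBall (0 : ℂ) R).norm_image_sub_le_of_norm_fderiv_le
    (fun u _ => hF.differentiable (by simp) u) hL hx hy

lemma taylor (hσ : ContDiff ℝ ∞ σ) (R : ℝ) : ∃ C, 0 ≤ C ∧ ∀ z ∈ Metric.closedBall (0 : ℂ) R,
    ∀ w ∈ Metric.closedBall (0 : ℂ) R, ‖(σ w : ℂ) - σ z - (sg σ z * (w - z)
      + (starRingEnd ℂ) (sg σ z) * (starRingEnd ℂ) (w - z))‖ ≤ C * ‖w - z‖ ^ 2 := by
  have hc := contDiff_sig hσ
  have hd : ContDiff ℝ ∞ (fderiv ℝ (fun w => (σ w : ℂ))) := hc.fderiv_right (m := ∞) (by simp)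
  obtain ⟨L, hL0, hL⟩ := lip hd R
  refine ⟨L, hL0, fun z hz w hw => ?_⟩
  have h1 : ∀ x ∈ segment ℝ z w,
      ‖fderiv ℝ (fun w => (σ w : ℂ)) x - fderiv ℝ (fun w => (σ w : ℂ)) z‖ ≤ L * ‖w - z‖ := by
    intro x hx
    have hx' := (convex_closedBall (0 : ℂ) R).segment_subset hz hw hx
    refine (hL z hz x hx').trans ?_
    have := norm_sub_le_of_mem_segment hx
    gcongr
  have h2 := (convex_segment z w).norm_image_sub_le_of_norm_fderiv_le'
    (fun x _ => hc.differentiable (by simp) x) h1 (left_mem_segment ℝ z w) (right_mem_segment ℝ z w)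
  rw [fderiv_eq, conj_sg hσ] at h2
  calc _ ≤ L * ‖w - z‖ * ‖w - z‖ := h2
    _ = L * ‖w - z‖ ^ 2 := by ring

lemma norm_dist_le {R : ℝ} {z w : ℂ} (hz : z ∈ Metric.closedBall (0 : ℂ) R)
    (hw : w ∈ Metric.closedBall (0 : ℂ) R) : ‖w - z‖ ≤ 2 * R := by
  rw [mem_closedBall_zero_iff] at hz hw
  have := norm_sub_le w z
  linarith

lemma AA_bound (hσ : ContDiff ℝ ∞ σ) (R : ℝ) : ∃ C, 0 ≤ C ∧ ∀ z ∈ Metric.closedBall (0 : ℂ) R,
    ∀ w ∈ Metric.closedBall (0 : ℂ) R,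
    ‖AA σ z w + 2 * ((starRingEnd ℂ) (sg σ z) * (starRingEnd ℂ) (w - z))‖ ≤ C * ‖w - z‖ ^ 2 := by
  obtain ⟨C, hC0, hC⟩ := taylor hσ R
  obtain ⟨L, hL0, hL⟩ := lip (contDiff_sg hσ) R
  refine ⟨C + L, by positivity, fun z hz w hw => ?_⟩
  have e : AA σ z w + 2 * ((starRingEnd ℂ) (sg σ z) * (starRingEnd ℂ) (w - z))
      = -((σ w : ℂ) - σ z - (sg σ z * (w - z)
      + (starRingEnd ℂ) (sg σ z) * (starRingEnd ℂ) (w - z)))
        + (1 / 2) * ((sg σ w - sg σ z) * (w - z)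
          - (starRingEnd ℂ) ((sg σ w - sg σ z) * (w - z))) := by
    unfold AA LL
    simp only [map_mul, map_add, map_sub]
    ring
  rw [e]
  have h1 := hC z hz w hw
  have h2 := hL z hz w hw
  have h3 : ‖(1 / 2 : ℂ) * ((sg σ w - sg σ z) * (w - z)
      - (starRingEnd ℂ) ((sg σ w - sg σ z) * (w - z)))‖ ≤ L * ‖w - z‖ ^ 2 := by
    rw [norm_mul]
    have h4 := norm_sub_le ((sg σ w - sg σ z) * (w - z)) ((starRingEnd ℂ) ((sg σ w - sg σ z) * (w - z)))
    rw [RCLike.norm_conj, norm_mul] at h4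
    have h5 : ‖sg σ w - sg σ z‖ * ‖w - z‖ ≤ L * ‖w - z‖ * ‖w - z‖ := by gcongr
    have h6 : ‖(1 / 2 : ℂ)‖ = 1 / 2 := by norm_num
    rw [h6]
    nlinarith
  calc _ ≤ _ := norm_add_le _ _
    _ ≤ C * ‖w - z‖ ^ 2 + L * ‖w - z‖ ^ 2 := by
        rw [norm_neg]
        exact add_le_add h1 h3
    _ = (C + L) * ‖w - z‖ ^ 2 := by ring

lemma BB_bound (hσ : ContDiff ℝ ∞ σ) {R : ℝ} (hR : 0 ≤ R) :
    ∃ C, 0 ≤ C ∧ ∀ z ∈ Metric.closedBall (0 : ℂ) R,
    ∀ w ∈ Metric.closedBall (0 : ℂ) R, ‖BB σ z w‖ ≤ C * ‖w - z‖ ^ 2 := by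
  obtain ⟨C, hC0, hC⟩ := AA_bound hσ R
  obtain ⟨L, hL0, hL⟩ := lip (contDiff_sg hσ) R
  obtain ⟨M, hM0, hM⟩ := bnd (contDiff_sg hσ).continuous R
  set a : ℝ := C * (2 * R) + 2 * M with ha
  have ha0 : 0 ≤ a := by positivity
  refine ⟨C + L + a * M + a ^ 2 * Real.exp (a * (2 * R)) * (1 + M * (2 * R)), by positivity,
    fun z hz w hw => ?_⟩
  have hd := norm_dist_le hz hw
  have h1 := hC z hz w hw
  have h2 := hL z hz w hw
  have hMz := hM z hz
  have hMw := hM w hw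
  have hd0 : 0 ≤ ‖w - z‖ := norm_nonneg _
  have hA : ‖AA σ z w‖ ≤ a * ‖w - z‖ := by
    have e : AA σ z w = (AA σ z w + 2 * ((starRingEnd ℂ) (sg σ z) * (starRingEnd ℂ) (w - z)))
        - 2 * ((starRingEnd ℂ) (sg σ z) * (starRingEnd ℂ) (w - z)) := by ring
    rw [e]
    refine (norm_sub_le _ _).trans ?_
    have h3 : ‖2 * ((starRingEnd ℂ) (sg σ z) * (starRingEnd ℂ) (w - z))‖ ≤ 2 * (M * ‖w - z‖) := by
      rw [norm_mul, norm_mul, RCLike.norm_conj, RCLike.norm_conj, Complex.norm_ofNat]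
      gcongr
    have h4 : C * ‖w - z‖ ^ 2 ≤ C * (2 * R) * ‖w - z‖ := by
      have : ‖w - z‖ * ‖w - z‖ ≤ (2 * R) * ‖w - z‖ := by gcongr
      nlinarith
    rw [ha]
    linarith
  have hE : ‖Complex.exp (AA σ z w) - 1 - AA σ z w‖
      ≤ a ^ 2 * Real.exp (a * (2 * R)) * ‖w - z‖ ^ 2 := by
    have h3 := Complex.norm_exp_sub_sum_le_norm_mul_exp (AA σ z w) 2
    have e : Complex.exp (AA σ z w) - ∑ m ∈ Finset.range 2, AA σ z w ^ m / (m.factorial : ℂ)
        = Complex.exp (AA σ z w) - 1 - AA σ z w := by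
      simp [Finset.sum_range_succ]
      ring
    rw [e] at h3
    have h4 : ‖AA σ z w‖ ≤ a * (2 * R) := hA.trans (by gcongr)
    calc _ ≤ ‖AA σ z w‖ ^ 2 * Real.exp ‖AA σ z w‖ := h3
      _ ≤ (a * ‖w - z‖) ^ 2 * Real.exp (a * (2 * R)) := by gcongr
      _ = _ := by ring
  have e : BB σ z w = (AA σ z w + 2 * ((starRingEnd ℂ) (sg σ z) * (starRingEnd ℂ) (w - z)))
      + (starRingEnd ℂ) (sg σ w - sg σ z) * (starRingEnd ℂ) (w - z)
      + AA σ z w * ((starRingEnd ℂ) (sg σ w) * (starRingEnd ℂ) (w - z))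
      + (Complex.exp (AA σ z w) - 1 - AA σ z w)
        * (1 + (starRingEnd ℂ) (sg σ w) * (starRingEnd ℂ) (w - z)) := by
    unfold BB
    rw [map_sub (starRingEnd ℂ) (sg σ w) (sg σ z)]
    ring
  rw [e]
  have h5 : ‖(starRingEnd ℂ) (sg σ w - sg σ z) * (starRingEnd ℂ) (w - z)‖ ≤ L * ‖w - z‖ ^ 2 := by
    rw [norm_mul, RCLike.norm_conj, RCLike.norm_conj]
    calc _ ≤ L * ‖w - z‖ * ‖w - z‖ := by gcongr
      _ = _ := by ring
  have h6 : ‖AA σ z w * ((starRingEnd ℂ) (sg σ w) * (starRingEnd ℂ) (w - z))‖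
      ≤ a * M * ‖w - z‖ ^ 2 := by
    rw [norm_mul, norm_mul, RCLike.norm_conj, RCLike.norm_conj]
    calc _ ≤ (a * ‖w - z‖) * (M * ‖w - z‖) := by gcongr
      _ = _ := by ring
  have h7 : ‖1 + (starRingEnd ℂ) (sg σ w) * (starRingEnd ℂ) (w - z)‖ ≤ 1 + M * (2 * R) := by
    refine (norm_add_le _ _).trans ?_
    rw [norm_mul, RCLike.norm_conj, RCLike.norm_conj, norm_one]
    gcongr
  have h8 : ‖(Complex.exp (AA σ z w) - 1 - AA σ z w)
        * (1 + (starRingEnd ℂ) (sg σ w) * (starRingEnd ℂ) (w - z))‖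
      ≤ a ^ 2 * Real.exp (a * (2 * R)) * (1 + M * (2 * R)) * ‖w - z‖ ^ 2 := by
    rw [norm_mul]
    calc _ ≤ (a ^ 2 * Real.exp (a * (2 * R)) * ‖w - z‖ ^ 2) * (1 + M * (2 * R)) := by gcongr
      _ = _ := by ring
  calc _ ≤ C * ‖w - z‖ ^ 2 + L * ‖w - z‖ ^ 2 + a * M * ‖w - z‖ ^ 2
        + a ^ 2 * Real.exp (a * (2 * R)) * (1 + M * (2 * R)) * ‖w - z‖ ^ 2 := by
        refine (norm_add_le _ _).trans (add_le_add ((norm_add_le _ _).trans
          (add_le_add ((norm_add_le _ _).trans (add_le_add h1 h5)) h6)) h8)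
    _ = _ := by ring

lemma R_bound (hσ : ContDiff ℝ ∞ σ) (R : ℝ) :
    ∃ C, 0 ≤ C ∧ ∀ z ∈ Metric.closedBall (0 : ℂ) R, ∀ w ∈ Metric.closedBall (0 : ℂ) R,
      ‖R1 σ z w‖ ≤ C * ‖w - z‖ ∧ ‖R2 σ z w‖ ≤ C * ‖w - z‖ := by
  obtain ⟨L, hL0, hL⟩ := lip (contDiff_sg hσ) R
  obtain ⟨M, hM0, hM⟩ := bnd (contDiff_dzb (contDiff_sg hσ)).continuous R
  obtain ⟨N, hN0, hN⟩ := bnd (contDiff_dz (contDiff_sg hσ)).continuous R
  have key : ∀ u ∈ Metric.closedBall (0 : ℂ) R, ∀ d s : ℂ, ∀ t : ℝ, ‖s‖ ≤ L * t → ‖d‖ ≤ t →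
      ‖(1 / 2 : ℂ) * ((starRingEnd ℂ) s - (dzb (sg σ) u * d
        - (starRingEnd ℂ) (dz (sg σ) u) * (starRingEnd ℂ) d))‖ ≤ (L + M + N) * t := by
    intro u hu d s t hs hd
    have ht : 0 ≤ t := (norm_nonneg _).trans hd
    have h1 : ‖dzb (sg σ) u * d‖ ≤ M * t := by
      rw [norm_mul]
      have := hM u hu
      gcongr
    have h2 : ‖(starRingEnd ℂ) (dz (sg σ) u) * (starRingEnd ℂ) d‖ ≤ N * t := by
      rw [norm_mul, RCLike.norm_conj, RCLike.norm_conj]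
      have := hN u hu
      gcongr
    have h3 := norm_sub_le (dzb (sg σ) u * d) ((starRingEnd ℂ) (dz (sg σ) u) * (starRingEnd ℂ) d)
    have h4 := norm_sub_le ((starRingEnd ℂ) s) (dzb (sg σ) u * d
        - (starRingEnd ℂ) (dz (sg σ) u) * (starRingEnd ℂ) d)
    rw [RCLike.norm_conj] at h4
    rw [norm_mul, show ‖(1 / 2 : ℂ)‖ = 1 / 2 by norm_num]
    have h5 : 0 ≤ (L + M + N) * t := by positivity
    nlinarith
  refine ⟨L + M + N, by positivity, fun z hz w hw => ⟨?_, ?_⟩⟩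
  · have e : R1 σ z w = (1 / 2 : ℂ) * ((starRingEnd ℂ) (sg σ z - sg σ w) - (dzb (sg σ) z * (w - z)
        - (starRingEnd ℂ) (dz (sg σ) z) * (starRingEnd ℂ) (w - z))) := by
      unfold R1
      simp only [map_add, map_sub]
      ring
    rw [e]
    refine key z hz _ _ _ ?_ le_rfl
    rw [norm_sub_rev]
    exact hL z hz w hw
  · have e : R2 σ z w = -((1 / 2 : ℂ) * ((starRingEnd ℂ) (sg σ z - sg σ w) - (dzb (sg σ) w * (w - z)
        - (starRingEnd ℂ) (dz (sg σ) w) * (starRingEnd ℂ) (w - z)))) := by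
      unfold R2
      simp only [map_add, map_sub]
      ring
    rw [e, norm_neg]
    refine key w hw _ _ _ ?_ le_rfl
    rw [norm_sub_rev]
    exact hL z hz w hw

lemma vanish {β : ℝ → ℝ} (hβ : Bump β) {t : ℝ} (ht : 1 < t) : β t = 0 ∧ deriv β t = 0 := by
  refine ⟨hβ.supp t ht.le, ?_⟩
  have h : β =ᶠ[𝓝 t] fun _ => 0 := by
    filter_upwards [Ioi_mem_nhds ht] with s hs
    exact hβ.supp s (le_of_lt hs)
  rw [h.deriv_eq, deriv_const]

lemma r2_ge {m : ℝ} (hm : 0 < m) {z w : ℂ} (hz : ‖ex σ (-1) z‖ ≤ m) (hw : ‖ex σ (-1) w‖ ≤ m) :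
    ‖w - z‖ ^ 2 ≤ m ^ 2 * r2 σ z w := by
  rw [norm_ex] at hz hw
  have h1 : Real.exp (((-1 : ℤ) : ℝ) * σ z) * Real.exp (((-1 : ℤ) : ℝ) * σ w)
      * Real.exp (σ z + σ w) = 1 := by
    rw [← Real.exp_add, ← Real.exp_add, ← Real.exp_zero]
    congr 1
    push_cast
    ring
  have h2 : Real.exp (((-1 : ℤ) : ℝ) * σ z) * Real.exp (((-1 : ℤ) : ℝ) * σ w) ≤ m * m :=
    mul_le_mul hz hw (Real.exp_pos _).le hm.le
  have h3 : 1 ≤ m ^ 2 * Real.exp (σ z + σ w) := by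
    have := mul_le_mul_of_nonneg_right h2 (Real.exp_pos (σ z + σ w)).le
    rw [h1] at this
    nlinarith
  unfold r2
  calc ‖w - z‖ ^ 2 = 1 * ‖w - z‖ ^ 2 := (one_mul _).symm
    _ ≤ (m ^ 2 * Real.exp (σ z + σ w)) * ‖w - z‖ ^ 2 := by gcongr
    _ = _ := by ring

end KER

open KER in
/-- KER: the transport of the kernel -/
theorem stmtKer : StmtKer := by
  intro β σ k K hβ hσ hK
  obtain ⟨R₀, hR₀⟩ := hK.isBounded.subset_closedBall (0 : ℂ)
  set R : ℝ := max R₀ 0 with hRdef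
  have hR : 0 ≤ R := le_max_right _ _
  have hKR : ∀ z ∈ K, z ∈ Metric.closedBall (0 : ℂ) R := fun z hz =>
    Metric.closedBall_subset_closedBall (le_max_left _ _) (hR₀ hz)
  obtain ⟨CB, hCB0, hCB⟩ := BB_bound hσ hR
  obtain ⟨CR, hCR0, hCR⟩ := R_bound hσ R
  obtain ⟨m₀, hm₀, hm⟩ := bnd (F := ex σ (-1)) (contDiff_ex hσ _).continuous R
  obtain ⟨p₁, hp₁0, hp₁⟩ := bnd (F := ex σ 1) (contDiff_ex hσ _).continuous R
  obtain ⟨p₂, hp₂0, hp₂⟩ := bnd (F := ex σ 2) (contDiff_ex hσ _).continuous R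
  obtain ⟨u₀, hu₀⟩ := (isCompact_Icc (a := (0 : ℝ)) (b := 1)).exists_bound_of_continuousOn
    hβ.smooth.continuous.continuousOn
  obtain ⟨v₀, hv₀⟩ := (isCompact_Icc (a := (0 : ℝ)) (b := 1)).exists_bound_of_continuousOn
    (hβ.smooth.continuous_deriv (by simp)).continuousOn
  set u : ℝ := max u₀ 0 with hu
  set v : ℝ := max v₀ 0 with hv
  have hu0 : 0 ≤ u := le_max_right _ _
  have hv0 : 0 ≤ v := le_max_right _ _
  set m : ℝ := m₀ + 1 with hmdef
  have hmpos : 0 < m := by positivity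
  set κ : ℝ := |(k : ℝ)| + 1 with hκ
  have hκ0 : 0 ≤ κ := by positivity
  set C₀ : ℝ := 2 * m * p₂ * (v * (p₁ * p₁) * CB * m ^ 3 + κ * u * CR * m)
    + 2 * p₂ * m * (κ * u * CR * m) with hC₀
  have hC₀0 : 0 ≤ C₀ := by positivity
  refine ⟨C₀ + m, 1, by positivity, one_pos, fun ε hε _ z hz w hw => ?_⟩
  have hzR := hKR z hz
  have hwR := hKR w hw
  have hez : ‖ex σ (-1) z‖ ≤ m := (hm z hzR).trans (by rw [hmdef]; linarith)
  have hew : ‖ex σ (-1) w‖ ≤ m := (hm w hwR).trans (by rw [hmdef]; linarith)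
  have hge := r2_ge hmpos hez hew
  rw [formula hβ.smooth hσ k ε z w]
  have hr0 : 0 ≤ r2 σ z w := by unfold r2; positivity
  have hε2 : 0 < ε ^ 2 := by positivity
  -- the case of distant points
  have far : 1 < r2 σ z w / ε ^ 2 →
      2 * ex σ (-1) z * ex σ 2 w * (ta σ z w)⁻¹ ^ (k + 1)
          * (b1 β σ ε z w * (ex σ 1 z * ex σ 1 w * (w - z)) * BB σ z w
            + (k + 1) * (gb β σ ε z w : ℂ) * R1 σ z w)
        + 2 * ex σ 2 w * ex σ (-1) w * (ta σ z w)⁻¹ ^ k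
          * ((-k) * (gb β σ ε z w : ℂ) * R2 σ z w) = 0 := by
    intro h
    obtain ⟨h1, h2⟩ := vanish hβ h
    unfold b1 gb
    rw [h1, h2]
    simp
  constructor
  · by_cases hc : 1 < r2 σ z w / ε ^ 2
    · rw [far hc, norm_zero]
      positivity
    · rw [not_lt] at hc
      have ht : r2 σ z w / ε ^ 2 ∈ Icc (0 : ℝ) 1 := ⟨by positivity, hc⟩
      have hr : r2 σ z w ≤ ε ^ 2 := by rwa [div_le_one hε2] at hc
      have hd : ‖w - z‖ ≤ m * ε := by
        have : ‖w - z‖ ^ 2 ≤ (m * ε) ^ 2 := by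
          calc _ ≤ m ^ 2 * r2 σ z w := hge
            _ ≤ m ^ 2 * ε ^ 2 := by gcongr
            _ = _ := by ring
        exact (pow_le_pow_iff_left₀ (norm_nonneg _) (by positivity) two_ne_zero).1 this
      have hb1 : ‖b1 β σ ε z w‖ ≤ v / ε ^ 4 := by
        unfold b1
        rw [norm_div, Complex.norm_real, norm_pow, Complex.norm_real, Real.norm_of_nonneg hε.le]
        have := (hv₀ _ ht).trans (le_max_left v₀ 0)
        gcongr
      have hgb : ‖(gb β σ ε z w : ℂ)‖ ≤ u / ε ^ 2 := by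
        unfold gb
        rw [Complex.norm_real, norm_div, norm_pow, Real.norm_of_nonneg hε.le]
        have := (hu₀ _ ht).trans (le_max_left u₀ 0)
        gcongr
      have hB := hCB z hzR w hwR
      obtain ⟨hR1, hR2⟩ := hCR z hzR w hwR
      have hd0 : 0 ≤ ‖w - z‖ := norm_nonneg _
      have hk1 : ‖((k : ℂ) + 1)‖ ≤ κ := by
        refine (norm_add_le _ _).trans ?_
        rw [norm_one, hκ]
        simp
      have hk2 : ‖(-(k : ℂ))‖ ≤ κ := by
        rw [norm_neg, hκ]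
        simp
      have t1 : ‖b1 β σ ε z w * (ex σ 1 z * ex σ 1 w * (w - z)) * BB σ z w‖
          ≤ v * (p₁ * p₁) * CB * m ^ 3 / ε := by
        rw [norm_mul, norm_mul, norm_mul, norm_mul]
        calc _ ≤ v / ε ^ 4 * (p₁ * p₁ * (m * ε)) * (CB * (m * ε) ^ 2) := by
              have a1 := hp₁ z hzR
              have a2 := hp₁ w hwR
              have a3 : ‖BB σ z w‖ ≤ CB * (m * ε) ^ 2 := hB.trans (by gcongr)
              gcongr
          _ = _ := by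
              field_simp
      have t2 : ‖((k : ℂ) + 1) * (gb β σ ε z w : ℂ) * R1 σ z w‖ ≤ κ * u * CR * m / ε := by
        rw [norm_mul, norm_mul]
        calc _ ≤ κ * (u / ε ^ 2) * (CR * (m * ε)) := by
              have a3 : ‖R1 σ z w‖ ≤ CR * (m * ε) := hR1.trans (by gcongr)
              gcongr
          _ = _ := by
              field_simp
      have t3 : ‖(-(k : ℂ)) * (gb β σ ε z w : ℂ) * R2 σ z w‖ ≤ κ * u * CR * m / ε := by
        rw [norm_mul, norm_mul]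
        calc _ ≤ κ * (u / ε ^ 2) * (CR * (m * ε)) := by
              have a3 : ‖R2 σ z w‖ ≤ CR * (m * ε) := hR2.trans (by gcongr)
              gcongr
          _ = _ := by
              field_simp
      have s1 : ‖2 * ex σ (-1) z * ex σ 2 w * (ta σ z w)⁻¹ ^ (k + 1)
          * (b1 β σ ε z w * (ex σ 1 z * ex σ 1 w * (w - z)) * BB σ z w
            + (k + 1) * (gb β σ ε z w : ℂ) * R1 σ z w)‖
          ≤ 2 * m * p₂ * (v * (p₁ * p₁) * CB * m ^ 3 / ε + κ * u * CR * m / ε) := by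
        rw [norm_mul, norm_mul, norm_ta_zpow, mul_one, norm_mul, norm_mul, Complex.norm_ofNat]
        have a1 := hp₂ w hwR
        have a2 := (norm_add_le (b1 β σ ε z w * (ex σ 1 z * ex σ 1 w * (w - z)) * BB σ z w)
          (((k : ℂ) + 1) * (gb β σ ε z w : ℂ) * R1 σ z w)).trans (add_le_add t1 t2)
        gcongr
      have s2 : ‖2 * ex σ 2 w * ex σ (-1) w * (ta σ z w)⁻¹ ^ k
          * ((-k) * (gb β σ ε z w : ℂ) * R2 σ z w)‖
          ≤ 2 * p₂ * m * (κ * u * CR * m / ε) := by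
        rw [norm_mul, norm_mul, norm_ta_zpow, mul_one, norm_mul, norm_mul, Complex.norm_ofNat]
        have a1 := hp₂ w hwR
        gcongr
      calc _ ≤ _ := norm_add_le _ _
        _ ≤ _ := add_le_add s1 s2
        _ = C₀ / ε := by rw [hC₀]; field_simp
        _ ≤ (C₀ + m) / ε := by
            gcongr
            linarith
  · intro h
    apply far
    rw [one_lt_div hε2]
    have h1 : m * ε < ‖w - z‖ := lt_of_le_of_lt (by nlinarith) h
    have h2 : (m * ε) ^ 2 < ‖w - z‖ ^ 2 := pow_lt_pow_left₀ h1 (by positivity) two_ne_zero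
    have h3 : m ^ 2 * ε ^ 2 < m ^ 2 * r2 σ z w := by nlinarith
    exact lt_of_mul_lt_mul_left h3 (by positivity)

end

end U3
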