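import Pool.Agent.U3.Stmts
import Pool.Agent.QJ.Ops
import Pool.Agent.QJ.Dom

/-!
NF: the null form of two triples.
-/

open Complex MeasureTheory Filter Topology Set
open scoped ContDiff

namespace U3

open QE QJ

namespace NFM

theorem l2z_mono {V V' : Set ℂ} (h : V' ⊆ V) {u : ℕ → ℂ → ℂ} (hu : L2z V u) : L2z V' u :=
  fun K hK hKV => hu K hK (hKV.trans h)

theorem l2b_mono {V V' : Set ℂ} (h : V' ⊆ V) {u : ℕ → ℂ → ℂ} (hu : L2b V u) : L2b V' u :=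
  fun K hK hKV => hu K hK (hKV.trans h)

theorem pot_mono {V V' : Set ℂ} (h : V' ⊆ V) {σ : ℂ → ℝ} {N : ℤ} {A B C x y : ℕ → ℂ → ℂ}
    (hp : Pot V σ N A B C x y) : Pot V' σ N A B C x y :=
  ⟨hp.sx, hp.sy, fun n z hz => hp.hx n z (h hz), fun n z hz => hp.hy n z (h hz),
    l2z_mono h hp.lx, l2z_mono h hp.ly, l2z_mono h hp.la, l2z_mono h hp.lc,
    l2z_mono h hp.lda, l2z_mono h hp.ldc⟩

theorem potB_mono {V V' : Set ℂ} (h : V' ⊆ V) {σ : ℂ → ℝ} {N : ℤ} {A B C x y : ℕ → ℂ → ℂ}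
    (hp : PotB V σ N A B C x y) : PotB V' σ N A B C x y :=
  ⟨hp.sx, hp.sy, fun n z hz => hp.hx n z (h hz), fun n z hz => hp.hy n z (h hz),
    l2b_mono h hp.lx, l2b_mono h hp.ly, l2b_mono h hp.la, l2b_mono h hp.lc,
    l2b_mono h hp.lda, l2b_mono h hp.ldc⟩

end NFM

open NFM in
theorem stmtNf (hPotZ : StmtPotZ) (hPotB : StmtPotB) (hNulZ : StmtNulZ) (hNulB : StmtNulB) :
    StmtNf := by
  intro V σ N A B C A' B' C' hV hσ hT hT' ζ hζ
  have hK : IsCompact (tsupport ζ) := hζ.supp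
  have hKV : tsupport ζ ⊆ V := hζ.sub
  refine ⟨?_, ?_⟩
  · rintro (hZ | hZ)
    · obtain ⟨V1, x, y, hV1, hK1, -, hp⟩ := hPotZ V σ N A B C hV hσ hZ (tsupport ζ) hK hKV
      obtain ⟨V2, x', y', hV2, hK2, -, hp'⟩ := hPotB V σ (-N) A' B' C' hV hσ hT' (tsupport ζ) hK hKV
      exact hNulZ (V1 ∩ V2) σ N A B C x y A' B' C' x' y' (hV1.inter hV2) hσ hT.sA hT.sB hT.sC
        hT'.sA hT'.sB hT'.sC (pot_mono inter_subset_left hp) (potB_mono inter_subset_right hp')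
        ζ ⟨hζ.smooth, hζ.supp, subset_inter hK1 hK2⟩
    · obtain ⟨V1, x', y', hV1, hK1, -, hp'⟩ := hPotZ V σ (-N) A' B' C' hV hσ hZ (tsupport ζ) hK hKV
      obtain ⟨V2, x, y, hV2, hK2, -, hp⟩ := hPotB V σ N A B C hV hσ hT (tsupport ζ) hK hKV
      have hp2 : PotB V2 σ (- -N) A B C x y := by rw [neg_neg]; exact hp
      have h1 := hNulZ (V1 ∩ V2) σ (-N) A' B' C' x' y' A B C x y (hV1.inter hV2) hσ hT'.sA hT'.sB
        hT'.sC hT.sA hT.sB hT.sC (pot_mono inter_subset_left hp')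
        (potB_mono inter_subset_right hp2) ζ ⟨hζ.smooth, hζ.supp, subset_inter hK1 hK2⟩
      refine h1.congr fun n => ?_
      refine integral_congr_ae (Filter.Eventually.of_forall fun z => ?_)
      change ζ z * (A' n z * C n z + C' n z * A n z - 2 * (B' n z * B n z))
        = ζ z * (A n z * C' n z + C n z * A' n z - 2 * (B n z * B' n z))
      ring
  · obtain ⟨V1, x, y, hV1, hK1, -, hp⟩ := hPotB V σ N A B C hV hσ hT (tsupport ζ) hK hKV
    obtain ⟨V2, x', y', hV2, hK2, -, hp'⟩ := hPotB V σ (-N) A' B' C' hV hσ hT' (tsupport ζ) hK hKV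
    exact hNulB (V1 ∩ V2) σ N A B C x y A' B' C' x' y' (hV1.inter hV2) hσ hT.sA hT.sB hT.sC
      hT'.sA hT'.sB hT'.sC (potB_mono inter_subset_left hp) (potB_mono inter_subset_right hp')
      ζ ⟨hζ.smooth, hζ.supp, subset_inter hK1 hK2⟩

end U3
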