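import Pool.Agent.U3.Stmts
import Pool.Agent.QJ.Ops
import Pool.Agent.QJ.Dom
import Pool.Agent.QJ.NULF

/-!
NULB: the quadratic form `A C' + C A' - 2 B B'` of two bounded potentials is bounded. Otherwise a
subsequence, multiplied by numbers which tend to zero, contradicts the theorem for null potentials.
-/

open Complex MeasureTheory Filter Topology Set
open scoped ContDiff

namespace U3

open QE QJ

noncomputable section

namespace NULB

variable {V : Set ℂ} {σ : ℂ → ℝ}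

/-- the factors -/
def ep (k : ℕ) : ℂ := ((Real.sqrt (1 / ((k : ℝ) + 1)) : ℝ) : ℂ)

lemma norm_ep_sq (k : ℕ) : ‖ep k‖ ^ 2 = 1 / ((k : ℝ) + 1) := by
  unfold ep
  rw [Complex.norm_real, Real.norm_of_nonneg (Real.sqrt_nonneg _),
    Real.sq_sqrt (by positivity)]

lemma tend_ep : Tendsto (fun k : ℕ => ‖ep k‖ ^ 2) atTop (𝓝 0) := by
  simp only [norm_ep_sq]
  exact tendsto_one_div_add_atTop_nhds_zero_nat

/-- a bounded sequence becomes null after multiplication, along subsequences -/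
lemma null {u : ℕ → ℂ → ℂ} (hu : L2b V u) {r : ℕ → ℕ} (hr : StrictMono r) :
    L2z V (fun k z => ep k * u (r k) z) := by
  intro K hK hKV
  obtain ⟨C, hC⟩ := hu K hK hKV
  have h1 := hr.tendsto_atTop.eventually hC
  have h2 : Tendsto (fun k => ‖ep k‖ ^ 2 * C) atTop (𝓝 0) := by
    simpa using tend_ep.mul_const C
  refine squeeze_zero' (Eventually.of_forall fun k => ?_) ?_ h2
  · exact integral_nonneg fun z => by positivity
  · filter_upwards [h1] with k hk
    have e : ∀ z, ‖ep k * u (r k) z‖ ^ 2 = ‖ep k‖ ^ 2 * ‖u (r k) z‖ ^ 2 := fun z => by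
      rw [norm_mul, mul_pow]
    simp only [e]
    rw [integral_const_mul]
    exact mul_le_mul_of_nonneg_left hk (by positivity)

lemma sc {u : ℕ → ℂ → ℂ} (su : ∀ n, ContDiff ℝ ∞ (u n)) (r : ℕ → ℕ) (k : ℕ) :
    ContDiff ℝ ∞ (fun z => ep k * u (r k) z) :=
  contDiff_const.mul (su _)

/-- the scaled potentials are null -/
lemma pot {N : ℤ} {A B C x y : ℕ → ℂ → ℂ} (hσ : ContDiff ℝ ∞ σ) (sA : ∀ n, ContDiff ℝ ∞ (A n))
    (sC : ∀ n, ContDiff ℝ ∞ (C n)) (P : PotB V σ N A B C x y) {r : ℕ → ℕ} (hr : StrictMono r) :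
    Pot V σ N (fun k z => ep k * A (r k) z) (fun k z => ep k * B (r k) z)
      (fun k z => ep k * C (r k) z) (fun k z => ep k * x (r k) z)
      (fun k z => ep k * y (r k) z) := by
  have eD : ∀ (l : ℤ) (k : ℕ) (f : ℂ → ℂ), ContDiff ℝ ∞ f → ∀ z,
      D σ l (fun w => ep k * f w) z = ep k * D σ l f z := fun l k f hf z =>
    D_const_mul hσ l (ep k) (cd_at hf z)
  have eDb : ∀ (l : ℤ) (k : ℕ) (f : ℂ → ℂ), ContDiff ℝ ∞ f → ∀ z,
      Db σ l (fun w => ep k * f w) z = ep k * Db σ l f z := fun l k f hf z =>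
    Db_const_mul hσ l (ep k) (cd_at hf z)
  have sa : ∀ n, ContDiff ℝ ∞ (fun w => A n w - D σ (N + 1) (x n) w) := fun n =>
    (sA n).sub (contDiff_D hσ _ (P.sx n))
  have sc' : ∀ n, ContDiff ℝ ∞ (fun w => C n w - Db σ (N - 1) (y n) w) := fun n =>
    (sC n).sub (contDiff_Db hσ _ (P.sy n))
  have ea : ∀ (k : ℕ) z, ep k * A (r k) z - D σ (N + 1) (fun z => ep k * x (r k) z) z
      = ep k * (A (r k) z - D σ (N + 1) (x (r k)) z) := fun k z => by
    rw [eD _ _ _ (P.sx _)]
    ring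
  have ec : ∀ (k : ℕ) z, ep k * C (r k) z - Db σ (N - 1) (fun z => ep k * y (r k) z) z
      = ep k * (C (r k) z - Db σ (N - 1) (y (r k)) z) := fun k z => by
    rw [eDb _ _ _ (P.sy _)]
    ring
  refine ⟨fun k => sc P.sx r k, fun k => sc P.sy r k, ?_, ?_, null P.lx hr, null P.ly hr, ?_, ?_,
    ?_, ?_⟩
  · intro k z hz
    rw [eDb _ _ _ (P.sx _), P.hx _ z hz]
    ring
  · intro k z hz
    rw [eD _ _ _ (P.sy _), P.hy _ z hz]
    ring
  · simp only [ea]
    exact null P.la hr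
  · simp only [ec]
    exact null P.lc hr
  · simp only [ea]
    have h := null P.lda hr
    refine (show (fun (k : ℕ) z => Db σ (N + 2) (fun w => ep k *
      (A (r k) w - D σ (N + 1) (x (r k)) w)) z) = _ from ?_) ▸ h
    funext k z
    exact eDb _ _ _ (sa _) z
  · simp only [ec]
    have h := null P.ldc hr
    refine (show (fun (k : ℕ) z => D σ (N - 2) (fun w => ep k *
      (C (r k) w - Db σ (N - 1) (y (r k)) w)) z) = _ from ?_) ▸ h
    funext k z
    exact eD _ _ _ (sc' _) z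

end NULB

open NULB

theorem stmtNulB (hNid : QJ.StmtNid) : StmtNulB := by
  intro V σ N A B C x y A' B' C' x' y' hV hσ sA sB sC sA' sB' sC' P P' ζ hζ
  by_contra hcon
  push Not at hcon
  have hf : ∀ k : ℕ, ∃ᶠ n in atTop, (k : ℝ) < ‖∫ z, ζ z *
      (A n z * C' n z + C n z * A' n z - 2 * (B n z * B' n z))‖ := fun k => hcon k
  obtain ⟨r, hr, hI⟩ := extraction_forall_of_frequently hf
  have h := stmtNul hNid V σ N _ _ _ _ _ _ _ _ _ _ hV hσ (fun k => sc sA r k)
    (fun k => sc sB r k) (fun k => sc sC r k) (fun k => sc sA' r k) (fun k => sc sB' r k)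
    (fun k => sc sC' r k) (pot hσ sA sC P hr) (pot hσ sA' sC' P' hr) ζ hζ
  have e : ∀ k : ℕ, ‖∫ z, ζ z * (ep k * A (r k) z * (ep k * C' (r k) z)
      + ep k * C (r k) z * (ep k * A' (r k) z) - 2 * (ep k * B (r k) z * (ep k * B' (r k) z)))‖
      = 1 / ((k : ℝ) + 1) * ‖∫ z, ζ z * (A (r k) z * C' (r k) z + C (r k) z * A' (r k) z
        - 2 * (B (r k) z * B' (r k) z))‖ := by
    intro k
    rw [← norm_ep_sq, ← norm_pow, ← norm_mul, ← integral_const_mul]
    congr 1
    refine integral_congr_ae (Eventually.of_forall fun z => ?_)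
    simp only []
    ring
  have h1 := h.norm
  simp only [e, norm_zero] at h1
  have h2 : ∀ᶠ k : ℕ in atTop, 1 / ((k : ℝ) + 1) * ‖∫ z, ζ z * (A (r k) z * C' (r k) z
      + C (r k) z * A' (r k) z - 2 * (B (r k) z * B' (r k) z))‖ < 1 / 2 :=
    h1.eventually (gt_mem_nhds (by norm_num))
  obtain ⟨k, hk1, hk2⟩ := (h2.and (eventually_ge_atTop 1)).exists
  have h3 := hI k
  have hk3 : (1 : ℝ) ≤ k := by exact_mod_cast hk2
  have h4 : 1 / ((k : ℝ) + 1) * k < 1 / 2 :=
    lt_of_le_of_lt (mul_le_mul_of_nonneg_left h3.le (by positivity)) hk1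
  rw [one_div, inv_mul_lt_iff₀ (by positivity)] at h4
  linarith

end

end U3
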