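import Pool.Agent.U3.Stmts
import Pool.Agent.QJ.Ops
import Pool.Agent.QJ.Dom
import Pool.Agent.QJ.NULF

/-!
NULZ: the quadratic form `A C' + C A' - 2 B B'` of a null triple and a bounded triple tends weakly
to zero. Compare `QJ/NULF.lean`.
-/

open Complex MeasureTheory Filter Topology Set
open scoped ContDiff

namespace U3

open QE QJ

noncomputable section

namespace NULZ

variable {V : Set ℂ} {σ : ℂ → ℝ}

/-- one of the two sequences tends to zero in `L²`, the other one is bounded -/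
def LL (V : Set ℂ) (u v : ℕ → ℂ → ℂ) : Prop := (L2z V u ∧ L2b V v) ∨ (L2b V u ∧ L2z V v)

/-- the first sequence tends to zero -/
lemma cs1 {η : ℂ → ℂ} (hη : Test V η) {u v : ℕ → ℂ → ℂ} (hu : L2z V u) (hv : L2b V v)
    (su : ∀ n, ContDiff ℝ ∞ (u n)) (sv : ∀ n, ContDiff ℝ ∞ (v n)) :
    Tendsto (fun n => ∫ z, η z * (u n z * v n z)) atTop (𝓝 0) := by
  have hK : IsCompact (tsupport η) := hη.supp
  obtain ⟨M, hM⟩ := hK.exists_bound_of_continuousOn hη.smooth.continuous.continuousOn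
  have hM0 : 0 ≤ max M 0 := le_max_right _ _
  have h1 := hu _ hK hη.sub
  obtain ⟨C, hC⟩ := hv _ hK hη.sub
  have h10 : ∀ n, 0 ≤ ∫ z in tsupport η, ‖u n z‖ ^ 2 := fun n =>
    integral_nonneg fun z => by positivity
  set δ : ℕ → ℝ := fun n => Real.sqrt ((∫ z in tsupport η, ‖u n z‖ ^ 2) + 1 / ((n : ℝ) + 1))
    with hδ
  have hδ0 : Tendsto δ atTop (𝓝 0) := by
    have := (h1.add (tendsto_one_div_add_atTop_nhds_zero_nat (𝕜 := ℝ))).sqrt
    rw [add_zero, Real.sqrt_zero] at this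
    exact this
  have hδp : ∀ n, 0 < δ n := fun n => Real.sqrt_pos.2 (by
    have := h10 n
    positivity)
  have h3 : Tendsto (fun n => max M 0 * (δ n + δ n * C)) atTop (𝓝 0) := by
    have := (hδ0.add (hδ0.mul_const C)).const_mul (max M 0)
    simpa using this
  refine squeeze_zero_norm' ?_ h3
  filter_upwards [hC] with n hn
  have c1 : IntegrableOn (fun z => ‖u n z‖ ^ 2) (tsupport η) :=
    ((su n).continuous.norm.pow 2).continuousOn.integrableOn_compact hK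
  have c2 : IntegrableOn (fun z => ‖v n z‖ ^ 2) (tsupport η) :=
    ((sv n).continuous.norm.pow 2).continuousOn.integrableOn_compact hK
  have c3 : IntegrableOn (fun z => ‖η z * (u n z * v n z)‖) (tsupport η) :=
    ((hη.smooth.continuous.mul ((su n).continuous.mul (sv n).continuous)).norm).continuousOn.integrableOn_compact hK
  have e1 : ∫ z, η z * (u n z * v n z) = ∫ z in tsupport η, η z * (u n z * v n z) := by
    symm
    apply setIntegral_eq_integral_of_forall_compl_eq_zero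
    intro z hz
    rw [image_eq_zero_of_notMem_tsupport hz, zero_mul]
  rw [e1]
  refine (norm_integral_le_integral_norm _).trans ?_
  have hd := hδp n
  have c1' : IntegrableOn (fun z => (δ n)⁻¹ * ‖u n z‖ ^ 2) (tsupport η) := c1.const_mul _
  have c2' : IntegrableOn (fun z => δ n * ‖v n z‖ ^ 2) (tsupport η) := c2.const_mul _
  have hle : ∫ z in tsupport η, ‖η z * (u n z * v n z)‖
      ≤ ∫ z in tsupport η, max M 0 * ((δ n)⁻¹ * ‖u n z‖ ^ 2 + δ n * ‖v n z‖ ^ 2) := by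
    refine setIntegral_mono_on c3 ((c1'.add c2').const_mul _) hK.measurableSet fun z hz => ?_
    rw [norm_mul, norm_mul]
    have a1 : ‖η z‖ ≤ max M 0 := (hM z hz).trans (le_max_left _ _)
    have a2 : ‖u n z‖ * ‖v n z‖ ≤ (δ n)⁻¹ * ‖u n z‖ ^ 2 + δ n * ‖v n z‖ ^ 2 := by
      have a3 : 0 ≤ ‖u n z‖ * ‖v n z‖ := by positivity
      have a4 : 0 ≤ (δ n)⁻¹ * (‖u n z‖ - δ n * ‖v n z‖) ^ 2 := by positivity
      have a5 : (δ n)⁻¹ * (‖u n z‖ - δ n * ‖v n z‖) ^ 2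
          = (δ n)⁻¹ * ‖u n z‖ ^ 2 + δ n * ‖v n z‖ ^ 2 - 2 * (‖u n z‖ * ‖v n z‖) := by
        field_simp
        ring
      linarith
    exact mul_le_mul a1 a2 (by positivity) hM0
  refine hle.trans ?_
  rw [integral_const_mul]
  refine mul_le_mul_of_nonneg_left ?_ hM0
  rw [integral_add c1' c2', integral_const_mul, integral_const_mul]
  have b1 : (δ n)⁻¹ * ∫ z in tsupport η, ‖u n z‖ ^ 2 ≤ δ n := by
    rw [inv_mul_le_iff₀ hd]
    have b2 : δ n * δ n = (∫ z in tsupport η, ‖u n z‖ ^ 2) + 1 / ((n : ℝ) + 1) :=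
      Real.mul_self_sqrt (by have := h10 n; positivity)
    have b3 : (0 : ℝ) ≤ 1 / ((n : ℝ) + 1) := by positivity
    linarith
  exact add_le_add b1 (mul_le_mul_of_nonneg_left hn hd.le)

/-- products of a null sequence and a bounded sequence tend weakly to zero -/
lemma cs {η : ℂ → ℂ} (hη : Test V η) {u v : ℕ → ℂ → ℂ} (huv : LL V u v)
    (su : ∀ n, ContDiff ℝ ∞ (u n)) (sv : ∀ n, ContDiff ℝ ∞ (v n)) :
    Tendsto (fun n => ∫ z, η z * (u n z * v n z)) atTop (𝓝 0) := by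
  rcases huv with ⟨hu, hv⟩ | ⟨hu, hv⟩
  · exact cs1 hη hu hv su sv
  · refine (cs1 hη hv hu sv su).congr fun n => ?_
    refine integral_congr_ae (Filter.Eventually.of_forall fun z => ?_)
    simp only []
    ring

/-- integration by parts in a term with a derivative `D` -/
lemma limD {ζ : ℂ → ℂ} (hσ : ContDiff ℝ ∞ σ) (hζ : Test V ζ) (k l : ℤ) (hl : l = -k - 1)
    {x g : ℕ → ℂ → ℂ} (hg : LL V x g) (hDg : LL V x (fun n z => D σ l (g n) z))
    (sx : ∀ n, ContDiff ℝ ∞ (x n)) (sg : ∀ n, ContDiff ℝ ∞ (g n)) :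
    Tendsto (fun n => ∫ z, ζ z * (D σ k (x n) z * g n z)) atTop (𝓝 0) := by
  subst hl
  have hζ' : Test V (fun z => ζ z * ex σ (-2) z) := test_mul hζ (contDiff_ex hσ _)
  have t1 : Test V (fun z => D σ 0 (fun z => ζ z * ex σ (-2) z) z * ex σ 2 z) :=
    test_mul (test_D hσ 0 hζ') (contDiff_ex hσ _)
  have l1 := cs t1 hg sx sg
  have l2 := cs hζ hDg sx (fun n => contDiff_D hσ _ (sg n))
  have l3 := (l1.neg).sub l2
  rw [neg_zero, sub_zero] at l3
  refine l3.congr fun n => ?_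
  have h := ibp_D hσ k hζ' (sx n) (sg n)
  have e0 : ∀ z, ex σ 2 z * (ζ z * ex σ (-2) z * (D σ k (x n) z * g n z))
      = ζ z * (D σ k (x n) z * g n z) := fun z => by
    linear_combination (ζ z * (D σ k (x n) z * g n z)) * NUL.ex_cancel (σ := σ) z
  have e1 : ∀ z, ex σ 2 z * (ζ z * ex σ (-2) z * (x n z * D σ (-k - 1) (g n) z))
      = ζ z * (x n z * D σ (-k - 1) (g n) z) := fun z => by
    linear_combination (ζ z * (x n z * D σ (-k - 1) (g n) z)) * NUL.ex_cancel (σ := σ) z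
  have e2 : ∀ z, ex σ 2 z * (D σ 0 (fun z => ζ z * ex σ (-2) z) z * (x n z * g n z))
      = D σ 0 (fun z => ζ z * ex σ (-2) z) z * ex σ 2 z * (x n z * g n z) := fun z => by ring
  simp only [e0, e1, e2] at h
  exact h.symm

/-- integration by parts in a term with a derivative `Db` -/
lemma limDb {ζ : ℂ → ℂ} (hσ : ContDiff ℝ ∞ σ) (hζ : Test V ζ) (k l : ℤ) (hl : l = -k + 1)
    {x g : ℕ → ℂ → ℂ} (hg : LL V x g) (hDg : LL V x (fun n z => Db σ l (g n) z))
    (sx : ∀ n, ContDiff ℝ ∞ (x n)) (sg : ∀ n, ContDiff ℝ ∞ (g n)) :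
    Tendsto (fun n => ∫ z, ζ z * (Db σ k (x n) z * g n z)) atTop (𝓝 0) := by
  subst hl
  have hζ' : Test V (fun z => ζ z * ex σ (-2) z) := test_mul hζ (contDiff_ex hσ _)
  have t1 : Test V (fun z => Db σ 0 (fun z => ζ z * ex σ (-2) z) z * ex σ 2 z) :=
    test_mul (test_Db hσ 0 hζ') (contDiff_ex hσ _)
  have l1 := cs t1 hg sx sg
  have l2 := cs hζ hDg sx (fun n => contDiff_Db hσ _ (sg n))
  have l3 := (l1.neg).sub l2
  rw [neg_zero, sub_zero] at l3
  refine l3.congr fun n => ?_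
  have h := ibp_Db hσ k hζ' (sx n) (sg n)
  have e0 : ∀ z, ex σ 2 z * (ζ z * ex σ (-2) z * (Db σ k (x n) z * g n z))
      = ζ z * (Db σ k (x n) z * g n z) := fun z => by
    linear_combination (ζ z * (Db σ k (x n) z * g n z)) * NUL.ex_cancel (σ := σ) z
  have e1 : ∀ z, ex σ 2 z * (ζ z * ex σ (-2) z * (x n z * Db σ (-k + 1) (g n) z))
      = ζ z * (x n z * Db σ (-k + 1) (g n) z) := fun z => by
    linear_combination (ζ z * (x n z * Db σ (-k + 1) (g n) z)) * NUL.ex_cancel (σ := σ) z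
  have e2 : ∀ z, ex σ 2 z * (Db σ 0 (fun z => ζ z * ex σ (-2) z) z * (x n z * g n z))
      = Db σ 0 (fun z => ζ z * ex σ (-2) z) z * ex σ 2 z * (x n z * g n z) := fun z => by ring
  simp only [e0, e1, e2] at h
  exact h.symm

end NULZ

open NULZ

theorem stmtNulZ (hNid : QJ.StmtNid) : StmtNulZ := by
  intro V σ N A B C x y A' B' C' x' y' hV hσ sA sB sC sA' sB' sC' P P' ζ hζ
  have hζ' : Test V (fun z => ζ z * ex σ (-2) z) := test_mul hζ (contDiff_ex hσ _)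
  set ζ' : ℂ → ℂ := fun z => ζ z * ex σ (-2) z with hζ'def
  -- smoothness
  have sDx : ∀ n, ContDiff ℝ ∞ (D σ (N + 1) (x n)) := fun n => contDiff_D hσ _ (P.sx n)
  have sDby : ∀ n, ContDiff ℝ ∞ (Db σ (N - 1) (y n)) := fun n => contDiff_Db hσ _ (P.sy n)
  have sDx' : ∀ n, ContDiff ℝ ∞ (D σ (-N + 1) (x' n)) := fun n => contDiff_D hσ _ (P'.sx n)
  have sDby' : ∀ n, ContDiff ℝ ∞ (Db σ (-N - 1) (y' n)) := fun n => contDiff_Db hσ _ (P'.sy n)
  have sa : ∀ n, ContDiff ℝ ∞ (fun z => A n z - D σ (N + 1) (x n) z) := fun n => (sA n).sub (sDx n)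
  have sc : ∀ n, ContDiff ℝ ∞ (fun z => C n z - Db σ (N - 1) (y n) z) := fun n =>
    (sC n).sub (sDby n)
  have sa' : ∀ n, ContDiff ℝ ∞ (fun z => A' n z - D σ (-N + 1) (x' n) z) := fun n =>
    (sA' n).sub (sDx' n)
  have sc' : ∀ n, ContDiff ℝ ∞ (fun z => C' n z - Db σ (-N - 1) (y' n) z) := fun n =>
    (sC' n).sub (sDby' n)
  -- the six error terms
  have T1 := limD hσ hζ (N + 1) (-N - 2) (by ring) (Or.inl ⟨P.lx, P'.lc⟩) (Or.inl ⟨P.lx, P'.ldc⟩) P.sx sc'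
  have T2 := limDb hσ hζ (-N - 1) (N + 2) (by ring) (Or.inr ⟨P'.ly, P.la⟩) (Or.inr ⟨P'.ly, P.lda⟩) P'.sy sa
  have T3 := cs hζ (Or.inl ⟨P.la, P'.lc⟩) sa sc'
  have T4 := limDb hσ hζ (N - 1) (-N + 2) (by ring) (Or.inl ⟨P.ly, P'.la⟩) (Or.inl ⟨P.ly, P'.lda⟩) P.sy sa'
  have T5 := limD hσ hζ (-N + 1) (N - 2) (by ring) (Or.inr ⟨P'.lx, P.lc⟩) (Or.inr ⟨P'.lx, P.ldc⟩) P'.sx sc
  have T6 := cs hζ (Or.inl ⟨P.lc, P'.la⟩) sc sa'
  -- the main term
  have u1 : Test V (fun z => Db σ 1 (D σ 0 ζ') z * ex σ 2 z) :=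
    test_mul (test_Db hσ 1 (test_D hσ 0 hζ')) (contDiff_ex hσ _)
  have u2 : Test V (fun z => D σ 1 (D σ 0 ζ') z * ex σ 2 z) :=
    test_mul (test_D hσ 1 (test_D hσ 0 hζ')) (contDiff_ex hσ _)
  have u3 : Test V (fun z => Db σ (-1) (Db σ 0 ζ') z * ex σ 2 z) :=
    test_mul (test_Db hσ (-1) (test_Db hσ 0 hζ')) (contDiff_ex hσ _)
  have u4 : Test V (fun z => ζ' z * (ex σ 2 z * (2 * curv σ z * (N - 1)))) :=
    test_mul hζ' ((contDiff_ex hσ _).mul ((contDiff_const.mul (NUL.contDiff_curv hσ)).mul contDiff_const))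
  have u5 : Test V (fun z => ζ' z * (ex σ 2 z * (2 * curv σ z * (N + 1)))) :=
    test_mul hζ' ((contDiff_ex hσ _).mul ((contDiff_const.mul (NUL.contDiff_curv hσ)).mul contDiff_const))
  have M1 := cs u1 (Or.inl ⟨P.lx, P'.ly⟩) P.sx P'.sy
  have M2 := cs u1 (Or.inr ⟨P'.lx, P.ly⟩) P'.sx P.sy
  have M3 := cs u2 (Or.inl ⟨P.ly, P'.ly⟩) P.sy P'.sy
  have M4 := cs u3 (Or.inl ⟨P.lx, P'.lx⟩) P.sx P'.sx
  have M5 := cs u4 (Or.inr ⟨P'.lx, P.ly⟩) P'.sx P.sy
  have M6 := cs u5 (Or.inl ⟨P.lx, P'.ly⟩) P.sx P'.sy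
  have M : Tendsto (fun n => ∫ z, ζ z * (D σ (N + 1) (x n) z * Db σ (-N - 1) (y' n) z
        + Db σ (N - 1) (y n) z * D σ (-N + 1) (x' n) z
        - Db σ (N + 1) (x n) z * D σ (-N - 1) (y' n) z
        - D σ (N - 1) (y n) z * Db σ (-N + 1) (x' n) z)) atTop (𝓝 0) := by
    have l := ((((M1.add M2).sub M3).sub M4).add M5).sub M6
    simp only [add_zero, sub_zero] at l
    refine l.congr fun n => ?_
    have h := hNid V σ N (x n) (y n) (x' n) (y' n) ζ' hV hσ (P.sx n) (P.sy n) (P'.sx n) (P'.sy n)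
      hζ' (fun z hz => by rw [P.hx n z hz, P.hy n z hz])
      (fun z hz => by rw [P'.hx n z hz, P'.hy n z hz])
    have e0 : ∀ z, ex σ 2 z * (ζ' z * (D σ (N + 1) (x n) z * Db σ (-N - 1) (y' n) z
        + Db σ (N - 1) (y n) z * D σ (-N + 1) (x' n) z
        - Db σ (N + 1) (x n) z * D σ (-N - 1) (y' n) z
        - D σ (N - 1) (y n) z * Db σ (-N + 1) (x' n) z))
        = ζ z * (D σ (N + 1) (x n) z * Db σ (-N - 1) (y' n) z
        + Db σ (N - 1) (y n) z * D σ (-N + 1) (x' n) z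
        - Db σ (N + 1) (x n) z * D σ (-N - 1) (y' n) z
        - D σ (N - 1) (y n) z * Db σ (-N + 1) (x' n) z) := fun z => by
      simp only [hζ'def]
      linear_combination (ζ z * (D σ (N + 1) (x n) z * Db σ (-N - 1) (y' n) z
        + Db σ (N - 1) (y n) z * D σ (-N + 1) (x' n) z
        - Db σ (N + 1) (x n) z * D σ (-N - 1) (y' n) z
        - D σ (N - 1) (y n) z * Db σ (-N + 1) (x' n) z)) * NUL.ex_cancel (σ := σ) z
    simp only [e0] at h
    rw [h]
    have i1 := NUL.int1 u1 (P.sx n) (P'.sy n)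
    have i2 := NUL.int1 u1 (P'.sx n) (P.sy n)
    have i3 := NUL.int1 u2 (P.sy n) (P'.sy n)
    have i4 := NUL.int1 u3 (P.sx n) (P'.sx n)
    have i5 := NUL.int1 u4 (P'.sx n) (P.sy n)
    have i6 := NUL.int1 u5 (P.sx n) (P'.sy n)
    refine (NUL.sum6 i1 i2 i3 i4 i5 i6).trans (integral_congr_ae (Filter.Eventually.of_forall fun z => ?_))
    simp only []
    ring
  have l := (((((M.add T1).add T2).add T3).add T4).add T5).add T6
  simp only [add_zero] at l
  refine l.congr fun n => ?_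
  have j0 : Integrable (fun z => ζ z * (D σ (N + 1) (x n) z * Db σ (-N - 1) (y' n) z
        + Db σ (N - 1) (y n) z * D σ (-N + 1) (x' n) z
        - Db σ (N + 1) (x n) z * D σ (-N - 1) (y' n) z
        - D σ (N - 1) (y n) z * Db σ (-N + 1) (x' n) z)) :=
    test_int hζ (((((sDx n).mul (sDby' n)).add ((sDby n).mul (sDx' n))).sub
      ((contDiff_Db hσ _ (P.sx n)).mul (contDiff_D hσ _ (P'.sy n)))).sub
      ((contDiff_D hσ _ (P.sy n)).mul (contDiff_Db hσ _ (P'.sx n)))).continuous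
  have j1 := NUL.int1 hζ (sDx n) (sc' n)
  have j2 := NUL.int1 hζ (sDby' n) (sa n)
  have j3 := NUL.int1 hζ (sa n) (sc' n)
  have j4 := NUL.int1 hζ (sDby n) (sa' n)
  have j5 := NUL.int1 hζ (sDx' n) (sc n)
  have j6 := NUL.int1 hζ (sc n) (sa' n)
  refine (NUL.sum7 j0 j1 j2 j3 j4 j5 j6).trans (integral_congr_ae (Filter.Eventually.of_forall fun z => ?_))
  simp only []
  by_cases hz : ζ z = 0
  · simp only [hz, zero_mul, add_zero]
  have hzV : z ∈ V := hζ.sub (subset_tsupport _ hz)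
  have b1 := P.hx n z hzV
  have b2 := P.hy n z hzV
  have b3 := P'.hx n z hzV
  have b4 := P'.hy n z hzV
  rw [b1, b2, b3, b4]
  ring

end

end U3
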