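import Pool.Agent.U3.Stmts
import Pool.Agent.QJ.Ops
import Pool.Agent.QJ.Dom

/-!
Integrals depending on a parameter: smoothness and derivatives.
-/

open Complex MeasureTheory Filter Topology Set
open scoped ContDiff

namespace U3

open QE QJ

noncomputable section

namespace PAR

variable {Ω : Type} [MeasurableSpace Ω] {μ : Measure Ω} {p v : Ω → ℂ}

/-- the derivative of a smooth function in the first variable -/
def G1 (F : ℂ × ℂ → ℂ) (w : ℂ) : ℂ × ℂ → ℂ := fun q => fderiv ℝ F q (w, 0)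

lemma contDiff_G1 {F : ℂ × ℂ → ℂ} (hF : ContDiff ℝ ∞ F) (w : ℂ) : ContDiff ℝ ∞ (G1 F w) := by
  unfold G1
  exact (hF.fderiv_right (m := ∞) (by simp)).clm_apply contDiff_const

lemma hasFDerivAt_slice {F : ℂ × ℂ → ℂ} (hF : ContDiff ℝ ∞ F) (x y : ℂ) :
    HasFDerivAt (fun x => F (x, y)) ((fderiv ℝ F (x, y)).comp (ContinuousLinearMap.inl ℝ ℂ ℂ)) x := by
  have h1 : HasFDerivAt F (fderiv ℝ F (x, y)) (x, y) :=
    ((hF.differentiable (by simp)) (x, y)).hasFDerivAt
  have h2 : HasFDerivAt (fun x : ℂ => ((x, y) : ℂ × ℂ)) (ContinuousLinearMap.inl ℝ ℂ ℂ) x :=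
    hasFDerivAt_prodMk_left x y
  exact h1.comp x h2

lemma fderiv_slice {F : ℂ × ℂ → ℂ} (hF : ContDiff ℝ ∞ F) (x y w : ℂ) :
    fderiv ℝ (fun x => F (x, y)) x w = G1 F w (x, y) := by
  rw [(hasFDerivAt_slice hF x y).fderiv]
  simp [G1]

lemma meas_slice {F : ℂ × ℂ → ℂ} (hF : Continuous F) (hp : Measurable p) (x : ℂ) :
    Measurable fun o => F (x, p o) :=
  hF.measurable.comp (measurable_const.prodMk hp)

lemma int_slice [IsFiniteMeasure μ] {F : ℂ × ℂ → ℂ} (hF : Continuous F) (hp : Measurable p)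
    (hv : Measurable v) (hv1 : ∀ o, ‖v o‖ ≤ 1) {K : Set ℂ} (hK : IsCompact K)
    (hpK : ∀ᵐ o ∂μ, p o ∈ K) (x : ℂ) : Integrable (fun o => F (x, p o) * v o) μ := by
  obtain ⟨C, hC⟩ := (isCompact_singleton (x := x)).prod hK |>.exists_bound_of_continuousOn
    hF.continuousOn
  refine Integrable.of_bound ((meas_slice hF hp x).mul hv).aestronglyMeasurable C ?_
  filter_upwards [hpK] with o ho
  rw [norm_mul]
  have h1 := hC (x, p o) ⟨rfl, ho⟩
  calc ‖F (x, p o)‖ * ‖v o‖ ≤ ‖F (x, p o)‖ * 1 := by gcongr; exact hv1 o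
    _ ≤ C := by rw [mul_one]; exact h1

lemma hasFDerivAt_int [IsFiniteMeasure μ] {F : ℂ × ℂ → ℂ} (hF : ContDiff ℝ ∞ F)
    (hp : Measurable p) (hv : Measurable v) (hv1 : ∀ o, ‖v o‖ ≤ 1) {K : Set ℂ} (hK : IsCompact K)
    (hpK : ∀ᵐ o ∂μ, p o ∈ K) (x₀ : ℂ) :
    HasFDerivAt (fun x => ∫ o, F (x, p o) * v o ∂μ)
      (∫ o, v o • (fderiv ℝ F (x₀, p o)).comp (ContinuousLinearMap.inl ℝ ℂ ℂ) ∂μ) x₀ ∧
    Integrable (fun o => v o • (fderiv ℝ F (x₀, p o)).comp (ContinuousLinearMap.inl ℝ ℂ ℂ)) μ := by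
  have hcF' : Continuous fun q : ℂ × ℂ => (fderiv ℝ F q).comp (ContinuousLinearMap.inl ℝ ℂ ℂ) :=
    ((hF.continuous_fderiv (by simp))).clm_comp continuous_const
  obtain ⟨C, hC⟩ := ((isCompact_closedBall x₀ 1).prod hK).exists_bound_of_continuousOn
    hcF'.continuousOn
  have hmeas : AEStronglyMeasurable
      (fun o => v o • (fderiv ℝ F (x₀, p o)).comp (ContinuousLinearMap.inl ℝ ℂ ℂ)) μ := by
    refine hv.aestronglyMeasurable.smul ?_
    have h1 : StronglyMeasurable fun o => ((x₀, p o) : ℂ × ℂ) :=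
      (measurable_const.prodMk hp).stronglyMeasurable
    exact (hcF'.comp_stronglyMeasurable h1).aestronglyMeasurable
  have hb : ∀ᵐ o ∂μ, ∀ x ∈ Metric.closedBall x₀ 1,
      ‖v o • (fderiv ℝ F (x, p o)).comp (ContinuousLinearMap.inl ℝ ℂ ℂ)‖ ≤ C := by
    filter_upwards [hpK] with o ho x hx
    have h1 := hC (x, p o) ⟨hx, ho⟩
    rw [norm_smul]
    calc ‖v o‖ * ‖(fderiv ℝ F (x, p o)).comp (ContinuousLinearMap.inl ℝ ℂ ℂ)‖
        ≤ 1 * ‖(fderiv ℝ F (x, p o)).comp (ContinuousLinearMap.inl ℝ ℂ ℂ)‖ := by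
          gcongr; exact hv1 o
      _ ≤ C := by rw [one_mul]; exact h1
  refine ⟨hasFDerivAt_integral_of_dominated_of_fderiv_le (bound := fun _ => C)
    (F' := fun x o => v o • (fderiv ℝ F (x, p o)).comp (ContinuousLinearMap.inl ℝ ℂ ℂ))
    (Metric.closedBall_mem_nhds x₀ one_pos) ?_ ?_ hmeas hb (integrable_const C) ?_, ?_⟩
  · exact Eventually.of_forall fun x =>
      ((meas_slice hF.continuous hp x).mul hv).aestronglyMeasurable
  · exact int_slice hF.continuous hp hv hv1 hK hpK x₀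
  · refine Eventually.of_forall fun o x _ => ?_
    have h1 := (hasFDerivAt_slice hF x (p o)).mul_const' (v o)
    exact h1.congr_fderiv (by ext w; simp [mul_comm])
  · refine Integrable.of_bound hmeas C ?_
    filter_upwards [hb] with o ho
    exact ho x₀ (Metric.mem_closedBall_self zero_le_one)

lemma fderiv_int [IsFiniteMeasure μ] {F : ℂ × ℂ → ℂ} (hF : ContDiff ℝ ∞ F)
    (hp : Measurable p) (hv : Measurable v) (hv1 : ∀ o, ‖v o‖ ≤ 1) {K : Set ℂ} (hK : IsCompact K)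
    (hpK : ∀ᵐ o ∂μ, p o ∈ K) (x w : ℂ) :
    fderiv ℝ (fun x => ∫ o, F (x, p o) * v o ∂μ) x w = ∫ o, G1 F w (x, p o) * v o ∂μ := by
  obtain ⟨h1, h2⟩ := hasFDerivAt_int hF hp hv hv1 hK hpK x
  rw [h1.fderiv, ContinuousLinearMap.integral_apply h2]
  refine integral_congr_ae (Eventually.of_forall fun o => ?_)
  simp [G1, mul_comm]

lemma contDiff_int [IsFiniteMeasure μ] (hp : Measurable p) (hv : Measurable v)
    (hv1 : ∀ o, ‖v o‖ ≤ 1) {K : Set ℂ} (hK : IsCompact K) (hpK : ∀ᵐ o ∂μ, p o ∈ K) (n : ℕ) :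
    ∀ {F : ℂ × ℂ → ℂ}, ContDiff ℝ ∞ F → ContDiff ℝ n (fun x => ∫ o, F (x, p o) * v o ∂μ) := by
  induction n with
  | zero =>
    intro F hF
    refine contDiff_zero.2 ?_
    exact continuous_iff_continuousAt.2 fun x =>
      (hasFDerivAt_int hF hp hv hv1 hK hpK x).1.continuousAt
  | succ n ih =>
    intro F hF
    have h : ContDiff ℝ ((n : WithTop ℕ∞) + 1) (fun x => ∫ o, F (x, p o) * v o ∂μ) := by
      rw [contDiff_succ_iff_fderiv_apply]
      refine ⟨fun x => (hasFDerivAt_int hF hp hv hv1 hK hpK x).1.differentiableAt,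
        fun h => by simp at h, fun w => ?_⟩
      have e : (fun x => fderiv ℝ (fun x => ∫ o, F (x, p o) * v o ∂μ) x w)
          = fun x => ∫ o, G1 F w (x, p o) * v o ∂μ := by
        funext x; exact fderiv_int hF hp hv hv1 hK hpK x w
      rw [e]
      exact ih (contDiff_G1 hF w)
    exact_mod_cast h

end PAR

open PAR

/-- PAR -/
theorem stmtPar : StmtPar := by
  intro Ω _ μ p v F hμ hp hv hv1 hK hF
  obtain ⟨K, hK, hpK⟩ := hK
  have : IsFiniteMeasure μ := ⟨lt_top_iff_ne_top.2 hμ⟩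
  have hI : ∀ w x, Integrable (fun o => G1 F w (x, p o) * v o) μ := fun w x =>
    int_slice (contDiff_G1 hF w).continuous hp hv hv1 hK hpK x
  refine ⟨contDiff_infty.2 fun n => contDiff_int hp hv hv1 hK hpK n hF, fun z => ?_, fun z => ?_⟩
  · unfold dz
    simp only [fderiv_int hF hp hv hv1 hK hpK, fderiv_slice hF]
    rw [← integral_const_mul, ← integral_sub (hI 1 z) ((hI I z).const_mul I),
      ← integral_const_mul]
    refine integral_congr_ae (Eventually.of_forall fun o => ?_)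
    simp only
    ring
  · unfold dzb
    simp only [fderiv_int hF hp hv hv1 hK hpK, fderiv_slice hF]
    rw [← integral_const_mul, ← integral_add (hI 1 z) ((hI I z).const_mul I),
      ← integral_const_mul]
    refine integral_congr_ae (Eventually.of_forall fun o => ?_)
    simp only
    ring

end

end U3
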