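import Pool.Agent.U3.Stmts
import Pool.Agent.QJ.Ops
import Pool.Agent.QJ.Dom

/-!
PEG: linear growth of the mollified moments
-/

open Complex MeasureTheory Filter Topology Set
open scoped ContDiff

namespace U3

open QE QJ

noncomputable section

namespace PEG

lemma norm_ta (σ : ℂ → ℝ) (z w : ℂ) : ‖ta σ z w‖ = 1 := by
  unfold ta
  exact Complex.norm_exp_ofReal_mul_I _

lemma norm_kern (β : ℝ → ℝ) (σ : ℂ → ℝ) (ε : ℝ) (z w v : ℂ) (hv : ‖v‖ = 1) (k : ℤ)
    (h0 : 0 ≤ ke β σ ε z w) :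
    ‖(ke β σ ε z w : ℂ) * ((ta σ z w)⁻¹ * v) ^ k‖ = ke β σ ε z w := by
  rw [norm_mul, norm_zpow, norm_mul, norm_inv, norm_ta, hv, Complex.norm_real, Real.norm_eq_abs,
    abs_of_nonneg h0]
  simp

/-- a bound of the integral of a norm by a lower integral -/
lemma int_norm_le (f : ℂ → ℂ) (S : Set ℂ) (b : ℝ) (hb : 0 ≤ b)
    (h : ∫⁻ x in S, ENNReal.ofReal ‖f x‖ ≤ ENNReal.ofReal b) : ∫ x in S, ‖f x‖ ≤ b := by
  have h1 := norm_integral_le_lintegral_norm (μ := volume.restrict S) (fun x => ‖f x‖)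
  simp only [norm_norm] at h1
  refine (le_trans (Real.le_norm_self _) h1).trans ?_
  exact ENNReal.toReal_le_of_le_ofReal hb h

variable {Ω : Type} [MeasurableSpace Ω] (μ : Measure Ω) (p u : Ω → ℂ)

/-- pointwise bound of the mollified moments -/
lemma pe_le (β : ℝ → ℝ) (σ : ℂ → ℝ) (ε c r : ℝ) (k : ℤ) (K1 L : Set ℂ) (x : ℂ)
    (hu : ∀ o, ‖u o‖ = 1) (hL : ∀ᵐ o ∂μ, p o ∈ L)
    (h0 : ∀ w ∈ L, 0 ≤ ke β σ ε x w) (h1 : ∀ w ∈ L, ke β σ ε x w ≤ c)
    (h2 : ∀ w ∈ L, r < ‖w - x‖ → ke β σ ε x w = 0)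
    (h3 : ∀ w, dist w x ≤ r → w ∈ K1)
    (hm : MeasurableSet (p ⁻¹' (K1 ∩ Metric.closedBall x r))) :
    ENNReal.ofReal ‖pe β σ ε μ p u k x‖
      ≤ ENNReal.ofReal c * μ (p ⁻¹' (K1 ∩ Metric.closedBall x r)) := by
  have e1 : ENNReal.ofReal ‖pe β σ ε μ p u k x‖
      ≤ ∫⁻ o, ENNReal.ofReal ‖(ke β σ ε x (p o) : ℂ) * ((ta σ x (p o))⁻¹ * u o) ^ k‖ ∂μ := by
    refine (ENNReal.ofReal_le_ofReal (norm_integral_le_lintegral_norm _)).trans ?_
    exact ENNReal.ofReal_toReal_le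
  refine e1.trans ?_
  have e2 : ∫⁻ o, ENNReal.ofReal ‖(ke β σ ε x (p o) : ℂ) * ((ta σ x (p o))⁻¹ * u o) ^ k‖ ∂μ
      ≤ ∫⁻ o, (p ⁻¹' (K1 ∩ Metric.closedBall x r)).indicator (fun _ => ENNReal.ofReal c) o ∂μ := by
    refine lintegral_mono_ae ?_
    filter_upwards [hL] with o ho
    rw [norm_kern β σ ε x (p o) (u o) (hu o) k (h0 _ ho)]
    by_cases hd : dist (p o) x ≤ r
    · rw [indicator_of_mem (show o ∈ p ⁻¹' (K1 ∩ Metric.closedBall x r) from
        ⟨h3 _ hd, Metric.mem_closedBall.2 hd⟩)]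
      exact ENNReal.ofReal_le_ofReal (h1 _ ho)
    · rw [h2 _ ho (by rw [← dist_eq_norm]; exact not_le.1 hd), ENNReal.ofReal_zero]
      exact zero_le
  refine e2.trans ?_
  rw [lintegral_indicator hm, lintegral_const, Measure.restrict_apply_univ]

/-- the swap of the two integrals -/
lemma swap [IsFiniteMeasure μ] (hp : Measurable p) (K1 S : Set ℂ) (hK1 : MeasurableSet K1)
    (hS : MeasurableSet S) (z : ℂ) (s r : ℝ) (hSz : S ⊆ Metric.closedBall z s) :
    ∫⁻ x in S, μ (p ⁻¹' (K1 ∩ Metric.closedBall x r))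
      ≤ μ (p ⁻¹' (K1 ∩ Metric.closedBall z (s + r))) * (ENNReal.ofReal r ^ 2 * NNReal.pi) := by
  set T : Set (ℂ × Ω) := {q | p q.2 ∈ K1 ∧ dist (p q.2) q.1 ≤ r} with hT
  have hTm : MeasurableSet T := by
    have a1 : Measurable fun q : ℂ × Ω => p q.2 := hp.comp measurable_snd
    exact (a1 hK1).inter (measurableSet_le (a1.dist measurable_fst) measurable_const)
  have e1 : ∫⁻ x in S, μ (p ⁻¹' (K1 ∩ Metric.closedBall x r))
      = ((volume.restrict S).prod μ) T := by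
    rw [Measure.prod_apply hTm]
    rfl
  rw [e1, Measure.prod_apply_symm hTm]
  have hm2 : MeasurableSet (p ⁻¹' (K1 ∩ Metric.closedBall z (s + r))) :=
    hp (hK1.inter Metric.isClosed_closedBall.measurableSet)
  have e2 : ∫⁻ o, (volume.restrict S) ((fun x => (x, o)) ⁻¹' T) ∂μ
      ≤ ∫⁻ o, (p ⁻¹' (K1 ∩ Metric.closedBall z (s + r))).indicator
        (fun _ => ENNReal.ofReal r ^ 2 * NNReal.pi) o ∂μ := by
    refine lintegral_mono fun o => ?_
    rw [Measure.restrict_apply (measurable_prodMk_right hTm)]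
    by_cases ho : p o ∈ K1 ∧ dist (p o) z ≤ s + r
    · rw [indicator_of_mem (show o ∈ p ⁻¹' (K1 ∩ Metric.closedBall z (s + r)) from
        ⟨ho.1, Metric.mem_closedBall.2 ho.2⟩), ← Complex.volume_closedBall (p o) r]
      refine measure_mono ?_
      rintro x ⟨hx, -⟩
      rw [Metric.mem_closedBall, dist_comm]
      exact hx.2
    · have : (fun x => (x, o)) ⁻¹' T ∩ S = ∅ := by
        ext x
        simp only [mem_inter_iff, mem_preimage, mem_empty_iff_false, iff_false, not_and]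
        intro hx hxS
        refine ho ⟨hx.1, ?_⟩
        have h1 := hSz hxS
        rw [Metric.mem_closedBall] at h1
        have h2 : dist (p o) x ≤ r := hx.2
        linarith [dist_triangle (p o) x z]
      rw [this, measure_empty]
      exact zero_le
  refine e2.trans ?_
  rw [lintegral_indicator hm2, lintegral_const, Measure.restrict_apply_univ, mul_comm]

end PEG

/-- PEG -/
theorem stmtPeG (hKsz : StmtKsz) : StmtPeG := by
  intro β V σ Ω _ μ p u ε k hβ hV hσ hD hε hε0 K hK hKV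
  have : IsFiniteMeasure μ := ⟨lt_top_iff_ne_top.2 hD.fin⟩
  obtain ⟨L, hL, hLo⟩ := hD.cpt
  obtain ⟨r0, hr0, hr0V⟩ := hK.exists_cthickening_subset_open hV hKV
  set K1 := Metric.cthickening r0 K with hK1
  have hK1c : IsCompact K1 := hK.cthickening
  have hKK1 : K ⊆ K1 := Metric.self_subset_cthickening K
  obtain ⟨C1', hC1'⟩ := hD.grow K1 hK1c hr0V
  obtain ⟨C0, hC0, hke⟩ := hKsz β σ (K ∪ L) hβ hσ (hK.union hL)
  set C1 := max C1' 0 with hC1def
  have hC1 : 0 ≤ C1 := le_max_right _ _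
  have hC1g : ∀ z ∈ K1, ∀ s > 0,
      μ (p ⁻¹' (K1 ∩ Metric.closedBall z s)) ≤ ENNReal.ofReal (C1 * s) := by
    intro z hz s hs
    rw [← ENNReal.ofReal_toReal (measure_ne_top μ _)]
    refine ENNReal.ofReal_le_ofReal ((hC1' z hz s hs).trans ?_)
    exact mul_le_mul_of_nonneg_right (le_max_left _ _) hs.le
  refine ⟨Real.pi * C0 ^ 2 * C1 + Real.pi * C0 ^ 3 * C1 * (1 + C0), ?_⟩
  have hev : ∀ᶠ n in atTop, ε n < r0 / C0 :=
    hε0.eventually (gt_mem_nhds (div_pos hr0 hC0))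
  filter_upwards [hev] with n hn z hz s hs
  have hεn := hε n
  have hρ : C0 * ε n ≤ r0 := by
    rw [lt_div_iff₀ hC0] at hn
    linarith
  have hρ0 : 0 < C0 * ε n := mul_pos hC0 hεn
  have hc0 : 0 ≤ C0 / ε n ^ 2 := by positivity
  have hK1m : MeasurableSet K1 := hK1c.measurableSet
  have hSm : MeasurableSet (K ∩ Metric.closedBall z s) :=
    hK.measurableSet.inter Metric.isClosed_closedBall.measurableSet
  have hpt : ∀ x ∈ K, ENNReal.ofReal ‖pe β σ (ε n) μ p u k x‖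
      ≤ ENNReal.ofReal (C0 / ε n ^ 2) * μ (p ⁻¹' (K1 ∩ Metric.closedBall x (C0 * ε n))) := by
    intro x hx
    refine PEG.pe_le μ p u β σ (ε n) _ _ k K1 L x hD.unit hLo ?_ ?_ ?_ ?_ ?_
    · intro w hw
      exact (hke (ε n) hεn x (Or.inl hx) w (Or.inr hw)).1
    · intro w hw
      exact (hke (ε n) hεn x (Or.inl hx) w (Or.inr hw)).2.1
    · intro w hw
      exact (hke (ε n) hεn x (Or.inl hx) w (Or.inr hw)).2.2.1
    · intro w hw
      exact Metric.mem_cthickening_of_dist_le w x r0 K hx (hw.trans hρ)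
    · exact hD.mp (hK1m.inter Metric.isClosed_closedBall.measurableSet)
  have hpt2 : ∫⁻ x in K ∩ Metric.closedBall z s, ENNReal.ofReal ‖pe β σ (ε n) μ p u k x‖
      ≤ ∫⁻ x in K ∩ Metric.closedBall z s,
        ENNReal.ofReal (C0 / ε n ^ 2) * μ (p ⁻¹' (K1 ∩ Metric.closedBall x (C0 * ε n))) := by
    refine setLIntegral_mono' hSm fun x hx => hpt x hx.1
  have hpi : (NNReal.pi : ENNReal) = ENNReal.ofReal Real.pi := by
    rw [ENNReal.ofReal, ← NNReal.coe_real_pi, Real.toNNReal_coe]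
  by_cases hsε : s ≤ ε n
  · -- small balls
    have hb : ∫⁻ x in K ∩ Metric.closedBall z s, ENNReal.ofReal ‖pe β σ (ε n) μ p u k x‖
        ≤ ENNReal.ofReal (C0 / ε n ^ 2 * (C1 * (C0 * ε n)) * (s ^ 2 * Real.pi)) := by
      refine hpt2.trans ?_
      have h1 : ∫⁻ x in K ∩ Metric.closedBall z s,
          ENNReal.ofReal (C0 / ε n ^ 2) * μ (p ⁻¹' (K1 ∩ Metric.closedBall x (C0 * ε n)))
          ≤ ∫⁻ x in K ∩ Metric.closedBall z s,
            ENNReal.ofReal (C0 / ε n ^ 2 * (C1 * (C0 * ε n))) := by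
        refine setLIntegral_mono' hSm fun x hx => ?_
        rw [ENNReal.ofReal_mul hc0]
        exact mul_le_mul' le_rfl (hC1g x (hKK1 hx.1) _ hρ0)
      refine h1.trans ?_
      rw [lintegral_const, Measure.restrict_apply_univ,
        ENNReal.ofReal_mul (p := C0 / ε n ^ 2 * (C1 * (C0 * ε n))) (by positivity)]
      refine mul_le_mul' le_rfl ?_
      refine (measure_mono inter_subset_right).trans ?_
      rw [Complex.volume_closedBall, ENNReal.ofReal_mul (p := s ^ 2) (by positivity), hpi,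
        ENNReal.ofReal_pow hs.le]
    refine (PEG.int_norm_le _ _ _ (by positivity) hb).trans ?_
    have h2 : C0 / ε n ^ 2 * (C1 * (C0 * ε n)) * (s ^ 2 * Real.pi)
        = Real.pi * C0 ^ 2 * C1 * (s / ε n) * s := by
      field_simp
    rw [h2]
    have h3 : s / ε n ≤ 1 := by
      rw [div_le_one hεn]
      exact hsε
    have h4 : Real.pi * C0 ^ 2 * C1 * (s / ε n) ≤ Real.pi * C0 ^ 2 * C1 * 1 :=
      mul_le_mul_of_nonneg_left h3 (by positivity)
    have h5 : 0 ≤ Real.pi * C0 ^ 3 * C1 * (1 + C0) := by positivity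
    refine mul_le_mul_of_nonneg_right ?_ hs.le
    linarith
  · -- large balls
    have hsε' : ε n < s := not_le.1 hsε
    have hb : ∫⁻ x in K ∩ Metric.closedBall z s, ENNReal.ofReal ‖pe β σ (ε n) μ p u k x‖
        ≤ ENNReal.ofReal (C0 / ε n ^ 2 * (C1 * (s + C0 * ε n) * ((C0 * ε n) ^ 2 * Real.pi))) := by
      refine hpt2.trans ?_
      rw [lintegral_const_mul' _ _ ENNReal.ofReal_ne_top, ENNReal.ofReal_mul hc0]
      refine mul_le_mul' le_rfl ?_
      refine (PEG.swap μ p hD.mp K1 _ hK1m hSm z s (C0 * ε n) inter_subset_right).trans ?_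
      rw [ENNReal.ofReal_mul (p := C1 * (s + C0 * ε n)) (mul_nonneg hC1 (by positivity)),
        ENNReal.ofReal_mul (p := (C0 * ε n) ^ 2) (by positivity), hpi, ENNReal.ofReal_pow hρ0.le]
      exact mul_le_mul' (hC1g z (hKK1 hz) _ (by positivity)) le_rfl
    refine (PEG.int_norm_le _ _ _ (by positivity) hb).trans ?_
    have h2 : C0 / ε n ^ 2 * (C1 * (s + C0 * ε n) * ((C0 * ε n) ^ 2 * Real.pi))
        = Real.pi * C0 ^ 3 * C1 * (s + C0 * ε n) := by
      field_simp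
    rw [h2]
    have h3 : s + C0 * ε n ≤ (1 + C0) * s := by
      have := mul_le_mul_of_nonneg_left hsε'.le hC0.le
      linarith
    have h4 : Real.pi * C0 ^ 3 * C1 * (s + C0 * ε n) ≤ Real.pi * C0 ^ 3 * C1 * ((1 + C0) * s) :=
      mul_le_mul_of_nonneg_left h3 (by positivity)
    have h5 : 0 ≤ Real.pi * C0 ^ 2 * C1 * s := by positivity
    nlinarith

end

end U3
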