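import Pool.Agent.U3.Stmts
import Pool.Agent.U3.PES
import Pool.Agent.U3.PEG
import Pool.Agent.QJ.Ops
import Pool.Agent.QJ.Dom

/-!
PET: transport of the mollified moments
-/

open Complex MeasureTheory Filter Topology Set
open scoped ContDiff

namespace U3

open QE QJ

noncomputable section

namespace PET

/-- the kernel without the density, as a function of two variables -/
def FG (β : ℝ → ℝ) (σ : ℂ → ℝ) (ε : ℝ) (k : ℤ) (x : ℂ × ℂ) : ℂ :=
  (gb β σ ε x.1 x.2 : ℂ) * (ta σ x.1 x.2)⁻¹ ^ k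

lemma contDiff_FG {β : ℝ → ℝ} {σ : ℂ → ℝ} (hβ : ContDiff ℝ ∞ β) (hσ : ContDiff ℝ ∞ σ) (ε : ℝ)
    (k : ℤ) : ContDiff ℝ ∞ (FG β σ ε k) := by
  have h1 : FG β σ ε k = fun x => ex σ (-2) x.2 * PES.FK β σ ε k x := by
    funext x
    have h2 : ex σ (-2) x.2 * (Real.exp (2 * σ x.2) : ℂ) = 1 := by
      have := ex_mul σ (-2) 2 x.2
      rw [show (-2 : ℤ) + 2 = 0 by norm_num, ex_zero] at this
      simpa [ex] using this
    unfold FG PES.FK ke
    rw [Complex.ofReal_mul]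
    linear_combination (-(gb β σ ε x.1 x.2 : ℂ) * (ta σ x.1 x.2)⁻¹ ^ k) * h2
  rw [h1]
  exact ((contDiff_ex hσ (-2)).comp contDiff_snd).mul (PES.contDiff_FK hβ hσ ε k)

lemma fderiv_fst {F : ℂ × ℂ → ℂ} (hF : ContDiff ℝ ∞ F) (z w v : ℂ) :
    fderiv ℝ (fun x => F (x, w)) z v = fderiv ℝ F (z, w) (v, 0) := by
  have h1 : HasFDerivAt F (fderiv ℝ F (z, w)) (z, w) :=
    (hF.differentiable (by simp)).differentiableAt.hasFDerivAt
  have h2 : HasFDerivAt (fun x : ℂ => (x, w)) (ContinuousLinearMap.inl ℝ ℂ ℂ) z :=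
    hasFDerivAt_prodMk_left z w
  have h3 := h1.comp z h2
  have h4 : fderiv ℝ (fun x => F (x, w)) z
      = (fderiv ℝ F (z, w)).comp (ContinuousLinearMap.inl ℝ ℂ ℂ) := h3.fderiv
  rw [h4]
  rfl

lemma cont_fderiv {F : ℂ × ℂ → ℂ} (hF : ContDiff ℝ ∞ F) (z v : ℂ) :
    Continuous fun w => fderiv ℝ (fun x => F (x, w)) z v := by
  simp only [fderiv_fst hF]
  have h1 : Continuous (fderiv ℝ F) := hF.continuous_fderiv (by simp)
  exact (h1.comp (by fun_prop : Continuous fun w : ℂ => (z, w))).clm_apply continuous_const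

lemma cont_D {F : ℂ × ℂ → ℂ} {σ : ℂ → ℝ} (hσ : ContDiff ℝ ∞ σ) (hF : ContDiff ℝ ∞ F) (k : ℤ)
    (z : ℂ) : Continuous fun w => D σ k (fun x => F (x, w)) z := by
  have h1 : ContDiff ℝ ∞ fun x : ℂ × ℂ => ex σ (-k) x.1 * F x :=
    ((contDiff_ex hσ (-k)).comp contDiff_fst).mul hF
  unfold D dz
  have h2 := cont_fderiv h1 z 1
  have h3 := cont_fderiv h1 z I
  simp only at h2 h3
  exact continuous_const.mul (continuous_const.mul (h2.sub (continuous_const.mul h3)))

lemma cont_Db {F : ℂ × ℂ → ℂ} {σ : ℂ → ℝ} (hσ : ContDiff ℝ ∞ σ) (hF : ContDiff ℝ ∞ F) (k : ℤ)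
    (z : ℂ) : Continuous fun w => Db σ k (fun x => F (x, w)) z := by
  have h1 : ContDiff ℝ ∞ fun x : ℂ × ℂ => ex σ k x.1 * F x :=
    ((contDiff_ex hσ k).comp contDiff_fst).mul hF
  unfold Db dzb
  have h2 := cont_fderiv h1 z 1
  have h3 := cont_fderiv h1 z I
  simp only at h2 h3
  exact continuous_const.mul (continuous_const.mul (h2.add (continuous_const.mul h3)))

variable {Ω : Type} [MeasurableSpace Ω] {μ : Measure Ω} {p u : Ω → ℂ}

lemma integrable_comp [IsFiniteMeasure μ] (hp : Measurable p) (hu : Measurable u)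
    (hu1 : ∀ o, ‖u o‖ = 1) {L : Set ℂ} (hL : IsCompact L) (hLo : ∀ᵐ o ∂μ, p o ∈ L)
    {G : ℂ → ℂ} (hG : Continuous G) (k : ℤ) : Integrable (fun o => G (p o) * u o ^ k) μ := by
  obtain ⟨c, hc⟩ := hL.exists_bound_of_continuousOn hG.continuousOn
  refine Integrable.of_bound ((hG.measurable.comp hp).mul (hu.pow_const k)).aestronglyMeasurable
    c ?_
  filter_upwards [hLo] with o ho
  rw [norm_mul, norm_zpow, hu1, one_zpow, mul_one]
  exact hc _ ho

lemma D_congr (σ : ℂ → ℝ) (k : ℤ) {f g : ℂ → ℂ} {z : ℂ} (h : f =ᶠ[𝓝 z] g) :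
    D σ k f z = D σ k g z := by
  have h1 : (fun w => ex σ (-k) w * f w) =ᶠ[𝓝 z] fun w => ex σ (-k) w * g w :=
    h.mono fun x hx => by simp only [hx]
  unfold D
  rw [dz_congr h1]

lemma Db_congr (σ : ℂ → ℝ) (k : ℤ) {f g : ℂ → ℂ} {z : ℂ} (h : f =ᶠ[𝓝 z] g) :
    Db σ k f z = Db σ k g z := by
  have h1 : (fun w => ex σ k w * f w) =ᶠ[𝓝 z] fun w => ex σ k w * g w :=
    h.mono fun x hx => by simp only [hx]
  unfold Db
  rw [dzb_congr h1]

/-- the representation of the transport error -/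
lemma repr (hPeS : StmtPeS) {β : ℝ → ℝ} {V : Set ℂ} {σ : ℂ → ℝ} (hβ : Bump β)
    (hV : IsOpen V) (hσ : ContDiff ℝ ∞ σ) (hD : DirM V σ μ p u) (k : ℤ) {L : Set ℂ}
    (hL : IsCompact L) (hLo : ∀ᵐ o ∂μ, p o ∈ L) {χ : ℂ → ℂ} (hχ : Test V χ) {ε : ℝ} (hε : 0 < ε)
    (z : ℂ) (hloc : ∀ w ∈ L, (fun y => χ y * FG β σ ε k (z, y)) =ᶠ[𝓝 w] fun y => FG β σ ε k (z, y)) :
    Db σ (k + 1) (pe β σ ε μ p u (k + 1)) z - D σ (k - 1) (pe β σ ε μ p u (k - 1)) z
      = ∫ o, ((Db σ (k + 1) (fun x => (ke β σ ε x (p o) : ℂ) * (ta σ x (p o))⁻¹ ^ (k + 1)) z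
          + ex σ 2 (p o) * Db σ (-k) (fun y => (gb β σ ε z y : ℂ) * (ta σ z y)⁻¹ ^ k) (p o))
            * u o ^ (k + 1)
        - (D σ (k - 1) (fun x => (ke β σ ε x (p o) : ℂ) * (ta σ x (p o))⁻¹ ^ (k - 1)) z
          + ex σ 2 (p o) * D σ (-k) (fun y => (gb β σ ε z y : ℂ) * (ta σ z y)⁻¹ ^ k) (p o))
            * u o ^ (k - 1)) ∂μ := by
  have : IsFiniteMeasure μ := ⟨lt_top_iff_ne_top.2 hD.fin⟩
  have hf : ContDiff ℝ ∞ fun y => FG β σ ε k (z, y) :=
    (contDiff_FG hβ.smooth hσ ε k).comp (contDiff_const.prodMk contDiff_id)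
  have hT : Test V (fun y => χ y * FG β σ ε k (z, y)) := test_mul hχ hf
  have h0 := hD.transport k _ hT
  have e1 := (hPeS β V σ Ω μ p u hβ hσ hD ε hε (k + 1)).2.2 (k + 1) z
  have e2 := (hPeS β V σ Ω μ p u hβ hσ hD ε hε (k - 1)).2.1 (k - 1) z
  have i1 : Integrable (fun o => Db σ (k + 1)
      (fun x => (ke β σ ε x (p o) : ℂ) * (ta σ x (p o))⁻¹ ^ (k + 1)) z * u o ^ (k + 1)) μ :=
    integrable_comp hD.mp hD.mu hD.unit hL hLo
      (cont_Db hσ (PES.contDiff_FK hβ.smooth hσ ε (k + 1)) (k + 1) z) (k + 1)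
  have i2 : Integrable (fun o => D σ (k - 1)
      (fun x => (ke β σ ε x (p o) : ℂ) * (ta σ x (p o))⁻¹ ^ (k - 1)) z * u o ^ (k - 1)) μ :=
    integrable_comp hD.mp hD.mu hD.unit hL hLo
      (cont_D hσ (PES.contDiff_FK hβ.smooth hσ ε (k - 1)) (k - 1) z) (k - 1)
  have i3 : Integrable (fun o => (ex σ 2 (p o) *
      Db σ (-k) (fun y => (gb β σ ε z y : ℂ) * (ta σ z y)⁻¹ ^ k) (p o)) * u o ^ (k + 1)) μ :=
    integrable_comp (G := fun w => ex σ 2 w *
      Db σ (-k) (fun y => (gb β σ ε z y : ℂ) * (ta σ z y)⁻¹ ^ k) w) hD.mp hD.mu hD.unit hL hLo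
      ((contDiff_ex hσ 2).continuous.mul (contDiff_Db hσ (-k) hf).continuous) (k + 1)
  have i4 : Integrable (fun o => (ex σ 2 (p o) *
      D σ (-k) (fun y => (gb β σ ε z y : ℂ) * (ta σ z y)⁻¹ ^ k) (p o)) * u o ^ (k - 1)) μ :=
    integrable_comp (G := fun w => ex σ 2 w *
      D σ (-k) (fun y => (gb β σ ε z y : ℂ) * (ta σ z y)⁻¹ ^ k) w) hD.mp hD.mu hD.unit hL hLo
      ((contDiff_ex hσ 2).continuous.mul (contDiff_D hσ (-k) hf).continuous) (k - 1)
  have h1 : ∫ o, ex σ 2 (p o) *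
      (Db σ (-k) (fun y => χ y * FG β σ ε k (z, y)) (p o) * u o ^ (k + 1)
        - D σ (-k) (fun y => χ y * FG β σ ε k (z, y)) (p o) * u o ^ (k - 1)) ∂μ
      = ∫ o, ((ex σ 2 (p o) *
          Db σ (-k) (fun y => (gb β σ ε z y : ℂ) * (ta σ z y)⁻¹ ^ k) (p o)) * u o ^ (k + 1)
        - (ex σ 2 (p o) *
          D σ (-k) (fun y => (gb β σ ε z y : ℂ) * (ta σ z y)⁻¹ ^ k) (p o)) * u o ^ (k - 1)) ∂μ := by
    refine integral_congr_ae ?_
    filter_upwards [hLo] with o ho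
    rw [Db_congr σ (-k) (hloc _ ho), D_congr σ (-k) (hloc _ ho)]
    simp only [FG]
    ring
  rw [h1, integral_sub i3 i4] at h0
  rw [e1, e2]
  have h2 : ∀ a b c d e f : ℂ, (a + b) * c - (d + e) * f = (a * c + b * c) - (d * f + e * f) := by
    intros
    ring
  simp only [h2]
  have j1 := integral_sub (i1.add i3) (i2.add i4)
  have j2 := integral_add i1 i3
  have j3 := integral_add i2 i4
  simp only [Pi.add_apply] at j1
  rw [j1, j2, j3]
  linear_combination (-1 : ℂ) * h0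

end PET

open PET in
/-- PET -/
theorem stmtPeT (hPeS : StmtPeS) (hKer : StmtKer) (hKem : StmtKem) (hKsz : StmtKsz) :
    StmtPeT := by
  intro β V σ Ω _ μ p u ε k hβ hV hσ hD hε hε0 K hK hKV
  have : IsFiniteMeasure μ := ⟨lt_top_iff_ne_top.2 hD.fin⟩
  obtain ⟨L, hL, hLo⟩ := hD.cpt
  obtain ⟨r0, hr0, hr0V⟩ := hK.exists_cthickening_subset_open hV hKV
  set K1 := Metric.cthickening r0 K with hK1
  have hK1c : IsCompact K1 := hK.cthickening
  have hKK1 : K ⊆ K1 := Metric.self_subset_cthickening K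
  obtain ⟨χ, hχ, hχ1, -⟩ := QE.exists_cutoff hV hK1c hr0V
  obtain ⟨C1', hC1'⟩ := hD.grow K1 hK1c hr0V
  set C1 := max C1' 0 with hC1def
  have hC1 : 0 ≤ C1 := le_max_right _ _
  set Q := Metric.cthickening 1 (K1 ∪ L) with hQ
  have hQc : IsCompact Q := (hK1c.union hL).cthickening
  have hQs : K1 ∪ L ⊆ Q := Metric.self_subset_cthickening _
  obtain ⟨Ca, εa, hCa, hεa, ha⟩ := hKer β σ k Q hβ hσ hQc
  obtain ⟨Cb, εb, hCb, hεb, hb⟩ := hKem β σ k Q hβ hσ hQc
  obtain ⟨Cc, hCc, hc⟩ := hKsz β σ Q hβ hσ hQc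
  set C := max Ca (max Cb Cc) with hCdef
  have hCaC : Ca ≤ C := le_max_left _ _
  have hCbC : Cb ≤ C := (le_max_left _ _).trans (le_max_right _ _)
  have hCcC : Cc ≤ C := (le_max_right _ _).trans (le_max_right _ _)
  have hC : 0 < C := lt_of_lt_of_le hCa hCaC
  obtain ⟨s, hs⟩ := hK.isBounded.subset_closedBall (0 : ℂ)
  set M := (μ Set.univ).toReal with hM
  have hM0 : 0 ≤ M := ENNReal.toReal_nonneg
  set Y := 4 * Real.pi * C ^ 5 * C1 * M with hY
  have hev1 : ∀ᶠ n in atTop, C * ε n < r0 := by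
    have h1 : Tendsto (fun n => C * ε n) atTop (𝓝 (C * 0)) := hε0.const_mul C
    rw [mul_zero] at h1
    exact h1.eventually (gt_mem_nhds hr0)
  have hev : ∀ᶠ n in atTop, ∫ z in K, ‖Db σ (k + 1) (pe β σ (ε n) μ p u (k + 1)) z
      - D σ (k - 1) (pe β σ (ε n) μ p u (k - 1)) z‖ ^ 2 ≤ Y * ε n := by
    filter_upwards [hev1, hε0.eventually (gt_mem_nhds hεa), hε0.eventually (gt_mem_nhds hεb)]
      with n hn1 hn2 hn3
    have hεn := hε n
    have hρ0 : 0 < C * ε n := mul_pos hC hεn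
    -- the local identity of the test function
    have hloc : ∀ z ∈ K, ∀ w ∈ L, (fun y => χ y * FG β σ (ε n) k (z, y))
        =ᶠ[𝓝 w] fun y => FG β σ (ε n) k (z, y) := by
      intro z hz w hw
      by_cases hw1 : w ∈ K1
      · filter_upwards [hχ1 w hw1] with y hy
        rw [hy, one_mul]
      · have hd : C * ε n < dist w z := by
          by_contra hcon
          exact hw1 (Metric.mem_cthickening_of_dist_le w z r0 K hz
            ((not_lt.1 hcon).trans hn1.le))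
        have hopen : ∀ᶠ y in 𝓝 w, C * ε n < dist y z :=
          (continuous_id.dist continuous_const).continuousAt.eventually (lt_mem_nhds hd)
        have hball : ∀ᶠ y in 𝓝 w, dist y w < 1 := Metric.ball_mem_nhds w one_pos
        filter_upwards [hopen, hball] with y hy1 hy2
        have hyQ : y ∈ Q := Metric.mem_cthickening_of_dist_le y w 1 _ (Or.inr hw) hy2.le
        have hz1 : z ∈ Q := hQs (Or.inl (hKK1 hz))
        have hk0 : ke β σ (ε n) z y = 0 := by
          refine (hc (ε n) hεn z hz1 y hyQ).2.2.1 ?_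
          rw [← dist_eq_norm]
          exact lt_of_le_of_lt (mul_le_mul_of_nonneg_right hCcC hεn.le) hy1
        have hg0 : gb β σ (ε n) z y = 0 := by
          unfold ke at hk0
          exact (mul_eq_zero.1 hk0).resolve_left (Real.exp_pos _).ne'
        simp only [FG, hg0, ofReal_zero, zero_mul, mul_zero]
    -- the pointwise bound
    have hpt : ∀ z ∈ K, ENNReal.ofReal ‖Db σ (k + 1) (pe β σ (ε n) μ p u (k + 1)) z
        - D σ (k - 1) (pe β σ (ε n) μ p u (k - 1)) z‖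
        ≤ ENNReal.ofReal (2 * C / ε n) * μ (p ⁻¹' (K1 ∩ Metric.closedBall z (C * ε n))) := by
      intro z hz
      rw [repr hPeS hβ hV hσ hD k hL hLo hχ hεn z (hloc z hz)]
      have hzQ : z ∈ Q := hQs (Or.inl (hKK1 hz))
      refine (ENNReal.ofReal_le_ofReal (norm_integral_le_lintegral_norm _)).trans ?_
      refine ENNReal.ofReal_toReal_le.trans ?_
      have hm : MeasurableSet (p ⁻¹' (K1 ∩ Metric.closedBall z (C * ε n))) :=
        hD.mp (hK1c.measurableSet.inter Metric.isClosed_closedBall.measurableSet)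
      have e2 : ∫⁻ o, (p ⁻¹' (K1 ∩ Metric.closedBall z (C * ε n))).indicator
          (fun _ => ENNReal.ofReal (2 * C / ε n)) o ∂μ
          = ENNReal.ofReal (2 * C / ε n) * μ (p ⁻¹' (K1 ∩ Metric.closedBall z (C * ε n))) := by
        rw [lintegral_indicator hm, lintegral_const, Measure.restrict_apply_univ]
      rw [← e2]
      refine lintegral_mono_ae ?_
      filter_upwards [hLo] with o ho
      have hoQ : p o ∈ Q := hQs (Or.inr ho)
      obtain ⟨a1, a2⟩ := ha (ε n) hεn hn2 z hzQ (p o) hoQ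
      obtain ⟨b1, b2⟩ := hb (ε n) hεn hn3 z hzQ (p o) hoQ
      by_cases hd : dist (p o) z ≤ C * ε n
      · rw [indicator_of_mem (show o ∈ p ⁻¹' (K1 ∩ Metric.closedBall z (C * ε n)) from
          ⟨Metric.mem_cthickening_of_dist_le _ z r0 K hz (hd.trans hn1.le),
            Metric.mem_closedBall.2 hd⟩)]
        refine ENNReal.ofReal_le_ofReal ((norm_sub_le _ _).trans ?_)
        rw [norm_mul, norm_mul, norm_zpow, norm_zpow, hD.unit, one_zpow, one_zpow, mul_one, mul_one]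
        have c1 : Ca / ε n ≤ C / ε n := div_le_div_of_nonneg_right hCaC hεn.le
        have c2 : Cb / ε n ≤ C / ε n := div_le_div_of_nonneg_right hCbC hεn.le
        have c3 : 2 * C / ε n = C / ε n + C / ε n := by ring
        rw [c3]
        exact add_le_add (a1.trans c1) (b1.trans c2)
      · have hd' : C * ε n < ‖p o - z‖ := by
          rw [← dist_eq_norm]
          exact not_le.1 hd
        rw [a2 (lt_of_le_of_lt (mul_le_mul_of_nonneg_right hCaC hεn.le) hd'),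
          b2 (lt_of_le_of_lt (mul_le_mul_of_nonneg_right hCbC hεn.le) hd'), zero_mul, zero_mul,
          sub_zero, norm_zero, ENNReal.ofReal_zero]
        exact zero_le
    have hpt2 : ∀ z ∈ K, ENNReal.ofReal ‖(Db σ (k + 1) (pe β σ (ε n) μ p u (k + 1)) z
        - D σ (k - 1) (pe β σ (ε n) μ p u (k - 1)) z) ^ 2‖
        ≤ ENNReal.ofReal ((2 * C / ε n) ^ 2 * (C1 * (C * ε n)))
          * μ (p ⁻¹' (K1 ∩ Metric.closedBall z (C * ε n))) := by
      intro z hz
      have h1 := hpt z hz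
      have h2 : μ (p ⁻¹' (K1 ∩ Metric.closedBall z (C * ε n)))
          ≤ ENNReal.ofReal (C1 * (C * ε n)) := by
        rw [← ENNReal.ofReal_toReal (measure_ne_top μ _)]
        refine ENNReal.ofReal_le_ofReal ((hC1' z (hKK1 hz) _ hρ0).trans ?_)
        exact mul_le_mul_of_nonneg_right (le_max_left _ _) hρ0.le
      have h3 : 0 ≤ 2 * C / ε n := by positivity
      rw [norm_pow, ENNReal.ofReal_pow (norm_nonneg _), ENNReal.ofReal_mul (by positivity),
        ENNReal.ofReal_pow h3]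
      refine (pow_le_pow_left' h1 2).trans ?_
      rw [mul_pow, sq (μ _), mul_assoc]
      exact mul_le_mul' le_rfl (mul_le_mul' h2 le_rfl)
    have hint : ∫⁻ z in K, ENNReal.ofReal ‖(Db σ (k + 1) (pe β σ (ε n) μ p u (k + 1)) z
        - D σ (k - 1) (pe β σ (ε n) μ p u (k - 1)) z) ^ 2‖
        ≤ ENNReal.ofReal ((2 * C / ε n) ^ 2 * (C1 * (C * ε n))
          * (M * ((C * ε n) ^ 2 * Real.pi))) := by
      refine (setLIntegral_mono' hK.measurableSet hpt2).trans ?_
      have hpi : (NNReal.pi : ENNReal) = ENNReal.ofReal Real.pi := by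
        rw [ENNReal.ofReal, ← NNReal.coe_real_pi, Real.toNNReal_coe]
      have hn0 : 0 ≤ (2 * C / ε n) ^ 2 * (C1 * (C * ε n)) := by positivity
      rw [lintegral_const_mul' _ _ ENNReal.ofReal_ne_top, ENNReal.ofReal_mul hn0]
      refine mul_le_mul' le_rfl ?_
      refine (PEG.swap μ p hD.mp K1 _ hK1c.measurableSet hK.measurableSet 0 s (C * ε n) hs).trans ?_
      rw [ENNReal.ofReal_mul hM0, ENNReal.ofReal_mul (p := (C * ε n) ^ 2) (by positivity), hpi,
        ENNReal.ofReal_pow hρ0.le, hM, ENNReal.ofReal_toReal hD.fin]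
      exact mul_le_mul' (measure_mono (subset_univ _)) le_rfl
    have hfin := PEG.int_norm_le _ K _ (by positivity) hint
    simp only [norm_pow] at hfin
    refine hfin.trans (le_of_eq ?_)
    rw [hY]
    field_simp
    ring
  refine squeeze_zero' (Eventually.of_forall fun n => integral_nonneg fun z => by positivity) hev ?_
  have := hε0.const_mul Y
  rwa [mul_zero] at this

end

end U3
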