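import Pool.Agent.U3.Stmts
import Pool.Agent.QJ.Ops
import Pool.Agent.QJ.Dom

/-!
Weak convergence of the mollified moments.
-/

open Complex MeasureTheory Filter Topology Set
open scoped ContDiff

namespace U3

open QE QJ

noncomputable section

namespace PEW

variable {β : ℝ → ℝ} {σ : ℂ → ℝ}

lemma cont_sg (hσ : ContDiff ℝ ∞ σ) : Continuous (sg σ) :=
  (contDiff_dz (contDiff_sig hσ)).continuous

lemma cont_ke (hβ : Bump β) (hσ : ContDiff ℝ ∞ σ) (ε : ℝ) :
    Continuous (fun x : ℂ × ℂ => ke β σ ε x.1 x.2) := by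
  have h1 := hβ.smooth.continuous
  have h2 := hσ.continuous
  unfold ke gb r2
  fun_prop

lemma cont_ta (hσ : ContDiff ℝ ∞ σ) : Continuous (fun x : ℂ × ℂ => ta σ x.1 x.2) := by
  have h1 := cont_sg hσ
  unfold ta
  refine Complex.continuous_exp.comp ((continuous_ofReal.comp (Complex.continuous_im.comp ?_)).mul
    continuous_const)
  exact ((h1.comp continuous_fst).add (h1.comp continuous_snd)).mul
    (continuous_snd.sub continuous_fst)

lemma ta_ne (z w : ℂ) : ta σ z w ≠ 0 := Complex.exp_ne_zero _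

lemma norm_ta (z w : ℂ) : ‖ta σ z w‖ = 1 := by
  unfold ta
  exact Complex.norm_exp_ofReal_mul_I _

lemma cont_ker (hβ : Bump β) (hσ : ContDiff ℝ ∞ σ) (ε : ℝ) (k : ℤ) :
    Continuous (fun x : ℂ × ℂ => (ke β σ ε x.1 x.2 : ℂ) * (ta σ x.1 x.2)⁻¹ ^ k) := by
  refine (continuous_ofReal.comp (cont_ke hβ hσ ε)).mul ?_
  exact ((cont_ta hσ).inv₀ fun x => ta_ne x.1 x.2).zpow₀ k fun x =>
    Or.inl (inv_ne_zero (ta_ne x.1 x.2))

lemma ke_nonneg (hβ : Bump β) (ε : ℝ) (z w : ℂ) : 0 ≤ ke β σ ε z w := by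
  unfold ke gb
  have := hβ.nonneg (r2 σ z w / ε ^ 2)
  positivity

lemma norm_ker (hβ : Bump β) (ε : ℝ) (k : ℤ) (z w : ℂ) :
    ‖(ke β σ ε z w : ℂ) * (ta σ z w)⁻¹ ^ k‖ = ke β σ ε z w := by
  rw [norm_mul, norm_zpow, norm_inv, norm_ta, inv_one, one_zpow, mul_one, Complex.norm_real,
    Real.norm_of_nonneg (ke_nonneg hβ ε z w)]

lemma meas_zpow (k : ℤ) : Measurable (fun z : ℂ => z ^ k) := by
  rcases k with k | k
  · simp only [Int.ofNat_eq_natCast, zpow_natCast]
    fun_prop
  · simp only [zpow_negSucc]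
    fun_prop

end PEW

open PEW

theorem stmtPeW (hApx : StmtApx) : StmtPeW := by
  intro β V σ Ω _ μ p u ε k hβ hσ hD hε hε0 ζ hζ hζc
  have : IsFiniteMeasure μ := ⟨lt_top_iff_ne_top.2 hD.fin⟩
  obtain ⟨K, hK, hpK⟩ := hD.cpt
  obtain ⟨hlim, hbd⟩ := hApx β σ k ζ hβ hσ hζ hζc
  obtain ⟨C, ε₀, hε₀, hC⟩ := hbd K hK
  -- the joint integrand
  set ker : ℝ → ℂ → ℂ → ℂ := fun e z w => (ke β σ e z w : ℂ) * (ta σ z w)⁻¹ ^ k with hker
  have huk : Measurable (fun o => u o ^ k) := (meas_zpow k).comp hD.mu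
  have hnu : ∀ o, ‖u o ^ k‖ = 1 := fun o => by rw [norm_zpow, hD.unit o, one_zpow]
  have hmeas : ∀ e : ℝ, Measurable (fun x : ℂ × Ω => ζ x.1 * ker e x.1 (p x.2) * u x.2 ^ k) := by
    intro e
    have h1 : Measurable (fun x : ℂ × Ω => ker e x.1 (p x.2)) :=
      (cont_ker hβ hσ e k).measurable.comp (measurable_fst.prodMk (hD.mp.comp measurable_snd))
    exact ((hζ.measurable.comp measurable_fst).mul h1).mul (huk.comp measurable_snd)
  have hpe : ∀ n z, ζ z * pe β σ (ε n) μ p u k z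
      = ∫ o, ζ z * ker (ε n) z (p o) * u o ^ k ∂μ := by
    intro n z
    unfold pe
    rw [← integral_const_mul]
    refine integral_congr_ae (Eventually.of_forall fun o => ?_)
    simp only [hker, mul_zpow]
    ring
  -- integrability on the product
  have hint : ∀ n, Integrable (fun x : ℂ × Ω => ζ x.1 * ker (ε n) x.1 (p x.2) * u x.2 ^ k)
      (volume.prod μ) := by
    intro n
    -- the kernel is bounded on the product of the support of `ζ` and `K`
    have hcont : Continuous (fun x : ℂ × ℂ => ke β σ (ε n) x.1 x.2) := cont_ke hβ hσ (ε n)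
    obtain ⟨B, hB⟩ := (hζc.isCompact.prod hK).exists_bound_of_continuousOn hcont.continuousOn
    have hdom : Integrable (fun x : ℂ × Ω => ‖ζ x.1‖ * |B|) (volume.prod μ) := by
      have h1 : Integrable (fun z => ‖ζ z‖) (volume : Measure ℂ) :=
        (hζ.norm.integrable_of_hasCompactSupport hζc.norm)
      have h2 : Integrable (fun _ : Ω => |B|) μ := integrable_const _
      exact h1.mul_prod h2
    refine hdom.mono' (hmeas (ε n)).aestronglyMeasurable ?_
    have hae : ∀ᵐ x : ℂ × Ω ∂(volume.prod μ), p x.2 ∈ K :=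
      (Measure.quasiMeasurePreserving_snd (μ := (volume : Measure ℂ)) (ν := μ)).ae hpK
    filter_upwards [hae] with x hx
    rw [norm_mul, norm_mul, hnu, mul_one, hker]
    simp only
    rw [norm_ker hβ]
    by_cases hz : x.1 ∈ tsupport ζ
    · have h1 := hB (x.1, p x.2) ⟨hz, hx⟩
      rw [Real.norm_of_nonneg (ke_nonneg hβ _ _ _)] at h1
      exact mul_le_mul_of_nonneg_left (h1.trans (le_abs_self B)) (norm_nonneg _)
    · rw [image_eq_zero_of_notMem_tsupport hz]
      simp
  have hswap : ∀ n, ∫ z, ζ z * pe β σ (ε n) μ p u k z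
      = ∫ o, (∫ z : ℂ, ζ z * ker (ε n) z (p o) * u o ^ k) ∂μ := by
    intro n
    simp only [hpe]
    exact integral_integral_swap (f := fun z o => ζ z * ker (ε n) z (p o) * u o ^ k) (hint n)
  simp only [hswap]
  have hev : ∀ᶠ n in atTop, ε n < ε₀ := (tendsto_order.1 hε0).2 _ hε₀
  have hε0' : Tendsto ε atTop (𝓝[>] 0) :=
    tendsto_nhdsWithin_iff.2 ⟨hε0, Eventually.of_forall fun n => hε n⟩
  refine tendsto_integral_filter_of_dominated_convergence (fun _ => C) ?_ ?_ (integrable_const _) ?_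
  · refine Eventually.of_forall fun n => ?_
    have h1 : StronglyMeasurable (fun x : Ω × ℂ => ζ x.2 * ker (ε n) x.2 (p x.1) * u x.1 ^ k) :=
      ((hmeas (ε n)).comp measurable_swap).stronglyMeasurable
    exact h1.integral_prod_right'.aestronglyMeasurable
  · filter_upwards [hev] with n hn
    filter_upwards [hpK] with o ho
    have h1 := hC (ε n) (hε n) hn (p o) ho
    refine (norm_integral_le_integral_norm _).trans (le_trans (le_of_eq ?_) h1)
    refine integral_congr_ae (Eventually.of_forall fun z => ?_)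
    simp only
    rw [norm_mul, norm_mul, hnu, mul_one, hker]
    simp only
    rw [norm_ker hβ]
  · refine Eventually.of_forall fun o => ?_
    have h1 : ∀ n, ∫ z, ζ z * ker (ε n) z (p o) * u o ^ k
        = (∫ z, ζ z * ker (ε n) z (p o)) * u o ^ k := fun n => integral_mul_const _ _
    simp only [h1]
    exact ((hlim (p o)).comp hε0').mul_const _

end

end U3
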