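import Pool.Agent.U3.Stmts
import Pool.Agent.QJ.Ops
import Pool.Agent.QJ.Dom

/-!
U3, step POI: slowly varying densities with linear growth are small after multiplication by `h`.
-/

open Complex MeasureTheory Filter Topology Set
open scoped ContDiff Pointwise

namespace U3

open QE QJ

noncomputable section

namespace POI

/-- the square of the gradient -/
def gr (U : ℂ → ℝ) (z : ℂ) : ℝ := d1 U z ^ 2 + d2 U z ^ 2

lemma gr_nonneg (U : ℂ → ℝ) (z : ℂ) : 0 ≤ gr U z := by
  unfold gr; positivity

lemma cont_fderiv {U : ℂ → ℝ} (hU : ContDiff ℝ ∞ U) : Continuous (fderiv ℝ U) :=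
  hU.continuous_fderiv (by simp)

lemma cont_gr {U : ℂ → ℝ} (hU : ContDiff ℝ ∞ U) : Continuous (gr U) := by
  have h := cont_fderiv hU
  unfold gr d1 d2
  exact ((h.clm_apply continuous_const).pow 2).add ((h.clm_apply continuous_const).pow 2)

lemma fderiv_sq_le (U : ℂ → ℝ) (z v : ℂ) : (fderiv ℝ U z v) ^ 2 ≤ ‖v‖ ^ 2 * gr U z := by
  have e : fderiv ℝ U z v = v.re * d1 U z + v.im * d2 U z := by
    have hv : v = (v.re : ℝ) • (1 : ℂ) + (v.im : ℝ) • Complex.I := by
      simp [Complex.re_add_im]
    conv_lhs => rw [hv]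
    rw [map_add, map_smul, map_smul]
    simp [d1, d2]
  rw [e]
  have hn : ‖v‖ ^ 2 = v.re ^ 2 + v.im ^ 2 := by
    rw [← Complex.normSq_eq_norm_sq, Complex.normSq_apply]; ring
  rw [hn, gr]
  nlinarith [sq_nonneg (v.re * d2 U z - v.im * d1 U z)]

/-- one-dimensional inequality along a segment -/
lemma seg_le {U : ℂ → ℝ} (hU : ContDiff ℝ ∞ U) (z v : ℂ) :
    (U (z + v) - U z) ^ 2 ≤ ∫ s in (0 : ℝ)..1, ‖v‖ ^ 2 * gr U (z + (s : ℝ) • v) := by
  have hc : Continuous (fun s : ℝ => fderiv ℝ U (z + s • v) v) := by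
    have := cont_fderiv hU
    fun_prop
  have hd : ∀ s : ℝ, HasDerivAt (fun s : ℝ => U (z + s • v)) (fderiv ℝ U (z + s • v) v) s := by
    intro s
    have h1 : HasFDerivAt U (fderiv ℝ U (z + s • v)) (z + s • v) :=
      (hU.differentiable (by simp) _).hasFDerivAt
    have h2 : HasDerivAt (fun s : ℝ => z + s • v) v s := by
      simpa using ((hasDerivAt_id s).smul_const v).const_add z
    exact h1.comp_hasDerivAt s h2
  have e : ∫ s in (0 : ℝ)..1, fderiv ℝ U (z + s • v) v = U (z + v) - U z := by
    rw [intervalIntegral.integral_eq_sub_of_hasDerivAt (fun s _ => hd s)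
      (hc.intervalIntegrable _ _)]
    simp
  rw [← e]
  set a := ∫ s in (0 : ℝ)..1, fderiv ℝ U (z + s • v) v with ha
  have h2 : ∫ s in (0 : ℝ)..1, (2 * a * fderiv ℝ U (z + s • v) v - a ^ 2)
      ≤ ∫ s in (0 : ℝ)..1, ‖v‖ ^ 2 * gr U (z + (s : ℝ) • v) := by
    apply intervalIntegral.integral_mono_on zero_le_one
    · exact (Continuous.intervalIntegrable (by fun_prop) _ _)
    · have := cont_gr hU
      exact (Continuous.intervalIntegrable (by fun_prop) _ _)
    · intro s _
      have := fderiv_sq_le U (z + s • v) v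
      nlinarith [sq_nonneg (fderiv ℝ U (z + s • v) v - a)]
  have h3 : ∫ s in (0 : ℝ)..1, (2 * a * fderiv ℝ U (z + s • v) v - a ^ 2) = a ^ 2 := by
    rw [intervalIntegral.integral_sub (Continuous.intervalIntegrable (by fun_prop) _ _)
      (Continuous.intervalIntegrable (by fun_prop) _ _), intervalIntegral.integral_const_mul,
      ← ha]
    simp
    ring
  linarith

/-- translation of an integral over a compact set -/
lemma trans_le {G : ℂ → ℝ} (hG : Continuous G) (h0 : ∀ z, 0 ≤ G z) {K K1 : Set ℂ}
    (hK1 : IsCompact K1) (v : ℂ) (hs : ∀ z ∈ K, z + v ∈ K1) :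
    ∫ z in K, G (z + v) ≤ ∫ z in K1, G z := by
  have hK1m : MeasurableSet K1 := hK1.measurableSet
  have e : ∫ z in K1, G z = ∫ z in (fun z => z + v) ⁻¹' K1, G (z + v) := by
    rw [← (measurePreserving_add_right (volume : Measure ℂ) v).setIntegral_preimage_emb
      (measurableEmbedding_addRight v)]
  rw [e]
  have hcomp : IsCompact ((fun z => z + v) ⁻¹' K1) :=
    (Homeomorph.addRight v).isClosedEmbedding.isCompact_preimage hK1
  apply setIntegral_mono_set
  · exact (hG.comp (continuous_add_const v)).continuousOn.integrableOn_compact hcomp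
  · exact Eventually.of_forall (fun z => h0 _)
  · exact (show K ⊆ (fun z => z + v) ⁻¹' K1 from hs).eventuallyLE

/-- the translation difference in `L²` -/
lemma diff_le {U : ℂ → ℝ} (hU : ContDiff ℝ ∞ U) {K K1 : Set ℂ} (hK : IsCompact K)
    (hK1 : IsCompact K1) (v : ℂ) (hs : ∀ z ∈ K, ∀ s ∈ Icc (0 : ℝ) 1, z + s • v ∈ K1) :
    ∫ z in K, (U (z + v) - U z) ^ 2 ≤ ‖v‖ ^ 2 * ∫ z in K1, gr U z := by
  have hgc := cont_gr hU
  have hUc := hU.continuous
  have h1 : ∫ z in K, (U (z + v) - U z) ^ 2
      ≤ ∫ z in K, ∫ s in (0 : ℝ)..1, ‖v‖ ^ 2 * gr U (z + (s : ℝ) • v) := by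
    apply setIntegral_mono_on
    · exact (Continuous.continuousOn (by fun_prop)).integrableOn_compact hK
    · refine ContinuousOn.integrableOn_compact hK (Continuous.continuousOn ?_)
      apply intervalIntegral.continuous_parametric_intervalIntegral_of_continuous'
      fun_prop
    · exact hK.measurableSet
    · intro z _
      exact seg_le hU z v
  refine h1.trans ?_
  have h2 : ∫ z in K, ∫ s in (0 : ℝ)..1, ‖v‖ ^ 2 * gr U (z + (s : ℝ) • v)
      = ∫ s in (0 : ℝ)..1, ∫ z in K, ‖v‖ ^ 2 * gr U (z + (s : ℝ) • v) := by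
    simp only [intervalIntegral.integral_of_le zero_le_one]
    rw [integral_integral_swap]
    have hcont : Continuous (Function.uncurry
        (fun (z : ℂ) (s : ℝ) => ‖v‖ ^ 2 * gr U (z + (s : ℝ) • v))) := by
      unfold Function.uncurry
      fun_prop
    rw [Measure.prod_restrict]
    exact (hcont.continuousOn.integrableOn_compact (hK.prod isCompact_Icc)).mono_set
      (Set.prod_mono subset_rfl Ioc_subset_Icc_self)
  rw [h2]
  have h3 : ∫ s in (0 : ℝ)..1, ∫ z in K, ‖v‖ ^ 2 * gr U (z + (s : ℝ) • v)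
      ≤ ∫ s in (0 : ℝ)..1, ‖v‖ ^ 2 * ∫ z in K1, gr U z := by
    apply intervalIntegral.integral_mono_on zero_le_one
    · apply Continuous.intervalIntegrable
      have : (fun s : ℝ => ∫ z in K, ‖v‖ ^ 2 * gr U (z + (s : ℝ) • v))
          = fun s : ℝ => ∫ z in K, (fun (s : ℝ) (z : ℂ) => ‖v‖ ^ 2 * gr U (z + (s : ℝ) • v)) s z :=
        rfl
      rw [this]
      apply continuous_parametric_integral_of_continuous
      · unfold Function.uncurry
        fun_prop
      · exact hK
    · exact Continuous.intervalIntegrable continuous_const _ _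
    · intro s hs'
      rw [integral_const_mul]
      exact mul_le_mul_of_nonneg_left
        (trans_le hgc (gr_nonneg U) hK1 _ (fun z hz => hs z hz s hs')) (by positivity)
  refine h3.trans ?_
  simp

/-- the mean over a small ball -/
lemma mean_eq (U : ℂ → ℝ) (z : ℂ) {h R : ℝ} (hh : 0 < h) (hR : 0 < R) :
    ∫ y in Metric.closedBall (0 : ℂ) R, U (z + h • y)
      = (h ^ 2)⁻¹ * ∫ w in Metric.closedBall z (h * R), U w := by
  have h1 := Measure.setIntegral_comp_smul_of_pos (volume : Measure ℂ) (fun y => U (z + y))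
    (Metric.closedBall (0 : ℂ) R) hh
  rw [h1]
  have h2 : h • Metric.closedBall (0 : ℂ) R = Metric.closedBall 0 (h * R) := by
    rw [smul_closedBall _ _ hR.le, smul_zero, Real.norm_of_nonneg hh.le]
  rw [h2, Complex.finrank_real_complex, smul_eq_mul]
  congr 1
  have h3 := (measurePreserving_add_left (volume : Measure ℂ) z).setIntegral_preimage_emb
      (measurableEmbedding_addLeft z) U (Metric.closedBall z (h * R))
  rw [← h3]
  have h4 : (fun x => z + x) ⁻¹' Metric.closedBall z (h * R) = Metric.closedBall 0 (h * R) := by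
    ext y
    simp [dist_eq_norm]
  rw [h4]

/-- the main inequality for one function -/
lemma key {U : ℂ → ℝ} (hU : ContDiff ℝ ∞ U) (h0 : ∀ z, 0 ≤ U z) {K K1 : Set ℂ}
    (hK : IsCompact K) (hK1 : IsCompact K1) {h R C : ℝ} (hh : 0 < h) (hR : 0 < R)
    (hsub : ∀ z ∈ K, Metric.closedBall z (h * R) ⊆ K1) (hKK : K ⊆ K1)
    (hC : ∀ z ∈ K1, ∀ s > 0, ∫ w in K1 ∩ Metric.closedBall z s, U w ≤ C * s) :
    Real.pi * R ^ 2 * ∫ z in K, U z ^ 2 ≤ 2 * (C * R / h) * (∫ z in K, U z)
      + Real.pi * R ^ 2 * (R ^ 2 * ∫ z in K1, h ^ 2 * gr U z) := by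
  have hUc := hU.continuous
  set B := Metric.closedBall (0 : ℂ) R with hB
  have hBc : IsCompact B := isCompact_closedBall _ _
  have hvol : (volume B).toReal = Real.pi * R ^ 2 := by
    rw [hB, Complex.volume_closedBall]
    simp [ENNReal.toReal_mul, hR.le, mul_comm]
  have hvol' : ∀ c : ℝ, ∫ _ in B, c = Real.pi * R ^ 2 * c := by
    intro c
    rw [setIntegral_const, Measure.real, hvol, smul_eq_mul]
  -- the pointwise inequality after integration over the ball
  have h1 : ∀ z ∈ K, Real.pi * R ^ 2 * U z ^ 2 ≤ 2 * (C * R / h) * U z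
      + ∫ y in B, (U (z + h • y) - U z) ^ 2 := by
    intro z hz
    have a1 : ∫ _ in B, U z ^ 2
        ≤ ∫ y in B, (2 * U z * U (z + h • y) + (U (z + h • y) - U z) ^ 2) := by
      apply setIntegral_mono_on
      · exact continuousOn_const.integrableOn_compact hBc
      · exact (Continuous.continuousOn (by fun_prop)).integrableOn_compact hBc
      · exact hBc.measurableSet
      · intro y _
        nlinarith [sq_nonneg (U (z + h • y))]
    rw [hvol', integral_add, integral_const_mul, mean_eq U z hh hR] at a1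
    · have a2 : ∫ w in Metric.closedBall z (h * R), U w ≤ C * (h * R) := by
        have := hC z (hKK hz) (h * R) (by positivity)
        rwa [inter_eq_self_of_subset_right (hsub z hz)] at this
      have a3 : 2 * U z * ((h ^ 2)⁻¹ * ∫ w in Metric.closedBall z (h * R), U w)
          ≤ 2 * U z * ((h ^ 2)⁻¹ * (C * (h * R))) := by
        have := h0 z
        gcongr
      have a4 : 2 * U z * ((h ^ 2)⁻¹ * (C * (h * R))) = 2 * (C * R / h) * U z := by
        field_simp
      linarith
    · exact (Continuous.continuousOn (by fun_prop)).integrableOn_compact hBc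
    · exact (Continuous.continuousOn (by fun_prop)).integrableOn_compact hBc
  have hcont : Continuous (Function.uncurry (fun (z y : ℂ) => (U (z + h • y) - U z) ^ 2)) := by
    unfold Function.uncurry
    fun_prop
  have hci : Continuous (fun z : ℂ => ∫ y in B, (U (z + h • y) - U z) ^ 2) := by
    have := continuous_parametric_integral_of_continuous (μ := (volume : Measure ℂ)) hcont hBc
    exact this
  -- integration over K
  have h2 : ∫ z in K, Real.pi * R ^ 2 * U z ^ 2 ≤ ∫ z in K, (2 * (C * R / h) * U z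
      + ∫ y in B, (U (z + h • y) - U z) ^ 2) := by
    apply setIntegral_mono_on
    · exact (Continuous.continuousOn (by fun_prop)).integrableOn_compact hK
    · exact (Continuous.continuousOn
        ((continuous_const.mul hUc).add hci)).integrableOn_compact hK
    · exact hK.measurableSet
    · exact h1
  rw [integral_const_mul, integral_add, integral_const_mul] at h2
  rotate_left
  · exact (Continuous.continuousOn (by fun_prop)).integrableOn_compact hK
  · exact hci.continuousOn.integrableOn_compact hK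
  refine h2.trans ?_
  gcongr
  -- Fubini
  rw [integral_integral_swap]
  rotate_left
  · rw [Measure.prod_restrict]
    exact hcont.continuousOn.integrableOn_compact (hK.prod hBc)
  have h3 : ∫ y in B, ∫ z in K, (U (z + h • y) - U z) ^ 2
      ≤ ∫ _ in B, (R ^ 2 * ∫ z in K1, h ^ 2 * gr U z) := by
    apply setIntegral_mono_on
    · have hcont' : Continuous (Function.uncurry
          (fun (y z : ℂ) => (U (z + h • y) - U z) ^ 2)) := by
        unfold Function.uncurry
        fun_prop
      have := continuous_parametric_integral_of_continuous (μ := (volume : Measure ℂ)) hcont' hK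
      exact this.continuousOn.integrableOn_compact hBc
    · exact continuousOn_const.integrableOn_compact hBc
    · exact hBc.measurableSet
    · intro y hy
      have hy' : ‖y‖ ≤ R := by simpa [hB] using hy
      have hd := diff_le hU hK hK1 (h • y) (by
        intro z hz s hs
        apply hsub z hz
        rw [Metric.mem_closedBall, dist_eq_norm, add_sub_cancel_left, norm_smul, norm_smul,
          Real.norm_of_nonneg hs.1, Real.norm_of_nonneg hh.le]
        calc s * (h * ‖y‖) ≤ 1 * (h * R) := by
              gcongr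
              exact hs.2
          _ = h * R := one_mul _)
      refine hd.trans ?_
      rw [norm_smul, Real.norm_of_nonneg hh.le, integral_const_mul, ← mul_assoc]
      have hg : 0 ≤ ∫ z in K1, gr U z := integral_nonneg (gr_nonneg U)
      apply mul_le_mul_of_nonneg_right _ hg
      nlinarith [norm_nonneg y, sq_nonneg h, mul_le_mul hy' hy' (norm_nonneg y) hR.le]
  refine h3.trans ?_
  rw [hvol']

end POI

open POI in
/-- POI -/
theorem stmtPoi : StmtPoi := by
  intro V h U hV hpos hlim hU h0 hgr hgrad K hK hKV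
  rcases K.eq_empty_or_nonempty with rfl | ⟨z0, hz0⟩
  · simp
  obtain ⟨δ, hδ, hδV⟩ := hK.exists_cthickening_subset_open hV hKV
  set K1 := Metric.cthickening δ K with hK1def
  have hK1 : IsCompact K1 := hK.cthickening
  have hKK : K ⊆ K1 := Metric.self_subset_cthickening K
  obtain ⟨C0, hC0⟩ := hgr K1 hK1 hδV
  obtain ⟨s0, hs0⟩ := hK.isBounded.subset_closedBall z0
  set s1 := max s0 1 with hs1
  have hs1pos : 0 < s1 := lt_of_lt_of_le one_pos (le_max_right _ _)
  set C := max C0 0 with hC
  have hCn : 0 ≤ C := le_max_right _ _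
  have hpi := Real.pi_pos
  rw [Metric.tendsto_atTop']
  intro ε hε
  -- choice of R
  obtain ⟨R, hR1, hR2⟩ : ∃ R : ℝ, 0 < R ∧ 2 * C * (C * s1) / (Real.pi * R) < ε / 2 := by
    refine ⟨(4 * C * (C * s1) / (Real.pi * ε)) + 1, by positivity, ?_⟩
    rw [div_lt_iff₀ (by positivity)]
    have : 0 ≤ 4 * C * (C * s1) / (Real.pi * ε) := by positivity
    have e : ε / 2 * (Real.pi * (4 * C * (C * s1) / (Real.pi * ε) + 1))
        = 2 * C * (C * s1) + ε / 2 * Real.pi := by
      field_simp
      ring
    rw [e]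
    have : 0 < ε / 2 * Real.pi := by positivity
    linarith
  have e1 : ∀ᶠ n in atTop, h n * R ≤ δ := by
    have : Tendsto (fun n => h n * R) atTop (𝓝 0) := by simpa using hlim.mul_const R
    exact (this.eventually_lt_const hδ).mono fun n hn => hn.le
  have e2 : ∀ᶠ n in atTop, R ^ 2 * (h n * ∫ z in K1, h n ^ 2 * (d1 (U n) z ^ 2 + d2 (U n) z ^ 2))
      < ε / 2 := by
    have : Tendsto (fun n => R ^ 2 * (h n * ∫ z in K1,
        h n ^ 2 * (d1 (U n) z ^ 2 + d2 (U n) z ^ 2))) atTop (𝓝 0) := by
      simpa using (hgrad K1 hK1 hδV).const_mul (R ^ 2)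
    exact this.eventually_lt_const (by positivity)
  obtain ⟨N, hN⟩ := eventually_atTop.1 (e1.and (e2.and hC0))
  refine ⟨N, fun n hn => ?_⟩
  obtain ⟨g1, g2, g3⟩ := hN n hn.le
  have hh := hpos n
  have hCs : ∀ z ∈ K1, ∀ s > 0, ∫ w in K1 ∩ Metric.closedBall z s, U n w ≤ C * s := by
    intro z hz s hs
    exact (g3 z hz s hs).trans (mul_le_mul_of_nonneg_right (le_max_left _ _) hs.le)
  have hsub : ∀ z ∈ K, Metric.closedBall z (h n * R) ⊆ K1 := by
    intro z hz
    exact (Metric.closedBall_subset_closedBall g1).trans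
      (Metric.closedBall_subset_cthickening hz δ)
  have k := key (hU n) (h0 n) hK hK1 hh hR1 hsub hKK hCs
  have hUK : ∫ z in K, U n z ≤ C * s1 := by
    refine le_trans ?_ (hCs z0 (hKK hz0) s1 hs1pos)
    apply setIntegral_mono_set
    · exact (hU n).continuous.continuousOn.integrableOn_compact
        (hK1.inter_right Metric.isClosed_closedBall)
    · exact Eventually.of_forall (fun z => h0 n _)
    · refine (subset_inter hKK ?_).eventuallyLE
      exact hs0.trans (Metric.closedBall_subset_closedBall (le_max_left _ _))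
  have hn0 : 0 ≤ h n * ∫ z in K, U n z ^ 2 :=
    mul_nonneg hh.le (integral_nonneg fun z => sq_nonneg _)
  rw [Real.dist_eq, sub_zero, abs_of_nonneg hn0]
  have hg : (∫ z in K1, h n ^ 2 * gr (U n) z)
      = ∫ z in K1, h n ^ 2 * (d1 (U n) z ^ 2 + d2 (U n) z ^ 2) := rfl
  rw [hg] at k
  set J := ∫ z in K1, h n ^ 2 * (d1 (U n) z ^ 2 + d2 (U n) z ^ 2)
  set I2 := ∫ z in K, U n z ^ 2
  set I1 := ∫ z in K, U n z
  have k2 : Real.pi * R ^ 2 * I2 ≤ 2 * (C * R / h n) * (C * s1) + Real.pi * R ^ 2 * (R ^ 2 * J) := by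
    refine k.trans ?_
    have : 0 ≤ 2 * (C * R / h n) := by positivity
    have := mul_le_mul_of_nonneg_left hUK this
    linarith
  have k3 : h n * I2 ≤ 2 * C * (C * s1) / (Real.pi * R) + R ^ 2 * (h n * J) := by
    have e3 : 2 * (C * R / h n) * (C * s1) + Real.pi * R ^ 2 * (R ^ 2 * J)
        = (Real.pi * R ^ 2 / h n) *
          (2 * C * (C * s1) / (Real.pi * R) + R ^ 2 * (h n * J)) := by
      field_simp
    rw [e3] at k2
    have e4 : Real.pi * R ^ 2 * I2 = (Real.pi * R ^ 2 / h n) * (h n * I2) := by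
      field_simp
    rw [e4] at k2
    exact le_of_mul_le_mul_left k2 (by positivity)
  linarith

end

end U3
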