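import Pool.Agent.U3.Stmts
import Pool.Agent.QJ.Ops
import Pool.Agent.QJ.Dom
import Pool.Agent.QJ.POT

/-!
POTZ: potentials of a null triple with linear growth.
-/

open Complex MeasureTheory Filter Topology Set
open scoped ContDiff

namespace U3

open QE QJ

noncomputable section

namespace POTZ

open QJ.POT

variable {V : Set ℂ} {σ : ℂ → ℝ}

/-! ### Linear growth -/

lemma lg_fn_mul {u : ℕ → ℂ → ℂ} (hu : LG V u) (cu : ∀ n, Continuous (u n)) {b : ℂ → ℂ}
    (hb : Continuous b) : LG V (fun n z => b z * u n z) := by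
  intro K hK hKV
  obtain ⟨M, hM⟩ := hK.exists_bound_of_continuousOn hb.continuousOn
  obtain ⟨C, hC⟩ := hu K hK hKV
  refine ⟨max M 0 * C, ?_⟩
  filter_upwards [hC] with n hn z hz s hs
  have hKs : IsCompact (K ∩ Metric.closedBall z s) := hK.inter_right Metric.isClosed_closedBall
  rw [mul_assoc]
  refine le_trans ?_ (mul_le_mul_of_nonneg_left (hn z hz s hs) (le_max_right M 0))
  rw [← integral_const_mul]
  refine setIntegral_mono_on ?_ ?_ hKs.measurableSet fun w hw => ?_
  · exact ((hb.mul (cu n)).norm).continuousOn.integrableOn_compact hKs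
  · exact ((continuous_const.mul (cu n).norm)).continuousOn.integrableOn_compact hKs
  · rw [norm_mul]
    exact mul_le_mul_of_nonneg_right ((hM w hw.1).trans (le_max_left M 0)) (norm_nonneg _)

lemma lg_conj {u : ℕ → ℂ → ℂ} (hu : LG V u) : LG V (fun n z => (starRingEnd ℂ) (u n z)) := by
  intro K hK hKV
  obtain ⟨C, hC⟩ := hu K hK hKV
  refine ⟨C, ?_⟩
  filter_upwards [hC] with n hn z hz s hs
  simpa only [RCLike.norm_conj] using hn z hz s hs

lemma lg_int {u : ℕ → ℂ → ℂ} (hu : LG V u) {K : Set ℂ} (hK : IsCompact K) (hKV : K ⊆ V) :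
    ∃ C : ℝ, ∀ᶠ n in atTop, (∫ z in K, ‖u n z‖) ≤ C := by
  rcases K.eq_empty_or_nonempty with h0 | ⟨z0, hz0⟩
  · subst h0
    exact ⟨0, Filter.Eventually.of_forall fun n => by simp⟩
  · obtain ⟨C, hC⟩ := hu K hK hKV
    obtain ⟨r, hr⟩ := hK.isBounded.subset_closedBall z0
    refine ⟨C * (max r 0 + 1), ?_⟩
    filter_upwards [hC] with n hn
    have h1 := hn z0 hz0 (max r 0 + 1) (by positivity)
    have h2 : K ∩ Metric.closedBall z0 (max r 0 + 1) = K := by
      refine inter_eq_left.mpr (hr.trans (Metric.closedBall_subset_closedBall ?_))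
      have := le_max_left r 0
      linarith
    rwa [h2] at h1

lemma wz_conj {u : ℕ → ℂ → ℂ} (hu : WZ V u) : WZ V (fun n z => (starRingEnd ℂ) (u n z)) := by
  intro ζ hζ
  have h1 := hu _ hζ.conj
  have h2 := (Complex.continuous_conj.tendsto 0).comp h1
  rw [map_zero] at h2
  refine h2.congr fun n => ?_
  change (starRingEnd ℂ) (∫ z, (starRingEnd ℂ) (ζ z) * u n z) = _
  rw [← integral_conj]
  refine integral_congr_ae (Filter.Eventually.of_forall fun z => ?_)
  simp

/-- the Cauchy transform of a localized sequence -/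
lemma cauchy_small (hCau : QJ.StmtCau) {χ β : ℂ → ℂ} (hχ : Test V χ) (hβ : ContDiff ℝ ∞ β)
    {B : ℕ → ℂ → ℂ} (hsB : ∀ n, ContDiff ℝ ∞ (B n)) (gB : LG V B) (wB : WZ V B) :
    L2z V (fun n => cauchy (fun w => χ w * β w * B n w)) := by
  intro K1 hK1 hK1V
  have hL : IsCompact (tsupport χ) := hχ.supp
  have hcs : HasCompactSupport (fun z => χ z * β z) := hχ.supp.mul_right
  obtain ⟨M, hM⟩ := (hχ.smooth.mul hβ).continuous.bounded_above_of_compact_support hcs
  have hM0 : 0 ≤ M := (norm_nonneg _).trans (hM 0)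
  obtain ⟨G, hG⟩ := gB (tsupport χ ∪ K1) (hL.union hK1) (union_subset hχ.sub hK1V)
  have sf : ∀ n, ContDiff ℝ ∞ (fun w => χ w * β w * B n w) := fun n =>
    (hχ.smooth.mul hβ).mul (hsB n)
  refine hCau (tsupport χ) K1 (fun n z => ‖χ z * β z * B n z‖)
    (fun n w => χ w * β w * B n w) (M * G) hL hK1 (fun n z => norm_nonneg _)
    (fun n => (sf n).continuous.norm) ?_ sf (fun n => ?_) ?_ (fun ψ hψ => ?_)
  · filter_upwards [hG] with n hn z hz s hs
    have hKs : IsCompact (tsupport χ ∩ Metric.closedBall z s) :=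
      hL.inter_right Metric.isClosed_closedBall
    have hKs' : IsCompact ((tsupport χ ∪ K1) ∩ Metric.closedBall z s) :=
      (hL.union hK1).inter_right Metric.isClosed_closedBall
    have cB : Continuous (fun w => ‖B n w‖) := (hsB n).continuous.norm
    calc ∫ w in tsupport χ ∩ Metric.closedBall z s, ‖χ w * β w * B n w‖
        ≤ ∫ w in tsupport χ ∩ Metric.closedBall z s, M * ‖B n w‖ := by
          refine setIntegral_mono_on ?_ ?_ hKs.measurableSet fun w _ => ?_
          · exact ((sf n).continuous.norm).continuousOn.integrableOn_compact hKs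
          · exact (continuous_const.mul cB).continuousOn.integrableOn_compact hKs
          · rw [norm_mul]
            exact mul_le_mul_of_nonneg_right (hM w) (norm_nonneg _)
      _ = M * ∫ w in tsupport χ ∩ Metric.closedBall z s, ‖B n w‖ := integral_const_mul _ _
      _ ≤ M * ∫ w in (tsupport χ ∪ K1) ∩ Metric.closedBall z s, ‖B n w‖ := by
          refine mul_le_mul_of_nonneg_left ?_ hM0
          refine setIntegral_mono_set ?_ ?_ ?_
          · exact cB.continuousOn.integrableOn_compact hKs'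
          · exact Filter.Eventually.of_forall fun w => norm_nonneg _
          · exact (inter_subset_inter_left _ subset_union_left).eventuallyLE
      _ ≤ M * (G * s) := mul_le_mul_of_nonneg_left (hn z (Or.inr hz) s hs) hM0
      _ = M * G * s := by ring
  · exact closure_mono fun z hz => left_ne_zero_of_mul (left_ne_zero_of_mul hz)
  · exact Filter.Eventually.of_forall fun n z _ => le_rfl
  · have h1 : Test V (fun z => χ z * (β z * ψ z)) := test_mul hχ (hβ.mul hψ)
    refine (wB _ h1).congr fun n => ?_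
    refine integral_congr_ae (Filter.Eventually.of_forall fun z => ?_)
    change χ z * (β z * ψ z) * B n z = ψ z * (χ z * β z * B n z)
    ring

/-! ### One half of the potentials -/

lemma half (hCau : QJ.StmtCau) (hHol : QJ.StmtHol) (N : ℤ) (A B : ℕ → ℂ → ℂ)
    (hσ : ContDiff ℝ ∞ σ) (hsA : ∀ n, ContDiff ℝ ∞ (A n)) (hsB : ∀ n, ContDiff ℝ ∞ (B n))
    (gA : LG V A) (gB : LG V B) (wA : WZ V A) (wB : WZ V B)
    (eA : L2z V (fun n z => Db σ (N + 2) (A n) z + D σ N (B n) z)) {χ : ℂ → ℂ} (hχ : Test V χ)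
    {V' : Set ℂ} (hV' : IsOpen V') (hVV : V' ⊆ V) (h1 : ∀ z ∈ V', χ z = 1) :
    ∃ x : ℕ → ℂ → ℂ, (∀ n, ContDiff ℝ ∞ (x n)) ∧
      (∀ n, ∀ z ∈ V', Db σ (N + 1) (x n) z = - B n z) ∧ L2z V' x ∧
      L2z V' (fun n z => A n z - D σ (N + 1) (x n) z) ∧
      L2z V' (fun n z => Db σ (N + 2) (fun w => A n w - D σ (N + 1) (x n) w) z) := by
  set β : ℂ → ℂ := fun z => -(1 / 2) * ex σ (N + 2) z with hβdef
  have hβ : ContDiff ℝ ∞ β := contDiff_const.mul (contDiff_ex hσ _)
  set f : ℕ → ℂ → ℂ := fun n w => χ w * β w * B n w with hf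
  have sf : ∀ n, ContDiff ℝ ∞ (f n) := fun n => (hχ.smooth.mul hβ).mul (hsB n)
  have cf : ∀ n, HasCompactSupport (f n) := fun n => (hχ.supp.mul_right).mul_right
  have sxh : ∀ n, ContDiff ℝ ∞ (cauchy (f n)) := fun n => contDiff_cauchy (sf n) (cf n)
  have lxh : L2z V (fun n => cauchy (f n)) := cauchy_small hCau hχ hβ hsB gB wB
  set x : ℕ → ℂ → ℂ := fun n z => ex σ (-(N + 1)) z * cauchy (f n) z with hx
  have sx : ∀ n, ContDiff ℝ ∞ (x n) := fun n => (contDiff_ex hσ _).mul (sxh n)
  have hDb : ∀ n z, Db σ (N + 1) (x n) z = - (χ z * B n z) := by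
    intro n z
    have e1 : (fun w => ex σ (N + 1) w * x n w) = cauchy (f n) := by
      funext w
      change ex σ (N + 1) w * (ex σ (-(N + 1)) w * cauchy (f n) w) = _
      rw [← mul_assoc, ex_mul, show N + 1 + -(N + 1) = 0 by ring, ex_zero, one_mul]
    unfold Db
    rw [e1, dzb_cauchy (sf n) (cf n)]
    have e2 : ex σ (-(N + 1) - 1) z * ex σ (N + 2) z = 1 := by
      rw [ex_mul, show -(N + 1) - 1 + (N + 2) = 0 by ring, ex_zero]
    change 2 * ex σ (-(N + 1) - 1) z * (χ z * (-(1 / 2) * ex σ (N + 2) z) * B n z) = _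
    linear_combination (-(χ z * B n z)) * e2
  have hxV : ∀ n, ∀ z ∈ V', Db σ (N + 1) (x n) z = - B n z := by
    intro n z hz
    rw [hDb, h1 z hz, one_mul]
  have lx : L2z V' x :=
    l2z_mono hVV (l2z_fn_mul lxh (fun n => (sxh n).continuous) (contDiff_ex hσ _).continuous)
  have cx : ∀ n, Continuous (x n) := fun n => (sx n).continuous
  -- the derivative of `α`
  have hcurv : Continuous (curv σ) := by
    unfold curv
    exact ((continuous_const.mul (contDiff_ex hσ _).continuous).mul
      (contDiff_dz (contDiff_dzb (contDiff_sig hσ))).continuous).neg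
  have sα : ∀ n, ContDiff ℝ ∞ (fun w => A n w - D σ (N + 1) (x n) w) := fun n =>
    (hsA n).sub (contDiff_D hσ _ (sx n))
  have hlda : ∀ n, ∀ z ∈ V', (Db σ (N + 2) (A n) z + D σ N (B n) z)
      + (-(2 * (N + 1 : ℤ)) * curv σ z) * x n z =
      Db σ (N + 2) (fun w => A n w - D σ (N + 1) (x n) w) z := by
    intro n z hz
    rw [Db_sub hσ _ (cd_at (hsA n) z) (cd_at (contDiff_D hσ _ (sx n)) z)]
    have e1 := comm hσ (N + 1) (sx n) z
    rw [show N + 1 + 1 = N + 2 by ring, show N + 1 - 1 = N by ring] at e1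
    have e2 : D σ N (Db σ (N + 1) (x n)) z = - D σ N (B n) z := by
      rw [D_congr_on hV' N (g := fun w => (-1) * B n w) (fun w hw => by
        rw [hxV n w hw, neg_one_mul]) hz, D_const_mul hσ N (-1) (cd_at (hsB n) z),
        neg_one_mul]
    rw [e1, e2]
    ring
  have hlda' : L2z V' (fun n z => Db σ (N + 2) (fun w => A n w - D σ (N + 1) (x n) w) z) := by
    refine l2z_congr (l2z_add (l2z_mono hVV eA) (fun n =>
      ((contDiff_Db hσ _ (hsA n)).add (contDiff_D hσ _ (hsB n))).continuous)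
      (l2z_fn_mul lx cx (b := fun z => -(2 * (N + 1 : ℤ)) * curv σ z)
        (continuous_const.mul hcurv)) (fun n => (continuous_const.mul hcurv).mul (cx n))) hlda
  -- `α` itself
  set g : ℕ → ℂ → ℂ := fun n z => ex σ (-(N + 1)) z * x n z with hg
  have sg : ∀ n, ContDiff ℝ ∞ (g n) := fun n => (contDiff_ex hσ _).mul (sx n)
  have cg : ∀ n, Continuous (g n) := fun n => (sg n).continuous
  have lg : L2z V' g := l2z_fn_mul lx cx (contDiff_ex hσ _).continuous
  have hDx : ∀ n z, ex σ (N + 2) z * D σ (N + 1) (x n) z =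
      2 * ex σ (2 * N + 2) z * dz (g n) z := by
    intro n z
    have e2 : ex σ (N + 2) z * ex σ (N + 1 - 1) z = ex σ (2 * N + 2) z := by
      rw [ex_mul]
      congr 1
      ring
    unfold D
    change ex σ (N + 2) z * (2 * ex σ (N + 1 - 1) z * dz (g n) z) = _
    rw [← e2]
    ring
  set E2 : ℂ → ℂ := ex σ (2 * N + 2) with hE2
  have sE2 : ContDiff ℝ ∞ E2 := contDiff_ex hσ _
  set a : ℕ → ℂ → ℂ := fun n z => ex σ (N + 2) z * A n z + 2 * dz E2 z * g n z with ha
  set b : ℕ → ℂ → ℂ := fun n z => (-2) * (E2 z * g n z) with hb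
  have sb' : ∀ n, ContDiff ℝ ∞ (fun z => E2 z * g n z) := fun n => sE2.mul (sg n)
  have sb : ∀ n, ContDiff ℝ ∞ (b n) := fun n => contDiff_const.mul (sb' n)
  have sa1 : ∀ n, ContDiff ℝ ∞ (fun z => ex σ (N + 2) z * A n z) := fun n =>
    (contDiff_ex hσ _).mul (hsA n)
  have hc2 : ContDiff ℝ ∞ (fun z => 2 * dz E2 z) := contDiff_const.mul (contDiff_dz sE2)
  have sa2 : ∀ n, ContDiff ℝ ∞ (fun z => 2 * dz E2 z * g n z) := fun n => hc2.mul (sg n)
  have sa : ∀ n, ContDiff ℝ ∞ (a n) := fun n => (sa1 n).add (sa2 n)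
  set αh : ℕ → ℂ → ℂ := fun n z => ex σ (N + 2) z * (A n z - D σ (N + 1) (x n) z) with hαh
  have sαh : ∀ n, ContDiff ℝ ∞ (αh n) := fun n => (contDiff_ex hσ _).mul (sα n)
  have hαh' : L2z V' αh := by
    refine hHol V' αh a b hV' sαh sa sb (fun n z _ => ?_) (fun K hK hKV => ?_) ?_ (fun ζ hζ => ?_)
    · have e1 : dz (b n) z = (-2) * (dz E2 z * g n z + E2 z * dz (g n) z) := by
        change dz (fun z => (-2) * (E2 z * g n z)) z = _
        rw [dz_const_mul _ (cd_at (sb' n) z), dz_mul (cd_at sE2 z) (cd_at (sg n) z)]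
      change ex σ (N + 2) z * (A n z - D σ (N + 1) (x n) z) =
        ex σ (N + 2) z * A n z + 2 * dz E2 z * g n z + dz (b n) z
      rw [e1]
      linear_combination -hDx n z
    · obtain ⟨C1, hC1⟩ := lg_int (lg_fn_mul gA (fun n => (hsA n).continuous)
        (contDiff_ex hσ (N + 2)).continuous) hK (hKV.trans hVV)
      have t1 := l2z_int (l2z_fn_mul lg cg hc2.continuous) (fun n => (sa2 n).continuous) hK hKV
      have t2 := l2z_int (l2z_fn_mul lg cg (b := fun z => (-2) * E2 z)
        (continuous_const.mul sE2.continuous))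
        (fun n => (continuous_const.mul sE2.continuous).mul (cg n)) hK hKV
      refine ⟨C1 + 1 + 1, ?_⟩
      have u1 := (tendsto_order.1 t1).2 1 one_pos
      have u2 := (tendsto_order.1 t2).2 1 one_pos
      filter_upwards [hC1, u1, u2] with n k1 k2 k3
      have i1 : IntegrableOn (fun z => ‖ex σ (N + 2) z * A n z‖) K :=
        ((sa1 n).continuous.norm).continuousOn.integrableOn_compact hK
      have i2 : IntegrableOn (fun z => ‖2 * dz E2 z * g n z‖) K :=
        ((sa2 n).continuous.norm).continuousOn.integrableOn_compact hK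
      have k0 : 0 ≤ ∫ z in K, ‖ex σ (N + 2) z * A n z‖ := integral_nonneg fun z => norm_nonneg _
      constructor
      · have j1 : ∫ z in K, ‖a n z‖ ≤ ∫ z in K, (‖ex σ (N + 2) z * A n z‖
            + ‖2 * dz E2 z * g n z‖) :=
          setIntegral_mono_on (((sa n).continuous.norm).continuousOn.integrableOn_compact hK)
            (i1.add i2) hK.measurableSet fun z _ => norm_add_le _ _
        rw [integral_add i1 i2] at j1
        linarith
      · have j2 : ∫ z in K, ‖b n z‖ = ∫ z in K, ‖(-2) * E2 z * g n z‖ := by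
          refine setIntegral_congr_fun hK.measurableSet fun z _ => ?_
          change ‖(-2) * (E2 z * g n z)‖ = ‖(-2) * E2 z * g n z‖
          rw [mul_assoc]
        rw [j2]
        linarith
    · refine l2z_congr (l2z_fn_mul hlda' (fun n => (contDiff_Db hσ _ (sα n)).continuous)
        (b := fun z => (1 / 2) * ex σ (N + 3) z)
        (continuous_const.mul (contDiff_ex hσ _).continuous)) fun n z _ => ?_
      have e2 : ex σ (N + 3) z * ex σ (-(N + 2) - 1) z = 1 := by
        rw [ex_mul, show N + 3 + (-(N + 2) - 1) = 0 by ring, ex_zero]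
      change (1 / 2) * ex σ (N + 3) z * (2 * ex σ (-(N + 2) - 1) z * dzb (αh n) z) = dzb (αh n) z
      linear_combination (dzb (αh n) z) * e2
    · have w1 := wA _ (test_mul (hζ.mono hVV) (contDiff_ex hσ (N + 2)))
      have tζ : Test V' (fun z => ζ z * (2 * E2 z)) := test_mul hζ (contDiff_const.mul sE2)
      have w2 := l2z_test lg cg tζ.dz
      have w3 := w1.add w2
      rw [add_zero] at w3
      refine w3.congr fun n => ?_
      have p1 := integral_mul_dz hV' tζ (sg n).contDiffOn
      have i1 : Integrable (fun z => ζ z * ex σ (N + 2) z * A n z) :=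
        test_int (test_mul (hζ.mono hVV) (contDiff_ex hσ (N + 2))) (hsA n).continuous
      have i2 : Integrable (fun z => ζ z * (2 * E2 z) * dz (g n) z) :=
        test_int tζ (contDiff_dz (sg n)).continuous
      have e3 : ∫ z, ζ z * αh n z = (∫ z, ζ z * ex σ (N + 2) z * A n z)
          - ∫ z, ζ z * (2 * E2 z) * dz (g n) z := by
        rw [← integral_sub i1 i2]
        refine integral_congr_ae (Filter.Eventually.of_forall fun z => ?_)
        change ζ z * (ex σ (N + 2) z * (A n z - D σ (N + 1) (x n) z)) =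
          ζ z * ex σ (N + 2) z * A n z - ζ z * (2 * E2 z) * dz (g n) z
        linear_combination (-ζ z) * hDx n z
      rw [e3, p1]
      ring
  refine ⟨x, sx, hxV, lx, ?_, hlda'⟩
  refine l2z_congr (l2z_fn_mul hαh' (fun n => (sαh n).continuous)
    (contDiff_ex hσ (-(N + 2))).continuous) fun n z _ => ?_
  change ex σ (-(N + 2)) z * (ex σ (N + 2) z * (A n z - D σ (N + 1) (x n) z)) = _
  rw [← mul_assoc, ex_mul, show -(N + 2) + (N + 2) = 0 by ring, ex_zero, one_mul]

end POTZ

open POTZ QJ.POT in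
theorem stmtPotZ (hCau : QJ.StmtCau) (hHol : QJ.StmtHol) : StmtPotZ := by
  intro V σ N A B C hV hσ hT K hK hKV
  obtain ⟨χ, hχ, hχ1, -⟩ := exists_cutoff hV hK hKV
  set V' : Set ℂ := interior {z | χ z = 1} with hV'
  have oV' : IsOpen V' := isOpen_interior
  have hKV' : K ⊆ V' := fun z hz => mem_interior_iff_mem_nhds.mpr (hχ1 z hz)
  have h1 : ∀ z ∈ V', χ z = 1 := by
    intro z hz
    have : z ∈ {z | χ z = 1} := interior_subset hz
    exact this
  have hVV : V' ⊆ V := by
    intro z hz
    apply hχ.sub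
    apply subset_tsupport
    rw [Function.mem_support, h1 z hz]
    exact one_ne_zero
  obtain ⟨x, sx, hx, lx, la, lda⟩ := half hCau hHol N A B hσ hT.sA hT.sB hT.gA hT.gB
    hT.wA hT.wB hT.eA hχ oV' hVV h1
  have eC' : L2z V (fun n z => Db σ (-N + 2) (fun w => (starRingEnd ℂ) (C n w)) z
      + D σ (-N) (fun w => (starRingEnd ℂ) (B n w)) z) := by
    refine l2z_congr (l2z_conj hT.eC) fun n z _ => ?_
    rw [Db_conj _ hσ (cd_at (hT.sC n) z), D_conj _ hσ (cd_at (hT.sB n) z),
      show -(-N + 2) = N - 2 by ring, neg_neg, map_add]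
  obtain ⟨y, sy, hy, ly, lc, ldc⟩ := half hCau hHol (-N)
    (fun n w => (starRingEnd ℂ) (C n w)) (fun n w => (starRingEnd ℂ) (B n w)) hσ
    (fun n => conjCLE.contDiff.comp (hT.sC n)) (fun n => conjCLE.contDiff.comp (hT.sB n))
    (lg_conj hT.gC) (lg_conj hT.gB) (wz_conj hT.wC) (wz_conj hT.wB) eC' hχ oV' hVV h1
  refine ⟨V', x, fun n z => (starRingEnd ℂ) (y n z), oV', hKV', hVV, ?_⟩
  have hDby : ∀ n z, Db σ (N - 1) (fun w => (starRingEnd ℂ) (y n w)) z =
      (starRingEnd ℂ) (D σ (-N + 1) (y n) z) := by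
    intro n z
    rw [Db_conj _ hσ (cd_at (sy n) z), show -(N - 1) = -N + 1 by ring]
  have hγ : ∀ n z, (starRingEnd ℂ) ((starRingEnd ℂ) (C n z) - D σ (-N + 1) (y n) z) =
      C n z - Db σ (N - 1) (fun w => (starRingEnd ℂ) (y n w)) z := by
    intro n z
    rw [hDby, map_sub, starRingEnd_self_apply]
  exact
    { sx := sx
      sy := fun n => conjCLE.contDiff.comp (sy n)
      hx := hx
      hy := fun n z hz => by
        rw [D_conj _ hσ (cd_at (sy n) z), show -(N - 1) = -N + 1 by ring, hy n z hz, map_neg,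
          starRingEnd_self_apply]
      lx := lx
      ly := l2z_conj ly
      la := la
      lc := l2z_congr (l2z_conj lc) fun n z _ => hγ n z
      lda := lda
      ldc := by
        refine l2z_congr (l2z_conj ldc) fun n z _ => ?_
        have e1 : (fun w => C n w - Db σ (N - 1) (fun w => (starRingEnd ℂ) (y n w)) w) =
            fun w => (starRingEnd ℂ) ((starRingEnd ℂ) (C n w) - D σ (-N + 1) (y n) w) := by
          funext w
          exact (hγ n w).symm
        have sy' : ContDiff ℝ ∞ (fun w => (starRingEnd ℂ) (C n w) - D σ (-N + 1) (y n) w) :=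
          (conjCLE.contDiff.comp (hT.sC n)).sub (contDiff_D hσ _ (sy n))
        rw [e1, D_conj (N - 2) hσ (cd_at sy' z), show -(N - 2) = -N + 2 by ring] }

end

end U3
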