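import Pool.Agent.U3.Stmts
import Pool.Agent.QJ.Ops
import Pool.Agent.QJ.Dom
import Pool.Agent.QJ.POT
import Pool.Agent.U3.POTZ

/-!
POTB: potentials of a triple with linear growth, bounded in `L²`.
-/

open Complex MeasureTheory Filter Topology Set
open scoped ContDiff

namespace U3

open QE QJ

noncomputable section

namespace POTB

open QJ.POT U3.POTZ

variable {V : Set ℂ} {σ : ℂ → ℝ}

/-! ### Bounded sequences in `L²` -/

lemma l2b_of_l2z {u : ℕ → ℂ → ℂ} (hu : L2z V u) : L2b V u := by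
  intro K hK hKV
  refine ⟨1, ?_⟩
  filter_upwards [(tendsto_order.1 (hu K hK hKV)).2 1 one_pos] with n hn
  exact hn.le

lemma l2b_mono {V V' : Set ℂ} (hVV : V' ⊆ V) {u : ℕ → ℂ → ℂ} (hu : L2b V u) : L2b V' u :=
  fun K hK hKV => hu K hK (hKV.trans hVV)

lemma l2b_congr {u v : ℕ → ℂ → ℂ} (hu : L2b V u) (he : ∀ n, ∀ z ∈ V, u n z = v n z) :
    L2b V v := by
  intro K hK hKV
  obtain ⟨C, hC⟩ := hu K hK hKV
  refine ⟨C, ?_⟩
  filter_upwards [hC] with n hn
  refine le_trans (le_of_eq ?_) hn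
  refine setIntegral_congr_fun hK.measurableSet fun z hz => ?_
  change ‖v n z‖ ^ 2 = ‖u n z‖ ^ 2
  rw [he n z (hKV hz)]

lemma l2b_fn_mul {u : ℕ → ℂ → ℂ} (hu : L2b V u) (cu : ∀ n, Continuous (u n)) {b : ℂ → ℂ}
    (hb : Continuous b) : L2b V (fun n z => b z * u n z) := by
  intro K hK hKV
  obtain ⟨M, hM⟩ := hK.exists_bound_of_continuousOn hb.continuousOn
  obtain ⟨C, hC⟩ := hu K hK hKV
  refine ⟨M ^ 2 * C, ?_⟩
  filter_upwards [hC] with n hn
  refine le_trans ?_ (mul_le_mul_of_nonneg_left hn (sq_nonneg M))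
  rw [← integral_const_mul]
  refine setIntegral_mono_on (intOn (hb.mul (cu n)) hK 2) ((intOn (cu n) hK 2).const_mul _)
    hK.measurableSet fun z hz => ?_
  rw [norm_mul, mul_pow]
  have := hM z hz
  gcongr

lemma l2b_add {u v : ℕ → ℂ → ℂ} (hu : L2b V u) (cu : ∀ n, Continuous (u n)) (hv : L2b V v)
    (cv : ∀ n, Continuous (v n)) : L2b V (fun n z => u n z + v n z) := by
  intro K hK hKV
  obtain ⟨C1, hC1⟩ := hu K hK hKV
  obtain ⟨C2, hC2⟩ := hv K hK hKV
  refine ⟨2 * C1 + 2 * C2, ?_⟩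
  filter_upwards [hC1, hC2] with n h1 h2
  have h3 : ∫ z in K, ‖u n z + v n z‖ ^ 2 ≤
      2 * (∫ z in K, ‖u n z‖ ^ 2) + 2 * ∫ z in K, ‖v n z‖ ^ 2 := by
    rw [← integral_const_mul, ← integral_const_mul, ← integral_add
      ((intOn (cu n) hK 2).const_mul _) ((intOn (cv n) hK 2).const_mul _)]
    refine setIntegral_mono_on (intOn ((cu n).add (cv n)) hK 2)
      (((intOn (cu n) hK 2).const_mul _).add ((intOn (cv n) hK 2).const_mul _))
      hK.measurableSet fun z _ => ?_
    have a3 : ‖u n z + v n z‖ ^ 2 ≤ (‖u n z‖ + ‖v n z‖) ^ 2 := by gcongr; exact norm_add_le _ _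
    change ‖u n z + v n z‖ ^ 2 ≤ 2 * ‖u n z‖ ^ 2 + 2 * ‖v n z‖ ^ 2
    nlinarith [sq_nonneg (‖u n z‖ - ‖v n z‖)]
  linarith

lemma l2b_conj {u : ℕ → ℂ → ℂ} (hu : L2b V u) :
    L2b V (fun n z => (starRingEnd ℂ) (u n z)) := by
  intro K hK hKV
  obtain ⟨C, hC⟩ := hu K hK hKV
  refine ⟨C, ?_⟩
  filter_upwards [hC] with n hn
  simpa only [RCLike.norm_conj] using hn

lemma l2b_int {u : ℕ → ℂ → ℂ} (hu : L2b V u) (cu : ∀ n, Continuous (u n)) {K : Set ℂ}
    (hK : IsCompact K) (hKV : K ⊆ V) : ∃ C : ℝ, ∀ᶠ n in atTop, (∫ z in K, ‖u n z‖) ≤ C := by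
  obtain ⟨C, hC⟩ := hu K hK hKV
  refine ⟨(volume : Measure ℂ).real K + C, ?_⟩
  filter_upwards [hC] with n hn
  have h1 : ∫ z in K, (1 + ‖u n z‖ ^ 2) =
      (volume : Measure ℂ).real K + ∫ z in K, ‖u n z‖ ^ 2 := by
    rw [integral_add (continuous_const.continuousOn.integrableOn_compact hK) (intOn (cu n) hK 2),
      setIntegral_const, smul_eq_mul, mul_one]
  have h2 := intOn (cu n) hK 1
  simp only [pow_one] at h2
  have h3 : ∫ z in K, ‖u n z‖ ≤ ∫ z in K, (1 + ‖u n z‖ ^ 2) :=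
    setIntegral_mono_on h2 ((continuous_const.continuousOn.integrableOn_compact hK).add
      (intOn (cu n) hK 2)) hK.measurableSet fun z _ => by
        nlinarith [sq_nonneg (‖u n z‖ - 1), norm_nonneg (u n z)]
  linarith

/-- the Cauchy transform of a localized sequence -/
lemma cauchy_bdd (hCau : StmtCauB) {χ β : ℂ → ℂ} (hχ : Test V χ) (hβ : ContDiff ℝ ∞ β)
    {B : ℕ → ℂ → ℂ} (hsB : ∀ n, ContDiff ℝ ∞ (B n)) (gB : LG V B) :
    L2b V (fun n => cauchy (fun w => χ w * β w * B n w)) := by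
  intro K1 hK1 hK1V
  have hL : IsCompact (tsupport χ) := hχ.supp
  have hcs : HasCompactSupport (fun z => χ z * β z) := hχ.supp.mul_right
  obtain ⟨M, hM⟩ := (hχ.smooth.mul hβ).continuous.bounded_above_of_compact_support hcs
  have hM0 : 0 ≤ M := (norm_nonneg _).trans (hM 0)
  obtain ⟨G, hG⟩ := gB (tsupport χ ∪ K1) (hL.union hK1) (union_subset hχ.sub hK1V)
  have sf : ∀ n, ContDiff ℝ ∞ (fun w => χ w * β w * B n w) := fun n =>
    (hχ.smooth.mul hβ).mul (hsB n)
  refine hCau (tsupport χ) K1 (fun n w => χ w * β w * B n w) (M * G) hL hK1 sf (fun n => ?_) ?_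
  · exact closure_mono fun z hz => left_ne_zero_of_mul (left_ne_zero_of_mul hz)
  · filter_upwards [hG] with n hn z hz s hs
    have hKs : IsCompact (tsupport χ ∩ Metric.closedBall z s) :=
      hL.inter_right Metric.isClosed_closedBall
    have hKs' : IsCompact ((tsupport χ ∪ K1) ∩ Metric.closedBall z s) :=
      (hL.union hK1).inter_right Metric.isClosed_closedBall
    have cB : Continuous (fun w => ‖B n w‖) := (hsB n).continuous.norm
    calc ∫ w in tsupport χ ∩ Metric.closedBall z s, ‖χ w * β w * B n w‖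
        ≤ ∫ w in tsupport χ ∩ Metric.closedBall z s, M * ‖B n w‖ := by
          refine setIntegral_mono_on ?_ ?_ hKs.measurableSet fun w _ => ?_
          · exact ((sf n).continuous.norm).continuousOn.integrableOn_compact hKs
          · exact (continuous_const.mul cB).continuousOn.integrableOn_compact hKs
          · rw [norm_mul]
            exact mul_le_mul_of_nonneg_right (hM w) (norm_nonneg _)
      _ = M * ∫ w in tsupport χ ∩ Metric.closedBall z s, ‖B n w‖ := integral_const_mul _ _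
      _ ≤ M * ∫ w in (tsupport χ ∪ K1) ∩ Metric.closedBall z s, ‖B n w‖ := by
          refine mul_le_mul_of_nonneg_left ?_ hM0
          refine setIntegral_mono_set ?_ ?_ ?_
          · exact cB.continuousOn.integrableOn_compact hKs'
          · exact Filter.Eventually.of_forall fun w => norm_nonneg _
          · exact (inter_subset_inter_left _ subset_union_left).eventuallyLE
      _ ≤ M * (G * s) := mul_le_mul_of_nonneg_left (hn z (Or.inr hz) s hs) hM0
      _ = M * G * s := by ring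

/-! ### One half of the potentials -/

lemma half (hCau : StmtCauB) (hHol : StmtHolB) (N : ℤ) (A B : ℕ → ℂ → ℂ)
    (hσ : ContDiff ℝ ∞ σ) (hsA : ∀ n, ContDiff ℝ ∞ (A n)) (hsB : ∀ n, ContDiff ℝ ∞ (B n))
    (gA : LG V A) (gB : LG V B)
    (eA : L2b V (fun n z => Db σ (N + 2) (A n) z + D σ N (B n) z)) {χ : ℂ → ℂ} (hχ : Test V χ)
    {V' : Set ℂ} (hV' : IsOpen V') (hVV : V' ⊆ V) (h1 : ∀ z ∈ V', χ z = 1) :
    ∃ x : ℕ → ℂ → ℂ, (∀ n, ContDiff ℝ ∞ (x n)) ∧
      (∀ n, ∀ z ∈ V', Db σ (N + 1) (x n) z = - B n z) ∧ L2b V' x ∧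
      L2b V' (fun n z => A n z - D σ (N + 1) (x n) z) ∧
      L2b V' (fun n z => Db σ (N + 2) (fun w => A n w - D σ (N + 1) (x n) w) z) := by
  set β : ℂ → ℂ := fun z => -(1 / 2) * ex σ (N + 2) z with hβdef
  have hβ : ContDiff ℝ ∞ β := contDiff_const.mul (contDiff_ex hσ _)
  set f : ℕ → ℂ → ℂ := fun n w => χ w * β w * B n w with hf
  have sf : ∀ n, ContDiff ℝ ∞ (f n) := fun n => (hχ.smooth.mul hβ).mul (hsB n)
  have cf : ∀ n, HasCompactSupport (f n) := fun n => (hχ.supp.mul_right).mul_right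
  have sxh : ∀ n, ContDiff ℝ ∞ (cauchy (f n)) := fun n => contDiff_cauchy (sf n) (cf n)
  have lxh : L2b V (fun n => cauchy (f n)) := cauchy_bdd hCau hχ hβ hsB gB
  set x : ℕ → ℂ → ℂ := fun n z => ex σ (-(N + 1)) z * cauchy (f n) z with hx
  have sx : ∀ n, ContDiff ℝ ∞ (x n) := fun n => (contDiff_ex hσ _).mul (sxh n)
  have hDb : ∀ n z, Db σ (N + 1) (x n) z = - (χ z * B n z) := by
    intro n z
    have e1 : (fun w => ex σ (N + 1) w * x n w) = cauchy (f n) := by
      funext w
      change ex σ (N + 1) w * (ex σ (-(N + 1)) w * cauchy (f n) w) = _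
      rw [← mul_assoc, ex_mul, show N + 1 + -(N + 1) = 0 by ring, ex_zero, one_mul]
    unfold Db
    rw [e1, dzb_cauchy (sf n) (cf n)]
    have e2 : ex σ (-(N + 1) - 1) z * ex σ (N + 2) z = 1 := by
      rw [ex_mul, show -(N + 1) - 1 + (N + 2) = 0 by ring, ex_zero]
    change 2 * ex σ (-(N + 1) - 1) z * (χ z * (-(1 / 2) * ex σ (N + 2) z) * B n z) = _
    linear_combination (-(χ z * B n z)) * e2
  have hxV : ∀ n, ∀ z ∈ V', Db σ (N + 1) (x n) z = - B n z := by
    intro n z hz
    rw [hDb, h1 z hz, one_mul]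
  have lx : L2b V' x :=
    l2b_mono hVV (l2b_fn_mul lxh (fun n => (sxh n).continuous) (contDiff_ex hσ _).continuous)
  have cx : ∀ n, Continuous (x n) := fun n => (sx n).continuous
  -- the derivative of `α`
  have hcurv : Continuous (curv σ) := by
    unfold curv
    exact ((continuous_const.mul (contDiff_ex hσ _).continuous).mul
      (contDiff_dz (contDiff_dzb (contDiff_sig hσ))).continuous).neg
  have sα : ∀ n, ContDiff ℝ ∞ (fun w => A n w - D σ (N + 1) (x n) w) := fun n =>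
    (hsA n).sub (contDiff_D hσ _ (sx n))
  have hlda : ∀ n, ∀ z ∈ V', (Db σ (N + 2) (A n) z + D σ N (B n) z)
      + (-(2 * (N + 1 : ℤ)) * curv σ z) * x n z =
      Db σ (N + 2) (fun w => A n w - D σ (N + 1) (x n) w) z := by
    intro n z hz
    rw [Db_sub hσ _ (cd_at (hsA n) z) (cd_at (contDiff_D hσ _ (sx n)) z)]
    have e1 := comm hσ (N + 1) (sx n) z
    rw [show N + 1 + 1 = N + 2 by ring, show N + 1 - 1 = N by ring] at e1
    have e2 : D σ N (Db σ (N + 1) (x n)) z = - D σ N (B n) z := by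
      rw [D_congr_on hV' N (g := fun w => (-1) * B n w) (fun w hw => by
        rw [hxV n w hw, neg_one_mul]) hz, D_const_mul hσ N (-1) (cd_at (hsB n) z),
        neg_one_mul]
    rw [e1, e2]
    ring
  have hlda' : L2b V' (fun n z => Db σ (N + 2) (fun w => A n w - D σ (N + 1) (x n) w) z) := by
    refine l2b_congr (l2b_add (l2b_mono hVV eA) (fun n =>
      ((contDiff_Db hσ _ (hsA n)).add (contDiff_D hσ _ (hsB n))).continuous)
      (l2b_fn_mul lx cx (b := fun z => -(2 * (N + 1 : ℤ)) * curv σ z)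
        (continuous_const.mul hcurv)) (fun n => (continuous_const.mul hcurv).mul (cx n))) hlda
  -- `α` itself
  set g : ℕ → ℂ → ℂ := fun n z => ex σ (-(N + 1)) z * x n z with hg
  have sg : ∀ n, ContDiff ℝ ∞ (g n) := fun n => (contDiff_ex hσ _).mul (sx n)
  have cg : ∀ n, Continuous (g n) := fun n => (sg n).continuous
  have lg : L2b V' g := l2b_fn_mul lx cx (contDiff_ex hσ _).continuous
  have hDx : ∀ n z, ex σ (N + 2) z * D σ (N + 1) (x n) z =
      2 * ex σ (2 * N + 2) z * dz (g n) z := by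
    intro n z
    have e2 : ex σ (N + 2) z * ex σ (N + 1 - 1) z = ex σ (2 * N + 2) z := by
      rw [ex_mul]
      congr 1
      ring
    unfold D
    change ex σ (N + 2) z * (2 * ex σ (N + 1 - 1) z * dz (g n) z) = _
    rw [← e2]
    ring
  set E2 : ℂ → ℂ := ex σ (2 * N + 2) with hE2
  have sE2 : ContDiff ℝ ∞ E2 := contDiff_ex hσ _
  set a : ℕ → ℂ → ℂ := fun n z => ex σ (N + 2) z * A n z + 2 * dz E2 z * g n z with ha
  set b : ℕ → ℂ → ℂ := fun n z => (-2) * (E2 z * g n z) with hb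
  have sb' : ∀ n, ContDiff ℝ ∞ (fun z => E2 z * g n z) := fun n => sE2.mul (sg n)
  have sb : ∀ n, ContDiff ℝ ∞ (b n) := fun n => contDiff_const.mul (sb' n)
  have sa1 : ∀ n, ContDiff ℝ ∞ (fun z => ex σ (N + 2) z * A n z) := fun n =>
    (contDiff_ex hσ _).mul (hsA n)
  have hc2 : ContDiff ℝ ∞ (fun z => 2 * dz E2 z) := contDiff_const.mul (contDiff_dz sE2)
  have sa2 : ∀ n, ContDiff ℝ ∞ (fun z => 2 * dz E2 z * g n z) := fun n => hc2.mul (sg n)
  have sa : ∀ n, ContDiff ℝ ∞ (a n) := fun n => (sa1 n).add (sa2 n)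
  set αh : ℕ → ℂ → ℂ := fun n z => ex σ (N + 2) z * (A n z - D σ (N + 1) (x n) z) with hαh
  have sαh : ∀ n, ContDiff ℝ ∞ (αh n) := fun n => (contDiff_ex hσ _).mul (sα n)
  have hαh' : L2b V' αh := by
    refine hHol V' αh a b hV' sαh sa sb (fun n z _ => ?_) (fun K hK hKV => ?_) ?_
    · have e1 : dz (b n) z = (-2) * (dz E2 z * g n z + E2 z * dz (g n) z) := by
        change dz (fun z => (-2) * (E2 z * g n z)) z = _
        rw [dz_const_mul _ (cd_at (sb' n) z), dz_mul (cd_at sE2 z) (cd_at (sg n) z)]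
      change ex σ (N + 2) z * (A n z - D σ (N + 1) (x n) z) =
        ex σ (N + 2) z * A n z + 2 * dz E2 z * g n z + dz (b n) z
      rw [e1]
      linear_combination -hDx n z
    · obtain ⟨C1, hC1⟩ := lg_int (lg_fn_mul gA (fun n => (hsA n).continuous)
        (contDiff_ex hσ (N + 2)).continuous) hK (hKV.trans hVV)
      obtain ⟨C2, hC2⟩ := l2b_int (l2b_fn_mul lg cg hc2.continuous)
        (fun n => (sa2 n).continuous) hK hKV
      obtain ⟨C3, hC3⟩ := l2b_int (l2b_fn_mul lg cg (b := fun z => (-2) * E2 z)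
        (continuous_const.mul sE2.continuous))
        (fun n => (continuous_const.mul sE2.continuous).mul (cg n)) hK hKV
      refine ⟨C1 + |C2| + |C3|, ?_⟩
      filter_upwards [hC1, hC2, hC3] with n k1 k2 k3
      have a2 := le_abs_self C2
      have a3 := le_abs_self C3
      have a4 := abs_nonneg C2
      have a5 := abs_nonneg C3
      have i1 : IntegrableOn (fun z => ‖ex σ (N + 2) z * A n z‖) K :=
        ((sa1 n).continuous.norm).continuousOn.integrableOn_compact hK
      have i2 : IntegrableOn (fun z => ‖2 * dz E2 z * g n z‖) K :=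
        ((sa2 n).continuous.norm).continuousOn.integrableOn_compact hK
      have k0 : 0 ≤ ∫ z in K, ‖ex σ (N + 2) z * A n z‖ := integral_nonneg fun z => norm_nonneg _
      constructor
      · have j1 : ∫ z in K, ‖a n z‖ ≤ ∫ z in K, (‖ex σ (N + 2) z * A n z‖
            + ‖2 * dz E2 z * g n z‖) :=
          setIntegral_mono_on (((sa n).continuous.norm).continuousOn.integrableOn_compact hK)
            (i1.add i2) hK.measurableSet fun z _ => norm_add_le _ _
        rw [integral_add i1 i2] at j1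
        linarith
      · have j2 : ∫ z in K, ‖b n z‖ = ∫ z in K, ‖(-2) * E2 z * g n z‖ := by
          refine setIntegral_congr_fun hK.measurableSet fun z _ => ?_
          change ‖(-2) * (E2 z * g n z)‖ = ‖(-2) * E2 z * g n z‖
          rw [mul_assoc]
        rw [j2]
        linarith
    · refine l2b_congr (l2b_fn_mul hlda' (fun n => (contDiff_Db hσ _ (sα n)).continuous)
        (b := fun z => (1 / 2) * ex σ (N + 3) z)
        (continuous_const.mul (contDiff_ex hσ _).continuous)) fun n z _ => ?_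
      have e2 : ex σ (N + 3) z * ex σ (-(N + 2) - 1) z = 1 := by
        rw [ex_mul, show N + 3 + (-(N + 2) - 1) = 0 by ring, ex_zero]
      change (1 / 2) * ex σ (N + 3) z * (2 * ex σ (-(N + 2) - 1) z * dzb (αh n) z) = dzb (αh n) z
      linear_combination (dzb (αh n) z) * e2
  refine ⟨x, sx, hxV, lx, ?_, hlda'⟩
  refine l2b_congr (l2b_fn_mul hαh' (fun n => (sαh n).continuous)
    (contDiff_ex hσ (-(N + 2))).continuous) fun n z _ => ?_
  change ex σ (-(N + 2)) z * (ex σ (N + 2) z * (A n z - D σ (N + 1) (x n) z)) = _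
  rw [← mul_assoc, ex_mul, show -(N + 2) + (N + 2) = 0 by ring, ex_zero, one_mul]

end POTB

open POTZ QJ.POT POTB in
theorem stmtPotB (hCau : StmtCauB) (hHol : StmtHolB) : StmtPotB := by
  intro V σ N A B C hV hσ hT K hK hKV
  obtain ⟨χ, hχ, hχ1, -⟩ := exists_cutoff hV hK hKV
  set V' : Set ℂ := interior {z | χ z = 1} with hV'
  have oV' : IsOpen V' := isOpen_interior
  have hKV' : K ⊆ V' := fun z hz => mem_interior_iff_mem_nhds.mpr (hχ1 z hz)
  have h1 : ∀ z ∈ V', χ z = 1 := by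
    intro z hz
    have : z ∈ {z | χ z = 1} := interior_subset hz
    exact this
  have hVV : V' ⊆ V := by
    intro z hz
    apply hχ.sub
    apply subset_tsupport
    rw [Function.mem_support, h1 z hz]
    exact one_ne_zero
  obtain ⟨x, sx, hx, lx, la, lda⟩ := POTB.half hCau hHol N A B hσ hT.sA hT.sB hT.gA hT.gB
    (l2b_of_l2z hT.eA) hχ oV' hVV h1
  have eC' : L2b V (fun n z => Db σ (-N + 2) (fun w => (starRingEnd ℂ) (C n w)) z
      + D σ (-N) (fun w => (starRingEnd ℂ) (B n w)) z) := by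
    refine l2b_congr (l2b_conj (l2b_of_l2z hT.eC)) fun n z _ => ?_
    rw [Db_conj _ hσ (cd_at (hT.sC n) z), D_conj _ hσ (cd_at (hT.sB n) z),
      show -(-N + 2) = N - 2 by ring, neg_neg, map_add]
  obtain ⟨y, sy, hy, ly, lc, ldc⟩ := POTB.half hCau hHol (-N)
    (fun n w => (starRingEnd ℂ) (C n w)) (fun n w => (starRingEnd ℂ) (B n w)) hσ
    (fun n => conjCLE.contDiff.comp (hT.sC n)) (fun n => conjCLE.contDiff.comp (hT.sB n))
    (lg_conj hT.gC) (lg_conj hT.gB) eC' hχ oV' hVV h1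
  refine ⟨V', x, fun n z => (starRingEnd ℂ) (y n z), oV', hKV', hVV, ?_⟩
  have hDby : ∀ n z, Db σ (N - 1) (fun w => (starRingEnd ℂ) (y n w)) z =
      (starRingEnd ℂ) (D σ (-N + 1) (y n) z) := by
    intro n z
    rw [Db_conj _ hσ (cd_at (sy n) z), show -(N - 1) = -N + 1 by ring]
  have hγ : ∀ n z, (starRingEnd ℂ) ((starRingEnd ℂ) (C n z) - D σ (-N + 1) (y n) z) =
      C n z - Db σ (N - 1) (fun w => (starRingEnd ℂ) (y n w)) z := by
    intro n z
    rw [hDby, map_sub, starRingEnd_self_apply]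
  exact
    { sx := sx
      sy := fun n => conjCLE.contDiff.comp (sy n)
      hx := hx
      hy := fun n z hz => by
        rw [D_conj _ hσ (cd_at (sy n) z), show -(N - 1) = -N + 1 by ring, hy n z hz, map_neg,
          starRingEnd_self_apply]
      lx := lx
      ly := l2b_conj ly
      la := la
      lc := l2b_congr (l2b_conj lc) fun n z _ => hγ n z
      lda := lda
      ldc := by
        refine l2b_congr (l2b_conj ldc) fun n z _ => ?_
        have e1 : (fun w => C n w - Db σ (N - 1) (fun w => (starRingEnd ℂ) (y n w)) w) =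
            fun w => (starRingEnd ℂ) ((starRingEnd ℂ) (C n w) - D σ (-N + 1) (y n) w) := by
          funext w
          exact (hγ n w).symm
        have sy' : ContDiff ℝ ∞ (fun w => (starRingEnd ℂ) (C n w) - D σ (-N + 1) (y n) w) :=
          (conjCLE.contDiff.comp (hT.sC n)).sub (contDiff_D hσ _ (sy n))
        rw [e1, D_conj (N - 2) hσ (cd_at sy' z), show -(N - 2) = -N + 2 by ring] }

end

end U3
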