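import Pool.Agent.U3.Stmts
import Pool.Agent.U3.JETC
import Pool.Agent.QJ.Ops
import Pool.Agent.QJ.Dom
import Pool.Agent.QJ.IBP

/-!
Module SML: the jets are small in `L⁴` after multiplication by `h`.
-/

open Complex MeasureTheory Filter Topology Set
open scoped ContDiff

namespace U3

open QE QJ

noncomputable section

namespace SML

variable {V : Set ℂ} {σ : ℂ → ℝ} {h : ℕ → ℝ} {φ : ℕ → ℂ → ℂ}

/-! ### Conjugation -/

lemma conj_E (L : LocB V σ h φ) (j : ℤ) (n : ℕ) (z : ℂ) :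
    (starRingEnd ℂ) (E σ h φ j n z) = (-1) ^ j * E σ h φ (-j) n z := by
  obtain ⟨m, rfl | rfl⟩ := j.eq_nat_or_neg
  · rw [JETA.E_nat, U3.JETA.E_neg L m, zpow_natCast, ← mul_assoc, ← mul_pow]
    norm_num
  · rw [U3.JETA.E_neg L m, neg_neg, JETA.E_nat, zpow_neg, zpow_natCast]
    simp only [map_mul, map_pow, map_neg, map_one, Complex.conj_conj]
    rw [← inv_pow]
    norm_num

lemma c0 (L : LocB V σ h φ) (n : ℕ) (z : ℂ) :
    (starRingEnd ℂ) (E σ h φ 0 n z) = E σ h φ 0 n z := by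
  have := conj_E L 0 n z
  simpa using this

lemma c1 (L : LocB V σ h φ) (n : ℕ) (z : ℂ) :
    (starRingEnd ℂ) (E σ h φ 1 n z) = - E σ h φ (-1) n z := by
  have := conj_E L 1 n z
  simpa using this

lemma cm1 (L : LocB V σ h φ) (n : ℕ) (z : ℂ) :
    (starRingEnd ℂ) (E σ h φ (-1) n z) = - E σ h φ 1 n z := by
  have := conj_E L (-1) n z
  rw [neg_neg] at this
  rw [this, zpow_neg, zpow_one]
  norm_num

lemma c2 (L : LocB V σ h φ) (n : ℕ) (z : ℂ) :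
    (starRingEnd ℂ) (E σ h φ 2 n z) = E σ h φ (-2) n z := by
  have := conj_E L 2 n z
  rw [this]
  norm_num

/-! ### Cutoff functions -/

lemma cut (hV : IsOpen V) {K : Set ℂ} (hK : IsCompact K) (hKV : K ⊆ V) :
    ∃ ζ : ℂ → ℂ, Test V ζ ∧ (∀ z, ζ z = ((ζ z).re : ℂ)) ∧ (∀ z, 0 ≤ (ζ z).re) ∧
      ∀ z ∈ K, ζ z = 1 := by
  obtain ⟨χ, hχ, h1, -⟩ := exists_cutoff hV hK hKV
  have e : ∀ z, χ z * (starRingEnd ℂ) (χ z) = ((‖χ z‖ ^ 2 : ℝ) : ℂ) := by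
    intro z
    rw [Complex.mul_conj']
    push_cast
    rfl
  refine ⟨fun z => χ z * (starRingEnd ℂ) (χ z), test_mul hχ hχ.conj.smooth, fun z => ?_,
    fun z => ?_, fun z hz => ?_⟩
  · show χ z * (starRingEnd ℂ) (χ z) = (((χ z * (starRingEnd ℂ) (χ z)).re : ℝ) : ℂ)
    rw [e z, Complex.ofReal_re]
  · show 0 ≤ (χ z * (starRingEnd ℂ) (χ z)).re
    rw [e z, Complex.ofReal_re]
    positivity
  · have h2 : χ z = 1 := (h1 z hz).self_of_nhds
    show χ z * (starRingEnd ℂ) (χ z) = 1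
    rw [h2, map_one, one_mul]

/-- the integral over a compact set is bounded by the integral against the cutoff function -/
lemma le_int {ζ : ℂ → ℂ} {K : Set ℂ} (hζ : Test V ζ) (hr : ∀ z, ζ z = ((ζ z).re : ℂ))
    (h0 : ∀ z, 0 ≤ (ζ z).re) (hK : IsCompact K) (h1 : ∀ z ∈ K, ζ z = 1) {F : ℂ → ℝ}
    (hF : Continuous F) (hF0 : ∀ z, 0 ≤ F z) :
    ∫ z in K, F z ≤ ‖∫ z, ζ z * (F z : ℂ)‖ := by
  have e1 : ∀ z, ζ z * (F z : ℂ) = (((ζ z).re * F z : ℝ) : ℂ) := by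
    intro z
    rw [hr z, Complex.ofReal_re]
    push_cast
    rfl
  have e2 : ∫ z, ζ z * (F z : ℂ) = ((∫ z, (ζ z).re * F z : ℝ) : ℂ) :=
    (integral_congr_ae (Filter.Eventually.of_forall e1)).trans integral_complex_ofReal
  have hi : Integrable fun z => (ζ z).re * F z := by
    have h2 := (test_int hζ (f := fun z => (F z : ℂ)) (Complex.continuous_ofReal.comp hF)).re
    refine h2.congr (Filter.Eventually.of_forall fun z => ?_)
    show (ζ z * (F z : ℂ)).re = _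
    rw [e1 z, Complex.ofReal_re]
  have h3 : 0 ≤ ∫ z, (ζ z).re * F z := integral_nonneg fun z => mul_nonneg (h0 z) (hF0 z)
  rw [e2, Complex.norm_real, Real.norm_of_nonneg h3]
  have e3 : ∫ z in K, F z = ∫ z in K, (ζ z).re * F z := by
    refine setIntegral_congr_fun hK.measurableSet fun z hz => ?_
    show F z = (ζ z).re * F z
    rw [h1 z hz, Complex.one_re, one_mul]
  rw [e3]
  exact setIntegral_le_integral hi (Filter.Eventually.of_forall fun z => mul_nonneg (h0 z) (hF0 z))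

/-! ### Sequences which are small in `L⁴` after multiplication by `h` -/

/-- `h ∫ ‖u‖⁴ → 0` on compact sets -/
def Q4 (V : Set ℂ) (h : ℕ → ℝ) (u : ℕ → ℂ → ℂ) : Prop :=
  ∀ K, IsCompact K → K ⊆ V → Tendsto (fun n => h n * ∫ z in K, ‖u n z‖ ^ 4) atTop (𝓝 0)

lemma int_on {K : Set ℂ} (hK : IsCompact K) {F : ℂ → ℝ} (hF : Continuous F) :
    IntegrableOn F K := hF.continuousOn.integrableOn_compact hK

lemma add_pow_four (a b : ℝ) : (a + b) ^ 4 ≤ 8 * (a ^ 4 + b ^ 4) := by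
  nlinarith [sq_nonneg (a - b), sq_nonneg (a + b), sq_nonneg (a ^ 2 - b ^ 2),
    sq_nonneg (a * b), mul_nonneg (sq_nonneg (a - b)) (sq_nonneg (a + b)),
    sq_nonneg ((a - b) ^ 2)]

lemma Q4.add (hh : ∀ n, 0 < h n) {u v : ℕ → ℂ → ℂ} (cu : ∀ n, Continuous (u n))
    (cv : ∀ n, Continuous (v n)) (hu : Q4 V h u) (hv : Q4 V h v) :
    Q4 V h (fun n z => u n z + v n z) := by
  intro K hK hKV
  have h1 := ((hu K hK hKV).add (hv K hK hKV)).const_mul 8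
  rw [add_zero, mul_zero] at h1
  refine squeeze_zero (fun n => mul_nonneg (hh n).le (integral_nonneg fun z => by positivity))
    (fun n => ?_) h1
  have i1 : IntegrableOn (fun z => ‖u n z‖ ^ 4) K := int_on hK ((cu n).norm.pow 4)
  have i2 : IntegrableOn (fun z => ‖v n z‖ ^ 4) K := int_on hK ((cv n).norm.pow 4)
  have h2 : ∫ z in K, ‖u n z + v n z‖ ^ 4 ≤ ∫ z in K, 8 * (‖u n z‖ ^ 4 + ‖v n z‖ ^ 4) := by
    refine setIntegral_mono (int_on hK (((cu n).add (cv n)).norm.pow 4))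
      ((i1.add i2).const_mul 8) fun z => ?_
    calc ‖u n z + v n z‖ ^ 4 ≤ (‖u n z‖ + ‖v n z‖) ^ 4 := by gcongr; exact norm_add_le _ _
      _ ≤ 8 * (‖u n z‖ ^ 4 + ‖v n z‖ ^ 4) := add_pow_four _ _
  rw [integral_const_mul, integral_add i1 i2] at h2
  calc h n * ∫ z in K, ‖u n z + v n z‖ ^ 4
      ≤ h n * (8 * ((∫ z in K, ‖u n z‖ ^ 4) + ∫ z in K, ‖v n z‖ ^ 4)) :=
        mul_le_mul_of_nonneg_left h2 (hh n).le
    _ = 8 * (h n * (∫ z in K, ‖u n z‖ ^ 4) + h n * ∫ z in K, ‖v n z‖ ^ 4) := by ring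

/-- domination -/
lemma Q4.of_le (hh : ∀ n, 0 < h n) {u v : ℕ → ℂ → ℂ} (cu : ∀ n, Continuous (u n))
    (cv : ∀ n, Continuous (v n)) {b : ℂ → ℝ} (hb : Continuous b)
    (hle : ∀ n, ∀ z ∈ V, ‖u n z‖ ≤ b z * ‖v n z‖) (hv : Q4 V h v) : Q4 V h u := by
  intro K hK hKV
  obtain ⟨M, hM⟩ := hK.exists_bound_of_continuousOn hb.continuousOn
  have h1 := (hv K hK hKV).const_mul (M ^ 4)
  rw [mul_zero] at h1
  refine squeeze_zero (fun n => mul_nonneg (hh n).le (integral_nonneg fun z => by positivity))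
    (fun n => ?_) h1
  have i2 := int_on hK ((cv n).norm.pow 4)
  have h2 : ∫ z in K, ‖u n z‖ ^ 4 ≤ ∫ z in K, M ^ 4 * ‖v n z‖ ^ 4 := by
    refine setIntegral_mono_on (int_on hK ((cu n).norm.pow 4)) (i2.const_mul _)
      hK.measurableSet fun z hz => ?_
    have h3 : ‖u n z‖ ≤ M * ‖v n z‖ := by
      refine (hle n z (hKV hz)).trans ?_
      have h4 := (le_abs_self (b z)).trans (hM z hz)
      gcongr
    calc ‖u n z‖ ^ 4 ≤ (M * ‖v n z‖) ^ 4 := by gcongr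
      _ = M ^ 4 * ‖v n z‖ ^ 4 := by ring
  rw [integral_const_mul] at h2
  calc h n * ∫ z in K, ‖u n z‖ ^ 4 ≤ h n * (M ^ 4 * ∫ z in K, ‖v n z‖ ^ 4) :=
        mul_le_mul_of_nonneg_left h2 (hh n).le
    _ = M ^ 4 * (h n * ∫ z in K, ‖v n z‖ ^ 4) := by ring

/-- `h A` for `A` dominated by the jets -/
lemma Q4.hA (hIntA : StmtIntA) (L : LocB V σ h φ) (G : GrowA V h φ) {A : ℕ → ℂ → ℂ}
    (hA : Dom V h φ 1 A) : Q4 V h (fun n z => (h n : ℂ) * A n z) := by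
  intro K hK hKV
  have hAA := hA.mul L.op hA
  have h1 := (hIntA V h φ _ L.hpos L.hlim L.smφ G hAA.smooth).2.1 hAA.bq K hK hKV
  have h2 : Tendsto (fun n => h n ^ 3 * ∫ z in K, ‖(h n : ℂ) * (A n z * A n z)‖ ^ 2) atTop
      (𝓝 0) := by
    have := (L.hlim.pow 3).mul h1
    simpa using this
  refine h2.congr fun n => ?_
  rw [show h n ^ 3 = h n * h n ^ 2 by ring, mul_assoc, ← integral_const_mul]
  congr 1
  refine integral_congr_ae (Filter.Eventually.of_forall fun z => ?_)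
  show h n ^ 2 * ‖(h n : ℂ) * (A n z * A n z)‖ ^ 2 = ‖(h n : ℂ) * A n z‖ ^ 4
  rw [norm_mul, norm_mul, norm_mul, Complex.norm_real, Real.norm_of_nonneg (L.hpos n).le]
  ring

/-! ### The four-jet integrals -/

lemma cE (hJetC : StmtJetC) (L : LocB V σ h φ) (j : ℤ) (n : ℕ) : Continuous (E σ h φ j n) :=
  ((hJetC V σ h φ L j).1.smooth n).continuous

lemma E4_int (hJetC : StmtJetC) (L : LocB V σ h φ) {ζ : ℂ → ℂ} (hζ : Test V ζ) (a b c d : ℤ)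
    (n : ℕ) : Integrable fun z => ζ z * (E σ h φ a n z * E σ h φ b n z * E σ h φ c n z *
      E σ h φ d n z) :=
  test_int hζ ((((cE hJetC L a n).mul (cE hJetC L b n)).mul (cE hJetC L c n)).mul
    (cE hJetC L d n))

/-- the difference of products -/
def SS (σ : ℂ → ℝ) (h : ℕ → ℝ) (φ : ℕ → ℂ → ℂ) (n : ℕ) (z : ℂ) : ℂ :=
  E σ h φ 0 n z * E σ h φ 1 n z - E σ h φ 2 n z * E σ h φ (-1) n z

lemma SS_sq (L : LocB V σ h φ) (n : ℕ) (z : ℂ) : ((‖SS σ h φ n z‖ ^ 2 : ℝ) : ℂ) =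
    - (E σ h φ 0 n z * E σ h φ 1 n z * E σ h φ 0 n z * E σ h φ (-1) n z)
      + E σ h φ 0 n z * E σ h φ 1 n z * E σ h φ (-2) n z * E σ h φ 1 n z
      + E σ h φ 2 n z * E σ h φ (-1) n z * E σ h φ 0 n z * E σ h φ (-1) n z
      - E σ h φ 2 n z * E σ h φ (-1) n z * E σ h φ (-2) n z * E σ h φ 1 n z := by
  push_cast
  rw [← Complex.mul_conj']
  unfold SS
  rw [map_sub, map_mul, map_mul, c0 L, c1 L, c2 L, cm1 L]
  ring

lemma SS_cont (hJetC : StmtJetC) (L : LocB V σ h φ) (n : ℕ) : Continuous (SS σ h φ n) :=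
  ((cE hJetC L 0 n).mul (cE hJetC L 1 n)).sub ((cE hJetC L 2 n).mul (cE hJetC L (-1) n))

lemma SS_lim (hJetC : StmtJetC) (hHcl : StmtHcl) (L : LocB V σ h φ) {ζ : ℂ → ℂ}
    (hζ : Test V ζ) : Tendsto (fun n => (h n : ℂ) * ∫ z, ζ z * ((‖SS σ h φ n z‖ ^ 2 : ℝ) : ℂ))
      atTop (𝓝 0) := by
  have t1 := hHcl V σ h φ L ζ hζ 0 1 0 (-1) (by norm_num)
  have t2 := hHcl V σ h φ L ζ hζ 0 1 (-2) 1 (by norm_num)
  have t3 := hHcl V σ h φ L ζ hζ 2 (-1) 0 (-1) (by norm_num)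
  have t4 := hHcl V σ h φ L ζ hζ 2 (-1) (-2) 1 (by norm_num)
  have k1 : cl4 0 1 0 (-1) = -1 / 3 := if_neg (by decide)
  have k2 : cl4 0 1 (-2) 1 = -1 / 3 := if_neg (by decide)
  have k3 : cl4 2 (-1) 0 (-1) = -1 / 3 := if_neg (by decide)
  have k4 : cl4 2 (-1) (-2) 1 = -1 / 3 := if_neg (by decide)
  rw [k1] at t1
  rw [k2] at t2
  rw [k3] at t3
  rw [k4] at t4
  have t5 := ((t2.sub t1).add t3).sub t4
  rw [sub_zero, add_zero, sub_zero] at t5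
  refine t5.congr fun n => ?_
  have e : ∫ z, ζ z * ((‖SS σ h φ n z‖ ^ 2 : ℝ) : ℂ) = E4 σ h φ ζ 0 1 (-2) 1 n
      - E4 σ h φ ζ 0 1 0 (-1) n + E4 σ h φ ζ 2 (-1) 0 (-1) n - E4 σ h φ ζ 2 (-1) (-2) 1 n := by
    have i1 := E4_int hJetC L hζ 0 1 0 (-1) n
    have i2 := E4_int hJetC L hζ 0 1 (-2) 1 n
    have i3 := E4_int hJetC L hζ 2 (-1) 0 (-1) n
    have i4 := E4_int hJetC L hζ 2 (-1) (-2) 1 n
    have i5 : Integrable fun z =>
        ζ z * (E σ h φ 0 n z * E σ h φ 1 n z * E σ h φ (-2) n z * E σ h φ 1 n z)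
        - ζ z * (E σ h φ 0 n z * E σ h φ 1 n z * E σ h φ 0 n z * E σ h φ (-1) n z) := i2.sub i1
    have i6 : Integrable fun z =>
        ζ z * (E σ h φ 0 n z * E σ h φ 1 n z * E σ h φ (-2) n z * E σ h φ 1 n z)
        - ζ z * (E σ h φ 0 n z * E σ h φ 1 n z * E σ h φ 0 n z * E σ h φ (-1) n z)
        + ζ z * (E σ h φ 2 n z * E σ h φ (-1) n z * E σ h φ 0 n z * E σ h φ (-1) n z) := i5.add i3
    unfold E4
    rw [← integral_sub i2 i1, ← integral_add i5 i3, ← integral_sub i6 i4]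
    refine integral_congr_ae (Filter.Eventually.of_forall fun z => ?_)
    simp only []
    rw [SS_sq L]
    ring
  rw [e]
  ring

lemma SS_small (hJetC : StmtJetC) (hHcl : StmtHcl) (L : LocB V σ h φ) {K : Set ℂ}
    (hK : IsCompact K) (hKV : K ⊆ V) :
    Tendsto (fun n => h n * ∫ z in K, ‖SS σ h φ n z‖ ^ 2) atTop (𝓝 0) := by
  obtain ⟨ζ, hζ, hr, h0, h1⟩ := cut L.op hK hKV
  have t1 := (SS_lim hJetC hHcl L hζ).norm
  rw [norm_zero] at t1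
  refine squeeze_zero (fun n => mul_nonneg (L.hpos n).le (integral_nonneg fun z => by positivity))
    (fun n => ?_) t1
  rw [norm_mul, Complex.norm_real, Real.norm_of_nonneg (L.hpos n).le]
  exact mul_le_mul_of_nonneg_left (le_int hζ hr h0 hK h1 ((SS_cont hJetC L n).norm.pow 2)
    fun z => by positivity) (L.hpos n).le

/-! ### The energy density -/

/-- the energy density -/
def UU (σ : ℂ → ℝ) (h : ℕ → ℝ) (φ : ℕ → ℂ → ℂ) (n : ℕ) (z : ℂ) : ℝ :=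
  1 / 2 * (‖E σ h φ 0 n z‖ ^ 2 + ‖E σ h φ 1 n z‖ ^ 2)

lemma UU_nonneg (n : ℕ) (z : ℂ) : 0 ≤ UU σ h φ n z := by
  unfold UU; positivity

lemma UU_smooth (hJetC : StmtJetC) (L : LocB V σ h φ) (n : ℕ) : ContDiff ℝ ∞ (UU σ h φ n) :=
  contDiff_const.mul ((((hJetC V σ h φ L 0).1.smooth n).norm_sq ℝ).add
    (((hJetC V σ h φ L 1).1.smooth n).norm_sq ℝ))

lemma UU_eq (L : LocB V σ h φ) (n : ℕ) (z : ℂ) : ((UU σ h φ n z : ℝ) : ℂ) =
    1 / 2 * (E σ h φ 0 n z * E σ h φ 0 n z - E σ h φ 1 n z * E σ h φ (-1) n z) := by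
  unfold UU
  push_cast
  rw [← Complex.mul_conj', ← Complex.mul_conj', c0 L, c1 L]
  ring

lemma grad_eq {U : ℂ → ℝ} (hU : ContDiff ℝ ∞ U) (hσ : ContDiff ℝ ∞ σ) (z : ℂ) :
    d1 U z ^ 2 + d2 U z ^ 2
      = Real.exp (2 * σ z) * ‖D σ 0 (fun w => ((U w : ℝ) : ℂ)) z‖ ^ 2 := by
  have hd : DifferentiableAt ℝ U z := (hU.differentiable (by simp)) z
  have hUc : ContDiff ℝ ∞ (fun w => ((U w : ℝ) : ℂ)) := ofRealCLM.contDiff.comp hU
  have hf : ∀ v : ℂ, fderiv ℝ (fun w => ((U w : ℝ) : ℂ)) z v = ((fderiv ℝ U z v : ℝ) : ℂ) := by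
    intro v
    have h1 : HasFDerivAt (fun w => ((U w : ℝ) : ℂ)) (ofRealCLM.comp (fderiv ℝ U z)) z :=
      ofRealCLM.hasFDerivAt.comp z hd.hasFDerivAt
    rw [h1.fderiv]
    rfl
  have e1 : dz (fun w => ((U w : ℝ) : ℂ)) z = 1 / 2 * ((d1 U z : ℂ) - I * (d2 U z : ℂ)) := by
    unfold dz d1 d2
    rw [hf, hf]
  have e2 : D σ 0 (fun w => ((U w : ℝ) : ℂ)) z
      = ex σ (-1) z * ((d1 U z : ℂ) - I * (d2 U z : ℂ)) := by
    rw [D_eq hσ 0 (cd_at hUc z), e1]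
    push_cast
    ring
  have e3 : ‖((d1 U z : ℂ) - I * (d2 U z : ℂ))‖ ^ 2 = d1 U z ^ 2 + d2 U z ^ 2 := by
    rw [← Complex.normSq_eq_norm_sq, Complex.normSq_apply]
    simp
    ring
  rw [e2, norm_mul, mul_pow, e3, norm_ex, ← mul_assoc, ← Real.exp_nat_mul, ← Real.exp_add]
  have e4 : 2 * σ z + ((2 : ℕ) : ℝ) * (((-1 : ℤ) : ℝ) * σ z) = 0 := by push_cast; ring
  rw [e4, Real.exp_zero, one_mul]

lemma hD_UU (hJetC : StmtJetC) (L : LocB V σ h φ) : ∃ R, Dom V h φ 2 R ∧ ∀ n, ∀ z ∈ V,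
    (h n : ℂ) * D σ 0 (fun w => ((UU σ h φ n w : ℝ) : ℂ)) z
      = 1 / 2 * SS σ h φ n z + (h n : ℂ) ^ 2 * R n z := by
  obtain ⟨d0, ⟨A0, hA0, j0⟩, -⟩ := hJetC V σ h φ L 0
  obtain ⟨d1, ⟨A1, hA1, j1⟩, -⟩ := hJetC V σ h φ L 1
  obtain ⟨dm, ⟨A2, hA2, j2⟩, -⟩ := hJetC V σ h φ L (-1)
  have hσ := L.sm
  refine ⟨_, ((((d0.mul L.op hA0).smul L.op 2).sub L.op (hA1.mul L.op dm)).sub L.op
    (d1.mul L.op hA2)).smul L.op (1 / 2), fun n z hz => ?_⟩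
  have s0 := d0.smooth n
  have s1 := d1.smooth n
  have sm := dm.smooth n
  have e0 : (fun w => ((UU σ h φ n w : ℝ) : ℂ)) = fun w => (1 / 2 : ℂ) *
      (E σ h φ 0 n w * E σ h φ 0 n w - E σ h φ 1 n w * E σ h φ (-1) n w) := by
    funext w; exact UU_eq L n w
  have p0 : DifferentiableAt ℝ (fun w => E σ h φ 0 n w * E σ h φ 0 n w) z :=
    (cd_at s0 z).fun_mul (cd_at s0 z)
  have p1 : DifferentiableAt ℝ (fun w => E σ h φ 1 n w * E σ h φ (-1) n w) z :=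
    (cd_at s1 z).fun_mul (cd_at sm z)
  have m0 := D_mul hσ 0 0 (cd_at s0 z) (cd_at s0 z)
  have m1 := D_mul hσ 1 (-1) (cd_at s1 z) (cd_at sm z)
  rw [add_zero] at m0
  rw [show (1 : ℤ) + (-1) = 0 by norm_num] at m1
  have k0 := j0 n z hz
  have k1 := j1 n z hz
  have k2 := j2 n z hz
  rw [show (0 : ℤ) + 1 = 1 by norm_num] at k0
  rw [show (1 : ℤ) + 1 = 2 by norm_num] at k1
  rw [show (-1 : ℤ) + 1 = 0 by norm_num] at k2
  rw [e0, D_const_mul hσ 0 _ (p0.fun_sub p1), D_sub hσ 0 p0 p1, m0, m1]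
  unfold SS
  linear_combination E σ h φ 0 n z * k0 - 1 / 2 * E σ h φ (-1) n z * k1
    - 1 / 2 * E σ h φ 1 n z * k2

lemma grad_small (hIntA : StmtIntA) (hJetC : StmtJetC) (hHcl : StmtHcl) (L : LocB V σ h φ)
    (G : GrowA V h φ) {K : Set ℂ} (hK : IsCompact K) (hKV : K ⊆ V) :
    Tendsto (fun n => h n * ∫ z in K,
      h n ^ 2 * (d1 (UU σ h φ n) z ^ 2 + d2 (UU σ h φ n) z ^ 2)) atTop (𝓝 0) := by
  obtain ⟨R, hR, hE⟩ := hD_UU hJetC L
  have hσ := L.sm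
  have t1 := (hIntA V h φ _ L.hpos L.hlim L.smφ G hR.smooth).2.1 hR.bq K hK hKV
  have t2 : Tendsto (fun n => h n ^ 3 * ∫ z in K, ‖(h n : ℂ) * R n z‖ ^ 2) atTop (𝓝 0) := by
    have := (L.hlim.pow 3).mul t1
    simpa using this
  have t3 := SS_small hJetC hHcl L hK hKV
  obtain ⟨M, hM⟩ := hK.exists_bound_of_continuousOn
    (f := fun z => Real.exp (2 * σ z)) (by
      have := hσ.continuous
      fun_prop)
  have t4 := (t3.add t2).const_mul (2 * M)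
  rw [add_zero, mul_zero] at t4
  have hM0 : ∀ z ∈ K, Real.exp (2 * σ z) ≤ M := fun z hz =>
    (le_abs_self _).trans (hM z hz)
  have hc : ∀ n, Continuous fun z => h n ^ 2 * (d1 (UU σ h φ n) z ^ 2 + d2 (UU σ h φ n) z ^ 2) := by
    intro n
    have hU := UU_smooth hJetC L n
    have e : (fun z => h n ^ 2 * (d1 (UU σ h φ n) z ^ 2 + d2 (UU σ h φ n) z ^ 2))
        = fun z => h n ^ 2 * (Real.exp (2 * σ z) *
          ‖D σ 0 (fun w => ((UU σ h φ n w : ℝ) : ℂ)) z‖ ^ 2) := by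
      funext z; rw [grad_eq hU hσ z]
    rw [e]
    have hD := (contDiff_D hσ 0 (f := fun w => ((UU σ h φ n w : ℝ) : ℂ))
      (ofRealCLM.contDiff.comp hU)).continuous
    have hs := hσ.continuous
    fun_prop
  refine squeeze_zero (fun n => mul_nonneg (L.hpos n).le (integral_nonneg fun z => by positivity))
    (fun n => ?_) t4
  have i1 : IntegrableOn (fun z => ‖SS σ h φ n z‖ ^ 2) K :=
    int_on hK ((SS_cont hJetC L n).norm.pow 2)
  have i2 := int_on hK (F := fun z => h n ^ 2 * ‖(h n : ℂ) * R n z‖ ^ 2)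
    (continuous_const.mul ((continuous_const.mul (hR.smooth n).continuous).norm.pow 2))
  have h2 : ∫ z in K, h n ^ 2 * (d1 (UU σ h φ n) z ^ 2 + d2 (UU σ h φ n) z ^ 2)
      ≤ ∫ z in K, 2 * M * (‖SS σ h φ n z‖ ^ 2 + h n ^ 2 * ‖(h n : ℂ) * R n z‖ ^ 2) := by
    refine setIntegral_mono_on (int_on hK (hc n)) ((i1.add i2).const_mul _)
      hK.measurableSet fun z hz => ?_
    rw [grad_eq (UU_smooth hJetC L n) hσ z]
    have a1 := hE n z (hKV hz)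
    have a2 : h n ^ 2 * (Real.exp (2 * σ z) * ‖D σ 0 (fun w => ((UU σ h φ n w : ℝ) : ℂ)) z‖ ^ 2)
        = Real.exp (2 * σ z) *
          ‖(h n : ℂ) * D σ 0 (fun w => ((UU σ h φ n w : ℝ) : ℂ)) z‖ ^ 2 := by
      rw [norm_mul, Complex.norm_real, Real.norm_of_nonneg (L.hpos n).le]
      ring
    rw [a2, a1]
    have a3 : ‖1 / 2 * SS σ h φ n z + (h n : ℂ) ^ 2 * R n z‖
        ≤ 1 / 2 * ‖SS σ h φ n z‖ + h n * ‖(h n : ℂ) * R n z‖ := by
      refine (norm_add_le _ _).trans (le_of_eq ?_)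
      rw [norm_mul, norm_mul, norm_mul, norm_pow, Complex.norm_real,
        Real.norm_of_nonneg (L.hpos n).le]
      norm_num
      ring
    have a4 : ‖1 / 2 * SS σ h φ n z + (h n : ℂ) ^ 2 * R n z‖ ^ 2
        ≤ 2 * (‖SS σ h φ n z‖ ^ 2 + h n ^ 2 * ‖(h n : ℂ) * R n z‖ ^ 2) := by
      calc _ ≤ (1 / 2 * ‖SS σ h φ n z‖ + h n * ‖(h n : ℂ) * R n z‖) ^ 2 := by gcongr
        _ ≤ _ := by
          nlinarith [sq_nonneg (1 / 2 * ‖SS σ h φ n z‖ - h n * ‖(h n : ℂ) * R n z‖),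
            sq_nonneg ‖SS σ h φ n z‖, sq_nonneg (h n * ‖(h n : ℂ) * R n z‖)]
    have a5 := hM0 z hz
    have a6 : 0 ≤ ‖SS σ h φ n z‖ ^ 2 + h n ^ 2 * ‖(h n : ℂ) * R n z‖ ^ 2 := by positivity
    calc Real.exp (2 * σ z) * ‖1 / 2 * SS σ h φ n z + (h n : ℂ) ^ 2 * R n z‖ ^ 2
        ≤ M * (2 * (‖SS σ h φ n z‖ ^ 2 + h n ^ 2 * ‖(h n : ℂ) * R n z‖ ^ 2)) := by
          gcongr
          exact (Real.exp_pos _).le.trans a5
      _ = _ := by ring
  have h3 : ∫ z in K, 2 * M * (‖SS σ h φ n z‖ ^ 2 + h n ^ 2 * ‖(h n : ℂ) * R n z‖ ^ 2)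
      = 2 * M * ((∫ z in K, ‖SS σ h φ n z‖ ^ 2)
          + h n ^ 2 * ∫ z in K, ‖(h n : ℂ) * R n z‖ ^ 2) := by
    rw [integral_const_mul, integral_add i1 i2, integral_const_mul]
  rw [h3] at h2
  calc h n * ∫ z in K, h n ^ 2 * (d1 (UU σ h φ n) z ^ 2 + d2 (UU σ h φ n) z ^ 2)
      ≤ h n * (2 * M * ((∫ z in K, ‖SS σ h φ n z‖ ^ 2)
          + h n ^ 2 * ∫ z in K, ‖(h n : ℂ) * R n z‖ ^ 2)) :=
        mul_le_mul_of_nonneg_left h2 (L.hpos n).le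
    _ = 2 * M * (h n * (∫ z in K, ‖SS σ h φ n z‖ ^ 2)
          + h n ^ 3 * ∫ z in K, ‖(h n : ℂ) * R n z‖ ^ 2) := by ring

lemma UU_small (hIntA : StmtIntA) (hJetC : StmtJetC) (hHcl : StmtHcl) (hPoi : StmtPoi)
    (L : LocB V σ h φ) (G : GrowA V h φ) {K : Set ℂ} (hK : IsCompact K) (hKV : K ⊆ V) :
    Tendsto (fun n => h n * ∫ z in K, UU σ h φ n z ^ 2) atTop (𝓝 0) := by
  refine hPoi V h (UU σ h φ) L.op L.hpos L.hlim (UU_smooth hJetC L) UU_nonneg ?_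
    (fun K hK hKV => grad_small hIntA hJetC hHcl L G hK hKV) K hK hKV
  have d0 := (hJetC V σ h φ L 0).1
  have d1 := (hJetC V σ h φ L 1).1
  have dm := (hJetC V σ h φ L (-1)).1
  have dU : Dom V h φ 2 (fun n z => ((UU σ h φ n z : ℝ) : ℂ)) :=
    (((d0.mul L.op d0).sub L.op (d1.mul L.op dm)).smul L.op (1 / 2)).congr L.op
      (fun n => ofRealCLM.contDiff.comp (UU_smooth hJetC L n)) fun n z _ => (UU_eq L n z).symm
  have h1 := (hIntA V h φ _ L.hpos L.hlim L.smφ G dU.smooth).1 dU.bq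
  intro K hK hKV
  obtain ⟨C, hC⟩ := h1 K hK hKV
  refine ⟨C, ?_⟩
  filter_upwards [hC] with n hn z hz s hs
  refine le_trans (le_of_eq ?_) (hn z hz s hs)
  refine integral_congr_ae (Filter.Eventually.of_forall fun w => ?_)
  show UU σ h φ n w = ‖((UU σ h φ n w : ℝ) : ℂ)‖
  rw [Complex.norm_real, Real.norm_of_nonneg (UU_nonneg n w)]

lemma zero_small (hIntA : StmtIntA) (hJetC : StmtJetC) (hHcl : StmtHcl) (hPoi : StmtPoi)
    (L : LocB V σ h φ) (G : GrowA V h φ) {ζ : ℂ → ℂ} (hζ : Test V ζ) :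
    Tendsto (fun n => (h n : ℂ) * E4 σ h φ ζ 0 0 0 0 n) atTop (𝓝 0) := by
  obtain ⟨M, hM⟩ := IBP.norm_int_le hζ
  have hK : IsCompact (tsupport ζ) := hζ.supp
  have t1 := (UU_small hIntA hJetC hHcl hPoi L G hK hζ.sub).const_mul (|M| * 4)
  rw [mul_zero] at t1
  refine squeeze_zero_norm (fun n => ?_) t1
  have c4 : Continuous fun z => E σ h φ 0 n z * E σ h φ 0 n z * E σ h φ 0 n z * E σ h φ 0 n z :=
    (((cE hJetC L 0 n).mul (cE hJetC L 0 n)).mul (cE hJetC L 0 n)).mul (cE hJetC L 0 n)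
  have h1 := hM _ c4
  have cU := (UU_smooth hJetC L n).continuous
  have h2 : ∫ z in tsupport ζ, ‖E σ h φ 0 n z * E σ h φ 0 n z * E σ h φ 0 n z * E σ h φ 0 n z‖
      ≤ ∫ z in tsupport ζ, 4 * UU σ h φ n z ^ 2 := by
    refine setIntegral_mono (int_on hK c4.norm) ((int_on hK (cU.pow 2)).const_mul 4) fun z => ?_
    show ‖E σ h φ 0 n z * E σ h φ 0 n z * E σ h φ 0 n z * E σ h φ 0 n z‖ ≤ 4 * UU σ h φ n z ^ 2
    rw [norm_mul, norm_mul, norm_mul]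
    unfold UU
    nlinarith [sq_nonneg ‖E σ h φ 0 n z‖, sq_nonneg ‖E σ h φ 1 n z‖,
      mul_nonneg (sq_nonneg ‖E σ h φ 0 n z‖) (sq_nonneg ‖E σ h φ 1 n z‖)]
  rw [integral_const_mul] at h2
  have h3 : 0 ≤ ∫ z in tsupport ζ, ‖E σ h φ 0 n z * E σ h φ 0 n z * E σ h φ 0 n z *
      E σ h φ 0 n z‖ := integral_nonneg fun z => norm_nonneg _
  rw [norm_mul, Complex.norm_real, Real.norm_of_nonneg (L.hpos n).le]
  unfold E4
  calc h n * ‖∫ z, ζ z * (E σ h φ 0 n z * E σ h φ 0 n z * E σ h φ 0 n z * E σ h φ 0 n z)‖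
      ≤ h n * (|M| * (4 * ∫ z in tsupport ζ, UU σ h φ n z ^ 2)) := by
        refine mul_le_mul_of_nonneg_left (h1.trans ?_) (L.hpos n).le
        exact (mul_le_mul_of_nonneg_right (le_abs_self M) h3).trans
          (mul_le_mul_of_nonneg_left h2 (abs_nonneg M))
    _ = |M| * 4 * (h n * ∫ z in tsupport ζ, UU σ h φ n z ^ 2) := by ring

lemma all_small (hIntA : StmtIntA) (hJetC : StmtJetC) (hHcl : StmtHcl) (hPoi : StmtPoi)
    (L : LocB V σ h φ) (G : GrowA V h φ) {ζ : ℂ → ℂ} (hζ : Test V ζ) {a b c d : ℤ}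
    (hs : a + b + c + d = 0) : Tendsto (fun n => (h n : ℂ) * E4 σ h φ ζ a b c d n) atTop (𝓝 0) := by
  have t1 := hHcl V σ h φ L ζ hζ a b c d hs
  have t2 := (zero_small hIntA hJetC hHcl hPoi L G hζ).const_mul (cl4 a b c d)
  rw [mul_zero] at t2
  have t3 := t1.add t2
  rw [add_zero] at t3
  refine t3.congr fun n => ?_
  ring

lemma Q4_E (hIntA : StmtIntA) (hJetC : StmtJetC) (hHcl : StmtHcl) (hPoi : StmtPoi)
    (L : LocB V σ h φ) (G : GrowA V h φ) (j : ℤ) : Q4 V h (E σ h φ j) := by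
  intro K hK hKV
  obtain ⟨ζ, hζ, hr, h0, h1⟩ := cut L.op hK hKV
  have t1 := (all_small hIntA hJetC hHcl hPoi L G hζ (a := j) (b := j) (c := -j) (d := -j)
    (by ring)).norm
  rw [norm_zero] at t1
  refine squeeze_zero (fun n => mul_nonneg (L.hpos n).le (integral_nonneg fun z => by positivity))
    (fun n => ?_) t1
  rw [norm_mul, Complex.norm_real, Real.norm_of_nonneg (L.hpos n).le]
  refine mul_le_mul_of_nonneg_left ?_ (L.hpos n).le
  have h2 := le_int (F := fun z => ‖E σ h φ j n z‖ ^ 4) hζ hr h0 hK h1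
    ((cE hJetC L j n).norm.pow 4) fun z => by positivity
  refine h2.trans (le_of_eq ?_)
  unfold E4
  congr 1
  refine integral_congr_ae (Filter.Eventually.of_forall fun z => ?_)
  show ζ z * ((‖E σ h φ j n z‖ ^ 4 : ℝ) : ℂ) = ζ z * (E σ h φ j n z * E σ h φ j n z *
    E σ h φ (-j) n z * E σ h φ (-j) n z)
  congr 1
  have e1 : ((‖E σ h φ j n z‖ ^ 4 : ℝ) : ℂ) = ((‖E σ h φ j n z‖ : ℂ) ^ 2) ^ 2 := by
    push_cast; ring
  have e2 : ((-1 : ℂ) ^ j) * ((-1 : ℂ) ^ j) = 1 := by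
    rw [← mul_zpow]; norm_num
  rw [e1, ← Complex.mul_conj', conj_E L]
  linear_combination (E σ h φ j n z * E σ h φ j n z *
    E σ h φ (-j) n z * E σ h φ (-j) n z) * e2

lemma Q4_W (hIntA : StmtIntA) (hJetC : StmtJetC) (hJetW : StmtJetW) (hHcl : StmtHcl)
    (hPoi : StmtPoi) (L : LocB V σ h φ) (G : GrowA V h φ) (a b : ℕ) : Q4 V h (W h φ a b) := by
  obtain ⟨A, hA, hE⟩ := hJetW V σ h φ L a b
  have q1 := Q4_E hIntA hJetC hHcl hPoi L G ((a : ℤ) - b)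
  have q2 := Q4.hA hIntA L G hA
  have cA : ∀ n, Continuous fun z => (h n : ℂ) * A n z := fun n =>
    continuous_const.mul (hA.smooth n).continuous
  have cE' : ∀ n, Continuous fun z => (2 : ℂ)⁻¹ ^ (a + b) * (-1) ^ b *
      E σ h φ ((a : ℤ) - b) n z := fun n =>
    continuous_const.mul (cE hJetC L ((a : ℤ) - b) n)
  have q3 : Q4 V h (fun n z => (2 : ℂ)⁻¹ ^ (a + b) * (-1) ^ b * E σ h φ ((a : ℤ) - b) n z) := by
    refine Q4.of_le L.hpos cE' (cE hJetC L ((a : ℤ) - b))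
      (b := fun _ => ‖(2 : ℂ)⁻¹ ^ (a + b) * (-1) ^ b‖) continuous_const (fun n z _ => ?_) q1
    rw [norm_mul]
  have q4 := Q4.add L.hpos cE' cA q3 q2
  have cS : ∀ n, Continuous fun z => (2 : ℂ)⁻¹ ^ (a + b) * (-1) ^ b *
      E σ h φ ((a : ℤ) - b) n z + (h n : ℂ) * A n z := fun n => (cE' n).add (cA n)
  refine Q4.of_le L.hpos (fun n => (contDiff_W L.smφ a b n).continuous)
    cS (b := fun z => ‖ex σ (a + b) z‖)
    (contDiff_ex L.sm _).continuous.norm (fun n z hz => ?_) q4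
  rw [← hE n z hz, ← norm_mul, ← mul_assoc, ex_mul]
  have e : (a : ℤ) + b + -((a : ℤ) + b) = 0 := by ring
  rw [e, ex_zero, one_mul]

end SML

open SML in
theorem stmtSml (hGroA : StmtGroA) (hIntA : StmtIntA) (hIbpA : StmtIbpA) (hJetC : StmtJetC)
    (hJetW : StmtJetW) (hHcl : StmtHcl) (hPoi : StmtPoi) : StmtSml := by
  intro V σ h φ L K hK hKV N
  have _ := hIbpA
  have G := hGroA V σ h φ L
  have q := Q4_W hIntA hJetC hJetW hHcl hPoi L G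
  set s : Finset (ℕ × ℕ) := Finset.range (N + 1) ×ˢ Finset.range (N + 1) with hs
  have hRR : ∀ n z, RR h φ N n z = 1 + ∑ i ∈ s, ‖W h φ i.1 i.2 n z‖ ^ 2 := by
    intro n z
    unfold RR
    rw [hs, Finset.sum_product]
  have t1 : Tendsto (fun n => h n * ∫ _ in K, (1 : ℝ)) atTop (𝓝 0) := by
    have := L.hlim.mul_const (∫ _ in K, (1 : ℝ))
    simpa using this
  have t2 : Tendsto (fun n => ∑ i ∈ s, h n * ∫ z in K, ‖W h φ i.1 i.2 n z‖ ^ 4) atTop (𝓝 0) := by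
    have := tendsto_finsetSum s fun i _ => q i.1 i.2 K hK hKV
    simpa using this
  have t3 := (t1.add (t2.const_mul (s.card : ℝ))).const_mul 2
  rw [mul_zero, add_zero, mul_zero] at t3
  refine squeeze_zero (fun n => mul_nonneg (L.hpos n).le (integral_nonneg fun z => by positivity))
    (fun n => ?_) t3
  have cW : ∀ i : ℕ × ℕ, Continuous fun z => ‖W h φ i.1 i.2 n z‖ ^ 4 := fun i =>
    (contDiff_W L.smφ i.1 i.2 n).continuous.norm.pow 4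
  have i1 : IntegrableOn (fun _ : ℂ => (1 : ℝ)) K := int_on hK continuous_const
  have i2 : ∀ i ∈ s, IntegrableOn (fun z => ‖W h φ i.1 i.2 n z‖ ^ 4) K := fun i _ =>
    int_on hK (cW i)
  have i3 : IntegrableOn (fun z => ∑ i ∈ s, ‖W h φ i.1 i.2 n z‖ ^ 4) K :=
    integrable_finsetSum s i2
  have h2 : ∫ z in K, RR h φ N n z ^ 2
      ≤ ∫ z in K, 2 * (1 + (s.card : ℝ) * ∑ i ∈ s, ‖W h φ i.1 i.2 n z‖ ^ 4) := by
    refine setIntegral_mono (int_on hK ((continuous_RR L.smφ N n).pow 2))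
      ((i1.add (i3.const_mul _)).const_mul 2) fun z => ?_
    show RR h φ N n z ^ 2 ≤ 2 * (1 + (s.card : ℝ) * ∑ i ∈ s, ‖W h φ i.1 i.2 n z‖ ^ 4)
    rw [hRR]
    have h3 := sq_sum_le_card_mul_sum_sq (s := s) (f := fun i => ‖W h φ i.1 i.2 n z‖ ^ 2)
    have h4 : ∑ i ∈ s, (‖W h φ i.1 i.2 n z‖ ^ 2) ^ 2 = ∑ i ∈ s, ‖W h φ i.1 i.2 n z‖ ^ 4 :=
      Finset.sum_congr rfl fun i _ => by ring
    rw [h4] at h3
    nlinarith [sq_nonneg (1 - ∑ i ∈ s, ‖W h φ i.1 i.2 n z‖ ^ 2)]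
  rw [integral_const_mul, integral_add i1 (i3.const_mul _), integral_const_mul,
    integral_finsetSum s i2] at h2
  calc h n * ∫ z in K, RR h φ N n z ^ 2
      ≤ h n * (2 * ((∫ _ in K, (1 : ℝ)) + (s.card : ℝ) *
          ∑ i ∈ s, ∫ z in K, ‖W h φ i.1 i.2 n z‖ ^ 4)) :=
        mul_le_mul_of_nonneg_left h2 (L.hpos n).le
    _ = 2 * (h n * (∫ _ in K, (1 : ℝ)) + (s.card : ℝ) *
          ∑ i ∈ s, h n * ∫ z in K, ‖W h φ i.1 i.2 n z‖ ^ 4) := by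
        rw [← Finset.mul_sum]; ring

end

end U3
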