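import Pool.Agent.U3.Stmts
import Pool.Agent.QJ.Ops
import Pool.Agent.QJ.Dom

/-!
TRID: the differences of the products of jets and of the mollified moments are null triples.
-/

open Complex MeasureTheory Filter Topology Set
open scoped ContDiff

namespace U3

open QE QJ

namespace TRID

variable {V : Set ℂ}

theorem intOn {u : ℂ → ℂ} (cu : Continuous u) {K : Set ℂ} (hK : IsCompact K) (p : ℕ) :
    IntegrableOn (fun z => ‖u z‖ ^ p) K :=
  (cu.norm.pow p).continuousOn.integrableOn_compact hK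

theorem l2z_sub {u v : ℕ → ℂ → ℂ} (hu : L2z V u) (cu : ∀ n, Continuous (u n)) (hv : L2z V v)
    (cv : ∀ n, Continuous (v n)) : L2z V (fun n z => u n z - v n z) := by
  intro K hK hKV
  have h1 := ((hu K hK hKV).const_mul 2).add ((hv K hK hKV).const_mul 2)
  rw [mul_zero, add_zero] at h1
  refine squeeze_zero (fun n => integral_nonneg fun z => by positivity) (fun n => ?_) h1
  rw [← integral_const_mul, ← integral_const_mul, ← integral_add
    ((intOn (cu n) hK 2).const_mul _) ((intOn (cv n) hK 2).const_mul _)]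
  refine setIntegral_mono_on (intOn ((cu n).sub (cv n)) hK 2)
    (((intOn (cu n) hK 2).const_mul _).add ((intOn (cv n) hK 2).const_mul _))
    hK.measurableSet fun z _ => ?_
  have a3 : ‖u n z - v n z‖ ^ 2 ≤ (‖u n z‖ + ‖v n z‖) ^ 2 := by gcongr; exact norm_sub_le _ _
  change ‖u n z - v n z‖ ^ 2 ≤ 2 * ‖u n z‖ ^ 2 + 2 * ‖v n z‖ ^ 2
  nlinarith [sq_nonneg (‖u n z‖ - ‖v n z‖)]

theorem l2z_congr {u v : ℕ → ℂ → ℂ} (hu : L2z V u) (he : ∀ n z, v n z = u n z) : L2z V v := by
  have h1 : v = u := by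
    funext n z
    exact he n z
  rw [h1]
  exact hu

theorem lg_sub {u v : ℕ → ℂ → ℂ} (hu : LG V u) (cu : ∀ n, Continuous (u n)) (hv : LG V v)
    (cv : ∀ n, Continuous (v n)) : LG V (fun n z => u n z - v n z) := by
  intro K hK hKV
  obtain ⟨C1, h1⟩ := hu K hK hKV
  obtain ⟨C2, h2⟩ := hv K hK hKV
  refine ⟨C1 + C2, ?_⟩
  filter_upwards [h1, h2] with n h1 h2 z hz s hs
  have hc : IsCompact (K ∩ Metric.closedBall z s) := hK.inter_right Metric.isClosed_closedBall
  have i1 : IntegrableOn (fun w => ‖u n w‖) (K ∩ Metric.closedBall z s) :=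
    (cu n).norm.continuousOn.integrableOn_compact hc
  have i2 : IntegrableOn (fun w => ‖v n w‖) (K ∩ Metric.closedBall z s) :=
    (cv n).norm.continuousOn.integrableOn_compact hc
  have i3 : IntegrableOn (fun w => ‖u n w - v n w‖) (K ∩ Metric.closedBall z s) :=
    ((cu n).sub (cv n)).norm.continuousOn.integrableOn_compact hc
  have h3 : ∫ w in K ∩ Metric.closedBall z s, ‖u n w - v n w‖
      ≤ ∫ w in K ∩ Metric.closedBall z s, (‖u n w‖ + ‖v n w‖) :=
    setIntegral_mono_on i3 (i1.add i2) hc.measurableSet fun w _ => norm_sub_le _ _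
  rw [integral_add i1 i2] at h3
  have h4 := h1 z hz s hs
  have h5 := h2 z hz s hs
  calc ∫ w in K ∩ Metric.closedBall z s, ‖u n w - v n w‖
      ≤ (∫ w in K ∩ Metric.closedBall z s, ‖u n w‖)
        + ∫ w in K ∩ Metric.closedBall z s, ‖v n w‖ := h3
    _ ≤ C1 * s + C2 * s := add_le_add h4 h5
    _ = (C1 + C2) * s := by ring

theorem wz_sub (hV : IsOpen V) {F G : ℕ → ℂ → ℂ} {c : ℂ} {l : (ℂ → ℂ) → ℂ}
    (cF : ∀ n, Continuous (F n)) (cG : ∀ n, Continuous (fun z => c * G n z))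
    (h1 : ∀ ζ, Test V ζ → Tendsto (fun n => ∫ z, ζ z * F n z) atTop (𝓝 (c * l ζ)))
    (h2 : ∀ ζ, Test V ζ → Tendsto (fun n => ∫ z, ζ z * G n z) atTop (𝓝 (l ζ))) :
    WZ V (fun n z => F n z - c * G n z) := by
  intro ζ hζ
  have h3 := (h1 ζ hζ).sub ((h2 ζ hζ).const_mul c)
  rw [sub_self] at h3
  refine h3.congr fun n => ?_
  have i1 : Integrable (fun z => ζ z * F n z) := hζ.integrable_mul hV (cF n).continuousOn
  have i2 : Integrable (fun z => ζ z * (c * G n z)) := hζ.integrable_mul hV (cG n).continuousOn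
  have e1 : c * ∫ z, ζ z * G n z = ∫ z, ζ z * (c * G n z) := by
    rw [← integral_const_mul]
    refine integral_congr_ae (Filter.Eventually.of_forall fun z => ?_)
    change c * (ζ z * G n z) = ζ z * (c * G n z)
    ring
  rw [e1, ← integral_sub i1 i2]
  refine integral_congr_ae (Filter.Eventually.of_forall fun z => ?_)
  change ζ z * F n z - ζ z * (c * G n z) = ζ z * (F n z - c * G n z)
  ring

theorem tripB_sub {σ : ℂ → ℝ} (hσ : ContDiff ℝ ∞ σ) {N : ℤ} {A B C A' B' C' : ℕ → ℂ → ℂ}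
    (h1 : TripB V σ N A B C) (h2 : TripB V σ N A' B' C') :
    TripB V σ N (fun n z => A n z - A' n z) (fun n z => B n z - B' n z)
      (fun n z => C n z - C' n z) where
  sA := fun n => (h1.sA n).sub (h2.sA n)
  sB := fun n => (h1.sB n).sub (h2.sB n)
  sC := fun n => (h1.sC n).sub (h2.sC n)
  gA := lg_sub h1.gA (fun n => (h1.sA n).continuous) h2.gA (fun n => (h2.sA n).continuous)
  gB := lg_sub h1.gB (fun n => (h1.sB n).continuous) h2.gB (fun n => (h2.sB n).continuous)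
  gC := lg_sub h1.gC (fun n => (h1.sC n).continuous) h2.gC (fun n => (h2.sC n).continuous)
  eA := by
    refine l2z_congr (l2z_sub h1.eA (fun n => ((contDiff_Db hσ _ (h1.sA n)).add
      (contDiff_D hσ _ (h1.sB n))).continuous) h2.eA (fun n => ((contDiff_Db hσ _ (h2.sA n)).add
      (contDiff_D hσ _ (h2.sB n))).continuous)) fun n z => ?_
    change Db σ (N + 2) (fun w => A n w - A' n w) z + D σ N (fun w => B n w - B' n w) z
      = Db σ (N + 2) (A n) z + D σ N (B n) z - (Db σ (N + 2) (A' n) z + D σ N (B' n) z)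
    rw [Db_sub hσ _ (cd_at (h1.sA n) z) (cd_at (h2.sA n) z),
      D_sub hσ _ (cd_at (h1.sB n) z) (cd_at (h2.sB n) z)]
    ring
  eC := by
    refine l2z_congr (l2z_sub h1.eC (fun n => ((contDiff_D hσ _ (h1.sC n)).add
      (contDiff_Db hσ _ (h1.sB n))).continuous) h2.eC (fun n => ((contDiff_D hσ _ (h2.sC n)).add
      (contDiff_Db hσ _ (h2.sB n))).continuous)) fun n z => ?_
    change D σ (N - 2) (fun w => C n w - C' n w) z + Db σ N (fun w => B n w - B' n w) z
      = D σ (N - 2) (C n) z + Db σ N (B n) z - (D σ (N - 2) (C' n) z + Db σ N (B' n) z)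
    rw [D_sub hσ _ (cd_at (h1.sC n) z) (cd_at (h2.sC n) z),
      Db_sub hσ _ (cd_at (h1.sB n) z) (cd_at (h2.sB n) z)]
    ring

end TRID

open TRID in
theorem stmtTriD (hDir : StmtDir) (hTriQ : StmtTriQ) (hTriP : StmtTriP) (hPeW : StmtPeW) :
    StmtTriD := by
  intro β V σ h φ Ω _ μ p u ε j m hβ hL hM hε hε0
  have hD : DirM V σ μ p u := hDir V σ h φ Ω μ p u hL hM
  have hV : IsOpen V := hL.op
  have hσ : ContDiff ℝ ∞ σ := hL.sm
  have T1 := hTriQ V σ h φ hL j m
  have T2 := hTriP β V σ Ω μ p u ε j m hβ hV hσ hD hε hε0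
  have T := tripB_sub hσ T1 T2
  have hw : ∀ k : ℤ, ∀ ζ, Test V ζ → Tendsto (fun n => ∫ z, ζ z * pe β σ (ε n) μ p u k z) atTop
      (𝓝 (∫ o, ζ (p o) * u o ^ k ∂μ)) := fun k ζ hζ =>
    hPeW β V σ Ω μ p u ε k hβ hσ hD hε hε0 ζ hζ.smooth.continuous hζ.supp
  refine ⟨T, ?_, ?_, ?_⟩
  · refine wz_sub (l := fun ζ => ∫ o, ζ (p o) * u o ^ (j + m + 2) ∂μ) hV
      (fun n => (T1.sA n).continuous) (fun n => (T2.sA n).continuous) (fun ζ hζ => ?_)
      (hw (j + m + 2))
    have h1 := hM.lim (j + 1) (m + 1) ζ hζ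
    have e : j + 1 + (m + 1) = j + m + 2 := by ring
    rw [e] at h1
    exact h1
  · exact wz_sub (l := fun ζ => ∫ o, ζ (p o) * u o ^ (j + m) ∂μ) hV
      (fun n => (T1.sB n).continuous) (fun n => (T2.sB n).continuous)
      (fun ζ hζ => hM.lim j m ζ hζ) (hw (j + m))
  · refine wz_sub (l := fun ζ => ∫ o, ζ (p o) * u o ^ (j + m - 2) ∂μ) hV
      (fun n => (T1.sC n).continuous) (fun n => (T2.sC n).continuous) (fun ζ hζ => ?_)
      (hw (j + m - 2))
    have h1 := hM.lim (j - 1) (m - 1) ζ hζ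
    have e : j - 1 + (m - 1) = j + m - 2 := by ring
    rw [e] at h1
    exact h1

end U3
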