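import Pool.Agent.U3.Stmts
import Pool.Agent.QJ.Ops
import Pool.Agent.QJ.Dom

/-!
TRIP: the triples of mollified moments.
-/

open Complex MeasureTheory Filter Topology Set
open scoped ContDiff

namespace U3

open QE QJ

noncomputable section

namespace TRIP

lemma norm_sgn (m : ℤ) (x : ℂ) : ‖(-1 : ℂ) ^ m * x‖ = ‖x‖ := by
  rw [norm_mul, norm_zpow, norm_neg, norm_one, one_zpow, one_mul]

lemma lg_sgn {V : Set ℂ} {u : ℕ → ℂ → ℂ} (hu : LG V u) (m : ℤ) :
    LG V (fun n z => (-1 : ℂ) ^ m * u n z) := by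
  intro K hK hKV
  obtain ⟨C, hC⟩ := hu K hK hKV
  refine ⟨C, ?_⟩
  filter_upwards [hC] with n hn z hz s hs
  simp only [norm_sgn]
  exact hn z hz s hs

lemma l2z_congr {V : Set ℂ} {u v : ℕ → ℂ → ℂ} (hu : L2z V u) (h : ∀ n z, ‖v n z‖ = ‖u n z‖) :
    L2z V v := by
  intro K hK hKV
  refine (hu K hK hKV).congr fun n => ?_
  simp only [h]

lemma sgn_succ (m : ℤ) : (-1 : ℂ) ^ (m + 1) = - (-1 : ℂ) ^ m := by
  rw [zpow_add₀ (by norm_num : (-1 : ℂ) ≠ 0), zpow_one]; ring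

lemma sgn_pred (m : ℤ) : (-1 : ℂ) ^ (m - 1) = - (-1 : ℂ) ^ m := by
  have h := sgn_succ (m - 1)
  rw [sub_add_cancel] at h
  rw [h, neg_neg]

end TRIP

open TRIP in
/-- the triples of mollified moments -/
theorem stmtTriP (hPeS : StmtPeS) (hPeG : StmtPeG) (hPeT : StmtPeT) : StmtTriP := by
  intro β V σ Ω _ μ p u ε j m hβ hV hσ hD hε hlim
  have S : ∀ (k : ℤ) (n : ℕ), ContDiff ℝ ∞ (pe β σ (ε n) μ p u k) := fun k n =>
    (hPeS β V σ Ω μ p u hβ hσ hD (ε n) (hε n) k).1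
  have G : ∀ k : ℤ, LG V (fun n => pe β σ (ε n) μ p u k) := fun k =>
    hPeG β V σ Ω μ p u ε k hβ hV hσ hD hε hlim
  refine
    { sA := fun n => contDiff_const.mul (S (j + m + 2) n)
      sB := fun n => contDiff_const.mul (S (j + m) n)
      sC := fun n => contDiff_const.mul (S (j + m - 2) n)
      gA := lg_sgn (G (j + m + 2)) (m + 1)
      gB := lg_sgn (G (j + m)) m
      gC := lg_sgn (G (j + m - 2)) (m - 1)
      eA := ?_
      eC := ?_ }
  · have h1 := hPeT β V σ Ω μ p u ε (j + m + 1) hβ hV hσ hD hε hlim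
    have e1 : j + m + 1 + 1 = j + m + 2 := by ring
    have e2 : j + m + 1 - 1 = j + m := by ring
    rw [e1, e2] at h1
    refine l2z_congr h1 fun n z => ?_
    rw [Db_const_mul hσ (j + m + 2) _ (cd_at (S (j + m + 2) n) z),
      D_const_mul hσ (j + m) _ (cd_at (S (j + m) n) z), sgn_succ m]
    rw [← norm_sgn (m + 1) (Db σ (j + m + 2) (pe β σ (ε n) μ p u (j + m + 2)) z
      - D σ (j + m) (pe β σ (ε n) μ p u (j + m)) z), sgn_succ m]
    congr 1
    ring
  · have h1 := hPeT β V σ Ω μ p u ε (j + m - 1) hβ hV hσ hD hε hlim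
    have e1 : j + m - 1 + 1 = j + m := by ring
    have e2 : j + m - 1 - 1 = j + m - 2 := by ring
    rw [e1, e2] at h1
    refine l2z_congr h1 fun n z => ?_
    rw [D_const_mul hσ (j + m - 2) _ (cd_at (S (j + m - 2) n) z),
      Db_const_mul hσ (j + m) _ (cd_at (S (j + m) n) z), sgn_pred m]
    rw [← norm_sgn m (Db σ (j + m) (pe β σ (ε n) μ p u (j + m)) z
      - D σ (j + m - 2) (pe β σ (ε n) μ p u (j + m - 2)) z)]
    congr 1
    ring

end

end U3
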