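import Pool.Agent.U3.Stmts
import Pool.Agent.QJ.Ops
import Pool.Agent.QJ.Dom

/-!
TRIQ: products of jets form triples (no equidistribution).
-/

open Complex MeasureTheory Filter Topology Set
open scoped ContDiff

namespace U3

open QE QJ

noncomputable section

namespace TRIQ

variable {V : Set ℂ} {σ : ℂ → ℝ} {h : ℕ → ℝ} {φ : ℕ → ℂ → ℂ}

lemma l2z_congr {u v : ℕ → ℂ → ℂ} (hu : L2z V u) (he : ∀ n, ∀ z ∈ V, v n z = u n z) :
    L2z V v := by
  intro K hK hKV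
  refine (hu K hK hKV).congr fun n => ?_
  refine setIntegral_congr_fun hK.measurableSet fun z hz => ?_
  rw [he n z (hKV hz)]

/-- the error of a Leibniz rule -/
lemma err (hInt : StmtIntA) (hL : LocB V σ h φ) (hG : GrowA V h φ)
    {A1 A2 A3 A4 B1 B2 B3 B4 u : ℕ → ℂ → ℂ} (a1 : Dom V h φ 1 A1) (a2 : Dom V h φ 1 A2)
    (a3 : Dom V h φ 1 A3) (a4 : Dom V h φ 1 A4) (b1 : Dom V h φ 1 B1) (b2 : Dom V h φ 1 B2)
    (b3 : Dom V h φ 1 B3) (b4 : Dom V h φ 1 B4)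
    (hu : ∀ n, ∀ z ∈ V, (h n : ℂ) * u n z = (h n : ℂ) ^ 2 *
      (A1 n z * B1 n z + A2 n z * B2 n z + (A3 n z * B3 n z + A4 n z * B4 n z))) :
    L2z V u := by
  have hR : Dom V h φ 2 (fun n z =>
      A1 n z * B1 n z + A2 n z * B2 n z + (A3 n z * B3 n z + A4 n z * B4 n z)) :=
    Dom.add hL.op (Dom.add hL.op (Dom.mul hL.op a1 b1) (Dom.mul hL.op a2 b2))
      (Dom.add hL.op (Dom.mul hL.op a3 b3) (Dom.mul hL.op a4 b4))
  have h1 := (hInt V h φ _ hL.hpos hL.hlim hL.smφ hG hR.smooth).2.1 hR.bq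
  refine l2z_congr h1 fun n z hz => ?_
  have h2 := hu n z hz
  have h3 : (h n : ℂ) ≠ 0 := by exact_mod_cast (hL.hpos n).ne'
  have h4 : (h n : ℂ) * u n z = (h n : ℂ) * ((h n : ℂ) *
      (A1 n z * B1 n z + A2 n z * B2 n z + (A3 n z * B3 n z + A4 n z * B4 n z))) := by
    rw [h2]
    ring
  exact mul_left_cancel₀ h3 h4

end TRIQ

open TRIQ in
theorem stmtTriQ (hGroA : StmtGroA) (hIntA : StmtIntA) (hJetC : StmtJetC) : StmtTriQ := by
  intro V σ h φ hL j m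
  have hG := hGroA V σ h φ hL
  have hJ := hJetC V σ h φ hL
  have hE : ∀ j, Dom V h φ 1 (E σ h φ j) := fun j => (hJ j).1
  have hP : ∀ a b : ℤ, Dom V h φ 2 (fun n z => E σ h φ a n z * E σ h φ b n z) := fun a b =>
    Dom.mul hL.op (hE a) (hE b)
  have hLG : ∀ a b : ℤ, LG V (fun n z => E σ h φ a n z * E σ h φ b n z) := fun a b =>
    (hIntA V h φ _ hL.hpos hL.hlim hL.smφ hG (hP a b).smooth).1 (hP a b).bq
  refine ⟨(hP _ _).smooth, (hP _ _).smooth, (hP _ _).smooth, hLG _ _, hLG _ _, hLG _ _, ?_, ?_⟩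
  · -- the raised pair
    obtain ⟨A1, hA1, e1⟩ := (hJ (j + 1)).2.2
    obtain ⟨A2, hA2, e2⟩ := (hJ (m + 1)).2.2
    obtain ⟨A3, hA3, e3⟩ := (hJ j).2.1
    obtain ⟨A4, hA4, e4⟩ := (hJ m).2.1
    refine err hIntA hL hG hA1 (hE (j + 1)) hA3 (hE j) (hE (m + 1)) hA2 (hE m) hA4 ?_
    intro n z hz
    have f1 := e1 n z hz
    have f2 := e2 n z hz
    have f3 := e3 n z hz
    have f4 := e4 n z hz
    rw [add_sub_cancel_right] at f1 f2
    have k : j + m + 2 = (j + 1) + (m + 1) := by ring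
    rw [k, Db_mul hL.sm (j + 1) (m + 1) (cd_at ((hE (j + 1)).smooth n) z)
      (cd_at ((hE (m + 1)).smooth n) z),
      D_mul hL.sm j m (cd_at ((hE j).smooth n) z) (cd_at ((hE m).smooth n) z)]
    linear_combination E σ h φ (m + 1) n z * f1 + E σ h φ (j + 1) n z * f2
      + E σ h φ m n z * f3 + E σ h φ j n z * f4
  · -- the lowered pair
    obtain ⟨A1, hA1, e1⟩ := (hJ (j - 1)).2.1
    obtain ⟨A2, hA2, e2⟩ := (hJ (m - 1)).2.1
    obtain ⟨A3, hA3, e3⟩ := (hJ j).2.2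
    obtain ⟨A4, hA4, e4⟩ := (hJ m).2.2
    refine err hIntA hL hG hA1 (hE (j - 1)) hA3 (hE j) (hE (m - 1)) hA2 (hE m) hA4 ?_
    intro n z hz
    have f1 := e1 n z hz
    have f2 := e2 n z hz
    have f3 := e3 n z hz
    have f4 := e4 n z hz
    rw [sub_add_cancel] at f1 f2
    have k : j + m - 2 = (j - 1) + (m - 1) := by ring
    rw [k, D_mul hL.sm (j - 1) (m - 1) (cd_at ((hE (j - 1)).smooth n) z)
      (cd_at ((hE (m - 1)).smooth n) z),
      Db_mul hL.sm j m (cd_at ((hE j).smooth n) z) (cd_at ((hE m).smooth n) z)]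
    linear_combination E σ h φ (m - 1) n z * f1 + E σ h φ (j - 1) n z * f2
      + E σ h φ m n z * f3 + E σ h φ j n z * f4

end

end U3
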