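import Pool.Agent.U3.Stmts
import Pool.Agent.QJ.Ops
import Pool.Agent.QJ.Dom

/-!
Third order statistics of all eigenfunctions on surfaces of negative curvature: the sum of the Wick
terms of the cubic argument (module WKS).
-/

open Complex MeasureTheory Filter Topology Set
open scoped ContDiff

namespace U3

open QE QJ

namespace WKS

theorem GM_sq (M : ℕ) (z : ℂ) :
    GM M z ^ 2 = ∑ b ∈ Finset.range M ×ˢ Finset.range M, z ^ (b.1 + b.2) := by
  rw [sq, GM, Finset.sum_mul_sum, Finset.sum_product]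
  simp only [pow_add]

theorem w3_norm : ‖w3‖ = 1 := by
  have e : (2 * Real.pi * Complex.I / 3 : ℂ) = ((2 * Real.pi / 3 : ℝ) : ℂ) * Complex.I := by
    push_cast
    ring
  rw [w3, e, Complex.norm_exp_ofReal_mul_I]

theorem w3_ne : w3 ≠ 0 := by
  intro h
  have := w3_norm
  rw [h] at this
  simp at this

theorem w3_cube : w3 ^ 3 = 1 := by
  rw [w3, ← Complex.exp_nat_mul]
  have e : ((3 : ℕ) : ℂ) * (2 * Real.pi * Complex.I / 3) = 2 * Real.pi * Complex.I := by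
    push_cast
    ring
  rw [e, Complex.exp_two_pi_mul_I]

theorem GM_zero {M : ℕ} (h6 : 6 ∣ M) : GM M (-w3) = 0 := by
  have h1 : (-w3) ≠ 1 := by
    intro h
    have h2 : w3 = -1 := by rw [← h, neg_neg]
    have h3 := w3_cube
    rw [h2] at h3
    norm_num at h3
  obtain ⟨k, rfl⟩ := h6
  have h2 : (-w3) ^ (6 * k) = 1 := by
    rw [pow_mul]
    have h3 : (-w3) ^ 6 = (w3 ^ 3) ^ 2 := by ring
    rw [h3, w3_cube]
    simp
  rw [GM, geom_sum_eq h1, h2]
  simp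

/-- the expansion of the kernel -/
theorem FM_eq (M : ℕ) {t : ℂ} (ht : ‖t‖ = 1) :
    FM M t = ∑ c ∈ Finset.range M, ∑ b ∈ Finset.range M ×ˢ Finset.range M,
      ∑ b' ∈ Finset.range M ×ˢ Finset.range M,
        (w3 ^ (((b.1 : ℤ) + b.2) - (b'.1 + b'.2)) * t ^ (((b.1 : ℤ) + b.2) - (b'.1 + b'.2))
          + w3 ^ (((b.1 : ℤ) + b.2) - (b'.1 + b'.2)) *
            t ^ (((b.1 : ℤ) + b.2) + (b'.1 + b'.2) + c)) := by
  have ht0 : t ≠ 0 := by
    intro h
    rw [h] at ht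
    simp at ht
  have hw0 := w3_ne
  have hwt : ‖w3 * t‖ = 1 := by rw [norm_mul, w3_norm, ht, one_mul]
  have hc : (starRingEnd ℂ) w3 = w3⁻¹ := (Complex.inv_eq_conj w3_norm).symm
  have hc2 : (starRingEnd ℂ) (GM M (w3 * t) ^ 2)
      = ∑ b ∈ Finset.range M ×ˢ Finset.range M, ((w3 * t)⁻¹) ^ (b.1 + b.2) := by
    rw [GM_sq, map_sum]
    refine Finset.sum_congr rfl fun b _ => ?_
    rw [map_pow, Complex.inv_eq_conj hwt]
  simp only [Finset.sum_add_distrib]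
  rw [FM]
  congr 1
  · rw [Finset.sum_const, Finset.card_range, nsmul_eq_mul, hc2, GM_sq, Finset.sum_mul_sum]
    congr 1
    refine Finset.sum_congr rfl fun b _ => Finset.sum_congr rfl fun b' _ => ?_
    rw [← mul_zpow, zpow_sub₀ (mul_ne_zero hw0 ht0), inv_pow, div_eq_mul_inv]
    congr 1
  · rw [GM_sq, GM_sq, GM, Finset.sum_mul_sum, Finset.mul_sum]
    refine Finset.sum_congr rfl fun c _ => ?_
    rw [Finset.sum_mul]
    refine Finset.sum_congr rfl fun b _ => ?_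
    rw [Finset.sum_mul]
    refine Finset.sum_congr rfl fun b' _ => ?_
    rw [hc, mul_pow, mul_pow, zpow_sub₀ hw0, zpow_add₀ ht0, zpow_add₀ ht0, zpow_natCast]
    have e1 : w3 ^ ((b.1 : ℤ) + b.2) = w3 ^ (b.1 + b.2) := by
      rw [← zpow_natCast]
      push_cast
      rfl
    have e2 : w3 ^ ((b'.1 : ℤ) + b'.2) = w3 ^ (b'.1 + b'.2) := by
      rw [← zpow_natCast]
      push_cast
      rfl
    have e3 : t ^ ((b.1 : ℤ) + b.2) = t ^ (b.1 + b.2) := by
      rw [← zpow_natCast]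
      push_cast
      rfl
    have e4 : t ^ ((b'.1 : ℤ) + b'.2) = t ^ (b'.1 + b'.2) := by
      rw [← zpow_natCast]
      push_cast
      rfl
    rw [e1, e2, e3, e4, inv_pow]
    ring

end WKS

open WKS

/-- WKS -/
theorem stmtWks : StmtWks := by
  intro Ω _ μ κ U M P z hfin hκ hUm hU hP hodd h6 hM
  haveI : IsFiniteMeasure μ := ⟨lt_top_iff_ne_top.2 hfin⟩
  have hU0 : ∀ o, U o ≠ 0 := fun o h => by
    have := hU o
    rw [h] at this
    simp at this
  -- the functions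
  have hf : ∀ k : ℤ, Integrable (fun o => (κ o : ℂ) * U o ^ k) μ := by
    intro k
    refine hκ.ofReal.mul_bdd (c := 1) ?_ (Eventually.of_forall fun o => ?_)
    · exact (hUm.pow_const k).aestronglyMeasurable
    · rw [norm_zpow, hU o, one_zpow]
  have hprod : ∀ k : ℤ, Integrable (fun x : Ω × Ω => ((κ x.1 * κ x.2 : ℝ) : ℂ) *
      (U x.1 / U x.2) ^ k) (μ.prod μ) := by
    intro k
    refine ((hf k).mul_prod (hf (-k))).congr (Eventually.of_forall fun x => ?_)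
    simp only
    rw [div_zpow, zpow_neg]
    push_cast
    ring
  have hE : ∀ k : ℤ, ∫ x : Ω × Ω, ((κ x.1 * κ x.2 : ℝ) : ℂ) * (U x.1 / U x.2) ^ k ∂(μ.prod μ)
      = P k z * P (-k) z := by
    intro k
    rw [hP, hP, ← integral_prod_mul]
    congr 1
    ext x
    rw [div_zpow, zpow_neg]
    push_cast
    ring
  have hT : ∀ (w v : ℂ) (k l : ℤ), Integrable (fun x : Ω × Ω =>
      w * (((κ x.1 * κ x.2 : ℝ) : ℂ) * (U x.1 / U x.2) ^ k)
        + v * (((κ x.1 * κ x.2 : ℝ) : ℂ) * (U x.1 / U x.2) ^ l)) (μ.prod μ) :=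
    fun w v k l => ((hprod k).const_mul w).add ((hprod l).const_mul v)
  have hTi : ∀ (w v : ℂ) (k l : ℤ), ∫ x : Ω × Ω,
      (w * (((κ x.1 * κ x.2 : ℝ) : ℂ) * (U x.1 / U x.2) ^ k)
        + v * (((κ x.1 * κ x.2 : ℝ) : ℂ) * (U x.1 / U x.2) ^ l)) ∂(μ.prod μ)
      = w * (P k z * P (-k) z) + v * (P l z * P (-l) z) := by
    intro w v k l
    rw [integral_add ((hprod k).const_mul w) ((hprod l).const_mul v), integral_const_mul,
      integral_const_mul, hE, hE]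
  -- the right hand side
  have hR : ∫ x : Ω × Ω, ((κ x.1 * κ x.2 : ℝ) : ℂ) * FM M (U x.1 / U x.2) ∂(μ.prod μ)
      = ∑ c ∈ Finset.range M, ∑ b ∈ Finset.range M ×ˢ Finset.range M,
      ∑ b' ∈ Finset.range M ×ˢ Finset.range M,
        (w3 ^ (((b.1 : ℤ) + b.2) - (b'.1 + b'.2)) *
          (P (((b.1 : ℤ) + b.2) - (b'.1 + b'.2)) z * P (-(((b.1 : ℤ) + b.2) - (b'.1 + b'.2))) z)
          + w3 ^ (((b.1 : ℤ) + b.2) - (b'.1 + b'.2)) *
            (P (((b.1 : ℤ) + b.2) + (b'.1 + b'.2) + c) z *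
              P (-(((b.1 : ℤ) + b.2) + (b'.1 + b'.2) + c)) z)) := by
    have e : ∀ x : Ω × Ω, ((κ x.1 * κ x.2 : ℝ) : ℂ) * FM M (U x.1 / U x.2)
        = ∑ c ∈ Finset.range M, ∑ b ∈ Finset.range M ×ˢ Finset.range M,
          ∑ b' ∈ Finset.range M ×ˢ Finset.range M,
          (w3 ^ (((b.1 : ℤ) + b.2) - (b'.1 + b'.2)) * (((κ x.1 * κ x.2 : ℝ) : ℂ) *
            (U x.1 / U x.2) ^ (((b.1 : ℤ) + b.2) - (b'.1 + b'.2)))
          + w3 ^ (((b.1 : ℤ) + b.2) - (b'.1 + b'.2)) * (((κ x.1 * κ x.2 : ℝ) : ℂ) *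
            (U x.1 / U x.2) ^ (((b.1 : ℤ) + b.2) + (b'.1 + b'.2) + c))) := by
      intro x
      rw [FM_eq M (t := U x.1 / U x.2) (by rw [norm_div, hU, hU, div_one])]
      simp only [Finset.mul_sum]
      refine Finset.sum_congr rfl fun c _ => Finset.sum_congr rfl fun b _ =>
        Finset.sum_congr rfl fun b' _ => ?_
      ring
    rw [integral_congr_ae (Eventually.of_forall e),
      integral_finsetSum _ fun c _ => integrable_finsetSum _ fun b _ =>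
      integrable_finsetSum _ fun b' _ => hT _ _ _ _]
    refine Finset.sum_congr rfl fun c _ => ?_
    rw [integral_finsetSum _ fun b _ =>
      integrable_finsetSum _ fun b' _ => hT _ _ _ _]
    refine Finset.sum_congr rfl fun b _ => ?_
    rw [integral_finsetSum _ fun b' _ => hT _ _ _ _]
    exact Finset.sum_congr rfl fun b' _ => hTi _ _ _ _
  rw [hR]
  -- the left hand side
  have h0 : ∀ c : ℕ, ∑ b ∈ Finset.range M ×ˢ Finset.range M,
      ∑ b' ∈ Finset.range M ×ˢ Finset.range M,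
        (-w3) ^ (b.1 + b.2) * ((-w3)⁻¹ ^ (b'.1 + b'.2) * ((-1) ^ c * (P (-(c : ℤ)) z * P c z)))
        = 0 := by
    intro c
    simp only [← Finset.mul_sum]
    rw [← Finset.sum_mul, ← GM_sq, GM_zero h6]
    ring
  have hL : ∀ (c : ℕ) (b b' : ℕ × ℕ), w3 ^ (((b.1 : ℤ) + b.2) - (b'.1 + b'.2)) * (-1) ^ c *
          wkp P (-((b.1 : ℤ) + b.2) - c) (b.1 + b.2) (b'.1 + b'.2 + c) (-((b'.1 : ℤ) + b'.2)) z
      = (-w3) ^ (b.1 + b.2) * ((-w3)⁻¹ ^ (b'.1 + b'.2) * ((-1) ^ c * (P (-(c : ℤ)) z * P c z)))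
        + (w3 ^ (((b.1 : ℤ) + b.2) - (b'.1 + b'.2)) *
          (P (((b.1 : ℤ) + b.2) - (b'.1 + b'.2)) z * P (-(((b.1 : ℤ) + b.2) - (b'.1 + b'.2))) z)
          + w3 ^ (((b.1 : ℤ) + b.2) - (b'.1 + b'.2)) *
            (P (((b.1 : ℤ) + b.2) + (b'.1 + b'.2) + c) z *
              P (-(((b.1 : ℤ) + b.2) + (b'.1 + b'.2) + c)) z)) := by
    intro c b b'
    have e1 : (-w3) ^ (b.1 + b.2) = (-w3) ^ ((b.1 : ℤ) + b.2) := by
      rw [← zpow_natCast]
      push_cast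
      rfl
    have e2 : (-w3)⁻¹ ^ (b'.1 + b'.2) = ((-w3) ^ ((b'.1 : ℤ) + b'.2))⁻¹ := by
      rw [← zpow_natCast, inv_zpow]
      push_cast
      rfl
    rw [e1, e2]
    generalize (b.1 : ℤ) + b.2 = B
    generalize (b'.1 : ℤ) + b'.2 = B'
    have e3 : (-w3) ^ B * ((-w3) ^ B')⁻¹ = w3 ^ (B - B') * (-1) ^ (B - B') := by
      rw [← div_eq_mul_inv, ← zpow_sub₀ (neg_ne_zero.2 w3_ne), ← mul_zpow, mul_neg_one]
    have e4 : ((-1 : ℂ)) ^ c * (-1) ^ c = 1 := by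
      rw [← mul_pow]
      simp
    have e5 : (-w3) ^ B * (((-w3) ^ B')⁻¹ * ((-1) ^ c * (P (-(c : ℤ)) z * P c z)))
        = w3 ^ (B - B') * (-1) ^ (B - B') * ((-1) ^ c * (P (-(c : ℤ)) z * P c z)) := by
      rw [← mul_assoc, e3]
    rw [e5, wkp]
    have i1 : -B - (c : ℤ) + B = -c := by ring
    have i2 : B' + (c : ℤ) + -B' = c := by ring
    have i3 : -B - (c : ℤ) + (B' + c) = -(B - B') := by ring
    have i4 : B + -B' = B - B' := by ring
    have i5 : -B - (c : ℤ) + -B' = -(B + B' + c) := by ring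
    have i6 : B + (B' + (c : ℤ)) = B + B' + c := by ring
    rw [i1, i2, i3, i4, i5, i6, zpow_natCast]
    linear_combination (w3 ^ (B - B') * (P (-(B - B')) z * P (B - B') z)
      + w3 ^ (B - B') * (P (-(B + B' + c)) z * P (B + B' + c) z)) * e4
  have hS : ∀ c : ℕ, ∑ b ∈ Finset.range M ×ˢ Finset.range M,
      ∑ b' ∈ Finset.range M ×ˢ Finset.range M,
        w3 ^ (((b.1 : ℤ) + b.2) - (b'.1 + b'.2)) * (-1) ^ c *
          wkp P (-((b.1 : ℤ) + b.2) - c) (b.1 + b.2) (b'.1 + b'.2 + c) (-((b'.1 : ℤ) + b'.2)) z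
      = ∑ b ∈ Finset.range M ×ˢ Finset.range M,
      ∑ b' ∈ Finset.range M ×ˢ Finset.range M,
        (w3 ^ (((b.1 : ℤ) + b.2) - (b'.1 + b'.2)) *
          (P (((b.1 : ℤ) + b.2) - (b'.1 + b'.2)) z * P (-(((b.1 : ℤ) + b.2) - (b'.1 + b'.2))) z)
          + w3 ^ (((b.1 : ℤ) + b.2) - (b'.1 + b'.2)) *
            (P (((b.1 : ℤ) + b.2) + (b'.1 + b'.2) + c) z *
              P (-(((b.1 : ℤ) + b.2) + (b'.1 + b'.2) + c)) z)) := by
    intro c
    rw [Finset.sum_congr rfl fun b _ => Finset.sum_congr rfl fun b' _ => hL c b b']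
    rw [Finset.sum_congr rfl fun b _ => Finset.sum_add_distrib, Finset.sum_add_distrib, h0 c,
      zero_add]
  exact Finset.sum_congr rfl fun c _ => hS c

end U3
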