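import Pool.Agent.QJ.AllA
import Pool.Agent.U3.PTWB
import Pool.Agent.U3.JETC
import Pool.Agent.U3.JETW
import Pool.Agent.U3.GROA
import Pool.Agent.U3.INTA
import Pool.Agent.U3.IBPA
import Pool.Agent.U3.CAUB
import Pool.Agent.U3.HOLB
import Pool.Agent.U3.POTZ
import Pool.Agent.U3.POTB
import Pool.Agent.U3.NULZ
import Pool.Agent.U3.NULB
import Pool.Agent.U3.NFM
import Pool.Agent.U3.TRIQ
import Pool.Agent.U3.HCL
import Pool.Agent.U3.POI
import Pool.Agent.U3.SML
import Pool.Agent.U3.IFOB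
import Pool.Agent.U3.ALTS
import Pool.Agent.U3.E3S
import Pool.Agent.U3.DIR
import Pool.Agent.U3.KER
import Pool.Agent.U3.KEM
import Pool.Agent.U3.KSZ
import Pool.Agent.U3.PAR
import Pool.Agent.U3.PES
import Pool.Agent.U3.APX
import Pool.Agent.U3.PEG
import Pool.Agent.U3.PET
import Pool.Agent.U3.PEW
import Pool.Agent.U3.PEO
import Pool.Agent.U3.TRIP
import Pool.Agent.U3.TRID
import Pool.Agent.U3.FOUB
import Pool.Agent.U3.FIR
import Pool.Agent.U3.WKS
import Pool.Agent.U3.CLS
import Pool.Agent.U3.JBD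
import Pool.Agent.U3.XBD
import Pool.Agent.U3.CUBI
import Pool.Agent.U3.DENS
import Pool.Agent.U3.ENDL
import Pool.Agent.U3.E3Z

/-!
The local theorem on three-jet integrals, assembled.
-/

namespace U3

theorem ptwB : StmtPtwB := stmtPtwB QJ.stmtSup
theorem groA : StmtGroA := stmtGroA QJ.mor ptwB
theorem potZ : StmtPotZ := stmtPotZ QJ.stmtCau QJ.stmtHol
theorem potB : StmtPotB := stmtPotB stmtCauB stmtHolB
theorem nulZ : StmtNulZ := stmtNulZ QJ.stmtNid
theorem nulB : StmtNulB := stmtNulB QJ.stmtNid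
theorem nf : StmtNf := stmtNf potZ potB nulZ nulB
theorem jetW : StmtJetW := stmtJetW stmtJetC
theorem triQ : StmtTriQ := stmtTriQ groA stmtIntA stmtJetC
theorem hcl : StmtHcl := stmtHcl groA stmtIntA stmtIbpA stmtJetC triQ nf QJ.stmtAlf
theorem sml : StmtSml := stmtSml groA stmtIntA stmtIbpA stmtJetC jetW hcl stmtPoi
theorem ifoB : StmtIfoB := stmtIfoB groA stmtIntA stmtIbpA stmtJetC sml
theorem altS : StmtAltS := stmtAltS QJ.stmtAlt
theorem e3s : StmtE3s := stmtE3s ifoB altS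
theorem dir : StmtDir := stmtDir groA triQ
theorem kem : StmtKem := stmtKem stmtKer
theorem peS : StmtPeS := stmtPeS stmtPar
theorem peG : StmtPeG := stmtPeG stmtKsz
theorem peT : StmtPeT := stmtPeT peS stmtKer kem stmtKsz
theorem peW : StmtPeW := stmtPeW stmtApx
theorem peO : StmtPeO := stmtPeO stmtKsz
theorem triP : StmtTriP := stmtTriP peS peG peT
theorem triD : StmtTriD := stmtTriD dir triQ triP peW
theorem fouB : StmtFouB := stmtFouB ifoB nf triQ triP triD dir peO QJ.stmtAlf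
theorem jbd : StmtJbd := stmtJbd nf triP
theorem xbd : StmtXbd := stmtXbd stmtKsz
theorem cubI : StmtCubI := stmtCubI dir e3s fouB stmtFir stmtWks stmtCls jbd xbd peS
theorem endL : StmtEnd := stmtEnd stmtDens
theorem e3z : StmtE3z := stmtE3z e3s cubI endL

end U3
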