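import Pool.Agent.U3.StmtsG

/-!
CON: over a geodesic arc, an invariant measure is carried by the tangent vectors of the arc; points
have measure zero.
-/

open MeasureTheory Filter Topology Set
open UpperHalfPlane hiding I
open scoped ContDiff MatrixGroups

namespace U3

open QE QE.NC QJ

noncomputable section

namespace CON

variable {ρ : ℍ → ℝ} {Φ : ℝ → SL(2, ℝ) → SL(2, ℝ)}

lemma cont_t (hΦ : GFlow ρ Φ) (v : SL(2, ℝ)) : Continuous fun s => Φ s v :=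
  hΦ.cont.comp (continuous_id.prodMk continuous_const)

lemma cont_g (hΦ : GFlow ρ Φ) (t : ℝ) : Continuous (Φ t) :=
  hΦ.cont.comp (continuous_const.prodMk continuous_id)

lemma inj (hΦ : GFlow ρ Φ) (t : ℝ) : Function.Injective (Φ t) := by
  intro a b hab
  have h := congrArg (Φ (-t)) hab
  simpa [← hΦ.add, hΦ.zero] using h

/-- the set of frames over the arc -/
def Aset (Φ : ℝ → SL(2, ℝ) → SL(2, ℝ)) (v : SL(2, ℝ)) (S : ℝ) : Set SL(2, ℝ) :=
  {w | ∃ s ∈ Icc (-S) S, pG w = pG (Φ s v)}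

/-- the set of tangent frames of the arc -/
def Bset (Φ : ℝ → SL(2, ℝ) → SL(2, ℝ)) (v : SL(2, ℝ)) (S : ℝ) : Set SL(2, ℝ) :=
  {w | ∃ s ∈ Icc (-S) S, pG w = pG (Φ s v) ∧ (uG w = uG (Φ s v) ∨ uG w = -uG (Φ s v))}

lemma closedA (hΦ : GFlow ρ Φ) (hp : Continuous pG) (v : SL(2, ℝ)) (S : ℝ) :
    IsClosed (Aset Φ v S) := by
  have h1 : IsCompact ((fun s => pG (Φ s v)) '' Icc (-S) S) :=
    isCompact_Icc.image (hp.comp (cont_t hΦ v))
  have h2 : Aset Φ v S = pG ⁻¹' ((fun s => pG (Φ s v)) '' Icc (-S) S) := by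
    ext w
    simp only [Aset, mem_ofPred_eq, mem_preimage, mem_image]
    constructor
    · rintro ⟨s, hs, h⟩
      exact ⟨s, hs, h.symm⟩
    · rintro ⟨s, hs, h⟩
      exact ⟨s, hs, h.symm⟩
  rw [h2]
  exact h1.isClosed.preimage hp

lemma closedB (hΦ : GFlow ρ Φ) (hp : Continuous pG) (hu : Continuous uG) (v : SL(2, ℝ)) (S : ℝ) :
    IsClosed (Bset Φ v S) := by
  have h1 : IsCompact ((fun s => (pG (Φ s v), uG (Φ s v))) '' Icc (-S) S) :=
    isCompact_Icc.image ((hp.comp (cont_t hΦ v)).prodMk (hu.comp (cont_t hΦ v)))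
  have h1' : IsCompact ((fun s => (pG (Φ s v), -uG (Φ s v))) '' Icc (-S) S) :=
    isCompact_Icc.image ((hp.comp (cont_t hΦ v)).prodMk (hu.comp (cont_t hΦ v)).neg)
  have h2 : Bset Φ v S = (fun w => (pG w, uG w)) ⁻¹'
      ((fun s => (pG (Φ s v), uG (Φ s v))) '' Icc (-S) S ∪
        (fun s => (pG (Φ s v), -uG (Φ s v))) '' Icc (-S) S) := by
    ext w
    simp only [Bset, mem_ofPred_eq, mem_preimage, mem_union, mem_image, Prod.mk.injEq]
    constructor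
    · rintro ⟨s, hs, h, h' | h'⟩
      · exact Or.inl ⟨s, hs, h.symm, h'.symm⟩
      · exact Or.inr ⟨s, hs, h.symm, h'.symm⟩
    · rintro (⟨s, hs, h, h'⟩ | ⟨s, hs, h, h'⟩)
      · exact ⟨s, hs, h.symm, Or.inl h'.symm⟩
      · exact ⟨s, hs, h.symm, Or.inr h'.symm⟩
  rw [h2]
  exact (h1.isClosed.union h1'.isClosed).preimage (hp.prodMk hu)

lemma part1 [MeasurableSpace SL(2, ℝ)] [BorelSpace SL(2, ℝ)] (ν : Measure SL(2, ℝ))
    [SigmaFinite ν] (hΦ : GFlow ρ Φ) (hp : Continuous pG) (hu : Continuous uG)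
    (hinv : ∀ t, Measure.map (Φ t) ν = ν) (v : SL(2, ℝ)) (S : ℝ)
    (hT : ∀ (v w : SL(2, ℝ)) (S : ℝ), Set.Countable {t | t ∈ Icc (-S) S ∧ ∃ s ∈ Icc (-S) S,
      pG (Φ t w) = pG (Φ s v) ∧ uG (Φ t w) ≠ uG (Φ s v) ∧ uG (Φ t w) ≠ -uG (Φ s v)}) :
    ν (Aset Φ v S \ Bset Φ v S) = 0 := by
  have hZ : MeasurableSet (Aset Φ v S \ Bset Φ v S) :=
    (closedA hΦ hp v S).measurableSet.diff (closedB hΦ hp hu v S).measurableSet
  set Z := Aset Φ v S \ Bset Φ v S with hZdef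
  have hE : MeasurableSet {x : ℝ × SL(2, ℝ) | x.1 ∈ Icc (0 : ℝ) 1 ∧ Φ x.1 x.2 ∈ Z} := by
    have h1 : Measurable fun x : ℝ × SL(2, ℝ) => Φ x.1 x.2 := hΦ.cont.measurable
    exact (measurable_fst measurableSet_Icc).inter (h1 hZ)
  have h0 : ((volume : Measure ℝ).prod ν)
      {x : ℝ × SL(2, ℝ) | x.1 ∈ Icc (0 : ℝ) 1 ∧ Φ x.1 x.2 ∈ Z} = 0 := by
    rw [Measure.prod_apply_symm hE]
    have : ∀ w : SL(2, ℝ), (volume : Measure ℝ) ((fun x : ℝ => (x, w)) ⁻¹'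
        {x : ℝ × SL(2, ℝ) | x.1 ∈ Icc (0 : ℝ) 1 ∧ Φ x.1 x.2 ∈ Z}) = 0 := by
      intro w
      refine Set.Countable.measure_zero ?_ _
      refine (hT v w (max |S| 1)).mono ?_
      rintro t ⟨ht, ⟨s, hs, hps⟩, hB⟩
      have hS1 : |S| ≤ max |S| 1 := le_max_left _ _
      have h11 : (1 : ℝ) ≤ max |S| 1 := le_max_right _ _
      have ht' : t ∈ Icc (0 : ℝ) 1 := ht
      have hSa : S ≤ |S| := le_abs_self S
      refine ⟨⟨by linarith [ht'.1], by linarith [ht'.2]⟩, s,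
        ⟨by linarith [hs.1], by linarith [hs.2]⟩, hps, ?_, ?_⟩
      · intro h
        exact hB ⟨s, hs, hps, Or.inl h⟩
      · intro h
        exact hB ⟨s, hs, hps, Or.inr h⟩
    rw [lintegral_congr this]
    simp
  have h2 := Measure.measure_ae_null_of_prod_null h0
  have h3 : ∃ t ∈ Icc (0 : ℝ) 1, ν (Prod.mk t ⁻¹'
      {x : ℝ × SL(2, ℝ) | x.1 ∈ Icc (0 : ℝ) 1 ∧ Φ x.1 x.2 ∈ Z}) = 0 := by
    by_contra hcon
    push Not at hcon
    have h4 : (volume : Measure ℝ) (Icc (0 : ℝ) 1) = 0 := by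
      refine measure_mono_null ?_ h2
      intro t ht
      exact hcon t ht
    simp at h4
  obtain ⟨t, ht, h5⟩ := h3
  have h6 : Prod.mk t ⁻¹' {x : ℝ × SL(2, ℝ) | x.1 ∈ Icc (0 : ℝ) 1 ∧ Φ x.1 x.2 ∈ Z}
      = Φ t ⁻¹' Z := by
    ext w
    simp only [mem_preimage, mem_ofPred_eq]
    exact ⟨fun h => h.2, fun h => ⟨ht, h⟩⟩
  rw [h6] at h5
  have h7 := Measure.map_apply (μ := ν) (cont_g hΦ t).measurable hZ
  rw [hinv t] at h7
  rw [h7, h5]

lemma part2 [MeasurableSpace SL(2, ℝ)] [BorelSpace SL(2, ℝ)] (ν : Measure SL(2, ℝ))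
    [IsFiniteMeasureOnCompacts ν] (hΦ : GFlow ρ Φ)
    (hv : ∀ g, vG ρ g ≠ 0) (hd : ∀ g t, HasDerivAt (fun s => pG (Φ s g)) (vG ρ (Φ t g)) t)
    (hinv : ∀ t, Measure.map (Φ t) ν = ν) (w : SL(2, ℝ)) : ν {w} = 0 := by
  by_contra hcon
  have h1 : ∀ t, ν {Φ t w} = ν {w} := by
    intro t
    have h7 := Measure.map_apply (μ := ν) (cont_g hΦ t).measurable
      (measurableSet_singleton (Φ t w))
    rw [hinv t] at h7
    rw [h7]
    congr 1
    ext x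
    simp only [mem_preimage, mem_singleton_iff]
    exact ⟨fun h => inj hΦ t h, fun h => by rw [h]⟩
  have hc : IsCompact ((fun t => Φ t w) '' Icc (0 : ℝ) 1) := isCompact_Icc.image (cont_t hΦ w)
  have hpre : IsPreconnected ((fun t => Φ t w) '' Icc (0 : ℝ) 1) :=
    isPreconnected_Icc.image _ (cont_t hΦ w).continuousOn
  have hnt : ((fun t => Φ t w) '' Icc (0 : ℝ) 1).Nontrivial := by
    by_contra hn
    rw [Set.not_nontrivial_iff] at hn
    have hconst : ∀ t ∈ Icc (0 : ℝ) 1, Φ t w = w := by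
      intro t ht
      have := hn (mem_image_of_mem _ ht) (mem_image_of_mem _ (left_mem_Icc.2 zero_le_one))
      simpa [hΦ.zero] using this
    have hev : (fun s => pG (Φ s w)) =ᶠ[𝓝 (1 / 2 : ℝ)] fun _ => pG w := by
      filter_upwards [Icc_mem_nhds (show (0 : ℝ) < 1 / 2 by norm_num)
        (show (1 / 2 : ℝ) < 1 by norm_num)] with s hs
      rw [hconst s hs]
    have h8 : HasDerivAt (fun s => pG (Φ s w)) 0 (1 / 2 : ℝ) :=
      (hasDerivAt_const (1 / 2 : ℝ) (pG w)).congr_of_eventuallyEq hev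
    exact hv _ ((hd w (1 / 2)).unique h8)
  have hinf := hpre.infinite_of_nontrivial hnt
  have htop : ν ((fun t => Φ t w) '' Icc (0 : ℝ) 1) = ⊤ := by
    refine hinf.meas_eq_top ⟨ν {w}, hcon, ?_⟩
    rintro x ⟨t, -, rfl⟩
    exact (h1 t).ge
  exact (hc.measure_lt_top (μ := ν)).ne htop

end CON

/-- CON -/
theorem stmtCon (hVel : StmtVel) (hTrv : StmtTrv) (hRot : StmtRot) : StmtCon := by
  intro _ _ Γ ρ Φ ν _ _ hF hΦ hinv
  obtain ⟨hp, hu, -⟩ := hRot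
  obtain ⟨-, hv, hd⟩ := hVel Γ ρ Φ hF hΦ
  refine ⟨fun v S => ?_, fun w => CON.part2 ν hΦ hv hd hinv w⟩
  exact CON.part1 ν hΦ hp hu hinv v S (hTrv Γ ρ Φ hF hΦ)

end

end U3

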