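import Pool.Agent.U3.StmtsG
import Pool.Agent.NCV.Flow
import Pool.Agent.NCV.Lip

/-!
E3G: on closed surfaces of negative curvature the three-jet integrals tend to zero.
-/

open MeasureTheory Filter Topology Set
open UpperHalfPlane hiding I
open scoped ContDiff MatrixGroups

namespace U3

open QE QE.NC QJ

namespace E3G

theorem locU_sub {U : Set ℂ} {g : ℂ → ℝ} {h : ℕ → ℝ} {φ : ℕ → ℂ → ℂ} (L : LocU U g h φ)
    {s : ℕ → ℕ} (hs : Tendsto s atTop atTop) :
    LocU U g (fun n => h (s n)) (fun n => φ (s n)) where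
  hpos n := L.hpos _
  hlim := L.hlim.comp hs
  smooth n := L.smooth _
  real n z hz := L.real _ z hz
  eig n z hz := L.eig _ z hz
  bdd K hK hKU := by
    obtain ⟨C, hC⟩ := L.bdd K hK hKU
    exact ⟨C, hs.eventually hC⟩

theorem locB_sub {V V1 : Set ℂ} {σ : ℂ → ℝ} {h : ℕ → ℝ} {φ : ℕ → ℂ → ℂ} (L : LocB V σ h φ)
    (hop : IsOpen V1) (hV : V1 ⊆ V) {s : ℕ → ℕ} (hs : Tendsto s atTop atTop) :
    LocB V1 σ (fun n => h (s n)) (fun n => φ (s n)) where
  op := hop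
  hpos n := L.hpos _
  hlim := L.hlim.comp hs
  sm := L.sm
  smφ n := L.smφ _
  real n z := L.real _ z
  eig n z hz := L.eig _ z (hV hz)
  bdd K hK hKU := by
    obtain ⟨C, hC⟩ := L.bdd K hK (hKU.trans hV)
    exact ⟨C, hs.eventually hC⟩

theorem agree_sub {V U : Set ℂ} {g : ℂ → ℝ} {h : ℕ → ℝ} {φ : ℕ → ℂ → ℂ} {σ : ℂ → ℝ}
    {φ' : ℕ → ℂ → ℂ} (A : Agree V U g h φ σ φ') {s : ℕ → ℕ} (hs : Tendsto s atTop atTop) :
    Agree V U g (fun n => h (s n)) (fun n => φ (s n)) σ (fun n => φ' (s n)) where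
  op := A.op
  sub := A.sub
  eg := A.eg
  eφ n z hz := A.eφ _ z hz
  loc := locB_sub A.loc A.op (fun _ hx => hx) hs

variable [MeasurableSpace SL(2, ℝ)] [BorelSpace SL(2, ℝ)]

theorem muV_fin {ν : Measure SL(2, ℝ)} [IsFiniteMeasureOnCompacts ν] {F : Set ℂ} {f : ℂ → ℝ}
    (hC : IsCompact (pG ⁻¹' F)) (hp : Continuous pG) (hf : Continuous f) :
    muV ν F f Set.univ ≠ ⊤ := by
  have hm : MeasurableSet (pG ⁻¹' F) := hC.measurableSet
  obtain ⟨M, hM⟩ := hC.exists_bound_of_continuousOn (f := fun g => f (pG g))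
    (hf.comp hp).continuousOn
  unfold muV
  rw [withDensity_apply _ MeasurableSet.univ, Measure.restrict_univ]
  have h1 : ∫⁻ g in pG ⁻¹' F, ENNReal.ofReal (f (pG g)) ∂ν ≤
      ENNReal.ofReal M * ν (pG ⁻¹' F) := by
    calc ∫⁻ g in pG ⁻¹' F, ENNReal.ofReal (f (pG g)) ∂ν
        ≤ ∫⁻ _ in pG ⁻¹' F, ENNReal.ofReal M ∂ν := by
          refine setLIntegral_mono' hm fun g hg => ENNReal.ofReal_le_ofReal ?_
          exact (le_abs_self _).trans (hM g hg)
      _ = ENNReal.ofReal M * ν (pG ⁻¹' F) := by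
          rw [setLIntegral_const]
  exact ne_top_of_le_ne_top (ENNReal.mul_ne_top ENNReal.ofReal_ne_top hC.measure_lt_top.ne) h1

theorem muV_cpt {ν : Measure SL(2, ℝ)} {F : Set ℂ} {f : ℂ → ℝ}
    (hC : IsCompact (pG ⁻¹' F)) : ∀ᵐ o ∂(muV ν F f), pG o ∈ F := by
  have hm : MeasurableSet (pG ⁻¹' F) := hC.measurableSet
  have h1 : ∀ᵐ o ∂(ν.restrict (pG ⁻¹' F)), o ∈ pG ⁻¹' F := ae_restrict_mem hm
  exact (withDensity_absolutelyContinuous _ _).ae_le h1

theorem muV_int {ν : Measure SL(2, ℝ)} {F : Set ℂ} {f : ℂ → ℝ}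
    (hp : Continuous pG) (hf : Continuous f) (hf0 : ∀ z, 0 ≤ f z) {ζ : ℂ → ℂ}
    (hζ : tsupport ζ ⊆ F) (k : ℤ) :
    ∫ o, ζ (pG o) * uG o ^ k ∂(muV ν F f) =
      ∫ g, ζ (pG g) * ((f (pG g) : ℝ) : ℂ) * uG g ^ k ∂ν := by
  unfold muV
  have hme : Measurable (fun g : SL(2, ℝ) => ENNReal.ofReal (f (pG g))) :=
    (hf.comp hp).measurable.ennreal_ofReal
  rw [integral_withDensity_eq_integral_toReal_smul hme
    (Filter.Eventually.of_forall fun _ => ENNReal.ofReal_lt_top)]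
  rw [setIntegral_eq_integral_of_forall_compl_eq_zero]
  · refine integral_congr_ae (Filter.Eventually.of_forall fun g => ?_)
    show (ENNReal.ofReal (f (pG g))).toReal • (ζ (pG g) * uG g ^ k) = _
    rw [ENNReal.toReal_ofReal (hf0 _), Complex.real_smul]
    ring
  · intro g hg
    have h1 : ζ (pG g) = 0 := by
      by_contra hne
      exact hg (hζ (subset_tsupport _ hne))
    show (ENNReal.ofReal (f (pG g))).toReal • (ζ (pG g) * uG g ^ k) = 0
    rw [h1, zero_mul, smul_zero]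

end E3G

theorem stmtE3g (hWgl : StmtWgl) (hE3z : StmtE3z) (hGev : StmtGev) (_hLcz : StmtLcz)
    (hEcg : StmtEcg) (hRot : StmtRot) : StmtE3g := by
  intro Γ ρ h φ hFac hlap hLoc V σ φ' hAg ζ hζ a b c
  let _ : MeasurableSpace SL(2, ℝ) := borel _
  have : BorelSpace SL(2, ℝ) := ⟨rfl⟩
  obtain ⟨hpc, huc, hu1, -, -, -, -, hcpt⟩ := hRot
  obtain ⟨Φ, hΦ⟩ := NC.stmtFlow NC.stmtLip Γ ρ hFac
  refine tendsto_of_subseq_tendsto fun ns hns => ?_
  obtain ⟨s, ν, hs, hfc, hsf, hinv, hlim⟩ := hWgl Γ ρ Φ (fun n => h (ns n)) (fun n => φ (ns n))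
    hFac hΦ (E3G.locU_sub hLoc hns)
  have := hfc
  have := hsf
  refine ⟨s, ?_⟩
  have hst : Tendsto s atTop atTop := hs.tendsto_atTop
  have hnss : Tendsto (fun n => ns (s n)) atTop atTop := hns.comp hst
  -- a relatively compact neighbourhood of the support
  obtain ⟨V1, hV1o, hKV1, hV1V, hV1c⟩ := exists_open_between_and_isCompact_closure
    (hζ.supp : IsCompact (tsupport ζ)) hAg.op hζ.sub
  have hFU : closure V1 ⊆ UH := hV1V.trans hAg.sub
  have hV1F : V1 ⊆ closure V1 := subset_closure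
  have hV1V' : V1 ⊆ V := hV1F.trans hV1V
  have hCc : IsCompact (pG ⁻¹' (closure V1)) := hcpt _ hV1c hFU
  set f : ℂ → ℝ := fun z => Real.exp (-(2 * σ z)) with hfdef
  have hfcont : Continuous f := by
    have := hAg.loc.sm.continuous
    exact Real.continuous_exp.comp (continuous_const.mul this).neg
  have hf0 : ∀ z, 0 ≤ f z := fun z => (Real.exp_pos _).le
  obtain ⟨G, B, hGeo⟩ := hGev Γ ρ Φ ν hFac hlap hΦ hinv (closure V1) V1 f hV1c hFU hV1F hfcont hf0
  have hAg1 := E3G.agree_sub hAg hns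
  have hLoc2 : LocB V1 σ (fun n => h (ns (s n))) (fun n => φ' (ns (s n))) :=
    E3G.locB_sub hAg.loc hV1o hV1V' hnss
  -- jets of the subsequences
  have hE1 : ∀ j n z, E σ (fun k => h (ns (s k))) (fun k => φ' (ns (s k))) j n z =
      E σ h φ' j (ns (s n)) z := fun j n z =>
    (hEcg V σ σ h φ' φ' hAg.op (fun _ _ => rfl) (fun _ _ _ => rfl)).2 (fun k => ns (s k)) j n z
  have hE2 : ∀ j n z, E σ (fun k => h (ns k)) (fun k => φ' (ns k)) j n z =
      E σ h φ' j (ns n) z := fun j n z =>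
    (hEcg V σ σ h φ' φ' hAg.op (fun _ _ => rfl) (fun _ _ _ => rfl)).2 ns j n z
  have hLim : LimM V1 σ (fun n => h (ns (s n))) (fun n => φ' (ns (s n))) (muV ν (closure V1) f)
      pG uG := by
    refine ⟨E3G.muV_fin hCc hpc hfcont, hpc.measurable, huc.measurable, hu1,
      ⟨closure V1, hV1c, E3G.muV_cpt hCc⟩, ?_⟩
    intro j m ζ' hζ'
    have hζ'V : Test V ζ' := ⟨hζ'.smooth, hζ'.supp, hζ'.sub.trans hV1V'⟩
    have h1 := hlim V σ (fun n => φ' (ns n)) hAg1 j m ζ' hζ'V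
    rw [E3G.muV_int hpc hfcont hf0 (hζ'.sub.trans hV1F)]
    refine h1.congr fun n => ?_
    refine integral_congr_ae (Filter.Eventually.of_forall fun z => ?_)
    show ζ' z * (E σ (fun k => h (ns k)) (fun k => φ' (ns k)) j (s n) z *
      E σ (fun k => h (ns k)) (fun k => φ' (ns k)) m (s n) z) =
      ζ' z * (E σ (fun k => h (ns (s k))) (fun k => φ' (ns (s k))) j n z *
      E σ (fun k => h (ns (s k))) (fun k => φ' (ns (s k))) m n z)
    rw [hE1 j n z, hE1 m n z, hE2 j (s n) z, hE2 m (s n) z]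
  have hfin := hE3z V1 σ (fun n => h (ns (s n))) (fun n => φ' (ns (s n))) SL(2, ℝ)
    (muV ν (closure V1) f) pG uG G B hLoc2 hLim hGeo ζ ⟨hζ.smooth, hζ.supp, hKV1⟩ a b c
  refine hfin.congr fun n => ?_
  unfold E3
  refine integral_congr_ae (Filter.Eventually.of_forall fun z => ?_)
  show ζ z * (E σ (fun k => h (ns (s k))) (fun k => φ' (ns (s k))) a n z *
      E σ (fun k => h (ns (s k))) (fun k => φ' (ns (s k))) b n z *
      E σ (fun k => h (ns (s k))) (fun k => φ' (ns (s k))) c n z) =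
      ζ z * (E σ h φ' a (ns (s n)) z * E σ h φ' b (ns (s n)) z * E σ h φ' c (ns (s n)) z)
  rw [hE1 a n z, hE1 b n z, hE1 c n z]

end U3
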