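import Pool.Agent.U3.StmtsG

/-!
ECG: the jets depend only on the local data.
-/

open Complex MeasureTheory Filter Topology Set
open scoped ContDiff

namespace U3

open QE QJ

namespace ECG

theorem dz_germ {f g : ℂ → ℂ} {z : ℂ} (h : f =ᶠ[𝓝 z] g) : dz f z = dz g z := by
  unfold dz
  rw [h.fderiv_eq]

theorem D_germ {σ σ' : ℂ → ℝ} {f g : ℂ → ℂ} {z : ℂ} (k : ℤ) (hσ : σ =ᶠ[𝓝 z] σ')
    (h : f =ᶠ[𝓝 z] g) : D σ k f z = D σ' k g z := by
  have h1 : (fun w => ex σ (-k) w * f w) =ᶠ[𝓝 z] (fun w => ex σ' (-k) w * g w) := by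
    filter_upwards [hσ, h] with w h1 h2
    unfold ex
    rw [h1, h2]
  unfold D
  rw [dz_germ h1]
  unfold ex
  rw [hσ.self_of_nhds]

theorem jet_eq {V : Set ℂ} {σ σ' : ℂ → ℝ} {h : ℕ → ℝ} {φ φ' : ℕ → ℂ → ℂ} (hV : IsOpen V)
    (hσ : ∀ z ∈ V, σ z = σ' z) (hφ : ∀ n, ∀ z ∈ V, φ n z = φ' n z) (m n : ℕ) :
    ∀ z ∈ V, jet σ h φ m n z = jet σ' h φ' m n z := by
  induction m with
  | zero => exact hφ n
  | succ m ih =>
    intro z hz
    change (h n : ℂ) * D σ m (jet σ h φ m n) z = (h n : ℂ) * D σ' m (jet σ' h φ' m n) z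
    rw [D_germ (m : ℤ) (Filter.eventuallyEq_of_mem (hV.mem_nhds hz) hσ)
      (Filter.eventuallyEq_of_mem (hV.mem_nhds hz) ih)]

theorem jet_comp (σ : ℂ → ℝ) (h : ℕ → ℝ) (φ : ℕ → ℂ → ℂ) (s : ℕ → ℕ) (m n : ℕ) :
    jet σ (fun k => h (s k)) (fun k => φ (s k)) m n = jet σ h φ m (s n) := by
  induction m with
  | zero => rfl
  | succ m ih =>
    funext z
    change (h (s n) : ℂ) * D σ m (jet σ (fun k => h (s k)) (fun k => φ (s k)) m n) z
      = (h (s n) : ℂ) * D σ m (jet σ h φ m (s n)) z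
    rw [ih]

end ECG

open ECG in
theorem stmtEcg : StmtEcg := by
  intro V σ σ' h φ φ' hV hσ hφ
  refine ⟨?_, ?_⟩
  · intro j n z hz
    cases j with
    | ofNat m => exact jet_eq hV hσ hφ m n z hz
    | negSucc m =>
      change (-1) ^ (m + 1) * (starRingEnd ℂ) (jet σ h φ (m + 1) n z)
        = (-1) ^ (m + 1) * (starRingEnd ℂ) (jet σ' h φ' (m + 1) n z)
      rw [jet_eq hV hσ hφ (m + 1) n z hz]
  · intro s j n z
    cases j with
    | ofNat m => exact congrFun (jet_comp σ h φ s m n) z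
    | negSucc m =>
      change (-1) ^ (m + 1) * (starRingEnd ℂ)
          (jet σ (fun k => h (s k)) (fun k => φ (s k)) (m + 1) n z)
        = (-1) ^ (m + 1) * (starRingEnd ℂ) (jet σ h φ (m + 1) (s n) z)
      rw [jet_comp σ h φ s (m + 1) n]

end U3
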