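import Pool.Agent.U3.StmtsG

/-!
GEO: the geometric input for the invariant measure.
-/

open MeasureTheory Filter Topology Set
open UpperHalfPlane hiding I
open scoped ContDiff MatrixGroups ENNReal

namespace U3

open QE QE.NC QJ

namespace GEO

theorem w3_re : w3.re = -1 / 2 := by
  have h : w3 = Complex.exp (((2 * Real.pi / 3 : ℝ) : ℂ) * Complex.I) := by
    unfold w3
    congr 1
    push_cast
    ring
  rw [h, Complex.exp_ofReal_mul_I_re]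
  have h2 : (2 * Real.pi / 3 : ℝ) = Real.pi - Real.pi / 3 := by ring
  rw [h2, Real.cos_pi_sub, Real.cos_pi_div_three]
  ring

theorem w3_ne_one : w3 ≠ 1 := by
  intro h
  have h1 := w3_re
  rw [h, Complex.one_re] at h1
  norm_num at h1

theorem w3_ne_neg_one : w3 ≠ -1 := by
  intro h
  have h1 := w3_re
  rw [h, Complex.neg_re, Complex.one_re] at h1
  norm_num at h1

theorem cont_neg : Continuous fun g : SL(2, ℝ) => -g := by
  have h : (fun g : SL(2, ℝ) => -g) = fun g => (-1) * g := by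
    funext g
    rw [neg_one_mul]
  rw [h]
  exact continuous_const.mul continuous_id

/-- the arc of base points -/
def arc (Φ : ℝ → SL(2, ℝ) → SL(2, ℝ)) (S : ℝ) (v : SL(2, ℝ)) : Set ℂ :=
  (fun s => pG (Φ s v)) '' Icc (-S) S

/-- the tangent vectors -/
def tvp (Φ : ℝ → SL(2, ℝ) → SL(2, ℝ)) (S : ℝ) (v : SL(2, ℝ)) : Set (ℂ × ℂ) :=
  (fun s => (pG (Φ s v), uG (Φ s v))) '' Icc (-S) S

/-- the opposite tangent vectors -/
def tvm (Φ : ℝ → SL(2, ℝ) → SL(2, ℝ)) (S : ℝ) (v : SL(2, ℝ)) : Set (ℂ × ℂ) :=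
  (fun s => (pG (Φ s v), -uG (Φ s v))) '' Icc (-S) S

/-- the frames whose geodesics meet `F` within time `T` -/
def K0 (Φ : ℝ → SL(2, ℝ) → SL(2, ℝ)) (T : ℝ) (F : Set ℂ) : Set SL(2, ℝ) :=
  {w | ∃ s ∈ Icc 0 T, pG (Φ s w) ∈ F}

theorem cont_fl {ρ : ℍ → ℝ} {Φ : ℝ → SL(2, ℝ) → SL(2, ℝ)} (hΦ : GFlow ρ Φ) (v : SL(2, ℝ)) :
    Continuous fun s => Φ s v :=
  hΦ.cont.comp (continuous_id.prodMk continuous_const)

theorem K0_cpt {ρ : ℍ → ℝ} {Φ : ℝ → SL(2, ℝ) → SL(2, ℝ)} (hΦ : GFlow ρ Φ) (T : ℝ) {F : Set ℂ}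
    (hF : IsCompact (pG ⁻¹' F)) : IsCompact (K0 Φ T F) := by
  have h : K0 Φ T F = (fun p : ℝ × SL(2, ℝ) => Φ (-p.1) p.2) '' (Icc 0 T ×ˢ (pG ⁻¹' F)) := by
    ext w
    constructor
    · rintro ⟨s, hs, hw⟩
      refine ⟨(s, Φ s w), ⟨hs, hw⟩, ?_⟩
      show Φ (-s) (Φ s w) = w
      rw [← hΦ.add, neg_add_cancel, hΦ.zero]
    · rintro ⟨⟨s, g⟩, ⟨hs, hg⟩, rfl⟩
      refine ⟨s, hs, ?_⟩
      show pG (Φ s (Φ (-s) g)) ∈ F
      rw [← hΦ.add, add_neg_cancel, hΦ.zero]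
      exact hg
  rw [h]
  exact (isCompact_Icc.prod hF).image
    (hΦ.cont.comp ((continuous_fst.neg).prodMk continuous_snd))

theorem Sg_cpt {ρ : ℍ → ℝ} {Φ : ℝ → SL(2, ℝ) → SL(2, ℝ)} (hΦ : GFlow ρ Φ) (S : ℝ)
    (v : SL(2, ℝ)) : IsCompact (Sg Φ S v) := by
  have h : Sg Φ S v = (fun s => Φ s v) '' Icc (-S) S ∪ (fun s => -Φ s v) '' Icc (-S) S := by
    ext w
    constructor
    · rintro ⟨s, hs, hw | hw⟩
      · exact Or.inl ⟨s, hs, hw.symm⟩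
      · exact Or.inr ⟨s, hs, hw.symm⟩
    · rintro (⟨s, hs, hw⟩ | ⟨s, hs, hw⟩)
      · exact ⟨s, hs, Or.inl hw.symm⟩
      · exact ⟨s, hs, Or.inr hw.symm⟩
  rw [h]
  exact (isCompact_Icc.image (cont_fl hΦ v)).union
    (isCompact_Icc.image (cont_neg.comp (cont_fl hΦ v)))

theorem Cc_sub (Φ : ℝ → SL(2, ℝ) → SL(2, ℝ)) (T η : ℝ) (F : Set ℂ) :
    Cc Φ T η F ⊆ K0 Φ T F ×ˢ K0 Φ T F := by
  rintro x ⟨s, hs, t, ht, h1, h2, -⟩
  exact ⟨⟨s, hs, h1⟩, ⟨t, ht, h2 ▸ h1⟩⟩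

theorem Cc_mono (Φ : ℝ → SL(2, ℝ) → SL(2, ℝ)) (T η : ℝ) {F F' : Set ℂ} (h : F' ⊆ F) :
    Cc Φ T η F' ⊆ Cc Φ T η F := by
  rintro x ⟨s, hs, t, ht, h1, h2, h3⟩
  exact ⟨s, hs, t, ht, h h1, h2, h3⟩

theorem K0_mono (Φ : ℝ → SL(2, ℝ) → SL(2, ℝ)) (T : ℝ) {F F' : Set ℂ} (h : F' ⊆ F) :
    K0 Φ T F' ⊆ K0 Φ T F := by
  rintro x ⟨s, hs, h1⟩
  exact ⟨s, hs, h h1⟩

theorem two_pts (puniq : ∀ g g' : SL(2, ℝ), pG g = pG g' → uG g = uG g' → g' = g ∨ g' = -g)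
    (p u : ℂ) : Set.Countable {g : SL(2, ℝ) | pG g = p ∧ uG g = u} := by
  rcases Set.eq_empty_or_nonempty {g : SL(2, ℝ) | pG g = p ∧ uG g = u} with h | ⟨g0, h0⟩
  · rw [h]
    exact countable_empty
  · apply (Set.toFinite ({g0, -g0} : Set SL(2, ℝ))).countable.mono
    rintro g ⟨hp, hu⟩
    rcases puniq g0 g (h0.1.trans hp.symm) (h0.2.trans hu.symm) with h | h
    · exact Or.inl h
    · exact Or.inr h

/-- a frame on the segment `Sg`, flowed within time `T`, has its base point on the longer arc -/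
theorem arc_of_Sg {ρ : ℍ → ℝ} {Φ : ℝ → SL(2, ℝ) → SL(2, ℝ)} (hΦ : GFlow ρ Φ)
    (pneg : ∀ g : SL(2, ℝ), pG (-g) = pG g) {S T s : ℝ} (hs : s ∈ Icc 0 T)
    {v w : SL(2, ℝ)} (hw : w ∈ Sg Φ S v) : pG (Φ s w) ∈ arc Φ (S + T) v := by
  obtain ⟨t, ht, hw⟩ := hw
  refine ⟨s + t, ⟨by linarith [hs.1, ht.1, hs.2], by linarith [hs.2, ht.2]⟩, ?_⟩
  show pG (Φ (s + t) v) = pG (Φ s w)
  rcases hw with hw | hw
  · rw [hw, hΦ.add]
  · rw [hw, hΦ.neg, pneg, hΦ.add]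

theorem rot_null [MeasurableSpace SL(2, ℝ)] [BorelSpace SL(2, ℝ)]
    {Φ : ℝ → SL(2, ℝ) → SL(2, ℝ)} {ν : Measure SL(2, ℝ)} {S : ℝ} {v : ℕ → SL(2, ℝ)}
    (nu1 : ∀ g : SL(2, ℝ), ‖uG g‖ = 1)
    (puniq : ∀ g g' : SL(2, ℝ), pG g = pG g' → uG g = uG g' → g' = g ∨ g' = -g)
    (hpt : ∀ w : SL(2, ℝ), ν {w} = 0)
    (htrv : ∀ v w : SL(2, ℝ), Set.Countable {t | t ∈ Icc (-S) S ∧ ∃ s ∈ Icc (-S) S,
      pG (Φ t w) = pG (Φ s v) ∧ uG (Φ t w) ≠ uG (Φ s v) ∧ uG (Φ t w) ≠ -uG (Φ s v)}) :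
    ν {g | (pG g, uG g) ∈ (⋃ i, (tvp Φ S (v i) ∪ tvm Φ S (v i))) ∧
      (pG g, w3 * uG g) ∈ (⋃ i, (tvp Φ S (v i) ∪ tvm Φ S (v i)))} = 0 := by
  have hna : NullSingletonClass ν := ⟨hpt⟩
  have key : ∀ x : ℂ × ℂ, x ∈ (⋃ i, (tvp Φ S (v i) ∪ tvm Φ S (v i))) →
      ∃ i, ∃ s ∈ Icc (-S) S, x.1 = pG (Φ s (v i)) ∧
        (x.2 = uG (Φ s (v i)) ∨ x.2 = -uG (Φ s (v i))) := by
    intro x hx
    obtain ⟨i, hi⟩ := mem_iUnion.1 hx
    rcases hi with ⟨s, hs, hx⟩ | ⟨s, hs, hx⟩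
    · exact ⟨i, s, hs, by rw [← hx], Or.inl (by rw [← hx])⟩
    · exact ⟨i, s, hs, by rw [← hx], Or.inr (by rw [← hx])⟩
  have hc : Set.Countable (⋃ i : ℕ, ⋃ j : ℕ,
      ⋃ t ∈ {t | t ∈ Icc (-S) S ∧ ∃ s ∈ Icc (-S) S,
        pG (Φ t (v i)) = pG (Φ s (v j)) ∧ uG (Φ t (v i)) ≠ uG (Φ s (v j)) ∧
          uG (Φ t (v i)) ≠ -uG (Φ s (v j))},
      ({g : SL(2, ℝ) | pG g = pG (Φ t (v i)) ∧ uG g = uG (Φ t (v i))} ∪
        {g : SL(2, ℝ) | pG g = pG (Φ t (v i)) ∧ uG g = -uG (Φ t (v i))})) := by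
    refine countable_iUnion fun i => countable_iUnion fun j => ?_
    refine (htrv (v j) (v i)).biUnion fun t _ => ?_
    exact (two_pts puniq _ _).union (two_pts puniq _ _)
  refine measure_mono_null ?_ (hc.measure_zero ν)
  rintro g ⟨h1, h2⟩
  obtain ⟨i, t, ht, hp, hu⟩ := key _ h1
  obtain ⟨j, s, hs, hp', hu'⟩ := key _ h2
  have hg0 : uG g ≠ 0 := by
    intro h
    have h3 := nu1 g
    rw [h, norm_zero] at h3
    norm_num at h3
  have e1 : ∀ c : ℂ, w3 * uG g = c * uG g → w3 = c := fun c hc' => mul_right_cancel₀ hg0 hc'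
  have hne : uG (Φ t (v i)) ≠ uG (Φ s (v j)) ∧ uG (Φ t (v i)) ≠ -uG (Φ s (v j)) := by
    simp only at hu hu'
    constructor
    · intro h
      rcases hu with hu | hu <;> rcases hu' with hu' | hu'
      · exact w3_ne_one (e1 1 (by rw [hu', one_mul, hu, h]))
      · exact w3_ne_neg_one (e1 (-1) (by rw [hu', neg_one_mul, hu, h]))
      · exact w3_ne_neg_one (e1 (-1) (by rw [hu', neg_one_mul, hu, h, neg_neg]))
      · exact w3_ne_one (e1 1 (by rw [hu', one_mul, hu, h]))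
    · intro h
      rcases hu with hu | hu <;> rcases hu' with hu' | hu'
      · exact w3_ne_neg_one (e1 (-1) (by rw [hu', neg_one_mul, hu, h, neg_neg]))
      · exact w3_ne_one (e1 1 (by rw [hu', one_mul, hu, h]))
      · exact w3_ne_one (e1 1 (by rw [hu', one_mul, hu, h, neg_neg]))
      · exact w3_ne_neg_one (e1 (-1) (by rw [hu', neg_one_mul, hu, h, neg_neg]))
  refine mem_iUnion.2 ⟨i, mem_iUnion.2 ⟨j, mem_iUnion₂.2 ⟨t, ?_, ?_⟩⟩⟩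
  · exact ⟨ht, s, hs, hp.symm.trans hp', hne.1, hne.2⟩
  · rcases hu with hu | hu
    · exact Or.inl ⟨hp, hu⟩
    · exact Or.inr ⟨hp, hu⟩

end GEO

open GEO in
theorem stmtGeo (hNcr : StmtNcr) (hNuc : StmtNuc) (hCon : StmtCon) (hTrv : StmtTrv)
    (hRot : StmtRot) : StmtGeo := by
  intro _ _ Γ ρ Φ ν _ _ hFac hlap hΦ hinv F hFc hFU
  obtain ⟨T, C, hT, hC, hN⟩ := hNcr Γ ρ Φ ν hFac hΦ hinv F hFc hFU
  obtain ⟨v, S, hS, hnull⟩ := hNuc Γ ρ Φ ν hFac hlap hΦ F hFc hFU T hT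
  obtain ⟨hcon, hpt⟩ := hCon Γ ρ Φ ν hFac hΦ hinv
  have hTrv' := hTrv Γ ρ Φ hFac hΦ
  obtain ⟨cp, cu, nu1, pUH, pneg, prot, puniq, pcpt⟩ := hRot
  have hK0c : IsCompact (K0 Φ T F) := K0_cpt hΦ T (pcpt F hFc hFU)
  have hK0m : MeasurableSet (K0 Φ T F) := hK0c.isClosed.measurableSet
  have hK0f : ν (K0 Φ T F) < ⊤ := hK0c.measure_lt_top
  have hSgm : ∀ i, MeasurableSet (Sg Φ S (v i)) := fun i => (Sg_cpt hΦ S (v i)).isClosed.measurableSet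
  refine ⟨fun N => ⋃ i ∈ Finset.range N, arc Φ (S + T) (v i),
    ⋃ i, (tvp Φ (S + T) (v i) ∪ tvm Φ (S + T) (v i)), ?_, ?_, ?_, ?_, ?_, ?_⟩
  · intro N
    refine (Finset.range N).finite_toSet.isClosed_biUnion fun i _ => ?_
    exact (isCompact_Icc.image (cp.comp (cont_fl hΦ (v i)))).isClosed
  · refine MeasurableSet.iUnion fun i => ?_
    have c1 : Continuous fun s => (pG (Φ s (v i)), uG (Φ s (v i))) :=
      (cp.comp (cont_fl hΦ (v i))).prodMk (cu.comp (cont_fl hΦ (v i)))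
    have c2 : Continuous fun s => (pG (Φ s (v i)), -uG (Φ s (v i))) :=
      (cp.comp (cont_fl hΦ (v i))).prodMk (cu.comp (cont_fl hΦ (v i))).neg
    exact ((isCompact_Icc.image c1).isClosed.union
      (isCompact_Icc.image c2).isClosed).measurableSet
  · intro N
    refine measure_mono_null ?_ (measure_iUnion_null fun i => hcon (v i) (S + T))
    rintro g ⟨h1, h2⟩
    obtain ⟨i, -, s, hs, hp⟩ := mem_iUnion₂.1 h1
    refine mem_iUnion.2 ⟨i, ⟨s, hs, hp.symm⟩, ?_⟩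
    rintro ⟨t, ht, hp', hu | hu⟩
    · exact h2 (mem_iUnion.2 ⟨i, Or.inl ⟨t, ht, by rw [hp', hu]⟩⟩)
    · exact h2 (mem_iUnion.2 ⟨i, Or.inr ⟨t, ht, by rw [hp', hu]⟩⟩)
  · exact rot_null nu1 puniq hpt fun v w => hTrv' v w (S + T)
  · have hb : (ν.prod ν) (Cc Φ T 0 F) < ENNReal.ofReal
        ((ν (K0 Φ T F) * ν (K0 Φ T F)).toReal + 1) := by
      have hfin : ν (K0 Φ T F) * ν (K0 Φ T F) ≠ ⊤ := ENNReal.mul_ne_top hK0f.ne hK0f.ne
      calc (ν.prod ν) (Cc Φ T 0 F) ≤ (ν.prod ν) (K0 Φ T F ×ˢ K0 Φ T F) :=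
            measure_mono (Cc_sub Φ T 0 F)
        _ = ENNReal.ofReal ((ν (K0 Φ T F) * ν (K0 Φ T F)).toReal) := by
            rw [Measure.prod_prod, ENNReal.ofReal_toReal hfin]
        _ < _ := by
            rw [ENNReal.ofReal_lt_ofReal_iff (by positivity)]
            linarith
    obtain ⟨η, hη, hev⟩ := hN F hFc Subset.rfl _ hb
    exact ⟨C * ((ν (K0 Φ T F) * ν (K0 Φ T F)).toReal + 1), η, hη, hev⟩
  · intro δ hδ
    have hbp : 0 < δ / C := div_pos hδ hC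
    set b : ℝ := δ / C with hbdef
    set m : ℝ := (ν (K0 Φ T F)).toReal with hm
    have hm0 : 0 ≤ m := ENNReal.toReal_nonneg
    have hmK : ν (K0 Φ T F) = ENNReal.ofReal m := (ENNReal.ofReal_toReal hK0f.ne).symm
    set q : ℝ := b / (2 * m + 1) with hq
    have hqp : 0 < q := by positivity
    let R : ℕ → Set SL(2, ℝ) := fun N =>
      (K0 Φ T F ∩ ⋃ i, Sg Φ S (v i)) \ ⋃ j ∈ Finset.range N, Sg Φ S (v j)
    have hRm : ∀ N, MeasurableSet (R N) := fun N =>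
      (hK0m.inter (MeasurableSet.iUnion hSgm)).diff
        ((Finset.range N).measurableSet_biUnion fun j _ => hSgm j)
    have hRa : Antitone R := by
      intro N M hNM w hw
      refine ⟨hw.1, fun h => hw.2 ?_⟩
      obtain ⟨j, hj, hwj⟩ := mem_iUnion₂.1 h
      exact mem_iUnion₂.2 ⟨j, Finset.mem_range.2 ((Finset.mem_range.1 hj).trans_le hNM), hwj⟩
    have hRe : (⋂ N, R N) = ∅ := by
      refine eq_empty_iff_forall_notMem.2 fun w hw => ?_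
      obtain ⟨i, hi⟩ := mem_iUnion.1 ((mem_iInter.1 hw 0).1.2)
      exact (mem_iInter.1 hw (i + 1)).2
        (mem_iUnion₂.2 ⟨i, Finset.mem_range.2 (Nat.lt_succ_self i), hi⟩)
    have hRf : ∃ i, ν (R i) ≠ ⊤ :=
      ⟨0, ((measure_mono (fun w hw => hw.1.1)).trans_lt hK0f).ne⟩
    have hRt := tendsto_measure_iInter_atTop (μ := ν) (fun N => (hRm N).nullMeasurableSet) hRa hRf
    rw [hRe, measure_empty] at hRt
    have hpos : (0 : ℝ≥0∞) < ENNReal.ofReal q := ENNReal.ofReal_pos.2 hqp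
    obtain ⟨N, hNq⟩ := (hRt.eventually (gt_mem_nhds hpos)).exists
    refine ⟨N, fun F' hF' hF'F hdis => ?_⟩
    have hsub : Cc Φ T 0 F' ⊆ (Cc Φ T 0 F ∩
        {x | (∀ i, x.1 ∉ Sg Φ S (v i)) ∧ ∀ i, x.2 ∉ Sg Φ S (v i)}) ∪
        (R N ×ˢ K0 Φ T F ∪ K0 Φ T F ×ˢ R N) := by
      intro x hx
      have hxF := Cc_mono Φ T 0 hF'F hx
      obtain ⟨hx1, hx2⟩ := Cc_sub Φ T 0 F hxF
      obtain ⟨s, hs, t, ht, h1, h2, -⟩ := hx
      have hno1 : ∀ j ∈ Finset.range N, x.1 ∉ Sg Φ S (v j) := by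
        intro j hj hxj
        exact disjoint_left.1 hdis h1
          (mem_iUnion₂.2 ⟨j, hj, arc_of_Sg hΦ (fun g => (pneg g).1) hs hxj⟩)
      have hno2 : ∀ j ∈ Finset.range N, x.2 ∉ Sg Φ S (v j) := by
        intro j hj hxj
        exact disjoint_left.1 hdis (h2 ▸ h1)
          (mem_iUnion₂.2 ⟨j, hj, arc_of_Sg hΦ (fun g => (pneg g).1) ht hxj⟩)
      by_cases ha : ∀ i, x.1 ∉ Sg Φ S (v i)
      · by_cases hb : ∀ i, x.2 ∉ Sg Φ S (v i)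
        · exact Or.inl ⟨hxF, ha, hb⟩
        · push Not at hb
          obtain ⟨i, hi⟩ := hb
          refine Or.inr (Or.inr ⟨hx1, ⟨hx2, mem_iUnion.2 ⟨i, hi⟩⟩, fun h => ?_⟩)
          obtain ⟨j, hj, hwj⟩ := mem_iUnion₂.1 h
          exact hno2 j hj hwj
      · push Not at ha
        obtain ⟨i, hi⟩ := ha
        refine Or.inr (Or.inl ⟨⟨⟨hx1, mem_iUnion.2 ⟨i, hi⟩⟩, fun h => ?_⟩, hx2⟩)
        obtain ⟨j, hj, hwj⟩ := mem_iUnion₂.1 h
        exact hno1 j hj hwj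
    have hlt : (ν.prod ν) (Cc Φ T 0 F') < ENNReal.ofReal b := by
      have hNq' : ν (R N) ≤ ENNReal.ofReal q := le_of_lt hNq
      calc (ν.prod ν) (Cc Φ T 0 F') ≤ _ := measure_mono hsub
        _ ≤ _ := measure_union_le _ _
        _ ≤ 0 + (ν (R N) * ν (K0 Φ T F) + ν (K0 Φ T F) * ν (R N)) := by
            refine add_le_add hnull.le ((measure_union_le _ _).trans ?_)
            rw [Measure.prod_prod, Measure.prod_prod]
        _ ≤ 0 + (ENNReal.ofReal q * ENNReal.ofReal m + ENNReal.ofReal m * ENNReal.ofReal q) := by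
            rw [hmK]
            gcongr
        _ = ENNReal.ofReal (q * m + m * q) := by
            rw [zero_add, ← ENNReal.ofReal_mul hqp.le, ← ENNReal.ofReal_mul hm0,
              ← ENNReal.ofReal_add (by positivity) (by positivity)]
        _ < ENNReal.ofReal b := by
            rw [ENNReal.ofReal_lt_ofReal_iff hbp]
            have h1 : q * (2 * m + 1) = b := by
              rw [hq]
              field_simp
            nlinarith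
    obtain ⟨η, hη, hev⟩ := hN F' hF' hF'F b hlt
    refine ⟨η, hη, ?_⟩
    have hCb : C * b = δ := by
      rw [hbdef]
      field_simp
    rw [hCb] at hev
    exact hev

end U3
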