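import Pool.Agent.U3.StmtsG

/-!
The geometric input for the local measure.
-/

open MeasureTheory Filter Topology Set
open UpperHalfPlane hiding I
open scoped ContDiff MatrixGroups

namespace U3

open QE QE.NC QJ

noncomputable section

namespace GEV

lemma muV_le [MeasurableSpace SL(2, ℝ)] [BorelSpace SL(2, ℝ)] (hpG : Continuous pG)
    (ν : Measure SL(2, ℝ)) {F : Set ℂ} (hF : IsCompact F) {f : ℂ → ℝ} {M : ℝ}
    (hM : ∀ z ∈ F, f z ≤ M) : muV ν F f ≤ ENNReal.ofReal M • ν := by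
  unfold muV
  have hmeas : MeasurableSet (pG ⁻¹' F) := hF.isClosed.measurableSet.preimage hpG.measurable
  calc (ν.restrict (pG ⁻¹' F)).withDensity (fun g => ENNReal.ofReal (f (pG g)))
      ≤ (ν.restrict (pG ⁻¹' F)).withDensity (fun _ => ENNReal.ofReal M) := by
        refine withDensity_mono ?_
        refine (ae_restrict_iff' hmeas).2 (Filter.Eventually.of_forall fun g hg => ?_)
        exact ENNReal.ofReal_le_ofReal (hM _ hg)
    _ = ENNReal.ofReal M • (ν.restrict (pG ⁻¹' F)) := withDensity_const _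
    _ ≤ ENNReal.ofReal M • ν := by
        refine Measure.le_iff.2 fun s _ => ?_
        rw [Measure.smul_apply, Measure.smul_apply]
        exact mul_le_mul_right (Measure.restrict_le_self s) _

lemma prod_le [MeasurableSpace SL(2, ℝ)] (μ ν : Measure SL(2, ℝ)) [SFinite ν] {c : ENNReal}
    (h : μ ≤ c • ν) (S : Set (SL(2, ℝ) × SL(2, ℝ))) :
    (μ.prod μ) S ≤ c * (c * (ν.prod ν) S) := by
  have h1 : μ.prod μ ≤ (c • ν).prod (c • ν) := Measure.prod_mono h h
  have h2 : (c • ν).prod (c • ν) = c • (c • (ν.prod ν)) := by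
    rw [Measure.prod_smul_left, Measure.prod_smul_right]
  calc (μ.prod μ) S ≤ ((c • ν).prod (c • ν)) S := h1 S
    _ = c * (c * (ν.prod ν) S) := by
      rw [h2, Measure.smul_apply, Measure.smul_apply, smul_eq_mul, smul_eq_mul]

lemma bound {x : ENNReal} {M b e : ℝ} (hM : 0 ≤ M) (hb : 0 ≤ b) (he : 0 ≤ e)
    (h : x ≤ ENNReal.ofReal M * (ENNReal.ofReal M * ENNReal.ofReal (b * e))) :
    x.toReal ≤ M * (M * b) * e := by
  have h1 : ENNReal.ofReal M * (ENNReal.ofReal M * ENNReal.ofReal (b * e))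
      = ENNReal.ofReal (M * (M * b) * e) := by
    rw [← ENNReal.ofReal_mul hM, ← ENNReal.ofReal_mul hM]
    congr 1; ring
  rw [h1] at h
  exact ENNReal.toReal_le_of_le_ofReal (by positivity) h

end GEV

open GEV in
theorem stmtGev (hGeo : StmtGeo) (hRot : StmtRot) : StmtGev := by
  intro _ _ Γ ρ Φ ν _ _ hFac hlap hfl hinv F V f hF hFU hVF hf hf0
  obtain ⟨G, B, h1, h2, h3, h4, ⟨b, η, hη, h5⟩, h6⟩ := hGeo Γ ρ Φ ν hFac hlap hfl hinv F hF hFU
  have hpG : Continuous pG := hRot.1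
  obtain ⟨M₀, hM₀⟩ := hF.exists_bound_of_continuousOn hf.continuousOn
  set M : ℝ := max M₀ 0 with hMdef
  have hM0 : 0 ≤ M := le_max_right _ _
  have hM : ∀ z ∈ F, f z ≤ M := fun z hz =>
    (le_abs_self _).trans ((hM₀ z hz).trans (le_max_left _ _))
  have hle : muV ν F f ≤ ENNReal.ofReal M • ν := muV_le hpG ν hF hM
  have hnull : ∀ S : Set SL(2, ℝ), ν S = 0 → muV ν F f S = 0 := by
    intro S hS
    refine le_antisymm ((hle S).trans ?_) zero_le
    rw [Measure.smul_apply, hS, smul_zero]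
  refine ⟨G, B, ⟨h1, h2, fun N => hnull _ (h3 N), hnull _ h4, ?_, ?_⟩⟩
  · intro K hK hKV
    refine ⟨M * (M * |b|), η, hη, ?_⟩
    filter_upwards [h5] with ε hε
    refine bound hM0 (abs_nonneg b) (sq_nonneg ε) ?_
    refine (prod_le _ ν hle _).trans ?_
    gcongr
    calc (ν.prod ν) {x | pG x.1 ∈ K ∧ ‖pG x.1 - pG x.2‖ ≤ ε ∧ ‖w3 * uG x.1 - uG x.2‖ ≤ η}
        ≤ (ν.prod ν) (Nn ε η F) := measure_mono fun x hx => ⟨hVF (hKV hx.1), hx.2⟩
      _ ≤ ENNReal.ofReal (b * ε ^ 2) := hε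
      _ ≤ ENNReal.ofReal (|b| * ε ^ 2) := by
          refine ENNReal.ofReal_le_ofReal ?_
          gcongr
          exact le_abs_self b
  · intro K hK hKV δ hδ
    have hδ' : 0 < δ / (M * M + 1) := by positivity
    obtain ⟨N, hN⟩ := h6 _ hδ'
    refine ⟨N, fun K' hK' hK'K hdis => ?_⟩
    obtain ⟨η', hη', h7⟩ := hN K' hK' (hK'K.trans (hKV.trans hVF)) hdis
    refine ⟨η', hη', ?_⟩
    filter_upwards [h7] with ε hε
    have h8 : ((muV ν F f).prod (muV ν F f)) {x | pG x.1 ∈ K' ∧ ‖pG x.1 - pG x.2‖ ≤ ε ∧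
        ‖w3 * uG x.1 - uG x.2‖ ≤ η'} ≤ ENNReal.ofReal M * (ENNReal.ofReal M *
          ENNReal.ofReal (δ / (M * M + 1) * ε ^ 2)) := by
      refine (prod_le _ ν hle _).trans ?_
      gcongr
      exact hε
    refine (bound hM0 hδ'.le (sq_nonneg ε) h8).trans ?_
    have h9 : M * (M * (δ / (M * M + 1))) ≤ δ := by
      rw [show M * (M * (δ / (M * M + 1))) = δ * (M * M) / (M * M + 1) by ring]
      rw [div_le_iff₀ (by positivity)]
      nlinarith [mul_nonneg hM0 hM0]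
    gcongr

end

end U3
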