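import Pool.Agent.U3.StmtsG
import Pool.Agent.NCV.Inf

/-!
INF: infinitesimal invariance from the transport identities
-/

open MeasureTheory Filter Topology Set
open UpperHalfPlane hiding I
open scoped ContDiff MatrixGroups ENNReal NNReal

namespace U3

open QE QE.NC QJ

noncomputable section

namespace INF

variable {Γ : Subgroup SL(2, ℝ)} {ρ : ℍ → ℝ}

lemma XV_cont (h : Fac Γ ρ) : Continuous (XV ρ) := by
  have hproj : Continuous fun g : SL(2, ℝ) => g • UpperHalfPlane.I :=
    continuous_id.smul continuous_const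
  have h1 : Continuous fun g : SL(2, ℝ) => ρ (g • UpperHalfPlane.I) := h.cont.comp hproj
  have h2 : Continuous fun g : SL(2, ℝ) => Vq (iota g) := continuous_Vq.comp iota_continuous
  have h3 : Continuous fun g : SL(2, ℝ) => Complex.I • iota g := by
    exact Continuous.smul (f := fun _ : SL(2, ℝ) => Complex.I) continuous_const iota_continuous
  unfold XV
  exact (Real.continuous_exp.comp h1.neg).smul (h2.add ((h.contPr.div_const 2).smul h3))

lemma XV_neg (ρ : ℍ → ℝ) (g : SL(2, ℝ)) : XV ρ (-g) = -XV ρ g := by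
  have hsm : (-g) • UpperHalfPlane.I = g • UpperHalfPlane.I := by
    apply UpperHalfPlane.ext
    rw [smul_I_eq, smul_I_eq, iota_neg]
    simp
  have h5 : Vq (-iota g) = -Vq (iota g) := by
    unfold Vq
    refine Prod.ext ?_ ?_ <;> simp [neg_div]
  unfold XV
  rw [hsm, Pr_neg, iota_neg, h5, smul_neg, smul_neg, ← neg_add, smul_neg]

/-- the derivative of an even component along the geodesic field -/
lemma even_eq (h : Fac Γ ρ) (m : ℤ) {H : ℂ × ℂ → ℂ} (hH : ContDiff ℝ ∞ H)
    (ht : Test UH (zet (Hk (2 * m) H))) (g : SL(2, ℝ)) :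
    fderiv ℝ (Hk (2 * m) H) (iota g) (XV ρ g) = Complex.I ^ m *
      ((aR ρ (pG g) * dz (zet (Hk (2 * m) H)) (pG g)
          - m * dz (aR ρ) (pG g) * zet (Hk (2 * m) H) (pG g)) * (starRingEnd ℂ) (dirG g) ^ (m - 1)
        + (aR ρ (pG g) * dzb (zet (Hk (2 * m) H)) (pG g)
          + m * dzb (aR ρ) (pG g) * zet (Hk (2 * m) H) (pG g))
          * (starRingEnd ℂ) (dirG g) ^ (m + 1)) := by
  have h1 := field_even h m hH ht g
  unfold Wf at h1
  rw [map_smul, Complex.real_smul, om_pow, om_pow] at h1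
  have hro : ρ (g • UpperHalfPlane.I) = ro ρ ((g • UpperHalfPlane.I : ℍ) : ℂ) := (ro_coe ρ _).symm
  unfold TA TB E2 at h1
  rw [hro] at h1
  have he : ((Real.exp (2 * ro ρ ((g • UpperHalfPlane.I : ℍ) : ℂ)) : ℝ) : ℂ) ≠ 0 := by
    exact_mod_cast (Real.exp_pos _).ne'
  have hI : Complex.I ^ (m + 1) = Complex.I ^ m * Complex.I := zpow_add_one₀ Complex.I_ne_zero m
  have hI' : Complex.I ^ (m - 1) = Complex.I ^ m * (-Complex.I) := by
    rw [zpow_sub_one₀ Complex.I_ne_zero, Complex.inv_I]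
  rw [hI, hI', map_zpow₀, map_zpow₀] at h1
  refine mul_left_cancel₀ he ?_
  rw [h1]
  unfold pG
  generalize (starRingEnd ℂ) (dirG g) ^ (m + 1) = A
  generalize (starRingEnd ℂ) (dirG g) ^ (m - 1) = B
  generalize ((Real.exp (2 * ro ρ ((g • UpperHalfPlane.I : ℍ) : ℂ)) : ℝ) : ℂ) = e
  generalize Complex.I ^ m = J
  linear_combination (-(J * A * e * (aR ρ ((g • UpperHalfPlane.I : ℍ) : ℂ) *
    dzb (zet (Hk (2 * m) H)) ((g • UpperHalfPlane.I : ℍ) : ℂ) +
      m * dzb (aR ρ) ((g • UpperHalfPlane.I : ℍ) : ℂ) *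
        zet (Hk (2 * m) H) ((g • UpperHalfPlane.I : ℍ) : ℂ))) -
    J * B * e * (aR ρ ((g • UpperHalfPlane.I : ℍ) : ℂ) *
    dz (zet (Hk (2 * m) H)) ((g • UpperHalfPlane.I : ℍ) : ℂ) -
      m * dz (aR ρ) ((g • UpperHalfPlane.I : ℍ) : ℂ) *
        zet (Hk (2 * m) H) ((g • UpperHalfPlane.I : ℍ) : ℂ))) * Complex.I_sq

end INF

/-- INF -/
theorem stmtInfU : StmtInfU := by
  intro _ _ Γ ρ ν _ hF hneg htr H hH hc
  refine field_of_Hk (INF.XV_cont hF) hH hc fun k => ?_
  obtain ⟨R, hR0, hR⟩ : ∃ R : ℝ, 0 < R ∧ ∀ q, R < ‖q‖ → H q = 0 := by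
    obtain ⟨R, hR⟩ := (IsCompact.isBounded hc).exists_norm_le
    refine ⟨max R 1, lt_max_of_lt_right one_pos, fun q hq => ?_⟩
    apply image_eq_zero_of_notMem_tsupport
    intro h
    exact absurd (hR q h) (not_le.2 (lt_of_le_of_lt (le_max_left _ _) hq))
  rcases Int.even_or_odd' k with ⟨m, rfl | rfl⟩
  · -- even components
    have ht : Test UH (zet (Hk (2 * m) H)) :=
      zet_test (Hk_smooth _ hH) hR0 fun q hq => Hk_zero_of hR _ hq
    simp only [INF.even_eq hF m hH ht]
    rw [integral_const_mul, htr m _ ht, mul_zero]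
  · -- odd components
    set K := Hk (2 * m + 1) H with hK
    have hodd : ∀ q, K (-q) = -K q := Hk_neg ⟨m, rfl⟩ H
    have hKd : Differentiable ℝ K := (Hk_smooth _ hH).differentiable (by simp)
    have hXX : ∀ g : SL(2, ℝ), fderiv ℝ K (iota (-g)) (XV ρ (-g)) =
        -fderiv ℝ K (iota g) (XV ρ g) := by
      intro g
      set q := iota g with hq
      have h1 : HasFDerivAt (fun q => K (-q)) (-(fderiv ℝ K (-q))) q := by
        have := (hKd (-q)).hasFDerivAt.comp q (hasFDerivAt_id q).neg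
        refine this.congr_fderiv ?_
        ext v <;> simp
      have h2 : HasFDerivAt (fun q => K (-q)) (-(fderiv ℝ K q)) q := by
        have := (hKd q).hasFDerivAt.neg
        exact this.congr_of_eventuallyEq (Eventually.of_forall fun q => hodd q)
      have h3 := h1.unique h2
      have h4 : fderiv ℝ K (-q) = fderiv ℝ K q := neg_injective h3
      rw [iota_neg, ← hq, h4, INF.XV_neg, map_neg]
    have hme : MeasurableEmbedding fun g : SL(2, ℝ) => -g := negH.measurableEmbedding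
    have h1 : ∫ g, fderiv ℝ K (iota g) (XV ρ g) ∂ν = -∫ g, fderiv ℝ K (iota g) (XV ρ g) ∂ν := by
      conv_lhs => rw [← hneg]
      rw [hme.integral_map, integral_congr_ae (ae_of_all _ hXX)]
      exact integral_neg _
    have h2 : (2 : ℂ) * ∫ g, fderiv ℝ K (iota g) (XV ρ g) ∂ν = 0 := by
      linear_combination h1
    exact (mul_eq_zero.1 h2).resolve_left two_ne_zero

end

end U3
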