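import Pool.Agent.U3.StmtsG
import Pool.Agent.NCV.Tools
import Pool.Agent.NCV.Atoms
import Pool.Agent.NCV.Lip
import Pool.Agent.NCV.Fl
import Pool.Agent.NCV.Alg
import Pool.Agent.NCV.Der

/-!
Third order statistics on surfaces of negative curvature: geodesics which cross two given geodesics
at 120 degrees are isolated.
-/

open MeasureTheory Filter Topology Set
open UpperHalfPlane hiding I
open scoped ContDiff MatrixGroups

namespace U3

namespace JAC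

open QE QE.NC QJ

theorem mv_ge {f : ℝ → ℝ} {p q m : ℝ} (hpq : p ≤ q)
    (h : ∀ t ∈ Icc p q, ∃ f' : ℝ, HasDerivAt f f' t ∧ m ≤ f') : m * (q - p) ≤ f q - f p := by
  refine Convex.mul_sub_le_image_sub_of_le_deriv (convex_Icc p q) ?_ ?_ ?_ p
    (left_mem_Icc.2 hpq) q (right_mem_Icc.2 hpq) hpq
  · intro t ht
    obtain ⟨f', hf, -⟩ := h t ht
    exact hf.continuousAt.continuousWithinAt
  · intro t ht
    obtain ⟨f', hf, -⟩ := h t (interior_subset ht)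
    exact hf.differentiableAt.differentiableWithinAt
  · intro t ht
    obtain ⟨f', hf, h0⟩ := h t (interior_subset ht)
    rw [hf.deriv]
    exact h0

theorem mv_abs {f : ℝ → ℝ} {p q m M : ℝ}
    (h : ∀ t ∈ uIcc p q, ∃ f' : ℝ, HasDerivAt f f' t ∧ |f' - m| ≤ M) :
    |f q - f p - m * (q - p)| ≤ M * |q - p| := by
  have h1 : ∀ t ∈ uIcc p q, HasDerivAt (fun s => f s - m * s) (deriv f t - m) t := by
    intro t ht
    obtain ⟨f', hf, -⟩ := h t ht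
    rw [hf.deriv]
    have h2 := hf.sub ((hasDerivAt_id t).const_mul m)
    rw [mul_one] at h2
    exact h2
  have h3 := (convex_uIcc p q).norm_image_sub_le_of_norm_hasDerivWithin_le
    (f := fun s => f s - m * s) (f' := fun t => deriv f t - m) (C := M)
    (fun t ht => (h1 t ht).hasDerivWithinAt) (fun t ht => by
      obtain ⟨f', hf, h0⟩ := h t ht
      rw [hf.deriv, Real.norm_eq_abs]
      exact h0) left_mem_uIcc right_mem_uIcc
  rw [Real.norm_eq_abs, Real.norm_eq_abs] at h3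
  have e : f q - m * q - (f p - m * p) = f q - f p - m * (q - p) := by ring
  rw [e] at h3
  exact h3

/-- the Jacobi equation: forward in time -/
theorem jac_pos {X Y : ℝ → ℝ} {k₀ E A t₀ t₁ l : ℝ} (hk : 0 ≤ k₀) (h1 : 0 ≤ t₁)
    (h10 : t₁ ≤ t₀)
    (hd : ∀ t ∈ Icc 0 t₀, ∃ x' y' k : ℝ, HasDerivAt X x' t ∧ HasDerivAt Y y' t ∧
      |x' - Y t| ≤ E ∧ |y' - k * X t| ≤ E ∧ k₀ ≤ k)
    (hX : ∀ t ∈ Icc 0 t₀, |X t| ≤ A) (hY : ∀ t ∈ Icc 0 t₀, |Y t| ≤ A) (hl : 0 ≤ l)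
    (hl1 : l + t₁ * (A + E) ≤ |X 0|) :
    k₀ * l ^ 2 * t₁ ≤ |X t₀ * Y t₀| + |X 0 * Y 0| + 2 * E * A * t₀ := by
  have h0 : 0 ≤ t₀ := h1.trans h10
  have hA : 0 ≤ A := (abs_nonneg _).trans (hX 0 (left_mem_Icc.2 h0))
  have hE : 0 ≤ E := by
    obtain ⟨x', y', k, -, -, h, -⟩ := hd 0 (left_mem_Icc.2 h0)
    exact (abs_nonneg _).trans h
  have hF : ∀ t ∈ Icc 0 t₀, ∃ f' : ℝ, HasDerivAt (fun s => X s * Y s) f' t ∧
      k₀ * X t ^ 2 - 2 * E * A ≤ f' := by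
    intro t ht
    obtain ⟨x', y', k, hx, hy, h3, h4, h5⟩ := hd t ht
    refine ⟨x' * Y t + X t * y', hx.mul hy, ?_⟩
    have e1 : |(x' - Y t) * Y t| ≤ E * A := by
      rw [abs_mul]
      exact mul_le_mul h3 (hY t ht) (abs_nonneg _) hE
    have e2 : |(y' - k * X t) * X t| ≤ E * A := by
      rw [abs_mul]
      exact mul_le_mul h4 (hX t ht) (abs_nonneg _) hE
    have e3 : x' * Y t + X t * y' = Y t ^ 2 + k * X t ^ 2 + (x' - Y t) * Y t
      + (y' - k * X t) * X t := by ring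
    have e4 : k₀ * X t ^ 2 ≤ k * X t ^ 2 := mul_le_mul_of_nonneg_right h5 (sq_nonneg _)
    rw [e3]
    linarith [sq_nonneg (Y t), neg_le_of_abs_le e1, neg_le_of_abs_le e2]
  have hXl : ∀ t ∈ Icc 0 t₁, l ≤ |X t| := by
    intro t ht
    have h2 : |X t - X 0 - 0 * (t - 0)| ≤ (A + E) * |t - 0| := by
      refine mv_abs fun s hs => ?_
      rw [uIcc_of_le ht.1] at hs
      have hs' : s ∈ Icc 0 t₀ := ⟨hs.1, hs.2.trans (ht.2.trans h10)⟩
      obtain ⟨x', y', k, hx, -, h3, -⟩ := hd s hs'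
      refine ⟨x', hx, ?_⟩
      calc |x' - 0| = |(x' - Y s) + Y s| := by congr 1; ring
        _ ≤ |x' - Y s| + |Y s| := abs_add_le _ _
        _ ≤ A + E := by linarith [hY s hs']
    have h3 : (A + E) * |t - 0| ≤ t₁ * (A + E) := by
      rw [sub_zero, abs_of_nonneg ht.1, mul_comm]
      exact mul_le_mul_of_nonneg_right ht.2 (by linarith)
    have h4 : |X 0| ≤ |X t| + |X t - X 0 - 0 * (t - 0)| := by
      calc |X 0| = |X t - (X t - X 0 - 0 * (t - 0))| := by congr 1; ring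
        _ ≤ _ := abs_sub _ _
    linarith
  have hF1 : (k₀ * l ^ 2 - 2 * E * A) * (t₁ - 0) ≤ X t₁ * Y t₁ - X 0 * Y 0 := by
    refine mv_ge (f := fun s => X s * Y s) h1 fun t ht => ?_
    obtain ⟨f', hf, h2⟩ := hF t ⟨ht.1, ht.2.trans h10⟩
    refine ⟨f', hf, ?_⟩
    have h3 : l ^ 2 ≤ X t ^ 2 := by
      rw [← sq_abs (X t)]
      exact pow_le_pow_left₀ hl (hXl t ht) 2
    have h4 := mul_le_mul_of_nonneg_left h3 hk
    linarith
  have hF2 : (- (2 * E * A)) * (t₀ - t₁) ≤ X t₀ * Y t₀ - X t₁ * Y t₁ := by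
    refine mv_ge (f := fun s => X s * Y s) h10 fun t ht => ?_
    obtain ⟨f', hf, h2⟩ := hF t ⟨h1.trans ht.1, ht.2⟩
    refine ⟨f', hf, ?_⟩
    have h4 := mul_nonneg hk (sq_nonneg (X t))
    linarith
  have h5 := le_abs_self (X t₀ * Y t₀)
  have h6 := neg_abs_le (X 0 * Y 0)
  nlinarith

/-- the Jacobi equation: both directions -/
theorem jac_both {X Y : ℝ → ℝ} {k₀ E A t₀ t₁ l : ℝ} (hk : 0 ≤ k₀) (h1 : 0 ≤ t₁)
    (h10 : t₁ ≤ |t₀|)
    (hd : ∀ t, |t| ≤ |t₀| → ∃ x' y' k : ℝ, HasDerivAt X x' t ∧ HasDerivAt Y y' t ∧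
      |x' - Y t| ≤ E ∧ |y' - k * X t| ≤ E ∧ k₀ ≤ k)
    (hX : ∀ t, |t| ≤ |t₀| → |X t| ≤ A) (hY : ∀ t, |t| ≤ |t₀| → |Y t| ≤ A) (hl : 0 ≤ l)
    (hl1 : l + t₁ * (A + E) ≤ |X 0|) :
    k₀ * l ^ 2 * t₁ ≤ |X t₀ * Y t₀| + |X 0 * Y 0| + 2 * E * A * |t₀| := by
  rcases le_total 0 t₀ with h | h
  · rw [abs_of_nonneg h] at *
    have hm : ∀ t ∈ Icc 0 t₀, |t| ≤ t₀ := fun t ht => by rw [abs_of_nonneg ht.1]; exact ht.2
    exact jac_pos hk h1 h10 (fun t ht => hd t (hm t ht)) (fun t ht => hX t (hm t ht))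
      (fun t ht => hY t (hm t ht)) hl hl1
  · rw [abs_of_nonpos h] at *
    have hm : ∀ t ∈ Icc 0 (-t₀), |(-t)| ≤ -t₀ := fun t ht => by
      rw [abs_neg, abs_of_nonneg ht.1]
      exact ht.2
    have key := jac_pos (X := fun t => X (-t)) (Y := fun t => -Y (-t)) (E := E) (A := A) (l := l)
      hk h1 h10 (fun t ht => ?_) (fun t ht => hX (-t) (hm t ht)) (fun t ht => ?_) hl ?_
    · simp only [neg_neg, neg_zero, mul_neg, abs_neg] at key ⊢
      exact key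
    · obtain ⟨x', y', k, hx, hy, h3, h4, h5⟩ := hd (-t) (hm t ht)
      refine ⟨-x', y', k, ?_, ?_, ?_, h4, h5⟩
      · have := hx.comp t (hasDerivAt_neg t)
        rw [mul_neg, mul_one] at this
        exact this
      · have := (hy.comp t (hasDerivAt_neg t)).neg
        rw [mul_neg, mul_one, neg_neg] at this
        exact this
      · rw [show -x' - -Y (-t) = -(x' - Y (-t)) by ring, abs_neg]
        exact h3
    · rw [abs_neg]
      exact hY (-t) (hm t ht)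
    · rw [neg_zero]
      exact hl1


theorem ev_small (K : ℝ) {δ : ℝ} (hδ : 0 < δ) : ∀ᶠ ε in 𝓝[>] (0 : ℝ), K * ε < δ := by
  have h : Tendsto (fun ε : ℝ => K * ε) (𝓝[>] 0) (𝓝 (K * 0)) :=
    ((continuous_const.mul continuous_id).tendsto 0).mono_left nhdsWithin_le_nhds
  rw [mul_zero] at h
  exact h.eventually (gt_mem_nhds hδ)

section sys

variable {Γ : Subgroup SL(2, ℝ)} {Φ : ℝ → SL(2, ℝ) → SL(2, ℝ)}
  {x y τ : SL(2, ℝ) → SL(2, ℝ) → ℝ} {κ : SL(2, ℝ) → ℝ} {c r L k₀ k₁ : ℝ}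

/-- derivative at a time `t` from the derivative at time `0` -/
theorem der_at (S : PairSys Γ Φ x y τ κ c r L k₀ k₁) {f : SL(2, ℝ) → SL(2, ℝ) → ℝ}
    {v w : SL(2, ℝ)} {t d : ℝ}
    (h : HasDerivAt (fun s => f (Φ s (Φ t v)) (Φ s (Φ t w))) d 0) :
    HasDerivAt (fun s => f (Φ s v) (Φ s w)) d t := by
  have h1 : HasDerivAt (fun s => f (Φ s (Φ t v)) (Φ s (Φ t w))) d (t - t) := by
    rw [sub_self]
    exact h
  have h2 := HasDerivAt.comp_sub_const t t h1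
  simp only [← S.add, sub_add_cancel] at h2
  exact h2

theorem der_at2 (S : PairSys Γ Φ x y τ κ c r L k₀ k₁) {f : SL(2, ℝ) → ℝ}
    {w : SL(2, ℝ)} {t d : ℝ} (h : HasDerivAt (fun s => f (Φ s (Φ t w))) d 0) :
    HasDerivAt (fun s => f (Φ s w)) d t := by
  have h1 : HasDerivAt (fun s => f (Φ s (Φ t w))) d (t - t) := by
    rw [sub_self]
    exact h
  have h2 := HasDerivAt.comp_sub_const t t h1
  simp only [← S.add, sub_add_cancel] at h2
  exact h2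

theorem key (S : PairSys Γ Φ x y τ κ c r L k₀ k₁) {T C h τ₀ : ℝ} (hT : 0 < T) (hC : 0 ≤ C)
    (hh : 4 / 5 ≤ h) (hh1 : h ≤ 1) (h0 : τ₀ ≠ 0) (hτ : |τ₀| ≤ T) :
    ∃ ε : ℝ, 0 < ε ∧ ∀ a b c' : ℝ, a ≠ 0 → |a| ≤ ε → |b| ≤ ε → |c'| ≤ ε →
      ∀ w w' : SL(2, ℝ), dd w w' ≤ r → |x w w' + h * a| ≤ C * a ^ 2 → |y w w'| ≤ C * a ^ 2 →
      |τ w w' + a / 2| ≤ C * a ^ 2 →
      |x (Φ τ₀ w) (Φ (τ₀ + b) w') + h * c'| ≤ C * c' ^ 2 →
      |y (Φ τ₀ w) (Φ (τ₀ + b) w')| ≤ C * c' ^ 2 →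
      |τ (Φ τ₀ w) (Φ (τ₀ + b) w') + c' / 2| ≤ C * c' ^ 2 → False := by
  have hc := S.one_le
  have hc0 : 0 < c := by linarith
  have hh0 : 0 ≤ h := by linarith
  have hr := S.rpos
  have hk := S.kpos
  set M : ℝ := c * Real.exp (L * T) with hM
  have hM1 : 0 ≤ M := by positivity
  set K1 : ℝ := c * (2 + 3 * C) with hK1
  have hK10 : 0 ≤ K1 := by positivity
  set K2 : ℝ := M * K1 with hK2
  have hK20 : 0 ≤ K2 := by positivity
  set K3 : ℝ := c * K2 with hK3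
  have hK30 : 0 ≤ K3 := by positivity
  set P : ℝ := c * K2 ^ 2 with hP
  have hP0 : 0 ≤ P := by positivity
  set K4 : ℝ := c * (K2 + c) with hK4
  have hK40 : 0 ≤ K4 := by positivity
  set K6 : ℝ := 4 * C * (K3 + 1) ^ 2 + c * K4 * ((2 * K3 + 4) * (2 * K3 + 3)) with hK6
  have hK60 : 0 ≤ K6 := by positivity
  set K8 : ℝ := 2 * P * K3 * T + K3 * K6 + K3 * C with hK8
  have hK80 : 0 ≤ K8 := by positivity
  set t₁ : ℝ := min |τ₀| (1 / (5 * (K3 + P + 1))) with ht₁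
  have ht₁0 : 0 < t₁ := lt_min (abs_pos.2 h0) (by positivity)
  have ht₁1 : t₁ * (K3 + P) ≤ 1 / 5 := by
    have h1 : t₁ ≤ 1 / (5 * (K3 + P + 1)) := min_le_right _ _
    have h2 : t₁ * (5 * (K3 + P + 1)) ≤ 1 := by
      rwa [le_div_iff₀ (by positivity)] at h1
    have h3 : t₁ * (5 * (K3 + P + 1)) = 5 * (t₁ * (K3 + P)) + 5 * t₁ := by ring
    linarith
  have hself : ∀ᶠ ε in 𝓝[>] (0 : ℝ), 0 < ε := self_mem_nhdsWithin
  obtain ⟨ε, e0, e1, e2, e3, e4, e5, e6, e7, e8⟩ := (hself.and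
    ((ev_small 1 one_pos).and ((ev_small K2 hr).and ((ev_small (2 * K4) hr).and
    ((ev_small c hr).and ((ev_small C (δ := 1 / 10) (by norm_num)).and
    ((ev_small (2 * c * K4) (δ := 1 / 10) (by norm_num)).and
    ((ev_small (T * P) (δ := 1 / 10) (by norm_num)).and
    (ev_small K8 (δ := t₁ * k₀ / 4) (by positivity)))))))))).exists
  refine ⟨ε, e0, ?_⟩
  intro a b c' ha hae hbe hce w w' hdr hx hy ht hx2 hy2 ht2
  have hA := abs_nonneg a
  have hB := abs_nonneg b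
  have hCc := abs_nonneg c'
  have hA0 : 0 < |a| := abs_pos.2 ha
  have hA1 : |a| ≤ 1 := by linarith
  have ha2 : a ^ 2 = |a| * |a| := by rw [← sq_abs, sq]
  have hc2 : c' ^ 2 = |c'| * |c'| := by rw [← sq_abs, sq]
  have hCa : C * |a| ≤ 1 / 10 := by
    have := mul_le_mul_of_nonneg_left hae hC
    linarith
  have hCc' : C * |c'| ≤ 1 / 10 := by
    have := mul_le_mul_of_nonneg_left hce hC
    linarith
  have hCa2 : C * a ^ 2 ≤ 1 / 10 * |a| := by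
    rw [ha2, ← mul_assoc]
    exact mul_le_mul_of_nonneg_right hCa hA
  have hCc2 : C * c' ^ 2 ≤ 1 / 10 * |c'| := by
    rw [hc2, ← mul_assoc]
    exact mul_le_mul_of_nonneg_right hCc' hCc
  have haa : a ^ 2 ≤ |a| := by
    rw [ha2]
    exact mul_le_of_le_one_left hA hA1
  -- the distance
  have hD : dd w w' ≤ K1 * |a| := by
    have h1 := S.dle w w' hdr
    have h2 : |x w w'| ≤ C * |a| + |a| := by
      have h3 : |h * a| ≤ |a| := by
        rw [abs_mul, abs_of_nonneg hh0]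
        exact mul_le_of_le_one_left hA hh1
      have h4 : |x w w'| ≤ |x w w' + h * a| + |h * a| := by
        calc |x w w'| = |(x w w' + h * a) - h * a| := by congr 1; ring
          _ ≤ _ := abs_sub _ _
      have h5 := mul_le_mul_of_nonneg_left haa hC
      linarith
    have h3 : |y w w'| ≤ C * |a| := hy.trans (mul_le_mul_of_nonneg_left haa hC)
    have h4 : |τ w w'| ≤ C * |a| + |a| / 2 := by
      have h3 : |a / 2| = |a| / 2 := by rw [abs_div, abs_of_pos (by norm_num : (0 : ℝ) < 2)]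
      have h4 : |τ w w'| ≤ |τ w w' + a / 2| + |a / 2| := by
        calc |τ w w'| = |(τ w w' + a / 2) - a / 2| := by congr 1; ring
          _ ≤ _ := abs_sub _ _
      have h5 := mul_le_mul_of_nonneg_left haa hC
      linarith
    have h6 : |x w w'| + |y w w'| + |τ w w'| ≤ (2 + 3 * C) * |a| := by linarith
    calc dd w w' ≤ c * (|x w w'| + |y w w'| + |τ w w'|) := h1
      _ ≤ c * ((2 + 3 * C) * |a|) := mul_le_mul_of_nonneg_left h6 hc0.le
      _ = K1 * |a| := by rw [hK1]; ring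
  -- the flow
  have hfl : ∀ t, |t| ≤ T → dd (Φ t w) (Φ t w') ≤ K2 * |a| := by
    intro t ht
    have h1 := S.dflow w w' t
    have h2 : Real.exp (L * |t|) ≤ Real.exp (L * T) :=
      Real.exp_le_exp.2 (mul_le_mul_of_nonneg_left ht S.Lnn)
    calc dd (Φ t w) (Φ t w') ≤ c * Real.exp (L * |t|) * dd w w' := h1
      _ ≤ c * Real.exp (L * T) * (K1 * |a|) := by
          refine mul_le_mul (mul_le_mul_of_nonneg_left h2 hc0.le) hD (dd_nonneg _ _) ?_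
          positivity
      _ = K2 * |a| := by rw [hK2, hM]; ring
  have hK2r : K2 * |a| ≤ r := by
    have := mul_le_mul_of_nonneg_left hae hK20
    linarith
  have hflr : ∀ t, |t| ≤ T → dd (Φ t w) (Φ t w') ≤ r := fun t ht => (hfl t ht).trans hK2r
  have hfl2 : ∀ t, |t| ≤ T → c * dd (Φ t w) (Φ t w') ^ 2 ≤ P * a ^ 2 := by
    intro t ht
    have h1 := pow_le_pow_left₀ (dd_nonneg _ _) (hfl t ht) 2
    calc c * dd (Φ t w) (Φ t w') ^ 2 ≤ c * (K2 * |a|) ^ 2 := mul_le_mul_of_nonneg_left h1 hc0.le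
      _ = P * a ^ 2 := by rw [hP, mul_pow, sq_abs]; ring
  have hd : ∀ t, |t| ≤ |τ₀| → ∃ x' y' k : ℝ, HasDerivAt (fun s => x (Φ s w) (Φ s w')) x' t ∧
      HasDerivAt (fun s => y (Φ s w) (Φ s w')) y' t ∧ |x' - y (Φ t w) (Φ t w')| ≤ P * a ^ 2 ∧
      |y' - k * x (Φ t w) (Φ t w')| ≤ P * a ^ 2 ∧ k₀ ≤ k := by
    intro t ht
    have ht' := ht.trans hτ
    obtain ⟨x', h1, h2⟩ := S.xd _ _ (hflr t ht')
    obtain ⟨y', h3, h4⟩ := S.yd _ _ (hflr t ht')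
    exact ⟨x', y', κ (Φ t w), der_at S h1, der_at S h3, h2.trans (hfl2 t ht'),
      h4.trans (hfl2 t ht'), S.klo _⟩
  have hXb : ∀ t, |t| ≤ |τ₀| → |x (Φ t w) (Φ t w')| ≤ K3 * |a| := by
    intro t ht
    have ht' := ht.trans hτ
    calc _ ≤ c * dd (Φ t w) (Φ t w') := S.xle _ _ (hflr t ht')
      _ ≤ c * (K2 * |a|) := mul_le_mul_of_nonneg_left (hfl t ht') hc0.le
      _ = K3 * |a| := by rw [hK3]; ring
  have hYb : ∀ t, |t| ≤ |τ₀| → |y (Φ t w) (Φ t w')| ≤ K3 * |a| := by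
    intro t ht
    have ht' := ht.trans hτ
    calc _ ≤ c * dd (Φ t w) (Φ t w') := S.yle _ _ (hflr t ht')
      _ ≤ c * (K2 * |a|) := mul_le_mul_of_nonneg_left (hfl t ht') hc0.le
      _ = K3 * |a| := by rw [hK3]; ring
  have hTd : |τ (Φ τ₀ w) (Φ τ₀ w') - τ (Φ 0 w) (Φ 0 w') - 0 * (τ₀ - 0)| ≤ P * a ^ 2 * |τ₀ - 0| := by
    refine mv_abs (f := fun s => τ (Φ s w) (Φ s w')) fun t ht => ?_
    have ht' : |t| ≤ |τ₀| := by
      have := abs_sub_left_of_mem_uIcc ht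
      simpa using this
    obtain ⟨t', h1, h2⟩ := S.td _ _ (hflr t (ht'.trans hτ))
    refine ⟨t', der_at S h1, ?_⟩
    rw [sub_zero]
    exact h2.trans (hfl2 t (ht'.trans hτ))
  rw [S.zero, S.zero, sub_zero, zero_mul, sub_zero] at hTd
  -- moving the second point
  set v := Φ τ₀ w with hv
  set z := Φ τ₀ w' with hz
  have hb' : Φ (τ₀ + b) w' = Φ b z := by rw [hz, ← S.add, add_comm]
  rw [hb'] at hx2 hy2 ht2
  have hmv : ∀ u, |u| ≤ |b| → dd v (Φ u z) ≤ K4 * (|a| + |b|) := by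
    intro u hu
    have h1 : dd z (Φ u z) ≤ c * |u| := S.dmove z u (by linarith)
    have h2 : c * |u| ≤ c * |b| := mul_le_mul_of_nonneg_left hu hc0.le
    have h3 : c * |b| ≤ r := by
      have := mul_le_mul_of_nonneg_left hbe hc0.le
      linarith
    have h4 := S.dtri v z (Φ u z) (hflr τ₀ hτ) ((h1.trans h2).trans h3)
    calc dd v (Φ u z) ≤ c * (dd v z + dd z (Φ u z)) := h4
      _ ≤ c * (K2 * |a| + c * |b|) :=
          mul_le_mul_of_nonneg_left (add_le_add (hfl τ₀ hτ) (h1.trans h2)) hc0.le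
      _ ≤ c * (K2 * |a| + c * |b|) + (c * (K2 * |b|) + c * (c * |a|)) := by
          refine le_add_of_nonneg_right ?_
          positivity
      _ = K4 * (|a| + |b|) := by
          rw [hK4]
          ring
  have hab : |a| + |b| ≤ 2 * ε := by linarith
  have hmr : K4 * (|a| + |b|) ≤ r := by
    have := mul_le_mul_of_nonneg_left hab hK40
    linarith
  have hub : ∀ u ∈ uIcc 0 b, |u| ≤ |b| := by
    intro u hu
    have := abs_sub_left_of_mem_uIcc hu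
    simpa using this
  have hxm : |x v (Φ b z) - x v (Φ 0 z) - 0 * (b - 0)| ≤ c * (K4 * (|a| + |b|)) * |b - 0| := by
    refine mv_abs (f := fun s => x v (Φ s z)) fun u hu => ?_
    have h1 := hmv u (hub u hu)
    obtain ⟨d, h2, h3⟩ := S.xm v (Φ u z) (h1.trans hmr)
    refine ⟨d, der_at2 S h2, ?_⟩
    rw [sub_zero]
    exact h3.trans (mul_le_mul_of_nonneg_left h1 hc0.le)
  have hym : |y v (Φ b z) - y v (Φ 0 z) - 0 * (b - 0)| ≤ c * (K4 * (|a| + |b|)) * |b - 0| := by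
    refine mv_abs (f := fun s => y v (Φ s z)) fun u hu => ?_
    have h1 := hmv u (hub u hu)
    obtain ⟨d, h2, h3⟩ := S.ym v (Φ u z) (h1.trans hmr)
    refine ⟨d, der_at2 S h2, ?_⟩
    rw [sub_zero]
    exact h3.trans (mul_le_mul_of_nonneg_left h1 hc0.le)
  have htm : |τ v (Φ b z) - τ v (Φ 0 z) - 1 * (b - 0)| ≤ c * (K4 * (|a| + |b|)) * |b - 0| := by
    refine mv_abs (f := fun s => τ v (Φ s z)) fun u hu => ?_
    have h1 := hmv u (hub u hu)
    obtain ⟨d, h2, h3⟩ := S.tm v (Φ u z) (h1.trans hmr)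
    exact ⟨d, der_at2 S h2, h3.trans (mul_le_mul_of_nonneg_left h1 hc0.le)⟩
  rw [S.zero, sub_zero] at hxm hym htm
  rw [zero_mul, sub_zero] at hxm hym
  rw [one_mul] at htm
  set R : ℝ := c * (K4 * (|a| + |b|)) * |b| with hR
  have hR1 : R ≤ 1 / 10 * |b| := by
    refine mul_le_mul_of_nonneg_right ?_ hB
    have h1 : c * (K4 * (|a| + |b|)) ≤ c * (K4 * (2 * ε)) :=
      mul_le_mul_of_nonneg_left (mul_le_mul_of_nonneg_left hab hK40) hc0.le
    linarith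
  have hPa : P * a ^ 2 * |τ₀| ≤ 1 / 10 * |a| := by
    have h1 : P * a ^ 2 * |τ₀| ≤ P * a ^ 2 * T := mul_le_mul_of_nonneg_left hτ (by positivity)
    have h2 : T * P * |a| ≤ 1 / 10 := by
      have := mul_le_mul_of_nonneg_left hae (mul_nonneg hT.le hP0)
      linarith
    have h3 : P * a ^ 2 * T = T * P * |a| * |a| := by rw [ha2]; ring
    have h4 := mul_le_mul_of_nonneg_right h2 hA
    linarith
  -- the comparison
  have hXτ := hXb τ₀ le_rfl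
  have q1 : 4 / 5 * |c'| ≤ K3 * |a| + 1 / 10 * |c'| + 1 / 10 * |b| := by
    have h1 : 4 / 5 * |c'| ≤ |h * c'| := by
      rw [abs_mul, abs_of_nonneg hh0]
      exact mul_le_mul_of_nonneg_right hh hCc
    have h2 : |h * c'| ≤ |x v (Φ b z) + h * c'| + |x v (Φ b z) - x v z| + |x v z| := by
      have e : h * c' = (x v (Φ b z) + h * c') - (x v (Φ b z) - x v z) - x v z := by ring
      calc |h * c'| = |(x v (Φ b z) + h * c') - (x v (Φ b z) - x v z) - x v z| := by rw [← e]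
        _ ≤ |(x v (Φ b z) + h * c') - (x v (Φ b z) - x v z)| + |x v z| := abs_sub _ _
        _ ≤ _ := by gcongr; exact abs_sub _ _
    linarith
  have q2 : |b| ≤ |c'| / 2 + |a| / 2 + 1 / 10 * |c'| + 1 / 10 * |b| + 2 / 10 * |a| := by
    have e : b = (τ v (Φ b z) + c' / 2) - c' / 2 - (τ v (Φ b z) - τ v z - b) - (τ v z - τ w w')
      - (τ w w' + a / 2) + a / 2 := by ring
    have h3 : |a / 2| = |a| / 2 := by rw [abs_div, abs_of_pos (by norm_num : (0 : ℝ) < 2)]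
    have h4 : |c' / 2| = |c'| / 2 := by rw [abs_div, abs_of_pos (by norm_num : (0 : ℝ) < 2)]
    have h5 := abs_le.1 ht2
    have h6 := abs_le.1 htm
    have h7 := abs_le.1 hTd
    have h8 := abs_le.1 ht
    have h9 := abs_le.1 h3.le
    have h10 := abs_le.1 h4.le
    refine abs_le.2 ⟨?_, ?_⟩ <;> linarith
  have hK3a : 0 ≤ K3 * |a| := by positivity
  have q3 : |c'| ≤ 2 * (K3 + 1) * |a| := by linarith
  have q4 : |b| ≤ (2 * K3 + 3) * |a| := by linarith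
  have hYτ : |y v z| ≤ K6 * a ^ 2 := by
    have h1 : |y v z| ≤ |y v (Φ b z)| + |y v (Φ b z) - y v z| := by
      calc |y v z| = |y v (Φ b z) - (y v (Φ b z) - y v z)| := by congr 1; ring
        _ ≤ _ := abs_sub _ _
    have h2 : C * c' ^ 2 ≤ C * (4 * (K3 + 1) ^ 2 * a ^ 2) := by
      refine mul_le_mul_of_nonneg_left ?_ hC
      rw [hc2, ha2]
      calc |c'| * |c'| ≤ (2 * (K3 + 1) * |a|) * (2 * (K3 + 1) * |a|) :=
            mul_le_mul q3 q3 hCc (by positivity)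
        _ = _ := by ring
    have h3 : R ≤ c * K4 * ((2 * K3 + 4) * (2 * K3 + 3)) * a ^ 2 := by
      have h4 : |a| + |b| ≤ (2 * K3 + 4) * |a| := by linarith
      have h5 : (|a| + |b|) * |b| ≤ ((2 * K3 + 4) * |a|) * ((2 * K3 + 3) * |a|) :=
        mul_le_mul h4 q4 hB (by positivity)
      calc R = c * K4 * ((|a| + |b|) * |b|) := by rw [hR]; ring
        _ ≤ c * K4 * (((2 * K3 + 4) * |a|) * ((2 * K3 + 3) * |a|)) :=
            mul_le_mul_of_nonneg_left h5 (by positivity)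
        _ = _ := by rw [ha2]; ring
    have h6 : K6 * a ^ 2 = C * (4 * (K3 + 1) ^ 2 * a ^ 2)
      + c * K4 * ((2 * K3 + 4) * (2 * K3 + 3)) * a ^ 2 := by rw [hK6]; ring
    linarith
  -- the Jacobi equation
  have hjac := jac_both (X := fun s => x (Φ s w) (Φ s w')) (Y := fun s => y (Φ s w) (Φ s w'))
    (E := P * a ^ 2) (A := K3 * |a|) (t₁ := t₁) (l := |a| / 2) hk.le ht₁0.le (min_le_left _ _)
    hd hXb hYb (by positivity) (by
      simp only [S.zero]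
      have h1 : 4 / 5 * |a| ≤ |h * a| := by
        rw [abs_mul, abs_of_nonneg hh0]
        exact mul_le_mul_of_nonneg_right hh hA
      have h2 : |h * a| ≤ |x w w' + h * a| + |x w w'| := by
        calc |h * a| = |(x w w' + h * a) - x w w'| := by congr 1; ring
          _ ≤ _ := abs_sub _ _
      have h3 : t₁ * (K3 * |a| + P * a ^ 2) ≤ 1 / 5 * |a| := by
        calc t₁ * (K3 * |a| + P * a ^ 2) ≤ t₁ * (K3 * |a| + P * |a|) := by gcongr
          _ = t₁ * (K3 + P) * |a| := by ring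
          _ ≤ _ := mul_le_mul_of_nonneg_right ht₁1 hA
      linarith)
  simp only [S.zero] at hjac
  have j1 : |x v z * y v z| ≤ K3 * |a| * (K6 * a ^ 2) := by
    rw [abs_mul]
    exact mul_le_mul hXτ hYτ (abs_nonneg _) (by positivity)
  have j2 : |x w w' * y w w'| ≤ K3 * |a| * (C * a ^ 2) := by
    rw [abs_mul]
    refine mul_le_mul ?_ hy (abs_nonneg _) (by positivity)
    have := hXb 0 (by rw [abs_zero]; exact abs_nonneg _)
    rw [S.zero, S.zero] at this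
    exact this
  have j3 : 2 * (P * a ^ 2) * (K3 * |a|) * |τ₀| ≤ 2 * (P * a ^ 2) * (K3 * |a|) * T :=
    mul_le_mul_of_nonneg_left hτ (by positivity)
  have j4 : k₀ * (|a| / 2) ^ 2 * t₁ ≤ K8 * |a| * a ^ 2 := by
    rw [hK8]
    linarith
  have j5 : K8 * |a| < t₁ * k₀ / 4 := by
    have := mul_le_mul_of_nonneg_left hae hK80
    linarith
  have j6 : 0 < a ^ 2 := by positivity
  have j7 := mul_lt_mul_of_pos_right j5 j6
  have j8 : k₀ * (|a| / 2) ^ 2 * t₁ = t₁ * k₀ / 4 * a ^ 2 := by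
    rw [div_pow, sq_abs]
    ring
  linarith

end sys

/-- finiteness of the set of crossings -/
theorem fin_set {Γ : Subgroup SL(2, ℝ)} {ρ : ℍ → ℝ} {Φ : ℝ → SL(2, ℝ) → SL(2, ℝ)}
    {c r L k₀ k₁ : ℝ} (S : PairSys Γ Φ (xx ρ) (yy ρ) (tt ρ) (kap ρ) c r L k₀ k₁)
    (hJ : ∀ v : SL(2, ℝ), ∃ C r : ℝ, 0 < C ∧ 0 < r ∧ ∀ a ∈ Icc (-r) r,
      |xx ρ (v * rot3) (Φ a v * rot3) + Real.sqrt 3 / 2 * a| ≤ C * a ^ 2 ∧
      |yy ρ (v * rot3) (Φ a v * rot3)| ≤ C * a ^ 2 ∧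
      |tt ρ (v * rot3) (Φ a v * rot3) + a / 2| ≤ C * a ^ 2)
    {v₁ v : SL(2, ℝ)} {T : ℝ} (hT : 0 < T)
    (hv : ∀ t ∈ Icc (-(2 * T)) (2 * T), v ≠ Φ t v₁) :
    Set.Finite {s | s ∈ Icc 0 T ∧ ∃ τ ∈ Icc (-T) T, ∃ s' ∈ Icc 0 T,
      Φ τ (Φ s v₁ * rot3) = Φ s' v * rot3} := by
  by_contra hinf
  set Z : Set ℝ := {s | s ∈ Icc 0 T ∧ ∃ τ ∈ Icc (-T) T, ∃ s' ∈ Icc 0 T,
      Φ τ (Φ s v₁ * rot3) = Φ s' v * rot3} with hZ
  obtain ⟨s₀, hs₀, hacc⟩ := Set.Infinite.exists_accPt_of_subset_isCompact (s := Z) hinf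
    isCompact_Icc (fun s hs => hs.1)
  have hg : ∀ s ∈ Z, ∃ p : ℝ × ℝ, p ∈ Icc (-T) T ×ˢ Icc 0 T ∧
      Φ p.1 (Φ s v₁ * rot3) = Φ p.2 v * rot3 := by
    rintro s ⟨-, τ, hτ, s', hs', h⟩
    exact ⟨(τ, s'), ⟨hτ, hs'⟩, h⟩
  choose! g hgK hgE using hg
  have hne : (𝓝[≠] s₀ ⊓ 𝓟 Z).NeBot := hacc
  set U : Ultrafilter ℝ := Ultrafilter.of (𝓝[≠] s₀ ⊓ 𝓟 Z) with hUd
  have hU : (U : Filter ℝ) ≤ 𝓝[≠] s₀ ⊓ 𝓟 Z := Ultrafilter.of_le _
  have hU1 : Tendsto (fun s : ℝ => s) U (𝓝 s₀) := (hU.trans inf_le_left).trans inf_le_left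
  have hU2 : ∀ᶠ s in (U : Filter ℝ), s ≠ s₀ :=
    (hU.trans inf_le_left) self_mem_nhdsWithin
  have hU3 : ∀ᶠ s in (U : Filter ℝ), s ∈ Z := (hU.trans inf_le_right) (mem_principal_self Z)
  obtain ⟨p, hpK, hp⟩ := ((isCompact_Icc (a := -T) (b := T)).prod
    (isCompact_Icc (a := (0 : ℝ)) (b := T))).ultrafilter_le_nhds (U.map g) (by
      rw [le_principal_iff]
      exact hU3.mono hgK)
  have hg0 : Tendsto g U (𝓝 p) := hp
  have hpair : Tendsto (fun s => (s, g s)) U (𝓝 (s₀, p)) := hU1.prodMk_nhds hg0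
  have hΦv : ∀ u : SL(2, ℝ), Continuous fun s => Φ s u := fun u =>
    S.cont.comp (continuous_id.prodMk continuous_const)
  have hc1 : Continuous fun q : ℝ × ℝ × ℝ => Φ q.2.1 (Φ q.1 v₁ * rot3) := by
    refine S.cont.comp (f := fun q : ℝ × ℝ × ℝ => (q.2.1, Φ q.1 v₁ * rot3)) ?_
    exact (continuous_fst.comp continuous_snd).prodMk
      (((hΦv v₁).comp continuous_fst).mul continuous_const)
  have hc2 : Continuous fun q : ℝ × ℝ × ℝ => Φ q.2.2 v * rot3 :=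
    ((hΦv v).comp (continuous_snd.comp continuous_snd)).mul continuous_const
  have hE : Φ p.1 (Φ s₀ v₁ * rot3) = Φ p.2 v * rot3 :=
    tendsto_nhds_unique_of_eventuallyEq ((hc1.tendsto _).comp hpair) ((hc2.tendsto _).comp hpair)
      (hU3.mono hgE)
  by_cases h0 : p.1 = 0
  · rw [h0, S.zero] at hE
    have h1 : Φ s₀ v₁ = Φ p.2 v := mul_right_cancel hE
    have h2 : v = Φ (-p.2 + s₀) v₁ := by
      rw [S.add, h1, S.neg_flow]
    refine hv (-p.2 + s₀) ?_ h2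
    have h3 := hpK.2
    constructor
    · linarith [h3.2, hs₀.1]
    · linarith [h3.1, hs₀.2]
  · obtain ⟨C₁, r₁, hC₁, hr₁, hJ₁⟩ := hJ (Φ s₀ v₁)
    obtain ⟨C₂, r₂, hC₂, hr₂, hJ₂⟩ := hJ (Φ p.2 v)
    have hs3 : Real.sqrt 3 ^ 2 = 3 := Real.sq_sqrt (by norm_num)
    have hs0 := Real.sqrt_nonneg 3
    obtain ⟨ε, hε, hkey⟩ := key S (T := T) (C := max C₁ C₂) (h := Real.sqrt 3 / 2) (τ₀ := p.1) hT
      (hC₁.le.trans (le_max_left _ _)) (by nlinarith) (by nlinarith) h0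
      (abs_le.2 ⟨hpK.1.1, hpK.1.2⟩)
    have ev1 : ∀ᶠ s in (U : Filter ℝ), |s - s₀| ≤ min ε r₁ := by
      have := hU1 (Metric.closedBall_mem_nhds s₀ (lt_min hε hr₁))
      exact this
    have ev2 : ∀ᶠ s in (U : Filter ℝ), |(g s).1 - p.1| ≤ ε := by
      have := ((continuous_fst.tendsto p).comp hg0) (Metric.closedBall_mem_nhds p.1 hε)
      exact this
    have ev3 : ∀ᶠ s in (U : Filter ℝ), |(g s).2 - p.2| ≤ min ε r₂ := by
      have := ((continuous_snd.tendsto p).comp hg0)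
        (Metric.closedBall_mem_nhds p.2 (lt_min hε hr₂))
      exact this
    have ev4 : ∀ᶠ s in (U : Filter ℝ), dd (Φ s₀ v₁ * rot3) (Φ s v₁ * rot3) < r := by
      have h3 : Continuous fun s : ℝ => Φ s v₁ * rot3 := (hΦv v₁).mul continuous_const
      have h0 : Continuous fun s : ℝ => (Φ s₀ v₁ * rot3, Φ s v₁ * rot3) :=
        continuous_const.prodMk h3
      have h1 : Continuous fun s : ℝ => dd (Φ s₀ v₁ * rot3) (Φ s v₁ * rot3) :=
        Continuous.comp (g := fun p : SL(2, ℝ) × SL(2, ℝ) => dd p.1 p.2)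
          (f := fun s : ℝ => (Φ s₀ v₁ * rot3, Φ s v₁ * rot3)) continuous_dd h0
      have h2 : Tendsto (fun s : ℝ => dd (Φ s₀ v₁ * rot3) (Φ s v₁ * rot3)) U
          (𝓝 (dd (Φ s₀ v₁ * rot3) (Φ s₀ v₁ * rot3))) := (h1.tendsto s₀).comp hU1
      rw [dd_self] at h2
      exact h2.eventually (gt_mem_nhds S.rpos)
    obtain ⟨s, hsne, hsZ, h1, h2, h3, h4⟩ :=
      (hU2.and (hU3.and (ev1.and (ev2.and (ev3.and ev4))))).exists
    have hsq : ∀ {A B a : ℝ}, A ≤ B * a ^ 2 → B ≤ max C₁ C₂ → A ≤ max C₁ C₂ * a ^ 2 :=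
      fun h1 h2 => h1.trans (mul_le_mul_of_nonneg_right h2 (sq_nonneg _))
    have hA := h1.trans (min_le_right _ _)
    have hB := h3.trans (min_le_right _ _)
    obtain ⟨j1, j2, j3⟩ := hJ₁ (s - s₀) (abs_le.1 hA)
    obtain ⟨j4, j5, j6⟩ := hJ₂ ((g s).2 - p.2) (abs_le.1 hB)
    rw [← S.add, sub_add_cancel] at j1 j2 j3 j4 j5 j6
    rw [← hE, ← hgE s hsZ] at j4 j5 j6
    have e : (g s).1 = p.1 + ((g s).1 - p.1) := by ring
    rw [e] at j4 j5 j6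
    have m1 := le_max_left C₁ C₂
    have m2 := le_max_right C₁ C₂
    exact hkey (s - s₀) ((g s).1 - p.1) ((g s).2 - p.2) (sub_ne_zero.2 hsne)
      (h1.trans (min_le_left _ _)) h2 (h3.trans (min_le_left _ _)) (Φ s₀ v₁ * rot3)
      (Φ s v₁ * rot3) h4.le (hsq j1 m1) (hsq j2 m1) (hsq j3 m1) (hsq j4 m2) (hsq j5 m2)
      (hsq j6 m2)

end JAC

open QE QE.NC

/-- geodesics which cross two given geodesics at 120 degrees are isolated -/
theorem stmtJac (_hRot : StmtRot) (hJca : StmtJca) : StmtJac := by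
  intro Γ ρ Φ hF hlap hΦ v₁ v₂ T hT hv
  obtain ⟨-, -, hρc, -⟩ := stmtLip Γ ρ hF
  obtain ⟨c₁, r₁, hA⟩ := stmtAlg stmtLip Γ ρ hF
  obtain ⟨c₂, L, hc₂, hL, hFL⟩ := stmtFl stmtLip Γ ρ Φ hF hΦ
  obtain ⟨c₃, r₃, hc₃, hr₃, hDD⟩ := stmtDer stmtLip Γ ρ Φ hF hΦ
  obtain ⟨k₀, k₁, hk₀, hklo, hkhi⟩ := at_kap_bd hF hρc hlap
  set c : ℝ := max c₁ (max c₂ c₃) with hc
  set r : ℝ := min r₁ r₃ with hr
  have hr0 : 0 < r := lt_min hA.rpos hr₃
  have hsys : PairSys Γ Φ (xx ρ) (yy ρ) (tt ρ) (kap ρ) c r L k₀ k₁ :=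
    ⟨at_alg_mono hA (le_max_left _ _) hr0 (min_le_left _ _),
      at_fl_mono hFL ((le_max_left _ _).trans (le_max_right _ _)),
      at_der_mono hDD ((le_max_right _ _).trans (le_max_right _ _)) (min_le_right _ _),
      hL, hk₀, hΦ.zero, hΦ.add, hΦ.cont, fun γ hγ => hΦ.left γ (hF.inv γ hγ), hklo, hkhi⟩
  have hv1 : ∀ t ∈ Icc (-(2 * T)) (2 * T), v₂ ≠ Φ t v₁ := fun t ht h => hv ⟨t, ht, Or.inl h⟩
  have hv2 : ∀ t ∈ Icc (-(2 * T)) (2 * T), -v₂ ≠ Φ t v₁ := fun t ht h =>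
    hv ⟨t, ht, Or.inr (by rw [← h, neg_neg])⟩
  refine ((JAC.fin_set hsys (hJca Γ ρ Φ hF hΦ) hT hv1).union
    (JAC.fin_set hsys (hJca Γ ρ Φ hF hΦ) hT hv2)).countable.mono ?_
  rintro s ⟨hs, τ, hτ, s', hs', h | h⟩
  · exact Or.inl ⟨hs, τ, hτ, s', hs', h⟩
  · refine Or.inr ⟨hs, τ, hτ, s', hs', ?_⟩
    rw [h, hΦ.neg, neg_mul]

end U3
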