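import Pool.Agent.U3.StmtsG
import Pool.Agent.NCV.Lip
import Pool.Agent.NCV.Fl

/-!
Third order statistics of all eigenfunctions on surfaces of negative curvature: the coordinates of
two nearby points of a rotated orbit (helper83).
-/

open MeasureTheory Filter Topology Set
open UpperHalfPlane hiding I
open scoped ContDiff MatrixGroups

namespace U3

open QE QE.NC QJ

noncomputable section

namespace JCA

/-! ### the rotation -/

theorem r00 : rot3 0 0 = 1 / 2 := rfl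
theorem r01 : rot3 0 1 = -(Real.sqrt 3 / 2) := rfl
theorem r10 : rot3 1 0 = Real.sqrt 3 / 2 := rfl
theorem r11 : rot3 1 1 = 1 / 2 := rfl

theorem s3 : Real.sqrt 3 * Real.sqrt 3 = 3 := Real.mul_self_sqrt (by norm_num)

theorem den_rot3 : den rot3 Complex.I = ((1 / 2 : ℝ) : ℂ) + ((Real.sqrt 3 / 2 : ℝ) : ℂ) * Complex.I := by
  unfold den
  rw [r10, r11]
  ring

theorem iota_rot3 : iota rot3 = (Complex.I * den rot3 Complex.I, den rot3 Complex.I) := by
  rw [den_rot3]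
  unfold iota
  rw [r00, r01, r10, r11]
  refine Prod.ext (Complex.ext ?_ ?_) (Complex.ext ?_ ?_) <;> simp

theorem rot3_I : rot3 • UpperHalfPlane.I = UpperHalfPlane.I := by
  apply UpperHalfPlane.ext
  have h := iota_snd_ne rot3
  rw [smul_I_eq, iota_rot3]
  rw [iota_rot3] at h
  rw [mul_div_cancel_right₀ _ h]
  rfl

theorem mul_rot3_I (v : SL(2, ℝ)) : (v * rot3) • UpperHalfPlane.I = v • UpperHalfPlane.I := by
  rw [mul_smul, rot3_I]

theorem den_mul_rot3 (v : SL(2, ℝ)) :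
    den (v * rot3) Complex.I = den v Complex.I * den rot3 Complex.I := by
  rw [den_mul v rot3 I_mem_UH, mob_I, rot3_I]
  rfl

theorem den_rot3_sq : den rot3 Complex.I ^ 2
    = ((-(1 / 2) : ℝ) : ℂ) + ((Real.sqrt 3 / 2 : ℝ) : ℂ) * Complex.I := by
  rw [den_rot3]
  have h : ((Real.sqrt 3 : ℝ) : ℂ) * ((Real.sqrt 3 : ℝ) : ℂ) = 3 := by
    rw [← Complex.ofReal_mul, s3]; norm_num
  have hI := Complex.I_mul_I
  push_cast
  linear_combination (1 / 4 : ℂ) * Complex.I * Complex.I * h + (3 / 4 : ℂ) * hI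

theorem Pr_rot (ρ : ℍ → ℝ) (v : SL(2, ℝ)) :
    Pr ρ v = -(1 / 2) * Pr ρ (v * rot3) + Real.sqrt 3 / 2 * Hr ρ (v * rot3) := by
  have h0 : den v Complex.I ≠ 0 := den_ne_zero v I_mem_UH
  have h1 : den rot3 Complex.I ≠ 0 := den_ne_zero rot3 I_mem_UH
  have e : (1 / den v Complex.I ^ 2 : ℂ)
      = (-(1 / 2) : ℝ) • (1 / den (v * rot3) Complex.I ^ 2)
        + (Real.sqrt 3 / 2 : ℝ) • (Complex.I / den (v * rot3) Complex.I ^ 2) := by
    rw [den_mul_rot3, Complex.real_smul, Complex.real_smul]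
    have e2 : (1 / den v Complex.I ^ 2 : ℂ)
        = den rot3 Complex.I ^ 2 / (den v Complex.I * den rot3 Complex.I) ^ 2 := by
      field_simp
    rw [e2, den_rot3_sq]
    ring
  unfold Pr Hr
  rw [mul_rot3_I, e, map_add, map_smul, map_smul, smul_eq_mul, smul_eq_mul]

/-! ### the entries -/

theorem mul_ent (v g : SL(2, ℝ)) (i j : Fin 2) : (v * g) i j = v i 0 * g 0 j + v i 1 * g 1 j := by
  show ((v * g : SL(2, ℝ)) : Matrix (Fin 2) (Fin 2) ℝ) i j = _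
  rw [Matrix.SpecialLinearGroup.coe_mul, Matrix.mul_apply, Fin.sum_univ_two]

theorem conj_eq (v w : SL(2, ℝ)) :
    (v * rot3)⁻¹ * (w * rot3) = rot3⁻¹ * ((v⁻¹ * w) * rot3) := by group

theorem c_sum (v w : SL(2, ℝ)) :
    ((v * rot3)⁻¹ * (w * rot3)) 0 1 + ((v * rot3)⁻¹ * (w * rot3)) 1 0
      = -(Real.sqrt 3 / 2) * ((v⁻¹ * w) 0 0 - (v⁻¹ * w) 1 1)
        - 1 / 2 * ((v⁻¹ * w) 0 1 + (v⁻¹ * w) 1 0) := by
  rw [conj_eq, Fl.ent01, Fl.ent10]
  simp only [mul_ent (v⁻¹ * w) rot3, r00, r01, r10, r11]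
  linear_combination (-(1 / 4 : ℝ)) * ((v⁻¹ * w) 0 1 + (v⁻¹ * w) 1 0) * s3

theorem c_dif (v w : SL(2, ℝ)) :
    ((v * rot3)⁻¹ * (w * rot3)) 0 0 - ((v * rot3)⁻¹ * (w * rot3)) 1 1
      = -(1 / 2) * ((v⁻¹ * w) 0 0 - (v⁻¹ * w) 1 1)
        + Real.sqrt 3 / 2 * ((v⁻¹ * w) 0 1 + (v⁻¹ * w) 1 0) := by
  rw [conj_eq, Fl.ent00, Fl.ent11]
  simp only [mul_ent (v⁻¹ * w) rot3, r00, r01, r10, r11]
  linear_combination (-(1 / 4 : ℝ)) * ((v⁻¹ * w) 0 0 - (v⁻¹ * w) 1 1) * s3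

theorem c_alt (v w : SL(2, ℝ)) :
    ((v * rot3)⁻¹ * (w * rot3)) 1 0 - ((v * rot3)⁻¹ * (w * rot3)) 0 1
      = (v⁻¹ * w) 1 0 - (v⁻¹ * w) 0 1 := by
  rw [conj_eq, Fl.ent01, Fl.ent10]
  simp only [mul_ent (v⁻¹ * w) rot3, r00, r01, r10, r11]
  linear_combination (1 / 4 : ℝ) * ((v⁻¹ * w) 1 0 - (v⁻¹ * w) 0 1) * s3

/-! ### second order estimate -/

theorem quad {f f' : ℝ → ℝ} {C : ℝ} (hC : 0 ≤ C) (hf : ∀ s, HasDerivAt f (f' s) s)
    (hb : ∀ s, |s| ≤ 1 → |f' s - f' 0| ≤ C * |s|) {a : ℝ} (ha : |a| ≤ 1) :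
    |f a - f 0 - f' 0 * a| ≤ C * a ^ 2 := by
  have hg : ∀ s, HasDerivAt (fun s => f s - f' 0 * s) (f' s - f' 0) s := fun s =>
    ((hf s).sub ((hasDerivAt_id s).const_mul (f' 0))).congr_deriv (by ring)
  have h := Convex.norm_image_sub_le_of_norm_hasDerivWithin_le (f := fun s => f s - f' 0 * s)
    (f' := fun s => f' s - f' 0) (C := C * |a|)
    (s := Icc (-|a|) |a|) (x := 0) (y := a) (fun x _ => (hg x).hasDerivWithinAt)
    (fun x hx => by
      rw [Real.norm_eq_abs]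
      have hx' : |x| ≤ |a| := abs_le.2 hx
      exact (hb x (hx'.trans ha)).trans (mul_le_mul_of_nonneg_left hx' hC)) (convex_Icc _ _)
    ⟨by linarith [abs_nonneg a], abs_nonneg a⟩ (abs_le.1 le_rfl)
  have e1 : f a - f' 0 * a - (f 0 - f' 0 * 0) = f a - f 0 - f' 0 * a := by ring
  simp only [Real.norm_eq_abs, sub_zero, e1] at h
  refine h.trans (le_of_eq ?_)
  rw [mul_assoc, abs_mul_abs_self]
  ring

/-- bounds and increments of the coefficients -/
theorem coef {Γ : Subgroup SL(2, ℝ)} {ρ : ℍ → ℝ} (hF : Fac Γ ρ) :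
    ∃ M D : ℝ, 0 ≤ M ∧ 0 ≤ D ∧ (∀ g, |Fl.ca ρ g| ≤ M) ∧ (∀ g, |Fl.cb ρ g| ≤ M) ∧
      (∀ v w, |Fl.ca ρ w - Fl.ca ρ v| ≤ D * dd v w) ∧
      (∀ v w, |Fl.cb ρ w - Fl.cb ρ v| ≤ D * dd v w) := by
  obtain ⟨-, -, -, -, -, B, L, hB, hL, bρ, bP, -, lρ, lP, -⟩ := stmtLip Γ ρ hF
  have hE : ∀ g : SL(2, ℝ), 0 < Real.exp (-ρ (g • UpperHalfPlane.I)) ∧
      Real.exp (-ρ (g • UpperHalfPlane.I)) ≤ Real.exp B := fun g =>
    ⟨Real.exp_pos _, Real.exp_le_exp.2 (by linarith [(abs_le.1 (bρ (g • UpperHalfPlane.I))).1])⟩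
  have hEB : 0 < Real.exp B := Real.exp_pos B
  have hEL : ∀ v w : SL(2, ℝ), |Real.exp (-ρ (w • UpperHalfPlane.I)) -
      Real.exp (-ρ (v • UpperHalfPlane.I))| ≤ Real.exp B * (L * dd v w) := by
    intro v w
    have h1 := Fl.exp_lip (x := -ρ (w • UpperHalfPlane.I)) (y := -ρ (v • UpperHalfPlane.I))
      (B := B) (by linarith [(abs_le.1 (bρ (w • UpperHalfPlane.I))).1])
      (by linarith [(abs_le.1 (bρ (v • UpperHalfPlane.I))).1])
    refine h1.trans (mul_le_mul_of_nonneg_left ?_ hEB.le)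
    have h2 := lρ v w
    rw [abs_sub_comm] at h2
    have h3 : -ρ (w • UpperHalfPlane.I) - -ρ (v • UpperHalfPlane.I) =
      ρ (v • UpperHalfPlane.I) - ρ (w • UpperHalfPlane.I) := by ring
    rw [h3]
    exact h2
  set M : ℝ := Real.exp B * (1 + B) with hMdef
  have hM : 0 ≤ M := by positivity
  have hdd : ∀ v w, 0 ≤ dd v w := fun v w => by
    unfold dd nn; positivity
  refine ⟨M, M * L, hM, by positivity, ?_, ?_, ?_, ?_⟩
  · intro g
    have h1 := hE g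
    unfold Fl.ca
    rw [abs_of_pos (by linarith)]
    have : Real.exp B ≤ M := by rw [hMdef]; nlinarith
    linarith
  · intro g
    have h1 := hE g
    unfold Fl.cb
    have h2 : |Real.exp (-ρ (g • UpperHalfPlane.I)) * Pr ρ g| ≤ Real.exp B * B :=
      Fl.abs_mul_le (by rw [abs_of_pos h1.1]; exact h1.2) (bP g)
    rw [abs_div, abs_of_pos (by norm_num : (0 : ℝ) < 2)]
    have h3 : Real.exp B * B ≤ M := by rw [hMdef]; nlinarith
    have h4 := abs_nonneg (Real.exp (-ρ (g • UpperHalfPlane.I)) * Pr ρ g)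
    linarith
  · intro v w
    unfold Fl.ca
    rw [← sub_div, abs_div, abs_of_pos (by norm_num : (0 : ℝ) < 2)]
    have h1 := hEL v w
    have h2 : 0 ≤ Real.exp B * (L * dd v w) := by have := hdd v w; positivity
    have h3 : Real.exp B * (L * dd v w) ≤ M * L * dd v w := by
      rw [hMdef]
      have h4 : 0 ≤ Real.exp B * B * L * dd v w := by have := hdd v w; positivity
      nlinarith
    linarith
  · intro v w
    unfold Fl.cb
    rw [← sub_div, abs_div, abs_of_pos (by norm_num : (0 : ℝ) < 2)]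
    have h1 := hEL v w
    have h2 := lP v w
    have h3 := hdd v w
    have e1 : Real.exp (-ρ (w • UpperHalfPlane.I)) * Pr ρ w -
        Real.exp (-ρ (v • UpperHalfPlane.I)) * Pr ρ v =
        Real.exp (-ρ (w • UpperHalfPlane.I)) * (Pr ρ w - Pr ρ v) +
        (Real.exp (-ρ (w • UpperHalfPlane.I)) - Real.exp (-ρ (v • UpperHalfPlane.I))) *
          Pr ρ v := by ring
    have e2 := Fl.abs_mul_le (x := Real.exp (-ρ (w • UpperHalfPlane.I))) (X := Real.exp B)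
      (by rw [abs_of_pos (hE w).1]; exact (hE w).2) h2
    have e3 := Fl.abs_mul_le h1 (bP v)
    have e4 : |Real.exp (-ρ (w • UpperHalfPlane.I)) * Pr ρ w -
        Real.exp (-ρ (v • UpperHalfPlane.I)) * Pr ρ v| ≤
        Real.exp B * (L * dd v w) + Real.exp B * (L * dd v w) * B := by
      rw [e1]
      exact (abs_add_le _ _).trans (add_le_add e2 e3)
    have e5 : Real.exp B * (L * dd v w) + Real.exp B * (L * dd v w) * B = M * L * dd v w := by
      rw [hMdef]; ring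
    have e6 : 0 ≤ M * L * dd v w := by positivity
    linarith

/-- a sum of three small terms -/
theorem three {x y z a b c C₁ C₂ : ℝ} (hx : |x| ≤ C₁) (ha : |a| ≤ C₂) (hy : |y| ≤ C₁)
    (hb : |b| ≤ C₂) (hc : |c| ≤ z) : |x * a + y * b + 2 * c| ≤ 2 * (C₁ * C₂) + 2 * z := by
  have e1 := Fl.abs_mul_le hx ha
  have e2 := Fl.abs_mul_le hy hb
  have e3 : |2 * c| ≤ 2 * z := by
    rw [abs_mul, abs_of_pos (by norm_num : (0 : ℝ) < 2)]; linarith
  have h1 := abs_add_le (x * a + y * b) (2 * c)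
  have h2 := abs_add_le (x * a) (y * b)
  linarith

theorem fin1 {E C t P H S : ℝ} (hE : 0 ≤ E) (hC : 0 ≤ C) (ht : 0 ≤ t) (hP : 0 ≤ P) (hH : 0 ≤ H)
    (hS : |S| ≤ 2 * (C * t)) : E * |S| ≤ (2 * E + 1 + 2 * P + 2 * H) * (C + 1) * t := by
  have h1 := mul_le_mul_of_nonneg_left hS hE
  have h2 : 0 ≤ 2 * E * t := by positivity
  have h3 : 0 ≤ (1 + 2 * P + 2 * H) * ((C + 1) * t) := by positivity
  linarith

theorem fin2 {E C t P H S R Z : ℝ} (hE : 0 ≤ E) (hC : 0 ≤ C) (ht : 0 ≤ t) (hZ : |Z| ≤ C * t)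
    (hR : |R| ≤ 2 * (C * t)) (hS : |S| ≤ 2 * (C * t)) :
    |Z - R * P + S * H| ≤ (2 * E + 1 + 2 * |P| + 2 * |H|) * (C + 1) * t := by
  have h1 := abs_add_le (Z - R * P) (S * H)
  have h2 := abs_sub Z (R * P)
  rw [abs_mul] at h1 h2
  have h3 := mul_le_mul_of_nonneg_right hR (abs_nonneg P)
  have h4 := mul_le_mul_of_nonneg_right hS (abs_nonneg H)
  have h5 : 0 ≤ 2 * E * ((C + 1) * t) := by positivity
  have h6 : 0 ≤ (1 + 2 * |P| + 2 * |H|) * t := by positivity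
  linarith

theorem comb {s x y t : ℝ} (hs : 0 ≤ s) (hs2 : s ≤ 2) (hx : |x| ≤ t) (hy : |y| ≤ t) :
    |-(s / 2) * x - 1 / 2 * y| ≤ 2 * t ∧ |-(1 / 2) * x + s / 2 * y| ≤ 2 * t := by
  have h0 : |s / 2| ≤ 1 := by rw [abs_of_nonneg (by positivity)]; linarith
  have h1 : |(1 / 2 : ℝ)| ≤ 1 := by rw [abs_of_pos (by norm_num)]; norm_num
  have n0 : |-(s / 2)| ≤ 1 := by rw [abs_neg]; exact h0
  have n1 : |(-(1 / 2) : ℝ)| ≤ 1 := by rw [abs_neg]; exact h1
  have a1 := Fl.abs_mul_le n0 hx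
  have a2 := Fl.abs_mul_le h1 hy
  have a3 := Fl.abs_mul_le n1 hx
  have a4 := Fl.abs_mul_le h0 hy
  constructor
  · have := abs_sub (-(s / 2) * x) (1 / 2 * y)
    linarith
  · have := abs_add_le (-(1 / 2) * x) (s / 2 * y)
    linarith

end JCA

open JCA

theorem stmtJca : StmtJca := by
  intro Γ ρ Φ hF hΦ v
  obtain ⟨M, D, hM, hD, ha, hb, hda, hdb⟩ := coef hF
  obtain ⟨c, L, hc, hL, hPF⟩ := stmtFl stmtLip Γ ρ Φ hF hΦ
  -- the entries of `v⁻¹ Φ_s v`
  set p : ℝ → ℝ := fun s => v 1 1 * Φ s v 0 0 - v 0 1 * Φ s v 1 0 with hp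
  set q : ℝ → ℝ := fun s => v 1 1 * Φ s v 0 1 - v 0 1 * Φ s v 1 1 with hq
  set r : ℝ → ℝ := fun s => -(v 1 0 * Φ s v 0 0) + v 0 0 * Φ s v 1 0 with hr
  set u : ℝ → ℝ := fun s => -(v 1 0 * Φ s v 0 1) + v 0 0 * Φ s v 1 1 with hu
  have dp : ∀ s, HasDerivAt p (p s * Fl.ca ρ (Φ s v) + q s * Fl.cb ρ (Φ s v)) s := fun s =>
    (((Fl.der00 hΦ v s).const_mul _).sub ((Fl.der10 hΦ v s).const_mul _)).congr_deriv
      (by simp only [hp, hq]; ring)
  have dq : ∀ s, HasDerivAt q (p s * (-Fl.cb ρ (Φ s v)) + q s * (-Fl.ca ρ (Φ s v))) s := fun s =>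
    (((Fl.der01 hΦ v s).const_mul _).sub ((Fl.der11 hΦ v s).const_mul _)).congr_deriv
      (by simp only [hp, hq]; ring)
  have dr : ∀ s, HasDerivAt r (r s * Fl.ca ρ (Φ s v) + u s * Fl.cb ρ (Φ s v)) s := fun s =>
    (((Fl.der00 hΦ v s).const_mul _).neg.add ((Fl.der10 hΦ v s).const_mul _)).congr_deriv
      (by simp only [hr, hu]; ring)
  have du : ∀ s, HasDerivAt u (r s * (-Fl.cb ρ (Φ s v)) + u s * (-Fl.ca ρ (Φ s v))) s := fun s =>
    (((Fl.der01 hΦ v s).const_mul _).neg.add ((Fl.der11 hΦ v s).const_mul _)).congr_deriv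
      (by simp only [hr, hu]; ring)
  have hdet : v 0 0 * v 1 1 - v 0 1 * v 1 0 = 1 := by
    have := v.det_coe
    rwa [Matrix.det_fin_two] at this
  have p0 : p 0 = 1 := by simp only [hp, hΦ.zero]; linarith
  have q0 : q 0 = 0 := by simp only [hq, hΦ.zero]; ring
  have r0 : r 0 = 0 := by simp only [hr, hΦ.zero]; ring
  have u0 : u 0 = 1 := by simp only [hu, hΦ.zero]; linarith
  have hdm : ∀ s, |s| ≤ 1 → |p s - 1| + |q s| + |r s| + |u s - 1| ≤ c * |s| := by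
    intro s hs
    have h := hPF.dmove v s hs
    rw [Fl.dd_eq] at h
    exact h
  have hda' : ∀ s, |s| ≤ 1 → |Fl.ca ρ (Φ s v) - Fl.ca ρ (Φ 0 v)| ≤ D * (c * |s|) := by
    intro s hs
    rw [hΦ.zero]
    exact (hda v (Φ s v)).trans (mul_le_mul_of_nonneg_left (hPF.dmove v s hs) hD)
  have hdb' : ∀ s, |s| ≤ 1 → |Fl.cb ρ (Φ s v) - Fl.cb ρ (Φ 0 v)| ≤ D * (c * |s|) := by
    intro s hs
    rw [hΦ.zero]
    exact (hdb v (Φ s v)).trans (mul_le_mul_of_nonneg_left (hPF.dmove v s hs) hD)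
  set C : ℝ := 2 * (M * c) + 2 * (D * c) with hCdef
  have hC : 0 ≤ C := by have : 0 ≤ c := by linarith
                        positivity
  have hCs : ∀ s : ℝ, 2 * (c * |s| * M) + 2 * (D * (c * |s|)) = C * |s| := fun s => by
    rw [hCdef]; ring
  have hC0 : ∀ s : ℝ, 2 * (c * |s| * M) + 2 * 0 ≤ C * |s| := fun s => by
    have : 0 ≤ D * (c * |s|) := by have : 0 ≤ c := by linarith
                                   positivity
    rw [← hCs s]; linarith
  -- the three functionals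
  have k1 : ∀ a, |a| ≤ 1 → |(p a - u a) - 2 * Fl.ca ρ v * a| ≤ C * a ^ 2 := by
    intro a ha1
    have h := quad (f := fun s => p s - u s)
      (f' := fun s => (p s + u s - 2) * Fl.ca ρ (Φ s v) + (q s + r s) * Fl.cb ρ (Φ s v)
        + 2 * Fl.ca ρ (Φ s v)) (C := C) hC
      (fun s => ((dp s).sub (du s)).congr_deriv (by ring))
      (fun s hs => by
        have e : (p s + u s - 2) * Fl.ca ρ (Φ s v) + (q s + r s) * Fl.cb ρ (Φ s v)
            + 2 * Fl.ca ρ (Φ s v) - ((p 0 + u 0 - 2) * Fl.ca ρ (Φ 0 v)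
            + (q 0 + r 0) * Fl.cb ρ (Φ 0 v) + 2 * Fl.ca ρ (Φ 0 v))
            = (p s + u s - 2) * Fl.ca ρ (Φ s v) + (q s + r s) * Fl.cb ρ (Φ s v)
              + 2 * (Fl.ca ρ (Φ s v) - Fl.ca ρ (Φ 0 v)) := by
          rw [p0, q0, r0, u0]; ring
        simp only [e]
        rw [← hCs s]
        have hm := hdm s hs
        refine three ?_ (ha _) ?_ (hb _) (hda' s hs)
        · have := abs_add_le (p s - 1) (u s - 1)
          have e2 : p s + u s - 2 = (p s - 1) + (u s - 1) := by ring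
          rw [e2]
          linarith [abs_nonneg (q s), abs_nonneg (r s)]
        · have := abs_add_le (q s) (r s)
          linarith [abs_nonneg (p s - 1), abs_nonneg (u s - 1)]) ha1
    have e : p a - u a - (p 0 - u 0) - ((p 0 + u 0 - 2) * Fl.ca ρ (Φ 0 v)
        + (q 0 + r 0) * Fl.cb ρ (Φ 0 v) + 2 * Fl.ca ρ (Φ 0 v)) * a
        = (p a - u a) - 2 * Fl.ca ρ v * a := by
      rw [p0, q0, r0, u0, hΦ.zero]; ring
    simp only [e] at h
    exact h
  have k2 : ∀ a, |a| ≤ 1 → |q a + r a| ≤ C * a ^ 2 := by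
    intro a ha1
    have h := quad (f := fun s => q s + r s)
      (f' := fun s => (u s - p s) * Fl.cb ρ (Φ s v) + (r s - q s) * Fl.ca ρ (Φ s v)
        + 2 * 0) (C := C) hC
      (fun s => ((dq s).add (dr s)).congr_deriv (by ring))
      (fun s hs => by
        have e : (u s - p s) * Fl.cb ρ (Φ s v) + (r s - q s) * Fl.ca ρ (Φ s v)
            + 2 * 0 - ((u 0 - p 0) * Fl.cb ρ (Φ 0 v)
            + (r 0 - q 0) * Fl.ca ρ (Φ 0 v) + 2 * 0)
            = (u s - p s) * Fl.cb ρ (Φ s v) + (r s - q s) * Fl.ca ρ (Φ s v)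
              + 2 * 0 := by
          rw [p0, q0, r0, u0]; ring
        simp only [e]
        refine le_trans ?_ (hC0 s)
        have hm := hdm s hs
        refine three ?_ (hb _) ?_ (ha _) (by simp)
        · have := abs_sub (u s - 1) (p s - 1)
          have e2 : u s - p s = (u s - 1) - (p s - 1) := by ring
          rw [e2]
          linarith [abs_nonneg (q s), abs_nonneg (r s)]
        · have := abs_sub (r s) (q s)
          linarith [abs_nonneg (p s - 1), abs_nonneg (u s - 1)]) ha1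
    have e : q a + r a - (q 0 + r 0) - ((u 0 - p 0) * Fl.cb ρ (Φ 0 v)
        + (r 0 - q 0) * Fl.ca ρ (Φ 0 v) + 2 * 0) * a
        = q a + r a := by
      rw [p0, q0, r0, u0]; ring
    simp only [e] at h
    exact h
  have k3 : ∀ a, |a| ≤ 1 → |(r a - q a) - 2 * Fl.cb ρ v * a| ≤ C * a ^ 2 := by
    intro a ha1
    have h := quad (f := fun s => r s - q s)
      (f' := fun s => (p s + u s - 2) * Fl.cb ρ (Φ s v) + (q s + r s) * Fl.ca ρ (Φ s v)
        + 2 * Fl.cb ρ (Φ s v)) (C := C) hC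
      (fun s => ((dr s).sub (dq s)).congr_deriv (by ring))
      (fun s hs => by
        have e : (p s + u s - 2) * Fl.cb ρ (Φ s v) + (q s + r s) * Fl.ca ρ (Φ s v)
            + 2 * Fl.cb ρ (Φ s v) - ((p 0 + u 0 - 2) * Fl.cb ρ (Φ 0 v)
            + (q 0 + r 0) * Fl.ca ρ (Φ 0 v) + 2 * Fl.cb ρ (Φ 0 v))
            = (p s + u s - 2) * Fl.cb ρ (Φ s v) + (q s + r s) * Fl.ca ρ (Φ s v)
              + 2 * (Fl.cb ρ (Φ s v) - Fl.cb ρ (Φ 0 v)) := by
          rw [p0, q0, r0, u0]; ring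
        simp only [e]
        rw [← hCs s]
        have hm := hdm s hs
        refine three ?_ (hb _) ?_ (ha _) (hdb' s hs)
        · have := abs_add_le (p s - 1) (u s - 1)
          have e2 : p s + u s - 2 = (p s - 1) + (u s - 1) := by ring
          rw [e2]
          linarith [abs_nonneg (q s), abs_nonneg (r s)]
        · have := abs_add_le (q s) (r s)
          linarith [abs_nonneg (p s - 1), abs_nonneg (u s - 1)]) ha1
    have e : r a - q a - (r 0 - q 0) - ((p 0 + u 0 - 2) * Fl.cb ρ (Φ 0 v)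
        + (q 0 + r 0) * Fl.ca ρ (Φ 0 v) + 2 * Fl.cb ρ (Φ 0 v)) * a
        = (r a - q a) - 2 * Fl.cb ρ v * a := by
      rw [p0, q0, r0, u0, hΦ.zero]; ring
    simp only [e] at h
    exact h
  -- the coordinates
  set E : ℝ := Real.exp (ρ (v • UpperHalfPlane.I)) with hE
  have hE0 : 0 < E := Real.exp_pos _
  have hEi : E * (2 * Fl.ca ρ v) = 1 := by
    rw [hE]; unfold Fl.ca
    have : Real.exp (ρ (v • UpperHalfPlane.I)) * Real.exp (-ρ (v • UpperHalfPlane.I)) = 1 := by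
      rw [← Real.exp_add, add_neg_cancel, Real.exp_zero]
    linear_combination this
  have hcb : Fl.cb ρ v = Fl.ca ρ v * Pr ρ v := by unfold Fl.cb Fl.ca; ring
  have hPr := Pr_rot ρ v
  set P' : ℝ := Pr ρ (v * rot3) with hP'
  set H' : ℝ := Hr ρ (v * rot3) with hH'
  have hs0 : 0 ≤ Real.sqrt 3 := Real.sqrt_nonneg _
  have hs2 : Real.sqrt 3 ≤ 2 := by
    rw [Real.sqrt_le_left (by norm_num)]; norm_num
  have e00 : ∀ a, (v⁻¹ * Φ a v) 0 0 = p a := fun a => Fl.ent00 _ _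
  have e01 : ∀ a, (v⁻¹ * Φ a v) 0 1 = q a := fun a => Fl.ent01 _ _
  have e10 : ∀ a, (v⁻¹ * Φ a v) 1 0 = r a := fun a => Fl.ent10 _ _
  have e11 : ∀ a, (v⁻¹ * Φ a v) 1 1 = u a := fun a => Fl.ent11 _ _
  refine ⟨(2 * E + 1 + 2 * |P'| + 2 * |H'|) * (C + 1), 1, by positivity, one_pos, ?_⟩
  intro a haI
  have ha1 : |a| ≤ 1 := abs_le.2 haI
  have K1 := k1 a ha1
  have K2 := k2 a ha1
  have K3 := k3 a ha1
  set X : ℝ := (p a - u a) - 2 * Fl.ca ρ v * a with hX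
  set Y : ℝ := q a + r a with hY
  set Z : ℝ := (r a - q a) - 2 * Fl.cb ρ v * a with hZ
  set S : ℝ := -(Real.sqrt 3 / 2) * X - 1 / 2 * Y with hS
  set R : ℝ := -(1 / 2) * X + Real.sqrt 3 / 2 * Y with hR
  obtain ⟨bS, bR⟩ : |S| ≤ 2 * (C * a ^ 2) ∧ |R| ≤ 2 * (C * a ^ 2) := comb hs0 hs2 K1 K2
  refine ⟨?_, ?_, ?_⟩
  · have e : xx ρ (v * rot3) (Φ a v * rot3) + Real.sqrt 3 / 2 * a = E * S := by
      unfold xx
      rw [c_sum, mul_rot3_I, e00, e01, e10, e11, hS, hX, hY]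
      linear_combination (Real.sqrt 3 / 2 * a) * (-hEi)
    rw [e, abs_mul, abs_of_pos hE0]
    exact fin1 hE0.le hC (sq_nonneg a) (abs_nonneg P') (abs_nonneg H') bS
  · have e : yy ρ (v * rot3) (Φ a v * rot3) = Z - R * P' + S * H' := by
      unfold yy
      rw [c_alt, c_sum, c_dif, e00, e01, e10, e11, ← hP', ← hH', hR, hS, hX, hY, hZ, hcb, hPr]
      ring
    rw [e]
    exact fin2 hE0.le hC (sq_nonneg a) K3 bR bS
  · have e : tt ρ (v * rot3) (Φ a v * rot3) + a / 2 = E * R := by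
      unfold tt
      rw [c_dif, mul_rot3_I, e00, e01, e10, e11, hR, hX, hY]
      linear_combination (a / 2) * (-hEi)
    rw [e, abs_mul, abs_of_pos hE0]
    exact fin1 hE0.le hC (sq_nonneg a) (abs_nonneg P') (abs_nonneg H') bR

end

end U3
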