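import Pool.Agent.U3.StmtsG

/-!
NCR: the mass of the pairs of close points with directions at about 120 degrees is bounded by the
mass of the pairs of geodesics which cross at 120 degrees.
-/

open MeasureTheory Filter Topology Set
open UpperHalfPlane hiding I
open scoped ContDiff MatrixGroups ENNReal

namespace U3

open QE QE.NC QJ

namespace NCR

theorem second : SecondCountableTopology SL(2, ℝ) := by
  have h : Topology.IsInducing (fun g : SL(2, ℝ) => (g : Matrix (Fin 2) (Fin 2) ℝ)) := ⟨rfl⟩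
  have h2 : SecondCountableTopology (Matrix (Fin 2) (Fin 2) ℝ) :=
    inferInstanceAs (SecondCountableTopology (Fin 2 → Fin 2 → ℝ))
  exact h.secondCountableTopology

/-- the pairs which come `ε`-close within time `T` -/
def MM (Φ : ℝ → SL(2, ℝ) → SL(2, ℝ)) (T ε η : ℝ) (F : Set ℂ) : Set (SL(2, ℝ) × SL(2, ℝ)) :=
  {x | ∃ p ∈ Icc (0 : ℝ) T ×ˢ Icc (0 : ℝ) T, (Φ p.1 x.1, Φ p.2 x.2) ∈ Nn ε η F}

theorem Nn_closed (hp : Continuous pG) (hu : Continuous uG) (ε η : ℝ) {F : Set ℂ}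
    (hF : IsClosed F) : IsClosed (Nn ε η F) := by
  have h1 : IsClosed {x : SL(2, ℝ) × SL(2, ℝ) | pG x.1 ∈ F} :=
    hF.preimage (hp.comp continuous_fst)
  have h2 : IsClosed {x : SL(2, ℝ) × SL(2, ℝ) | ‖pG x.1 - pG x.2‖ ≤ ε} :=
    isClosed_le ((hp.comp continuous_fst).sub (hp.comp continuous_snd)).norm continuous_const
  have h3 : IsClosed {x : SL(2, ℝ) × SL(2, ℝ) | ‖w3 * uG x.1 - uG x.2‖ ≤ η} :=
    isClosed_le ((continuous_const.mul (hu.comp continuous_fst)).sub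
      (hu.comp continuous_snd)).norm continuous_const
  exact h1.inter (h2.inter h3)

theorem Nn_mono {ε ε' η η' : ℝ} (F : Set ℂ) (h : ε ≤ ε') (h' : η ≤ η') :
    Nn ε η F ⊆ Nn ε' η' F :=
  fun _ hx => ⟨hx.1, hx.2.1.trans h, hx.2.2.trans h'⟩

theorem MM_mono (Φ : ℝ → SL(2, ℝ) → SL(2, ℝ)) (T : ℝ) {ε ε' η η' : ℝ} (F : Set ℂ) (h : ε ≤ ε')
    (h' : η ≤ η') : MM Φ T ε η F ⊆ MM Φ T ε' η' F := by
  rintro x ⟨p, hp, hx⟩
  exact ⟨p, hp, Nn_mono F h h' hx⟩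

theorem cont_two {ρ : ℍ → ℝ} {Φ : ℝ → SL(2, ℝ) → SL(2, ℝ)} (hΦ : GFlow ρ Φ) :
    Continuous fun q : (ℝ × ℝ) × (SL(2, ℝ) × SL(2, ℝ)) => (Φ q.1.1 q.2.1, Φ q.1.2 q.2.2) := by
  have h1 : Continuous fun q : (ℝ × ℝ) × (SL(2, ℝ) × SL(2, ℝ)) => Φ q.1.1 q.2.1 :=
    hΦ.cont.comp (continuous_fst.fst.prodMk continuous_snd.fst)
  have h2 : Continuous fun q : (ℝ × ℝ) × (SL(2, ℝ) × SL(2, ℝ)) => Φ q.1.2 q.2.2 :=
    hΦ.cont.comp (continuous_fst.snd.prodMk continuous_snd.snd)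
  exact h1.prodMk h2

/-- the set of all `(s, t, x)` -/
def SS (Φ : ℝ → SL(2, ℝ) → SL(2, ℝ)) (T ε η : ℝ) (F : Set ℂ) :
    Set ((ℝ × ℝ) × (SL(2, ℝ) × SL(2, ℝ))) :=
  {q | q.1 ∈ Icc (0 : ℝ) T ×ˢ Icc (0 : ℝ) T ∧ (Φ q.1.1 q.2.1, Φ q.1.2 q.2.2) ∈ Nn ε η F}

theorem SS_closed {ρ : ℍ → ℝ} {Φ : ℝ → SL(2, ℝ) → SL(2, ℝ)} (hΦ : GFlow ρ Φ)
    (hp : Continuous pG) (hu : Continuous uG) (T ε η : ℝ) {F : Set ℂ} (hF : IsClosed F) :
    IsClosed (SS Φ T ε η F) :=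
  ((isClosed_Icc.prod isClosed_Icc).preimage continuous_fst).inter
    ((Nn_closed hp hu ε η hF).preimage (cont_two hΦ))

theorem MM_closed {ρ : ℍ → ℝ} {Φ : ℝ → SL(2, ℝ) → SL(2, ℝ)} (hΦ : GFlow ρ Φ)
    (hp : Continuous pG) (hu : Continuous uG) (T ε η : ℝ) {F : Set ℂ} (hF : IsClosed F) :
    IsClosed (MM Φ T ε η F) := by
  have hK : IsCompact (Icc (0 : ℝ) T ×ˢ Icc (0 : ℝ) T) := isCompact_Icc.prod isCompact_Icc
  have : CompactSpace ↥(Icc (0 : ℝ) T ×ˢ Icc (0 : ℝ) T) := isCompact_iff_compactSpace.1 hK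
  have hc : Continuous fun q : ↥(Icc (0 : ℝ) T ×ˢ Icc (0 : ℝ) T) × (SL(2, ℝ) × SL(2, ℝ)) =>
      ((q.1 : ℝ × ℝ), q.2) := (continuous_subtype_val.comp continuous_fst).prodMk continuous_snd
  have h1 := (SS_closed hΦ hp hu T ε η hF).preimage hc
  have h2 := isClosedMap_snd_of_compactSpace _ h1
  convert h2 using 1
  ext x
  constructor
  · rintro ⟨p, hp', hx⟩
    exact ⟨(⟨p, hp'⟩, x), ⟨hp', hx⟩, rfl⟩
  · rintro ⟨⟨⟨p, hp'⟩, y⟩, ⟨_, hx⟩, rfl⟩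
    exact ⟨p, hp', hx⟩

theorem inter_sub {ρ : ℍ → ℝ} {Φ : ℝ → SL(2, ℝ) → SL(2, ℝ)} (hΦ : GFlow ρ Φ)
    (hp : Continuous pG) (hu : Continuous uG) (T : ℝ) {F : Set ℂ} (hF : IsClosed F) :
    (⋂ n : ℕ, MM Φ T (1 / ((n : ℝ) + 1)) (1 / ((n : ℝ) + 1)) F) ⊆ Cc Φ T 0 F := by
  intro x hx
  rw [mem_iInter] at hx
  have hmono : ∀ n : ℕ, 1 / (((n + 1 : ℕ) : ℝ) + 1) ≤ 1 / ((n : ℝ) + 1) := by
    intro n
    apply one_div_le_one_div_of_le (by positivity)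
    push_cast
    linarith
  have hcx : Continuous fun p : ℝ × ℝ => (Φ p.1 x.1, Φ p.2 x.2) :=
    (cont_two hΦ).comp (continuous_id.prodMk continuous_const)
  let A : ℕ → Set (ℝ × ℝ) := fun n => {p | p ∈ Icc (0 : ℝ) T ×ˢ Icc (0 : ℝ) T ∧
    (Φ p.1 x.1, Φ p.2 x.2) ∈ Nn (1 / ((n : ℝ) + 1)) (1 / ((n : ℝ) + 1)) F}
  have hAc : ∀ n, IsClosed (A n) := fun n =>
    (isClosed_Icc.prod isClosed_Icc).inter ((Nn_closed hp hu _ _ hF).preimage hcx)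
  obtain ⟨p, hpA⟩ := IsCompact.nonempty_iInter_of_sequence_nonempty_isCompact_isClosed A
    (fun n p hpn => ⟨hpn.1, Nn_mono F (hmono n) (hmono n) hpn.2⟩)
    (fun n => by
      obtain ⟨p, hp1, hp2⟩ := hx n
      exact ⟨p, hp1, hp2⟩)
    ((isCompact_Icc.prod isCompact_Icc).of_isClosed_subset (hAc 0) fun p hp0 => hp0.1) hAc
  rw [mem_iInter] at hpA
  have hz : ∀ a : ℝ, (∀ n : ℕ, a ≤ 1 / ((n : ℝ) + 1)) → a ≤ 0 := fun a ha =>
    ge_of_tendsto' tendsto_one_div_add_atTop_nhds_zero_nat ha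
  have h0 := hpA 0
  refine ⟨p.1, h0.1.1, p.2, h0.1.2, h0.2.1, ?_, ?_⟩
  · have h1 : ‖pG (Φ p.1 x.1) - pG (Φ p.2 x.2)‖ ≤ 0 := hz _ fun n => (hpA n).2.2.1
    exact sub_eq_zero.1 (norm_le_zero_iff.1 h1)
  · exact hz _ fun n => (hpA n).2.2.2

theorem key [MeasurableSpace SL(2, ℝ)] [BorelSpace SL(2, ℝ)] {ρ : ℍ → ℝ}
    {Φ : ℝ → SL(2, ℝ) → SL(2, ℝ)} (hΦ : GFlow ρ Φ) (hp : Continuous pG) (hu : Continuous uG)
    {ν : Measure SL(2, ℝ)} [SigmaFinite ν] (hinv : ∀ t, Measure.map (Φ t) ν = ν)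
    {T ε η c : ℝ} (hT : 0 < T) {F : Set ℂ} (hF : IsClosed F)
    (harea : ∀ x ∈ MM Φ T ε η F, (volume : Measure (ℝ × ℝ))
      {p | p ∈ Icc (0 : ℝ) T ×ˢ Icc (0 : ℝ) T ∧ (Φ p.1 x.1, Φ p.2 x.2) ∈ Nn ε η F}
        ≤ ENNReal.ofReal c) :
    ENNReal.ofReal (T ^ 2) * (ν.prod ν) (Nn ε η F)
      ≤ ENNReal.ofReal c * (ν.prod ν) (MM Φ T ε η F) := by
  have := second
  have hS : MeasurableSet (SS Φ T ε η F) := (SS_closed hΦ hp hu T ε η hF).measurableSet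
  have hN : MeasurableSet (Nn ε η F) := (Nn_closed hp hu ε η hF).measurableSet
  have hM : MeasurableSet (MM Φ T ε η F) := (MM_closed hΦ hp hu T ε η hF).measurableSet
  have hfl : ∀ t, Continuous (Φ t) := fun t => hΦ.cont.comp (continuous_const.prodMk continuous_id)
  have hmp : ∀ t, MeasurePreserving (Φ t) ν ν := fun t => ⟨(hfl t).measurable, hinv t⟩
  have e1 := Measure.prod_apply (μ := (volume : Measure (ℝ × ℝ))) (ν := ν.prod ν) hS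
  have e2 := Measure.prod_apply_symm (μ := (volume : Measure (ℝ × ℝ))) (ν := ν.prod ν) hS
  have h1 : ENNReal.ofReal (T ^ 2) * (ν.prod ν) (Nn ε η F)
      ≤ ((volume : Measure (ℝ × ℝ)).prod (ν.prod ν)) (SS Φ T ε η F) := by
    rw [e1]
    have hvol : (volume : Measure (ℝ × ℝ)) (Icc (0 : ℝ) T ×ˢ Icc (0 : ℝ) T)
        = ENNReal.ofReal (T ^ 2) := by
      rw [Measure.volume_eq_prod, Measure.prod_prod, Real.volume_Icc, ← ENNReal.ofReal_mul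
        (by linarith)]
      congr 1
      ring
    calc ENNReal.ofReal (T ^ 2) * (ν.prod ν) (Nn ε η F)
        = ∫⁻ _ in Icc (0 : ℝ) T ×ˢ Icc (0 : ℝ) T, (ν.prod ν) (Nn ε η F) := by
          rw [setLIntegral_const, hvol, mul_comm]
      _ = ∫⁻ p in Icc (0 : ℝ) T ×ˢ Icc (0 : ℝ) T, (ν.prod ν) (Prod.mk p ⁻¹' SS Φ T ε η F) := by
          refine setLIntegral_congr_fun (measurableSet_Icc.prod measurableSet_Icc) ?_
          intro p hp'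
          have h2 : Prod.mk p ⁻¹' SS Φ T ε η F = (Prod.map (Φ p.1) (Φ p.2)) ⁻¹' Nn ε η F := by
            ext x
            exact ⟨fun h => h.2, fun h => ⟨hp', h⟩⟩
          show (ν.prod ν) (Nn ε η F) = (ν.prod ν) (Prod.mk p ⁻¹' SS Φ T ε η F)
          rw [h2, ((hmp p.1).prod (hmp p.2)).measure_preimage hN.nullMeasurableSet]
      _ ≤ ∫⁻ p, (ν.prod ν) (Prod.mk p ⁻¹' SS Φ T ε η F) := setLIntegral_le_lintegral _ _
  refine h1.trans ?_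
  rw [e2]
  calc ∫⁻ x, (volume : Measure (ℝ × ℝ)) ((fun p => (p, x)) ⁻¹' SS Φ T ε η F) ∂(ν.prod ν)
      ≤ ∫⁻ x, (MM Φ T ε η F).indicator (fun _ => ENNReal.ofReal c) x ∂(ν.prod ν) := by
        refine lintegral_mono fun x => ?_
        by_cases hx : x ∈ MM Φ T ε η F
        · rw [indicator_of_mem hx]
          exact harea x hx
        · rw [indicator_of_notMem hx]
          have : (fun p => (p, x)) ⁻¹' SS Φ T ε η F = ∅ := by
            ext p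
            simp only [mem_empty_iff_false, iff_false]
            intro h
            exact hx ⟨p, h.1, h.2⟩
          rw [this, measure_empty]
    _ = ENNReal.ofReal c * (ν.prod ν) (MM Φ T ε η F) := by
        rw [lintegral_indicator hM, setLIntegral_const]

end NCR

open NCR in
theorem stmtNcr (hAre : StmtAre) (hRot : StmtRot) : StmtNcr := by
  intro _ _ Γ ρ Φ ν _ _ hFac hΦ hinv F hFc hFU
  have := second
  obtain ⟨hp, hu, -, -, -, -, -, hpre⟩ := hRot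
  obtain ⟨ε₁, hε₁, hth⟩ := hFc.exists_cthickening_subset_open QE.isOpen_UH hFU
  have hF1 : IsCompact (Metric.cthickening ε₁ F) := hFc.cthickening
  have hK1 := hpre _ hF1 hth
  let L : Set SL(2, ℝ) := (fun q : ℝ × SL(2, ℝ) => Φ (-q.1) q.2) ''
    (Icc (0 : ℝ) 1 ×ˢ (pG ⁻¹' Metric.cthickening ε₁ F))
  have hL : IsCompact L := (isCompact_Icc.prod hK1).image
    (hΦ.cont.comp ((continuous_fst.neg).prodMk continuous_snd))
  have hLmem : ∀ s ∈ Icc (0 : ℝ) 1, ∀ g, pG (Φ s g) ∈ Metric.cthickening ε₁ F → g ∈ L := by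
    intro s hs g hg
    refine ⟨(s, Φ s g), ⟨hs, hg⟩, ?_⟩
    show Φ (-s) (Φ s g) = g
    rw [← hΦ.add, neg_add_cancel, hΦ.zero]
  obtain ⟨T₀, C₀, hT₀, hC₀, hA⟩ := hAre Γ ρ Φ hFac hΦ L hL
  obtain ⟨T, hTe⟩ : ∃ T, T = min 1 T₀ := ⟨_, rfl⟩
  have hT : 0 < T := by rw [hTe]; exact lt_min one_pos hT₀
  have hT1 : T ≤ 1 := by rw [hTe]; exact min_le_left _ _
  have hT2 : T ≤ T₀ := by rw [hTe]; exact min_le_right _ _
  refine ⟨T, C₀ / T ^ 2, hT, by positivity, ?_⟩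
  intro F' hF'c hF' b hb
  have hb0 : 0 < b := by
    by_contra h
    rw [ENNReal.ofReal_of_nonpos (not_lt.1 h)] at hb
    exact not_lt_zero hb
  have hsubL : ∀ {ε η : ℝ}, ε ≤ ε₁ → MM Φ T ε η F' ⊆ L ×ˢ L := by
    rintro ε η hε x ⟨p, hp', hx⟩
    have h1 : pG (Φ p.1 x.1) ∈ F := hF' hx.1
    refine ⟨hLmem p.1 ⟨hp'.1.1, hp'.1.2.trans hT1⟩ x.1 (Metric.self_subset_cthickening F h1),
      hLmem p.2 ⟨hp'.2.1, hp'.2.2.trans hT1⟩ x.2 ?_⟩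
    refine Metric.mem_cthickening_of_dist_le _ (pG (Φ p.1 x.1)) ε₁ F h1 ?_
    rw [dist_eq_norm, norm_sub_rev]
    exact hx.2.1.trans hε
  -- the masses of the sets `MM`
  have htend : Tendsto (fun n : ℕ => (ν.prod ν) (MM Φ T (1 / ((n : ℝ) + 1)) (1 / ((n : ℝ) + 1)) F'))
      atTop (𝓝 ((ν.prod ν) (⋂ n : ℕ, MM Φ T (1 / ((n : ℝ) + 1)) (1 / ((n : ℝ) + 1)) F'))) := by
    refine tendsto_measure_iInter_atTop
      (fun n => (MM_closed hΦ hp hu T _ _ hF'c.isClosed).measurableSet.nullMeasurableSet) ?_ ?_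
    · intro m n hmn
      have h : 1 / ((n : ℝ) + 1) ≤ 1 / ((m : ℝ) + 1) := by
        apply one_div_le_one_div_of_le (by positivity)
        have : (m : ℝ) ≤ n := by exact_mod_cast hmn
        linarith
      exact MM_mono Φ T F' h h
    · obtain ⟨n, hn⟩ := exists_nat_one_div_lt hε₁
      refine ⟨n, ne_of_lt ?_⟩
      refine (measure_mono (hsubL hn.le)).trans_lt ?_
      rw [Measure.prod_prod]
      exact ENNReal.mul_lt_top hL.measure_lt_top hL.measure_lt_top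
  have hlt : (ν.prod ν) (⋂ n : ℕ, MM Φ T (1 / ((n : ℝ) + 1)) (1 / ((n : ℝ) + 1)) F')
      < ENNReal.ofReal b :=
    (measure_mono (inter_sub hΦ hp hu T hF'c.isClosed)).trans_lt hb
  have hev := htend.eventually_lt_const hlt
  have hsm : ∀ᶠ n : ℕ in atTop, 1 / ((n : ℝ) + 1) < min ε₁ (1 / 10) :=
    tendsto_one_div_add_atTop_nhds_zero_nat.eventually_lt_const (lt_min hε₁ (by norm_num))
  obtain ⟨n, hn1, hn2⟩ := (hev.and hsm).exists
  obtain ⟨η, hηe⟩ : ∃ η : ℝ, η = 1 / ((n : ℝ) + 1) := ⟨_, rfl⟩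
  rw [← hηe] at hn1 hn2
  have hη : 0 < η := by rw [hηe]; positivity
  refine ⟨η, hη, ?_⟩
  filter_upwards [Ioc_mem_nhdsGT hη] with ε hε
  have hεε₁ : ε ≤ ε₁ := hε.2.trans (hn2.le.trans (min_le_left _ _))
  have hη10 : η ≤ 1 / 10 := hn2.le.trans (min_le_right _ _)
  have hk := key hΦ hp hu hinv (T := T) (ε := ε) (η := η) (c := C₀ * ε ^ 2) hT hF'c.isClosed (by
    intro x hx
    have hxL := hsubL hεε₁ hx
    refine (measure_mono ?_).trans (hA x.1 hxL.1 x.2 hxL.2 ε hε.1)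
    rintro p ⟨hp1, hp2⟩
    exact ⟨⟨hp1.1.1, hp1.1.2.trans hT2⟩, ⟨hp1.2.1, hp1.2.2.trans hT2⟩, hp2.2.1,
      hp2.2.2.trans hη10⟩)
  have hk2 : ENNReal.ofReal (T ^ 2) * (ν.prod ν) (Nn ε η F')
      ≤ ENNReal.ofReal (C₀ * ε ^ 2) * ENNReal.ofReal b :=
    hk.trans (mul_le_mul_right ((measure_mono (MM_mono Φ T F' hε.2 le_rfl)).trans hn1.le) _)
  have hT2pos : (0 : ℝ) < T ^ 2 := by positivity
  rw [← ENNReal.ofReal_mul (by positivity)] at hk2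
  have e3 : C₀ / T ^ 2 * b * ε ^ 2 = (C₀ * ε ^ 2 * b) / T ^ 2 := by
    field_simp
  rw [e3, ENNReal.ofReal_div_of_pos hT2pos, ENNReal.le_div_iff_mul_le
    (Or.inl (ENNReal.ofReal_pos.2 hT2pos).ne') (Or.inl ENNReal.ofReal_ne_top), mul_comm]
  exact hk2

end U3
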