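import Pool.Agent.U3.StmtsG

/-!
Third order statistics of all eigenfunctions on surfaces of negative curvature: apart from
countably many geodesics, the pairs which cross at 120 degrees are negligible.
-/

open MeasureTheory Filter Topology Set
open UpperHalfPlane hiding I
open scoped ContDiff MatrixGroups ENNReal

namespace U3

open QE QE.NC QJ

noncomputable section

namespace NUC

/-- greedy choice of a maximal independent finite set -/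
theorem greedy {α : Type*} (A : Set α) (R : α → α → Prop) (N : ℕ)
    (h : ∀ t : Finset α, (↑t : Set α) ⊆ A → (∀ a ∈ t, ∀ b ∈ t, a ≠ b → ¬ R a b) → t.card ≤ N)
    (hs : ∀ a b, R a b → R b a) :
    ∃ t : Finset α, (↑t : Set α) ⊆ A ∧ ∀ v ∈ A, ∃ w ∈ t, v = w ∨ R w v := by
  classical
  set P : ℕ → Prop := fun n => ∃ t : Finset α, (↑t : Set α) ⊆ A ∧
    (∀ a ∈ t, ∀ b ∈ t, a ≠ b → ¬ R a b) ∧ t.card = n with hP
  have hP0 : P 0 := ⟨∅, by simp, by simp, by simp⟩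
  obtain ⟨t, ht1, ht2, ht3⟩ : P (Nat.findGreatest P N) := Nat.findGreatest_spec (Nat.zero_le N) hP0
  refine ⟨t, ht1, ?_⟩
  intro v hv
  by_contra hc
  push Not at hc
  have hvt : v ∉ t := fun hvt => (hc v hvt).1 rfl
  have hP1 : P (t.card + 1) := by
    refine ⟨insert v t, ?_, ?_, Finset.card_insert_of_notMem hvt⟩
    · intro x hx
      rw [Finset.coe_insert] at hx
      rcases hx with rfl | hx
      · exact hv
      · exact ht1 hx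
    · intro a ha b hb hab
      rcases Finset.mem_insert.1 ha with rfl | ha'
      · rcases Finset.mem_insert.1 hb with rfl | hb'
        · exact absurd rfl hab
        · exact fun hR => (hc b hb').2 (hs _ _ hR)
      · rcases Finset.mem_insert.1 hb with rfl | hb'
        · exact (hc a ha').2
        · exact ht2 a ha' b hb' hab
  have h1 : t.card + 1 ≤ N := by
    obtain ⟨t', h1', h2', h3'⟩ := hP1
    rw [← h3']
    exact h t' h1' h2'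
  have h2 := Nat.le_findGreatest h1 hP1
  omega

theorem exists_N (e M : ℝ≥0∞) (he : e ≠ 0) (hM : M ≠ ⊤) :
    ∃ N : ℕ, ∀ c : ℕ, (c : ℝ≥0∞) * e ≤ M → c ≤ N := by
  obtain ⟨N, hN⟩ := ENNReal.exists_nat_gt (ENNReal.div_ne_top hM he)
  refine ⟨N, fun c hc => ?_⟩
  have h1 : (c : ℝ≥0∞) ≤ M / e := (ENNReal.le_div_iff_mul_le (Or.inl he) (Or.inr hM)).2 hc
  have h2 : (c : ℝ≥0∞) < N := h1.trans_lt hN
  exact_mod_cast h2.le

variable {ρ : ℍ → ℝ} {Φ : ℝ → SL(2, ℝ) → SL(2, ℝ)}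

theorem cont_s (hΦ : GFlow ρ Φ) (v : SL(2, ℝ)) : Continuous fun s => Φ s v :=
  hΦ.cont.comp (continuous_id.prodMk continuous_const)

theorem cont_neg : Continuous fun g : SL(2, ℝ) => -g := by
  have h : (fun g : SL(2, ℝ) => -g) = fun g => (-1) * g := by
    funext g
    rw [neg_mul, one_mul]
  rw [h]
  exact continuous_const.mul continuous_id

theorem Sg_compact (hΦ : GFlow ρ Φ) (S : ℝ) (v : SL(2, ℝ)) : IsCompact (Sg Φ S v) := by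
  have h : Sg Φ S v = (fun s => Φ s v) '' Icc (-S) S ∪ (fun s => -Φ s v) '' Icc (-S) S := by
    ext w
    constructor
    · rintro ⟨s, hs, rfl | rfl⟩
      · exact Or.inl ⟨s, hs, rfl⟩
      · exact Or.inr ⟨s, hs, rfl⟩
    · rintro (⟨s, hs, rfl⟩ | ⟨s, hs, rfl⟩)
      · exact ⟨s, hs, Or.inl rfl⟩
      · exact ⟨s, hs, Or.inr rfl⟩
  rw [h]
  exact (isCompact_Icc.image (cont_s hΦ v)).union
    (isCompact_Icc.image (cont_neg.comp (cont_s hΦ v)))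

theorem flow_inv (hΦ : GFlow ρ Φ) (s : ℝ) (v : SL(2, ℝ)) : Φ (-s) (Φ s v) = v := by
  rw [← hΦ.add, neg_add_cancel, hΦ.zero]

theorem Sg_self (hΦ : GFlow ρ Φ) {S : ℝ} (hS : 0 ≤ S) (v : SL(2, ℝ)) : v ∈ Sg Φ S v :=
  ⟨0, ⟨by linarith, hS⟩, Or.inl (hΦ.zero v).symm⟩

theorem Sg_symm (hΦ : GFlow ρ Φ) {S : ℝ} {v w : SL(2, ℝ)} (h : w ∈ Sg Φ S v) : v ∈ Sg Φ S w := by
  obtain ⟨s, hs, h | h⟩ := h
  · exact ⟨-s, ⟨by linarith [hs.2], by linarith [hs.1]⟩, Or.inl (by rw [h, flow_inv hΦ])⟩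
  · refine ⟨-s, ⟨by linarith [hs.2], by linarith [hs.1]⟩, Or.inr ?_⟩
    rw [h, hΦ.neg, flow_inv hΦ, neg_neg]

theorem Sg_trans (hΦ : GFlow ρ Φ) {S S' : ℝ} {v w u : SL(2, ℝ)} (h : w ∈ Sg Φ S v)
    (h' : u ∈ Sg Φ S' w) : u ∈ Sg Φ (S + S') v := by
  obtain ⟨s, hs, h⟩ := h
  obtain ⟨s', hs', h'⟩ := h'
  refine ⟨s' + s, ⟨by linarith [hs.1, hs'.1], by linarith [hs.2, hs'.2]⟩, ?_⟩
  rw [hΦ.add]
  rcases h with rfl | rfl <;> rcases h' with rfl | rfl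
  · exact Or.inl rfl
  · exact Or.inr rfl
  · exact Or.inr (hΦ.neg _ _)
  · left
    rw [hΦ.neg, neg_neg]

theorem Sg_mono {S S' : ℝ} (h : S ≤ S') (v : SL(2, ℝ)) : Sg Φ S v ⊆ Sg Φ S' v := by
  rintro w ⟨s, hs, hw⟩
  exact ⟨s, ⟨by linarith [hs.1], by linarith [hs.2]⟩, hw⟩

/-- a compact set which contains both components of the crossing pairs -/
def K0 (Φ : ℝ → SL(2, ℝ) → SL(2, ℝ)) (T : ℝ) (F : Set ℂ) : Set SL(2, ℝ) :=
  (fun p : ℝ × SL(2, ℝ) => Φ (-p.1) p.2) '' (Icc 0 T ×ˢ (pG ⁻¹' F))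

theorem K0_compact (hRot : StmtRot) (hΦ : GFlow ρ Φ) (T : ℝ) {F : Set ℂ} (hF : IsCompact F)
    (hFU : F ⊆ UH) : IsCompact (K0 Φ T F) :=
  (isCompact_Icc.prod (hRot.2.2.2.2.2.2.2 F hF hFU)).image
    (hΦ.cont.comp (continuous_fst.neg.prodMk continuous_snd))

theorem Cc_sub (hΦ : GFlow ρ Φ) (T : ℝ) (F : Set ℂ) :
    Cc Φ T 0 F ⊆ K0 Φ T F ×ˢ K0 Φ T F := by
  rintro x ⟨s, hs, t, ht, h1, h2, -⟩
  exact ⟨⟨(s, Φ s x.1), ⟨hs, h1⟩, flow_inv hΦ s x.1⟩,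
    ⟨(t, Φ t x.2), ⟨ht, by rw [h2] at h1; exact h1⟩, flow_inv hΦ t x.2⟩⟩

theorem Cc_compact (hRot : StmtRot) (hΦ : GFlow ρ Φ) (T : ℝ) {F : Set ℂ} (hF : IsCompact F)
    (hFU : F ⊆ UH) : IsCompact (Cc Φ T 0 F) := by
  have hK := K0_compact hRot hΦ T hF hFU
  set Z : Set ((ℝ × ℝ) × (SL(2, ℝ) × SL(2, ℝ))) :=
    ((Icc 0 T ×ˢ Icc 0 T) ×ˢ (K0 Φ T F ×ˢ K0 Φ T F)) ∩
    {z | pG (Φ z.1.1 z.2.1) ∈ F ∧ pG (Φ z.1.1 z.2.1) = pG (Φ z.1.2 z.2.2) ∧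
      ‖w3 * uG (Φ z.1.1 z.2.1) - uG (Φ z.1.2 z.2.2)‖ ≤ 0} with hZ
  have c1 : Continuous fun z : (ℝ × ℝ) × (SL(2, ℝ) × SL(2, ℝ)) => Φ z.1.1 z.2.1 :=
    hΦ.cont.comp ((continuous_fst.comp continuous_fst).prodMk (continuous_fst.comp continuous_snd))
  have c2 : Continuous fun z : (ℝ × ℝ) × (SL(2, ℝ) × SL(2, ℝ)) => Φ z.1.2 z.2.2 :=
    hΦ.cont.comp ((continuous_snd.comp continuous_fst).prodMk (continuous_snd.comp continuous_snd))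
  have hcl : IsClosed {z : (ℝ × ℝ) × (SL(2, ℝ) × SL(2, ℝ)) | pG (Φ z.1.1 z.2.1) ∈ F ∧
      pG (Φ z.1.1 z.2.1) = pG (Φ z.1.2 z.2.2) ∧
      ‖w3 * uG (Φ z.1.1 z.2.1) - uG (Φ z.1.2 z.2.2)‖ ≤ 0} := by
    refine (hF.isClosed.preimage (hRot.1.comp c1)).inter (IsClosed.inter ?_ ?_)
    · exact isClosed_eq (hRot.1.comp c1) (hRot.1.comp c2)
    · exact isClosed_le (((continuous_const.mul (hRot.2.1.comp c1)).sub
        (hRot.2.1.comp c2)).norm) continuous_const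
  have hZc : IsCompact Z :=
    ((isCompact_Icc.prod isCompact_Icc).prod (hK.prod hK)).inter_right hcl
  have himg : Cc Φ T 0 F = Prod.snd '' Z := by
    ext x
    constructor
    · intro hx
      have hx' := Cc_sub hΦ T F hx
      obtain ⟨s, hs, t, ht, h1, h2, h3⟩ := hx
      exact ⟨((s, t), x), ⟨⟨⟨hs, ht⟩, hx'⟩, h1, h2, h3⟩, rfl⟩
    · rintro ⟨⟨⟨s, t⟩, x'⟩, ⟨⟨⟨hs, ht⟩, -⟩, h1, h2, h3⟩, rfl⟩
      exact ⟨s, hs, t, ht, h1, h2, h3⟩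
  rw [himg]
  exact hZc.image continuous_snd

/-- the point of crossing -/
theorem cross (hRot : StmtRot) {T : ℝ} {F : Set ℂ} {v v' : SL(2, ℝ)}
    (h : (v, v') ∈ Cc Φ T 0 F) : ∃ s ∈ Icc 0 T, ∃ t ∈ Icc 0 T,
      Φ t v' = Φ s v * rot3 ∨ Φ t v' = -(Φ s v * rot3) := by
  obtain ⟨s, hs, t, ht, -, h2, h3⟩ := h
  refine ⟨s, hs, t, ht, ?_⟩
  have h4 : w3 * uG (Φ s v) = uG (Φ t v') := by
    have := norm_le_zero_iff.1 h3
    exact sub_eq_zero.1 this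
  obtain ⟨e1, e2⟩ := hRot.2.2.2.2.2.1 (Φ s v)
  exact hRot.2.2.2.2.2.2.1 (Φ s v * rot3) (Φ t v') (by rw [e1]; exact h2) (by rw [e2]; exact h4)

variable [MeasurableSpace SL(2, ℝ)] [BorelSpace SL(2, ℝ)]

/-- (a): the segments with positive measure are covered by countably many segments -/
theorem atoms (hΦ : GFlow ρ Φ) (ν : Measure SL(2, ℝ)) [IsFiniteMeasureOnCompacts ν]
    {K : Set SL(2, ℝ)} (hK : IsCompact K) {S0 : ℝ} (hS0 : 0 ≤ S0) :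
    ∃ v : ℕ → SL(2, ℝ), ∀ w ∈ K, ν (Sg Φ S0 w) ≠ 0 → ∃ i, w ∈ Sg Φ (S0 + S0) (v i) := by
  set K1 : Set SL(2, ℝ) := (fun p : ℝ × SL(2, ℝ) => Φ p.1 p.2) '' (Icc (-S0) S0 ×ˢ K) ∪
    (fun p : ℝ × SL(2, ℝ) => -Φ p.1 p.2) '' (Icc (-S0) S0 ×ˢ K) with hK1
  have hK1c : IsCompact K1 :=
    ((isCompact_Icc.prod hK).image hΦ.cont).union
      ((isCompact_Icc.prod hK).image (cont_neg.comp hΦ.cont))
  have hsub : ∀ w ∈ K, Sg Φ S0 w ⊆ K1 := by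
    rintro w hw u ⟨s, hs, rfl | rfl⟩
    · exact Or.inl ⟨(s, w), ⟨hs, hw⟩, rfl⟩
    · exact Or.inr ⟨(s, w), ⟨hs, hw⟩, rfl⟩
  have key : ∀ m : ℕ, ∃ t : Finset SL(2, ℝ), (↑t : Set SL(2, ℝ)) ⊆ K ∧
      ∀ w ∈ K, (m : ℝ≥0∞)⁻¹ ≤ ν (Sg Φ S0 w) → ∃ u ∈ t, w ∈ Sg Φ (S0 + S0) u := by
    intro m
    obtain ⟨N, hN⟩ := exists_N ((m : ℝ≥0∞)⁻¹) (ν K1) (by simp) hK1c.measure_lt_top.ne
    obtain ⟨t, ht1, ht2⟩ := greedy {w | w ∈ K ∧ (m : ℝ≥0∞)⁻¹ ≤ ν (Sg Φ S0 w)}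
      (fun a b => (Sg Φ S0 a ∩ Sg Φ S0 b).Nonempty) N (by
        intro t ht hd
        apply hN
        have h1 : ν (⋃ a ∈ t, Sg Φ S0 a) = ∑ a ∈ t, ν (Sg Φ S0 a) := by
          apply measure_biUnion_finset
          · intro a ha b hb hab
            rw [Function.onFun, Set.disjoint_iff_inter_eq_empty]
            exact Set.not_nonempty_iff_eq_empty.1 (hd a ha b hb hab)
          · intro a _
            exact (Sg_compact hΦ S0 a).measurableSet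
        have h2 : ν (⋃ a ∈ t, Sg Φ S0 a) ≤ ν K1 := by
          apply measure_mono
          apply Set.iUnion₂_subset
          intro a ha
          exact hsub a (ht ha).1
        have h3 := Finset.card_nsmul_le_sum t (fun a => ν (Sg Φ S0 a)) ((m : ℝ≥0∞)⁻¹)
          (fun a ha => (ht ha).2)
        rw [nsmul_eq_mul] at h3
        exact h3.trans (h1 ▸ h2))
      (fun a b h => by rwa [Set.inter_comm] at h)
    refine ⟨t, fun x hx => (ht1 hx).1, ?_⟩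
    intro w hw hw2
    obtain ⟨u, hu, h⟩ := ht2 w ⟨hw, hw2⟩
    refine ⟨u, hu, ?_⟩
    rcases h with rfl | ⟨y, hy1, hy2⟩
    · exact Sg_self hΦ (by linarith) w
    · exact Sg_trans hΦ hy1 (Sg_symm hΦ hy2)
  choose t ht1 ht2 using key
  have hcount : (insert (1 : SL(2, ℝ)) (⋃ m, (↑(t m) : Set SL(2, ℝ)))).Countable :=
    (Set.countable_iUnion fun m => (t m).countable_toSet).insert 1
  obtain ⟨v, hv⟩ := hcount.exists_eq_range ⟨1, Set.mem_insert _ _⟩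
  refine ⟨v, ?_⟩
  intro w hw h0
  obtain ⟨m, hm⟩ := ENNReal.exists_inv_nat_lt h0
  obtain ⟨u, hu, h⟩ := ht2 m w hw hm.le
  have : u ∈ Set.range v := by
    rw [← hv]
    exact Or.inr (Set.mem_iUnion.2 ⟨m, hu⟩)
  obtain ⟨i, rfl⟩ := this
  exact ⟨i, h⟩

omit [BorelSpace SL(2, ℝ)] in
/-- (b) -/
theorem inter_null (hRot : StmtRot) (hΦ : GFlow ρ Φ) (ν : Measure SL(2, ℝ)) {T : ℝ} (hT : 0 < T)
    {F : Set ℂ} {O : Set SL(2, ℝ)} (hO : ∀ w ∈ K0 Φ T F, w ∉ O → ν (Sg Φ (2 * T) w) = 0)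
    {v₁ v₂ : SL(2, ℝ)}
    (hJ : Set.Countable {s | s ∈ Icc 0 T ∧ ∃ τ ∈ Icc (-T) T, ∃ s' ∈ Icc 0 T,
      Φ τ (Φ s v₁ * rot3) = Φ s' v₂ * rot3 ∨ Φ τ (Φ s v₁ * rot3) = -(Φ s' v₂ * rot3)}) :
    ν ({v' | (v₁, v') ∈ Cc Φ T 0 F ∧ v' ∉ O} ∩ {v' | (v₂, v') ∈ Cc Φ T 0 F ∧ v' ∉ O}) = 0 := by
  set J := {s | s ∈ Icc 0 T ∧ ∃ τ ∈ Icc (-T) T, ∃ s' ∈ Icc 0 T,
      Φ τ (Φ s v₁ * rot3) = Φ s' v₂ * rot3 ∨ Φ τ (Φ s v₁ * rot3) = -(Φ s' v₂ * rot3)} with hJd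
  have hsub : ({v' | (v₁, v') ∈ Cc Φ T 0 F ∧ v' ∉ O} ∩ {v' | (v₂, v') ∈ Cc Φ T 0 F ∧ v' ∉ O}) ⊆
      ⋃ s ∈ J, {v' | v' ∈ K0 Φ T F ∧ v' ∉ O ∧ ∃ t ∈ Icc 0 T,
        Φ t v' = Φ s v₁ * rot3 ∨ Φ t v' = -(Φ s v₁ * rot3)} := by
    rintro v' ⟨⟨h1, h2⟩, ⟨h3, -⟩⟩
    obtain ⟨s, hs, t, ht, h⟩ := cross hRot h1
    obtain ⟨s', hs', t', ht', h'⟩ := cross hRot h3
    have hsJ : s ∈ J := by
      refine ⟨hs, t' - t, ⟨by linarith [ht.2, ht'.1], by linarith [ht.1, ht'.2]⟩, s', hs', ?_⟩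
      have e0 : Φ (t' - t) (Φ t v') = Φ t' v' := by
        rw [← hΦ.add]; congr 1; ring
      rcases h with h | h
      · rw [← h, e0]
        exact h'
      · have e1 : Φ s v₁ * rot3 = -Φ t v' := by rw [h, neg_neg]
        rw [e1, hΦ.neg, e0]
        rcases h' with h' | h'
        · right; rw [h']
        · left; rw [h', neg_neg]
    exact Set.mem_iUnion₂.2 ⟨s, hsJ, (Cc_sub hΦ T F h1).2, h2, t, ht, h⟩
  refine measure_mono_null hsub ?_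
  rw [measure_biUnion_null_iff hJ]
  intro s _
  set X := {v' | v' ∈ K0 Φ T F ∧ v' ∉ O ∧ ∃ t ∈ Icc 0 T,
        Φ t v' = Φ s v₁ * rot3 ∨ Φ t v' = -(Φ s v₁ * rot3)} with hX
  rcases Set.eq_empty_or_nonempty X with he | ⟨w, hw⟩
  · rw [he]; exact measure_empty
  · obtain ⟨hw1, hw2, t0, ht0, hw3⟩ := hw
    refine measure_mono_null ?_ (hO w hw1 hw2)
    rintro v' ⟨-, -, t, ht, h⟩
    have a1 : Φ t v' ∈ Sg Φ 0 (Φ t0 w) := by
      refine ⟨0, ⟨by norm_num, le_refl _⟩, ?_⟩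
      rw [hΦ.zero]
      rcases h with h | h <;> rcases hw3 with hw3 | hw3
      · left; rw [h, hw3]
      · right; rw [h, hw3, neg_neg]
      · right; rw [h, hw3]
      · left; rw [h, hw3]
    obtain ⟨z, hz, a1⟩ := a1
    have hz0 : z = 0 := le_antisymm hz.2 (by have := hz.1; rwa [neg_zero] at this)
    rw [hz0, hΦ.zero] at a1
    refine ⟨t0 - t, ⟨by linarith [ht.2, ht0.1], by linarith [ht.1, ht0.2]⟩, ?_⟩
    have e : Φ (t0 - t) w = Φ (-t) (Φ t0 w) := by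
      rw [← hΦ.add]; congr 1; ring
    rw [e]
    rcases a1 with a1 | a1
    · left; rw [← a1, flow_inv hΦ]
    · right
      have a2 : Φ t0 w = -Φ t v' := by rw [a1, neg_neg]
      rw [a2, hΦ.neg, flow_inv hΦ, neg_neg]

end NUC

open NUC in
theorem stmtNuc (hRot : StmtRot) (hJac : StmtJac) : StmtNuc := by
  intro _ _ Γ ρ Φ ν _ _ hFac hlap hΦ F hF hFU T hT
  have hK := K0_compact hRot hΦ T hF hFU
  obtain ⟨v, hv⟩ := atoms hΦ ν hK (S0 := 2 * T) (by linarith)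
  refine ⟨v, 2 * T + 2 * T, by linarith, ?_⟩
  set O : Set SL(2, ℝ) := ⋃ i, Sg Φ (2 * T + 2 * T) (v i) with hO
  have hOm : MeasurableSet O :=
    MeasurableSet.iUnion fun i => (Sg_compact hΦ _ (v i)).measurableSet
  have hOn : ∀ w ∈ K0 Φ T F, w ∉ O → ν (Sg Φ (2 * T) w) = 0 := by
    intro w hw hwO
    by_contra h0
    obtain ⟨i, hi⟩ := hv w hw h0
    exact hwO (Set.mem_iUnion.2 ⟨i, hi⟩)
  have hCm : MeasurableSet (Cc Φ T 0 F) := (Cc_compact hRot hΦ T hF hFU).measurableSet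
  have hCv : ∀ w, MeasurableSet {v' | (w, v') ∈ Cc Φ T 0 F ∧ v' ∉ O} := by
    intro w
    exact (measurable_prodMk_left hCm).inter hOm.compl
  have hCK : ∀ w, {v' | (w, v') ∈ Cc Φ T 0 F ∧ v' ∉ O} ⊆ K0 Φ T F :=
    fun w v' h => (Cc_sub hΦ T F h.1).2
  -- (c)
  have hW : ∀ m : ℕ, ν {w | w ∈ K0 Φ T F ∧ w ∉ O ∧
      (m : ℝ≥0∞)⁻¹ ≤ ν {v' | (w, v') ∈ Cc Φ T 0 F ∧ v' ∉ O}} = 0 := by
    intro m
    obtain ⟨N, hN⟩ := exists_N ((m : ℝ≥0∞)⁻¹) (ν (K0 Φ T F)) (by simp) hK.measure_lt_top.ne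
    obtain ⟨t, ht1, ht2⟩ := greedy {w | w ∈ K0 Φ T F ∧ w ∉ O ∧
      (m : ℝ≥0∞)⁻¹ ≤ ν {v' | (w, v') ∈ Cc Φ T 0 F ∧ v' ∉ O}}
      (fun a b => b ∈ Sg Φ (2 * T) a) N (by
        intro t ht hd
        apply hN
        have h1 : ν (⋃ a ∈ t, {v' | (a, v') ∈ Cc Φ T 0 F ∧ v' ∉ O}) =
            ∑ a ∈ t, ν {v' | (a, v') ∈ Cc Φ T 0 F ∧ v' ∉ O} := by
          apply measure_biUnion_finset₀
          · intro a ha b hb hab
            exact inter_null hRot hΦ ν hT hOn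
              (hJac Γ ρ Φ hFac hlap hΦ a b T hT (hd a ha b hb hab))
          · intro a _
            exact (hCv a).nullMeasurableSet
        have h2 : ν (⋃ a ∈ t, {v' | (a, v') ∈ Cc Φ T 0 F ∧ v' ∉ O}) ≤ ν (K0 Φ T F) := by
          apply measure_mono
          apply Set.iUnion₂_subset
          intro a _
          exact hCK a
        have h3 := Finset.card_nsmul_le_sum t
          (fun a => ν {v' | (a, v') ∈ Cc Φ T 0 F ∧ v' ∉ O}) ((m : ℝ≥0∞)⁻¹)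
          (fun a ha => (ht ha).2.2)
        rw [nsmul_eq_mul] at h3
        exact h3.trans (h1 ▸ h2))
      (fun a b h => Sg_symm hΦ h)
    have hsub : {w | w ∈ K0 Φ T F ∧ w ∉ O ∧
        (m : ℝ≥0∞)⁻¹ ≤ ν {v' | (w, v') ∈ Cc Φ T 0 F ∧ v' ∉ O}} ⊆ ⋃ a ∈ t, Sg Φ (2 * T) a := by
      intro w hw
      obtain ⟨u, hu, h⟩ := ht2 w hw
      refine Set.mem_iUnion₂.2 ⟨u, hu, ?_⟩
      rcases h with rfl | h
      · exact Sg_self hΦ (by linarith) w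
      · exact h
    refine measure_mono_null hsub ?_
    refine (measure_biUnion_null_iff (μ := ν) (I := (↑t : Set SL(2, ℝ)))
      (s := fun a => Sg Φ (2 * T) a) t.countable_toSet).2 ?_
    intro a ha
    exact hOn a (ht1 ha).1 (ht1 ha).2.1
  have hset : Cc Φ T 0 F ∩ {x | (∀ i, x.1 ∉ Sg Φ (2 * T + 2 * T) (v i)) ∧
      ∀ i, x.2 ∉ Sg Φ (2 * T + 2 * T) (v i)} = Cc Φ T 0 F ∩ (Oᶜ ×ˢ Oᶜ) := by
    ext x
    simp only [hO, Set.mem_inter_iff, Set.mem_ofPred_eq, Set.mem_prod, Set.mem_compl_iff,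
      Set.mem_iUnion, not_exists]
  rw [hset, Measure.measure_prod_null (hCm.inter (hOm.compl.prod hOm.compl))]
  have hN : ν (⋃ m : ℕ, {w | w ∈ K0 Φ T F ∧ w ∉ O ∧
      (m : ℝ≥0∞)⁻¹ ≤ ν {v' | (w, v') ∈ Cc Φ T 0 F ∧ v' ∉ O}}) = 0 :=
    measure_iUnion_null hW
  have hae := compl_mem_ae_iff.2 hN
  filter_upwards [hae] with w hw
  show ν (Prod.mk w ⁻¹' (Cc Φ T 0 F ∩ Oᶜ ×ˢ Oᶜ)) = 0
  by_cases hwO : w ∈ O
  · have : Prod.mk w ⁻¹' (Cc Φ T 0 F ∩ Oᶜ ×ˢ Oᶜ) = ∅ := by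
      ext v'
      constructor
      · rintro ⟨-, h, -⟩
        exact h hwO
      · exact fun h => h.elim
    rw [this]; exact measure_empty
  · have hle : Prod.mk w ⁻¹' (Cc Φ T 0 F ∩ Oᶜ ×ˢ Oᶜ) ⊆
        {v' | (w, v') ∈ Cc Φ T 0 F ∧ v' ∉ O} := fun v' h => ⟨h.1, h.2.2⟩
    refine measure_mono_null hle ?_
    by_contra h0
    obtain ⟨m, hm⟩ := ENNReal.exists_inv_nat_lt h0
    have hwK : w ∈ K0 Φ T F := by
      have hne : {v' | (w, v') ∈ Cc Φ T 0 F ∧ v' ∉ O}.Nonempty := nonempty_of_measure_ne_zero h0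
      obtain ⟨v', hv', -⟩ := hne
      exact (Cc_sub hΦ T F hv').1
    exact hw (Set.mem_iUnion.2 ⟨m, hwK, hwO, hm.le⟩)

end

end U3
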