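import Pool.Agent.U3.StmtsG
import Pool.Agent.Lib_helper67.QE.FlowInv
import Pool.Agent.Lib_helper67.QE.JetJ

/-!
The limit measure on the frames (module U3_RMK).
-/

open MeasureTheory Filter Topology Set
open UpperHalfPlane hiding I
open scoped ContDiff MatrixGroups ENNReal NNReal

namespace U3

open QE QE.NC QJ

noncomputable section

namespace RMK

/-! ### frames -/

lemma continuous_proj : Continuous fun g : SL(2, ℝ) => g • UpperHalfPlane.I :=
  continuous_id.smul continuous_const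

lemma continuous_pG : Continuous pG := continuous_coe.comp continuous_proj

lemma pG_mem (g : SL(2, ℝ)) : pG g ∈ UH := (g • UpperHalfPlane.I).im_pos

lemma continuous_uG : Continuous uG :=
  continuous_const.mul (Complex.continuous_conj.comp FM.continuous_dirG)

lemma norm_uG (g : SL(2, ℝ)) : ‖uG g‖ = 1 := by
  simp only [uG, norm_mul, Complex.norm_I, RCLike.norm_conj, FM.norm_dirG, mul_one]

lemma uG_ne (g : SL(2, ℝ)) : uG g ≠ 0 := by
  intro h
  have := norm_uG g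
  rw [h] at this
  simp at this

lemma neg_proj (g : SL(2, ℝ)) : (-g) • UpperHalfPlane.I = g • UpperHalfPlane.I := by
  apply UpperHalfPlane.ext
  have h1 := FM.smul_den (-g) UpperHalfPlane.I
  have h2 := FM.smul_den g UpperHalfPlane.I
  have e : den (-g) (UpperHalfPlane.I : ℍ) = - den g (UpperHalfPlane.I : ℍ) := by
    simp only [den]
    have e0 : (-g) 1 0 = - g 1 0 := by simp
    have e1 : (-g) 1 1 = - g 1 1 := by simp
    rw [e0, e1]
    push_cast
    ring
  have e0 : (-g) 0 0 = - g 0 0 := by simp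
  have e1 : (-g) 0 1 = - g 0 1 := by simp
  rw [e, e0, e1] at h1
  simp only [Complex.ofReal_neg] at h1
  have h3 : (((-g) • UpperHalfPlane.I : ℍ) : ℂ) * den g (UpperHalfPlane.I : ℍ)
      = ((g • UpperHalfPlane.I : ℍ) : ℂ) * den g (UpperHalfPlane.I : ℍ) := by
    linear_combination (-1 : ℂ) * h1 - h2
  exact mul_right_cancel₀ (FM.den_ne g _) h3

lemma pG_neg (g : SL(2, ℝ)) : pG (-g) = pG g := by
  simp only [pG, neg_proj]

lemma uG_neg (g : SL(2, ℝ)) : uG (-g) = uG g := by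
  simp only [uG, FM.dirG_neg]

lemma isCompact_pre {K : Set ℂ} (hK : IsCompact K) (hKU : K ⊆ UH) : IsCompact (pG ⁻¹' K) := by
  have h1 : IsCompact (UpperHalfPlane.coe ⁻¹' K) := by
    refine (isOpenEmbedding_coe.isInducing.isCompact_preimage_iff ?_).2 hK
    rw [range_coe_eq]
    exact hKU
  exact isProperMap_smul_I.isCompact_preimage h1

lemma isOpen_UH : IsOpen UH := isOpen_lt continuous_const Complex.continuous_im

/-! ### the weights -/

/-- the Fejer sum -/
def Sn (e : ℤ → ℕ → ℂ → ℂ) (q : ℕ × ℕ) (g : SL(2, ℝ)) : ℂ :=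
  ∑ j ∈ Finset.range q.1, (starRingEnd ℂ) (uG g) ^ j * e j q.2 (pG g)

/-- the weight -/
def Wn (e : ℤ → ℕ → ℂ → ℂ) (q : ℕ × ℕ) (g : SL(2, ℝ)) : ℝ :=
  (pG g).im ^ 2 * ‖Sn e q g‖ ^ 2 / (2 * Real.pi * q.1)

variable {e : ℤ → ℕ → ℂ → ℂ}

lemma continuous_e (hc : ∀ j n, ContinuousOn (e j n) UH) (j : ℤ) (n : ℕ) :
    Continuous fun g => e j n (pG g) :=
  (hc j n).comp_continuous continuous_pG pG_mem

lemma continuous_Sn (hc : ∀ j n, ContinuousOn (e j n) UH) (q : ℕ × ℕ) : Continuous (Sn e q) := by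
  unfold Sn
  refine continuous_finsetSum _ fun j _ => ?_
  exact ((Complex.continuous_conj.comp continuous_uG).pow j).mul (continuous_e hc _ _)

lemma continuous_Wn (hc : ∀ j n, ContinuousOn (e j n) UH) (q : ℕ × ℕ) : Continuous (Wn e q) := by
  unfold Wn
  exact (((Complex.continuous_im.comp continuous_pG).pow 2).mul
    ((continuous_Sn hc q).norm.pow 2)).div_const _

lemma Wn_nonneg (q : ℕ × ℕ) (g : SL(2, ℝ)) : 0 ≤ Wn e q g := by
  unfold Wn
  positivity

lemma Wn_neg (q : ℕ × ℕ) (g : SL(2, ℝ)) : Wn e q (-g) = Wn e q g := by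
  simp only [Wn, Sn, pG_neg, uG_neg]

lemma Wn_expand (hj : ∀ j n, ∀ z ∈ UH, (starRingEnd ℂ) (e j n z) = (-1) ^ j * e (-j) n z)
    (q : ℕ × ℕ) (g : SL(2, ℝ)) :
    (Wn e q g : ℂ) = ∑ j ∈ Finset.range q.1, ∑ l ∈ Finset.range q.1,
      ((2 * Real.pi * q.1 : ℂ)⁻¹ * (-1) ^ (l : ℤ) * ((pG g).im : ℂ) ^ 2 *
        (e j q.2 (pG g) * e (-(l : ℤ)) q.2 (pG g))) * uG g ^ ((l : ℤ) - j) := by
  have h1 : ((‖Sn e q g‖ : ℝ) : ℂ) ^ 2 = Sn e q g * (starRingEnd ℂ) (Sn e q g) :=
    (Complex.mul_conj' _).symm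
  have h2 : (Wn e q g : ℂ) = (2 * Real.pi * q.1 : ℂ)⁻¹ * ((pG g).im : ℂ) ^ 2 *
      (Sn e q g * (starRingEnd ℂ) (Sn e q g)) := by
    rw [← h1]
    unfold Wn
    push_cast
    rw [div_eq_mul_inv]
    ring
  rw [h2]
  unfold Sn
  rw [map_sum, Finset.sum_mul_sum, Finset.mul_sum]
  refine Finset.sum_congr rfl fun j _ => ?_
  rw [Finset.mul_sum]
  refine Finset.sum_congr rfl fun l _ => ?_
  have h3 : (starRingEnd ℂ) (uG g) ^ j = uG g ^ (-(j : ℤ)) := by
    rw [← FM.conj_zpow (norm_uG g), map_zpow₀, zpow_natCast]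
  rw [map_mul, map_pow, Complex.conj_conj, hj _ _ _ (pG_mem g), h3, sub_eq_add_neg,
    zpow_add₀ (uG_ne g), zpow_natCast (uG g)]
  ring

variable [MeasurableSpace SL(2, ℝ)] [BorelSpace SL(2, ℝ)]

/-! ### integrals over the fibres -/

lemma integral_uG (z : ℍ) (m : ℤ) :
    ∫ θ in Ioc 0 (2 * Real.pi), uG (Berry.frame (z, θ)) ^ m
      = if m = 0 then 2 * (Real.pi : ℂ) else 0 := by
  have e1 : ∀ θ : ℝ, uG (Berry.frame (z, θ)) ^ m
      = Complex.I ^ m * dirG (Berry.frame (z, θ)) ^ (-m) := by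
    intro θ
    rw [uG, mul_zpow, ← FM.conj_zpow (FM.norm_dirG _), map_zpow₀]
  simp only [e1]
  rw [integral_const_mul, FM.integral_dirG]
  by_cases hm : m = 0
  · subst hm
    simp
  · rw [if_neg hm, if_neg (by simpa using hm), mul_zero]

lemma pG_frame (z : ℍ) (θ : ℝ) : pG (Berry.frame (z, θ)) = z := by
  simp only [pG, Berry.frame_smul_I]

lemma fiber {h : ℂ → ℂ} {m : ℤ}
    (hint : Integrable (fun g => h (pG g) * uG g ^ m) Berry.nuF) :
    ∫ g, h (pG g) * uG g ^ m ∂Berry.nuF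
      = if m = 0 then 2 * Real.pi * ∫ z : ℍ, h z else 0 := by
  rw [FM.integral_nuF hint]
  have e2 : ∀ z : ℍ, ∫ θ in Ioc 0 (2 * Real.pi), h (pG (Berry.frame (z, θ))) *
      uG (Berry.frame (z, θ)) ^ m = (if m = 0 then 2 * (Real.pi : ℂ) else 0) * h z := by
    intro z
    rw [← integral_uG z m, ← integral_mul_const]
    refine integral_congr_ae (Eventually.of_forall fun θ => ?_)
    simp only
    rw [pG_frame]
    ring
  simp only [e2]
  rw [integral_const_mul]
  split_ifs <;> simp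

/-- the approximating functionals -/
def J (e : ℤ → ℕ → ℂ → ℂ) (q : ℕ × ℕ) (f : SL(2, ℝ) → ℂ) : ℂ :=
  ∫ g, f g * (Wn e q g : ℂ) ∂Berry.nuF

omit [BorelSpace SL(2, ℝ)] in
lemma J_smul (q : ℕ × ℕ) (c : ℂ) (f : SL(2, ℝ) → ℂ) :
    J e q (fun g => c * f g) = c * J e q f := by
  unfold J
  simp only [mul_assoc]
  rw [integral_const_mul]

lemma integrable_J (hc : ∀ j n, ContinuousOn (e j n) UH) (q : ℕ × ℕ) {f : SL(2, ℝ) → ℂ}
    (hf : Continuous f) (hs : HasCompactSupport f) :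
    Integrable (fun g => f g * (Wn e q g : ℂ)) Berry.nuF := by
  refine Continuous.integrable_of_hasCompactSupport ?_ hs.mul_right
  exact hf.mul (Complex.continuous_ofReal.comp (continuous_Wn hc q))

lemma J_add (hc : ∀ j n, ContinuousOn (e j n) UH) (q : ℕ × ℕ) {f f' : SL(2, ℝ) → ℂ}
    (hf : Continuous f) (hs : HasCompactSupport f) (hf' : Continuous f')
    (hs' : HasCompactSupport f') :
    J e q (fun g => f g + f' g) = J e q f + J e q f' := by
  unfold J
  rw [← integral_add (integrable_J hc q hf hs) (integrable_J hc q hf' hs')]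
  simp only [add_mul]

lemma J_real (q : ℕ × ℕ) (f : SL(2, ℝ) → ℝ) : J e q (fun g => (f g : ℂ))
    = ((∫ g, f g * Wn e q g ∂Berry.nuF : ℝ) : ℂ) := by
  unfold J
  rw [← integral_complex_ofReal]
  push_cast
  rfl

lemma J_re (q : ℕ × ℕ) {f : SL(2, ℝ) → ℝ} (h0 : ∀ g, 0 ≤ f g) :
    0 ≤ (J e q (fun g => (f g : ℂ))).re := by
  rw [J_real, Complex.ofReal_re]
  exact integral_nonneg fun g => mul_nonneg (h0 g) (Wn_nonneg q g)

lemma J_im (q : ℕ × ℕ) (f : SL(2, ℝ) → ℝ) : (J e q (fun g => (f g : ℂ))).im = 0 := by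
  rw [J_real, Complex.ofReal_im]

lemma J_neg (q : ℕ × ℕ) (f : SL(2, ℝ) → ℂ) : J e q (fun g => f (-g)) = J e q f := by
  unfold J
  rw [← integral_mul_left_eq_self (fun g => f g * (Wn e q g : ℂ)) (-1)]
  refine integral_congr_ae (Eventually.of_forall fun g => ?_)
  simp only [neg_mul, one_mul, Wn_neg]

/-! ### the coefficients -/

lemma term (hc : ∀ j n, ContinuousOn (e j n) UH) {ζ : ℂ → ℂ} (hζ : Test UH ζ) (c : ℂ)
    (j l : ℤ) (n : ℕ) (m : ℤ) :
    Integrable (fun g => ζ (pG g) * (c * ((pG g).im : ℂ) ^ 2 *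
      (e j n (pG g) * e l n (pG g))) * uG g ^ m) Berry.nuF ∧
    ∫ g, ζ (pG g) * (c * ((pG g).im : ℂ) ^ 2 * (e j n (pG g) * e l n (pG g))) * uG g ^ m
      ∂Berry.nuF
      = if m = 0 then 2 * Real.pi * (c * ∫ z, ζ z * (e j n z * e l n z)) else 0 := by
  have hint : Integrable (fun g => ζ (pG g) * (c * ((pG g).im : ℂ) ^ 2 *
      (e j n (pG g) * e l n (pG g))) * uG g ^ m) Berry.nuF := by
    refine Continuous.integrable_of_hasCompactSupport ?_ ?_
    · refine ((hζ.smooth.continuous.comp continuous_pG).mul ((continuous_const.mul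
        ((Complex.continuous_ofReal.comp (Complex.continuous_im.comp continuous_pG)).pow 2)).mul
        ((continuous_e hc j n).mul (continuous_e hc l n)))).mul
        (continuous_uG.zpow₀ m fun g => Or.inl (uG_ne g))
    · refine HasCompactSupport.intro (isCompact_pre hζ.supp hζ.sub) fun g hg => ?_
      rw [image_eq_zero_of_notMem_tsupport hg, zero_mul, zero_mul]
  refine ⟨hint, ?_⟩
  have h := fiber (h := fun z => ζ z * (c * (z.im : ℂ) ^ 2 * (e j n z * e l n z))) (m := m) hint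
  refine h.trans ?_
  split_ifs with hm
  · congr 1
    rw [integral_uhp (fun z => ζ z * (c * (z.im : ℂ) ^ 2 * (e j n z * e l n z))),
      ← integral_const_mul]
    have hs : ∫ z in UH, c * (ζ z * (e j n z * e l n z)) = ∫ z, c * (ζ z * (e j n z * e l n z)) := by
      refine setIntegral_eq_integral_of_forall_compl_eq_zero fun z hz => ?_
      have : z ∉ tsupport ζ := fun h => hz (hζ.sub h)
      rw [image_eq_zero_of_notMem_tsupport this]
      ring
    rw [← hs]
    refine setIntegral_congr_fun isOpen_UH.measurableSet fun z hz => ?_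
    have hz' : (z.im : ℂ) ≠ 0 := by
      have : z.im ≠ 0 := ne_of_gt hz
      exact_mod_cast this
    field_simp
  · rfl

lemma J_coeff (hc : ∀ j n, ContinuousOn (e j n) UH)
    (hj : ∀ j n, ∀ z ∈ UH, (starRingEnd ℂ) (e j n z) = (-1) ^ j * e (-j) n z)
    (q : ℕ × ℕ) (k : ℤ) {ζ : ℂ → ℂ} (hζ : Test UH ζ) :
    J e q (fun g => ζ (pG g) * uG g ^ k)
      = ∑ j ∈ Finset.range q.1, ∑ l ∈ Finset.range q.1, if (j : ℤ) - l = k then
        (q.1 : ℂ)⁻¹ * ((-1) ^ (l : ℤ) * ∫ z, ζ z * (e j q.2 z * e (-(l : ℤ)) q.2 z)) else 0 := by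
  unfold J
  have e1 : ∀ g : SL(2, ℝ), ζ (pG g) * uG g ^ k * (Wn e q g : ℂ)
      = ∑ j ∈ Finset.range q.1, ∑ l ∈ Finset.range q.1,
        ζ (pG g) * ((2 * Real.pi * q.1 : ℂ)⁻¹ * (-1) ^ (l : ℤ) * ((pG g).im : ℂ) ^ 2 *
        (e j q.2 (pG g) * e (-(l : ℤ)) q.2 (pG g))) * uG g ^ (k + ((l : ℤ) - j)) := by
    intro g
    rw [Wn_expand hj, Finset.mul_sum]
    refine Finset.sum_congr rfl fun j _ => ?_
    rw [Finset.mul_sum]
    refine Finset.sum_congr rfl fun l _ => ?_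
    rw [zpow_add₀ (uG_ne g) k]
    ring
  simp only [e1]
  have ht := fun (j l : ℕ) => term hc hζ ((2 * Real.pi * q.1 : ℂ)⁻¹ * (-1) ^ (l : ℤ)) (j : ℤ)
    (-(l : ℤ)) q.2 (k + ((l : ℤ) - j))
  rw [integral_finsetSum _ fun j _ => integrable_finsetSum _ fun l _ => (ht j l).1]
  refine Finset.sum_congr rfl fun j hjr => ?_
  rw [integral_finsetSum _ fun l _ => (ht j l).1]
  refine Finset.sum_congr rfl fun l _ => ?_
  rw [(ht j l).2]
  have hN : (q.1 : ℂ) ≠ 0 := by
    have := Finset.mem_range.1 hjr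
    have h0 : q.1 ≠ 0 := by omega
    exact_mod_cast h0
  have hpi : (Real.pi : ℂ) ≠ 0 := by exact_mod_cast Real.pi_ne_zero
  by_cases h : (j : ℤ) - l = k
  · rw [if_pos h, if_pos (by omega)]
    field_simp
  · rw [if_neg h, if_neg (by omega)]

/-- the filter of iterated limits -/
def FF : Filter (ℕ × ℕ) := (atTop : Filter ℕ).curry atTop

instance : NeBot FF := by
  refine ⟨fun h => ?_⟩
  have h1 : ∀ᶠ _q in FF, False := by
    rw [h]
    exact eventually_bot
  unfold FF at h1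
  rw [eventually_curry_iff] at h1
  obtain ⟨_, h2⟩ := h1.exists
  exact h2.exists.choose_spec

omit [MeasurableSpace SL(2, ℝ)] [BorelSpace SL(2, ℝ)] in
lemma tendsto_FF {F : ℕ × ℕ → ℂ} {a : ℕ → ℂ} {b : ℂ}
    (h1 : ∀ N, Tendsto (fun n => F (N, n)) atTop (𝓝 (a N))) (h2 : Tendsto a atTop (𝓝 b)) :
    Tendsto F FF (𝓝 b) := by
  rw [tendsto_nhds]
  intro s hs hb
  show ∀ᶠ q in FF, F q ∈ s
  unfold FF
  rw [eventually_curry_iff]
  filter_upwards [h2.eventually_mem (hs.mem_nhds hb)] with N hN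
  exact (h1 N).eventually_mem (hs.mem_nhds hN)

omit [MeasurableSpace SL(2, ℝ)] [BorelSpace SL(2, ℝ)] in
lemma sgn (l : ℤ) : (-1 : ℂ) ^ l * (-1 : ℂ) ^ (-l) = 1 := by
  rw [← zpow_add₀ (by norm_num), add_neg_cancel, zpow_zero]

lemma J_lim (hc : ∀ j n, ContinuousOn (e j n) UH)
    (hj : ∀ j n, ∀ z ∈ UH, (starRingEnd ℂ) (e j n z) = (-1) ^ j * e (-j) n z)
    {P : ℤ → (ℂ → ℂ) → ℂ}
    (hP : ∀ (j m : ℤ) (ζ : ℂ → ℂ), Test UH ζ →
      Tendsto (fun n => ∫ z, ζ z * (e j n z * e m n z)) atTop (𝓝 ((-1) ^ m * P (j + m) ζ)))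
    (k : ℤ) {ζ : ℂ → ℂ} (hζ : Test UH ζ) :
    Tendsto (fun q => J e q (fun g => ζ (pG g) * uG g ^ k)) FF (𝓝 (P k ζ)) := by
  refine tendsto_FF (a := fun N => ((N - k.natAbs : ℕ) : ℂ) / N * P k ζ) (fun N => ?_)
    (FM.tendsto_count k _)
  have e1 : ((N - k.natAbs : ℕ) : ℂ) / N * P k ζ
      = ∑ j ∈ Finset.range N, ∑ l ∈ Finset.range N, if (j : ℤ) - l = k then
        (N : ℂ)⁻¹ * P k ζ else 0 := by
    rw [FM.count]
    ring
  rw [e1]
  simp only [J_coeff hc hj _ k hζ]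
  refine tendsto_finsetSum _ fun j _ => tendsto_finsetSum _ fun l _ => ?_
  split_ifs with h
  · have h1 := ((hP j (-(l : ℤ)) ζ hζ).const_mul ((-1 : ℂ) ^ (l : ℤ))).const_mul ((N : ℂ)⁻¹)
    rw [← mul_assoc ((-1 : ℂ) ^ (l : ℤ)), sgn, one_mul, ← sub_eq_add_neg, h] at h1
    exact h1
  · exact tendsto_const_nhds

/-- the ultrafilter -/
def UU : Ultrafilter (ℕ × ℕ) := Ultrafilter.of FF

omit [MeasurableSpace SL(2, ℝ)] [BorelSpace SL(2, ℝ)] in
lemma UU_le : (UU : Filter (ℕ × ℕ)) ≤ FF := Ultrafilter.of_le FF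

/-- boundedness of the approximating functionals -/
def Bdd (e : ℤ → ℕ → ℂ → ℂ) : Prop :=
  ∀ K : Set SL(2, ℝ), IsCompact K → ∃ C : ℝ, ∀ᶠ q in (UU : Filter (ℕ × ℕ)),
    ∫ g in K, Wn e q g ∂Berry.nuF ≤ C

lemma bdd (hc : ∀ j n, ContinuousOn (e j n) UH)
    (hj : ∀ j n, ∀ z ∈ UH, (starRingEnd ℂ) (e j n z) = (-1) ^ j * e (-j) n z)
    {P : ℤ → (ℂ → ℂ) → ℂ}
    (hP : ∀ (j m : ℤ) (ζ : ℂ → ℂ), Test UH ζ →
      Tendsto (fun n => ∫ z, ζ z * (e j n z * e m n z)) atTop (𝓝 ((-1) ^ m * P (j + m) ζ))) :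
    Bdd e := by
  intro K hK
  obtain ⟨χ, h1, h2, h3⟩ := exists_cutoff_nonneg isOpen_UH (hK.image continuous_pG)
    (by rintro _ ⟨g, -, rfl⟩; exact pG_mem g)
  have h4 := (J_lim hc hj hP 0 h1).mono_left UU_le
  have h5 : ∀ᶠ q in (UU : Filter (ℕ × ℕ)),
      ‖J e q (fun g => (χ (pG g) : ℂ) * uG g ^ (0 : ℤ))‖ < ‖P 0 (fun z => (χ z : ℂ))‖ + 1 :=
    h4.norm.eventually_lt_const (by linarith)
  refine ⟨‖P 0 (fun z => (χ z : ℂ))‖ + 1, ?_⟩
  filter_upwards [h5] with q hq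
  simp only [zpow_zero, mul_one] at hq
  rw [J_real (f := fun g => χ (pG g)), Complex.norm_real] at hq
  refine le_trans ?_ ((le_abs_self _).trans hq.le)
  have hcχ : Continuous fun g => χ (pG g) := by
    have := Complex.continuous_re.comp (h1.smooth.continuous.comp continuous_pG)
    simpa [Function.comp_def] using this
  have hsχ : HasCompactSupport fun g => χ (pG g) := by
    refine HasCompactSupport.intro (isCompact_pre h1.supp h1.sub) fun g hg => ?_
    have : (χ (pG g) : ℂ) = 0 := image_eq_zero_of_notMem_tsupport (f := fun z => (χ z : ℂ)) hg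
    exact_mod_cast this
  have hint : Integrable (fun g => χ (pG g) * Wn e q g) Berry.nuF :=
    (hcχ.mul (continuous_Wn hc q)).integrable_of_hasCompactSupport hsχ.mul_right
  have hle : ∫ g in K, Wn e q g ∂Berry.nuF ≤ ∫ g in K, χ (pG g) * Wn e q g ∂Berry.nuF := by
    refine le_of_eq (setIntegral_congr_fun hK.measurableSet fun g hg => ?_)
    rw [h3 _ (mem_image_of_mem _ hg), one_mul]
  exact hle.trans (setIntegral_le_integral hint
    (Eventually.of_forall fun g => mul_nonneg (h2 _) (Wn_nonneg q g)))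

/-! ### the limit -/

lemma J_norm (hc : ∀ j n, ContinuousOn (e j n) UH) (q : ℕ × ℕ) {f : SL(2, ℝ) → ℂ} {C : ℝ}
    (hC : ∀ g, ‖f g‖ ≤ C) {K : Set SL(2, ℝ)} (hK : IsCompact K) (hs : ∀ g ∉ K, f g = 0) :
    ‖J e q f‖ ≤ C * ∫ g in K, Wn e q g ∂Berry.nuF := by
  unfold J
  have e1 : ∫ g, f g * (Wn e q g : ℂ) ∂Berry.nuF = ∫ g in K, f g * (Wn e q g : ℂ) ∂Berry.nuF := by
    rw [setIntegral_eq_integral_of_forall_compl_eq_zero]
    intro g hg
    rw [hs g hg, zero_mul]
  rw [e1, ← integral_const_mul]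
  refine norm_integral_le_of_norm_le ?_ (Eventually.of_forall fun g => ?_)
  · exact ((continuous_Wn hc q).continuousOn.integrableOn_compact hK).const_mul C
  · rw [norm_mul, Complex.norm_real, Real.norm_eq_abs, abs_of_nonneg (Wn_nonneg q g)]
    exact mul_le_mul_of_nonneg_right (hC g) (Wn_nonneg q g)

lemma exists_lim (hc : ∀ j n, ContinuousOn (e j n) UH) (hb : Bdd e) {f : SL(2, ℝ) → ℂ}
    (hf : Continuous f) (hs : HasCompactSupport f) :
    ∃ L : ℂ, Tendsto (fun q => J e q f) (UU : Filter (ℕ × ℕ)) (𝓝 L) := by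
  obtain ⟨C, hC⟩ := hf.bounded_above_of_compact_support hs
  obtain ⟨B, hB⟩ := hb _ hs.isCompact
  have hC0 : 0 ≤ C := (norm_nonneg _).trans (hC 1)
  obtain ⟨L, -, hL⟩ := (isCompact_closedBall (0 : ℂ) (C * B)).ultrafilter_le_nhds
    (UU.map fun q => J e q f) (by
      rw [Ultrafilter.coe_map]
      refine tendsto_principal.2 ?_
      filter_upwards [hB] with q hq
      refine mem_closedBall_zero_iff.2 ((J_norm hc q hC hs.isCompact
        fun g hg => image_eq_zero_of_notMem_tsupport hg).trans ?_)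
      exact mul_le_mul_of_nonneg_left hq hC0)
  exact ⟨L, hL⟩

/-- The limit along the ultrafilter. -/
def Lim (e : ℤ → ℕ → ℂ → ℂ) (f : SL(2, ℝ) → ℂ) : ℂ :=
  limUnder (UU : Filter (ℕ × ℕ)) (fun q => J e q f)

lemma tendsto_Lim (hc : ∀ j n, ContinuousOn (e j n) UH) (hb : Bdd e) {f : SL(2, ℝ) → ℂ}
    (hf : Continuous f) (hs : HasCompactSupport f) :
    Tendsto (fun q => J e q f) (UU : Filter (ℕ × ℕ)) (𝓝 (Lim e f)) :=
  tendsto_nhds_limUnder (exists_lim hc hb hf hs)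

lemma Lim_eq (hc : ∀ j n, ContinuousOn (e j n) UH) (hb : Bdd e) {f : SL(2, ℝ) → ℂ}
    (hf : Continuous f) (hs : HasCompactSupport f) {L : ℂ}
    (h : Tendsto (fun q => J e q f) (UU : Filter (ℕ × ℕ)) (𝓝 L)) : Lim e f = L :=
  tendsto_nhds_unique (tendsto_Lim hc hb hf hs) h

lemma Lim_add (hc : ∀ j n, ContinuousOn (e j n) UH) (hb : Bdd e) {f f' : SL(2, ℝ) → ℂ}
    (hf : Continuous f) (hs : HasCompactSupport f) (hf' : Continuous f')
    (hs' : HasCompactSupport f') :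
    Lim e (fun g => f g + f' g) = Lim e f + Lim e f' := by
  refine Lim_eq hc hb (hf.add hf') (hs.add hs') ?_
  exact ((tendsto_Lim hc hb hf hs).add (tendsto_Lim hc hb hf' hs')).congr fun q =>
    (J_add hc q hf hs hf' hs').symm

lemma Lim_smul (hc : ∀ j n, ContinuousOn (e j n) UH) (hb : Bdd e) (c : ℂ) {f : SL(2, ℝ) → ℂ}
    (hf : Continuous f) (hs : HasCompactSupport f) :
    Lim e (fun g => c * f g) = c * Lim e f := by
  refine Lim_eq hc hb (continuous_const.mul hf) hs.mul_left ?_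
  exact ((tendsto_Lim hc hb hf hs).const_mul c).congr fun q => (J_smul q c f).symm

lemma Lim_re (hc : ∀ j n, ContinuousOn (e j n) UH) (hb : Bdd e) {f : SL(2, ℝ) → ℝ}
    (hf : Continuous fun g => (f g : ℂ)) (hs : HasCompactSupport fun g => (f g : ℂ))
    (h0 : ∀ g, 0 ≤ f g) : 0 ≤ (Lim e (fun g => (f g : ℂ))).re :=
  ge_of_tendsto' ((Complex.continuous_re.tendsto _).comp (tendsto_Lim hc hb hf hs))
    fun q => J_re q h0

lemma Lim_im (hc : ∀ j n, ContinuousOn (e j n) UH) (hb : Bdd e) {f : SL(2, ℝ) → ℝ}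
    (hf : Continuous fun g => (f g : ℂ)) (hs : HasCompactSupport fun g => (f g : ℂ)) :
    (Lim e (fun g => (f g : ℂ))).im = 0 := by
  refine tendsto_nhds_unique ((Complex.continuous_im.tendsto _).comp
    (tendsto_Lim hc hb hf hs)) ?_
  refine tendsto_const_nhds.congr fun q => ?_
  exact (J_im q f).symm

open CompactlySupported in
/-- The limit functional. -/
def Lam (hc : ∀ j n, ContinuousOn (e j n) UH) (hb : Bdd e) :
    C_c(SL(2, ℝ), ℝ) →ₚ[ℝ] ℝ where
  toFun f := (Lim e (fun g => (f g : ℂ))).re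
  map_add' f f' := by
    have := Lim_add hc hb (FM.cc_ofReal f).1 (FM.cc_ofReal f).2 (FM.cc_ofReal f').1
      (FM.cc_ofReal f').2
    rw [← Complex.add_re, ← this]
    congr 3
    ext g
    simp
  map_smul' c f := by
    have := Lim_smul hc hb (c : ℂ) (FM.cc_ofReal f).1 (FM.cc_ofReal f).2
    rw [RingHom.id_apply, smul_eq_mul, ← Complex.re_ofReal_mul, ← this]
    congr 3
    ext g
    simp
  monotone' f f' h := by
    have h1 := Lim_re hc hb (FM.cc_ofReal (f' - f)).1 (FM.cc_ofReal (f' - f)).2 fun g => by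
      simpa using h g
    have h2 := Lim_add hc hb (FM.cc_ofReal (f' - f)).1 (FM.cc_ofReal (f' - f)).2
      (FM.cc_ofReal f).1 (FM.cc_ofReal f).2
    have h3 : (fun g => (((f' - f) g : ℝ) : ℂ) + ((f g : ℝ) : ℂ)) = fun g => ((f' g : ℝ) : ℂ) := by
      ext g
      simp
    rw [h3] at h2
    show (Lim e (fun g => (f g : ℂ))).re ≤ (Lim e (fun g => (f' g : ℂ))).re
    rw [h2, Complex.add_re]
    linarith

/-- The measure. -/
def mu (hc : ∀ j n, ContinuousOn (e j n) UH) (hb : Bdd e) : Measure SL(2, ℝ) :=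
  RealRMK.rieszMeasure (Lam hc hb)

instance regular_mu (hc : ∀ j n, ContinuousOn (e j n) UH) (hb : Bdd e) : (mu hc hb).Regular :=
  RealRMK.regular_rieszMeasure _

open CompactlySupported in
lemma integral_mu_real (hc : ∀ j n, ContinuousOn (e j n) UH) (hb : Bdd e)
    (f : C_c(SL(2, ℝ), ℝ)) :
    ((∫ g, f g ∂(mu hc hb) : ℝ) : ℂ) = Lim e (fun g => (f g : ℂ)) := by
  have h := RealRMK.integral_rieszMeasure (Lam hc hb) f
  unfold mu
  rw [h]
  refine Complex.ext ?_ ?_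
  · rfl
  · rw [Complex.ofReal_im, Lim_im hc hb (FM.cc_ofReal f).1 (FM.cc_ofReal f).2]

lemma integral_mu (hc : ∀ j n, ContinuousOn (e j n) UH) (hb : Bdd e) {f : SL(2, ℝ) → ℂ}
    (hf : Continuous f) (hs : HasCompactSupport f) : ∫ g, f g ∂(mu hc hb) = Lim e f := by
  set f1 : CompactlySupportedContinuousMap SL(2, ℝ) ℝ :=
    ⟨⟨fun g => (f g).re, Complex.continuous_re.comp hf⟩,
      hs.comp_left (g := Complex.re) Complex.zero_re⟩ with hf1
  set f2 : CompactlySupportedContinuousMap SL(2, ℝ) ℝ :=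
    ⟨⟨fun g => (f g).im, Complex.continuous_im.comp hf⟩,
      hs.comp_left (g := Complex.im) Complex.zero_im⟩ with hf2
  have e1 : ∀ g, f g = (f1 g : ℂ) + Complex.I * (f2 g : ℂ) := by
    intro g
    show f g = ((f g).re : ℂ) + Complex.I * ((f g).im : ℂ)
    rw [mul_comm]
    exact (Complex.re_add_im _).symm
  have e' : f = fun g => (f1 g : ℂ) + Complex.I * (f2 g : ℂ) := funext e1
  have hc2 : Continuous fun g => Complex.I * (f2 g : ℂ) :=
    continuous_const.mul (FM.cc_ofReal f2).1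
  have hs2 : HasCompactSupport fun g => Complex.I * (f2 g : ℂ) := (FM.cc_ofReal f2).2.mul_left
  rw [e', Lim_add hc hb (FM.cc_ofReal f1).1 (FM.cc_ofReal f1).2 hc2 hs2,
    Lim_smul hc hb Complex.I (FM.cc_ofReal f2).1 (FM.cc_ofReal f2).2, ← integral_mu_real hc hb,
    ← integral_mu_real hc hb, integral_add ((FM.cc_ofReal f1).1.integrable_of_hasCompactSupport
      (FM.cc_ofReal f1).2) (hc2.integrable_of_hasCompactSupport hs2), integral_const_mul,
    integral_complex_ofReal, integral_complex_ofReal]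

omit [MeasurableSpace SL(2, ℝ)] [BorelSpace SL(2, ℝ)] in
lemma cneg : Continuous fun g : SL(2, ℝ) => -g := by
  have h : (fun g : SL(2, ℝ) => -g) = fun g => (-1 : SL(2, ℝ)) * g := by
    funext g
    rw [neg_mul, one_mul]
  rw [h]
  exact continuous_const_mul _

/-- the homeomorphism `g ↦ -g` -/
def hneg : SL(2, ℝ) ≃ₜ SL(2, ℝ) where
  toFun g := -g
  invFun g := -g
  left_inv g := neg_neg g
  right_inv g := neg_neg g
  continuous_toFun := cneg
  continuous_invFun := cneg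

open CompactlySupported in
lemma mu_neg (hc : ∀ j n, ContinuousOn (e j n) UH) (hb : Bdd e) :
    Measure.map (fun g => -g) (mu hc hb) = mu hc hb := by
  have hreg : (Measure.map (fun g => -g) (mu hc hb)).Regular :=
    Measure.Regular.map (hneg)
  refine Measure.ext_of_integral_eq_on_compactlySupported fun f => ?_
  have hm : Measurable fun g : SL(2, ℝ) => -g := cneg.measurable
  have hfc : Continuous fun g => f g := f.continuous
  rw [integral_map hm.aemeasurable hfc.aestronglyMeasurable]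
  have hc' : Continuous fun g => (f (-g) : ℂ) := (FM.cc_ofReal f).1.comp cneg
  have hs : HasCompactSupport fun g => (f (-g) : ℂ) :=
    (FM.cc_ofReal f).2.comp_homeomorph (hneg)
  have e1 : ((∫ g, f (-g) ∂(mu hc hb) : ℝ) : ℂ) = ((∫ g, f g ∂(mu hc hb) : ℝ) : ℂ) := by
    rw [← integral_complex_ofReal, ← integral_complex_ofReal, integral_mu hc hb hc' hs,
      integral_mu hc hb (FM.cc_ofReal f).1 (FM.cc_ofReal f).2]
    refine Lim_eq hc hb hc' hs ?_
    refine (tendsto_Lim hc hb (FM.cc_ofReal f).1 (FM.cc_ofReal f).2).congr fun q => ?_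
    exact (J_neg q fun g => (f g : ℂ)).symm
  exact_mod_cast e1

end RMK

/-- RMK: existence of the limit measure on the frames -/
theorem stmtRmk : StmtRmk := by
  intro _ _ e P hc hj hP
  have hb := RMK.bdd hc hj hP
  refine ⟨RMK.mu hc hb, inferInstance, ?_, RMK.mu_neg hc hb, fun k ζ hζ => ?_⟩
  · infer_instance
  · have h1 : Continuous fun g => ζ (pG g) * uG g ^ k :=
      (hζ.smooth.continuous.comp RMK.continuous_pG).mul
        (RMK.continuous_uG.zpow₀ k fun g => Or.inl (RMK.uG_ne g))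
    have h2 : HasCompactSupport fun g => ζ (pG g) * uG g ^ k := by
      refine HasCompactSupport.intro (RMK.isCompact_pre hζ.supp hζ.sub) fun g hg => ?_
      rw [image_eq_zero_of_notMem_tsupport hg, zero_mul]
    rw [RMK.integral_mu hc hb h1 h2]
    exact RMK.Lim_eq hc hb h1 h2 ((RMK.J_lim hc hj hP k hζ).mono_left RMK.UU_le)

end

end U3
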