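import Pool.Agent.U3.StmtsG
import Pool.Agent.Lib_helper67.QE.FlowMeasure

/-!
# Frames: base points, directions and the rotation by 120 degrees (module U3_ROT)
-/

open MeasureTheory Filter Topology Set
open UpperHalfPlane hiding I
open scoped ContDiff MatrixGroups

namespace U3

open QE QE.NC QJ

noncomputable section

namespace ROT

set_option maxHeartbeats 200000

lemma continuous_smul_I : Continuous fun g : SL(2, ℝ) => g • UpperHalfPlane.I :=
  continuous_id.smul continuous_const

lemma continuous_pG : Continuous pG :=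
  UpperHalfPlane.continuous_coe.comp continuous_smul_I

lemma continuous_uG : Continuous uG :=
  continuous_const.mul (Complex.continuous_conj.comp QE.FM.continuous_dirG)

lemma norm_uG (g : SL(2, ℝ)) : ‖uG g‖ = 1 := by
  simp only [uG, norm_mul, Complex.norm_I, RCLike.norm_conj, QE.FM.norm_dirG, mul_one]

lemma pG_mem (g : SL(2, ℝ)) : pG g ∈ UH := (g • UpperHalfPlane.I).im_pos

lemma pG_neg (g : SL(2, ℝ)) : pG (-g) = pG g := by
  have e : ∀ i j, (-g) i j = - g i j := fun i j => by simp
  have h1 := QE.FM.smul_den (-g) UpperHalfPlane.I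
  have h2 := QE.FM.smul_den g UpperHalfPlane.I
  have h3 : den (-g) (UpperHalfPlane.I : ℂ) = - den g (UpperHalfPlane.I : ℂ) := by
    rw [den, den, e, e]
    push_cast
    ring
  rw [h3, e, e] at h1
  refine mul_right_cancel₀ (QE.FM.den_ne g UpperHalfPlane.I) ?_
  unfold pG
  rw [h2]
  rw [UpperHalfPlane.coe_I] at h1 ⊢
  push_cast at h1
  linear_combination - h1

lemma uG_neg (g : SL(2, ℝ)) : uG (-g) = uG g := by
  unfold uG
  rw [QE.FM.dirG_neg]

/-- the direction after a matrix which fixes the base point -/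
lemma dirG_fix (g k : SL(2, ℝ)) (hk : k • UpperHalfPlane.I = UpperHalfPlane.I) :
    dirG (g * k) = dirG g * phase k Complex.I := by
  rw [QE.FM.dirG_mul, hk, UpperHalfPlane.coe_I]
  unfold dirG
  ring

/-- the entries of a matrix which fixes the base point -/
lemma fix_iff (k : SL(2, ℝ)) :
    k • UpperHalfPlane.I = UpperHalfPlane.I ↔ k 0 0 = k 1 1 ∧ k 0 1 = - k 1 0 := by
  have h := QE.FM.smul_den k UpperHalfPlane.I
  have hne := QE.FM.den_ne k UpperHalfPlane.I
  rw [UpperHalfPlane.coe_I] at h hne
  constructor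
  · intro hk
    rw [hk, UpperHalfPlane.coe_I] at h
    have h1 := congrArg Complex.re h
    have h2 := congrArg Complex.im h
    simp only [den, Complex.mul_re, Complex.mul_im, Complex.add_re, Complex.add_im,
      Complex.I_re, Complex.I_im, Complex.ofReal_re, Complex.ofReal_im, zero_mul, mul_zero,
      mul_one, one_mul, zero_add, add_zero, sub_zero, zero_sub] at h1 h2
    exact ⟨h2.symm, h1.symm⟩
  · rintro ⟨h1, h2⟩
    apply UpperHalfPlane.ext
    rw [UpperHalfPlane.coe_I]
    refine mul_right_cancel₀ hne ?_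
    rw [h, h1, h2, den]
    push_cast
    ring_nf
    rw [Complex.I_sq]
    ring

lemma rot3_fix : rot3 • UpperHalfPlane.I = UpperHalfPlane.I := by
  rw [fix_iff]
  constructor
  · simp [rot3]
  · simp [rot3]

lemma den_rot3 : den rot3 Complex.I = Complex.exp ((Real.pi / 3 : ℝ) * Complex.I) := by
  rw [Complex.exp_mul_I, ← Complex.ofReal_cos, ← Complex.ofReal_sin, Real.cos_pi_div_three,
    Real.sin_pi_div_three]
  have e0 : rot3 1 0 = Real.sqrt 3 / 2 := by simp [rot3]
  have e1 : rot3 1 1 = 1 / 2 := by simp [rot3]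
  rw [den, e0, e1]
  ring

lemma phase_rot3 : phase rot3 Complex.I = (starRingEnd ℂ) w3 := by
  rw [phase, den_rot3, Complex.norm_exp_ofReal_mul_I, Complex.ofReal_one, div_one, ← map_pow]
  congr 1
  rw [← Complex.exp_nat_mul, w3]
  congr 1
  push_cast
  ring

lemma pG_rot (g : SL(2, ℝ)) : pG (g * rot3) = pG g := by
  unfold pG
  rw [mul_smul, rot3_fix]

lemma uG_rot (g : SL(2, ℝ)) : uG (g * rot3) = w3 * uG g := by
  unfold uG
  rw [dirG_fix g rot3 rot3_fix, phase_rot3, map_mul, Complex.conj_conj]
  ring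

/-- a matrix which fixes the base point and the direction -/
lemma fix_one (k : SL(2, ℝ)) (hk : k • UpperHalfPlane.I = UpperHalfPlane.I)
    (hp : phase k Complex.I = 1) : k = 1 ∨ k = -1 := by
  obtain ⟨h1, h2⟩ := (fix_iff k).1 hk
  have hdet : k 0 0 * k 1 1 - k 0 1 * k 1 0 = 1 := by
    have := k.det_coe
    rwa [Matrix.det_fin_two] at this
  rw [h1, h2] at hdet
  have hn : ‖den k Complex.I‖ = 1 := by
    have h3 : ‖den k Complex.I‖ ^ 2 = 1 := by
      rw [← Complex.normSq_eq_norm_sq, den, Complex.normSq_apply]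
      simp only [Complex.add_re, Complex.mul_re, Complex.ofReal_re, Complex.I_re, mul_zero,
        Complex.ofReal_im, Complex.I_im, mul_one, sub_self, zero_add, Complex.add_im,
        Complex.mul_im, add_zero]
      linarith
    have h4 : (‖den k Complex.I‖ - 1) * (‖den k Complex.I‖ + 1) = 0 := by linarith
    rcases mul_eq_zero.1 h4 with h | h
    · linarith
    · have := norm_nonneg (den k Complex.I)
      linarith
  rw [phase, hn, Complex.ofReal_one, div_one, den] at hp
  have h3 := congrArg Complex.re hp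
  have h4 := congrArg Complex.im hp
  simp only [map_add, map_mul, Complex.conj_ofReal, Complex.conj_I, sq, Complex.add_re,
    Complex.mul_re, Complex.ofReal_re, Complex.neg_re, Complex.I_re, neg_zero, mul_zero,
    Complex.ofReal_im, Complex.neg_im, Complex.I_im, mul_neg, mul_one, sub_neg_eq_add,
    zero_add, add_zero, Complex.add_im, Complex.mul_im, Complex.one_re, Complex.one_im,
    zero_mul, neg_mul, sub_zero, zero_sub] at h3 h4
  have h5 : k 1 0 = 0 := by
    have h6 : k 1 0 * k 1 0 = 0 := by nlinarith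
    exact mul_self_eq_zero.1 h6
  rw [h5] at hdet h2
  have h6 : (k 1 1 - 1) * (k 1 1 + 1) = 0 := by nlinarith
  rcases mul_eq_zero.1 h6 with h | h
  · left
    have h7 : k 1 1 = 1 := by linarith
    ext i j
    fin_cases i <;> fin_cases j
    · simpa [h7] using h1
    · simpa using h2
    · simpa using h5
    · simpa using h7
  · right
    have h7 : k 1 1 = -1 := by linarith
    ext i j
    fin_cases i <;> fin_cases j
    · simpa [h7] using h1
    · simpa using h2
    · simpa using h5
    · simpa using h7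

lemma unique (g g' : SL(2, ℝ)) (hp : pG g = pG g') (hu : uG g = uG g') : g' = g ∨ g' = -g := by
  have h1 : g • UpperHalfPlane.I = g' • UpperHalfPlane.I := UpperHalfPlane.ext hp
  have h2 : dirG g = dirG g' := by
    have h3 := mul_left_cancel₀ Complex.I_ne_zero hu
    exact (starRingEnd ℂ).injective h3
  have hk : (g⁻¹ * g') • UpperHalfPlane.I = UpperHalfPlane.I := by
    rw [mul_smul, ← h1, inv_smul_smul]
  have e : g * (g⁻¹ * g') = g' := by rw [mul_inv_cancel_left]
  have h4 := dirG_fix g (g⁻¹ * g') hk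
  rw [e, ← h2] at h4
  have h5 : phase (g⁻¹ * g') Complex.I = 1 := by
    have h6 : dirG g * phase (g⁻¹ * g') Complex.I = dirG g * 1 := by rw [← h4, mul_one]
    exact mul_left_cancel₀ (QE.FM.dirG_ne g) h6
  rcases fix_one _ hk h5 with h | h
  · left
    rw [← e, h, mul_one]
  · right
    rw [← e, h, mul_neg, mul_one]

lemma compact (K : Set ℂ) (hK : IsCompact K) (hs : K ⊆ UH) : IsCompact (pG ⁻¹' K) := by
  have hr : K ⊆ range UpperHalfPlane.coe := by
    intro z hz
    exact ⟨⟨z, hs hz⟩, rfl⟩
  have h1 : IsCompact (UpperHalfPlane.coe ⁻¹' K) :=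
    (UpperHalfPlane.isOpenEmbedding_coe.isInducing.isCompact_preimage_iff hr).2 hK
  exact isProperMap_smul_I.isCompact_preimage h1

end ROT

/-- **ROT**: the frames, their base points and directions. -/
theorem stmtRot : StmtRot :=
  ⟨ROT.continuous_pG, ROT.continuous_uG, ROT.norm_uG, ROT.pG_mem,
    fun g => ⟨ROT.pG_neg g, ROT.uG_neg g⟩, fun g => ⟨ROT.pG_rot g, ROT.uG_rot g⟩,
    ROT.unique, ROT.compact⟩

end

end U3
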