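import Pool.Agent.U3.StmtsG

/-!
A subsequence along which countably many locally bounded sequences converge weakly.
-/

open MeasureTheory Filter Topology Set
open UpperHalfPlane hiding I
open scoped ContDiff MatrixGroups

namespace U3

open QE QE.NC QJ

noncomputable section

namespace SUB

/-- diagonal extraction -/
lemma diag {ι : Type*} [Countable ι] (a : ι → ℕ → ℂ)
    (h : ∀ i, ∃ C : ℝ, ∀ᶠ n in atTop, ‖a i n‖ ≤ C) :
    ∃ s : ℕ → ℕ, StrictMono s ∧ ∀ i, ∃ L : ℂ, Tendsto (fun n => a i (s n)) atTop (𝓝 L) := by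
  classical
  choose C hC using h
  let b : ℕ → ι → ℂ := fun n i => if ‖a i n‖ ≤ C i then a i n else 0
  have hcpt : IsCompact (Set.pi univ fun i => Metric.closedBall (0 : ℂ) |C i|) :=
    isCompact_univ_pi fun i => isCompact_closedBall _ _
  have hb : ∀ n, b n ∈ Set.pi univ fun i => Metric.closedBall (0 : ℂ) |C i| := by
    intro n i _
    simp only [b, mem_closedBall_zero_iff]
    split_ifs with h
    · exact h.trans (le_abs_self _)
    · simp
  obtain ⟨L, _, s, hs, hL⟩ := hcpt.tendsto_subseq hb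
  refine ⟨s, hs, fun i => ⟨L i, ?_⟩⟩
  have h1 : Tendsto (fun n => b (s n) i) atTop (𝓝 (L i)) := (tendsto_pi_nhds.1 hL) i
  refine h1.congr' ?_
  have h2 := hs.tendsto_atTop.eventually (hC i)
  filter_upwards [h2] with n hn
  simp only [b, if_pos hn]

/-- the test functions supported in `K` -/
def TK (U K : Set ℂ) : Set C(ℂ, ℂ) := {g | Test U g ∧ tsupport g ⊆ K}

lemma dens (U K : Set ℂ) (hK : IsCompact K) :
    ∃ D : Set C(ℂ, ℂ), D.Countable ∧ D ⊆ TK U K ∧
      ∀ g ∈ TK U K, ∀ ε > 0, ∃ g' ∈ D, ∀ z, ‖g z - g' z‖ ≤ ε := by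
  obtain ⟨D, hDc, hDd⟩ := TopologicalSpace.exists_countable_dense (TK U K)
  refine ⟨Subtype.val '' D, hDc.image _, ?_, ?_⟩
  · rintro _ ⟨g, _, rfl⟩
    exact g.2
  intro g hg ε hε
  have h1 : TendstoUniformlyOn (fun (g' : C(ℂ, ℂ)) a => g' a) g (𝓝 g) K :=
    (ContinuousMap.tendsto_iff_forall_isCompact_tendstoUniformlyOn (F := id)).1 tendsto_id K hK
  have h2 := Metric.tendstoUniformlyOn_iff.1 h1 ε hε
  have h3 : ∀ᶠ g' : TK U K in 𝓝 ⟨g, hg⟩, ∀ x ∈ K, dist (g x) ((g' : C(ℂ, ℂ)) x) < ε :=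
    (continuous_subtype_val.tendsto (⟨g, hg⟩ : TK U K)).eventually h2
  obtain ⟨g', hg'D, hg'⟩ := hDd.inter_nhds_nonempty h3
  refine ⟨g', ⟨g', hg'D, rfl⟩, fun z => ?_⟩
  by_cases hz : z ∈ K
  · rw [← dist_eq_norm]
    exact (hg' z hz).le
  · have e1 : g z = 0 := image_eq_zero_of_notMem_tsupport fun h => hz (hg.2 h)
    have e2 : (g' : C(ℂ, ℂ)) z = 0 := image_eq_zero_of_notMem_tsupport fun h => hz (g'.2.2 h)
    rw [e1, e2, sub_zero, norm_zero]
    exact hε.le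

/-- the basic estimate -/
lemma est {K : Set ℂ} (hK : IsCompact K) {f : ℂ → ℂ} (hf : ContinuousOn f K) {g g' : C(ℂ, ℂ)}
    (hg : tsupport g ⊆ K) (hg' : tsupport g' ⊆ K) {ε : ℝ} (h : ∀ z, ‖g z - g' z‖ ≤ ε) :
    ‖(∫ z, g z * f z) - ∫ z, g' z * f z‖ ≤ ε * ∫ z in K, ‖f z‖ := by
  have red : ∀ k : C(ℂ, ℂ), tsupport k ⊆ K → (∫ z, k z * f z) = ∫ z in K, k z * f z := by
    intro k hk
    symm
    apply setIntegral_eq_integral_of_forall_compl_eq_zero
    intro z hz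
    rw [image_eq_zero_of_notMem_tsupport fun h => hz (hk h), zero_mul]
  have hI : ∀ k : C(ℂ, ℂ), IntegrableOn (fun z => k z * f z) K := fun k =>
    (k.continuous.continuousOn.mul hf).integrableOn_compact hK
  rw [red g hg, red g' hg', ← integral_sub (hI g) (hI g'), ← integral_const_mul]
  apply norm_integral_le_of_norm_le
  · exact ((hf.norm).integrableOn_compact hK).const_mul ε
  · refine Eventually.of_forall fun z => ?_
    rw [← sub_mul, norm_mul]
    exact mul_le_mul_of_nonneg_right (h z) (norm_nonneg _)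

end SUB

open SUB in
/-- SUB -/
theorem stmtSub : StmtSub := by
  intro U f hU hf hb
  have : LocallyCompactSpace U := hU.locallyCompactSpace
  let X : CompactExhaustion U := CompactExhaustion.choice U
  let K : ℕ → Set ℂ := fun m => Subtype.val '' X m
  have hK : ∀ m, IsCompact (K m) := fun m => (X.isCompact m).image continuous_subtype_val
  have hKU : ∀ m, K m ⊆ U := by
    rintro m _ ⟨z, _, rfl⟩
    exact z.2
  have hsup : ∀ S : Set ℂ, IsCompact S → S ⊆ U → ∃ m, S ⊆ K m := by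
    intro S hS hSU
    have h1 : IsCompact ((Subtype.val : U → ℂ) ⁻¹' S) := by
      rw [Subtype.isCompact_iff, Subtype.image_preimage_coe, inter_eq_right.2 hSU]
      exact hS
    obtain ⟨m, hm⟩ := X.exists_superset_of_isCompact h1
    exact ⟨m, fun z hz => ⟨⟨z, hSU hz⟩, hm hz, rfl⟩⟩
  choose D hDc hDs hD using fun m => dens U (K m) (hK m)
  have : ∀ m, Countable (D m) := fun m => (hDc m).to_subtype
  have hnb : ∀ (m : ℕ) (g : C(ℂ, ℂ)), g ∈ TK U (K m) → ∀ i, ∃ C : ℝ, ∀ᶠ n in atTop,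
      ‖∫ z, g z * f i n z‖ ≤ C := by
    intro m g hg i
    obtain ⟨C, hC⟩ := hb i (K m) (hK m) (hKU m)
    obtain ⟨M, hM⟩ := (hg.1.supp.exists_bound_of_continuous g.continuous)
    refine ⟨M * C, ?_⟩
    filter_upwards [hC] with n hn
    have h0 : tsupport (0 : C(ℂ, ℂ)) ⊆ K m := by
      have : tsupport ((0 : C(ℂ, ℂ)) : ℂ → ℂ) = ∅ := by simp
      rw [this]
      exact empty_subset _
    have h1 := est (hK m) ((hf i n).mono (hKU m)) hg.2 h0 (ε := M)
      (fun z => by simpa using hM z)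
    have e : (∫ z, (0 : C(ℂ, ℂ)) z * f i n z) = 0 := by simp
    rw [e, sub_zero] at h1
    have hM0 : 0 ≤ M := (norm_nonneg _).trans (hM 0)
    exact h1.trans (mul_le_mul_of_nonneg_left hn hM0)
  obtain ⟨s, hs, hL⟩ := diag (ι := (Σ m, D m) × ℕ)
    (fun x n => ∫ z, (x.1.2 : C(ℂ, ℂ)) z * f x.2 n z)
    (fun x => hnb x.1.1 _ (hDs x.1.1 x.1.2.2) x.2)
  refine ⟨s, hs, fun i ζ hζ => ?_⟩
  obtain ⟨m, hm⟩ := hsup _ hζ.supp hζ.sub
  let g : C(ℂ, ℂ) := ⟨ζ, hζ.smooth.continuous⟩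
  have hg : g ∈ TK U (K m) := ⟨hζ, hm⟩
  obtain ⟨C, hC⟩ := hb i (K m) (hK m) (hKU m)
  have hC' : ∀ᶠ n in atTop, ∫ z in K m, ‖f i (s n) z‖ ≤ C := hs.tendsto_atTop.eventually hC
  apply cauchySeq_tendsto_of_complete
  rw [Metric.cauchySeq_iff]
  intro ε hε
  have hC0 : 0 < |C| + 1 := by positivity
  obtain ⟨g', hg', hgg⟩ := hD m g hg (ε / (4 * (|C| + 1))) (by positivity)
  obtain ⟨L, hL'⟩ := hL (⟨m, ⟨g', hg'⟩⟩, i)
  have hcs := Metric.cauchySeq_iff.1 hL'.cauchySeq (ε / 4) (by positivity)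
  obtain ⟨N₁, hN₁⟩ := hcs
  obtain ⟨N₂, hN₂⟩ := eventually_atTop.1 hC'
  have key : ∀ n ≥ N₂, dist (∫ z, ζ z * f i (s n) z) (∫ z, g' z * f i (s n) z) ≤ ε / 4 := by
    intro n hn
    rw [dist_eq_norm]
    refine (est (hK m) ((hf i (s n)).mono (hKU m)) (g := g) (g' := g') hm (hDs m hg').2 hgg).trans ?_
    have h1 : ∫ z in K m, ‖f i (s n) z‖ ≤ |C| + 1 :=
      (hN₂ n hn).trans ((le_abs_self C).trans (by linarith))
    calc ε / (4 * (|C| + 1)) * ∫ z in K m, ‖f i (s n) z‖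
        ≤ ε / (4 * (|C| + 1)) * (|C| + 1) := by
          apply mul_le_mul_of_nonneg_left h1
          positivity
      _ = ε / 4 := by field_simp
  refine ⟨max N₁ N₂, fun p hp q hq => ?_⟩
  have a1 := key p (le_trans (le_max_right _ _) hp)
  have a2 := key q (le_trans (le_max_right _ _) hq)
  have a3 := hN₁ p (le_trans (le_max_left _ _) hp) q (le_trans (le_max_left _ _) hq)
  simp only at a3
  calc dist (∫ z, ζ z * f i (s p) z) (∫ z, ζ z * f i (s q) z)
      ≤ dist (∫ z, ζ z * f i (s p) z) (∫ z, g' z * f i (s p) z)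
        + dist (∫ z, g' z * f i (s p) z) (∫ z, g' z * f i (s q) z)
        + dist (∫ z, g' z * f i (s q) z) (∫ z, ζ z * f i (s q) z) := dist_triangle4 _ _ _ _
    _ < ε := by
      rw [dist_comm (∫ z, g' z * f i (s q) z) (∫ z, ζ z * f i (s q) z)]
      linarith

end

end U3
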