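import Pool.Agent.U3.StmtsG

/-!
TRV: the transversal crossings of two geodesics are isolated, hence countable.
-/

open MeasureTheory Filter Topology Set
open UpperHalfPlane hiding I
open scoped ContDiff MatrixGroups

namespace U3

open QE QE.NC QJ

namespace TRV

theorem parallel {A B : ℝ} (hA : A ≠ 0) (hB : B ≠ 0) {p q : ℂ} (hp : ‖p‖ = 1) (hq : ‖q‖ = 1)
    {x y : ℝ} (hxy : x ≠ 0 ∨ y ≠ 0) (h : (x : ℂ) * ((A : ℂ) * p) = (y : ℂ) * ((B : ℂ) * q)) :
    p = q ∨ p = -q := by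
  have h1 : ((x * A : ℝ) : ℂ) * p = ((y * B : ℝ) : ℂ) * q := by
    push_cast
    linear_combination h
  have h2 : |x * A| = |y * B| := by
    have h3 := congrArg norm h1
    rw [norm_mul, norm_mul, hp, hq, mul_one, mul_one, Complex.norm_real, Complex.norm_real,
      Real.norm_eq_abs, Real.norm_eq_abs] at h3
    exact h3
  have h3 : y * B ≠ 0 := by
    intro h0
    rw [h0, abs_zero] at h2
    have h4 := abs_eq_zero.mp h2
    rcases hxy with h5 | h5
    · exact (mul_ne_zero h5 hA) h4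
    · exact (mul_ne_zero h5 hB) h0
  have h3' : ((y * B : ℝ) : ℂ) ≠ 0 := by exact_mod_cast h3
  rcases abs_eq_abs.mp h2 with h4 | h4
  · left
    rw [h4] at h1
    exact mul_left_cancel₀ h3' h1
  · right
    rw [h4] at h1
    apply mul_left_cancel₀ h3'
    rw [Complex.ofReal_neg] at h1
    linear_combination -h1

theorem norm_dirG (hRot : StmtRot) (g : SL(2, ℝ)) : ‖dirG g‖ = 1 := by
  have h := hRot.2.2.1 g
  unfold uG at h
  rwa [norm_mul, Complex.norm_I, one_mul, RCLike.norm_conj] at h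

end TRV

open TRV in
theorem stmtTrv (hVel : StmtVel) (hRot : StmtRot) : StmtTrv := by
  intro Γ ρ Φ hF hΦ v w S
  obtain ⟨-, -, hder⟩ := hVel Γ ρ Φ hF hΦ
  obtain ⟨Q, hQdef⟩ : ∃ Q : Set (ℝ × ℝ), Q = {x | pG (Φ x.1 w) = pG (Φ x.2 v) ∧
    uG (Φ x.1 w) ≠ uG (Φ x.2 v) ∧ uG (Φ x.1 w) ≠ -uG (Φ x.2 v)} := ⟨_, rfl⟩
  have hQ : Q.Countable := by
    have hdisc : DiscreteTopology Q := by
      rw [discreteTopology_subtype_iff]
      rintro ⟨t0, s0⟩ hx
      rw [hQdef] at hx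
      obtain ⟨h1, h2, h3⟩ := hx
      have d1 : HasFDerivAt (fun x : ℝ × ℝ => pG (Φ x.1 w))
          ((ContinuousLinearMap.toSpanSingleton ℝ (vG ρ (Φ t0 w))).comp
            (ContinuousLinearMap.fst ℝ ℝ ℝ)) (t0, s0) :=
        HasFDerivAt.comp (g := fun s : ℝ => pG (Φ s w)) (f := fun x : ℝ × ℝ => x.1) (t0, s0)
          (hder w t0).hasFDerivAt hasFDerivAt_fst
      have d2 : HasFDerivAt (fun x : ℝ × ℝ => pG (Φ x.2 v))
          ((ContinuousLinearMap.toSpanSingleton ℝ (vG ρ (Φ s0 v))).comp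
            (ContinuousLinearMap.snd ℝ ℝ ℝ)) (t0, s0) :=
        HasFDerivAt.comp (g := fun s : ℝ => pG (Φ s v)) (f := fun x : ℝ × ℝ => x.2) (t0, s0)
          (hder v s0).hasFDerivAt hasFDerivAt_snd
      have d3 := d1.sub d2
      obtain ⟨L, hL⟩ : ∃ L : ℝ × ℝ →L[ℝ] ℂ, L =
        (ContinuousLinearMap.comp (ContinuousLinearMap.toSpanSingleton ℝ (vG ρ (Φ t0 w)))
            (ContinuousLinearMap.fst ℝ ℝ ℝ)) -
          (ContinuousLinearMap.comp (ContinuousLinearMap.toSpanSingleton ℝ (vG ρ (Φ s0 v)))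
            (ContinuousLinearMap.snd ℝ ℝ ℝ)) := ⟨_, rfl⟩
      have d4 : HasFDerivAt (fun x : ℝ × ℝ => pG (Φ x.1 w) - pG (Φ x.2 v)) L (t0, s0) := by
        rw [hL]
        exact d3
      have hLx : ∀ x : ℝ × ℝ, L x = (x.1 : ℂ) * vG ρ (Φ t0 w) - (x.2 : ℂ) * vG ρ (Φ s0 v) := by
        intro x
        rw [hL]
        simp
      have hker : LinearMap.ker (L : ℝ × ℝ →ₗ[ℝ] ℂ) = ⊥ := by
        rw [LinearMap.ker_eq_bot']
        rintro ⟨x, y⟩ hxy
        have h4 : (x : ℂ) * vG ρ (Φ t0 w) - (y : ℂ) * vG ρ (Φ s0 v) = 0 := by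
          rw [← hLx (x, y)]
          exact hxy
        by_contra hne
        have h5 : x ≠ 0 ∨ y ≠ 0 := by
          by_contra hcon
          push Not at hcon
          exact hne (by rw [hcon.1, hcon.2]; rfl)
        have him : ∀ g : SL(2, ℝ),
            Real.exp (-ρ (g • UpperHalfPlane.I)) * (pG g).im ≠ 0 := by
          intro g
          exact mul_ne_zero (Real.exp_pos _).ne' (g • UpperHalfPlane.I : ℍ).im_pos.ne'
        have h6 := parallel (him (Φ t0 w)) (him (Φ s0 v)) (norm_dirG hRot (Φ t0 w))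
          (norm_dirG hRot (Φ s0 v)) h5 (sub_eq_zero.mp h4)
        rcases h6 with h6 | h6
        · exact h2 (by unfold uG; rw [h6])
        · exact h3 (by unfold uG; rw [h6, map_neg, mul_neg])
      obtain ⟨K, -, hK⟩ := (L : ℝ × ℝ →ₗ[ℝ] ℂ).exists_antilipschitzWith hker
      have hev := d4.eventually_ne (c := (0 : ℂ)) ⟨K, hK⟩
      rw [Filter.inf_principal_eq_bot]
      filter_upwards [hev] with z hz hzQ
      rw [hQdef] at hzQ
      exact hz (sub_eq_zero.mpr hzQ.1)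
    exact Set.countable_coe_iff.mp countable_of_Lindelof_of_discrete
  refine (hQ.image Prod.fst).mono ?_
  rintro t ⟨-, s, -, h1, h2, h3⟩
  refine ⟨(t, s), ?_, rfl⟩
  rw [hQdef]
  exact ⟨h1, h2, h3⟩

end U3
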