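import Pool.Agent.U3.StmtsG
import Pool.Agent.NCV.Inv

/-!
# The velocity of the geodesics (module U3_VEL, helper49)
-/

open MeasureTheory Filter Topology Set
open UpperHalfPlane hiding I
open scoped ContDiff MatrixGroups

namespace U3

open QE QE.NC QJ

noncomputable section

namespace VEL

theorem ro_coe (ρ : ℍ → ℝ) (z : ℍ) : ro ρ (z : ℂ) = ρ z := by
  unfold ro
  rw [ofComplex_apply]

theorem cont_rho {Γ : Subgroup SL(2, ℝ)} {ρ : ℍ → ℝ} (h : Fac Γ ρ) : Continuous ρ := by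
  have h1 : Continuous fun z : ℍ => ro ρ (z : ℂ) :=
    h.smooth.continuousOn.comp_continuous UpperHalfPlane.continuous_coe fun z => coe_mem_UH z
  have h2 : (fun z : ℍ => ro ρ (z : ℂ)) = ρ := funext fun z => ro_coe ρ z
  rwa [h2] at h1

/-- the velocity in the linear coordinates -/
theorem vG_eq (ρ : ℍ → ℝ) (g : SL(2, ℝ)) :
    vG ρ g = ((Real.exp (-ρ (g • UpperHalfPlane.I)) : ℝ) : ℂ) * Complex.I / (iota g).2 ^ 2 := by
  have h := iota_snd_ne g
  have h4 : (starRingEnd ℂ) (iota g).2 ≠ 0 := by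
    rwa [Ne, map_eq_zero]
  have h5 := im_smul_I g
  have h6 : ((((g • UpperHalfPlane.I : ℍ) : ℂ).im : ℝ) : ℂ) =
      1 / ((iota g).2 * (starRingEnd ℂ) (iota g).2) := by
    rw [eq_div_iff (mul_ne_zero h h4)]
    exact h5
  unfold vG pG
  rw [dirG_eq]
  push_cast
  rw [h6]
  field_simp

theorem cont_vG {Γ : Subgroup SL(2, ℝ)} {ρ : ℍ → ℝ} (h : Fac Γ ρ) : Continuous (vG ρ) := by
  have e : vG ρ = fun g => ((Real.exp (-ρ (g • UpperHalfPlane.I)) : ℝ) : ℂ) * Complex.I /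
      (iota g).2 ^ 2 := funext fun g => vG_eq ρ g
  rw [e]
  have h3 : Continuous fun g : SL(2, ℝ) => g • UpperHalfPlane.I := continuous_id.smul continuous_const
  have h4 : Continuous fun g : SL(2, ℝ) => Real.exp (-ρ (g • UpperHalfPlane.I)) :=
    Real.continuous_exp.comp ((cont_rho h).comp h3).neg
  have h5 : Continuous fun g : SL(2, ℝ) => (iota g).2 := continuous_snd.comp iota_continuous
  exact ((Complex.continuous_ofReal.comp h4).mul continuous_const).div (h5.pow 2)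
    fun g => pow_ne_zero 2 (iota_snd_ne g)

theorem vG_ne (ρ : ℍ → ℝ) (g : SL(2, ℝ)) : vG ρ g ≠ 0 := by
  rw [vG_eq]
  refine div_ne_zero (mul_ne_zero ?_ Complex.I_ne_zero) (pow_ne_zero 2 (iota_snd_ne g))
  exact_mod_cast (Real.exp_pos _).ne'

theorem deriv_pG {ρ : ℍ → ℝ} {Φ : ℝ → SL(2, ℝ) → SL(2, ℝ)} (hΦ : GFlow ρ Φ) (g : SL(2, ℝ)) (t : ℝ) :
    HasDerivAt (fun s => pG (Φ s g)) (vG ρ (Φ t g)) t := by
  have h0 := Inv.iota_deriv hΦ g t
  have h1 : HasDerivAt (fun s => (iota (Φ s g)).1) (XV ρ (Φ t g)).1 t :=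
    (ContinuousLinearMap.fst ℝ ℂ ℂ).hasFDerivAt.comp_hasDerivAt t h0
  have h2 : HasDerivAt (fun s => (iota (Φ s g)).2) (XV ρ (Φ t g)).2 t :=
    (ContinuousLinearMap.snd ℝ ℂ ℂ).hasFDerivAt.comp_hasDerivAt t h0
  have h3 := h1.div h2 (iota_snd_ne (Φ t g))
  have e1 : (fun s => pG (Φ s g)) = fun s => (iota (Φ s g)).1 / (iota (Φ s g)).2 :=
    funext fun s => smul_I_eq (Φ s g)
  rw [e1]
  refine h3.congr_deriv ?_
  rw [vG_eq]
  have hd := iota_det (Φ t g)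
  congr 1
  unfold XV Vq
  simp only [Prod.smul_fst, Prod.smul_snd, Prod.fst_add, Prod.snd_add, Complex.real_smul,
    smul_eq_mul]
  linear_combination ((Real.exp (-ρ (Φ t g • UpperHalfPlane.I)) : ℝ) : ℂ) / 2 * hd

end VEL

theorem stmtVel : StmtVel := fun _ ρ _ hF hΦ =>
  ⟨VEL.cont_vG hF, VEL.vG_ne ρ, fun g t => VEL.deriv_pG hΦ g t⟩

end

end U3
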