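import Pool.Agent.U3.StmtsG
import Pool.Agent.U3.JETC
import Pool.Agent.QJ.Dom
import Pool.Agent.QJ.IBP

/-!
WGA: a subsequence along which all the products of jets converge weakly.
-/

open MeasureTheory Filter Topology Set
open UpperHalfPlane hiding I
open scoped ContDiff MatrixGroups

namespace U3

open QE QE.NC QJ

noncomputable section

namespace WGA

variable {V : Set ℂ} {σ : ℂ → ℝ} {h : ℕ → ℝ} {φ : ℕ → ℂ → ℂ}

lemma isOpenUH : IsOpen UH := isOpen_lt continuous_const Complex.continuous_im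

lemma contDiffOn_gr {ρ : ℍ → ℝ} (hρ : ContDiffOn ℝ ∞ (ro ρ) UH) : ContDiffOn ℝ ∞ (gr ρ) UH := by
  have h1 : ContDiffOn ℝ ∞ (fun z : ℂ => Real.exp (2 * ro ρ z) / z.im ^ 2) UH := by
    refine (contDiffOn_const.mul hρ).exp.div ((Complex.imCLM.contDiff.contDiffOn).pow 2) ?_
    intro z hz
    have hz' : 0 < z.im := hz
    exact (pow_pos hz' 2).ne'
  exact h1

lemma gr_pos {ρ : ℍ → ℝ} {z : ℂ} (hz : z ∈ UH) : 0 < gr ρ z := by
  have hz' : 0 < z.im := hz
  unfold gr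
  positivity

lemma conj_E (L : LocB V σ h φ) (j : ℤ) (n : ℕ) (z : ℂ) :
    (starRingEnd ℂ) (E σ h φ j n z) = (-1) ^ j * E σ h φ (-j) n z := by
  obtain ⟨m, rfl | rfl⟩ := j.eq_nat_or_neg
  · rw [JETA.E_nat, JETA.E_neg L m, zpow_natCast, ← mul_assoc, ← mul_pow]
    norm_num
  · rw [JETA.E_neg L m, neg_neg, JETA.E_nat, zpow_neg, zpow_natCast]
    simp only [map_mul, map_pow, map_neg, map_one, Complex.conj_conj]
    rw [← inv_pow]
    norm_num

lemma zero_off {ζ : ℂ → ℂ} (hζ : Test V ζ) {z : ℂ} (hz : z ∉ V) : ζ z = 0 :=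
  image_eq_zero_of_notMem_tsupport fun hh => hz (hζ.sub hh)

lemma hlimC (L : LocB V σ h φ) : Tendsto (fun n => (h n : ℂ)) atTop (𝓝 0) := by
  have h1 := (Complex.continuous_ofReal.tendsto 0).comp L.hlim
  rw [Complex.ofReal_zero] at h1
  exact h1

/-- the translation relation for the products of two jets -/
lemma rel (hGroA : StmtGroA) (hIntA : StmtIntA) (hIbpA : StmtIbpA) (hJetC : StmtJetC)
    (L : LocB V σ h φ) {ζ : ℂ → ℂ} (hζ : Test V ζ) (j m : ℤ) :
    Tendsto (fun n => (∫ z, ζ z * (E σ h φ (j + 1) n z * E σ h φ m n z))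
      + ∫ z, ζ z * (E σ h φ j n z * E σ h φ (m + 1) n z)) atTop (𝓝 0) := by
  have hσ := L.sm
  have hG := hGroA V σ h φ L
  obtain ⟨dj, ⟨A1, hA1, h1⟩, -⟩ := hJetC V σ h φ L j
  obtain ⟨dm, ⟨A2, hA2, h2⟩, -⟩ := hJetC V σ h φ L m
  obtain ⟨dj1, -, -⟩ := hJetC V σ h φ L (j + 1)
  obtain ⟨dm1, -, -⟩ := hJetC V σ h φ L (m + 1)
  have du : Dom V h φ 2 (fun n z => E σ h φ j n z * E σ h φ m n z) := dj.mul L.op dm
  have dB : Dom V h φ 2 (fun n z => A1 n z * E σ h φ m n z + E σ h φ j n z * A2 n z) :=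
    (hA1.mul L.op dm).add L.op (dj.mul L.op hA2)
  have zu := (hIntA V h φ _ L.hpos L.hlim L.smφ hG du.smooth).2.2.1
    (du.mono (by norm_num : 2 ≤ 3)).bq
  have zB := (hIntA V h φ _ L.hpos L.hlim L.smφ hG dB.smooth).2.2.1
    (dB.mono (by norm_num : 2 ≤ 3)).bq
  have i1 := (hIbpA V σ h _ (j + m) L.op L.sm L.hpos du.smooth zu ζ hζ).1
  have i2 := (hlimC L).mul (IBP.lim_test L.hpos dB.smooth zB hζ)
  have i3 := i1.sub i2
  rw [mul_zero, sub_zero] at i3
  refine i3.congr fun n => ?_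
  have e : ∀ z, ζ z * ((h n : ℂ) * D σ (j + m) (fun z => E σ h φ j n z * E σ h φ m n z) z)
      = (ζ z * (E σ h φ (j + 1) n z * E σ h φ m n z) + ζ z * (E σ h φ j n z * E σ h φ (m + 1) n z))
        + (h n : ℂ) ^ 2 * (ζ z * (A1 n z * E σ h φ m n z + E σ h φ j n z * A2 n z)) := by
    intro z
    by_cases hz : z ∈ V
    · rw [D_mul hσ j m (cd_at (dj.smooth n) z) (cd_at (dm.smooth n) z)]
      linear_combination ζ z * E σ h φ m n z * h1 n z hz + ζ z * E σ h φ j n z * h2 n z hz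
    · rw [zero_off hζ hz]; ring
  have k1 : Integrable (fun z => ζ z * (E σ h φ (j + 1) n z * E σ h φ m n z)) :=
    hζ.integrable_mul L.op ((dj1.smooth n).mul (dm.smooth n)).continuous.continuousOn
  have k2 : Integrable (fun z => ζ z * (E σ h φ j n z * E σ h φ (m + 1) n z)) :=
    hζ.integrable_mul L.op ((dj.smooth n).mul (dm1.smooth n)).continuous.continuousOn
  have k3 : Integrable (fun z => ζ z * (A1 n z * E σ h φ m n z + E σ h φ j n z * A2 n z)) :=
    hζ.integrable_mul L.op (dB.smooth n).continuous.continuousOn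
  have k12 : Integrable (fun z => ζ z * (E σ h φ (j + 1) n z * E σ h φ m n z)
      + ζ z * (E σ h φ j n z * E σ h φ (m + 1) n z)) := k1.add k2
  simp only [e]
  rw [integral_add k12 (k3.const_mul _), integral_add k1 k2, integral_const_mul]
  ring

/-- bounded integrals of the products of two jets -/
lemma bdd2 (hGroA : StmtGroA) (hIntA : StmtIntA) (hJetC : StmtJetC) (L : LocB V σ h φ) (j m : ℤ)
    {K : Set ℂ} (hK : IsCompact K) (hKV : K ⊆ V) :
    ∃ C : ℝ, ∀ᶠ n in atTop, ∫ z in K, ‖E σ h φ j n z * E σ h φ m n z‖ ≤ C := by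
  rcases K.eq_empty_or_nonempty with rfl | ⟨z₀, hz₀⟩
  · exact ⟨0, Filter.Eventually.of_forall fun n => by simp⟩
  have hG := hGroA V σ h φ L
  have du : Dom V h φ 2 (fun n z => E σ h φ j n z * E σ h φ m n z) :=
    (hJetC V σ h φ L j).1.mul L.op (hJetC V σ h φ L m).1
  obtain ⟨C, hC⟩ := (hIntA V h φ _ L.hpos L.hlim L.smφ hG du.smooth).1 du.bq K hK hKV
  obtain ⟨r, hr⟩ := hK.isBounded.subset_closedBall z₀
  refine ⟨C * max r 1, ?_⟩
  filter_upwards [hC] with n hn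
  have h1 := hn z₀ hz₀ (max r 1) (lt_of_lt_of_le one_pos (le_max_right _ _))
  have h2 : K ∩ Metric.closedBall z₀ (max r 1) = K :=
    inter_eq_left.2 (hr.trans (Metric.closedBall_subset_closedBall (le_max_left _ _)))
  rw [h2] at h1
  exact h1

end WGA

open WGA in
theorem stmtWga (hGroA : StmtGroA) (hIntA : StmtIntA) (hIbpA : StmtIbpA) (hJetC : StmtJetC)
    (hLcz : StmtLcz) (hEcg : StmtEcg) (hSub : StmtSub) : StmtWga := by
  intro Γ ρ h φ hF hL
  have hU : IsOpen UH := isOpenUH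
  have hg := contDiffOn_gr hF.smooth
  have hgp : ∀ z ∈ UH, 0 < gr ρ z := fun z hz => gr_pos hz
  obtain ⟨σ₀, hσ₀⟩ : ∃ σ₀ : ℂ → ℝ, ∀ z, σ₀ z = 1 / 2 * Real.log (gr ρ z) := ⟨_, fun _ => rfl⟩
  obtain ⟨e, he⟩ : ∃ e : ℤ → ℕ → ℂ → ℂ, e = E σ₀ h φ := ⟨_, rfl⟩
  -- the jets of local data
  have hag : ∀ (V : Set ℂ) (σ : ℂ → ℝ) (φ' : ℕ → ℂ → ℂ), Agree V UH (gr ρ) h φ σ φ' →
      ∀ j n, ∀ z ∈ V, E σ h φ' j n z = e j n z := by
    intro V σ φ' A
    rw [he]
    refine (hEcg V σ σ₀ h φ' φ A.op (fun z hz => ?_) A.eφ).1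
    rw [hσ₀, ← A.eg z hz, Real.log_exp]
    ring
  have hloc : ∀ K, IsCompact K → K ⊆ UH → ∃ (V : Set ℂ) (σ : ℂ → ℝ) (φ' : ℕ → ℂ → ℂ), K ⊆ V ∧
      Agree V UH (gr ρ) h φ σ φ' := by
    intro K hK hKU
    obtain ⟨V, F, σ, φ', h1, -, -, -, h2⟩ := hLcz UH (gr ρ) h φ hU hg hgp hL K hK hKU
    exact ⟨V, σ, φ', h1, h2⟩
  have hcont : ∀ j n, ContinuousOn (e j n) UH := by
    intro j n z hz
    obtain ⟨V, σ, φ', h1, A⟩ := hloc {z} isCompact_singleton (by simpa using hz)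
    have hzV : z ∈ V := h1 rfl
    have h2 : ContinuousAt (E σ h φ' j n) z :=
      ((hJetC V σ h φ' A.loc j).1.smooth n).continuous.continuousAt
    refine (h2.congr ?_).continuousWithinAt
    filter_upwards [A.op.mem_nhds hzV] with w hw
    exact hag V σ φ' A j n w hw
  have hconj : ∀ j n, ∀ z ∈ UH, (starRingEnd ℂ) (e j n z) = (-1) ^ j * e (-j) n z := by
    intro j n z hz
    obtain ⟨V, σ, φ', h1, A⟩ := hloc {z} isCompact_singleton (by simpa using hz)
    have hzV : z ∈ V := h1 rfl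
    rw [← hag V σ φ' A j n z hzV, ← hag V σ φ' A (-j) n z hzV]
    exact conj_E A.loc j n z
  have hbdd : ∀ (j m : ℤ) K, IsCompact K → K ⊆ UH →
      ∃ C : ℝ, ∀ᶠ n in atTop, ∫ z in K, ‖e j n z * e m n z‖ ≤ C := by
    intro j m K hK hKU
    obtain ⟨V, σ, φ', h1, A⟩ := hloc K hK hKU
    obtain ⟨C, hC⟩ := bdd2 hGroA hIntA hJetC A.loc j m hK h1
    refine ⟨C, ?_⟩
    filter_upwards [hC] with n hn
    refine le_trans (le_of_eq ?_) hn
    refine setIntegral_congr_fun hK.measurableSet fun z hz => ?_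
    show ‖e j n z * e m n z‖ = ‖E σ h φ' j n z * E σ h φ' m n z‖
    rw [hag V σ φ' A j n z (h1 hz), hag V σ φ' A m n z (h1 hz)]
  have hrel : ∀ (j m : ℤ) (ζ : ℂ → ℂ), Test UH ζ → Tendsto (fun n =>
      (∫ z, ζ z * (e (j + 1) n z * e m n z)) + ∫ z, ζ z * (e j n z * e (m + 1) n z)) atTop
      (𝓝 0) := by
    intro j m ζ hζ
    obtain ⟨V, σ, φ', h1, A⟩ := hloc (tsupport ζ) hζ.supp hζ.sub
    have hζV : Test V ζ := ⟨hζ.smooth, hζ.supp, h1⟩
    refine (rel hGroA hIntA hIbpA hJetC A.loc hζV j m).congr fun n => ?_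
    have ee : ∀ a b : ℤ, ∫ z, ζ z * (E σ h φ' a n z * E σ h φ' b n z)
        = ∫ z, ζ z * (e a n z * e b n z) := by
      intro a b
      congr 1
      funext z
      by_cases hz : z ∈ V
      · rw [hag V σ φ' A a n z hz, hag V σ φ' A b n z hz]
      · rw [zero_off hζV hz, zero_mul, zero_mul]
    rw [ee, ee]
  -- the subsequence
  obtain ⟨s, hs, hlim⟩ := hSub UH (fun i n z => e (Denumerable.ofNat ℤ i) n z * e 0 n z) hU
    (fun i n => (hcont _ n).mul (hcont 0 n)) (fun i K hK hKU => hbdd _ 0 K hK hKU)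
  have hlim' : ∀ (k : ℤ) (ζ : ℂ → ℂ), Test UH ζ →
      ∃ L : ℂ, Tendsto (fun n => ∫ z, ζ z * (e k (s n) z * e 0 (s n) z)) atTop (𝓝 L) := by
    intro k ζ hζ
    have h1 := hlim (Encodable.encode k) ζ hζ
    simpa only [Denumerable.ofNat_encode] using h1
  obtain ⟨P, hP⟩ : ∃ P : ℤ → (ℂ → ℂ) → ℂ, ∀ k ζ, Test UH ζ →
      Tendsto (fun n => ∫ z, ζ z * (e k (s n) z * e 0 (s n) z)) atTop (𝓝 (P k ζ)) := by
    classical
    refine ⟨fun k ζ => if hζ : Test UH ζ then (hlim' k ζ hζ).choose else 0, fun k ζ hζ => ?_⟩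
    beta_reduce
    rw [dif_pos hζ]
    exact (hlim' k ζ hζ).choose_spec
  refine ⟨s, P, fun j n z => e j (s n) z, hs, ?_, fun j n => hcont j (s n),
    fun j n z hz => hconj j (s n) z hz, ?_⟩
  · intro V σ φ' A j n z hz
    exact hag V σ φ' A j (s n) z hz
  · -- all the products
    have hrel' : ∀ (j m : ℤ) (ζ : ℂ → ℂ), Test UH ζ → Tendsto (fun n =>
        (∫ z, ζ z * (e (j + 1) (s n) z * e m (s n) z))
          + ∫ z, ζ z * (e j (s n) z * e (m + 1) (s n) z)) atTop (𝓝 0) := fun j m ζ hζ =>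
      (hrel j m ζ hζ).comp hs.tendsto_atTop
    have key : ∀ (m j : ℤ) (ζ : ℂ → ℂ), Test UH ζ →
        Tendsto (fun n => ∫ z, ζ z * (e j (s n) z * e m (s n) z)) atTop
          (𝓝 ((-1) ^ m * P (j + m) ζ)) := by
      intro m
      induction m using Int.induction_on with
      | zero =>
        intro j ζ hζ
        rw [zpow_zero, one_mul, add_zero]
        exact hP j ζ hζ
      | succ m ih =>
        intro j ζ hζ
        have h1 := (hrel' j m ζ hζ).sub (ih (j + 1) ζ hζ)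
        have e1 : (0 : ℂ) - (-1) ^ (m : ℤ) * P (j + 1 + m) ζ
            = (-1) ^ ((m : ℤ) + 1) * P (j + ((m : ℤ) + 1)) ζ := by
          rw [zpow_add_one₀ (by norm_num), show j + 1 + (m : ℤ) = j + ((m : ℤ) + 1) by ring]
          ring
        rw [e1] at h1
        refine h1.congr fun n => ?_
        ring
      | pred m ih =>
        intro j ζ hζ
        have h1 := (hrel' (j - 1) (-m - 1) ζ hζ).sub (ih (j - 1) ζ hζ)
        rw [sub_add_cancel, sub_add_cancel] at h1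
        have e1 : (0 : ℂ) - (-1) ^ (-(m : ℤ)) * P (j - 1 + -(m : ℤ)) ζ
            = (-1) ^ (-(m : ℤ) - 1) * P (j + (-(m : ℤ) - 1)) ζ := by
          rw [zpow_sub_one₀ (by norm_num), show j - 1 + -(m : ℤ) = j + (-(m : ℤ) - 1) by ring]
          norm_num
        rw [e1] at h1
        refine h1.congr fun n => ?_
        ring
    exact fun j m ζ hζ => key m j ζ hζ

end

end U3
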