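import Pool.Agent.U3.StmtsG

/-!
WGB: the transport identities of the limit measure.
-/

open MeasureTheory Filter Topology Set
open UpperHalfPlane hiding I
open scoped ContDiff MatrixGroups

namespace U3

open QE QE.NC QJ

noncomputable section

namespace WGB

lemma uh_open : IsOpen UH := isOpen_lt continuous_const Complex.continuous_im

lemma ex_ne (σ : ℂ → ℝ) (k : ℤ) (z : ℂ) : ex σ k z ≠ 0 := by
  unfold ex
  exact_mod_cast (Real.exp_pos _).ne'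

lemma ex_add (σ : ℂ → ℝ) (j k : ℤ) (z : ℂ) : ex σ j z * ex σ k z = ex σ (j + k) z := by
  unfold ex
  rw [← Complex.ofReal_mul, ← Real.exp_add]
  push_cast
  ring_nf

lemma diff_sig {σ : ℂ → ℝ} (hσ : ContDiff ℝ ∞ σ) (z : ℂ) :
    DifferentiableAt ℝ (fun w => (σ w : ℂ)) z :=
  (Complex.ofRealCLM.contDiff.comp hσ).contDiffAt.differentiableAt (by simp)

lemma fderiv_ex {σ : ℂ → ℝ} (hσ : ContDiff ℝ ∞ σ) (k : ℤ) (z v : ℂ) :
    fderiv ℝ (ex σ k) z v = k * ex σ k z * fderiv ℝ (fun w => (σ w : ℂ)) z v := by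
  have hd : DifferentiableAt ℝ σ z := hσ.contDiffAt.differentiableAt (by simp)
  have h1 : HasFDerivAt (fun w => Real.exp (k * σ w))
      (Real.exp (k * σ z) • ((k : ℝ) • fderiv ℝ σ z)) z :=
    (hd.hasFDerivAt.const_mul (k : ℝ)).exp
  have h2 : HasFDerivAt (ex σ k)
      (Complex.ofRealCLM.comp (Real.exp (k * σ z) • ((k : ℝ) • fderiv ℝ σ z))) z :=
    Complex.ofRealCLM.hasFDerivAt.comp z h1
  have h3 : HasFDerivAt (fun w => (σ w : ℂ)) (Complex.ofRealCLM.comp (fderiv ℝ σ z)) z :=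
    Complex.ofRealCLM.hasFDerivAt.comp z hd.hasFDerivAt
  rw [h2.fderiv, h3.fderiv]
  simp only [ContinuousLinearMap.comp_apply, smul_apply, smul_eq_mul,
    Complex.ofRealCLM_apply, ex]
  push_cast
  ring

lemma diff_ex {σ : ℂ → ℝ} (hσ : ContDiff ℝ ∞ σ) (k : ℤ) (z : ℂ) :
    DifferentiableAt ℝ (ex σ k) z := by
  have hd : DifferentiableAt ℝ σ z := hσ.contDiffAt.differentiableAt (by simp)
  have h1 : HasFDerivAt (fun w => Real.exp (k * σ w))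
      (Real.exp (k * σ z) • ((k : ℝ) • fderiv ℝ σ z)) z :=
    (hd.hasFDerivAt.const_mul (k : ℝ)).exp
  exact (Complex.ofRealCLM.hasFDerivAt.comp z h1).differentiableAt

lemma dz_ex {σ : ℂ → ℝ} (hσ : ContDiff ℝ ∞ σ) (k : ℤ) (z : ℂ) :
    dz (ex σ k) z = k * ex σ k z * dz (fun w => (σ w : ℂ)) z := by
  unfold dz
  rw [fderiv_ex hσ, fderiv_ex hσ]
  ring

lemma dzb_ex {σ : ℂ → ℝ} (hσ : ContDiff ℝ ∞ σ) (k : ℤ) (z : ℂ) :
    dzb (ex σ k) z = k * ex σ k z * dzb (fun w => (σ w : ℂ)) z := by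
  unfold dzb
  rw [fderiv_ex hσ, fderiv_ex hσ]
  ring

lemma D_form {σ : ℂ → ℝ} (hσ : ContDiff ℝ ∞ σ) {ζ : ℂ → ℂ} (hζ : ContDiff ℝ ∞ ζ) (k : ℤ) (z : ℂ) :
    D σ (-k) ζ z = 2 * (ex σ (-1) z * dz ζ z - k * dz (ex σ (-1)) z * ζ z) := by
  have hd : DifferentiableAt ℝ ζ z := hζ.contDiffAt.differentiableAt (by simp)
  unfold D
  rw [neg_neg]
  have h1 : dz (fun w => ex σ k w * ζ w) z = dz (ex σ k) z * ζ z + ex σ k z * dz ζ z :=
    dz_mul (diff_ex hσ k z) hd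
  rw [h1, dz_ex hσ, dz_ex hσ]
  have h2 : ex σ (-k - 1) z * ex σ k z = ex σ (-1) z := by
    rw [ex_add]; congr 1; ring
  have h3 : 2 * ex σ (-k - 1) z * ((k : ℂ) * ex σ k z * dz (fun w => (σ w : ℂ)) z * ζ z
      + ex σ k z * dz ζ z)
      = 2 * (ex σ (-k - 1) z * ex σ k z) * (k * dz (fun w => (σ w : ℂ)) z * ζ z + dz ζ z) := by
    ring
  rw [h3, h2]
  push_cast
  ring

lemma Db_form {σ : ℂ → ℝ} (hσ : ContDiff ℝ ∞ σ) {ζ : ℂ → ℂ} (hζ : ContDiff ℝ ∞ ζ) (k : ℤ) (z : ℂ) :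
    Db σ (-k) ζ z = 2 * (ex σ (-1) z * dzb ζ z + k * dzb (ex σ (-1)) z * ζ z) := by
  have hd : DifferentiableAt ℝ ζ z := hζ.contDiffAt.differentiableAt (by simp)
  unfold Db
  rw [neg_neg]
  have h1 : dzb (fun w => ex σ (-k) w * ζ w) z
      = dzb (ex σ (-k)) z * ζ z + ex σ (-k) z * dzb ζ z :=
    dzb_mul (diff_ex hσ (-k) z) hd
  rw [h1, dzb_ex hσ, dzb_ex hσ]
  have h2 : ex σ (k - 1) z * ex σ (-k) z = ex σ (-1) z := by
    rw [ex_add]; congr 1; ring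
  have h3 : 2 * ex σ (k - 1) z * (((-k : ℤ) : ℂ) * ex σ (-k) z * dzb (fun w => (σ w : ℂ)) z * ζ z
      + ex σ (-k) z * dzb ζ z)
      = 2 * (ex σ (k - 1) z * ex σ (-k) z)
        * (((-k : ℤ) : ℂ) * dzb (fun w => (σ w : ℂ)) z * ζ z + dzb ζ z) := by
    ring
  rw [h3, h2]
  push_cast
  ring

/-- the conformal factor and the weight -/
lemma aR_eq {ρ : ℍ → ℝ} {σ : ℂ → ℝ} {z : ℂ} (hz : z ∈ UH) (h : Real.exp (2 * σ z) = gr ρ z) :
    aR ρ z = ex σ (-1) z := by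
  have hz' : 0 < z.im := hz
  unfold aR ex
  congr 1
  have h1 : (Real.exp (ro ρ z) / z.im) ^ 2 = Real.exp (σ z) ^ 2 := by
    rw [← Real.exp_nat_mul, div_pow, ← Real.exp_nat_mul]
    push_cast
    rw [h]
    rfl
  have h2 : Real.exp (ro ρ z) / z.im = Real.exp (σ z) :=
    (sq_eq_sq₀ (by positivity) (Real.exp_pos _).le).1 h1
  have h3 : z.im * Real.exp (-(ro ρ z)) = (Real.exp (ro ρ z) / z.im)⁻¹ := by
    rw [inv_div, Real.exp_neg]
    field_simp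
  rw [h3, h2, ← Real.exp_neg]
  congr 1
  push_cast
  ring

lemma contDiffOn_gr {Γ : Subgroup SL(2, ℝ)} {ρ : ℍ → ℝ} (hρ : Fac Γ ρ) :
    ContDiffOn ℝ ∞ (gr ρ) UH := by
  have h1 : ContDiffOn ℝ ∞ (fun z => 2 * ro ρ z) UH := contDiffOn_const.mul hρ.smooth
  have h2 : ContDiffOn ℝ ∞ (fun z => Real.exp (2 * ro ρ z)) UH := h1.exp
  have h3 : ContDiffOn ℝ ∞ (fun z : ℂ => z.im ^ 2) UH :=
    (Complex.imCLM.contDiff.pow 2).contDiffOn
  have h4 : ContDiffOn ℝ ∞ (fun z : ℂ => Real.exp (2 * ro ρ z) / z.im ^ 2) UH :=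
    h2.div h3 fun z hz => by
      have : (0 : ℝ) < z.im := hz
      positivity
  exact h4

lemma gr_pos (ρ : ℍ → ℝ) {z : ℂ} (hz : z ∈ UH) : 0 < gr ρ z := by
  have : (0 : ℝ) < z.im := hz
  unfold gr
  positivity

lemma gr_nonneg (ρ : ℍ → ℝ) (z : ℂ) : 0 ≤ gr ρ z := by
  unfold gr
  positivity

/-- a subsequence of local data -/
lemma locB_comp {V : Set ℂ} {σ : ℂ → ℝ} {h : ℕ → ℝ} {φ : ℕ → ℂ → ℂ} (H : LocB V σ h φ)
    {s : ℕ → ℕ} (hs : StrictMono s) : LocB V σ (fun k => h (s k)) (fun k => φ (s k)) where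
  op := H.op
  hpos := fun n => H.hpos _
  hlim := H.hlim.comp hs.tendsto_atTop
  sm := H.sm
  smφ := fun n => H.smφ _
  real := fun n => H.real _
  eig := fun n => H.eig _
  bdd := fun K hK hKV => by
    obtain ⟨C, hC⟩ := H.bdd K hK hKV
    exact ⟨C, hs.tendsto_atTop.eventually hC⟩

/-- the integrand -/
def J (ρ : ℍ → ℝ) (k : ℤ) (ζ : ℂ → ℂ) (g : SL(2, ℝ)) : ℂ :=
  (aR ρ (pG g) * dz ζ (pG g) - k * dz (aR ρ) (pG g) * ζ (pG g))
      * (starRingEnd ℂ) (dirG g) ^ (k - 1)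
    + (aR ρ (pG g) * dzb ζ (pG g) + k * dzb (aR ρ) (pG g) * ζ (pG g))
      * (starRingEnd ℂ) (dirG g) ^ (k + 1)

/-- the integrand of the transport identity -/
def T (σ : ℂ → ℝ) (k : ℤ) (ζ : ℂ → ℂ) (g : SL(2, ℝ)) : ℂ :=
  ex σ 2 (pG g) * (Db σ (-k) ζ (pG g) * uG g ^ (k + 1) - D σ (-k) ζ (pG g) * uG g ^ (k - 1))

lemma J_zero {ρ : ℍ → ℝ} {k : ℤ} {ζ : ℂ → ℂ} {g : SL(2, ℝ)} (hg : pG g ∉ tsupport ζ) :
    J ρ k ζ g = 0 := by
  have h0 : ζ =ᶠ[𝓝 (pG g)] fun _ => 0 := notMem_tsupport_iff_eventuallyEq.mp hg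
  have h1 : ζ (pG g) = 0 := h0.self_of_nhds
  have h2 : dz ζ (pG g) = 0 := by rw [dz_congr h0, dz_const]
  have h3 : dzb ζ (pG g) = 0 := by rw [dzb_congr h0, dzb_const]
  simp only [J, h1, h2, h3, mul_zero, sub_zero, add_zero, zero_mul]

lemma T_zero {σ : ℂ → ℝ} {k : ℤ} {ζ : ℂ → ℂ} {g : SL(2, ℝ)} (hg : pG g ∉ tsupport ζ) :
    T σ k ζ g = 0 := by
  have h0 : ζ =ᶠ[𝓝 (pG g)] fun _ => 0 := notMem_tsupport_iff_eventuallyEq.mp hg
  have h1 : (fun w => ex σ (-k) w * ζ w) =ᶠ[𝓝 (pG g)] fun _ => 0 := by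
    filter_upwards [h0] with w hw
    rw [hw, mul_zero]
  have h2 : (fun w => ex σ (-(-k)) w * ζ w) =ᶠ[𝓝 (pG g)] fun _ => 0 := by
    filter_upwards [h0] with w hw
    rw [hw, mul_zero]
  have hD : D σ (-k) ζ (pG g) = 0 := by
    unfold D
    rw [dz_congr h2, dz_const, mul_zero]
  have hDb : Db σ (-k) ζ (pG g) = 0 := by
    unfold Db
    rw [dzb_congr h1, dzb_const, mul_zero]
  simp only [T, hD, hDb, zero_mul, sub_zero, mul_zero]

lemma uG_pow (g : SL(2, ℝ)) (k : ℤ) :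
    uG g ^ k = Complex.I ^ k * (starRingEnd ℂ) (dirG g) ^ k := by
  unfold uG
  rw [mul_zpow]

/-- the two integrands agree over `V` -/
lemma T_eq {V : Set ℂ} {ρ : ℍ → ℝ} {σ : ℂ → ℝ} (hV : IsOpen V) (hVU : V ⊆ UH)
    (hσ : ContDiff ℝ ∞ σ) (hg : ∀ z ∈ V, Real.exp (2 * σ z) = gr ρ z) {ζ : ℂ → ℂ}
    (hζ : ContDiff ℝ ∞ ζ) (k : ℤ) {g : SL(2, ℝ)} (hp : pG g ∈ V) :
    T σ k ζ g = 2 * Complex.I ^ (k + 1) * ((gr ρ (pG g) : ℂ) * J ρ k ζ g) := by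
  have haR : ∀ z ∈ V, aR ρ z = ex σ (-1) z := fun z hz => aR_eq (hVU hz) (hg z hz)
  have h1 : dz (aR ρ) (pG g) = dz (ex σ (-1)) (pG g) := dz_congr_on hV haR hp
  have h2 : dzb (aR ρ) (pG g) = dzb (ex σ (-1)) (pG g) := dzb_congr_on hV haR hp
  have h3 : ex σ 2 (pG g) = (gr ρ (pG g) : ℂ) := by
    unfold ex
    rw [← hg _ hp]
    norm_num
  have hI : Complex.I ^ (k - 1) = -Complex.I ^ (k + 1) := by
    have h4 : Complex.I ^ (k + 1) = Complex.I ^ (k - 1) * Complex.I ^ (2 : ℤ) := by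
      rw [← zpow_add₀ Complex.I_ne_zero]
      congr 1
      ring
    have h5 : Complex.I ^ (2 : ℤ) = -1 := by
      have := Complex.I_sq
      exact_mod_cast this
    rw [h4, h5]
    ring
  unfold T J
  rw [D_form hσ hζ, Db_form hσ hζ, uG_pow, uG_pow, hI, h3, haR _ hp, h1, h2]
  ring

end WGB

open WGB

theorem stmtWgb (hDir : StmtDir) (hLcz : StmtLcz) (hEcg : StmtEcg) (hRot : StmtRot) :
    StmtWgb := by
  intro _ _ Γ ρ h φ s P μ _ hρ hU hs hlim hmom k ζ hζ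
  obtain ⟨hpc, huc, hun, hpU, -, -, -, hpK⟩ := hRot
  have hK : IsCompact (tsupport ζ) := hζ.supp
  obtain ⟨V, F, σ, φ', hKV, hVF, hFU, hF, hA⟩ := hLcz UH (gr ρ) h φ uh_open (contDiffOn_gr hρ)
    (fun z hz => gr_pos ρ hz) hU (tsupport ζ) hK hζ.sub
  have hFm : MeasurableSet (pG ⁻¹' F) := (hF.isClosed.preimage hpc).measurableSet
  have hrest : ∀ f : SL(2, ℝ) → ℂ, (∀ g, pG g ∉ F → f g = 0) →
      ∫ g in pG ⁻¹' F, f g ∂μ = ∫ g, f g ∂μ := fun f hf =>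
    setIntegral_eq_integral_of_forall_compl_eq_zero fun g hg => hf g hg
  have hLim : LimM V σ (fun k => h (s k)) (fun k => φ' (s k)) (μ.restrict (pG ⁻¹' F)) pG uG := by
    refine ⟨?_, hpc.measurable, huc.measurable, hun, ⟨F, hF, ?_⟩, ?_⟩
    · rw [Measure.restrict_apply_univ]
      exact (hpK F hF hFU).measure_lt_top.ne
    · exact ae_restrict_mem hFm
    · intro j m ξ hξ
      have h1 := hlim V σ φ' hA j m ξ hξ
      have h2 : ∫ o in pG ⁻¹' F, ξ (pG o) * uG o ^ (j + m) ∂μ = P (j + m) ξ := by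
        rw [hrest]
        · exact hmom (j + m) ξ (hξ.mono hA.sub)
        · intro g hg
          have : pG g ∉ tsupport ξ := fun hh => hg (hVF (hξ.sub hh))
          rw [image_eq_zero_of_notMem_tsupport this, zero_mul]
      rw [h2]
      have h3 := (hEcg univ σ σ h φ' φ' isOpen_univ (fun _ _ => rfl) (fun _ _ _ => rfl)).2
      refine h1.congr fun n => ?_
      refine integral_congr_ae (Eventually.of_forall fun z => ?_)
      change ξ z * (E σ h φ' j (s n) z * E σ h φ' m (s n) z)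
        = ξ z * (E σ (fun k => h (s k)) (fun k => φ' (s k)) j n z
          * E σ (fun k => h (s k)) (fun k => φ' (s k)) m n z)
      rw [h3 s j n z, h3 s m n z]
  have hDM := hDir V σ (fun k => h (s k)) (fun k => φ' (s k)) SL(2, ℝ) (μ.restrict (pG ⁻¹' F))
    pG uG (locB_comp hA.loc hs) hLim
  have htr := hDM.transport k ζ ⟨hζ.smooth, hζ.supp, hKV⟩
  -- both integrands vanish outside of the support
  have hTJ : ∀ g, T σ k ζ g = 2 * Complex.I ^ (k + 1) * ((gr ρ (pG g) : ℂ) * J ρ k ζ g) := by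
    intro g
    by_cases hg : pG g ∈ tsupport ζ
    · exact T_eq hA.op hA.sub hA.loc.sm hA.eg hζ.smooth k (hKV hg)
    · rw [T_zero hg, J_zero hg]
      simp
  have hT : ∫ g, T σ k ζ g ∂μ = 0 := by
    rw [← hrest (T σ k ζ) fun g hg => T_zero fun hh => hg (hVF (hKV hh))]
    exact htr
  have hJ : ∫ g, (gr ρ (pG g) : ℂ) * J ρ k ζ g ∂μ = 0 := by
    have h1 : ∫ g, T σ k ζ g ∂μ
        = 2 * Complex.I ^ (k + 1) * ∫ g, (gr ρ (pG g) : ℂ) * J ρ k ζ g ∂μ := by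
      rw [← integral_const_mul]
      exact integral_congr_ae (Eventually.of_forall hTJ)
    rw [hT] at h1
    have h2 : (2 : ℂ) * Complex.I ^ (k + 1) ≠ 0 :=
      mul_ne_zero two_ne_zero (zpow_ne_zero _ Complex.I_ne_zero)
    exact (mul_eq_zero.mp h1.symm).resolve_left h2
  have hgc : Continuous fun g : SL(2, ℝ) => gr ρ (pG g) :=
    (contDiffOn_gr hρ).continuousOn.comp_continuous hpc hpU
  change ∫ g, J ρ k ζ g ∂(μ.withDensity fun g => ENNReal.ofReal (gr ρ (pG g))) = 0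
  have hwd := integral_withDensity_eq_integral_toReal_smul (μ := μ)
    (f := fun g => ENNReal.ofReal (gr ρ (pG g))) (hgc.measurable.ennreal_ofReal)
    (Eventually.of_forall fun g => ENNReal.ofReal_lt_top) (J ρ k ζ)
  rw [hwd, ← hJ]
  refine integral_congr_ae (Eventually.of_forall fun g => ?_)
  change (ENNReal.ofReal (gr ρ (pG g))).toReal • J ρ k ζ g = (gr ρ (pG g) : ℂ) * J ρ k ζ g
  rw [ENNReal.toReal_ofReal (gr_nonneg ρ _), Complex.real_smul]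

end

end U3
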