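import Pool.Agent.U3.StmtsG
import Pool.Agent.NCV.Inv
import Pool.Agent.NCV.Lip
import Pool.Agent.NCV.Fl
import Pool.Agent.NCV.Mass

/-!
Third order statistics: the global limit measure (WGL).
-/

open MeasureTheory Filter Topology Set
open UpperHalfPlane hiding I
open scoped ContDiff MatrixGroups

namespace U3

open QE QE.NC QJ

namespace WGL

/-- the conformal factor along the frames is continuous -/
theorem gr_cont {Γ : Subgroup SL(2, ℝ)} {ρ : ℍ → ℝ} (hF : Fac Γ ρ) : ContinuousOn (gr ρ) UH := by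
  have h1 : ContinuousOn (fun z : ℂ => ρ (ofComplex z)) UH := hF.smooth.continuousOn
  have h2 : ContinuousOn (fun z : ℂ => z.im ^ 2) UH := (Complex.continuous_im.pow 2).continuousOn
  unfold gr
  refine ContinuousOn.div ?_ h2 fun z hz => ?_
  · exact Real.continuous_exp.comp_continuousOn (continuousOn_const.mul h1)
  · have : 0 < z.im := hz
    positivity

theorem gr_pos (ρ : ℍ → ℝ) {z : ℂ} (hz : z ∈ UH) : 0 < gr ρ z := by
  have : 0 < z.im := hz
  unfold gr
  positivity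

theorem fin_compacts [MeasurableSpace SL(2, ℝ)] [BorelSpace SL(2, ℝ)] (μ : Measure SL(2, ℝ))
    [IsFiniteMeasureOnCompacts μ] {d : SL(2, ℝ) → ℝ} (hd : Continuous d) :
    IsFiniteMeasureOnCompacts (μ.withDensity fun g => ENNReal.ofReal (d g)) := by
  refine ⟨fun K hK => ?_⟩
  rw [withDensity_apply _ hK.measurableSet]
  obtain ⟨C, hC⟩ := (hK.image hd).bddAbove
  have h1 : ∫⁻ g in K, ENNReal.ofReal (d g) ∂μ ≤ ∫⁻ _ in K, ENNReal.ofReal C ∂μ := by
    refine setLIntegral_mono' hK.measurableSet fun g hg => ENNReal.ofReal_le_ofReal ?_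
    exact hC ⟨g, hg, rfl⟩
  refine h1.trans_lt ?_
  rw [setLIntegral_const]
  exact ENNReal.mul_lt_top ENNReal.ofReal_lt_top hK.measure_lt_top

end WGL

open WGL in
theorem stmtWgl (hWga : StmtWga) (hRmk : StmtRmk) (hWgb : StmtWgb) (hInfU : StmtInfU)
    (hRot : StmtRot) : StmtWgl := by
  intro _ _ Γ ρ Φ h φ hF hΦ hL
  obtain ⟨hpc, huc, hun, hpU, hneg, -, -, -⟩ := hRot
  obtain ⟨s, P, e, hs, hAg, hec, hej, hlim⟩ := hWga Γ ρ h φ hF hL
  obtain ⟨μ, hμf, hμs, hμn, hμ⟩ := hRmk e P hec hej hlim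
  have hdc : Continuous fun g : SL(2, ℝ) => gr ρ (pG g) :=
    (gr_cont hF).comp_continuous hpc hpU
  have hdm : Measurable fun g : SL(2, ℝ) => ENNReal.ofReal (gr ρ (pG g)) :=
    hdc.measurable.ennreal_ofReal
  have hνf := fin_compacts μ hdc
  have hνs : SigmaFinite (μ.withDensity fun g => ENNReal.ofReal (gr ρ (pG g))) :=
    SigmaFinite.withDensity_ofReal _
  have hνn : Measure.map (fun g => -g) (μ.withDensity fun g => ENNReal.ofReal (gr ρ (pG g))) =
      μ.withDensity fun g => ENNReal.ofReal (gr ρ (pG g)) := by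
    refine map_withDensity_of_inv neg_cont.measurable hμn hdm fun g => ?_
    rw [(hneg g).1]
  have hlimV : ∀ (V : Set ℂ) (σ : ℂ → ℝ) (φ' : ℕ → ℂ → ℂ), Agree V UH (gr ρ) h φ σ φ' →
      ∀ (j m : ℤ) (ζ : ℂ → ℂ), Test V ζ →
        Tendsto (fun n => ∫ z, ζ z * (E σ h φ' j (s n) z * E σ h φ' m (s n) z)) atTop
          (𝓝 ((-1) ^ m * P (j + m) ζ)) := by
    intro V σ φ' hA j m ζ hζ
    refine (hlim j m ζ ⟨hζ.smooth, hζ.supp, hζ.sub.trans hA.sub⟩).congr fun n => ?_
    refine integral_congr_ae (ae_of_all _ fun z => ?_)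
    simp only
    by_cases hz : z ∈ V
    · rw [hAg V σ φ' hA j n z hz, hAg V σ φ' hA m n z hz]
    · have h0 : ζ z = 0 := image_eq_zero_of_notMem_tsupport fun h => hz (hζ.sub h)
      rw [h0, zero_mul, zero_mul]
  have htr := hWgb Γ ρ h φ s P μ hF hL hs hlimV hμ
  have hinv := stmtInv stmtLip (stmtFl stmtLip) Γ ρ Φ _ hF hΦ (hInfU Γ ρ _ hF hνn htr)
  refine ⟨s, _, hs, hνf, hνs, hinv, fun V σ φ' hA j m ζ hζ => ?_⟩
  have hζU : Test UH ζ := ⟨hζ.smooth, hζ.supp, hζ.sub.trans hA.sub⟩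
  have e1 : ∫ g, ζ (pG g) * ((Real.exp (-(2 * σ (pG g))) : ℝ) : ℂ) * uG g ^ (j + m)
      ∂(μ.withDensity fun g => ENNReal.ofReal (gr ρ (pG g))) = P (j + m) ζ := by
    rw [← hμ (j + m) ζ hζU, integral_withDensity_eq_integral_toReal_smul hdm
      (ae_of_all _ fun g => ENNReal.ofReal_lt_top)]
    refine integral_congr_ae (ae_of_all _ fun g => ?_)
    simp only
    rw [ENNReal.toReal_ofReal (gr_pos ρ (hpU g)).le]
    by_cases hz : pG g ∈ V
    · rw [← hA.eg _ hz, Complex.real_smul, Real.exp_neg]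
      push_cast
      have : Complex.exp (2 * (σ (pG g) : ℂ)) ≠ 0 := Complex.exp_ne_zero _
      field_simp
    · have h0 : ζ (pG g) = 0 := image_eq_zero_of_notMem_tsupport fun h => hz (hζ.sub h)
      simp [h0]
  rw [e1]
  exact hlimV V σ φ' hA j m ζ hζ

end U3
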