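import Pool.Agent.U3.AllA
import Pool.Agent.NCV.Inv
import Pool.Agent.NCV.Flow
import Pool.Agent.NCV.Lip
import Pool.Agent.NCV.Fl
import Pool.Agent.U3.ROT
import Pool.Agent.U3.VEL
import Pool.Agent.U3.ARE
import Pool.Agent.U3.NCR
import Pool.Agent.U3.JCA
import Pool.Agent.U3.JAC
import Pool.Agent.U3.NUC
import Pool.Agent.U3.TRV
import Pool.Agent.U3.CONU
import Pool.Agent.U3.GEO
import Pool.Agent.U3.GEV
import Pool.Agent.U3.SUB
import Pool.Agent.U3.RMK
import Pool.Agent.U3.INF
import Pool.Agent.U3.LCZ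
import Pool.Agent.U3.ECG
import Pool.Agent.U3.WGA
import Pool.Agent.U3.WGB
import Pool.Agent.U3.WGL
import Pool.Agent.U3.E3G

/-!
The three-jet integrals of eigenfunctions of closed surfaces of negative curvature tend to zero:
assembly.
-/

namespace U3

theorem are : StmtAre := stmtAre stmtVel stmtRot
theorem ncr : StmtNcr := stmtNcr are stmtRot
theorem jac : StmtJac := stmtJac stmtRot stmtJca
theorem nuc : StmtNuc := stmtNuc stmtRot jac
theorem trv : StmtTrv := stmtTrv stmtVel stmtRot
theorem con : StmtCon := stmtCon stmtVel trv stmtRot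
theorem geo : StmtGeo := stmtGeo ncr nuc con trv stmtRot
theorem gev : StmtGev := stmtGev geo stmtRot
theorem wga : StmtWga := stmtWga groA stmtIntA stmtIbpA stmtJetC stmtLcz stmtEcg stmtSub
theorem wgb : StmtWgb := stmtWgb dir stmtLcz stmtEcg stmtRot
theorem wgl : StmtWgl := stmtWgl wga stmtRmk wgb stmtInfU stmtRot
theorem e3g : StmtE3g := stmtE3g wgl e3z gev stmtLcz stmtEcg stmtRot

end U3
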