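import Pool.Agent.U3.StmtsT
import Pool.Agent.QJ.Dom

/-!
The derivatives of the displaced integrals with respect to the displacement.
-/

open Complex MeasureTheory Filter Topology Set
open scoped ContDiff

namespace U3

open QJ QE

noncomputable section

namespace DER

variable {V : Set ℂ} {σ : ℂ → ℝ} {h : ℕ → ℝ} {φ : ℕ → ℂ → ℂ}

/-! ### Parametric integrals -/

/-- the derivative in the first variable -/
def F1 (F : ℂ → ℂ → ℂ) (l z : ℂ) : ℂ →L[ℝ] ℂ :=
  (fderiv ℝ (Function.uncurry F) (l, z)).comp (ContinuousLinearMap.inl ℝ ℂ ℂ)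

lemma F1_cont {F : ℂ → ℂ → ℂ} (hF : ContDiff ℝ ∞ (Function.uncurry F)) :
    Continuous (Function.uncurry (F1 F)) := by
  have h1 : Continuous (fderiv ℝ (Function.uncurry F)) := hF.continuous_fderiv (by simp)
  exact (h1.comp (continuous_fst.prodMk continuous_snd)).clm_comp continuous_const

lemma F1_has {F : ℂ → ℂ → ℂ} (hF : ContDiff ℝ ∞ (Function.uncurry F)) (l z : ℂ) :
    HasFDerivAt (fun l => F l z) (F1 F l z) l :=
  HasFDerivAt.comp l (f := fun l => (l, z)) ((hF.differentiable (by simp)) (l, z)).hasFDerivAt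
    (hasFDerivAt_prodMk_left l z)

lemma hasFDeriv_param {F : ℂ → ℂ → ℂ} (hF : ContDiff ℝ ∞ (Function.uncurry F)) {K : Set ℂ}
    (hK : IsCompact K) (l₀ : ℂ) :
    HasFDerivAt (fun l => ∫ z in K, F l z) (∫ z in K, F1 F l₀ z) l₀ := by
  have hF'c := F1_cont hF
  obtain ⟨C, hC⟩ := ((isCompact_closedBall l₀ 1).prod hK).exists_bound_of_continuousOn
    hF'c.continuousOn
  have hs : ∀ l : ℂ, Continuous fun z : ℂ => (l, z) := fun l => by fun_prop
  refine hasFDerivAt_integral_of_dominated_of_fderiv_le (s := Metric.ball l₀ 1)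
    (bound := fun _ => C) (F' := F1 F) (Metric.ball_mem_nhds _ one_pos) ?_ ?_ ?_ ?_ ?_ ?_
  · filter_upwards with l
    exact (hF.continuous.comp (hs l)).aestronglyMeasurable
  · exact (hF.continuous.comp (hs l₀)).continuousOn.integrableOn_compact hK
  · exact (hF'c.comp (hs l₀)).aestronglyMeasurable
  · refine (ae_restrict_iff' hK.measurableSet).mpr (ae_of_all _ fun z hz l hl => ?_)
    exact hC (l, z) ⟨Metric.ball_subset_closedBall hl, hz⟩
  · exact continuousOn_const.integrableOn_compact hK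
  · filter_upwards with z l _
    exact F1_has hF l z

lemma contDiff_param {F : ℂ → ℂ → ℂ} (hF : ContDiff ℝ ∞ (Function.uncurry F)) {K : Set ℂ}
    (hK : IsCompact K) : ContDiff ℝ 1 (fun l => ∫ z in K, F l z) := by
  rw [contDiff_one_iff_fderiv]
  refine ⟨fun l => (hasFDeriv_param hF hK l).differentiableAt, ?_⟩
  have h1 : fderiv ℝ (fun l => ∫ z in K, F l z) = fun l => ∫ z in K, F1 F l z := by
    funext l
    exact (hasFDeriv_param hF hK l).fderiv
  rw [h1]
  exact continuous_parametric_integral_of_continuous (F1_cont hF) hK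

lemma fderiv_param {F : ℂ → ℂ → ℂ} (hF : ContDiff ℝ ∞ (Function.uncurry F)) {K : Set ℂ}
    (hK : IsCompact K) (l v : ℂ) :
    fderiv ℝ (fun l => ∫ z in K, F l z) l v = ∫ z in K, fderiv ℝ (fun l => F l z) l v := by
  rw [(hasFDeriv_param hF hK l).fderiv]
  have h1 : Integrable (F1 F l) (volume.restrict K) :=
    ((F1_cont hF).comp (by fun_prop : Continuous fun z : ℂ => (l, z))).continuousOn.integrableOn_compact
      hK
  rw [ContinuousLinearMap.integral_apply h1]
  refine integral_congr_ae (ae_of_all _ fun z => ?_)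
  simp only [(F1_has hF l z).fderiv]

lemma fderiv_cont {F : ℂ → ℂ → ℂ} (hF : ContDiff ℝ ∞ (Function.uncurry F)) (l v : ℂ) :
    Continuous fun z => fderiv ℝ (fun l => F l z) l v := by
  have h1 : (fun z => fderiv ℝ (fun l => F l z) l v) = fun z => F1 F l z v := by
    funext z
    rw [(F1_has hF l z).fderiv]
  rw [h1]
  exact ((F1_cont hF).comp (by fun_prop : Continuous fun z : ℂ => (l, z))).clm_apply
    continuous_const

lemma dz_param {F : ℂ → ℂ → ℂ} (hF : ContDiff ℝ ∞ (Function.uncurry F)) {K : Set ℂ}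
    (hK : IsCompact K) (l : ℂ) :
    dz (fun l => ∫ z in K, F l z) l = ∫ z in K, dz (fun l => F l z) l := by
  unfold dz
  have i1 : IntegrableOn (fun z => fderiv ℝ (fun l => F l z) l 1) K :=
    (fderiv_cont hF l 1).continuousOn.integrableOn_compact hK
  have i2 : IntegrableOn (fun z => I * fderiv ℝ (fun l => F l z) l I) K :=
    (continuous_const.mul (fderiv_cont hF l I)).continuousOn.integrableOn_compact hK
  rw [fderiv_param hF hK, fderiv_param hF hK, integral_const_mul, integral_sub i1 i2,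
    integral_const_mul]

lemma dzb_param {F : ℂ → ℂ → ℂ} (hF : ContDiff ℝ ∞ (Function.uncurry F)) {K : Set ℂ}
    (hK : IsCompact K) (l : ℂ) :
    dzb (fun l => ∫ z in K, F l z) l = ∫ z in K, dzb (fun l => F l z) l := by
  unfold dzb
  have i1 : IntegrableOn (fun z => fderiv ℝ (fun l => F l z) l 1) K :=
    (fderiv_cont hF l 1).continuousOn.integrableOn_compact hK
  have i2 : IntegrableOn (fun z => I * fderiv ℝ (fun l => F l z) l I) K :=
    (continuous_const.mul (fderiv_cont hF l I)).continuousOn.integrableOn_compact hK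
  rw [fderiv_param hF hK, fderiv_param hF hK, integral_const_mul, integral_add i1 i2,
    integral_const_mul]

/-! ### Derivatives of products of displaced functions -/

lemma fderiv_affine {G : ℂ → ℂ} (hG : ContDiff ℝ ∞ G) (z c l v : ℂ) :
    fderiv ℝ (fun l => G (z + c * l)) l v = fderiv ℝ G (z + c * l) (c * v) := by
  have h1 : HasFDerivAt (fun l : ℂ => z + c * l)
      (c • (ContinuousLinearMap.id ℝ ℂ)) l := ((hasFDerivAt_id l).const_mul c).const_add z
  have h2 : HasFDerivAt (fun l => G (z + c * l))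
      ((fderiv ℝ G (z + c * l)).comp (c • (ContinuousLinearMap.id ℝ ℂ))) l :=
    HasFDerivAt.comp l (cd_at hG _).hasFDerivAt h1
  rw [h2.fderiv]
  simp

lemma lin_mul (L : ℂ →L[ℝ] ℂ) (c : ℂ) :
    L (c * 1) - I * L (c * I) = c * (L 1 - I * L I) ∧
      L (c * 1) + I * L (c * I) = (starRingEnd ℂ) c * (L 1 + I * L I) := by
  have h1 : c * 1 = c.re • (1 : ℂ) + c.im • I := by
    apply Complex.ext <;> simp
  have h2 : c * I = c.re • I - c.im • (1 : ℂ) := by
    apply Complex.ext <;> simp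
  have h3 : L (c * 1) = c.re * L 1 + c.im * L I := by
    rw [h1, map_add, map_smul, map_smul]
    simp
  have h4 : L (c * I) = c.re * L I - c.im * L 1 := by
    rw [h2, map_sub, map_smul, map_smul]
    simp
  have h5 : c = c.re + c.im * I := (re_add_im c).symm
  have h6 : (starRingEnd ℂ) c = c.re - c.im * I := by
    apply Complex.ext <;> simp
  rw [h3, h4, h6]
  constructor
  · nth_rw 5 [h5]
    linear_combination ((c.im : ℂ) * L I) * I_mul_I
  · linear_combination ((c.im : ℂ) * L I) * I_mul_I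

lemma dz_affine {G : ℂ → ℂ} (hG : ContDiff ℝ ∞ G) (z c l : ℂ) :
    dz (fun l => G (z + c * l)) l = c * dz G (z + c * l) := by
  unfold dz
  rw [fderiv_affine hG, fderiv_affine hG, (lin_mul _ c).1]
  ring

lemma dzb_affine {G : ℂ → ℂ} (hG : ContDiff ℝ ∞ G) (z c l : ℂ) :
    dzb (fun l => G (z + c * l)) l = (starRingEnd ℂ) c * dzb G (z + c * l) := by
  unfold dzb
  rw [fderiv_affine hG, fderiv_affine hG, (lin_mul _ c).2]
  ring

lemma fderiv_prod {r : ℕ} {f : Fin r → ℂ → ℂ} {l : ℂ} (hf : ∀ i, DifferentiableAt ℝ (f i) l)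
    (v : ℂ) : fderiv ℝ (fun l => ∏ i, f i l) l v =
      ∑ i, fderiv ℝ (f i) l v * ∏ k ∈ Finset.univ.erase i, f k l := by
  have h1 := (HasFDerivAt.finsetProd (u := Finset.univ) fun i _ => (hf i).hasFDerivAt)
  rw [show (fun l => ∏ i, f i l) = (∏ i, f i ·) from rfl, h1.fderiv, _root_.sum_apply]
  refine Finset.sum_congr rfl fun i _ => ?_
  rw [smul_apply, smul_eq_mul, mul_comm]

lemma diff_prod {r : ℕ} {f : Fin r → ℂ → ℂ} {l : ℂ} (hf : ∀ i, DifferentiableAt ℝ (f i) l) :
    DifferentiableAt ℝ (fun l => ∏ i, f i l) l :=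
  (HasFDerivAt.finsetProd (u := Finset.univ) fun i _ => (hf i).hasFDerivAt).differentiableAt

lemma dz_prod {r : ℕ} {f : Fin r → ℂ → ℂ} {l : ℂ} (hf : ∀ i, DifferentiableAt ℝ (f i) l) :
    dz (fun l => ∏ i, f i l) l = ∑ i, dz (f i) l * ∏ k ∈ Finset.univ.erase i, f k l := by
  unfold dz
  rw [fderiv_prod hf, fderiv_prod hf, Finset.mul_sum, ← Finset.sum_sub_distrib, Finset.mul_sum]
  exact Finset.sum_congr rfl fun i _ => by ring

lemma dzb_prod {r : ℕ} {f : Fin r → ℂ → ℂ} {l : ℂ} (hf : ∀ i, DifferentiableAt ℝ (f i) l) :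
    dzb (fun l => ∏ i, f i l) l = ∑ i, dzb (f i) l * ∏ k ∈ Finset.univ.erase i, f k l := by
  unfold dzb
  rw [fderiv_prod hf, fderiv_prod hf, Finset.mul_sum, ← Finset.sum_add_distrib, Finset.mul_sum]
  exact Finset.sum_congr rfl fun i _ => by ring

/-- the displaced points -/
def wp (σ : ℂ → ℝ) (h : ℕ → ℝ) {r : ℕ} (x : Fin r → ℂ) (n : ℕ) (l z : ℂ) (i : Fin r) : ℂ :=
  z + ((h n * Real.exp (-σ z) : ℝ) : ℂ) * (l * x i)

lemma wp_cont (hσ : ContDiff ℝ ∞ σ) {r : ℕ} (x : Fin r → ℂ) (n : ℕ) (l : ℂ) (i : Fin r) :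
    Continuous fun z => wp σ h x n l z i := by
  unfold wp
  have h1 := hσ.continuous
  fun_prop

lemma diff_disp {G : ℂ → ℂ} (hG : ContDiff ℝ ∞ G) (z c x l : ℂ) :
    DifferentiableAt ℝ (fun l => G (z + c * (l * x))) l := by
  have h1 : DifferentiableAt ℝ (fun l : ℂ => z + c * (l * x)) l := by fun_prop
  exact (cd_at hG (z + c * (l * x))).comp l h1

lemma dz_disp {G : ℂ → ℂ} (hG : ContDiff ℝ ∞ G) (z c x l : ℂ) :
    dz (fun l => G (z + c * (l * x))) l = c * x * dz G (z + c * (l * x)) := by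
  have h1 := dz_affine hG z (c * x) l
  rw [show z + c * (l * x) = z + c * x * l by ring, ← h1]
  congr 1
  funext l
  rw [show z + c * (l * x) = z + c * x * l by ring]

lemma dzb_disp {G : ℂ → ℂ} (hG : ContDiff ℝ ∞ G) (z c x l : ℂ) :
    dzb (fun l => G (z + c * (l * x))) l =
      (starRingEnd ℂ) (c * x) * dzb G (z + c * (l * x)) := by
  have h1 := dzb_affine hG z (c * x) l
  rw [show z + c * (l * x) = z + c * x * l by ring, ← h1]
  congr 1
  funext l
  rw [show z + c * (l * x) = z + c * x * l by ring]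

lemma dz_point {r : ℕ} (x : Fin r → ℂ) (n : ℕ) (l z a : ℂ) {G : Fin r → ℂ → ℂ}
    (hG : ∀ i, ContDiff ℝ ∞ (G i)) :
    2 * dz (fun l => a * ∏ i, G i (wp σ h x n l z i)) l =
      a * ∑ i, x i * (((h n * Real.exp (-σ z) : ℝ) : ℂ) * (2 * dz (G i) (wp σ h x n l z i))) *
        ∏ k ∈ Finset.univ.erase i, G k (wp σ h x n l z k) := by
  have hd : ∀ i, DifferentiableAt ℝ (fun l => G i (wp σ h x n l z i)) l := fun i =>
    diff_disp (hG i) z _ (x i) l
  have hp : DifferentiableAt ℝ (fun l => ∏ i, G i (wp σ h x n l z i)) l :=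
    diff_prod hd
  rw [dz_const_mul a hp, dz_prod hd, Finset.mul_sum, Finset.mul_sum, Finset.mul_sum]
  refine Finset.sum_congr rfl fun i _ => ?_
  have h1 : dz (fun l => G i (wp σ h x n l z i)) l = ((h n * Real.exp (-σ z) : ℝ) : ℂ) * x i *
      dz (G i) (wp σ h x n l z i) := dz_disp (hG i) z _ (x i) l
  rw [h1]
  ring

lemma dzb_point {r : ℕ} (x : Fin r → ℂ) (n : ℕ) (l z a : ℂ) {G : Fin r → ℂ → ℂ}
    (hG : ∀ i, ContDiff ℝ ∞ (G i)) :
    2 * dzb (fun l => a * ∏ i, G i (wp σ h x n l z i)) l =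
      a * ∑ i, (starRingEnd ℂ) (x i) * (((h n * Real.exp (-σ z) : ℝ) : ℂ) *
        (2 * dzb (G i) (wp σ h x n l z i))) *
        ∏ k ∈ Finset.univ.erase i, G k (wp σ h x n l z k) := by
  have hd : ∀ i, DifferentiableAt ℝ (fun l => G i (wp σ h x n l z i)) l := fun i =>
    diff_disp (hG i) z _ (x i) l
  have hp : DifferentiableAt ℝ (fun l => ∏ i, G i (wp σ h x n l z i)) l :=
    diff_prod hd
  rw [dzb_const_mul a hp, dzb_prod hd, Finset.mul_sum, Finset.mul_sum, Finset.mul_sum]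
  refine Finset.sum_congr rfl fun i _ => ?_
  have h1 : dzb (fun l => G i (wp σ h x n l z i)) l =
      (starRingEnd ℂ) (((h n * Real.exp (-σ z) : ℝ) : ℂ) * x i) *
      dzb (G i) (wp σ h x n l z i) := dzb_disp (hG i) z _ (x i) l
  rw [h1, map_mul, conj_ofReal]
  ring

/-! ### The estimate of the error -/

lemma bq_family {ι : Type} [Fintype ι] {u : ι → ℕ → ℂ → ℂ} (hu : ∀ i, Bq V h φ 1 (u i))
    {K : Set ℂ} (hK : IsCompact K) (hKV : K ⊆ V) : ∃ (N : ℕ) (C : ℝ), 1 ≤ C ∧
      ∀ᶠ n in atTop, ∀ i, ∀ z ∈ K, ‖u i n z‖ ^ 2 ≤ C * RR h φ N n z := by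
  choose N C hC0 hC using fun i => (hu i).pos hK hKV
  refine ⟨Finset.univ.sup N, 1 + ∑ i, C i, ?_, ?_⟩
  · have : 0 ≤ ∑ i, C i := Finset.sum_nonneg fun i _ => (hC0 i).le
    linarith
  · rw [Filter.eventually_all]
    intro i
    filter_upwards [hC i (Finset.univ.sup N) (Finset.le_sup (Finset.mem_univ i))] with n hn z hz
    have h1 := hn z hz
    rw [pow_one] at h1
    have h2 : C i ≤ 1 + ∑ i, C i := by
      have := Finset.single_le_sum (f := C) (fun i _ => (hC0 i).le) (Finset.mem_univ i)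
      linarith
    refine h1.trans ?_
    exact mul_le_mul_of_nonneg_right h2 (RR_pos h φ _ n z).le

lemma expo (z : ℂ) (n : ℕ) :
    ((h n * Real.exp (-σ z) : ℝ) : ℂ) = (h n : ℂ) * ex σ (-1) z := by
  unfold ex
  push_cast
  simp

lemma err (hD : StmtDspB) (L : LocB V σ h φ) {ζ : ℂ → ℂ} (hζ : Test V ζ) {r : ℕ} (hr : r ≤ 4)
    (x c : Fin r → ℂ) {Ef Gf Tf Bf : Fin r → ℕ → ℂ → ℂ} (hE : ∀ i, Dom V h φ 1 (Ef i))
    (hT : ∀ i, Dom V h φ 1 (Tf i)) (hB : ∀ i, Dom V h φ 1 (Bf i))
    (heq : ∀ i n, ∀ w ∈ V, (h n : ℂ) * (ex σ (-1) w * Gf i n w) = Tf i n w + (h n : ℂ) * Bf i n w)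
    {ε : ℝ} (hε : 0 < ε) : ∀ᶠ n in atTop, ∀ l : ℂ, ‖l‖ ≤ 1 →
      ‖∫ z in tsupport ζ, ζ z * ∑ i, c i * (((h n * Real.exp (-σ z) : ℝ) : ℂ) *
        Gf i n (wp σ h x n l z i) - Tf i n (wp σ h x n l z i)) *
        ∏ k ∈ Finset.univ.erase i, Ef k n (wp σ h x n l z k)‖ ≤ ε := by
  have hσ := L.sm
  set K := tsupport ζ with hKdef
  have hK : IsCompact K := hζ.supp
  have hKV : K ⊆ V := hζ.sub
  obtain ⟨δ, hδ, hδV⟩ := hK.exists_cthickening_subset_open L.op hKV
  set K' := Metric.cthickening δ K with hK'def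
  have hK' : IsCompact K' := hK.cthickening
  have hexp : ContDiff ℝ ∞ fun w => Real.exp (σ w) := Real.contDiff_exp.comp hσ
  obtain ⟨R₁, hR₁⟩ := hK.exists_bound_of_continuousOn
    (f := fun z => Real.exp (-σ z)) (by have := hσ.continuous; fun_prop)
  obtain ⟨M₁, hM₁⟩ := hK'.exists_bound_of_continuousOn
    (f := fderiv ℝ fun w => Real.exp (σ w)) (hexp.continuous_fderiv (by simp)).continuousOn
  obtain ⟨Z₁, hZ₁⟩ := hK.exists_bound_of_continuousOn (f := ζ) hζ.smooth.continuous.continuousOn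
  set R₀ := max R₁ 0 with hR₀
  set M := max M₁ 0 with hM
  set Z := max Z₁ 0 with hZ
  have hR₀0 : 0 ≤ R₀ := le_max_right _ _
  have hM0 : 0 ≤ M := le_max_right _ _
  have hZ0 : 0 ≤ Z := le_max_right _ _
  set X := ∑ i, ‖x i‖ with hX
  have hX0 : 0 ≤ X := Finset.sum_nonneg fun i _ => norm_nonneg _
  have hXi : ∀ i, ‖x i‖ ≤ X := fun i =>
    Finset.single_le_sum (f := fun i => ‖x i‖) (fun i _ => norm_nonneg _) (Finset.mem_univ i)
  set R := R₀ * X with hR
  have hR0 : 0 ≤ R := mul_nonneg hR₀0 hX0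
  set Y := ∑ i, ‖c i‖ with hY
  have hY0 : 0 ≤ Y := Finset.sum_nonneg fun i _ => norm_nonneg _
  -- the family of dominated functions
  set u : Fin 3 × Fin r → ℕ → ℂ → ℂ := fun p =>
    ![Ef p.2, fun n w => Tf p.2 n w + (h n : ℂ) * Bf p.2 n w, Bf p.2] p.1 with hu
  have hub : ∀ p, Bq V h φ 1 (u p) := by
    rintro ⟨k, i⟩
    fin_cases k
    · exact (hE i).bq
    · exact ((hT i).add L.op ((hB i).hmul L.op L.hlim)).bq
    · exact (hB i).bq
  obtain ⟨N, C, hC1, hC⟩ := bq_family hub hK' hδV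
  obtain ⟨S, hS1, hSc, hSev, hSlim⟩ := hD V σ h φ L K hK hKV N R
  set b := Real.sqrt C with hb
  have hb1 : 1 ≤ b := Real.one_le_sqrt.mpr hC1
  set Q := Z * (Y * ((M * R * R₀ + 1) * b * b ^ 3)) with hQ
  have hQ0 : 0 ≤ Q := by positivity
  have hlim : ∀ᶠ n in atTop, Q * (h n * ∫ z in K, S n z ^ 2) ≤ ε := by
    have h1 := (hSlim.const_mul Q).eventually (gt_mem_nhds (by rw [mul_zero]; exact hε))
    filter_upwards [h1] with n hn
    exact hn.le
  have hsmall : ∀ᶠ n in atTop, h n * R ≤ δ := by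
    have h1 : Tendsto (fun n => h n * R) atTop (𝓝 0) := by simpa using L.hlim.mul_const R
    filter_upwards [h1.eventually (gt_mem_nhds hδ)] with n hn
    exact hn.le
  filter_upwards [hC, hSev, hlim, hsmall] with n hCn hSn hln hsn l hl
  have hh := L.hpos n
  -- the pointwise bound
  have hpt : ∀ z ∈ K, ‖ζ z * ∑ i, c i * (((h n * Real.exp (-σ z) : ℝ) : ℂ) *
        Gf i n (wp σ h x n l z i) - Tf i n (wp σ h x n l z i)) *
        ∏ k ∈ Finset.univ.erase i, Ef k n (wp σ h x n l z k)‖ ≤ Q * (h n * S n z ^ 2) := by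
    intro z hz
    set t := Real.sqrt (S n z) with ht
    have hS0 : 0 ≤ S n z := by linarith [hS1 n z]
    have ht1 : 1 ≤ t := Real.one_le_sqrt.mpr (hS1 n z)
    have ht2 : t ^ 2 = S n z := Real.sq_sqrt hS0
    have hbt : 1 ≤ b * t := by nlinarith
    have hRz : Real.exp (-σ z) ≤ R₀ := by
      have h1 := hR₁ z hz
      rw [Real.norm_of_nonneg (Real.exp_pos _).le] at h1
      exact h1.trans (le_max_left _ _)
    -- displaced points
    have hy : ∀ i, ‖ex σ (-1) z * (l * x i)‖ ≤ R := by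
      intro i
      rw [norm_mul, norm_mul, norm_ex]
      have h1 : Real.exp (((-1 : ℤ) : ℝ) * σ z) ≤ R₀ := by
        rw [show ((-1 : ℤ) : ℝ) * σ z = -σ z by push_cast; ring]
        exact hRz
      calc Real.exp (((-1 : ℤ) : ℝ) * σ z) * (‖l‖ * ‖x i‖) ≤ R₀ * (1 * X) := by
            gcongr
            exact hXi i
        _ = R := by rw [one_mul]
    have hw : ∀ i, wp σ h x n l z i = z + (h n : ℂ) * (ex σ (-1) z * (l * x i)) := by
      intro i
      unfold wp
      rw [expo, mul_assoc]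
    have hdist : ∀ i, ‖wp σ h x n l z i - z‖ ≤ h n * R := by
      intro i
      rw [hw, add_sub_cancel_left, norm_mul, Complex.norm_real, Real.norm_of_nonneg hh.le]
      exact mul_le_mul_of_nonneg_left (hy i) hh.le
    have hwK' : ∀ i, wp σ h x n l z i ∈ K' := fun i =>
      Metric.mem_cthickening_of_dist_le _ z δ K hz (by
        rw [dist_eq_norm]
        exact (hdist i).trans hsn)
    have hwV : ∀ i, wp σ h x n l z i ∈ V := fun i => hδV (hwK' i)
    have hwS : ∀ i, RR h φ N n (wp σ h x n l z i) ≤ S n z := by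
      intro i
      rw [hw]
      exact (hSn z hz _ (hy i)).2
    have hub' : ∀ p : Fin 3 × Fin r, ∀ i, ‖u p n (wp σ h x n l z i)‖ ≤ b * t := by
      intro p i
      have h1 := hCn p _ (hwK' i)
      have h2 : ‖u p n (wp σ h x n l z i)‖ ^ 2 ≤ C * S n z :=
        h1.trans (mul_le_mul_of_nonneg_left (hwS i) (by linarith))
      rw [hb, ht, ← Real.sqrt_mul (by linarith)]
      exact Real.le_sqrt_of_sq_le h2
    have hEb : ∀ i k, ‖Ef k n (wp σ h x n l z i)‖ ≤ b * t := fun i k => hub' (0, k) i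
    have hGb : ∀ i, ‖Tf i n (wp σ h x n l z i) + (h n : ℂ) * Bf i n (wp σ h x n l z i)‖ ≤ b * t :=
      fun i => hub' (1, i) i
    have hBb : ∀ i, ‖Bf i n (wp σ h x n l z i)‖ ≤ b * t := fun i => hub' (2, i) i
    -- the factor
    have hq : ∀ i, ‖ex σ 1 (wp σ h x n l z i) * ex σ (-1) z - 1‖ ≤ M * (h n * R) * R₀ := by
      intro i
      set w := wp σ h x n l z i with hwi
      have h1 : ex σ 1 w * ex σ (-1) z - 1 = (ex σ 1 w - ex σ 1 z) * ex σ (-1) z := by
        rw [sub_mul, ex_mul σ 1 (-1) z, show (1 : ℤ) + -1 = 0 by norm_num, ex_zero]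
      have h2 : ex σ 1 w - ex σ 1 z = ((Real.exp (σ w) - Real.exp (σ z) : ℝ) : ℂ) := by
        unfold ex
        push_cast
        simp
      have h3 : |Real.exp (σ w) - Real.exp (σ z)| ≤ M * ‖w - z‖ := by
        have h4 := (convex_closedBall z δ).norm_image_sub_le_of_norm_fderiv_le
          (f := fun w => Real.exp (σ w)) (𝕜 := ℝ) (C := M)
          (fun v _ => (hexp.differentiable (by simp)) v)
          (fun v hv => (hM₁ v (Metric.mem_cthickening_of_dist_le v z δ K hz
            (Metric.mem_closedBall.mp hv))).trans (le_max_left _ _))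
          (Metric.mem_closedBall_self hδ.le) (y := w) (by
            rw [mem_closedBall_iff_norm]
            exact (hdist i).trans hsn)
        exact h4
      rw [h1, h2, norm_mul, Complex.norm_real, Real.norm_eq_abs, norm_ex,
        show ((-1 : ℤ) : ℝ) * σ z = -σ z by push_cast; ring]
      have h5 := hdist i
      calc |Real.exp (σ w) - Real.exp (σ z)| * Real.exp (-σ z)
          ≤ (M * ‖w - z‖) * R₀ := by gcongr
        _ ≤ M * (h n * R) * R₀ := by gcongr
    have he : ∀ i, ‖((h n * Real.exp (-σ z) : ℝ) : ℂ) * Gf i n (wp σ h x n l z i)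
        - Tf i n (wp σ h x n l z i)‖ ≤ h n * ((M * R * R₀ + 1) * (b * t)) := by
      intro i
      set w := wp σ h x n l z i with hwi
      have h1 := heq i n w (hwV i)
      have h2 : ex σ 1 w * ex σ (-1) w = 1 := by
        rw [ex_mul, show (1 : ℤ) + -1 = 0 by norm_num, ex_zero]
      have h3 : ((h n * Real.exp (-σ z) : ℝ) : ℂ) * Gf i n w - Tf i n w =
          (ex σ 1 w * ex σ (-1) z - 1) * (Tf i n w + (h n : ℂ) * Bf i n w)
            + (h n : ℂ) * Bf i n w := by
        rw [expo, ← h1]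
        linear_combination (-((h n : ℂ) * Gf i n w * ex σ (-1) z)) * h2 + h1
      rw [h3]
      refine (norm_add_le _ _).trans ?_
      rw [norm_mul, norm_mul, Complex.norm_real, Real.norm_of_nonneg hh.le]
      have h4 := hq i
      have h5 := hGb i
      have h6 := hBb i
      calc ‖ex σ 1 w * ex σ (-1) z - 1‖ * ‖Tf i n w + (h n : ℂ) * Bf i n w‖ + h n * ‖Bf i n w‖
          ≤ (M * (h n * R) * R₀) * (b * t) + h n * (b * t) := by gcongr
        _ = h n * ((M * R * R₀ + 1) * (b * t)) := by ring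
    have hprod : ∀ i : Fin r, ‖∏ k ∈ Finset.univ.erase i, Ef k n (wp σ h x n l z k)‖ ≤
        (b * t) ^ 3 := by
      intro i
      rw [norm_prod]
      calc ∏ k ∈ Finset.univ.erase i, ‖Ef k n (wp σ h x n l z k)‖
          ≤ ∏ k ∈ Finset.univ.erase i, (b * t) :=
            Finset.prod_le_prod (fun k _ => norm_nonneg _) fun k _ => hEb k k
        _ = (b * t) ^ (r - 1) := by
            rw [Finset.prod_const, Finset.card_erase_of_mem (Finset.mem_univ i), Finset.card_univ,
              Fintype.card_fin]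
        _ ≤ (b * t) ^ 3 := pow_le_pow_right₀ hbt (by omega)
    rw [norm_mul]
    have hsum : ‖∑ i, c i * (((h n * Real.exp (-σ z) : ℝ) : ℂ) *
        Gf i n (wp σ h x n l z i) - Tf i n (wp σ h x n l z i)) *
        ∏ k ∈ Finset.univ.erase i, Ef k n (wp σ h x n l z k)‖ ≤
        ∑ i, ‖c i‖ * (h n * ((M * R * R₀ + 1) * (b * t)) * (b * t) ^ 3) := by
      refine (norm_sum_le _ _).trans (Finset.sum_le_sum fun i _ => ?_)
      rw [norm_mul, norm_mul, mul_assoc]
      have h1 := he i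
      have h2 := hprod i
      gcongr
    rw [← Finset.sum_mul] at hsum
    have hZz : ‖ζ z‖ ≤ Z := (hZ₁ z hz).trans (le_max_left _ _)
    calc ‖ζ z‖ * ‖∑ i, c i * (((h n * Real.exp (-σ z) : ℝ) : ℂ) *
        Gf i n (wp σ h x n l z i) - Tf i n (wp σ h x n l z i)) *
        ∏ k ∈ Finset.univ.erase i, Ef k n (wp σ h x n l z k)‖
        ≤ Z * (Y * (h n * ((M * R * R₀ + 1) * (b * t)) * (b * t) ^ 3)) := by gcongr
      _ = Q * (h n * (t ^ 2) ^ 2) := by rw [hQ]; ring
      _ = Q * (h n * S n z ^ 2) := by rw [ht2]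
  -- integration
  have hint : IntegrableOn (fun z => Q * (h n * S n z ^ 2)) K :=
    ((continuous_const.mul (continuous_const.mul ((hSc n).pow 2))).continuousOn).integrableOn_compact
      hK
  have h1 := norm_integral_le_of_norm_le hint ((ae_restrict_iff' hK.measurableSet).mpr
    (ae_of_all _ hpt))
  refine h1.trans ?_
  rw [integral_const_mul, integral_const_mul]
  exact hln

lemma prod_add {r : ℕ} (f : ℤ → Fin r → ℂ) (j : Fin r → ℤ) (i : Fin r) :
    ∏ k, f ((j + Pi.single i 1 : Fin r → ℤ) k) k = f (j i + 1) i * ∏ k ∈ Finset.univ.erase i, f (j k) k := by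
  rw [← Finset.mul_prod_erase Finset.univ _ (Finset.mem_univ i)]
  congr 1
  · simp
  · refine Finset.prod_congr rfl fun k hk => ?_
    simp [Pi.single_eq_of_ne (Finset.ne_of_mem_erase hk)]

lemma prod_sub {r : ℕ} (f : ℤ → Fin r → ℂ) (j : Fin r → ℤ) (i : Fin r) :
    ∏ k, f ((j - Pi.single i 1 : Fin r → ℤ) k) k = f (j i - 1) i * ∏ k ∈ Finset.univ.erase i, f (j k) k := by
  rw [← Finset.mul_prod_erase Finset.univ _ (Finset.mem_univ i)]
  congr 1
  · simp
  · refine Finset.prod_congr rfl fun k hk => ?_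
    simp [Pi.single_eq_of_ne (Finset.ne_of_mem_erase hk)]

lemma joint {ζ : ℂ → ℂ} (hσ : ContDiff ℝ ∞ σ) (hζ : ContDiff ℝ ∞ ζ) {r : ℕ} (x : Fin r → ℂ)
    (n : ℕ) {G : Fin r → ℂ → ℂ} (hG : ∀ i, ContDiff ℝ ∞ (G i)) :
    ContDiff ℝ ∞ (Function.uncurry fun l z : ℂ => ζ z * ∏ i, G i (wp σ h x n l z i)) := by
  refine (hζ.comp contDiff_snd).mul (contDiff_prod fun i _ => (hG i).comp ?_)
  have h1 : ContDiff ℝ ∞ fun q : ℂ × ℂ => ((h n * Real.exp (-σ q.2) : ℝ) : ℂ) :=
    ofRealCLM.contDiff.comp (contDiff_const.mul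
      (Real.contDiff_exp.comp (hσ.comp contDiff_snd).neg))
  exact contDiff_snd.add (h1.mul (contDiff_fst.mul contDiff_const))

end DER

open DER in
theorem stmtDerB (hDsp : StmtDspB) (hJetA : StmtJetC) : StmtDerB := by
  intro V σ h φ L ζ hζ r x j hr
  have hσ := L.sm
  have hE : ∀ m, Dom V h φ 1 (E σ h φ m) := fun m => (hJetA V σ h φ L m).1
  have hK : IsCompact (tsupport ζ) := hζ.supp
  have hFs : ∀ (j : Fin r → ℤ) (n : ℕ), ContDiff ℝ ∞ (Function.uncurry fun l z : ℂ =>
      ζ z * ∏ i, E σ h φ (j i) n (wp σ h x n l z i)) := fun j n =>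
    joint hσ hζ.smooth x n fun i => (hE (j i)).smooth n
  have hA : ∀ (j : Fin r → ℤ) (n : ℕ), Aj σ h φ ζ x j n = fun l =>
      ∫ z in tsupport ζ, ζ z * ∏ i, E σ h φ (j i) n (wp σ h x n l z i) := by
    intro j n
    funext l
    unfold Aj wp
    refine (setIntegral_eq_integral_of_forall_compl_eq_zero fun z hz => ?_).symm
    rw [image_eq_zero_of_notMem_tsupport hz, zero_mul]
  have hFc : ∀ (j : Fin r → ℤ) (n : ℕ) (l : ℂ), Continuous fun z =>
      ζ z * ∏ i, E σ h φ (j i) n (wp σ h x n l z i) := fun j n l =>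
    (hFs j n).continuous.comp (by fun_prop : Continuous fun z : ℂ => (l, z))
  refine ⟨fun n => ?_, fun ε hε => ?_⟩
  · rw [hA]
    exact contDiff_param (hFs j n) hK
  have hup : ∀ i, ∃ A, Dom V h φ 1 A ∧ ∀ n, ∀ z ∈ V, (h n : ℂ) * D σ (j i) (E σ h φ (j i) n) z =
      E σ h φ (j i + 1) n z + (h n : ℂ) ^ 2 * A n z := fun i => (hJetA V σ h φ L (j i)).2.1
  have hdn : ∀ i, ∃ A, Dom V h φ 1 A ∧ ∀ n, ∀ z ∈ V, (h n : ℂ) * Db σ (j i) (E σ h φ (j i) n) z =
      - E σ h φ (j i - 1) n z + (h n : ℂ) ^ 2 * A n z := fun i => (hJetA V σ h φ L (j i)).2.2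
  choose Ap hAp hp using hup
  choose Am hAm hm using hdn
  have hs := contDiff_sig hσ
  have e1 := err hDsp L hζ hr x x (Ef := fun i => E σ h φ (j i))
    (Gf := fun i n w => 2 * dz (E σ h φ (j i) n) w) (Tf := fun i => E σ h φ (j i + 1))
    (Bf := fun i n w => (h n : ℂ) * Ap i n w +
      (2 * (j i : ℂ) * (ex σ (-1) w * dz (fun w => (σ w : ℂ)) w)) * E σ h φ (j i) n w)
    (fun i => hE _) (fun i => hE _)
    (fun i => ((hAp i).hmul L.op L.hlim).add L.op ((hE (j i)).fn_mul L.op L.hlim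
      (contDiff_const.mul ((contDiff_ex hσ (-1)).mul (contDiff_dz hs)))))
    (fun i n w hw => by
      have h1 := hp i n w hw
      rw [D_eq hσ (j i) (cd_at ((hE (j i)).smooth n) w)] at h1
      linear_combination h1) hε
  have e2 := err hDsp L hζ hr x (fun i => (starRingEnd ℂ) (x i)) (Ef := fun i => E σ h φ (j i))
    (Gf := fun i n w => 2 * dzb (E σ h φ (j i) n) w)
    (Tf := fun i n w => - E σ h φ (j i - 1) n w)
    (Bf := fun i n w => (h n : ℂ) * Am i n w +
      (-2 * (j i : ℂ) * (ex σ (-1) w * dzb (fun w => (σ w : ℂ)) w)) * E σ h φ (j i) n w)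
    (fun i => hE _) (fun i => (hE _).neg L.op)
    (fun i => ((hAm i).hmul L.op L.hlim).add L.op ((hE (j i)).fn_mul L.op L.hlim
      (contDiff_const.mul ((contDiff_ex hσ (-1)).mul (contDiff_dzb hs)))))
    (fun i n w hw => by
      have h1 := hm i n w hw
      rw [Db_eq hσ (j i) (cd_at ((hE (j i)).smooth n) w)] at h1
      linear_combination h1) hε
  filter_upwards [e1, e2] with n h1 h2 l hl
  have hGs : ∀ i, ContDiff ℝ ∞ (E σ h φ (j i) n) := fun i => (hE (j i)).smooth n
  have hi : ∀ (j : Fin r → ℤ) (c : ℂ), IntegrableOn (fun z => c *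
      (ζ z * ∏ i, E σ h φ (j i) n (wp σ h x n l z i))) (tsupport ζ) := fun j c =>
    (continuous_const.mul (hFc j n l)).continuousOn.integrableOn_compact hK
  refine ⟨?_, ?_⟩
  · have hd : IntegrableOn (fun z => 2 * dz (fun l => ζ z *
        ∏ i, E σ h φ (j i) n (wp σ h x n l z i)) l) (tsupport ζ) := by
      refine Continuous.continuousOn ?_ |>.integrableOn_compact hK
      unfold dz
      exact continuous_const.mul (continuous_const.mul ((fderiv_cont (hFs j n) l 1).sub
        (continuous_const.mul (fderiv_cont (hFs j n) l I))))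
    have h3 : 2 * dz (Aj σ h φ ζ x j n) l - ∑ i, x i * Aj σ h φ ζ x (j + Pi.single i 1) n l =
        ∫ z in tsupport ζ, ζ z * ∑ i, x i * (((h n * Real.exp (-σ z) : ℝ) : ℂ) *
          (2 * dz (E σ h φ (j i) n) (wp σ h x n l z i)) -
            E σ h φ (j i + 1) n (wp σ h x n l z i)) *
          ∏ k ∈ Finset.univ.erase i, E σ h φ (j k) n (wp σ h x n l z k) := by
      rw [hA j n, dz_param (hFs j n) hK, ← integral_const_mul]
      simp only [hA]
      simp_rw [← integral_const_mul]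
      rw [← integral_finsetSum _ fun i _ => hi _ _, ← integral_sub hd
        (integrable_finsetSum _ fun i _ => hi _ _)]
      refine integral_congr_ae (ae_of_all _ fun z => ?_)
      simp only []
      rw [dz_point x n l z (ζ z) hGs, Finset.mul_sum, Finset.mul_sum, ← Finset.sum_sub_distrib]
      refine Finset.sum_congr rfl fun i _ => ?_
      rw [prod_add (fun m k => E σ h φ m n (wp σ h x n l z k)) j i]
      ring
    rw [h3]
    exact h1 l hl
  · have hd : IntegrableOn (fun z => 2 * dzb (fun l => ζ z *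
        ∏ i, E σ h φ (j i) n (wp σ h x n l z i)) l) (tsupport ζ) := by
      refine Continuous.continuousOn ?_ |>.integrableOn_compact hK
      unfold dzb
      exact continuous_const.mul (continuous_const.mul ((fderiv_cont (hFs j n) l 1).add
        (continuous_const.mul (fderiv_cont (hFs j n) l I))))
    have h3 : 2 * dzb (Aj σ h φ ζ x j n) l +
        ∑ i, (starRingEnd ℂ) (x i) * Aj σ h φ ζ x (j - Pi.single i 1) n l =
        ∫ z in tsupport ζ, ζ z * ∑ i, (starRingEnd ℂ) (x i) *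
          (((h n * Real.exp (-σ z) : ℝ) : ℂ) *
          (2 * dzb (E σ h φ (j i) n) (wp σ h x n l z i)) -
            (- E σ h φ (j i - 1) n (wp σ h x n l z i))) *
          ∏ k ∈ Finset.univ.erase i, E σ h φ (j k) n (wp σ h x n l z k) := by
      rw [hA j n, dzb_param (hFs j n) hK, ← integral_const_mul]
      simp only [hA]
      simp_rw [← integral_const_mul]
      rw [← integral_finsetSum _ fun i _ => hi _ _, ← integral_add hd
        (integrable_finsetSum _ fun i _ => hi _ _)]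
      refine integral_congr_ae (ae_of_all _ fun z => ?_)
      simp only []
      rw [dzb_point x n l z (ζ z) hGs, Finset.mul_sum, Finset.mul_sum, ← Finset.sum_add_distrib]
      refine Finset.sum_congr rfl fun i _ => ?_
      rw [prod_sub (fun m k => E σ h φ m n (wp σ h x n l z k)) j i]
      ring
    rw [h3]
    exact h2 l hl

end

end U3
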