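import Pool.Agent.U3.StmtsT
import Pool.Agent.QJ.DSP

/-!
Module DSPB: the jets at displaced points are dominated.
-/

open MeasureTheory Filter Topology Set Metric
open scoped ContDiff

namespace U3

open QE QJ

noncomputable section

namespace DSPB

/-- Cauchy-Schwarz on a ball. -/
lemma ball_sq {f : ℂ → ℝ} (hf : Continuous f) (z : ℂ) {ρ : ℝ} (hρ : 0 < ρ) :
    (∫ w in closedBall z ρ, f w) ^ 2 ≤ Real.pi * ρ ^ 2 * ∫ w in closedBall z ρ, f w ^ 2 := by
  have hB : IsCompact (closedBall z ρ) := isCompact_closedBall _ _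
  have i1 : IntegrableOn f (closedBall z ρ) := hf.continuousOn.integrableOn_compact hB
  have i2 : IntegrableOn (fun w => f w ^ 2) (closedBall z ρ) :=
    (hf.pow 2).continuousOn.integrableOn_compact hB
  have hv : 0 < Real.pi * ρ ^ 2 := by positivity
  set v := Real.pi * ρ ^ 2 with hvdef
  set I := ∫ w in closedBall z ρ, f w with hI
  have h0 : 0 ≤ ∫ w in closedBall z ρ, (f w - I / v) ^ 2 := integral_nonneg fun w => sq_nonneg _
  have h1 : ∫ w in closedBall z ρ, (f w - I / v) ^ 2 =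
      (∫ w in closedBall z ρ, f w ^ 2) - 2 * (I / v) * I + (I / v) ^ 2 * v := by
    have e1 : (fun w => (f w - I / v) ^ 2) =
        fun w => (f w ^ 2 - 2 * (I / v) * f w) + (I / v) ^ 2 := by
      funext w
      ring
    have i3 : IntegrableOn (fun _ : ℂ => (I / v) ^ 2) (closedBall z ρ) :=
      integrableOn_const hB.measure_lt_top.ne
    have i4 : IntegrableOn (fun w => 2 * (I / v) * f w) (closedBall z ρ) := i1.const_mul _
    have i5 : IntegrableOn (fun w => f w ^ 2 - 2 * (I / v) * f w) (closedBall z ρ) := i2.sub i4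
    rw [e1, integral_add i5 i3, integral_sub i2 i4, integral_const_mul, setIntegral_const,
      smul_eq_mul, Measure.real, DSP.vol_ball z hρ.le]
    ring
  rw [h1] at h0
  have h2 : (∫ w in closedBall z ρ, f w ^ 2) - 2 * (I / v) * I + (I / v) ^ 2 * v =
      (∫ w in closedBall z ρ, f w ^ 2) - I ^ 2 / v := by
    field_simp
    ring
  rw [h2] at h0
  have h3 : I ^ 2 / v ≤ ∫ w in closedBall z ρ, f w ^ 2 := by linarith
  rw [div_le_iff₀ hv] at h3
  linarith

end DSPB

open DSPB

/-- DSPB: the jets at displaced points are dominated -/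
theorem stmtDspB (hPtwB : StmtPtwB) (hGroA : StmtGroA) (hSml : StmtSml) : StmtDspB := by
  intro V σ h φ hL K hK hKV N R
  have _ := hGroA
  have hSm := hSml V σ h φ hL
  obtain ⟨δ, hδ, hδV⟩ := hK.exists_cthickening_subset_open hL.op hKV
  have hK' : IsCompact (cthickening δ K) := hK.cthickening
  obtain ⟨c, C, hc, hC⟩ := hPtwB V σ h φ hL (cthickening δ K) hK' hδV N
  have hR0 : 0 ≤ max R 0 := le_max_right _ _
  have hr : 0 < c + max R 0 := by linarith
  have hC1 : (1 : ℝ) ≤ max C 1 := le_max_right _ _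
  have hC0 : (0 : ℝ) < max C 1 := by linarith
  have hfc : ∀ n, Continuous fun w => ‖φ n w‖ ^ 2 := fun n => (hL.smφ n).continuous.norm.pow 2
  have hf0 : ∀ n w, 0 ≤ ‖φ n w‖ ^ 2 := fun n w => by positivity
  have hh0 : ∀ r : ℝ, ∀ ε > 0, ∀ᶠ n in atTop, r * h n ≤ ε := by
    intro r ε hε
    have h1 : Tendsto (fun n => r * h n) atTop (𝓝 (r * 0)) := hL.hlim.const_mul r
    rw [mul_zero] at h1
    filter_upwards [h1.eventually (gt_mem_nhds hε)] with n hn
    exact hn.le
  have hI0 : ∀ n z, 0 ≤ 1 / h n ^ 2 * ∫ w in closedBall z ((c + max R 0) * h n), ‖φ n w‖ ^ 2 :=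
    fun n z => mul_nonneg (by positivity) (integral_nonneg fun w => hf0 n w)
  refine ⟨fun n z => max C 1 * (1 + 1 / h n ^ 2 *
    ∫ w in closedBall z ((c + max R 0) * h n), ‖φ n w‖ ^ 2), ?_, ?_, ?_, ?_⟩
  · intro n z
    have := hI0 n z
    nlinarith
  · intro n
    exact continuous_const.mul (continuous_const.add
      (continuous_const.mul (DSP.continuous_ball (hfc n) _)))
  · filter_upwards [hC, hh0 (max R 0) δ hδ] with n hn hn2 z hz y hy
    have hhn := hL.hpos n
    have hd : dist (z + h n * y) z ≤ max R 0 * h n := by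
      rw [dist_eq_norm, add_sub_cancel_left, norm_mul, Complex.norm_real, Real.norm_of_nonneg hhn.le,
        mul_comm]
      exact mul_le_mul_of_nonneg_right (hy.trans (le_max_left _ _)) hhn.le
    have hm : z + h n * y ∈ cthickening δ K :=
      mem_cthickening_of_dist_le _ z δ K hz (hd.trans hn2)
    refine ⟨hδV hm, (hn _ hm).trans ?_⟩
    have hs : closedBall (z + h n * y) (c * h n) ⊆ closedBall z ((c + max R 0) * h n) := by
      refine closedBall_subset_closedBall' ?_
      rw [add_mul]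
      linarith
    have h1 : ∫ w in closedBall (z + h n * y) (c * h n), ‖φ n w‖ ^ 2
        ≤ ∫ w in closedBall z ((c + max R 0) * h n), ‖φ n w‖ ^ 2 :=
      setIntegral_mono_set ((hfc n).continuousOn.integrableOn_compact (isCompact_closedBall _ _))
        (Eventually.of_forall fun w => hf0 n w) (Eventually.of_forall fun w hw => hs hw)
    have h2 : 0 ≤ 1 / h n ^ 2 * ∫ w in closedBall (z + h n * y) (c * h n), ‖φ n w‖ ^ 2 :=
      mul_nonneg (by positivity) (integral_nonneg fun w => hf0 n w)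
    have h3 : 1 / h n ^ 2 * (∫ w in closedBall (z + h n * y) (c * h n), ‖φ n w‖ ^ 2)
        ≤ 1 / h n ^ 2 * ∫ w in closedBall z ((c + max R 0) * h n), ‖φ n w‖ ^ 2 :=
      mul_le_mul_of_nonneg_left h1 (by positivity)
    calc C * (1 + 1 / h n ^ 2 * ∫ w in closedBall (z + h n * y) (c * h n), ‖φ n w‖ ^ 2)
        ≤ max C 1 * (1 + 1 / h n ^ 2 *
            ∫ w in closedBall (z + h n * y) (c * h n), ‖φ n w‖ ^ 2) :=
          mul_le_mul_of_nonneg_right (le_max_left _ _) (by linarith)
      _ ≤ _ := mul_le_mul_of_nonneg_left (by linarith) hC0.le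
  · have hφR : ∀ n w, ‖φ n w‖ ^ 2 ≤ RR h φ 0 n w := by
      intro n w
      have := W_sq_le (h := h) (φ := φ) (le_refl 0) (le_refl 0) n w
      rwa [W_zero] at this
    set r := c + max R 0 with hrdef
    set vK := (volume K).toReal with hvK
    have hvK0 : 0 ≤ vK := ENNReal.toReal_nonneg
    set A := 2 * max C 1 ^ 2 * vK with hA
    set Bd := 2 * max C 1 ^ 2 * (Real.pi * r ^ 2) ^ 2 with hBd
    -- the limit of the bound
    have hlim : Tendsto (fun n => h n * A + Bd * (h n * ∫ z in cthickening δ K, RR h φ 0 n z ^ 2))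
        atTop (𝓝 0) := by
      have h1 := (hL.hlim.mul_const A).add ((hSm _ hK' hδV 0).const_mul Bd)
      simpa using h1
    refine squeeze_zero' (Eventually.of_forall fun n =>
      mul_nonneg (hL.hpos n).le (integral_nonneg fun z => by positivity)) ?_ hlim
    filter_upwards [hh0 r δ hδ] with n hn
    have hhn := hL.hpos n
    have hrn : 0 < r * h n := by positivity
    have hsub : ∀ z ∈ K, ∀ v : ℂ, ‖v‖ ≤ r * h n → z + v ∈ cthickening δ K := by
      intro z hz v hv
      refine mem_cthickening_of_dist_le _ z δ K hz ?_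
      rw [dist_eq_norm, add_sub_cancel_left]
      exact hv.trans hn
    have hgc : Continuous fun w => (‖φ n w‖ ^ 2) ^ 2 := (hfc n).pow 2
    have hg0 : ∀ w, 0 ≤ (‖φ n w‖ ^ 2) ^ 2 := fun w => by positivity
    -- pointwise bound
    have hpt : ∀ z, (max C 1 * (1 + 1 / h n ^ 2 *
        ∫ w in closedBall z (r * h n), ‖φ n w‖ ^ 2)) ^ 2 ≤
        2 * max C 1 ^ 2 + 2 * max C 1 ^ 2 * (Real.pi * r ^ 2 / h n ^ 2) *
          ∫ w in closedBall z (r * h n), (‖φ n w‖ ^ 2) ^ 2 := by
      intro z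
      have h1 := ball_sq (hfc n) z hrn
      set I := ∫ w in closedBall z (r * h n), ‖φ n w‖ ^ 2
      set J := ∫ w in closedBall z (r * h n), (‖φ n w‖ ^ 2) ^ 2
      have h2 : (1 + 1 / h n ^ 2 * I) ^ 2 ≤ 2 + 2 * (1 / h n ^ 4) * I ^ 2 := by
        have h3 : (1 / h n ^ 2 * I) ^ 2 = 1 / h n ^ 4 * I ^ 2 := by
          field_simp
        nlinarith [sq_nonneg (1 - 1 / h n ^ 2 * I)]
      have h4 : 1 / h n ^ 4 * I ^ 2 ≤ Real.pi * r ^ 2 / h n ^ 2 * J := by
        have h5 : 1 / h n ^ 4 * I ^ 2 ≤ 1 / h n ^ 4 * (Real.pi * (r * h n) ^ 2 * J) :=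
          mul_le_mul_of_nonneg_left h1 (by positivity)
        refine h5.trans (le_of_eq ?_)
        field_simp
      rw [mul_pow]
      have h6 : 0 ≤ max C 1 ^ 2 := by positivity
      calc max C 1 ^ 2 * (1 + 1 / h n ^ 2 * I) ^ 2
          ≤ max C 1 ^ 2 * (2 + 2 * (Real.pi * r ^ 2 / h n ^ 2 * J)) :=
            mul_le_mul_of_nonneg_left (by linarith) h6
        _ = _ := by ring
    have hSc : Continuous fun z => max C 1 * (1 + 1 / h n ^ 2 *
        ∫ w in closedBall z (r * h n), ‖φ n w‖ ^ 2) := continuous_const.mul (continuous_const.add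
      (continuous_const.mul (DSP.continuous_ball (hfc n) _)))
    have hJc : Continuous fun z => ∫ w in closedBall z (r * h n), (‖φ n w‖ ^ 2) ^ 2 :=
      DSP.continuous_ball hgc _
    have h7 : ∫ z in K, (max C 1 * (1 + 1 / h n ^ 2 *
        ∫ w in closedBall z (r * h n), ‖φ n w‖ ^ 2)) ^ 2 ≤
        ∫ z in K, (2 * max C 1 ^ 2 + 2 * max C 1 ^ 2 * (Real.pi * r ^ 2 / h n ^ 2) *
          ∫ w in closedBall z (r * h n), (‖φ n w‖ ^ 2) ^ 2) :=
      setIntegral_mono_on ((hSc.pow 2).continuousOn.integrableOn_compact hK)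
        ((continuous_const.add (continuous_const.mul hJc)).continuousOn.integrableOn_compact hK)
        hK.measurableSet fun z _ => hpt z
    have h8 : ∫ z in K, (2 * max C 1 ^ 2 + 2 * max C 1 ^ 2 * (Real.pi * r ^ 2 / h n ^ 2) *
          ∫ w in closedBall z (r * h n), (‖φ n w‖ ^ 2) ^ 2) =
        A + 2 * max C 1 ^ 2 * (Real.pi * r ^ 2 / h n ^ 2) *
          ∫ z in K, ∫ w in closedBall z (r * h n), (‖φ n w‖ ^ 2) ^ 2 := by
      have i1 : IntegrableOn (fun _ : ℂ => 2 * max C 1 ^ 2) K :=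
        integrableOn_const hK.measure_lt_top.ne
      have i2 : IntegrableOn (fun z => 2 * max C 1 ^ 2 * (Real.pi * r ^ 2 / h n ^ 2) *
          ∫ w in closedBall z (r * h n), (‖φ n w‖ ^ 2) ^ 2) K :=
        (continuous_const.mul hJc).continuousOn.integrableOn_compact hK
      rw [integral_add i1 i2, setIntegral_const, integral_const_mul, hA, smul_eq_mul,
        Measure.real]
      ring
    have h9 := DSP.fub hgc hg0 hK hK' hrn.le hsub
    have h10 : ∫ w in cthickening δ K, (‖φ n w‖ ^ 2) ^ 2 ≤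
        ∫ w in cthickening δ K, RR h φ 0 n w ^ 2 := by
      refine setIntegral_mono_on (hgc.continuousOn.integrableOn_compact hK')
        (((continuous_RR hL.smφ 0 n).pow 2).continuousOn.integrableOn_compact hK')
        hK'.measurableSet fun w _ => ?_
      exact pow_le_pow_left₀ (hf0 n w) (hφR n w) 2
    have h11 : 2 * max C 1 ^ 2 * (Real.pi * r ^ 2 / h n ^ 2) *
        (∫ z in K, ∫ w in closedBall z (r * h n), (‖φ n w‖ ^ 2) ^ 2) ≤
        Bd * ∫ z in cthickening δ K, RR h φ 0 n z ^ 2 := by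
      have h12 : 0 ≤ 2 * max C 1 ^ 2 * (Real.pi * r ^ 2 / h n ^ 2) := by positivity
      calc _ ≤ 2 * max C 1 ^ 2 * (Real.pi * r ^ 2 / h n ^ 2) *
            (Real.pi * (r * h n) ^ 2 * ∫ w in cthickening δ K, (‖φ n w‖ ^ 2) ^ 2) :=
            mul_le_mul_of_nonneg_left h9 h12
        _ = Bd * ∫ w in cthickening δ K, (‖φ n w‖ ^ 2) ^ 2 := by
            rw [hBd]
            field_simp
        _ ≤ _ := mul_le_mul_of_nonneg_left h10 (by positivity)
    calc h n * ∫ z in K, (max C 1 * (1 + 1 / h n ^ 2 *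
        ∫ w in closedBall z (r * h n), ‖φ n w‖ ^ 2)) ^ 2
        ≤ h n * (A + Bd * ∫ z in cthickening δ K, RR h φ 0 n z ^ 2) :=
          mul_le_mul_of_nonneg_left (by linarith) hhn.le
      _ = _ := by ring

end

end U3
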