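import Pool.Agent.QJ.Stmts

/-!
Third order statistics of all eigenfunctions on surfaces of negative curvature: definitions
(local part). No equidistribution is assumed.
-/

open Complex MeasureTheory Filter Topology Set
open scoped ContDiff

namespace U3

open QE QJ

noncomputable section

/-- the standing hypotheses: `φₙ` are real functions, smooth on the plane, which solve
`h² Δ φ = - e^{2σ} φ` on the open set `V`, with bounded mass on the compact subsets of `V` -/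
structure LocB (V : Set ℂ) (σ : ℂ → ℝ) (h : ℕ → ℝ) (φ : ℕ → ℂ → ℂ) : Prop where
  op : IsOpen V
  hpos : ∀ n, 0 < h n
  hlim : Tendsto h atTop (𝓝 0)
  sm : ContDiff ℝ ∞ σ
  smφ : ∀ n, ContDiff ℝ ∞ (φ n)
  real : ∀ n z, (starRingEnd ℂ) (φ n z) = φ n z
  eig : ∀ n, ∀ z ∈ V, 4 * (h n : ℂ) ^ 2 * dz (dzb (φ n)) z = - ex σ 2 z * φ n z
  bdd : ∀ K, IsCompact K → K ⊆ V → ∃ C : ℝ, ∀ᶠ n in atTop, ∫ z in K, ‖φ n z‖ ^ 2 ≤ C

/-- the growth of the jets: linear growth of the mass, and `h · RR` is locally bounded -/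
structure GrowA (V : Set ℂ) (h : ℕ → ℝ) (φ : ℕ → ℂ → ℂ) : Prop where
  grow : ∀ K, IsCompact K → K ⊆ V → ∀ N : ℕ, ∃ C : ℝ, ∀ᶠ n in atTop, ∀ z ∈ K, ∀ s > 0,
    ∫ w in K ∩ Metric.closedBall z s, RR h φ N n w ≤ C * s
  bdd : ∀ K, IsCompact K → K ⊆ V → ∀ N : ℕ, ∃ C : ℝ, ∀ᶠ n in atTop, ∀ z ∈ K,
    h n * RR h φ N n z ≤ C

/-- the jets of order at most `N` are small in `L⁴` after multiplication by `h` -/
def Small (V : Set ℂ) (h : ℕ → ℝ) (φ : ℕ → ℂ → ℂ) : Prop :=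
  ∀ K, IsCompact K → K ⊆ V → ∀ N : ℕ,
    Tendsto (fun n => h n * ∫ z in K, RR h φ N n z ^ 2) atTop (𝓝 0)

/-- `h ∫_K ‖u‖ → 0` on the compact subsets of `V` -/
def HZ (V : Set ℂ) (h : ℕ → ℝ) (u : ℕ → ℂ → ℂ) : Prop :=
  ∀ K, IsCompact K → K ⊆ V → Tendsto (fun n => h n * ∫ z in K, ‖u n z‖) atTop (𝓝 0)

/-- linear growth of the integrals of `‖uₙ‖` over balls -/
def LG (V : Set ℂ) (u : ℕ → ℂ → ℂ) : Prop :=
  ∀ K, IsCompact K → K ⊆ V → ∃ C : ℝ, ∀ᶠ n in atTop, ∀ z ∈ K, ∀ s > 0,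
    ∫ w in K ∩ Metric.closedBall z s, ‖u n w‖ ≤ C * s

/-- weak convergence to zero on `V` -/
def WZ (V : Set ℂ) (u : ℕ → ℂ → ℂ) : Prop :=
  ∀ ζ : ℂ → ℂ, Test V ζ → Tendsto (fun n => ∫ z, ζ z * u n z) atTop (𝓝 0)

/-- bounded in `L²` on the compact subsets of `V` -/
def L2b (V : Set ℂ) (u : ℕ → ℂ → ℂ) : Prop :=
  ∀ K, IsCompact K → K ⊆ V → ∃ C : ℝ, ∀ᶠ n in atTop, ∫ z in K, ‖u n z‖ ^ 2 ≤ C

/-- a triple `(A, B, C)` of spins `N + 2`, `N`, `N - 2`, smooth, with linear growth, and with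
`Db A = - D B` and `D C = - Db B` up to errors which tend to zero in `L²` -/
structure TripB (V : Set ℂ) (σ : ℂ → ℝ) (N : ℤ) (A B C : ℕ → ℂ → ℂ) : Prop where
  sA : ∀ n, ContDiff ℝ ∞ (A n)
  sB : ∀ n, ContDiff ℝ ∞ (B n)
  sC : ∀ n, ContDiff ℝ ∞ (C n)
  gA : LG V A
  gB : LG V B
  gC : LG V C
  eA : L2z V (fun n z => Db σ (N + 2) (A n) z + D σ N (B n) z)
  eC : L2z V (fun n z => D σ (N - 2) (C n) z + Db σ N (B n) z)

/-- a triple which tends weakly to zero -/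
structure TripZ (V : Set ℂ) (σ : ℂ → ℝ) (N : ℤ) (A B C : ℕ → ℂ → ℂ) : Prop
    extends TripB V σ N A B C where
  wA : WZ V A
  wB : WZ V B
  wC : WZ V C

/-- bounded potentials of a triple on `V` (compare `QJ.Pot`) -/
structure PotB (V : Set ℂ) (σ : ℂ → ℝ) (N : ℤ) (A B C x y : ℕ → ℂ → ℂ) : Prop where
  sx : ∀ n, ContDiff ℝ ∞ (x n)
  sy : ∀ n, ContDiff ℝ ∞ (y n)
  hx : ∀ n, ∀ z ∈ V, Db σ (N + 1) (x n) z = - B n z
  hy : ∀ n, ∀ z ∈ V, D σ (N - 1) (y n) z = - B n z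
  lx : L2b V x
  ly : L2b V y
  la : L2b V (fun n z => A n z - D σ (N + 1) (x n) z)
  lc : L2b V (fun n z => C n z - Db σ (N - 1) (y n) z)
  lda : L2b V (fun n z => Db σ (N + 2) (fun w => A n w - D σ (N + 1) (x n) w) z)
  ldc : L2b V (fun n z => D σ (N - 2) (fun w => C n w - Db σ (N - 1) (y n) w) z)

/-! ### Measures -/

/-- a finite measure on a space `Ω` with two functions `p` (the base point) and `u` (the direction,
a complex number of modulus one), such that the products of jets converge to its moments -/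
structure LimM (V : Set ℂ) (σ : ℂ → ℝ) (h : ℕ → ℝ) (φ : ℕ → ℂ → ℂ) {Ω : Type} [MeasurableSpace Ω]
    (μ : Measure Ω) (p u : Ω → ℂ) : Prop where
  fin : μ Set.univ ≠ ⊤
  mp : Measurable p
  mu : Measurable u
  unit : ∀ o, ‖u o‖ = 1
  cpt : ∃ K, IsCompact K ∧ ∀ᵐ o ∂μ, p o ∈ K
  lim : ∀ (j m : ℤ) (ζ : ℂ → ℂ), Test V ζ →
    Tendsto (fun n => ∫ z, ζ z * (E σ h φ j n z * E σ h φ m n z)) atTop
      (𝓝 ((-1) ^ m * ∫ o, ζ (p o) * u o ^ (j + m) ∂μ))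

/-- what is needed of the limit measure: linear growth, no odd moments, and transport -/
structure DirM (V : Set ℂ) (σ : ℂ → ℝ) {Ω : Type} [MeasurableSpace Ω] (μ : Measure Ω)
    (p u : Ω → ℂ) : Prop where
  fin : μ Set.univ ≠ ⊤
  mp : Measurable p
  mu : Measurable u
  unit : ∀ o, ‖u o‖ = 1
  cpt : ∃ K, IsCompact K ∧ ∀ᵐ o ∂μ, p o ∈ K
  grow : ∀ K, IsCompact K → K ⊆ V → ∃ C : ℝ, ∀ z ∈ K, ∀ s > 0,
    (μ (p ⁻¹' (K ∩ Metric.closedBall z s))).toReal ≤ C * s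
  odd : ∀ k : ℤ, Odd k → ∀ ζ : ℂ → ℂ, Test V ζ → ∫ o, ζ (p o) * u o ^ k ∂μ = 0
  transport : ∀ k : ℤ, ∀ ψ : ℂ → ℂ, Test V ψ →
    ∫ o, ex σ 2 (p o) * (Db σ (-k) ψ (p o) * u o ^ (k + 1) - D σ (-k) ψ (p o) * u o ^ (k - 1)) ∂μ
      = 0

/-! ### The mollifier -/

/-- the bump function of the mollifier, as a function of the square of the distance -/
structure Bump (β : ℝ → ℝ) : Prop where
  smooth : ContDiff ℝ ∞ β
  nonneg : ∀ t, 0 ≤ β t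
  supp : ∀ t, 1 ≤ t → β t = 0
  mass : ∫ z : ℂ, β (‖z‖ ^ 2) = 1

/-- the derivative `∂σ` -/
def sg (σ : ℂ → ℝ) (z : ℂ) : ℂ := dz (fun w => (σ w : ℂ)) z

/-- the square of the approximate distance -/
def r2 (σ : ℂ → ℝ) (z w : ℂ) : ℝ := Real.exp (σ z + σ w) * ‖w - z‖ ^ 2

/-- the phase of the approximate parallel transport from `w` to `z` (to be divided by) -/
def ta (σ : ℂ → ℝ) (z w : ℂ) : ℂ :=
  Complex.exp ((((sg σ z + sg σ w) * (w - z)).im : ℝ) * Complex.I)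

/-- the scalar kernel without the density -/
def gb (β : ℝ → ℝ) (σ : ℂ → ℝ) (ε : ℝ) (z w : ℂ) : ℝ := β (r2 σ z w / ε ^ 2) / ε ^ 2

/-- the scalar kernel -/
def ke (β : ℝ → ℝ) (σ : ℂ → ℝ) (ε : ℝ) (z w : ℂ) : ℝ := Real.exp (2 * σ w) * gb β σ ε z w

/-- the mollified moments -/
def pe (β : ℝ → ℝ) (σ : ℂ → ℝ) (ε : ℝ) {Ω : Type} [MeasurableSpace Ω] (μ : Measure Ω)
    (p u : Ω → ℂ) (k : ℤ) (z : ℂ) : ℂ :=
  ∫ o, (ke β σ ε z (p o) : ℂ) * ((ta σ z (p o))⁻¹ * u o) ^ k ∂μ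

/-- the Wick sum of the mollified moments -/
def wkp (P : ℤ → ℂ → ℂ) (a b c d : ℤ) (z : ℂ) : ℂ :=
  (-1) ^ (b + d) * (P (a + b) z * P (c + d) z) + (-1) ^ (c + d) * (P (a + c) z * P (b + d) z)
    + (-1) ^ (c + d) * (P (a + d) z * P (b + c) z)

/-- the sum of three-jet integrals of total spins `j ∈ J` divisible by `3` -/
def TT (σ : ℂ → ℝ) (h : ℕ → ℝ) (φ : ℕ → ℂ → ℂ) (J : Finset ℤ) (f : ℤ → ℂ → ℂ) (n : ℕ) : ℂ :=
  ∑ j ∈ J, if 3 ∣ j then E3 σ h φ (f j) (j / 3) (j / 3) (j / 3) n else 0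

/-- the primitive third root of unity `exp (2 π i / 3)` -/
def w3 : ℂ := Complex.exp (2 * Real.pi * Complex.I / 3)

/-- the geometric input of the last step: closed sets `G N` (finite unions of geodesic arcs), a set `B`
of base points and directions (the tangent vectors of these arcs), such that the measure over `G N` is
carried by `B`, that `B` and its rotation by 120 degrees have null intersection, and bounds for the
mass of the pairs of close points with directions at about 120 degrees -/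
structure GeoM (V : Set ℂ) {Ω : Type} [MeasurableSpace Ω] (μ : Measure Ω) (p u : Ω → ℂ)
    (G : ℕ → Set ℂ) (B : Set (ℂ × ℂ)) : Prop where
  clG : ∀ N, IsClosed (G N)
  mB : MeasurableSet B
  conc : ∀ N, μ {o | p o ∈ G N ∧ (p o, u o) ∉ B} = 0
  rot : μ {o | (p o, u o) ∈ B ∧ (p o, w3 * u o) ∈ B} = 0
  bdd : ∀ K, IsCompact K → K ⊆ V → ∃ b η : ℝ, 0 < η ∧ ∀ᶠ ε in 𝓝[>] (0 : ℝ),
    ((μ.prod μ) {x | p x.1 ∈ K ∧ ‖p x.1 - p x.2‖ ≤ ε ∧ ‖w3 * u x.1 - u x.2‖ ≤ η}).toReal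
      ≤ b * ε ^ 2
  small : ∀ K, IsCompact K → K ⊆ V → ∀ δ > 0, ∃ N, ∀ K', IsCompact K' → K' ⊆ K →
    Disjoint K' (G N) → ∃ η : ℝ, 0 < η ∧ ∀ᶠ ε in 𝓝[>] (0 : ℝ),
    ((μ.prod μ) {x | p x.1 ∈ K' ∧ ‖p x.1 - p x.2‖ ≤ ε ∧ ‖w3 * u x.1 - u x.2‖ ≤ η}).toReal
      ≤ δ * ε ^ 2

/-- `G(z) = 1 + z + ... + z^{M-1}` -/
def GM (M : ℕ) (z : ℂ) : ℂ := ∑ b ∈ Finset.range M, z ^ b

/-- the kernel of the cubic argument, `K = G²` -/
def FM (M : ℕ) (t : ℂ) : ℂ :=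
  M * (GM M (w3 * t) ^ 2 * (starRingEnd ℂ) (GM M (w3 * t) ^ 2))
    + GM M (w3 * t) ^ 2 * GM M ((starRingEnd ℂ) w3 * t) ^ 2 * GM M t

end

end U3
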