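import Pool.Agent.NCV.Defs
import Pool.Agent.U3.Defs
import Pool.Agent.Lib_helper67.QE.Defs

/-!
Third order statistics of all eigenfunctions on surfaces of negative curvature: definitions for the
geodesic flow and for the global part.
-/

open MeasureTheory Filter Topology Set
open UpperHalfPlane hiding I
open scoped ContDiff MatrixGroups

namespace U3

open QE QE.NC QJ

noncomputable section

/-- the base point of a frame -/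
def pG (g : SL(2, ℝ)) : ℂ := ((g • UpperHalfPlane.I : ℍ) : ℂ)

/-- the direction of a frame (`i e^{-iθ}` for the geodesic in the direction `e^{iθ}`) -/
def uG (g : SL(2, ℝ)) : ℂ := Complex.I * (starRingEnd ℂ) (dirG g)

/-- the velocity of the geodesic -/
def vG (ρ : ℍ → ℝ) (g : SL(2, ℝ)) : ℂ :=
  ((Real.exp (-ρ (g • UpperHalfPlane.I)) * (pG g).im : ℝ) : ℂ) * dirG g

/-- the rotation of frames which multiplies `uG` by `w3` -/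
def rot3 : SL(2, ℝ) :=
  ⟨!![1 / 2, -(Real.sqrt 3 / 2); Real.sqrt 3 / 2, 1 / 2], by
    rw [Matrix.det_fin_two_of]
    have h : Real.sqrt 3 ^ 2 = 3 := Real.sq_sqrt (by norm_num)
    nlinarith [h]⟩

/-- the orbit segment of `v`, with both signs -/
def Sg (Φ : ℝ → SL(2, ℝ) → SL(2, ℝ)) (S : ℝ) (v : SL(2, ℝ)) : Set SL(2, ℝ) :=
  {w | ∃ s ∈ Icc (-S) S, w = Φ s v ∨ w = -Φ s v}

/-- the pairs of `ε`-close points over `F` whose directions make an angle of about 120 degrees -/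
def Nn (ε η : ℝ) (F : Set ℂ) : Set (SL(2, ℝ) × SL(2, ℝ)) :=
  {x | pG x.1 ∈ F ∧ ‖pG x.1 - pG x.2‖ ≤ ε ∧ ‖w3 * uG x.1 - uG x.2‖ ≤ η}

/-- the pairs whose geodesics cross, within time `T` and over `F`, at an angle of about 120 degrees -/
def Cc (Φ : ℝ → SL(2, ℝ) → SL(2, ℝ)) (T η : ℝ) (F : Set ℂ) : Set (SL(2, ℝ) × SL(2, ℝ)) :=
  {x | ∃ s ∈ Icc 0 T, ∃ t ∈ Icc 0 T, pG (Φ s x.1) ∈ F ∧ pG (Φ s x.1) = pG (Φ t x.2) ∧
    ‖w3 * uG (Φ s x.1) - uG (Φ t x.2)‖ ≤ η}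

/-- the hypotheses on an open set `U`: `φₙ` are smooth real functions with `h² Δ φ = - g φ` and with
bounded mass on the compact subsets -/
structure LocU (U : Set ℂ) (g : ℂ → ℝ) (h : ℕ → ℝ) (φ : ℕ → ℂ → ℂ) : Prop where
  hpos : ∀ n, 0 < h n
  hlim : Tendsto h atTop (𝓝 0)
  smooth : SmoothSeq U φ
  real : ∀ n, ∀ z ∈ U, (starRingEnd ℂ) (φ n z) = φ n z
  eig : ∀ n, ∀ z ∈ U, 4 * (h n : ℂ) ^ 2 * dz (dzb (φ n)) z = - ((g z : ℝ) : ℂ) * φ n z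
  bdd : ∀ K, IsCompact K → K ⊆ U → ∃ C : ℝ, ∀ᶠ n in atTop, ∫ z in K, ‖φ n z‖ ^ 2 ≤ C

/-- local data on `V` which agree with `g`, `φ` -/
structure Agree (V U : Set ℂ) (g : ℂ → ℝ) (h : ℕ → ℝ) (φ : ℕ → ℂ → ℂ) (σ : ℂ → ℝ)
    (φ' : ℕ → ℂ → ℂ) : Prop where
  op : IsOpen V
  sub : V ⊆ U
  eg : ∀ z ∈ V, Real.exp (2 * σ z) = g z
  eφ : ∀ n, ∀ z ∈ V, φ' n z = φ n z
  loc : LocB V σ h φ'

/-- the three-jet integrals tend to zero -/
def E3V (U : Set ℂ) (g : ℂ → ℝ) (h : ℕ → ℝ) (φ : ℕ → ℂ → ℂ) : Prop :=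
  ∀ (V : Set ℂ) (σ : ℂ → ℝ) (φ' : ℕ → ℂ → ℂ), Agree V U g h φ σ φ' → ∀ ζ : ℂ → ℂ, Test V ζ →
    ∀ a b c : ℤ, Tendsto (E3 σ h φ' ζ a b c) atTop (𝓝 0)

/-- the conformal factor `e^{2ρ} / y²`, real valued -/
def gr (ρ : ℍ → ℝ) (z : ℂ) : ℝ := Real.exp (2 * ρ (ofComplex z)) / z.im ^ 2

end

end U3
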