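import Pool.Agent.U3.Stmts
import Pool.Agent.U3.DefsG

/-!
Third order statistics of all eigenfunctions on surfaces of negative curvature: statements of the
geometric steps and of the global construction of the limit measure.
-/

open MeasureTheory Filter Topology Set
open UpperHalfPlane hiding I
open scoped ContDiff MatrixGroups

namespace U3

open QE QE.NC QJ

noncomputable section

/-! ### D. Geometry -/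

/-- ROT: the base point and the direction of a frame -/
def StmtRot : Prop :=
  Continuous pG ∧ Continuous uG ∧ (∀ g, ‖uG g‖ = 1) ∧ (∀ g, pG g ∈ UH) ∧
  (∀ g, pG (-g) = pG g ∧ uG (-g) = uG g) ∧
  (∀ g, pG (g * rot3) = pG g ∧ uG (g * rot3) = w3 * uG g) ∧
  (∀ g g', pG g = pG g' → uG g = uG g' → g' = g ∨ g' = -g) ∧
  (∀ K : Set ℂ, IsCompact K → K ⊆ UH → IsCompact (pG ⁻¹' K))

/-- VEL: the velocity of the geodesics -/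
def StmtVel : Prop :=
  ∀ (Γ : Subgroup SL(2, ℝ)) (ρ : ℍ → ℝ) (Φ : ℝ → SL(2, ℝ) → SL(2, ℝ)), Fac Γ ρ → GFlow ρ Φ →
    Continuous (vG ρ) ∧ (∀ g, vG ρ g ≠ 0) ∧
    ∀ g t, HasDerivAt (fun s => pG (Φ s g)) (vG ρ (Φ t g)) t

/-- ARE: the area of the set of times at which two transversal geodesics are `ε`-close -/
def StmtAre : Prop :=
  ∀ (Γ : Subgroup SL(2, ℝ)) (ρ : ℍ → ℝ) (Φ : ℝ → SL(2, ℝ) → SL(2, ℝ)), Fac Γ ρ → GFlow ρ Φ →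
    ∀ K : Set SL(2, ℝ), IsCompact K → ∃ T C : ℝ, 0 < T ∧ 0 < C ∧ ∀ v ∈ K, ∀ v' ∈ K, ∀ ε > 0,
      (volume : Measure (ℝ × ℝ)) {x | x.1 ∈ Icc 0 T ∧ x.2 ∈ Icc 0 T ∧
        ‖pG (Φ x.1 v) - pG (Φ x.2 v')‖ ≤ ε ∧ ‖w3 * uG (Φ x.1 v) - uG (Φ x.2 v')‖ ≤ 1 / 10}
        ≤ ENNReal.ofReal (C * ε ^ 2)

/-- NCR: the mass of the pairs of close points with directions at about 120 degrees is bounded by the
mass of the pairs of geodesics which cross at 120 degrees -/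
def StmtNcr : Prop :=
  ∀ [MeasurableSpace SL(2, ℝ)] [BorelSpace SL(2, ℝ)] (Γ : Subgroup SL(2, ℝ)) (ρ : ℍ → ℝ)
    (Φ : ℝ → SL(2, ℝ) → SL(2, ℝ)) (ν : Measure SL(2, ℝ)) [IsFiniteMeasureOnCompacts ν]
    [SigmaFinite ν], Fac Γ ρ → GFlow ρ Φ → (∀ t, Measure.map (Φ t) ν = ν) →
    ∀ F : Set ℂ, IsCompact F → F ⊆ UH → ∃ T C : ℝ, 0 < T ∧ 0 < C ∧
    ∀ F' : Set ℂ, IsCompact F' → F' ⊆ F → ∀ b : ℝ, (ν.prod ν) (Cc Φ T 0 F') < ENNReal.ofReal b →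
      ∃ η : ℝ, 0 < η ∧ ∀ᶠ ε in 𝓝[>] (0 : ℝ),
        (ν.prod ν) (Nn ε η F') ≤ ENNReal.ofReal (C * b * ε ^ 2)

/-- JCA: the coordinates of two nearby points of a rotated orbit -/
def StmtJca : Prop :=
  ∀ (Γ : Subgroup SL(2, ℝ)) (ρ : ℍ → ℝ) (Φ : ℝ → SL(2, ℝ) → SL(2, ℝ)), Fac Γ ρ → GFlow ρ Φ →
    ∀ v : SL(2, ℝ), ∃ C r : ℝ, 0 < C ∧ 0 < r ∧ ∀ a ∈ Icc (-r) r,
      |xx ρ (v * rot3) (Φ a v * rot3) + Real.sqrt 3 / 2 * a| ≤ C * a ^ 2 ∧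
      |yy ρ (v * rot3) (Φ a v * rot3)| ≤ C * a ^ 2 ∧
      |tt ρ (v * rot3) (Φ a v * rot3) + a / 2| ≤ C * a ^ 2

/-- JAC: geodesics which cross two given geodesics at 120 degrees are isolated (negative curvature) -/
def StmtJac : Prop :=
  ∀ (Γ : Subgroup SL(2, ℝ)) (ρ : ℍ → ℝ) (Φ : ℝ → SL(2, ℝ) → SL(2, ℝ)), Fac Γ ρ →
    (∀ z, 0 < lapR ρ z) → GFlow ρ Φ → ∀ (v₁ v₂ : SL(2, ℝ)) (T : ℝ), 0 < T →
    v₂ ∉ Sg Φ (2 * T) v₁ →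
    Set.Countable {s | s ∈ Icc 0 T ∧ ∃ τ ∈ Icc (-T) T, ∃ s' ∈ Icc 0 T,
      Φ τ (Φ s v₁ * rot3) = Φ s' v₂ * rot3 ∨ Φ τ (Φ s v₁ * rot3) = -(Φ s' v₂ * rot3)}

/-- NUC: apart from countably many geodesics, the pairs which cross at 120 degrees are negligible -/
def StmtNuc : Prop :=
  ∀ [MeasurableSpace SL(2, ℝ)] [BorelSpace SL(2, ℝ)] (Γ : Subgroup SL(2, ℝ)) (ρ : ℍ → ℝ)
    (Φ : ℝ → SL(2, ℝ) → SL(2, ℝ)) (ν : Measure SL(2, ℝ)) [IsFiniteMeasureOnCompacts ν]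
    [SigmaFinite ν], Fac Γ ρ → (∀ z, 0 < lapR ρ z) → GFlow ρ Φ →
    ∀ F : Set ℂ, IsCompact F → F ⊆ UH → ∀ T : ℝ, 0 < T →
    ∃ (v : ℕ → SL(2, ℝ)) (S : ℝ), 0 ≤ S ∧ (ν.prod ν) (Cc Φ T 0 F ∩
      {x | (∀ i, x.1 ∉ Sg Φ S (v i)) ∧ ∀ i, x.2 ∉ Sg Φ S (v i)}) = 0

/-- TRV: transversal crossings are isolated -/
def StmtTrv : Prop :=
  ∀ (Γ : Subgroup SL(2, ℝ)) (ρ : ℍ → ℝ) (Φ : ℝ → SL(2, ℝ) → SL(2, ℝ)), Fac Γ ρ → GFlow ρ Φ →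
    ∀ (v w : SL(2, ℝ)) (S : ℝ), Set.Countable {t | t ∈ Icc (-S) S ∧ ∃ s ∈ Icc (-S) S,
      pG (Φ t w) = pG (Φ s v) ∧ uG (Φ t w) ≠ uG (Φ s v) ∧ uG (Φ t w) ≠ -uG (Φ s v)}

/-- CON: over a geodesic arc, an invariant measure is carried by the tangent vectors of the arc; and
points have measure zero -/
def StmtCon : Prop :=
  ∀ [MeasurableSpace SL(2, ℝ)] [BorelSpace SL(2, ℝ)] (Γ : Subgroup SL(2, ℝ)) (ρ : ℍ → ℝ)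
    (Φ : ℝ → SL(2, ℝ) → SL(2, ℝ)) (ν : Measure SL(2, ℝ)) [IsFiniteMeasureOnCompacts ν]
    [SigmaFinite ν], Fac Γ ρ → GFlow ρ Φ → (∀ t, Measure.map (Φ t) ν = ν) →
    (∀ (v : SL(2, ℝ)) (S : ℝ), ν {w | (∃ s ∈ Icc (-S) S, pG w = pG (Φ s v)) ∧
      ¬ ∃ s ∈ Icc (-S) S, pG w = pG (Φ s v) ∧ (uG w = uG (Φ s v) ∨ uG w = -uG (Φ s v))} = 0) ∧
    ∀ w, ν {w} = 0

/-- GEO: the geometric input for the invariant measure -/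
def StmtGeo : Prop :=
  ∀ [MeasurableSpace SL(2, ℝ)] [BorelSpace SL(2, ℝ)] (Γ : Subgroup SL(2, ℝ)) (ρ : ℍ → ℝ)
    (Φ : ℝ → SL(2, ℝ) → SL(2, ℝ)) (ν : Measure SL(2, ℝ)) [IsFiniteMeasureOnCompacts ν]
    [SigmaFinite ν], Fac Γ ρ → (∀ z, 0 < lapR ρ z) → GFlow ρ Φ →
    (∀ t, Measure.map (Φ t) ν = ν) → ∀ F : Set ℂ, IsCompact F → F ⊆ UH →
    ∃ (G : ℕ → Set ℂ) (B : Set (ℂ × ℂ)), (∀ N, IsClosed (G N)) ∧ MeasurableSet B ∧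
      (∀ N, ν {g | pG g ∈ G N ∧ (pG g, uG g) ∉ B} = 0) ∧
      ν {g | (pG g, uG g) ∈ B ∧ (pG g, w3 * uG g) ∈ B} = 0 ∧
      (∃ b η : ℝ, 0 < η ∧ ∀ᶠ ε in 𝓝[>] (0 : ℝ),
        (ν.prod ν) (Nn ε η F) ≤ ENNReal.ofReal (b * ε ^ 2)) ∧
      ∀ δ > 0, ∃ N, ∀ F' : Set ℂ, IsCompact F' → F' ⊆ F → Disjoint F' (G N) →
        ∃ η : ℝ, 0 < η ∧ ∀ᶠ ε in 𝓝[>] (0 : ℝ),
          (ν.prod ν) (Nn ε η F') ≤ ENNReal.ofReal (δ * ε ^ 2)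

/-- the measure `f(pG) ν` restricted to `pG ⁻¹' F` -/
def muV [MeasurableSpace SL(2, ℝ)] (ν : Measure SL(2, ℝ)) (F : Set ℂ) (f : ℂ → ℝ) :
    Measure SL(2, ℝ) :=
  (ν.restrict (pG ⁻¹' F)).withDensity fun g => ENNReal.ofReal (f (pG g))

/-- GEV: the geometric input for the local measure -/
def StmtGev : Prop :=
  ∀ [MeasurableSpace SL(2, ℝ)] [BorelSpace SL(2, ℝ)] (Γ : Subgroup SL(2, ℝ)) (ρ : ℍ → ℝ)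
    (Φ : ℝ → SL(2, ℝ) → SL(2, ℝ)) (ν : Measure SL(2, ℝ)) [IsFiniteMeasureOnCompacts ν]
    [SigmaFinite ν], Fac Γ ρ → (∀ z, 0 < lapR ρ z) → GFlow ρ Φ →
    (∀ t, Measure.map (Φ t) ν = ν) → ∀ (F V : Set ℂ) (f : ℂ → ℝ), IsCompact F → F ⊆ UH → V ⊆ F →
    Continuous f → (∀ z, 0 ≤ f z) →
    ∃ (G : ℕ → Set ℂ) (B : Set (ℂ × ℂ)), GeoM V (muV ν F f) pG uG G B

/-! ### F. The global limit measure -/

/-- SUB: a subsequence along which countably many sequences converge weakly -/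
def StmtSub : Prop :=
  ∀ (U : Set ℂ) (f : ℕ → ℕ → ℂ → ℂ), IsOpen U → (∀ i n, ContinuousOn (f i n) U) →
    (∀ i, ∀ K, IsCompact K → K ⊆ U → ∃ C : ℝ, ∀ᶠ n in atTop, ∫ z in K, ‖f i n z‖ ≤ C) →
    ∃ s : ℕ → ℕ, StrictMono s ∧ ∀ (i : ℕ) (ζ : ℂ → ℂ), Test U ζ →
      ∃ L : ℂ, Tendsto (fun n => ∫ z, ζ z * f i (s n) z) atTop (𝓝 L)

/-- RMK: existence of the limit measure on the frames -/
def StmtRmk : Prop :=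
  ∀ [MeasurableSpace SL(2, ℝ)] [BorelSpace SL(2, ℝ)] (e : ℤ → ℕ → ℂ → ℂ)
    (P : ℤ → (ℂ → ℂ) → ℂ), (∀ j n, ContinuousOn (e j n) UH) →
    (∀ j n, ∀ z ∈ UH, (starRingEnd ℂ) (e j n z) = (-1) ^ j * e (-j) n z) →
    (∀ (j m : ℤ) (ζ : ℂ → ℂ), Test UH ζ →
      Tendsto (fun n => ∫ z, ζ z * (e j n z * e m n z)) atTop (𝓝 ((-1) ^ m * P (j + m) ζ))) →
    ∃ μ : Measure SL(2, ℝ), IsFiniteMeasureOnCompacts μ ∧ SigmaFinite μ ∧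
      Measure.map (fun g => -g) μ = μ ∧
      ∀ (k : ℤ) (ζ : ℂ → ℂ), Test UH ζ → ∫ g, ζ (pG g) * uG g ^ k ∂μ = P k ζ

/-- INF: infinitesimal invariance from the transport identities -/
def StmtInfU : Prop :=
  ∀ [MeasurableSpace SL(2, ℝ)] [BorelSpace SL(2, ℝ)] (Γ : Subgroup SL(2, ℝ)) (ρ : ℍ → ℝ)
    (ν : Measure SL(2, ℝ)) [IsFiniteMeasureOnCompacts ν], Fac Γ ρ →
    Measure.map (fun g => -g) ν = ν →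
    (∀ k : ℤ, ∀ ζ : ℂ → ℂ, Test UH ζ → ∫ g,
      ((aR ρ (pG g) * dz ζ (pG g) - k * dz (aR ρ) (pG g) * ζ (pG g))
          * (starRingEnd ℂ) (dirG g) ^ (k - 1)
        + (aR ρ (pG g) * dzb ζ (pG g) + k * dzb (aR ρ) (pG g) * ζ (pG g))
          * (starRingEnd ℂ) (dirG g) ^ (k + 1)) ∂ν = 0) →
    ∀ H : ℂ × ℂ → ℂ, ContDiff ℝ ∞ H → HasCompactSupport H →
      ∫ g, fderiv ℝ H (iota g) (XV ρ g) ∂ν = 0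

/-- LCZ: localisation -/
def StmtLcz : Prop :=
  ∀ (U : Set ℂ) (g : ℂ → ℝ) (h : ℕ → ℝ) (φ : ℕ → ℂ → ℂ), IsOpen U → ContDiffOn ℝ ∞ g U →
    (∀ z ∈ U, 0 < g z) → LocU U g h φ → ∀ K, IsCompact K → K ⊆ U →
    ∃ (V F : Set ℂ) (σ : ℂ → ℝ) (φ' : ℕ → ℂ → ℂ), K ⊆ V ∧ V ⊆ F ∧ F ⊆ U ∧ IsCompact F ∧
      Agree V U g h φ σ φ'

/-- ECG: the jets depend only on the local data -/
def StmtEcg : Prop :=
  ∀ (V : Set ℂ) (σ σ' : ℂ → ℝ) (h : ℕ → ℝ) (φ φ' : ℕ → ℂ → ℂ), IsOpen V →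
    (∀ z ∈ V, σ z = σ' z) → (∀ n, ∀ z ∈ V, φ n z = φ' n z) →
    (∀ j n, ∀ z ∈ V, E σ h φ j n z = E σ' h φ' j n z) ∧
    (∀ (s : ℕ → ℕ) j n z, E σ (fun k => h (s k)) (fun k => φ (s k)) j n z = E σ h φ j (s n) z)

/-- WGA: a subsequence along which all the products of jets converge weakly -/
def StmtWga : Prop :=
  ∀ (Γ : Subgroup SL(2, ℝ)) (ρ : ℍ → ℝ) (h : ℕ → ℝ) (φ : ℕ → ℂ → ℂ), Fac Γ ρ →
    LocU UH (gr ρ) h φ → ∃ (s : ℕ → ℕ) (P : ℤ → (ℂ → ℂ) → ℂ) (e : ℤ → ℕ → ℂ → ℂ), StrictMono s ∧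
      (∀ (V : Set ℂ) (σ : ℂ → ℝ) (φ' : ℕ → ℂ → ℂ), Agree V UH (gr ρ) h φ σ φ' →
        ∀ j n, ∀ z ∈ V, E σ h φ' j (s n) z = e j n z) ∧
      (∀ j n, ContinuousOn (e j n) UH) ∧
      (∀ j n, ∀ z ∈ UH, (starRingEnd ℂ) (e j n z) = (-1) ^ j * e (-j) n z) ∧
      ∀ (j m : ℤ) (ζ : ℂ → ℂ), Test UH ζ →
        Tendsto (fun n => ∫ z, ζ z * (e j n z * e m n z)) atTop (𝓝 ((-1) ^ m * P (j + m) ζ))

/-- WGB: the transport identities of the limit measure -/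
def StmtWgb : Prop :=
  ∀ [MeasurableSpace SL(2, ℝ)] [BorelSpace SL(2, ℝ)] (Γ : Subgroup SL(2, ℝ)) (ρ : ℍ → ℝ)
    (h : ℕ → ℝ) (φ : ℕ → ℂ → ℂ) (s : ℕ → ℕ) (P : ℤ → (ℂ → ℂ) → ℂ) (μ : Measure SL(2, ℝ))
    [IsFiniteMeasureOnCompacts μ], Fac Γ ρ → LocU UH (gr ρ) h φ → StrictMono s →
    (∀ (V : Set ℂ) (σ : ℂ → ℝ) (φ' : ℕ → ℂ → ℂ), Agree V UH (gr ρ) h φ σ φ' →
      ∀ (j m : ℤ) (ζ : ℂ → ℂ), Test V ζ →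
        Tendsto (fun n => ∫ z, ζ z * (E σ h φ' j (s n) z * E σ h φ' m (s n) z)) atTop
          (𝓝 ((-1) ^ m * P (j + m) ζ))) →
    (∀ (k : ℤ) (ζ : ℂ → ℂ), Test UH ζ → ∫ g, ζ (pG g) * uG g ^ k ∂μ = P k ζ) →
    ∀ k : ℤ, ∀ ζ : ℂ → ℂ, Test UH ζ → ∫ g,
      ((aR ρ (pG g) * dz ζ (pG g) - k * dz (aR ρ) (pG g) * ζ (pG g))
          * (starRingEnd ℂ) (dirG g) ^ (k - 1)
        + (aR ρ (pG g) * dzb ζ (pG g) + k * dzb (aR ρ) (pG g) * ζ (pG g))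
          * (starRingEnd ℂ) (dirG g) ^ (k + 1))
        ∂(μ.withDensity fun g => ENNReal.ofReal (gr ρ (pG g))) = 0

/-- WGL: the global limit measure: along a subsequence of any given subsequence, the products of jets
converge to the moments of a measure `e^{-2σ} ν`, where `ν` is invariant under the geodesic flow -/
def StmtWgl : Prop :=
  ∀ [MeasurableSpace SL(2, ℝ)] [BorelSpace SL(2, ℝ)] (Γ : Subgroup SL(2, ℝ)) (ρ : ℍ → ℝ)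
    (Φ : ℝ → SL(2, ℝ) → SL(2, ℝ)) (h : ℕ → ℝ) (φ : ℕ → ℂ → ℂ), Fac Γ ρ → GFlow ρ Φ →
    LocU UH (gr ρ) h φ → ∃ (s : ℕ → ℕ) (ν : Measure SL(2, ℝ)), StrictMono s ∧
      IsFiniteMeasureOnCompacts ν ∧ SigmaFinite ν ∧ (∀ t, Measure.map (Φ t) ν = ν) ∧
      ∀ (V : Set ℂ) (σ : ℂ → ℝ) (φ' : ℕ → ℂ → ℂ), Agree V UH (gr ρ) h φ σ φ' →
        ∀ (j m : ℤ) (ζ : ℂ → ℂ), Test V ζ →
          Tendsto (fun n => ∫ z, ζ z * (E σ h φ' j (s n) z * E σ h φ' m (s n) z)) atTop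
            (𝓝 ((-1) ^ m * ∫ g, ζ (pG g) * ((Real.exp (-(2 * σ (pG g))) : ℝ) : ℂ)
              * uG g ^ (j + m) ∂ν))

/-- E3G: the three-jet integrals tend to zero -/
def StmtE3g : Prop :=
  ∀ (Γ : Subgroup SL(2, ℝ)) (ρ : ℍ → ℝ) (h : ℕ → ℝ) (φ : ℕ → ℂ → ℂ), Fac Γ ρ →
    (∀ z, 0 < lapR ρ z) → LocU UH (gr ρ) h φ → E3V UH (gr ρ) h φ

end

end U3
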