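import Pool.Agent.U3.StmtsT
import Pool.Agent.U3.StmtsG
import Pool.Agent.QJ.Dom

/-!
DSUU: the functions and their first derivatives at displaced points are dominated.
-/

open MeasureTheory Filter Topology Set
open scoped ContDiff

namespace U3

open QE QJ

noncomputable section

namespace DSUU

/-- iterated Wirtinger derivatives of functions which agree on an open set agree there -/
lemma iter_congr {V : Set ℂ} (T : (ℂ → ℂ) → ℂ → ℂ)
    (hT : ∀ f g : ℂ → ℂ, (∀ z ∈ V, f z = g z) → ∀ z ∈ V, T f z = T g z) (a : ℕ) :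
    ∀ f g : ℂ → ℂ, (∀ z ∈ V, f z = g z) → ∀ z ∈ V, T^[a] f z = T^[a] g z := by
  induction a with
  | zero => intro f g hfg z hz; exact hfg z hz
  | succ a ih =>
    intro f g hfg z hz
    rw [Function.iterate_succ_apply, Function.iterate_succ_apply]
    exact ih (T f) (T g) (hT f g hfg) z hz

lemma ev_eq {V : Set ℂ} (hV : IsOpen V) {f g : ℂ → ℂ} (hfg : ∀ z ∈ V, f z = g z) {z : ℂ}
    (hz : z ∈ V) : f =ᶠ[𝓝 z] g := by
  filter_upwards [hV.mem_nhds hz] with w hw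
  exact hfg w hw

lemma dz_congr {V : Set ℂ} (hV : IsOpen V) (f g : ℂ → ℂ) (hfg : ∀ z ∈ V, f z = g z) :
    ∀ z ∈ V, dz f z = dz g z := by
  intro z hz
  unfold dz
  rw [(ev_eq hV hfg hz).fderiv_eq]

lemma dzb_congr {V : Set ℂ} (hV : IsOpen V) (f g : ℂ → ℂ) (hfg : ∀ z ∈ V, f z = g z) :
    ∀ z ∈ V, dzb f z = dzb g z := by
  intro z hz
  unfold dzb
  rw [(ev_eq hV hfg hz).fderiv_eq]

lemma W_congr {V : Set ℂ} (hV : IsOpen V) {h : ℕ → ℝ} {φ ψ : ℕ → ℂ → ℂ}
    (he : ∀ n, ∀ z ∈ V, φ n z = ψ n z) (a b n : ℕ) {z : ℂ} (hz : z ∈ V) :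
    W h φ a b n z = W h ψ a b n z := by
  unfold W
  rw [iter_congr dz (dz_congr hV) a _ _ (iter_congr dzb (dzb_congr hV) b _ _ (he n)) z hz]

end DSUU

theorem stmtDsuU (hDspB : StmtDspB) (hLcz : StmtLcz) : StmtDsuU := by
  intro U g h φ hU hg hgp H K hK hKU R
  obtain ⟨V, F, σ, ψ, hKV, -, -, -, A⟩ := hLcz U g h φ hU hg hgp H K hK hKU
  obtain ⟨S, h1, hc, hev, hlim⟩ := hDspB V σ h ψ A.loc K hK hKV 1 R
  refine ⟨S, h1, hc, ?_, hlim⟩
  filter_upwards [hev] with n hn z hz y hy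
  obtain ⟨hV, hRR⟩ := hn z hz y hy
  have key : ∀ a b : ℕ, a ≤ 1 → b ≤ 1 → ‖W h φ a b n (z + h n * y)‖ ^ 2 ≤ S n z := by
    intro a b ha hb
    rw [← DSUU.W_congr A.op A.eφ a b n hV]
    exact (W_sq_le ha hb n _).trans hRR
  refine ⟨A.sub hV, ?_, ?_, ?_⟩
  · have := key 0 0 (by norm_num) (by norm_num)
    simpa [W] using this
  · have := key 1 0 (by norm_num) (by norm_num)
    simpa [W] using this
  · have := key 0 1 (by norm_num) (by norm_num)
    simpa [W] using this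

end

end U3
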