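import Pool.Agent.U3.StmtsT
import Pool.Agent.U3.StmtsG

/-!
The directional form of the final theorem.
-/

open MeasureTheory Filter Topology Set UpperHalfPlane MatrixGroups
open scoped ContDiff

namespace U3

open QE QE.NC QJ

noncomputable section

/-- FND: the directional form of the final theorem -/
theorem stmtFnd (hSrf : StmtSrf) (hE3g : StmtE3g) (hLogU : StmtLogU) : StmtFnd := by
  intro Γ _ D ρ φ m hD hDΓ hcpt hρ hinv hK hseq hφ hn ψ hψ hψc hψs k v
  obtain ⟨N, hm, hloc⟩ := hSrf Γ D ρ φ m hD hDΓ hcpt hρ hinv hseq hφ hn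
  have hfac : Fac Γ ρ := ⟨hρ, hinv, hcpt⟩
  have he3 := hE3g Γ ρ (fun n => 1 / m (n + N)) (fun n z => (φ (n + N) (ofComplex z) : ℂ)) hfac hK
    hloc
  have h1 := (hLogU ρ (fun n => φ (n + N)) (fun n => m (n + N)) hρ hm (fun n => hφ (n + N)) hloc
    he3 ψ hψ hψc hψs).2.2.2 k v
  exact (tendsto_add_atTop_iff_nat N).1 h1

end

end U3
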