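import Pool.Agent.U3.StmtsT
import Pool.Agent.U3.StmtsG
import Pool.Agent.QJ.FUB
import Pool.Agent.QJ.FINP

/-!
FNU: all the moments of order at most three of the local waves, for all eigenfunctions.
-/

open MeasureTheory Filter Topology Set UpperHalfPlane MatrixGroups
open scoped ContDiff

namespace U3

open QE QJ

noncomputable section

namespace FNU

variable {Γ : Subgroup SL(2, ℝ)} {ρ : ℍ → ℝ} {D : Set ℍ} {φ : ℕ → ℍ → ℝ} {m : ℕ → ℝ}

/-- the average of `w F` over points and frames -/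
lemma fub [Countable Γ] (hg : Berry.Geo Γ ρ D)
    (hK : ∃ K : Set ℍ, IsCompact K ∧ ∀ z, ∃ γ ∈ Γ, γ • z ∈ K) {ζ : ℂ → ℝ}
    (hζ : ∀ f : ℍ → ℝ, Continuous f → (∀ γ ∈ Γ, ∀ z, f (γ • z) = f z) →
        Berry.rAvg ρ D f = ∫ w, ζ w * f (ofComplex w)) {w : ℍ → ℝ} (hw : Continuous w)
    (hwi : ∀ γ ∈ Γ, ∀ z, w (γ • z) = w z) {F : ℍ × ℝ → ℝ} (hF : Continuous F) {C : ℝ}
    (hC : ∀ p, ‖F p‖ ≤ C) (hG : Continuous fun z => ∫ θ, F (z, θ) ∂angle)
    (hGi : ∀ γ ∈ Γ, ∀ z, (∫ θ, F (γ • z, θ) ∂angle) = ∫ θ, F (z, θ) ∂angle) :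
    ∫ z, (ζ z * w (ofComplex z)) * (∫ θ, F (ofComplex z, θ) ∂angle)
      = ∫ p, w p.1 * F p ∂(Berry.rFrameProb ρ D) := by
  have hcond : IsProbabilityMeasure (ProbabilityTheory.cond (Berry.area ρ) D) :=
    ProbabilityTheory.cond_isProbabilityMeasure_of_finite (Berry.area_ne_zero hg)
      (Berry.area_ne_top hg)
  have hprob : IsProbabilityMeasure (Berry.rFrameProb ρ D) := Berry.rFrameProb_isProb hg
  have hang := Berry.angle_prob
  obtain ⟨C', hC'⟩ := Berry.bdd_of_cocompact hw hwi hK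
  have hint : Integrable (fun p : ℍ × ℝ => w p.1 * F p) (Berry.rFrameProb ρ D) := by
    refine Integrable.of_bound ((hw.comp continuous_fst).mul hF).aestronglyMeasurable
      (|C'| * |C|) (Eventually.of_forall fun p => ?_)
    rw [norm_mul]
    refine mul_le_mul ?_ ((hC p).trans (le_abs_self _)) (norm_nonneg _) (abs_nonneg _)
    rw [Real.norm_eq_abs]
    exact (hC' _).trans (le_abs_self _)
  have e1 : ∫ p, w p.1 * F p ∂(Berry.rFrameProb ρ D)
      = Berry.rAvg ρ D (fun z => w z * ∫ θ, F (z, θ) ∂angle) := by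
    unfold Berry.rFrameProb at hint ⊢
    rw [integral_prod _ hint]
    unfold Berry.rAvg
    refine integral_congr_ae (Eventually.of_forall fun z => ?_)
    simp only
    rw [integral_const_mul]
  rw [e1, hζ (fun z => w z * ∫ θ, F (z, θ) ∂angle) (hw.mul hG)
    fun γ hγ z => by rw [hwi γ hγ, hGi γ hγ]]
  refine integral_congr_ae (Eventually.of_forall fun z => ?_)
  simp only
  ring

lemma keyP [Countable Γ] (hg : Berry.Geo Γ ρ D)
    (hK : ∃ K : Set ℍ, IsCompact K ∧ ∀ z, ∃ γ ∈ Γ, γ • z ∈ K) (hρc : Continuous ρ)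
    (hpc : ∀ n, Continuous (φ n)) (hφ : Berry.REigenSeq Γ ρ φ m) {ζ : ℂ → ℝ}
    (hζ : ∀ f : ℍ → ℝ, Continuous f → (∀ γ ∈ Γ, ∀ z, f (γ • z) = f z) →
        Berry.rAvg ρ D f = ∫ w, ζ w * f (ofComplex w)) {w : ℍ → ℝ} (hw : Continuous w)
    (hwi : ∀ γ ∈ Γ, ∀ z, w (γ • z) = w z) {k : ℕ} (x : Fin k → ℂ) :
    ∀ᶠ n in atTop, ∫ z, (ζ z * w (ofComplex z)) * angProd ρ (φ n) (m n) x (ofComplex z)
      = ∫ p, w p.1 * ∏ i, Berry.rWave ρ (φ n) (m n) (x i) p ∂(Berry.rFrameProb ρ D) := by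
  filter_upwards [QJ.FINP.pt hg hφ.tendsto x] with n hn
  obtain ⟨hm0, hn⟩ := hn
  obtain ⟨C₂, hC₂⟩ := Berry.bdd_of_cocompact (hpc n) (hφ.invariant n) hK
  have hcw : ∀ i, Continuous (Berry.rWave ρ (φ n) (m n) (x i)) := fun i =>
    rWave_continuous (hpc n) hρc (hn i) hm0.ne'
  refine fub hg hK hζ hw hwi (F := fun p => ∏ i, Berry.rWave ρ (φ n) (m n) (x i) p)
    (C := ∏ _i : Fin k, |C₂|) (continuous_finsetProd _ fun i _ => hcw i) (fun p => ?_)
    (angProd_continuous (hpc n) hρc hn hm0.ne') (angProd_inv (hφ.invariant n) hg.inv (m n) x)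
  rw [norm_prod]
  refine Finset.prod_le_prod (fun _ _ => norm_nonneg _) fun i _ => ?_
  rw [Real.norm_eq_abs]
  exact (hC₂ _).trans (le_abs_self _)

lemma keyJ [Countable Γ] (hInvg : StmtInvg) (hg : Berry.Geo Γ ρ D)
    (hK : ∃ K : Set ℍ, IsCompact K ∧ ∀ z, ∃ γ ∈ Γ, γ • z ∈ K) (hρc : Continuous ρ)
    (hφ : Berry.REigenSeq Γ ρ φ m)
    (hs : ∀ n, ContDiffOn ℝ ∞ (fun w : ℂ => φ n (ofComplex w)) {w | 0 < w.im}) {ζ : ℂ → ℝ}
    (hζ : ∀ f : ℍ → ℝ, Continuous f → (∀ γ ∈ Γ, ∀ z, f (γ • z) = f z) →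
        Berry.rAvg ρ D f = ∫ w, ζ w * f (ofComplex w)) {w : ℍ → ℝ} (hw : Continuous w)
    (hwi : ∀ γ ∈ Γ, ∀ z, w (γ • z) = w z) (r : ℕ) (k : Fin r → ℕ) (v : ∀ i, Fin (k i) → ℂ) :
    ∀ᶠ n in atTop, ∫ z, (ζ z * w (ofComplex z)) * angJet ρ (φ n) (m n) k v (ofComplex z)
      = ∫ p, w p.1 * jetProd k v (fun x => Berry.rWave ρ (φ n) (m n) x p)
        ∂(Berry.rFrameProb ρ D) := by
  filter_upwards [hφ.tendsto.eventually_gt_atTop 0] with n hn
  obtain ⟨hc, hc', hi⟩ := hInvg Γ ρ (φ n) (m n) hn hρc hg.inv (hφ.invariant n) (hs n) r k v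
  obtain ⟨C, hC⟩ := QJ.FUB.bounded (hφ.invariant n) hg.inv hK (m n) k v hc
  exact fub hg hK hζ hw hwi hc hC hc' hi

/-- the weighted test function -/
lemma test_mul {ζ : ℂ → ℝ} (h1 : ContDiff ℝ ∞ ζ) (h2 : HasCompactSupport ζ)
    (h3 : tsupport ζ ⊆ {w | 0 < w.im}) {f : ℂ → ℝ} (hf : ContDiffOn ℝ ∞ f {z | 0 < z.im}) :
    ContDiff ℝ ∞ (fun z => ζ z * f z) ∧ HasCompactSupport (fun z => ζ z * f z) ∧
      tsupport (fun z => ζ z * f z) ⊆ {w | 0 < w.im} := by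
  have hsub : tsupport (fun z => ζ z * f z) ⊆ tsupport ζ := closure_mono fun z hz => by
    simp only [Function.mem_support] at hz ⊢
    exact left_ne_zero_of_mul hz
  have ho : IsOpen {w : ℂ | 0 < w.im} := isOpen_lt continuous_const Complex.continuous_im
  refine ⟨?_, h2.mul_right, hsub.trans h3⟩
  rw [contDiff_iff_contDiffAt]
  intro z
  by_cases hz : z ∈ tsupport ζ
  · exact h1.contDiffAt.mul (hf.contDiffAt (ho.mem_nhds (h3 hz)))
  · have h4 : (fun z => ζ z * f z) =ᶠ[𝓝 z] fun _ => 0 := by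
      filter_upwards [(isClosed_tsupport ζ).isOpen_compl.mem_nhds hz] with y hy
      rw [image_eq_zero_of_notMem_tsupport hy, zero_mul]
    exact (contDiffAt_const (c := (0 : ℝ))).congr_of_eventuallyEq h4

end FNU

open FNU in
/-- FNU -/
theorem stmtFnU (hSrf : StmtSrf) (hE3g : StmtE3g) (hTest : QJ.StmtTest) (hPtsU : StmtPtsU)
    (hLogU : StmtLogU) (hInvg : QJ.StmtInvg) (hFub : QJ.StmtFub) : StmtFnU := by
  have _ := hFub
  intro Γ _ D ρ φ m hDm hD hK hρ hρΓ hneg hφ hs hq w hws hwi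
  have hρc : Continuous ρ := QJ.FINP.continuous_of_smooth hρ
  have hwc : Continuous w := QJ.FINP.continuous_of_smooth hws
  have hpc : ∀ n, Continuous (φ n) := fun n => QJ.FINP.continuous_of_smooth (hs n)
  have hgeo : Berry.Geo Γ ρ D := (Berry.surf_of_cocompact hD hDm hK hρc hρΓ hφ).geo
  obtain ⟨N, hmN, hloc⟩ := hSrf Γ D ρ φ m hDm hD hK hρ hρΓ hφ hs hq
  have hfac : QE.NC.Fac Γ ρ := ⟨hρ, hρΓ, hK⟩
  have hE : E3V {z | 0 < z.im} (fun z => Real.exp (2 * ρ (ofComplex z)) / z.im ^ 2)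
      (fun n => 1 / m (n + N)) (fun n z => (φ (n + N) (ofComplex z) : ℂ)) :=
    hE3g Γ ρ _ _ hfac hneg hloc
  obtain ⟨ζ, hζ1, hζ2, hζ3, -, hζ⟩ := hTest Γ ρ D hgeo hρ hK
  obtain ⟨t1, t2, t3⟩ := test_mul hζ1 hζ2 hζ3 hws
  obtain ⟨p1, p2, p3⟩ := hPtsU ρ (fun n => φ (n + N)) (fun n => m (n + N)) hρ hmN
    (fun n => hs (n + N)) hloc hE _ t1 t2 t3
  obtain ⟨q1, q2, q3, -⟩ := hLogU ρ (fun n => φ (n + N)) (fun n => m (n + N)) hρ hmN
    (fun n => hs (n + N)) hloc hE _ t1 t2 t3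
  have hmass : ∀ n, ∫ z, (ζ z * w (ofComplex z)) * φ n (ofComplex z) ^ 2
      = Berry.rAvg ρ D (fun z => w z * φ n z ^ 2) := by
    intro n
    rw [hζ (fun z => w z * φ n z ^ 2) (hwc.mul ((hpc n).pow 2))
      fun γ hγ z => by rw [hwi γ hγ, hφ.invariant n γ hγ]]
    refine integral_congr_ae (Eventually.of_forall fun z => ?_)
    simp only
    ring
  have kP : ∀ {k : ℕ} (x : Fin k → ℂ), ∀ᶠ n in atTop,
      ∫ z, (ζ z * w (ofComplex z)) * angProd ρ (φ (n + N)) (m (n + N)) x (ofComplex z)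
      = ∫ p, w p.1 * ∏ i, Berry.rWave ρ (φ (n + N)) (m (n + N)) (x i) p
        ∂(Berry.rFrameProb ρ D) := fun x =>
    (tendsto_add_atTop_nat N).eventually (keyP hgeo hK hρc hpc hφ hζ hwc hwi x)
  have kJ : ∀ (r : ℕ) (k : Fin r → ℕ) (v : ∀ i, Fin (k i) → ℂ), ∀ᶠ n in atTop,
      ∫ z, (ζ z * w (ofComplex z)) * angJet ρ (φ (n + N)) (m (n + N)) k v (ofComplex z)
      = ∫ p, w p.1 * jetProd k v (fun x => Berry.rWave ρ (φ (n + N)) (m (n + N)) x p)
        ∂(Berry.rFrameProb ρ D) := fun r k v =>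
    (tendsto_add_atTop_nat N).eventually (keyJ hInvg hgeo hK hρc hφ hs hζ hwc hwi r k v)
  refine ⟨fun x => ?_, fun x y => ?_, fun x y z => ?_, fun k v => ?_, fun k v => ?_,
    fun k v => ?_⟩
  · refine (tendsto_add_atTop_iff_nat N).1 ((p1 ![x]).congr' ?_)
    filter_upwards [kP ![x]] with n hn
    rw [hn]
    simp only [Fin.prod_univ_succ, Finset.univ_eq_empty, Finset.prod_empty, mul_one,
      Matrix.cons_val_zero]
  · refine (tendsto_add_atTop_iff_nat N).1 ((p2 ![x, y]).congr' ?_)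
    filter_upwards [kP ![x, y]] with n hn
    rw [hn, hmass]
    simp only [Fin.prod_univ_two, Matrix.cons_val_zero, Matrix.cons_val_one]
  · refine (tendsto_add_atTop_iff_nat N).1 ((p3 ![x, y, z]).congr' ?_)
    filter_upwards [kP ![x, y, z]] with n hn
    rw [hn]
    simp only [Fin.prod_univ_three, Matrix.cons_val_zero, Matrix.cons_val_one,
      Matrix.cons_val_two, Matrix.tail_cons, Matrix.head_cons]
  · refine (tendsto_add_atTop_iff_nat N).1 ((q1 k v).congr' ?_)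
    filter_upwards [kJ 1 k v] with n hn
    rw [hn]
  · refine (tendsto_add_atTop_iff_nat N).1 ((q2 k v).congr' ?_)
    filter_upwards [kJ 2 k v] with n hn
    rw [hn, hmass]
  · refine (tendsto_add_atTop_iff_nat N).1 ((q3 k v).congr' ?_)
    filter_upwards [kJ 3 k v] with n hn
    rw [hn]

end

end U3
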