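import Pool.Agent.U3.StmtsT
import Pool.Agent.QJ.LOCG

/-!
The local theorem for the local waves and for the directional derivatives of the eigenfunctions,
without quantum ergodicity.
-/

open MeasureTheory Filter Topology Set UpperHalfPlane MatrixGroups
open scoped ContDiff

namespace U3

open QE QJ

noncomputable section

namespace LOGU

theorem dz_add_left (f : ℂ → ℂ) (z : ℂ) : dz (fun y => f (z + y)) = fun y => dz f (z + y) := by
  funext y
  unfold dz
  rw [fderiv_comp_add_left]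

theorem dzb_add_left (f : ℂ → ℂ) (z : ℂ) : dzb (fun y => f (z + y)) = fun y => dzb f (z + y) := by
  funext y
  unfold dzb
  rw [fderiv_comp_add_left]

theorem iter_add_left (f : ℂ → ℂ) (z : ℂ) (a b : ℕ) :
    dz^[a] (dzb^[b] (fun y => f (z + y))) = fun y => dz^[a] (dzb^[b] f) (z + y) := by
  have hb : dzb^[b] (fun y => f (z + y)) = fun y => dzb^[b] f (z + y) := by
    induction b with
    | zero => rfl
    | succ b ih =>
      rw [Function.iterate_succ_apply', ih, dzb_add_left, Function.iterate_succ_apply']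
  rw [hb]
  induction a with
  | zero => rfl
  | succ a ih =>
    rw [Function.iterate_succ_apply', ih, dz_add_left, Function.iterate_succ_apply']

/-- the iterated derivative at a point of an open set, in terms of the Wirtinger derivatives -/
theorem iter_eq (hIter : StmtIter) {f : ℂ → ℝ} {U : Set ℂ} (hU : IsOpen U)
    (hf : ContDiffOn ℝ ∞ f U) {z : ℂ} (hz : z ∈ U) (k : ℕ) (v : Fin k → ℂ) :
    ((iteratedFDeriv ℝ k f z v : ℝ) : ℂ)
      = ∑ a ∈ Finset.range (k + 1), sc v a * dz^[a] (dzb^[k - a] (fun w => (f w : ℂ))) z := by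
  have hU' : IsOpen ((fun y => z + y) ⁻¹' U) := hU.preimage (continuous_const.add continuous_id)
  have h0 : (0 : ℂ) ∈ (fun y => z + y) ⁻¹' U := by simpa using hz
  have hF : ContDiffOn ℝ ∞ (fun y => f (z + y)) ((fun y => z + y) ⁻¹' U) :=
    hf.comp (contDiff_const.add contDiff_id).contDiffOn (fun y hy => hy)
  have h1 := hIter _ _ hU' h0 hF k v
  rw [iteratedFDeriv_comp_add_left] at h1
  simp only [add_zero] at h1
  rw [h1]
  refine Finset.sum_congr rfl fun a _ => ?_
  have h2 := congrFun (iter_add_left (fun w => ((f w : ℝ) : ℂ)) z a (k - a)) 0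
  simp only [add_zero] at h2
  rw [h2]

theorem contDiffOn_iter {f : ℂ → ℂ} {U : Set ℂ} (hU : IsOpen U) (hf : ContDiffOn ℝ ∞ f U)
    (a b : ℕ) : ContDiffOn ℝ ∞ (dz^[a] (dzb^[b] f)) U := by
  have h1 : ContDiffOn ℝ ∞ (dzb^[b] f) U := by
    induction b with
    | zero => exact hf
    | succ b ih =>
      rw [Function.iterate_succ_apply']
      exact contDiffOn_dzb hU ih
  induction a with
  | zero => exact h1
  | succ a ih =>
    rw [Function.iterate_succ_apply']
    exact contDiffOn_dz hU ih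

/-- the rescaled iterated derivative, in terms of the rescaled Wirtinger derivatives -/
theorem fac_eq (hIter : StmtIter) {g : ℂ → ℝ} {U : Set ℂ} (hU : IsOpen U)
    (hg : ∀ z ∈ U, 0 < g z) {φ : ℕ → ℂ → ℝ} {m : ℕ → ℝ} (n : ℕ)
    (hφ : ContDiffOn ℝ ∞ (φ n) U) {z : ℂ} (hz : z ∈ U) (k : ℕ) (v : Fin k → ℂ) :
    (((1 / m n) ^ k * iteratedFDeriv ℝ k (φ n) z v : ℝ) : ℂ)
      = ∑ a ∈ Finset.range (k + 1), sc v a * (((Real.sqrt (g z) ^ k : ℝ) : ℂ) *
        Wg g (fun n => 1 / m n) (fun n z => (φ n z : ℂ)) a (k - a) n z) := by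
  rw [Complex.ofReal_mul, iter_eq hIter hU hφ hz, Finset.mul_sum]
  refine Finset.sum_congr rfl fun a ha => ?_
  have ha' : a + (k - a) = k := by
    have := Finset.mem_range.mp ha
    omega
  have hs : Real.sqrt (g z) ≠ 0 := (Real.sqrt_pos.mpr (hg z hz)).ne'
  have h1 : ((Real.sqrt (g z) ^ k : ℝ) : ℂ) * (((Real.sqrt (g z))⁻¹ ^ k : ℝ) : ℂ) = 1 := by
    rw [← Complex.ofReal_mul, ← mul_pow, mul_inv_cancel₀ hs, one_pow, Complex.ofReal_one]
  unfold Wg W
  simp only [ha']
  rw [Complex.ofReal_pow (1 / m n) k]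
  calc ((1 / m n : ℝ) : ℂ) ^ k * (sc v a * dz^[a] (dzb^[k - a] fun w => (φ n w : ℂ)) z)
      = sc v a * (1 * (((1 / m n : ℝ) : ℂ) ^ k * dz^[a] (dzb^[k - a] fun w => (φ n w : ℂ)) z)) := by
        ring
    _ = _ := by
        rw [← h1]
        ring

theorem fourth (hLW : StmtLwU) (hIter : StmtIter) {g : ℂ → ℝ} {U : Set ℂ} (hU : IsOpen U)
    (hg1 : ContDiffOn ℝ ∞ g U) (hg : ∀ z ∈ U, 0 < g z) {φ : ℕ → ℂ → ℝ} {m : ℕ → ℝ}
    (hφ : ∀ n, ContDiffOn ℝ ∞ (φ n) U)
    (H : LocU U g (fun n => 1 / m n) (fun n z => (φ n z : ℂ)))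
    (H3 : E3V U g (fun n => 1 / m n) (fun n z => (φ n z : ℂ))) {ψ : ℂ → ℝ}
    (hψ : ContDiff ℝ ∞ ψ) (hψc : HasCompactSupport ψ) (hψs : tsupport ψ ⊆ U) (k : Fin 3 → ℕ)
    (v : ∀ i, Fin (k i) → ℂ) :
    Tendsto (fun n => ∫ z, ψ z * ∏ i, (1 / m n) ^ k i * iteratedFDeriv ℝ (k i) (φ n) z (v i))
      atTop (𝓝 0) := by
  have hT := LOCG.test_ofReal hψ hψc hψs
  have hsq : ContDiffOn ℝ ∞ (fun z => ((Real.sqrt (g z) ^ (∑ i, k i) : ℝ) : ℂ)) U :=
    Complex.ofRealCLM.contDiff.comp_contDiffOn ((hg1.sqrt fun z hz => (hg z hz).ne').pow _)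
  have hZ : Test U (fun z => (ψ z : ℂ) * ((Real.sqrt (g z) ^ (∑ i, k i) : ℝ) : ℂ)) := hT.mul hU hsq
  obtain ⟨-, -, L3⟩ := hLW U g _ _ hU hg1 hg H _ hZ
  have L3' := L3 H3
  have hW : ∀ (n a b : ℕ), ContinuousOn (fun z =>
      Wg g (fun n => 1 / m n) (fun n z => (φ n z : ℂ)) a b n z) U := by
    intro n a b
    unfold Wg W
    have h1 : ContDiffOn ℝ ∞ (fun w => ((φ n w : ℝ) : ℂ)) U :=
      Complex.ofRealCLM.contDiff.comp_contDiffOn (hφ n)
    have h2 : ContinuousOn (fun z => (((Real.sqrt (g z))⁻¹ ^ (a + b) : ℝ) : ℂ)) U := by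
      refine Complex.continuous_ofReal.comp_continuousOn (ContinuousOn.pow ?_ _)
      exact (Real.continuous_sqrt.comp_continuousOn hg1.continuousOn).inv₀
        fun z hz => (Real.sqrt_pos.mpr (hg z hz)).ne'
    exact h2.mul (continuousOn_const.mul (contDiffOn_iter hU h1 a b).continuousOn)
  apply LOCG.tendsto_real
  rw [Complex.ofReal_zero]
  have key : ∀ n, ((∫ z, ψ z * ∏ i, (1 / m n) ^ k i * iteratedFDeriv ℝ (k i) (φ n) z (v i) : ℝ) : ℂ)
      = ∑ a ∈ Fintype.piFinset fun i => Finset.range (k i + 1), (∏ i, sc (v i) (a i)) *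
        ∫ z, ((ψ z : ℂ) * ((Real.sqrt (g z) ^ (∑ i, k i) : ℝ) : ℂ)) *
          ∏ i, Wg g (fun n => 1 / m n) (fun n z => (φ n z : ℂ)) (a i) (k i - a i) n z := by
    intro n
    have e1 : ((∫ z, ψ z * ∏ i, (1 / m n) ^ k i * iteratedFDeriv ℝ (k i) (φ n) z (v i) : ℝ) : ℂ)
        = ∫ z, ∑ a ∈ Fintype.piFinset fun i => Finset.range (k i + 1), (∏ i, sc (v i) (a i)) *
          (((ψ z : ℂ) * ((Real.sqrt (g z) ^ (∑ i, k i) : ℝ) : ℂ)) *
          ∏ i, Wg g (fun n => 1 / m n) (fun n z => (φ n z : ℂ)) (a i) (k i - a i) n z) := by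
      refine (integral_complex_ofReal (f := fun z : ℂ => ψ z * ∏ i,
        (1 / m n) ^ k i * iteratedFDeriv ℝ (k i) (φ n) z (v i))).symm.trans ?_
      refine integral_congr_ae (Filter.Eventually.of_forall fun z => ?_)
      beta_reduce
      by_cases hz : z ∈ U
      · rw [Complex.ofReal_mul, Complex.ofReal_prod,
          Finset.prod_congr rfl fun i _ => fac_eq hIter hU hg n (hφ n) hz (k i) (v i),
          Finset.prod_univ_sum, Finset.mul_sum]
        refine Finset.sum_congr rfl fun a _ => ?_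
        rw [Finset.prod_mul_distrib, Finset.prod_mul_distrib, ← Complex.ofReal_prod,
          Finset.prod_pow_eq_pow_sum]
        ring
      · have h0 : ψ z = 0 := image_eq_zero_of_notMem_tsupport fun h => hz (hψs h)
        rw [h0]
        simp
    rw [e1, integral_finsetSum]
    · exact Finset.sum_congr rfl fun a _ => integral_const_mul _ _
    · intro a _
      exact (hZ.integrable_mul hU (continuousOn_finsetProd _ fun i _ => hW n _ _)).const_mul _
  simp only [key]
  have h3 := tendsto_finsetSum (Fintype.piFinset fun i => Finset.range (k i + 1))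
    (f := fun (a : Fin 3 → ℕ) (n : ℕ) => (∏ i, sc (v i) (a i)) *
        ∫ z, ((ψ z : ℂ) * ((Real.sqrt (g z) ^ (∑ i, k i) : ℝ) : ℂ)) *
          ∏ i, Wg g (fun n => 1 / m n) (fun n z => (φ n z : ℂ)) (a i) (k i - a i) n z)
    (a := fun _ => 0) (x := atTop) (fun a _ => by
      simpa using (L3' a fun i => k i - a i).const_mul (∏ i, sc (v i) (a i)))
  simpa using h3

end LOGU

open LOGU LOCG in
/-- LOGU: the local theorem for the derivatives of the local waves, and for the directional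
derivatives of the eigenfunctions -/
theorem stmtLogU (hMainU : StmtMainU) (hLwU : StmtLwU) (hPwt : QJ.StmtPwt) (hIter : QJ.StmtIter) :
    StmtLogU := by
  classical
  intro ρ φ m hρ hm hs H H3 ψ hψ hψc hψs
  have hU : IsOpen {z : ℂ | 0 < z.im} := isOpen_lt continuous_const Complex.continuous_im
  have hg1 : ContDiffOn ℝ ∞ (fun z : ℂ => Real.exp (2 * ρ (ofComplex z)) / z.im ^ 2)
      {z | 0 < z.im} := by
    apply ContDiffOn.div
    · exact Real.contDiff_exp.comp_contDiffOn (contDiffOn_const.mul hρ)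
    · exact (Complex.imCLM.contDiff.pow 2).contDiffOn
    · intro z hz
      have hz' : 0 < z.im := hz
      positivity
  have hg2 : ∀ z ∈ {z : ℂ | 0 < z.im}, 0 < Real.exp (2 * ρ (ofComplex z)) / z.im ^ 2 := by
    intro z hz
    have hz' : 0 < z.im := hz
    positivity
  have hT := test_ofReal hψ hψc hψs
  obtain ⟨L1, L2, L3⟩ := hLwU _ _ _ _ hU hg1 hg2 H _ hT
  have L3' := L3 H3
  -- the general principle
  have gen : ∀ (r : ℕ) (k : Fin r → ℕ) (v : ∀ i, Fin (k i) → ℂ) (L : (Fin r → ℕ) → ℕ → ℂ),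
      r ≤ 4 → (∀ a : Fin r → ℕ, ∑ i, ((a i : ℤ) - (k i - a i : ℕ)) = 0 →
        Tendsto (fun n => (∫ z, (ψ z : ℂ) * ∏ i,
          Wg (fun z => Real.exp (2 * ρ (ofComplex z)) / z.im ^ 2) (fun n => 1 / m n)
            (fun n z => (φ n (ofComplex z) : ℂ)) (a i) (k i - a i) n z) - L a n)
          atTop (𝓝 0)) →
      Tendsto (fun n => ((∫ z, ψ z * angJet ρ (φ n) (m n) k v (ofComplex z) : ℝ) : ℂ)
        - ∑ a ∈ Fintype.piFinset fun i => Finset.range (k i + 1),
          if ∑ i, ((a i : ℤ) - (k i - a i : ℕ)) = 0 then (∏ i, sc (v i) (a i)) * L a n else 0)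
        atTop (𝓝 0) := by
    intro r k v L hr hL
    have h1 := hMainU ρ φ m hρ hm hs H r k v hr ψ hψ hψc hψs
    have h2 : Tendsto (fun n => ∑ a ∈ Fintype.piFinset fun i => Finset.range (k i + 1),
        if ∑ i, ((a i : ℤ) - (k i - a i : ℕ)) = 0 then (∏ i, sc (v i) (a i)) *
          ((∫ z, (ψ z : ℂ) * ∏ i,
          Wg (fun z => Real.exp (2 * ρ (ofComplex z)) / z.im ^ 2) (fun n => 1 / m n)
            (fun n z => (φ n (ofComplex z) : ℂ)) (a i) (k i - a i) n z) - L a n) else 0)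
        atTop (𝓝 0) := by
      have h3 := tendsto_finsetSum (Fintype.piFinset fun i => Finset.range (k i + 1))
        (f := fun a n => if ∑ i, ((a i : ℤ) - (k i - a i : ℕ)) = 0 then (∏ i, sc (v i) (a i)) *
          ((∫ z, (ψ z : ℂ) * ∏ i,
          Wg (fun z => Real.exp (2 * ρ (ofComplex z)) / z.im ^ 2) (fun n => 1 / m n)
            (fun n z => (φ n (ofComplex z) : ℂ)) (a i) (k i - a i) n z) - L a n) else 0)
        (a := fun _ => 0) (x := atTop) (fun a _ => by
          by_cases ha : ∑ i, ((a i : ℤ) - (k i - a i : ℕ)) = 0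
          · simp only [ha, if_true]
            simpa using (hL a ha).const_mul (∏ i, sc (v i) (a i))
          · simp only [ha, if_false]
            exact tendsto_const_nhds)
      simpa using h3
    have h3 := h1.add h2
    rw [add_zero] at h3
    refine h3.congr fun n => ?_
    rw [sub_add_eq_add_sub, sub_eq_sub_iff_add_eq_add, add_assoc]
    congr 1
    rw [← Finset.sum_add_distrib]
    refine Finset.sum_congr rfl fun a _ => ?_
    split_ifs
    · ring
    · ring
  have hint : ∀ n, ∫ z, (ψ z : ℂ) * (φ n (ofComplex z) : ℂ) ^ 2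
      = ((∫ z, ψ z * φ n (ofComplex z) ^ 2 : ℝ) : ℂ) := by
    intro n
    refine (integral_congr_ae (Eventually.of_forall fun z => ?_)).trans integral_ofReal
    simp
  refine ⟨fun k v => ?_, fun k v => ?_, fun k v => ?_, fun k v => ?_⟩
  · -- order one
    apply tendsto_real
    have h1 := gen 1 k v (fun _ _ => 0) (by norm_num) (fun a ha => by
      have h3 := L1 (a 0) (k 0 - a 0)
      simp only [Fin.prod_univ_one, sub_zero]
      exact h3)
    simpa using h1
  · -- order two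
    apply tendsto_real
    have h1 := gen 2 k v (fun a n => (∏ i, cW (a i) (k i - a i))
        * QJ.P ((a 0 : ℤ) - (k 0 - a 0 : ℕ)) ((a 1 : ℤ) - (k 1 - a 1 : ℕ))
        * ∫ z, (ψ z : ℂ) * (φ n (ofComplex z) : ℂ) ^ 2)
      (by norm_num) (fun a ha => L2 a (fun i => k i - a i) ha)
    have h2 : ∀ n, ∑ a ∈ Fintype.piFinset fun i => Finset.range (k i + 1),
          (if ∑ i, ((a i : ℤ) - (k i - a i : ℕ)) = 0 then (∏ i, sc (v i) (a i)) *
            ((∏ i, cW (a i) (k i - a i))
        * QJ.P ((a 0 : ℤ) - (k 0 - a 0 : ℕ)) ((a 1 : ℤ) - (k 1 - a 1 : ℕ))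
        * ∫ z, (ψ z : ℂ) * (φ n (ofComplex z) : ℂ) ^ 2) else 0)
        = ((covar (v 0) (v 1) * ∫ z, ψ z * φ n (ofComplex z) ^ 2 : ℝ) : ℂ) := by
      intro n
      rw [Complex.ofReal_mul, hPwt, sum_two, Finset.sum_mul]
      refine Finset.sum_congr rfl fun x _ => ?_
      rw [Finset.sum_mul]
      refine Finset.sum_congr rfl fun y _ => ?_
      simp only [Fin.sum_univ_two, Fin.prod_univ_two, Matrix.cons_val_zero, Matrix.cons_val_one]
      split_ifs with h3
      · rw [hint]
        ring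
      · rw [P_zero h3]
        ring
    refine h1.congr fun n => ?_
    rw [h2 n, Complex.ofReal_sub]
  · -- order three
    apply tendsto_real
    have h1 := gen 3 k v (fun _ _ => 0) (by norm_num) (fun a ha => by
      have h3 := L3' a (fun i => k i - a i)
      simpa using h3)
    simpa using h1
  · -- directional derivatives
    exact fourth hLwU hIter hU hg1 hg2 (φ := fun n w => φ n (ofComplex w)) (m := m)
      (fun n => hs n) H H3 hψ hψc hψs k v

end

end U3
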