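import Pool.Agent.U3.StmtsT
import Pool.Agent.U3.StmtsG
import Pool.Agent.QJ.Dom
import Pool.Agent.QJ.LWE

/-!
Module LWEU: products of at most four mixed derivatives, multiplied by `h`, are small.
-/

open Complex MeasureTheory Filter Topology Set
open scoped ContDiff

namespace U3

open QE QJ

noncomputable section

open QJ.LWE in
/-- LWEU: the error terms -/
theorem stmtLweU (hGroA : StmtGroA) (hIntA : StmtIntA) (hSml : StmtSml) (hLcz : StmtLcz) :
    StmtLweU := by
  intro U g h φ hU hg hpos H K hK hKU r a b hr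
  obtain ⟨V, F, σ, φ', hKV, hVF, hFU, hF, hA⟩ := hLcz U g h φ hU hg hpos H K hK hKU
  have hL := hA.loc
  have hG := hGroA V σ h φ' hL
  have hS := hSml V σ h φ' hL
  have hsm : ∀ n, ContDiff ℝ ∞ (fun z => ∏ i, W h φ' (a i) (b i) n z) := fun n =>
    contDiff_prod fun i _ => contDiff_W hL.smφ (a i) (b i) n
  have h1 := (hIntA V h φ' (fun n z => ∏ i, W h φ' (a i) (b i) n z) hL.hpos hL.hlim hL.smφ hG
    hsm).2.2.2.2 ((bq_prod r a b).mono hr) hS K hK hKV
  refine h1.congr fun n => ?_
  congr 1
  apply setIntegral_congr_fun hK.measurableSet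
  intro z hz
  simp only
  congr 1
  exact Finset.prod_congr rfl fun i _ => W_congr hA.op hA.eφ (a i) (b i) n (hKV hz)

end

end U3
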