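import Pool.Agent.U3.StmtsT
import Pool.Agent.U3.StmtsG
import Pool.Agent.QJ.Dom
import Pool.Agent.QJ.LW
import Pool.Agent.QJ.TWO

/-!
Third order statistics of all eigenfunctions on surfaces of negative curvature: the local theorem for
mixed derivatives.
-/

open Complex MeasureTheory Filter Topology Set
open scoped ContDiff

namespace U3

open QE QJ

noncomputable section

namespace LWU

variable {V : Set ℂ} {σ : ℂ → ℝ} {h : ℕ → ℝ} {φ : ℕ → ℂ → ℂ}

/-- dominated sequences multiplied by `h` are small -/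
lemma hz (hIntA : StmtIntA) (L : LocB V σ h φ) (hG : GrowA V h φ) (hS : Small V h φ)
    {u : ℕ → ℂ → ℂ} (hu : ∀ n, ContDiff ℝ ∞ (u n)) (hB : Bq V h φ 4 u) : HZ V h u :=
  (hIntA V h φ u L.hpos L.hlim L.smφ hG hu).2.2.2.2 hB hS

lemma hlimC (L : LocB V σ h φ) : Tendsto (fun n => (h n : ℂ)) atTop (𝓝 0) := by
  have h1 := (Complex.continuous_ofReal.tendsto 0).comp L.hlim
  rw [Complex.ofReal_zero] at h1
  exact h1

/-- the error terms vanish -/
lemma err (hIntA : StmtIntA) (L : LocB V σ h φ) (hG : GrowA V h φ) (hS : Small V h φ) {r : ℕ}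
    (hr : r ≤ 4) {R : ℕ → ℂ → ℂ} (hR : Dom V h φ r R) {ζ : ℂ → ℂ} (hζ : Test V ζ) :
    Tendsto (fun n => ∫ z, ζ z * ((h n : ℂ) * R n z)) atTop (𝓝 0) := by
  have h1 := IBP.lim_test L.hpos hR.smooth (hz hIntA L hG hS hR.smooth (hR.bq.mono hr)) hζ
  refine h1.congr fun n => ?_
  rw [← integral_const_mul]
  congr 1
  funext z
  ring

/-- the products of the mixed derivatives and of the covariant jets -/
theorem main {g : ℂ → ℝ} {ψ : ℕ → ℂ → ℂ} (hIntA : StmtIntA) (hJetC : StmtJetC)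
    (hJetW : StmtJetW) (L : LocB V σ h ψ) (hG : GrowA V h ψ) (hS : Small V h ψ)
    (he : ∀ n, ∀ z ∈ V, ψ n z = φ n z) (hg : ∀ z ∈ V, g z = Real.exp (σ z) ^ 2) {ζ : ℂ → ℂ}
    (hζ : Test V ζ) {r : ℕ} (hr : r ≤ 4) (a b : Fin r → ℕ) :
    Tendsto (fun n => (∫ z, ζ z * ∏ i, Wg g h φ (a i) (b i) n z) -
      (∏ i, cW (a i) (b i)) * ∫ z, ζ z * ∏ i, E σ h ψ ((a i : ℤ) - b i) n z) atTop (𝓝 0) := by
  choose A hA hA2 using fun i => hJetW V σ h ψ L (a i) (b i)
  obtain ⟨h1, R, hR, hR2⟩ := LW.prod_expand (φ := ψ) L.op L.hlim r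
    (fun i n z => Wg g h φ (a i) (b i) n z)
    (fun i n z => cW (a i) (b i) * E σ h ψ ((a i : ℤ) - b i) n z) A
    (fun i => ((hJetC V σ h ψ L _).1).smul L.op _) hA
    (fun i n z hz => by
      rw [LW.Wg_eq L.op he hg _ _ n hz, hA2 i n z hz]
      rfl)
  refine (err hIntA L hG hS hr hR hζ).congr fun n => ?_
  have e1 : ∫ z, ζ z * ∏ i, Wg g h φ (a i) (b i) n z =
      ∫ z, ζ z * (∏ i, (cW (a i) (b i) * E σ h ψ ((a i : ℤ) - b i) n z) + (h n : ℂ) * R n z) :=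
    LW.int_congr hζ fun z hz => hR2 n z hz
  have e2 : (∏ i, cW (a i) (b i)) * ∫ z, ζ z * ∏ i, E σ h ψ ((a i : ℤ) - b i) n z =
      ∫ z, ζ z * ∏ i, (cW (a i) (b i) * E σ h ψ ((a i : ℤ) - b i) n z) := by
    rw [← integral_const_mul]
    congr 1
    funext z
    rw [Finset.prod_mul_distrib]
    ring
  rw [e1, e2, ← integral_sub]
  · congr 1
    funext z
    ring
  · exact test_int hζ ((h1.smooth n).continuous.add
      (continuous_const.mul (hR.smooth n).continuous))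
  · exact test_int hζ (h1.smooth n).continuous

/-- one jet -/
lemma one (hIntA : StmtIntA) (hIbpA : StmtIbpA) (hJ : StmtJetC) (L : LocB V σ h φ)
    (hG : GrowA V h φ) (hS : Small V h φ) {ζ : ℂ → ℂ} (hζ : Test V ζ) (j : ℤ) :
    Tendsto (fun n => ∫ z, ζ z * E σ h φ j n z) atTop (𝓝 0) := by
  obtain ⟨i, rfl⟩ : ∃ i : ℤ, j = i + 1 := ⟨j - 1, by ring⟩
  obtain ⟨dj, ⟨A1, hA1, h1⟩, -⟩ := hJ V σ h φ L i
  obtain ⟨dj1, -, -⟩ := hJ V σ h φ L (i + 1)
  have i1 := (hIbpA V σ h _ i L.op L.sm L.hpos dj.smooth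
    (hz hIntA L hG hS dj.smooth (dj.mono (by norm_num : 1 ≤ 4)).bq) ζ hζ).1
  have i2 := (hlimC L).mul (IBP.lim_test L.hpos hA1.smooth
    (hz hIntA L hG hS hA1.smooth (hA1.mono (by norm_num : 1 ≤ 4)).bq) hζ)
  have i3 := i1.sub i2
  rw [mul_zero, sub_zero] at i3
  refine i3.congr fun n => ?_
  have e : ∀ z, ζ z * ((h n : ℂ) * D σ i (E σ h φ i n) z)
      = ζ z * E σ h φ (i + 1) n z + (h n : ℂ) ^ 2 * (ζ z * A1 n z) := by
    intro z
    by_cases hz : z ∈ V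
    · rw [h1 n z hz]; ring
    · rw [TWO.zero_off hζ hz]; ring
  have k1 : Integrable (fun z => ζ z * E σ h φ (i + 1) n z) :=
    hζ.integrable_mul L.op (dj1.smooth n).continuous.continuousOn
  have k2 : Integrable (fun z => ζ z * A1 n z) :=
    hζ.integrable_mul L.op (hA1.smooth n).continuous.continuousOn
  simp only [e]
  rw [integral_add k1 (k2.const_mul _), integral_const_mul]
  ring

/-- two jets: the recursion -/
lemma rec_step (hIntA : StmtIntA) (hIbpA : StmtIbpA) (hJ : StmtJetC) (L : LocB V σ h φ)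
    (hG : GrowA V h φ) (hS : Small V h φ) {ζ : ℂ → ℂ} (hζ : Test V ζ) (j m : ℤ) :
    Tendsto (fun n => TWO.I2 σ h φ ζ (j + 1) m n + TWO.I2 σ h φ ζ j (m + 1) n) atTop (𝓝 0) := by
  have hσ := L.sm
  obtain ⟨dj, ⟨A1, hA1, h1⟩, -⟩ := hJ V σ h φ L j
  obtain ⟨dm, ⟨A2, hA2, h2⟩, -⟩ := hJ V σ h φ L m
  obtain ⟨dj1, -, -⟩ := hJ V σ h φ L (j + 1)
  obtain ⟨dm1, -, -⟩ := hJ V σ h φ L (m + 1)
  have du : Dom V h φ 2 (fun n z => E σ h φ j n z * E σ h φ m n z) := dj.mul L.op dm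
  have dB : Dom V h φ 2 (fun n z => A1 n z * E σ h φ m n z + E σ h φ j n z * A2 n z) :=
    (hA1.mul L.op dm).add L.op (dj.mul L.op hA2)
  have i1 := (hIbpA V σ h _ (j + m) L.op L.sm L.hpos du.smooth
    (hz hIntA L hG hS du.smooth (du.mono (by norm_num : 2 ≤ 4)).bq) ζ hζ).1
  have i2 := (hlimC L).mul (IBP.lim_test L.hpos dB.smooth
    (hz hIntA L hG hS dB.smooth (dB.mono (by norm_num : 2 ≤ 4)).bq) hζ)
  have i3 := i1.sub i2
  rw [mul_zero, sub_zero] at i3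
  refine i3.congr fun n => ?_
  have e : ∀ z, ζ z * ((h n : ℂ) * D σ (j + m) (fun z => E σ h φ j n z * E σ h φ m n z) z)
      = (ζ z * (E σ h φ (j + 1) n z * E σ h φ m n z) + ζ z * (E σ h φ j n z * E σ h φ (m + 1) n z))
        + (h n : ℂ) ^ 2 * (ζ z * (A1 n z * E σ h φ m n z + E σ h φ j n z * A2 n z)) := by
    intro z
    by_cases hz : z ∈ V
    · rw [D_mul hσ j m (cd_at (dj.smooth n) z) (cd_at (dm.smooth n) z)]
      linear_combination ζ z * E σ h φ m n z * h1 n z hz + ζ z * E σ h φ j n z * h2 n z hz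
    · rw [TWO.zero_off hζ hz]; ring
  have k1 : Integrable (fun z => ζ z * (E σ h φ (j + 1) n z * E σ h φ m n z)) :=
    hζ.integrable_mul L.op ((dj1.smooth n).mul (dm.smooth n)).continuous.continuousOn
  have k2 : Integrable (fun z => ζ z * (E σ h φ j n z * E σ h φ (m + 1) n z)) :=
    hζ.integrable_mul L.op ((dj.smooth n).mul (dm1.smooth n)).continuous.continuousOn
  have k3 : Integrable (fun z => ζ z * (A1 n z * E σ h φ m n z + E σ h φ j n z * A2 n z)) :=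
    hζ.integrable_mul L.op (dB.smooth n).continuous.continuousOn
  have k12 : Integrable (fun z => ζ z * (E σ h φ (j + 1) n z * E σ h φ m n z)
      + ζ z * (E σ h φ j n z * E σ h φ (m + 1) n z)) := k1.add k2
  unfold TWO.I2
  simp only [e]
  rw [integral_add k12 (k3.const_mul _), integral_add k1 k2, integral_const_mul]
  ring

/-- two jets -/
lemma two (hIntA : StmtIntA) (hIbpA : StmtIbpA) (hJ : StmtJetC) (L : LocB V σ h φ)
    (hG : GrowA V h φ) (hS : Small V h φ) {ζ : ℂ → ℂ} (hζ : Test V ζ) (j : ℤ) : ∀ m : ℤ,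
    Tendsto (fun n => TWO.I2 σ h φ ζ j m n - (-1) ^ j * TWO.I2 σ h φ ζ 0 (j + m) n)
      atTop (𝓝 0) := by
  have hr := rec_step hIntA hIbpA hJ L hG hS hζ
  induction j using Int.induction_on with
  | zero =>
    intro m
    simp
  | succ j ih =>
    intro m
    have i1 := (hr j m).sub (ih (m + 1))
    rw [sub_zero] at i1
    refine i1.congr fun n => ?_
    have e1 : ((j : ℤ) + (m + 1)) = (j : ℤ) + 1 + m := by ring
    rw [e1, zpow_add_one₀ (by norm_num : (-1 : ℂ) ≠ 0)]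
    ring
  | pred j ih =>
    intro m
    have i1 := (hr (-(j : ℤ) - 1) (m - 1)).sub (ih (m - 1))
    rw [sub_zero] at i1
    refine i1.congr fun n => ?_
    have e1 : -(j : ℤ) - 1 + 1 = -(j : ℤ) := by ring
    have e2 : m - 1 + 1 = m := by ring
    have e3 : -(j : ℤ) + (m - 1) = -(j : ℤ) - 1 + m := by ring
    rw [e1, e2, e3, zpow_sub_one₀ (by norm_num : (-1 : ℂ) ≠ 0)]
    have e4 : ((-1 : ℂ))⁻¹ = -1 := by norm_num
    rw [e4]
    ring

end LWU

open LWU in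
theorem stmtLwU (hGroA : StmtGroA) (hIntA : StmtIntA) (hIbpA : StmtIbpA) (hJetC : StmtJetC)
    (hJetW : StmtJetW) (hSml : StmtSml) (hLcz : StmtLcz) : StmtLwU := by
  intro U g h φ hU hg hgp H ζ hζ
  obtain ⟨V, F, σ, ψ, hKV, -, -, -, hA⟩ := hLcz U g h φ hU hg hgp H (tsupport ζ) hζ.supp hζ.sub
  have L := hA.loc
  have hζV : Test V ζ := ⟨hζ.smooth, hζ.supp, hKV⟩
  have hG := hGroA V σ h ψ L
  have hS := hSml V σ h ψ L
  have hgV : ∀ z ∈ V, g z = Real.exp (σ z) ^ 2 := by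
    intro z hz
    rw [← hA.eg z hz, ← Real.exp_nat_mul]
    norm_num
  have key : ∀ {r : ℕ} (_ : r ≤ 4) (a b : Fin r → ℕ), Tendsto (fun n =>
      (∫ z, ζ z * ∏ i, Wg g h φ (a i) (b i) n z) -
      (∏ i, cW (a i) (b i)) * ∫ z, ζ z * ∏ i, E σ h ψ ((a i : ℤ) - b i) n z) atTop (𝓝 0) :=
    fun hr a b => main hIntA hJetC hJetW L hG hS hA.eφ hgV hζV hr a b
  refine ⟨?_, ?_, ?_⟩
  · intro a b
    have k1 := key (r := 1) (by norm_num) (fun _ => a) (fun _ => b)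
    have k2 := one hIntA hIbpA hJetC L hG hS hζV ((a : ℤ) - b)
    have k3 := k1.add (k2.const_mul (cW a b))
    simp only [Fin.prod_univ_one, mul_zero, add_zero] at k3
    refine k3.congr fun n => ?_
    ring
  · intro a b hab
    have k1 := key (r := 2) (by norm_num) a b
    have k2 := two hIntA hIbpA hJetC L hG hS hζV ((a 0 : ℤ) - b 0) ((a 1 : ℤ) - b 1)
    have k3 := k1.add (k2.const_mul (∏ i, cW (a i) (b i)))
    rw [mul_zero, add_zero] at k3
    refine k3.congr fun n => ?_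
    have hab' : ((a 0 : ℤ) - b 0) + ((a 1 : ℤ) - b 1) = 0 := by
      rw [← hab, Fin.sum_univ_two]
    have e1 : TWO.I2 σ h ψ ζ 0 0 n = ∫ z, ζ z * φ n z ^ 2 := by
      unfold TWO.I2
      refine LW.int_congr hζV fun z hz => ?_
      have e3 : E σ h ψ 0 n z = ψ n z := rfl
      rw [e3, hA.eφ n z hz]
      ring
    have e2 : QJ.P ((a 0 : ℤ) - b 0) ((a 1 : ℤ) - b 1) = (-1) ^ ((a 0 : ℤ) - b 0) := by
      unfold QJ.P
      rw [if_pos hab']
    rw [hab', e1, e2]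
    have e4 : TWO.I2 σ h ψ ζ ((a 0 : ℤ) - b 0) ((a 1 : ℤ) - b 1) n =
        ∫ z, ζ z * ∏ i, E σ h ψ ((a i : ℤ) - b i) n z := by
      unfold TWO.I2
      simp only [Fin.prod_univ_two]
    rw [e4]
    ring
  · intro hE a b
    have k1 := key (r := 3) (by norm_num) a b
    have k2 := hE V σ ψ hA ζ hζV ((a 0 : ℤ) - b 0) ((a 1 : ℤ) - b 1) ((a 2 : ℤ) - b 2)
    have k3 := k1.add (k2.const_mul (∏ i, cW (a i) (b i)))
    rw [mul_zero, add_zero] at k3
    refine k3.congr fun n => ?_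
    have e1 : E3 σ h ψ ζ ((a 0 : ℤ) - b 0) ((a 1 : ℤ) - b 1) ((a 2 : ℤ) - b 2) n =
        ∫ z, ζ z * ∏ i, E σ h ψ ((a i : ℤ) - b i) n z := by
      unfold E3
      simp only [Fin.prod_univ_three]
    rw [e1]
    ring

end

end U3
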