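import Pool.Agent.U3.StmtsT
import Pool.Agent.LibH11.QEV.Wrap

/-!
PTSU: the local theorem for the local waves at distinct points, without quantum ergodicity.
-/

open MeasureTheory Filter Topology Set UpperHalfPlane MatrixGroups
open scoped ContDiff

namespace U3

open QE QJ

noncomputable section

namespace PTSU

/-- the derivative in terms of the Wirtinger derivatives -/
lemma fderiv_eq (f : ℂ → ℂ) (w v : ℂ) :
    fderiv ℝ f w v = dz f w * v + dzb f w * (starRingEnd ℂ) v := by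
  have h1 : v = v.re • (1 : ℂ) + v.im • Complex.I := by
    apply Complex.ext <;> simp
  have h2 : fderiv ℝ f w v = (v.re : ℂ) * fderiv ℝ f w 1 + (v.im : ℂ) * fderiv ℝ f w Complex.I := by
    conv_lhs => rw [h1]
    rw [map_add, map_smul, map_smul, Complex.real_smul, Complex.real_smul]
  rw [h2]
  have h3 : (v : ℂ) = (v.re : ℂ) + (v.im : ℂ) * Complex.I := (Complex.re_add_im v).symm
  have h4 : (starRingEnd ℂ) v = (v.re : ℂ) - (v.im : ℂ) * Complex.I := by
    apply Complex.ext <;> simp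
  unfold dz dzb
  rw [h4]
  conv_rhs => rw [h3]
  simp only [Complex.add_re, Complex.ofReal_re, Complex.mul_re, Complex.I_re, mul_zero,
    Complex.ofReal_im, Complex.I_im, mul_one, sub_self, add_zero, Complex.add_im, Complex.mul_im,
    zero_add]
  linear_combination ((v.im : ℂ) * fderiv ℝ f w Complex.I) * Complex.I_mul_I

/-- the mean value inequality at the scale `h` -/
lemma diff_le {Φ : ℂ → ℂ} {U : Set ℂ} (hU : IsOpen U) (hΦ : ContDiffOn ℝ ∞ Φ U) {h R M : ℝ} {z : ℂ}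
    (hb : ∀ y : ℂ, ‖y‖ ≤ R → z + h * y ∈ U ∧ ‖(h : ℂ) * dz Φ (z + h * y)‖ ≤ M ∧
      ‖(h : ℂ) * dzb Φ (z + h * y)‖ ≤ M) {y₁ y₂ : ℂ} (h1 : ‖y₁‖ ≤ R) (h2 : ‖y₂‖ ≤ R) :
    ‖Φ (z + h * y₁) - Φ (z + h * y₂)‖ ≤ 2 * M * ‖y₁ - y₂‖ := by
  have hder : ∀ y : ℂ, ‖y‖ ≤ R → HasFDerivAt (fun y : ℂ => Φ (z + h * y))
      ((fderiv ℝ Φ (z + h * y)).comp ((h : ℂ) • ContinuousLinearMap.id ℝ ℂ)) y := by
    intro y hy
    have e1 : HasFDerivAt Φ (fderiv ℝ Φ (z + h * y)) (z + h * y) :=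
      (((hΦ _ (hb y hy).1).contDiffAt (hU.mem_nhds (hb y hy).1)).differentiableAt
        (by simp)).hasFDerivAt
    have e2 : HasFDerivAt (fun y : ℂ => z + (h : ℂ) * y)
        ((h : ℂ) • ContinuousLinearMap.id ℝ ℂ) y :=
      ((hasFDerivAt_id (𝕜 := ℝ) y).const_mul (h : ℂ)).const_add z
    exact e1.comp y e2
  have hM : 0 ≤ M := (norm_nonneg _).trans (hb y₁ h1).2.1
  have key := (convex_closedBall (0 : ℂ) R).norm_image_sub_le_of_norm_hasFDerivWithin_le
    (𝕜 := ℝ) (f := fun y : ℂ => Φ (z + h * y)) (C := 2 * M)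
    (f' := fun y => (fderiv ℝ Φ (z + h * y)).comp ((h : ℂ) • ContinuousLinearMap.id ℝ ℂ))
    (fun y hy => (hder y (by simpa using hy)).hasFDerivWithinAt) ?_
    (x := y₂) (y := y₁) (by simpa using h2) (by simpa using h1)
  · exact key
  · intro y hy
    have hy' : ‖y‖ ≤ R := by simpa using hy
    obtain ⟨-, b1, b2⟩ := hb y hy'
    refine ContinuousLinearMap.opNorm_le_bound _ (by positivity) fun v => ?_
    have e3 : ((fderiv ℝ Φ (z + h * y)).comp ((h : ℂ) • ContinuousLinearMap.id ℝ ℂ)) v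
        = ((h : ℂ) * dz Φ (z + h * y)) * v + ((h : ℂ) * dzb Φ (z + h * y)) * (starRingEnd ℂ) v := by
      change fderiv ℝ Φ (z + h * y) ((h : ℂ) * v) = _
      rw [fderiv_eq, map_mul, Complex.conj_ofReal]
      ring
    rw [e3]
    refine (norm_add_le _ _).trans ?_
    rw [norm_mul _ v, norm_mul _ ((starRingEnd ℂ) v), RCLike.norm_conj]
    have := norm_nonneg v
    nlinarith

/-- the difference of two products -/
lemma prod_diff {ι : Type*} (s : Finset ι) (a b : ι → ℂ) {M δ : ℝ} (hM : 1 ≤ M) (hδ : 0 ≤ δ)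
    (ha : ∀ i, ‖a i‖ ≤ M) (hb : ∀ i, ‖b i‖ ≤ M) (hd : ∀ i, ‖a i - b i‖ ≤ δ) :
    ‖∏ i ∈ s, a i - ∏ i ∈ s, b i‖ ≤ s.card * (δ * M ^ s.card) ∧ ‖∏ i ∈ s, a i‖ ≤ M ^ s.card := by
  classical
  have hM0 : 0 ≤ M := by linarith
  induction s using Finset.induction_on with
  | empty => simp
  | insert i s hi ih =>
    obtain ⟨ih1, ih2⟩ := ih
    rw [Finset.prod_insert hi, Finset.prod_insert hi, Finset.card_insert_of_notMem hi]
    constructor
    · have e1 : a i * ∏ j ∈ s, a j - b i * ∏ j ∈ s, b j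
          = (a i - b i) * ∏ j ∈ s, a j + b i * (∏ j ∈ s, a j - ∏ j ∈ s, b j) := by ring
      rw [e1]
      refine (norm_add_le _ _).trans ?_
      rw [norm_mul, norm_mul]
      have hp : 0 ≤ M ^ s.card := by positivity
      have h1 : ‖a i - b i‖ * ‖∏ j ∈ s, a j‖ ≤ δ * M ^ s.card :=
        mul_le_mul (hd i) ih2 (norm_nonneg _) hδ
      have h2 : ‖b i‖ * ‖∏ j ∈ s, a j - ∏ j ∈ s, b j‖ ≤ M * (s.card * (δ * M ^ s.card)) :=
        mul_le_mul (hb i) ih1 (norm_nonneg _) hM0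
      have h3 : δ * M ^ s.card ≤ δ * M ^ (s.card + 1) := by
        rw [pow_succ]
        have : 0 ≤ δ * M ^ s.card := by positivity
        nlinarith
      push_cast
      calc _ ≤ δ * M ^ s.card + M * (s.card * (δ * M ^ s.card)) := add_le_add h1 h2
        _ ≤ δ * M ^ (s.card + 1) + M * (s.card * (δ * M ^ s.card)) := by linarith
        _ = _ := by ring
    · rw [norm_mul, pow_succ, mul_comm]
      exact mul_le_mul ih2 (ha i) (norm_nonneg _) (by positivity)

/-- the frames up to `O(h)` -/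
lemma frXi_sub {h : ℕ → ℝ} {e : ℂ → ℝ} {M : ℝ} {x : ℂ} {n : ℕ} (hpos : 0 < h n) (θ : ℝ) {z : ℂ}
    (hM : |e z| ≤ M) (hn : h n * (‖x‖ * M) < 1 / 2) :
    ‖frXi h e x n θ z - uu θ ^ 2 * x‖ ≤ 2 * ‖x‖ * (h n * (‖x‖ * M)) := by
  have hM0 : 0 ≤ M := (abs_nonneg _).trans hM
  have h1 : ‖(h n : ℂ) * x * uu θ * Real.sin θ * e z‖ ≤ h n * (‖x‖ * M) := by
    have h1 := norm_c_le hpos.le x θ
    rw [norm_mul _ ((e z : ℝ) : ℂ), Complex.norm_real, Real.norm_eq_abs, ← mul_assoc]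
    exact mul_le_mul h1 hM (abs_nonneg _) (by have := hpos.le; positivity)
  set c := (h n : ℂ) * x * uu θ * Real.sin θ * e z with hc
  have h2 : 1 / 2 ≤ ‖1 + c‖ := by
    have h2 := norm_sub_norm_le (1 : ℂ) (-c)
    rw [norm_one, norm_neg, sub_neg_eq_add] at h2
    linarith
  have hne : (1 + c) ≠ 0 := by
    intro h0; rw [h0, norm_zero] at h2; linarith
  have e1 : frXi h e x n θ z - uu θ ^ 2 * x = -(x * uu θ ^ 2 * c / (1 + c)) := by
    have e0 : frXi h e x n θ z = x * uu θ ^ 2 / (1 + c) := rfl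
    rw [e0]
    field_simp
    ring
  rw [e1, norm_neg, norm_div, norm_mul, norm_mul, norm_pow, norm_uu, one_pow, mul_one,
    div_le_iff₀ (by linarith)]
  have hx := norm_nonneg x
  calc ‖x‖ * ‖c‖ ≤ ‖x‖ * (h n * (‖x‖ * M)) := by gcongr
    _ = (2 * ‖x‖ * (h n * (‖x‖ * M))) * (1 / 2) := by ring
    _ ≤ (2 * ‖x‖ * (h n * (‖x‖ * M))) * ‖1 + c‖ := by
        have := hpos.le
        exact mul_le_mul_of_nonneg_left h2 (by positivity)

/-- the local waves and the products at displaced points -/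
lemma compare (hDsu : StmtDsuU) {ρ : ℍ → ℝ} {φ : ℕ → ℍ → ℝ} {m : ℕ → ℝ}
    (hρ : ContDiffOn ℝ ∞ (fun w : ℂ => ρ (ofComplex w)) {w | 0 < w.im})
    (hL : LocU HH (gw ρ) (fun n => 1 / m n) (fun n z => (φ n (ofComplex z) : ℂ)))
    {ψ : ℂ → ℝ} (hψ : ContDiff ℝ ∞ ψ) (hψs : HasCompactSupport ψ) (hψU : tsupport ψ ⊆ HH)
    {r : ℕ} (hr : r ≤ 3) (x : Fin r → ℂ) :
    Tendsto (fun n => ((∫ z, ψ z * angProd ρ (φ n) (m n) x (ofComplex z) : ℝ) : ℂ)
      - ∫ θ, (∫ z, (ψ z : ℂ) * PD (gw ρ) (fun n => 1 / m n) (fun n z => (φ n (ofComplex z) : ℂ))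
          x n θ z) ∂angle) atTop (𝓝 0) := by
  set h : ℕ → ℝ := fun n => 1 / m n with hh
  set Φ : ℕ → ℂ → ℂ := fun n z => (φ n (ofComplex z) : ℂ) with hΦ
  set K := tsupport ψ with hKdef
  have hKc : IsCompact K := hψs
  have hpos : ∀ n, 0 < h n := hL.hpos
  have hlim : Tendsto h atTop (𝓝 0) := hL.hlim
  have hmpos : ∀ n, 0 < m n := fun n => one_div_pos.1 (hpos n)
  -- the coefficients
  have heS : ContDiffOn ℝ ∞ (em ρ) HH := Real.contDiff_exp.comp_contDiffOn hρ.neg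
  have haS : ContDiffOn ℝ ∞ (wt (gw ρ)) HH := by
    have h1 : ContDiffOn ℝ ∞ (fun z : ℂ => (z.im : ℂ) * (em ρ z : ℂ)) HH :=
      (Complex.ofRealCLM.contDiff.comp Complex.imCLM.contDiff).contDiffOn.mul
        (Complex.ofRealCLM.contDiff.comp_contDiffOn heS)
    exact h1.congr fun z hz => wt_gw hz
  have hgS : ContDiffOn ℝ ∞ (gw ρ) HH := by
    refine ContDiffOn.div (Real.contDiff_exp.comp_contDiffOn (contDiffOn_const.mul hρ))
      (Complex.imCLM.contDiff.contDiffOn.pow 2) fun z hz => ?_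
    have : (0 : ℝ) < z.im := hz
    exact (pow_pos this 2).ne'
  have hgpos : ∀ z ∈ HH, 0 < gw ρ z := fun z hz => by
    have : (0 : ℝ) < z.im := hz
    exact div_pos (Real.exp_pos _) (pow_pos this 2)
  obtain ⟨A, hA⟩ := hKc.exists_bound_of_continuousOn (haS.continuousOn.mono hψU)
  obtain ⟨M, hM⟩ := hKc.exists_bound_of_continuousOn (heS.continuousOn.mono hψU)
  obtain ⟨B, hB⟩ := hKc.exists_bound_of_continuousOn (f := ψ) hψ.continuous.continuousOn
  obtain ⟨L, hLip⟩ := lip_of_smooth isOpen_HH haS hKc hψU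
  -- enlarge the constants
  set A' := |A| with hA'
  set M' := |M| with hM'
  set B' := |B| with hB'
  have hA2 : ∀ z ∈ K, ‖wt (gw ρ) z‖ ≤ A' := fun z hz => (hA z hz).trans (le_abs_self A)
  have hM2 : ∀ z ∈ K, |em ρ z| ≤ M' := fun z hz => (hM z hz).trans (le_abs_self M)
  have hB2 : ∀ z ∈ K, ‖ψ z‖ ≤ B' := fun z hz => (hB z hz).trans (le_abs_self B)
  have hA0 : 0 ≤ A' := abs_nonneg _
  have hM0 : 0 ≤ M' := abs_nonneg _
  have hB0 : 0 ≤ B' := abs_nonneg _
  set X : ℝ := ∑ i, ‖x i‖ with hX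
  have hX0 : 0 ≤ X := Finset.sum_nonneg fun _ _ => norm_nonneg _
  have hxX : ∀ i, ‖x i‖ ≤ X := fun i =>
    Finset.single_le_sum (f := fun i => ‖x i‖) (fun _ _ => norm_nonneg _) (Finset.mem_univ i)
  set R : ℝ := 2 * A' * X with hR
  obtain ⟨S, hS1, hSc, hSb, hSl⟩ := hDsu HH (gw ρ) h Φ isOpen_HH hgS hgpos hL K hKc hψU R
  have hdisp : ∀ i, Disp h (wt (gw ρ)) K 2 (x i) (frXi h (em ρ) (x i)) := fun i =>
    disp_frame hpos hlim hLip (b := fun z => z.im) (fun z _ w _ => by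
      have := Complex.abs_im_le_norm (z - w)
      rwa [Complex.sub_im] at this) (fun z hz => wt_gw (hψU hz))
      (heS.continuousOn.mono hψU) hM2 (x i)
  have hcont : ∀ᶠ n in atTop, ∀ i, ContinuousOn (fun p : ℝ × ℂ => frXi h (em ρ) (x i) n p.1 p.2)
      (univ ×ˢ K) := eventually_all.2 fun i => (hdisp i).cont
  have hsmall : ∀ᶠ n in atTop, h n * (X * M') < 1 / 2 := by
    have := hlim.mul_const (X * M')
    rw [zero_mul] at this
    exact this.eventually_lt_const (by norm_num)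
  set C : ℝ := 2 * A' * X * (X * M') with hC
  have hC0 : 0 ≤ C := by positivity
  -- the bound
  have hbound : ∀ᶠ n in atTop, ‖((∫ z, ψ z * angProd ρ (φ n) (m n) x (ofComplex z) : ℝ) : ℂ)
      - ∫ θ, (∫ z, (ψ z : ℂ) * PD (gw ρ) h Φ x n θ z) ∂angle‖
      ≤ B' * (6 * C) * (h n * ∫ z in K, S n z ^ 2) := by
    filter_upwards [hSb, hcont, hsmall] with n n1 n2 n3
    set y₁ : Fin r → ℝ → ℂ → ℂ := fun i θ z => wt (gw ρ) z * frXi h (em ρ) (x i) n θ z with hy₁
    set y₂ : Fin r → ℝ → ℂ → ℂ := fun i θ z => wt (gw ρ) z * (uu θ ^ 2 * x i) with hy₂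
    have hn := (hpos n).le
    have hxs : ∀ i, h n * (‖x i‖ * M') < 1 / 2 := fun i => by
      refine lt_of_le_of_lt ?_ n3
      have := hxX i
      gcongr
    have hsub : ∀ i θ, ∀ z ∈ K, ‖frXi h (em ρ) (x i) n θ z - uu θ ^ 2 * x i‖
        ≤ 2 * X * (h n * (X * M')) := fun i θ z hz => by
      refine (frXi_sub (hpos n) θ (hM2 z hz) (hxs i)).trans ?_
      have := hxX i
      gcongr
    have hu2 : ∀ i θ, ‖uu θ ^ 2 * x i‖ ≤ X := fun i θ => by
      rw [norm_mul, norm_pow, norm_uu, one_pow, one_mul]; exact hxX i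
    have hy2R : ∀ i θ, ∀ z ∈ K, ‖y₂ i θ z‖ ≤ R := fun i θ z hz => by
      simp only [hy₂, norm_mul]
      rw [← norm_mul (uu θ ^ 2) (x i)]
      calc ‖wt (gw ρ) z‖ * ‖uu θ ^ 2 * x i‖ ≤ A' * X :=
            mul_le_mul (hA2 z hz) (hu2 i θ) (norm_nonneg _) hA0
        _ ≤ R := by rw [hR]; nlinarith [mul_nonneg hA0 hX0]
    have hy12 : ∀ i θ, ∀ z ∈ K, ‖y₁ i θ z - y₂ i θ z‖ ≤ C * h n := fun i θ z hz => by
      simp only [hy₁, hy₂, ← mul_sub, norm_mul]
      calc ‖wt (gw ρ) z‖ * ‖frXi h (em ρ) (x i) n θ z - uu θ ^ 2 * x i‖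
          ≤ A' * (2 * X * (h n * (X * M'))) :=
            mul_le_mul (hA2 z hz) (hsub i θ z hz) (norm_nonneg _) hA0
        _ = C * h n := by rw [hC]; ring
    have hy1R : ∀ i θ, ∀ z ∈ K, ‖y₁ i θ z‖ ≤ R := fun i θ z hz => by
      simp only [hy₁, norm_mul]
      have e1 : ‖frXi h (em ρ) (x i) n θ z‖ ≤ 2 * X := by
        have e2 : frXi h (em ρ) (x i) n θ z
            = (frXi h (em ρ) (x i) n θ z - uu θ ^ 2 * x i) + uu θ ^ 2 * x i := by ring
        rw [e2]
        refine (norm_add_le _ _).trans ?_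
        have e3 := hsub i θ z hz
        have e4 := hu2 i θ
        nlinarith
      calc ‖wt (gw ρ) z‖ * ‖frXi h (em ρ) (x i) n θ z‖ ≤ A' * (2 * X) :=
            mul_le_mul (hA2 z hz) e1 (norm_nonneg _) hA0
        _ = R := by rw [hR]; ring
    -- the two functions
    set H₁ : ℝ × ℂ → ℂ := fun p => (ψ p.2 : ℂ) * ∏ i, Φ n (p.2 + h n * y₁ i p.1 p.2) with hH₁
    set H₂ : ℝ × ℂ → ℂ := fun p => (ψ p.2 : ℂ) * ∏ i, Φ n (p.2 + h n * y₂ i p.1 p.2) with hH₂
    have cΦ : ContinuousOn (Φ n) HH := (hL.smooth n).continuousOn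
    have ca : ContinuousOn (fun p : ℝ × ℂ => wt (gw ρ) p.2) (univ ×ˢ K) :=
      (haS.continuousOn.mono hψU).comp continuousOn_snd fun p hp => hp.2
    have cψ : ContinuousOn (fun p : ℝ × ℂ => (ψ p.2 : ℂ)) (univ ×ˢ K) :=
      (Complex.continuous_ofReal.comp (hψ.continuous.comp continuous_snd)).continuousOn
    have cu : Continuous fun p : ℝ × ℂ => uu p.1 := continuous_uu.comp continuous_fst
    have cH₁ : ContinuousOn H₁ (univ ×ˢ K) := by
      refine cψ.mul (continuousOn_finsetProd _ fun i _ => ?_)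
      refine cΦ.comp (continuousOn_snd.add (continuousOn_const.mul (ca.mul (n2 i))))
        fun p hp => ?_
      exact (n1 p.2 hp.2 _ (hy1R i p.1 p.2 hp.2)).1
    have cH₂ : ContinuousOn H₂ (univ ×ˢ K) := by
      refine cψ.mul (continuousOn_finsetProd _ fun i _ => ?_)
      refine cΦ.comp (continuousOn_snd.add (continuousOn_const.mul
        (ca.mul ((cu.pow 2).mul continuous_const).continuousOn))) fun p hp => ?_
      exact (n1 p.2 hp.2 _ (hy2R i p.1 p.2 hp.2)).1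
    -- the first integral
    have hset : ∀ f : ℂ → ℝ, ∫ z, ψ z * f z = ∫ z in K, ψ z * f z := by
      intro f
      rw [setIntegral_eq_integral_of_forall_compl_eq_zero]
      intro z hz
      rw [image_eq_zero_of_notMem_tsupport hz, zero_mul]
    have hset' : ∀ f : ℂ → ℂ, ∫ z, (ψ z : ℂ) * f z = ∫ z in K, (ψ z : ℂ) * f z := by
      intro f
      rw [setIntegral_eq_integral_of_forall_compl_eq_zero]
      intro z hz
      rw [image_eq_zero_of_notMem_tsupport hz]; simp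
    have hval : ∀ i θ, ∀ z ∈ K, Berry.rWave ρ (φ n) (m n) (x i) (ofComplex z, θ)
        = φ n (ofComplex (z + h n * y₁ i θ z)) := fun i θ z hz => by
      have hx1 : ‖x i / ((m n * Real.exp (ρ (ofComplex z)) : ℝ) : ℂ)‖ < 1 := by
        have e1 : x i / ((m n * Real.exp (ρ (ofComplex z)) : ℝ) : ℂ)
            = x i * ((h n * em ρ z : ℝ) : ℂ) := by
          have e2 : (h n * em ρ z : ℝ) = (m n * Real.exp (ρ (ofComplex z)))⁻¹ := by
            simp only [hh, QE.em]
            rw [Real.exp_neg, mul_inv, one_div]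
          rw [e2, Complex.ofReal_inv, div_eq_mul_inv]
        rw [e1, norm_mul, Complex.norm_real, Real.norm_eq_abs, abs_mul, abs_of_pos (hpos n)]
        have e3 := hM2 z hz
        have e4 := hxX i
        calc ‖x i‖ * (h n * |em ρ z|) ≤ X * (h n * M') := by gcongr
          _ = h n * (X * M') := by ring
          _ < 1 := by linarith
      have := rWave_eq_disp (hmpos n) (x i) θ (hψU hz) hx1 (n := n) (h := h) rfl
        (a := wt (gw ρ)) (wt_gw (hψU hz)) (φ := φ n)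
      rw [this]
      simp only [hy₁]
      rw [mul_assoc]
      rfl
    have e1 : ((∫ z, ψ z * angProd ρ (φ n) (m n) x (ofComplex z) : ℝ) : ℂ)
        = ∫ θ, (∫ z in K, H₁ (θ, z)) ∂ang := by
      have e0 := integral_integral_swap (f := fun θ z => H₁ (θ, z)) (int_ang hKc cH₁)
      rw [e0, hset]
      refine (integral_ofReal (𝕜 := ℂ) (μ := volume.restrict K) (f := fun z : ℂ => ψ z
        * angProd ρ (φ n) (m n) x (ofComplex z))).symm.trans ?_
      refine setIntegral_congr_fun hKc.measurableSet fun z hz => ?_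
      change ((ψ z * angProd ρ (φ n) (m n) x (ofComplex z) : ℝ) : ℂ) = ∫ θ, H₁ (θ, z) ∂ang
      rw [Complex.ofReal_mul]
      have e2 : ((angProd ρ (φ n) (m n) x (ofComplex z) : ℝ) : ℂ)
          = ∫ θ, ∏ i, Φ n (z + h n * y₁ i θ z) ∂ang := by
        unfold angProd
        refine (integral_ofReal (𝕜 := ℂ) (μ := ang) (f := fun θ : ℝ => ∏ i,
          Berry.rWave ρ (φ n) (m n) (x i) (ofComplex z, θ))).symm.trans ?_
        congr 1
        funext θ
        change ((∏ i, Berry.rWave ρ (φ n) (m n) (x i) (ofComplex z, θ) : ℝ) : ℂ) = _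
        rw [Complex.ofReal_prod]
        refine Finset.prod_congr rfl fun i _ => ?_
        rw [hval i θ z hz]
      rw [e2, ← integral_const_mul]
    have e3 : ∫ θ, (∫ z, (ψ z : ℂ) * PD (gw ρ) h Φ x n θ z) ∂angle
        = ∫ θ, (∫ z in K, H₂ (θ, z)) ∂ang := by
      congr 1
      funext θ
      rw [hset']
      congr 1
      funext z
      simp only [hH₂, PD, hy₂]
      congr 1
      refine Finset.prod_congr rfl fun i _ => ?_
      congr 1
      unfold wt
      push_cast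
      ring
    have iθ₁ := int_ang_left hKc cH₁
    have iθ₂ := int_ang_left hKc cH₂
    rw [e1, e3, ← integral_sub iθ₁ iθ₂]
    have hSint : IntegrableOn (fun z => S n z ^ 2) K :=
      ((hSc n).pow 2).continuousOn.integrableOn_compact hKc
    have hin : ∀ θ, ‖(∫ z in K, H₁ (θ, z)) - ∫ z in K, H₂ (θ, z)‖
        ≤ B' * (6 * C) * (h n * ∫ z in K, S n z ^ 2) := by
      intro θ
      rw [← integral_sub ((sec_cont cH₁ θ).integrableOn_compact hKc)
        ((sec_cont cH₂ θ).integrableOn_compact hKc)]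
      have e5 : B' * (6 * C) * (h n * ∫ z in K, S n z ^ 2)
          = ∫ z in K, (B' * (6 * C) * h n) * S n z ^ 2 := by
        rw [integral_const_mul]; ring
      rw [e5]
      refine norm_integral_le_of_norm_le (hSint.const_mul _) ?_
      refine (ae_restrict_iff' hKc.measurableSet).2 (Eventually.of_forall fun z hz => ?_)
      have hs1 := hS1 n z
      have hs0 : 0 ≤ S n z := by linarith
      set Q := Real.sqrt (S n z) with hQ
      have hQ1 : 1 ≤ Q := Real.one_le_sqrt.2 hs1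
      have hQ2 : Q ^ 2 = S n z := Real.sq_sqrt hs0
      have hQ0 : 0 ≤ Q := by linarith
      have hle : ∀ w : ℂ, ‖w‖ ^ 2 ≤ S n z → ‖w‖ ≤ Q := fun w hw => Real.le_sqrt_of_sq_le hw
      have hd := fun i => diff_le isOpen_HH (hL.smooth n) (h := h n) (R := R) (M := Q) (z := z)
        (fun y hy => ⟨(n1 z hz y hy).1, hle _ (n1 z hz y hy).2.2.1, hle _ (n1 z hz y hy).2.2.2⟩)
        (hy1R i θ z hz) (hy2R i θ z hz)
      have hd' : ∀ i, ‖Φ n (z + h n * y₁ i θ z) - Φ n (z + h n * y₂ i θ z)‖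
          ≤ 2 * Q * (C * h n) := fun i => (hd i).trans (by
        have := hy12 i θ z hz
        gcongr)
      obtain ⟨hp, -⟩ := prod_diff Finset.univ (fun i => Φ n (z + h n * y₁ i θ z))
        (fun i => Φ n (z + h n * y₂ i θ z)) hQ1 (δ := 2 * Q * (C * h n)) (by positivity)
        (fun i => hle _ (n1 z hz _ (hy1R i θ z hz)).2.1)
        (fun i => hle _ (n1 z hz _ (hy2R i θ z hz)).2.1) hd'
      rw [Finset.card_univ, Fintype.card_fin] at hp
      have e6 : H₁ (θ, z) - H₂ (θ, z) = (ψ z : ℂ) * (∏ i, Φ n (z + h n * y₁ i θ z)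
          - ∏ i, Φ n (z + h n * y₂ i θ z)) := by
        simp only [hH₁, hH₂]; ring
      rw [e6, norm_mul, Complex.norm_real]
      have hpow : Q ^ r ≤ Q ^ 3 := pow_le_pow_right₀ hQ1 hr
      have hr3 : (r : ℝ) ≤ 3 := by exact_mod_cast hr
      have hCh : 0 ≤ C * h n := mul_nonneg hC0 hn
      have hp2 : (r : ℝ) * (2 * Q * (C * h n) * Q ^ r) ≤ 6 * C * h n * S n z ^ 2 := by
        calc (r : ℝ) * (2 * Q * (C * h n) * Q ^ r) ≤ 3 * (2 * Q * (C * h n) * Q ^ 3) := by
              gcongr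
          _ = 6 * C * h n * (Q ^ 2) ^ 2 := by ring
          _ = 6 * C * h n * S n z ^ 2 := by rw [hQ2]
      calc ‖ψ z‖ * ‖∏ i, Φ n (z + h n * y₁ i θ z) - ∏ i, Φ n (z + h n * y₂ i θ z)‖
          ≤ B' * (6 * C * h n * S n z ^ 2) :=
            mul_le_mul (hB2 z hz) (hp.trans hp2) (norm_nonneg _) hB0
        _ = B' * (6 * C) * h n * S n z ^ 2 := by ring
    have hfin := norm_integral_le_of_norm_le_const (μ := ang) (Eventually.of_forall hin)
    simpa using hfin
  refine squeeze_zero_norm' hbound ?_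
  have := hSl.const_mul (B' * (6 * C))
  simpa using this

end PTSU

/-- PTSU: the local theorem for the local waves at distinct points -/
theorem stmtPtsU (hTlU : StmtTlU) (hDsuU : StmtDsuU) : StmtPtsU := by
  intro ρ φ m hρ _ _ hL hE ψ hψ hψs hψU
  have hL' : LocU HH (gw ρ) (fun n => 1 / m n) (fun n z => (φ n (ofComplex z) : ℂ)) := hL
  have hgS : ContDiffOn ℝ ∞ (gw ρ) HH := by
    refine ContDiffOn.div (Real.contDiff_exp.comp_contDiffOn (contDiffOn_const.mul hρ))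
      (Complex.imCLM.contDiff.contDiffOn.pow 2) fun z hz => ?_
    have : (0 : ℝ) < z.im := hz
    exact (pow_pos this 2).ne'
  have hgpos : ∀ z ∈ HH, 0 < gw ρ z := fun z hz => by
    have : (0 : ℝ) < z.im := hz
    exact div_pos (Real.exp_pos _) (pow_pos this 2)
  have hT : Test HH (fun z => (ψ z : ℂ)) := by
    refine ⟨Complex.ofRealCLM.contDiff.comp hψ, ?_, ?_⟩
    · exact hψs.comp_left (g := fun t : ℝ => (t : ℂ)) (by simp)
    · refine (closure_mono ?_ : _ ⊆ tsupport ψ).trans hψU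
      intro z hz hz0
      apply hz
      simp [hz0]
  obtain ⟨t1, t2, t3⟩ := hTlU HH (gw ρ) _ _ isOpen_HH hgS hgpos hL' _ hT
  have t3' := t3 hE
  have key : ∀ {r : ℕ} (_ : r ≤ 3) (x : Fin r → ℂ) (c : ℕ → ℝ),
      Tendsto (fun n => (∫ θ, (∫ z, (ψ z : ℂ) * PD (gw ρ) (fun n => 1 / m n)
        (fun n z => (φ n (ofComplex z) : ℂ)) x n θ z) ∂angle) - (c n : ℂ)) atTop (𝓝 0) →
      Tendsto (fun n => (∫ z, ψ z * angProd ρ (φ n) (m n) x (ofComplex z)) - c n) atTop (𝓝 0) := by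
    intro r hr x c hc
    have h1 := PTSU.compare hDsuU hρ hL' hψ hψs hψU hr x
    have h2 := h1.add hc
    simp only [sub_add_sub_cancel, add_zero] at h2
    have h3 := (Complex.continuous_re.tendsto _).comp h2
    simpa [Function.comp_def] using h3
  refine ⟨fun x => ?_, fun x => ?_, fun x => ?_⟩
  · simpa using key (by norm_num) x (fun _ => 0) (by simpa using t1 x)
  · refine key (by norm_num) x _ ?_
    refine (t2 x).congr fun n => ?_
    congr 1
    have hint : ∫ z, (ψ z : ℂ) * (φ n (ofComplex z) : ℂ) ^ 2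
        = ((∫ z, ψ z * φ n (ofComplex z) ^ 2 : ℝ) : ℂ) := by
      refine Eq.trans ?_ (integral_ofReal (𝕜 := ℂ) (μ := volume)
        (f := fun z : ℂ => ψ z * φ n (ofComplex z) ^ 2))
      refine integral_congr_ae (Eventually.of_forall fun z => ?_)
      simp
    rw [hint]
    push_cast
    rfl
  · simpa using key le_rfl x (fun _ => 0) (by simpa using t3' x)

end

end U3
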