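import Pool.Agent.U3.StmtsT
import Pool.Agent.QJ.Dom
import Pool.Agent.U3.JETC

/-!
Cubic statistics at distinct points: the translation relations (REL).
-/

open MeasureTheory Filter Topology Set
open scoped ContDiff

namespace U3

open QJ QE

noncomputable section

namespace REL

variable {V : Set ℂ} {σ : ℂ → ℝ} {h : ℕ → ℝ} {φ : ℕ → ℂ → ℂ}

/-! ### Conjugation -/

lemma conj_E (L : LocB V σ h φ) (j : ℤ) (n : ℕ) (z : ℂ) :
    (starRingEnd ℂ) (E σ h φ j n z) = (-1) ^ j * E σ h φ (-j) n z := by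
  obtain ⟨m, rfl | rfl⟩ := j.eq_nat_or_neg
  · rw [JETA.E_nat, U3.JETA.E_neg L m, zpow_natCast, ← mul_assoc, ← mul_pow]
    norm_num
  · rw [U3.JETA.E_neg L m, neg_neg, JETA.E_nat, zpow_neg, zpow_natCast]
    simp only [map_mul, map_pow, map_neg, map_one, Complex.conj_conj]
    rw [← inv_pow]
    norm_num

/-! ### The chain rule -/

lemma fderiv_eq (f : ℂ → ℂ) (p u : ℂ) :
    fderiv ℝ f p u = dz f p * u + dzb f p * (starRingEnd ℂ) u := by
  have h1 : u = (u.re : ℝ) • (1 : ℂ) + (u.im : ℝ) • Complex.I := by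
    apply Complex.ext <;> simp
  have h2 : fderiv ℝ f p u = u.re • fderiv ℝ f p 1 + u.im • fderiv ℝ f p Complex.I := by
    conv_lhs => rw [h1]
    rw [map_add, map_smul, map_smul]
  rw [h2]
  have h3 : u = (u.re : ℂ) + (u.im : ℂ) * Complex.I := (Complex.re_add_im u).symm
  have h4 : (starRingEnd ℂ) u = (u.re : ℂ) - (u.im : ℂ) * Complex.I := by
    apply Complex.ext <;> simp
  rw [h4]
  nth_rewrite 3 [h3]
  unfold dz dzb
  simp only [Complex.real_smul]
  linear_combination ((u.im : ℂ) * fderiv ℝ f p Complex.I) * Complex.I_sq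

lemma dz_comp_disp {f η : ℂ → ℂ} (hf : ContDiff ℝ ∞ f) (hη : ContDiff ℝ ∞ η)
    (hr : ∀ z, (starRingEnd ℂ) (η z) = η z) (y z : ℂ) :
    dz (fun w => f (w + η w * y)) z =
      dz f (z + η z * y) * (1 + dz η z * y) +
        dzb f (z + η z * y) * (dz η z * (starRingEnd ℂ) y) := by
  have hd : HasFDerivAt (fun w => w + η w * y)
      (ContinuousLinearMap.id ℝ ℂ + (fderiv ℝ η z).smulRight y) z := by
    have h1 := (hasFDerivAt_id (𝕜 := ℝ) z).add ((cd_at hη z).hasFDerivAt.smul_const y)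
    exact h1
  have hc : HasFDerivAt (fun w => f (w + η w * y))
      ((fderiv ℝ f (z + η z * y)).comp
        (ContinuousLinearMap.id ℝ ℂ + (fderiv ℝ η z).smulRight y)) z :=
    HasFDerivAt.comp z (cd_at hf (z + η z * y)).hasFDerivAt hd
  have hv : ∀ v : ℂ, fderiv ℝ (fun w => f (w + η w * y)) z v =
      dz f (z + η z * y) * (v + fderiv ℝ η z v * y) +
        dzb f (z + η z * y) * ((starRingEnd ℂ) v + fderiv ℝ η z v * (starRingEnd ℂ) y) := by
    intro v
    rw [hc.fderiv]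
    have h1 : ((fderiv ℝ f (z + η z * y)).comp
        (ContinuousLinearMap.id ℝ ℂ + (fderiv ℝ η z).smulRight y)) v =
        fderiv ℝ f (z + η z * y) (v + fderiv ℝ η z v * y) := rfl
    rw [h1, fderiv_eq]
    have h2 : (starRingEnd ℂ) (fderiv ℝ η z v) = fderiv ℝ η z v := by
      have h3 := fderiv_conj (cd_at hη z) v
      have h4 : (fun w => (starRingEnd ℂ) (η w)) = η := funext hr
      rw [h4] at h3
      exact h3.symm
    rw [map_add, map_mul, h2]
  have e1 : dz (fun w => f (w + η w * y)) z = (1 / 2) *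
      (fderiv ℝ (fun w => f (w + η w * y)) z 1 -
        Complex.I * fderiv ℝ (fun w => f (w + η w * y)) z Complex.I) := rfl
  rw [e1, hv, hv]
  have e2 : dz η z = (1 / 2) * (fderiv ℝ η z 1 - Complex.I * fderiv ℝ η z Complex.I) := rfl
  rw [e2, map_one (starRingEnd ℂ), Complex.conj_I]
  linear_combination (-(1 / 2) * dz f (z + η z * y) + (1 / 2) * dzb f (z + η z * y)) *
    Complex.I_sq

/-! ### The derivative of a displaced jet -/

lemma Aj_fun (σ : ℂ → ℝ) (h : ℕ → ℝ) (n : ℕ) (z : ℂ) :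
    ((h n * Real.exp (-σ z) : ℝ) : ℂ) = (h n : ℂ) * ex σ (-1) z := by
  unfold ex
  push_cast
  ring_nf

lemma dz_sm (hσ : ContDiff ℝ ∞ σ) (c z : ℂ) :
    dz (fun w => c * ex σ (-1) w) z =
      -(c * (dz (fun w => (σ w : ℂ)) z * ex σ (-1) z)) := by
  rw [dz_const_mul c (cd_at (contDiff_ex hσ _) z), dz_ex hσ]
  push_cast
  ring

/-- the displaced point -/
def dp (σ : ℂ → ℝ) (h : ℕ → ℝ) (n : ℕ) (y z : ℂ) : ℂ := z + (h n : ℂ) * ex σ (-1) z * y

lemma contDiff_dp (hσ : ContDiff ℝ ∞ σ) (n : ℕ) (y : ℂ) : ContDiff ℝ ∞ (dp σ h n y) :=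
  contDiff_id.add ((contDiff_const.mul (contDiff_ex hσ _)).mul contDiff_const)

/-- the coefficient of the derivative of the jet coming from the connection -/
def Bc (σ : ℂ → ℝ) (h : ℕ → ℝ) (φ : ℕ → ℂ → ℂ) (j : ℤ) (n : ℕ) (z : ℂ) : ℂ :=
  2 * j * ex σ (-1) z * dz (fun w => (σ w : ℂ)) z * E σ h φ j n z

lemma step (hσ : ContDiff ℝ ∞ σ) {j : ℤ} {n : ℕ} {a : ℂ} (hE : ContDiff ℝ ∞ (E σ h φ j n))
    (y z : ℂ)
    (hA : (h n : ℂ) * D σ j (E σ h φ j n) (dp σ h n y z) =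
      E σ h φ (j + 1) n (dp σ h n y z) + (h n : ℂ) ^ 2 * a) :
    2 * (h n : ℂ) * ex σ (-1) z * dz (fun w => E σ h φ j n (dp σ h n y w)) z =
      E σ h φ (j + 1) n (dp σ h n y z) + ((h n : ℂ) ^ 2 * a +
        (h n : ℂ) * Bc σ h φ j n (dp σ h n y z) +
        2 * (ex σ (-1) z - ex σ (-1) (dp σ h n y z)) *
          ((h n : ℂ) * dz (E σ h φ j n) (dp σ h n y z)) -
        2 * (h n : ℂ) * (ex σ (-1) z * ex σ (-1) z * dz (fun w => (σ w : ℂ)) z) *
          (y * ((h n : ℂ) * dz (E σ h φ j n) (dp σ h n y z)) +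
            (starRingEnd ℂ) y * ((h n : ℂ) * dzb (E σ h φ j n) (dp σ h n y z)))) := by
  have h1 := dz_comp_disp hE (η := fun w => (h n : ℂ) * ex σ (-1) w)
    (contDiff_const.mul (contDiff_ex hσ _))
    (fun w => by simp only [map_mul, Complex.conj_ofReal, conj_ex]) y z
  rw [dz_sm hσ] at h1
  have h2 : (fun w => E σ h φ j n (dp σ h n y w)) =
      fun w => E σ h φ j n (w + (h n : ℂ) * ex σ (-1) w * y) := rfl
  rw [h2, h1]
  rw [D_eq hσ j (cd_at hE _)] at hA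
  unfold Bc dp at *
  linear_combination hA

/-! ### Domination of the displaced functions -/

lemma disp (hDsp : StmtDspB) (L : LocB V σ h φ) {K : Set ℂ} (hK : IsCompact K) (hKV : K ⊆ V)
    (R : ℝ) {ι : Type} (s : Finset ι) (u : ι → ℕ → ℂ → ℂ) (hu : ∀ i ∈ s, Bq V h φ 1 (u i)) :
    ∃ (S : ℕ → ℂ → ℝ) (c : ℝ), 0 ≤ c ∧ (∀ n z, 1 ≤ S n z) ∧ (∀ n, Continuous (S n)) ∧
      (∀ᶠ n in atTop, ∀ z ∈ K, ∀ y : ℂ, ‖y‖ ≤ R → z + h n * y ∈ V ∧
        ∀ i ∈ s, ‖u i n (z + h n * y)‖ ≤ c * √(S n z)) ∧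
      Tendsto (fun n => h n * ∫ z in K, S n z ^ 2) atTop (𝓝 0) := by
  obtain ⟨δ, hδ, hδV⟩ := hK.exists_cthickening_subset_open L.op hKV
  have hK' : IsCompact (Metric.cthickening δ K) := hK.cthickening
  choose! N C hC0 hC using fun i (hi : i ∈ s) => (hu i hi).pos hK' hδV
  obtain ⟨S, hS1, hSc, hS, hlim⟩ := hDsp V σ h φ L K hK hKV (s.sup N) R
  have hCs : ∀ i ∈ s, C i ≤ ∑ k ∈ s, C k := fun i hi =>
    Finset.single_le_sum (f := C) (fun k hk => (hC0 k hk).le) hi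
  have hC0' : 0 ≤ ∑ k ∈ s, C k := Finset.sum_nonneg fun k hk => (hC0 k hk).le
  refine ⟨S, √(∑ k ∈ s, C k), Real.sqrt_nonneg _, hS1, hSc, ?_, hlim⟩
  have e1 : ∀ᶠ n in atTop, ∀ i ∈ s, ∀ z ∈ Metric.cthickening δ K,
      ‖u i n z‖ ^ 2 ≤ C i * RR h φ (s.sup N) n z ^ 1 := by
    rw [Filter.eventually_all_finset]
    intro i hi
    exact hC i hi _ (Finset.le_sup hi)
  have e2 : ∀ᶠ n in atTop, h n * |R| < δ := by
    have h1 : Tendsto (fun n => h n * |R|) atTop (𝓝 (0 * |R|)) := L.hlim.mul_const _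
    rw [zero_mul] at h1
    exact h1.eventually (gt_mem_nhds hδ)
  filter_upwards [hS, e1, e2] with n h1 h2 h3 z hz y hy
  obtain ⟨h4, h5⟩ := h1 z hz y hy
  refine ⟨h4, fun i hi => ?_⟩
  have hmem : z + h n * y ∈ Metric.cthickening δ K := by
    refine Metric.mem_cthickening_of_dist_le _ z δ K hz ?_
    rw [dist_eq_norm, add_sub_cancel_left, norm_mul, Complex.norm_real,
      Real.norm_of_nonneg (L.hpos n).le]
    have : h n * ‖y‖ ≤ h n * |R| :=
      mul_le_mul_of_nonneg_left (hy.trans (le_abs_self R)) (L.hpos n).le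
    linarith
  have h6 := h2 i hi _ hmem
  rw [pow_one] at h6
  have h7 : ‖u i n (z + h n * y)‖ ^ 2 ≤ (∑ k ∈ s, C k) * S n z := by
    refine h6.trans ?_
    exact mul_le_mul (hCs i hi) h5 (RR_pos h φ _ n _).le hC0'
  rw [← Real.sqrt_mul hC0']
  exact Real.le_sqrt_of_sq_le h7

lemma lip_ex (hσ : ContDiff ℝ ∞ σ) {K : Set ℂ} (hK : IsCompact K) (R : ℝ) :
    ∃ Λ : ℝ, 0 ≤ Λ ∧ ∀ z ∈ K, ∀ v : ℂ, ‖v‖ ≤ R →
      ‖ex σ (-1) z - ex σ (-1) (z + v)‖ ≤ Λ * ‖v‖ := by
  obtain ⟨ρ, hρ⟩ := hK.isBounded.subset_closedBall (0 : ℂ)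
  have hcc : IsCompact (Metric.closedBall (0 : ℂ) (ρ + |R|)) := isCompact_closedBall _ _
  have hcont : Continuous (fderiv ℝ (ex σ (-1))) :=
    (contDiff_ex hσ (-1)).continuous_fderiv (by simp)
  obtain ⟨Λ, hΛ⟩ := hcc.exists_bound_of_continuousOn hcont.continuousOn
  refine ⟨max Λ 0, le_max_right _ _, fun z hz v hv => ?_⟩
  have hz1 : ‖z‖ ≤ ρ := by simpa using hρ hz
  have hz2 : z ∈ Metric.closedBall (0 : ℂ) (ρ + |R|) := by
    rw [mem_closedBall_zero_iff]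
    have := abs_nonneg R
    linarith
  have hz3 : z + v ∈ Metric.closedBall (0 : ℂ) (ρ + |R|) := by
    rw [mem_closedBall_zero_iff]
    have := norm_add_le z v
    have := le_abs_self R
    linarith
  have h1 := (convex_closedBall (0 : ℂ) (ρ + |R|)).norm_image_sub_le_of_norm_fderiv_le (𝕜 := ℝ)
    (f := ex σ (-1)) (C := max Λ 0) (fun x _ => cd_at (contDiff_ex hσ _) x)
    (fun x hx => (hΛ x hx).trans (le_max_left _ _)) hz3 hz2
  rw [sub_add_cancel_left, norm_neg] at h1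
  exact h1

/-! ### The pointwise estimate -/

lemma dz_prod {r : ℕ} (G : Fin r → ℂ → ℂ) (hG : ∀ k, ContDiff ℝ ∞ (G k)) (z : ℂ) :
    dz (fun w => ∏ k, G k w) z = ∑ i, dz (G i) z * ∏ k ∈ Finset.univ.erase i, G k z := by
  have h1 := HasFDerivAt.finsetProd (u := Finset.univ) (g := G)
    (g' := fun i => fderiv ℝ (G i) z) (x := z) (fun i _ => (cd_at (hG i) z).hasFDerivAt)
  have h2 : dz (fun w => ∏ k, G k w) z = (1 / 2) * (fderiv ℝ (fun w => ∏ k, G k w) z 1 -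
      Complex.I * fderiv ℝ (fun w => ∏ k, G k w) z Complex.I) := rfl
  rw [h2, h1.fderiv]
  simp only [sum_apply, smul_apply, smul_eq_mul]
  rw [Finset.mul_sum, ← Finset.sum_sub_distrib, Finset.mul_sum]
  refine Finset.sum_congr rfl fun i _ => ?_
  unfold dz
  ring

lemma step_le (hσ : ContDiff ℝ ∞ σ) {j : ℤ} {n : ℕ} {a : ℂ} (hE : ContDiff ℝ ∞ (E σ h φ j n))
    {y z : ℂ} {b M P X Λ : ℝ} (_hb : 0 ≤ b) (hM : 0 ≤ M) (hP : 0 ≤ P) (hX : 0 ≤ X) (hΛ : 0 ≤ Λ)
    (hh0 : 0 ≤ h n) (hh1 : h n ≤ 1)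
    (hA : (h n : ℂ) * D σ j (E σ h φ j n) (dp σ h n y z) =
      E σ h φ (j + 1) n (dp σ h n y z) + (h n : ℂ) ^ 2 * a)
    (ha : ‖a‖ ≤ b) (hB : ‖Bc σ h φ j n (dp σ h n y z)‖ ≤ b)
    (hu : ‖(h n : ℂ) * dz (E σ h φ j n) (dp σ h n y z)‖ ≤ b)
    (hv : ‖(h n : ℂ) * dzb (E σ h φ j n) (dp σ h n y z)‖ ≤ b)
    (hMz : ‖ex σ (-1) z‖ ≤ M) (hPz : ‖dz (fun w => (σ w : ℂ)) z‖ ≤ P) (hy : ‖y‖ ≤ X)
    (hL : ‖ex σ (-1) z - ex σ (-1) (dp σ h n y z)‖ ≤ Λ * (h n * (M * X))) :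
    ‖2 * (h n : ℂ) * ex σ (-1) z * dz (fun w => E σ h φ j n (dp σ h n y w)) z -
      E σ h φ (j + 1) n (dp σ h n y z)‖ ≤
      h n * ((2 + 2 * Λ * M * X + 4 * M ^ 2 * P * X) * b) := by
  rw [step hσ hE y z hA, add_sub_cancel_left]
  have hn : ‖(h n : ℂ)‖ = h n := by rw [Complex.norm_real, Real.norm_of_nonneg hh0]
  have t1 : ‖(h n : ℂ) ^ 2 * a‖ ≤ h n * b := by
    rw [norm_mul, norm_pow, hn]
    have : h n ^ 2 ≤ h n := by nlinarith
    exact mul_le_mul this ha (norm_nonneg _) hh0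
  have t2 : ‖(h n : ℂ) * Bc σ h φ j n (dp σ h n y z)‖ ≤ h n * b := by
    rw [norm_mul, hn]
    exact mul_le_mul_of_nonneg_left hB hh0
  have t3 : ‖2 * (ex σ (-1) z - ex σ (-1) (dp σ h n y z)) *
      ((h n : ℂ) * dz (E σ h φ j n) (dp σ h n y z))‖ ≤ h n * (2 * Λ * M * X * b) := by
    rw [norm_mul, norm_mul, Complex.norm_ofNat]
    have : 2 * ‖ex σ (-1) z - ex σ (-1) (dp σ h n y z)‖ ≤ 2 * (Λ * (h n * (M * X))) := by
      linarith
    calc 2 * ‖ex σ (-1) z - ex σ (-1) (dp σ h n y z)‖ *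
          ‖(h n : ℂ) * dz (E σ h φ j n) (dp σ h n y z)‖
        ≤ 2 * (Λ * (h n * (M * X))) * b := mul_le_mul this hu (norm_nonneg _) (by positivity)
      _ = h n * (2 * Λ * M * X * b) := by ring
  have t4 : ‖2 * (h n : ℂ) * (ex σ (-1) z * ex σ (-1) z * dz (fun w => (σ w : ℂ)) z) *
      (y * ((h n : ℂ) * dz (E σ h φ j n) (dp σ h n y z)) +
        (starRingEnd ℂ) y * ((h n : ℂ) * dzb (E σ h φ j n) (dp σ h n y z)))‖ ≤
      h n * (4 * M ^ 2 * P * X * b) := by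
    have s1 : ‖ex σ (-1) z * ex σ (-1) z * dz (fun w => (σ w : ℂ)) z‖ ≤ M * M * P := by
      rw [norm_mul, norm_mul]
      gcongr
    have s2 : ‖y * ((h n : ℂ) * dz (E σ h φ j n) (dp σ h n y z)) +
        (starRingEnd ℂ) y * ((h n : ℂ) * dzb (E σ h φ j n) (dp σ h n y z))‖ ≤
        X * b + X * b := by
      refine (norm_add_le _ _).trans (add_le_add ?_ ?_)
      · rw [norm_mul]
        exact mul_le_mul hy hu (norm_nonneg _) hX
      · rw [norm_mul, RCLike.norm_conj]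
        exact mul_le_mul hy hv (norm_nonneg _) hX
    rw [norm_mul, norm_mul, norm_mul, Complex.norm_ofNat, hn]
    calc 2 * h n * ‖ex σ (-1) z * ex σ (-1) z * dz (fun w => (σ w : ℂ)) z‖ *
          ‖y * ((h n : ℂ) * dz (E σ h φ j n) (dp σ h n y z)) +
            (starRingEnd ℂ) y * ((h n : ℂ) * dzb (E σ h φ j n) (dp σ h n y z))‖
        ≤ 2 * h n * (M * M * P) * (X * b + X * b) := by
          refine mul_le_mul ?_ s2 (norm_nonneg _) (by positivity)
          exact mul_le_mul_of_nonneg_left s1 (by positivity)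
      _ = h n * (4 * M ^ 2 * P * X * b) := by ring
  refine (norm_sub_le _ _).trans ?_
  refine (add_le_add (norm_add₃_le) t4).trans ?_
  nlinarith [t1, t2, t3]

/-- the product estimate: `T i` is close to `e i` and everything is bounded by `b` -/
lemma prod_le {r : ℕ} (hr : r ≤ 4) (T e g : Fin r → ℂ) (ζ ζ' : ℂ) {b c₁ η Z Z' : ℝ} (hb : 1 ≤ b)
    (hη : 0 ≤ η) (hc₁ : 0 ≤ c₁) (hZ : ‖ζ‖ ≤ Z) (hZ' : ‖ζ'‖ ≤ Z')
    (hg : ∀ k, ‖g k‖ ≤ b) (hT : ∀ k, ‖T k - e k‖ ≤ η * (c₁ * b)) :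
    ‖(∑ i, ζ * (e i * ∏ k ∈ Finset.univ.erase i, g k)) -
      (2 * (η : ℂ) * ζ' * (∏ k, g k) + ∑ i, ζ * (T i * ∏ k ∈ Finset.univ.erase i, g k))‖ ≤
      η * ((2 * Z' + 4 * Z * c₁) * b ^ 4) := by
  have hZ0 : 0 ≤ Z := (norm_nonneg _).trans hZ
  have hZ0' : 0 ≤ Z' := (norm_nonneg _).trans hZ'
  have hb0 : 0 ≤ b := by linarith
  have h1 : (∑ i, ζ * (e i * ∏ k ∈ Finset.univ.erase i, g k)) -
      (2 * (η : ℂ) * ζ' * (∏ k, g k) + ∑ i, ζ * (T i * ∏ k ∈ Finset.univ.erase i, g k)) =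
      -(2 * (η : ℂ) * ζ' * (∏ k, g k)) -
        ∑ i, ζ * ((T i - e i) * ∏ k ∈ Finset.univ.erase i, g k) := by
    have h2 : ∑ i, ζ * ((T i - e i) * ∏ k ∈ Finset.univ.erase i, g k) =
        (∑ i, ζ * (T i * ∏ k ∈ Finset.univ.erase i, g k)) -
          ∑ i, ζ * (e i * ∏ k ∈ Finset.univ.erase i, g k) := by
      rw [← Finset.sum_sub_distrib]
      exact Finset.sum_congr rfl fun i _ => by ring
    rw [h2]
    ring
  rw [h1]
  have hprod : ∀ s : Finset (Fin r), ‖∏ k ∈ s, g k‖ ≤ b ^ s.card := by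
    intro s
    rw [norm_prod]
    exact (Finset.prod_le_prod (fun _ _ => norm_nonneg _) fun k _ => hg k).trans_eq
      (Finset.prod_const b)
  have t1 : ‖2 * (η : ℂ) * ζ' * (∏ k, g k)‖ ≤ η * (2 * Z' * b ^ 4) := by
    rw [norm_mul, norm_mul, norm_mul, Complex.norm_ofNat, Complex.norm_real,
      Real.norm_of_nonneg hη]
    have h3 : ‖∏ k, g k‖ ≤ b ^ 4 := (hprod Finset.univ).trans
      (pow_le_pow_right₀ hb (by rw [Finset.card_univ, Fintype.card_fin]; exact hr))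
    calc 2 * η * ‖ζ'‖ * ‖∏ k, g k‖ ≤ 2 * η * Z' * b ^ 4 := by gcongr
      _ = η * (2 * Z' * b ^ 4) := by ring
  have t2 : ‖∑ i, ζ * ((T i - e i) * ∏ k ∈ Finset.univ.erase i, g k)‖ ≤
      η * (4 * Z * c₁ * b ^ 4) := by
    have h4 : ∀ i : Fin r, ‖ζ * ((T i - e i) * ∏ k ∈ Finset.univ.erase i, g k)‖ ≤
        η * (Z * c₁ * b ^ 4) := by
      intro i
      have hr1 : 1 ≤ r := by
        have := i.2
        omega
      have h5 : (Finset.univ.erase i).card = r - 1 := by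
        rw [Finset.card_erase_of_mem (Finset.mem_univ i), Finset.card_univ, Fintype.card_fin]
      have h6 := hprod (Finset.univ.erase i)
      rw [h5] at h6
      rw [norm_mul, norm_mul]
      calc ‖ζ‖ * (‖T i - e i‖ * ‖∏ k ∈ Finset.univ.erase i, g k‖)
          ≤ Z * (η * (c₁ * b) * b ^ (r - 1)) := by
            gcongr
            exact hT i
        _ = η * (Z * c₁ * b ^ r) := by
            have : b ^ r = b * b ^ (r - 1) := by
              rw [← pow_succ']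
              congr 1
              omega
            rw [this]
            ring
        _ ≤ η * (Z * c₁ * b ^ 4) := by
            gcongr
    refine (norm_sum_le _ _).trans ((Finset.sum_le_sum fun i _ => h4 i).trans ?_)
    rw [Finset.sum_const, Finset.card_univ, Fintype.card_fin, nsmul_eq_mul]
    have h7 : (r : ℝ) ≤ 4 := by exact_mod_cast hr
    have h8 : 0 ≤ η * (Z * c₁ * b ^ 4) := by positivity
    nlinarith
  refine (norm_sub_le _ _).trans ?_
  rw [norm_neg]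
  nlinarith [t1, t2]

/-- a continuous function is bounded on a compact set by a nonnegative constant -/
lemma bd_on {f : ℂ → ℂ} (hf : Continuous f) {K : Set ℂ} (hK : IsCompact K) :
    ∃ M : ℝ, 0 ≤ M ∧ ∀ z ∈ K, ‖f z‖ ≤ M := by
  obtain ⟨M, hM⟩ := hK.exists_bound_of_continuousOn hf.continuousOn
  exact ⟨max M 0, le_max_right _ _, fun z hz => (hM z hz).trans (le_max_left _ _)⟩

lemma prod_single {r : ℕ} (j : Fin r → ℤ) (n : ℕ) (p : Fin r → ℂ) (i : Fin r) :
    ∏ k, E σ h φ ((j + Pi.single i 1 : Fin r → ℤ) k) n (p k) =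
      E σ h φ (j i + 1) n (p i) * ∏ k ∈ Finset.univ.erase i, E σ h φ (j k) n (p k) := by
  rw [← Finset.mul_prod_erase _ _ (Finset.mem_univ i)]
  congr 1
  · simp
  · refine Finset.prod_congr rfl fun k hk => ?_
    have hki : k ≠ i := Finset.ne_of_mem_erase hk
    simp [hki]

lemma plus (hDsp : StmtDspB) (hJ : StmtJetC) (L : LocB V σ h φ) {ζ : ℂ → ℂ} (hζ : Test V ζ)
    {r : ℕ} (x : Fin r → ℂ) (j : Fin r → ℤ) (hr : r ≤ 4) {ε : ℝ} (hε : 0 < ε) :
    ∀ᶠ n in atTop, ∀ l : ℂ, ‖l‖ ≤ 1 → ‖∑ i, Aj σ h φ ζ x (j + Pi.single i 1) n l‖ ≤ ε := by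
  have hσ := L.sm
  have hE : ∀ (k : ℤ) (n : ℕ), ContDiff ℝ ∞ (E σ h φ k n) := fun k n =>
    (hJ V σ h φ L k).1.smooth n
  choose A hAd hA using fun i => (hJ V σ h φ L (j i)).2.1
  have hs := contDiff_sig hσ
  -- the family of dominated functions
  set u : Fin r × Fin 5 → ℕ → ℂ → ℂ := fun p =>
    (![E σ h φ (j p.1), A p.1, Bc σ h φ (j p.1),
      fun n z => (h n : ℂ) * dz (E σ h φ (j p.1) n) z,
      fun n z => (h n : ℂ) * dzb (E σ h φ (j p.1) n) z] : Fin 5 → ℕ → ℂ → ℂ) p.2 with hu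
  have huB : ∀ p ∈ (Finset.univ : Finset (Fin r × Fin 5)), Bq V h φ 1 (u p) := by
    rintro ⟨i, k⟩ -
    have d0 := (hJ V σ h φ L (j i)).1
    fin_cases k
    · exact d0.bq
    · exact (hAd i).bq
    · have := d0.bq.fn_mul (b := fun z => 2 * (j i : ℂ) * ex σ (-1) z *
        dz (fun w => (σ w : ℂ)) z)
        (((continuous_const.mul (contDiff_ex hσ _).continuous).mul
          (contDiff_dz hs).continuous).continuousOn)
      exact this
    · exact d0.hdz.bq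
    · exact d0.hdzb.bq
  have hK : IsCompact (tsupport ζ) := hζ.supp
  obtain ⟨M, hM, hMz⟩ := bd_on (contDiff_ex hσ (-1)).continuous hK
  obtain ⟨P, hP, hPz⟩ := bd_on (contDiff_dz hs).continuous hK
  obtain ⟨Z, hZ, hZz⟩ := bd_on hζ.smooth.continuous hK
  obtain ⟨Z', hZ', hZz'⟩ := bd_on
    (contDiff_dz ((contDiff_ex hσ (-1)).mul hζ.smooth)).continuous hK
  set X : ℝ := ∑ i, ‖x i‖ with hX
  have hX0 : 0 ≤ X := Finset.sum_nonneg fun i _ => norm_nonneg _
  have hxX : ∀ (i : Fin r) (l : ℂ), ‖l‖ ≤ 1 → ‖l * x i‖ ≤ X := by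
    intro i l hl
    rw [norm_mul]
    have h1 : ‖x i‖ ≤ X :=
      Finset.single_le_sum (f := fun i => ‖x i‖) (fun _ _ => norm_nonneg _) (Finset.mem_univ i)
    nlinarith [norm_nonneg (x i), norm_nonneg l]
  obtain ⟨Λ, hΛ, hLip⟩ := lip_ex hσ hK (M * X)
  obtain ⟨S, c, hc, hS1, hSc, hS, hlim⟩ := disp hDsp L hK hζ.sub (M * X) Finset.univ u huB
  set c₁ : ℝ := 2 + 2 * Λ * M * X + 4 * M ^ 2 * P * X with hc₁
  have hc₁0 : 0 ≤ c₁ := by positivity
  set C : ℝ := (2 * Z' + 4 * Z * c₁) * (max c 1) ^ 4 with hC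
  have hC0 : 0 ≤ C := by positivity
  have e1 : ∀ᶠ n in atTop, h n < 1 := L.hlim.eventually (gt_mem_nhds one_pos)
  have e2 : ∀ᶠ n in atTop, C * (h n * ∫ z in tsupport ζ, S n z ^ 2) < ε := by
    have h1 := hlim.const_mul C
    rw [mul_zero] at h1
    exact h1.eventually (gt_mem_nhds hε)
  filter_upwards [hS, e1, e2] with n h1 h2 h3 l hl
  have hh0 : 0 ≤ h n := (L.hpos n).le
  -- abbreviations
  have hdp : ∀ k, ContDiff ℝ ∞ (dp σ h n (l * x k)) := fun k => contDiff_dp hσ n _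
  set G : Fin r → ℂ → ℂ := fun k z => E σ h φ (j k) n (dp σ h n (l * x k) z) with hG
  have hGs : ∀ k, ContDiff ℝ ∞ (G k) := fun k => (hE (j k) n).comp (hdp k)
  set e : Fin r → ℂ → ℂ := fun k z => E σ h φ (j k + 1) n (dp σ h n (l * x k) z) with he
  have hes : ∀ k, ContDiff ℝ ∞ (e k) := fun k => (hE (j k + 1) n).comp (hdp k)
  have hprodc : ∀ s : Finset (Fin r), ContDiff ℝ ∞ fun z => ∏ k ∈ s, G k z := fun s =>
    contDiff_prod fun k _ => hGs k
  -- the integrals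
  have hAj : ∀ i, Aj σ h φ ζ x (j + Pi.single i 1) n l =
      ∫ z, ζ z * (e i z * ∏ k ∈ Finset.univ.erase i, G k z) := by
    intro i
    unfold Aj
    refine integral_congr_ae (Filter.Eventually.of_forall fun z => ?_)
    have h4 : ∏ k, E σ h φ ((j + Pi.single i 1 : Fin r → ℤ) k) n
        (z + ((h n * Real.exp (-σ z) : ℝ) : ℂ) * (l * x k)) =
        ∏ k, E σ h φ ((j + Pi.single i 1 : Fin r → ℤ) k) n (dp σ h n (l * x k) z) := by
      refine Finset.prod_congr rfl fun k _ => ?_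
      rw [Aj_fun]
      rfl
    show ζ z * ∏ k, E σ h φ ((j + Pi.single i 1 : Fin r → ℤ) k) n
        (z + ((h n * Real.exp (-σ z) : ℝ) : ℂ) * (l * x k)) = _
    rw [h4, prod_single]
  have hint : ∀ i, Integrable fun z => ζ z * (e i z * ∏ k ∈ Finset.univ.erase i, G k z) :=
    fun i => test_int hζ ((hes i).mul (hprodc _)).continuous
  have hsum : ∑ i, Aj σ h φ ζ x (j + Pi.single i 1) n l =
      ∫ z, ∑ i, ζ z * (e i z * ∏ k ∈ Finset.univ.erase i, G k z) := by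
    rw [integral_finsetSum _ fun i _ => hint i]
    exact Finset.sum_congr rfl fun i _ => hAj i
  -- the total derivative
  have hexζ : ContDiff ℝ ∞ fun w => ex σ (-1) w * ζ w := (contDiff_ex hσ _).mul hζ.smooth
  set H : ℂ → ℂ := fun z => 2 * (h n : ℂ) * ((ex σ (-1) z * ζ z) * ∏ k, G k z) with hH
  have hHs : ContDiff ℝ ∞ H := contDiff_const.mul (hexζ.mul (hprodc _))
  have hHc : HasCompactSupport H := (hζ.supp.mul_left.mul_right).mul_left
  have hH0 := integral_dz_eq_zero hHs hHc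
  have hdH : ∀ z, dz H z = 2 * (h n : ℂ) * dz (fun w => ex σ (-1) w * ζ w) z * (∏ k, G k z) +
      ∑ i, ζ z * ((2 * (h n : ℂ) * ex σ (-1) z * dz (G i) z) *
        ∏ k ∈ Finset.univ.erase i, G k z) := by
    intro z
    have h5 : dz H z = 2 * (h n : ℂ) * dz (fun w => (ex σ (-1) w * ζ w) * ∏ k, G k w) z :=
      dz_const_mul _ (cd_at (hexζ.mul (hprodc _)) z)
    rw [h5, dz_mul (cd_at hexζ z) (cd_at (hprodc _) z), dz_prod G hGs, mul_add, Finset.mul_sum,
      Finset.mul_sum]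
    congr 1
    · ring
    · exact Finset.sum_congr rfl fun i _ => by ring
  have hHi : Integrable (dz H) :=
    (contDiff_dz hHs).continuous.integrable_of_hasCompactSupport hHc.dz
  have hsi : Integrable fun z => ∑ i, ζ z * (e i z * ∏ k ∈ Finset.univ.erase i, G k z) :=
    integrable_finsetSum _ fun i _ => hint i
  have hdiff : ∑ i, Aj σ h φ ζ x (j + Pi.single i 1) n l =
      ∫ z, ((∑ i, ζ z * (e i z * ∏ k ∈ Finset.univ.erase i, G k z)) - dz H z) := by
    rw [integral_sub hsi hHi, hH0, sub_zero, hsum]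
  rw [hdiff]
  -- the estimate
  have hzero : ∀ z, z ∉ tsupport ζ →
      (∑ i, ζ z * (e i z * ∏ k ∈ Finset.univ.erase i, G k z)) - dz H z = 0 := by
    intro z hz
    have h6 : ζ z = 0 := image_eq_zero_of_notMem_tsupport hz
    have h7 : dz (fun w => ex σ (-1) w * ζ w) z = 0 := by
      have h8 : ζ =ᶠ[𝓝 z] fun _ => 0 := notMem_tsupport_iff_eventuallyEq.mp hz
      have h9 : (fun w => ex σ (-1) w * ζ w) =ᶠ[𝓝 z] fun _ => 0 := by
        filter_upwards [h8] with w hw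
        rw [hw, mul_zero]
      rw [dz_congr h9, dz_const]
    rw [hdH, h6, h7]
    simp
  have hbound : ∀ z ∈ tsupport ζ,
      ‖(∑ i, ζ z * (e i z * ∏ k ∈ Finset.univ.erase i, G k z)) - dz H z‖ ≤
        C * (h n * S n z ^ 2) := by
    intro z hz
    have hy : ∀ k, ‖ex σ (-1) z * (l * x k)‖ ≤ M * X := by
      intro k
      rw [norm_mul]
      exact mul_le_mul (hMz z hz) (hxX k l hl) (norm_nonneg _) hM
    have hdpe : ∀ k, z + (h n : ℂ) * (ex σ (-1) z * (l * x k)) = dp σ h n (l * x k) z := by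
      intro k
      unfold dp
      ring
    have hs1 : 1 ≤ √(S n z) := Real.one_le_sqrt.2 (hS1 n z)
    set b : ℝ := max c 1 * √(S n z) with hb
    have hb1 : 1 ≤ b := by
      have : 1 ≤ max c 1 := le_max_right _ _
      nlinarith
    have hcb : c * √(S n z) ≤ b := mul_le_mul_of_nonneg_right (le_max_left _ _) (by positivity)
    have hub : ∀ p, ‖u p n (dp σ h n (l * x p.1) z)‖ ≤ b := by
      intro p
      have h10 := (h1 z hz _ (hy p.1)).2 p (Finset.mem_univ _)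
      rw [hdpe] at h10
      exact h10.trans hcb
    have hVd : ∀ k, dp σ h n (l * x k) z ∈ V := by
      intro k
      have h10 := (h1 z hz _ (hy k)).1
      rwa [hdpe] at h10
    rw [hdH]
    have h11 := prod_le hr (fun i => 2 * (h n : ℂ) * ex σ (-1) z * dz (G i) z) (fun i => e i z)
      (fun i => G i z) (ζ z) (dz (fun w => ex σ (-1) w * ζ w) z) hb1 hh0 hc₁0 (hZz z hz)
      (hZz' z hz) (fun k => hub (k, 0)) (fun k => ?_)
    · refine h11.trans_eq ?_
      rw [hC, hb, mul_pow]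
      have h12 : √(S n z) ^ 4 = S n z ^ 2 := by
        rw [show (4 : ℕ) = 2 * 2 by norm_num, pow_mul, Real.sq_sqrt (by linarith [hS1 n z])]
      rw [h12]
      ring
    · refine step_le hσ (hE (j k) n) (by linarith) hM hP hX0 hΛ hh0 h2.le
        (hA k n _ (hVd k)) (hub (k, 1)) (hub (k, 2)) (hub (k, 3)) (hub (k, 4)) (hMz z hz)
        (hPz z hz) (hxX k l hl) ?_
      have hv : ‖(h n : ℂ) * (ex σ (-1) z * (l * x k))‖ ≤ h n * (M * X) := by
        rw [norm_mul, Complex.norm_real, Real.norm_of_nonneg hh0]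
        exact mul_le_mul_of_nonneg_left (hy k) hh0
      have hv1 : ‖(h n : ℂ) * (ex σ (-1) z * (l * x k))‖ ≤ M * X := by
        refine hv.trans ?_
        have : 0 ≤ M * X := by positivity
        nlinarith
      have h13 := hLip z hz _ hv1
      rw [hdpe] at h13
      exact h13.trans (mul_le_mul_of_nonneg_left hv hΛ)
  have hfin : ‖∫ z, ((∑ i, ζ z * (e i z * ∏ k ∈ Finset.univ.erase i, G k z)) - dz H z)‖ ≤
      C * (h n * ∫ z in tsupport ζ, S n z ^ 2) := by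
    refine (norm_integral_le_integral_norm _).trans ?_
    have h14 : ∫ z, ‖(∑ i, ζ z * (e i z * ∏ k ∈ Finset.univ.erase i, G k z)) - dz H z‖ =
        ∫ z in tsupport ζ,
          ‖(∑ i, ζ z * (e i z * ∏ k ∈ Finset.univ.erase i, G k z)) - dz H z‖ := by
      refine (setIntegral_eq_integral_of_forall_compl_eq_zero fun z hz => ?_).symm
      rw [hzero z hz, norm_zero]
    rw [h14, ← integral_const_mul, ← integral_const_mul]
    refine setIntegral_mono_on (hsi.sub hHi).norm.integrableOn ?_ hK.measurableSet hbound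
    have : Continuous fun z => C * (h n * S n z ^ 2) :=
      continuous_const.mul (continuous_const.mul ((hSc n).pow 2))
    exact this.continuousOn.integrableOn_compact hK
  linarith

/-- conjugation exchanges the two relations -/
lemma conj_Aj (L : LocB V σ h φ) (ζ : ℂ → ℂ) {r : ℕ} (x : Fin r → ℂ) (j : Fin r → ℤ) (n : ℕ)
    (l : ℂ) : (starRingEnd ℂ) (Aj σ h φ ζ x j n l) =
      (-1) ^ (∑ i, j i) * Aj σ h φ (fun z => (starRingEnd ℂ) (ζ z)) x (-j) n l := by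
  unfold Aj
  rw [← integral_conj, ← integral_const_mul]
  refine integral_congr_ae (Filter.Eventually.of_forall fun z => ?_)
  simp only [map_mul, map_prod]
  have h1 : ∏ i, (starRingEnd ℂ) (E σ h φ (j i) n
      (z + ((h n * Real.exp (-σ z) : ℝ) : ℂ) * (l * x i))) =
      (∏ i, (-1 : ℂ) ^ (j i)) * ∏ i, E σ h φ ((-j) i) n
        (z + ((h n * Real.exp (-σ z) : ℝ) : ℂ) * (l * x i)) := by
    rw [← Finset.prod_mul_distrib]
    exact Finset.prod_congr rfl fun i _ => conj_E L _ n _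
  have h2 : ∏ i, (-1 : ℂ) ^ (j i) = (-1) ^ (∑ i, j i) := by
    have h3 : ∀ s : Finset (Fin r), ∏ i ∈ s, (-1 : ℂ) ^ (j i) = (-1) ^ (∑ i ∈ s, j i) := by
      intro s
      induction s using Finset.induction_on with
      | empty => simp
      | insert a s ha ih =>
        rw [Finset.prod_insert ha, Finset.sum_insert ha, ih, zpow_add₀ (by norm_num)]
    exact h3 _
  push_cast at h1 ⊢
  rw [h1, h2]
  ring

end REL

open REL in
theorem stmtRelB (hDsp : StmtDspB) (hJetA : StmtJetC) : StmtRelB := by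
  intro V σ h φ L ζ hζ r x j hr ε hε
  filter_upwards [plus hDsp hJetA L hζ x j hr hε,
    plus hDsp hJetA L hζ.conj x (-j) hr hε] with n h1 h2 l hl
  refine ⟨h1 l hl, ?_⟩
  have h3 : ∀ i : Fin r, (starRingEnd ℂ) (Aj σ h φ ζ x (j - Pi.single i 1) n l) =
      (-1) ^ ((∑ i, j i) - 1) *
        Aj σ h φ (fun z => (starRingEnd ℂ) (ζ z)) x (-j + Pi.single i 1) n l := by
    intro i
    rw [conj_Aj L]
    have h4 : ∑ k, (j - Pi.single i 1 : Fin r → ℤ) k = (∑ k, j k) - 1 := by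
      simp only [Pi.sub_apply, Finset.sum_sub_distrib, Finset.sum_pi_single', Finset.mem_univ,
        if_true]
    have h5 : -(j - Pi.single i 1 : Fin r → ℤ) = -j + Pi.single i 1 := by
      rw [neg_sub, sub_eq_add_neg, add_comm]
    rw [h4, h5]
  have h6 : ‖∑ i, Aj σ h φ ζ x (j - Pi.single i 1) n l‖ =
      ‖∑ i, Aj σ h φ (fun z => (starRingEnd ℂ) (ζ z)) x (-j + Pi.single i 1) n l‖ := by
    rw [← RCLike.norm_conj, map_sum, Finset.sum_congr rfl fun i _ => h3 i, ← Finset.mul_sum,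
      norm_mul, norm_zpow, norm_neg, norm_one, one_zpow, one_mul]
  rw [h6]
  exact h2 l hl

end

end U3
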