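import Pool.Agent.U3.StmtsT
import Pool.Agent.LibH11.QEV.Global2
import Pool.Agent.Lib_helper67.QE.Symbols

/-!
U3, step SRF: normalised eigenfunctions of closed surfaces satisfy the local hypotheses.
-/

open MeasureTheory Filter Topology Set UpperHalfPlane MatrixGroups
open scoped ContDiff

namespace U3

open QE QJ

noncomputable section

/-- SRF -/
theorem stmtSrf : StmtSrf := by
  intro Γ _ D ρ φ m hDm hD hK hρ hρΓ hφ hs hnorm
  have hρc : Continuous ρ := QE.continuous_of_smooth hρ
  have geo : Berry.Geo Γ ρ D := (Berry.surf_of_cocompact hD hDm hK hρc hρΓ hφ).geo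
  obtain ⟨N, hN⟩ := (hφ.tendsto.eventually_ge_atTop 1).exists_forall_of_atTop
  have hU : IsOpen {z : ℂ | 0 < z.im} := isOpen_lt continuous_const Complex.continuous_im
  have hsm : ∀ n, ContDiffOn ℝ ∞ (fun w : ℂ => (φ n (ofComplex w) : ℂ)) {w | 0 < w.im} := fun n =>
    Complex.ofRealCLM.contDiff.comp_contDiffOn (hs n)
  have hm1 : ∀ n, 1 ≤ m (n + N) := fun n => hN _ (Nat.le_add_left _ _)
  refine ⟨N, fun n => lt_of_lt_of_le one_pos (hm1 n), ?_, ?_, fun n => hsm _, ?_, ?_, ?_⟩
  · intro n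
    have := hm1 n
    positivity
  · have h1 : Tendsto (fun n => m (n + N)) atTop atTop :=
      hφ.tendsto.comp (tendsto_add_atTop_nat N)
    simpa [one_div, Function.comp_def] using tendsto_inv_atTop_zero.comp h1
  · intro n z _
    exact Complex.conj_ofReal _
  · intro n z hz
    have hz' : 0 < z.im := hz
    have hm := hm1 n
    have hm0 : m (n + N) ≠ 0 := by linarith
    have hcd : ContDiffAt ℝ 2 (fun w : ℂ => φ (n + N) (ofComplex w)) z :=
      (hφ.smooth _).contDiffAt (hU.mem_nhds hz)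
    have h4 := four_dz_dzb hcd
    have he := hφ.eigen (n + N) ⟨z, hz'⟩
    have hoc : ofComplex z = ⟨z, hz'⟩ := ofComplex_apply_of_im_pos hz'
    have hre : (z.im : ℝ) ^ 2 * (Laplacian.laplacian (fun w : ℂ => φ (n + N) (ofComplex w)) z)
        = - (m (n + N) ^ 2 * Real.exp (2 * ρ (ofComplex z)) * φ (n + N) (ofComplex z)) := by
      rw [hoc]; exact he
    have hrc : ((z.im : ℝ) : ℂ) ^ 2 * ((Laplacian.laplacian (fun w : ℂ =>
        φ (n + N) (ofComplex w)) z : ℝ) : ℂ) = - ((m (n + N) : ℂ) ^ 2 *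
          (Real.exp (2 * ρ (ofComplex z)) : ℂ) * (φ (n + N) (ofComplex z) : ℂ)) := by
      exact_mod_cast congrArg (fun x : ℝ => (x : ℂ)) hre
    rw [← h4] at hrc
    have him : ((z.im : ℝ) : ℂ) ≠ 0 := by exact_mod_cast hz'.ne'
    have hmc : (m (n + N) : ℂ) ≠ 0 := by exact_mod_cast hm0
    push_cast
    push_cast at hrc
    field_simp
    linear_combination hrc
  · intro K' hK' hK'U
    obtain ⟨C, -, hC⟩ := loc_le geo hρc hK hK' hK'U
    refine ⟨C, Eventually.of_forall fun n => ?_⟩
    have h1 := hC (fun z => φ (n + N) z ^ 2) ((QE.continuous_of_smooth (hs _)).pow 2)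
      (fun z => sq_nonneg _) (fun γ hγ z => by
        show φ (n + N) (γ • z) ^ 2 = φ (n + N) z ^ 2
        rw [hφ.invariant (n + N) γ hγ z])
    rw [hnorm (n + N), mul_one] at h1
    refine le_trans (le_of_eq ?_) h1
    refine integral_congr_ae (Eventually.of_forall fun z => ?_)
    simp only
    rw [Complex.norm_real, Real.norm_eq_abs, sq_abs]

end

end U3
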