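import Pool.Agent.U3.StmtsT
import Pool.Agent.U3.StmtsG
import Pool.Agent.QJ.TL

/-!
TLU: the local theorem at distinct points, transferred to the hypotheses `LocU`.
-/

open Complex MeasureTheory Filter Topology Set
open scoped ContDiff

namespace U3

open QE QJ

noncomputable section

namespace TLU

/-- for large `n` the two integrals agree -/
lemma eventually_eq {V U : Set ℂ} {g : ℂ → ℝ} {σ : ℂ → ℝ} {h : ℕ → ℝ} {φ φ' : ℕ → ℂ → ℂ}
    (hA : Agree V U g h φ σ φ') {ζ : ℂ → ℂ} (hζ : Test V ζ) {r : ℕ} (x : Fin r → ℂ) :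
    (fun n => ∫ θ, Aj σ h φ' ζ x 0 n (uu θ ^ 2) ∂angle) =ᶠ[atTop]
      fun n => ∫ θ, (∫ z, ζ z * PD g h φ x n θ z) ∂angle := by
  have hL := hA.loc
  filter_upwards [TL.eventually_mem hL.op hL.sm.continuous hL.hpos hL.hlim hζ.supp hζ.sub x]
    with n hn
  congr 1
  funext θ
  unfold Aj
  congr 1
  funext z
  by_cases hz : z ∈ tsupport ζ
  · congr 1
    unfold PD
    refine Finset.prod_congr rfl fun i _ => ?_
    have h1 := hn z hz (uu θ ^ 2) (by rw [norm_pow, norm_uu, one_pow]) i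
    have hg : g z = Real.exp (σ z) ^ 2 := by
      rw [← hA.eg z (hζ.sub hz), ← Real.exp_nat_mul]
      norm_num
    have e1 : (Real.sqrt (g z))⁻¹ = Real.exp (-σ z) := by
      rw [hg, Real.sqrt_sq (Real.exp_pos _).le, Real.exp_neg]
    rw [e1, ← hA.eφ n _ h1]
    rfl
  · rw [image_eq_zero_of_notMem_tsupport hz, zero_mul, zero_mul]

/-- the mass integrals agree -/
lemma mass_eq {V U : Set ℂ} {g : ℂ → ℝ} {σ : ℂ → ℝ} {h : ℕ → ℝ} {φ φ' : ℕ → ℂ → ℂ}
    (hA : Agree V U g h φ σ φ') {ζ : ℂ → ℂ} (hζ : Test V ζ) (n : ℕ) :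
    ∫ z, ζ z * φ' n z ^ 2 = ∫ z, ζ z * φ n z ^ 2 := by
  refine integral_congr_ae (Filter.Eventually.of_forall fun z => ?_)
  by_cases hz : z ∈ tsupport ζ
  · simp only [hA.eφ n z (hζ.sub hz)]
  · simp only [image_eq_zero_of_notMem_tsupport hz, zero_mul]

end TLU

/-- TLU -/
theorem stmtTlU (hTpc : StmtTpc) (hLcz : StmtLcz) : StmtTlU := by
  intro U g h φ hU hg hgp H ζ hζ
  obtain ⟨V, F, σ, φ', hKV, -, -, -, hA⟩ := hLcz U g h φ hU hg hgp H (tsupport ζ) hζ.supp hζ.sub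
  have hζV : Test V ζ := ⟨hζ.smooth, hζ.supp, hKV⟩
  obtain ⟨t1, t2, t3⟩ := hTpc V σ h φ' hA.loc ζ hζV
  refine ⟨fun x => (t1 x).congr' (TLU.eventually_eq hA hζV x), fun x => ?_, fun hE x =>
    (t3 (hE V σ φ' hA ζ hζV) x).congr' (TLU.eventually_eq hA hζV x)⟩
  refine (t2 x).congr' ?_
  filter_upwards [TLU.eventually_eq hA hζV x] with n hn
  rw [hn, TLU.mass_eq hA hζV]

end

end U3
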