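import Pool.Agent.U3.StmtsT
import Pool.Agent.QJ.TPA
import Pool.Agent.QJ.TPB

/-!
TPC: one, two and three displaced points, without equidistribution.
-/

open Complex MeasureTheory Filter Topology Set
open scoped ContDiff

namespace U3

open QE QJ

noncomputable section

namespace TPC

/-- the value at the centre of the two-point integral -/
lemma aj_zero (σ : ℂ → ℝ) (h : ℕ → ℝ) (φ : ℕ → ℂ → ℂ) (ζ : ℂ → ℂ) (x : Fin 2 → ℂ) (n : ℕ) :
    Aj σ h φ ζ x 0 n 0 = ∫ z, ζ z * φ n z ^ 2 := by
  have hE : ∀ z, E σ h φ 0 n z = φ n z := fun z => rfl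
  unfold Aj
  refine integral_congr_ae (Filter.Eventually.of_forall fun z => ?_)
  simp only [Fin.prod_univ_two, zero_mul, mul_zero, add_zero, Pi.zero_apply, hE]
  ring

end TPC

open QJ.TPA QJ.TPB TPC in
/-- **(TPC)** One, two and three points. -/
theorem stmtTpc (hDerB : StmtDerB) (hRelB : StmtRelB) (hRad : QJ.StmtRad) : StmtTpc := by
  intro V σ h φ hL ζ hζ
  have hone : IsProbabilityMeasure angle := (inferInstance : IsProbabilityMeasure ang)
  refine ⟨?_, ?_, ?_⟩
  · -- one point
    intro x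
    rw [Metric.tendsto_atTop']
    intro ε hε
    have h1 := hRelB V σ h φ hL ζ hζ 1 x (-Pi.single 0 1) (by norm_num) (ε / 2) (half_pos hε)
    obtain ⟨N, hN⟩ := Filter.eventually_atTop.mp h1
    refine ⟨N, fun n hn => ?_⟩
    rw [dist_zero_right]
    have h2 : ‖∫ θ, Aj σ h φ ζ x 0 n (uu θ ^ 2) ∂angle‖ ≤ ε / 2 * (angle.real Set.univ) := by
      refine norm_integral_le_of_norm_le_const (Filter.Eventually.of_forall fun θ => ?_)
      have h3 := (hN n hn.le (uu θ ^ 2) (by rw [norm_pow, norm_uu, one_pow])).1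
      rw [Fin.sum_univ_one, neg_add_cancel] at h3
      exact h3
    rw [probReal_univ, mul_one] at h2
    linarith
  · -- two points
    intro x
    set X : ℂ := x 0 - x 1 with hX
    have hK : ∫ θ, ee X (uu θ ^ 2) ∂angle = (Berry.waveK X : ℂ) :=
      (int_sq (contDiff_pw X).continuous).trans (int_ee X)
    rw [Metric.tendsto_atTop']
    intro ε hε
    set δ : ℝ := ε / (4 * (2 + ‖x 1‖)) with hδ
    have hb : 0 < 2 + ‖x 1‖ := by positivity
    have hδ0 : 0 < δ := by positivity
    set e0 : Fin 2 → ℤ := Pi.single 0 1 with he0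
    have hD0 := (hDerB V σ h φ hL ζ hζ 2 x 0 (by norm_num))
    have hD1 := (hDerB V σ h φ hL ζ hζ 2 x e0 (by norm_num))
    obtain ⟨N, hN⟩ := Filter.eventually_atTop.mp ((((hD0.2 δ hδ0).and (hD1.2 δ hδ0)).and
      (hRelB V σ h φ hL ζ hζ 2 x 0 (by norm_num) δ hδ0)).and
      (hRelB V σ h φ hL ζ hζ 2 x e0 (by norm_num) δ hδ0))
    refine ⟨N, fun n hn => ?_⟩
    obtain ⟨⟨⟨ha, hb'⟩, hr0⟩, hr1⟩ := hN n hn.le
    set c : ℂ := ∫ z, ζ z * φ n z ^ 2 with hc
    have hdA0 : ∀ l, DifferentiableAt ℝ (Aj σ h φ ζ x 0 n) l := fun l =>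
      (hD0.1 n).contDiffAt.differentiableAt (by simp)
    have hdA1 : ∀ l, DifferentiableAt ℝ (Aj σ h φ ζ x e0 n) l := fun l =>
      (hD1.1 n).contDiffAt.differentiableAt (by simp)
    have hdp : ∀ l, DifferentiableAt ℝ (fun l : ℂ => ee X l) l := fun l =>
      (hasFDerivAt_pw X l).differentiableAt
    have hq0 : ContDiff ℝ 1 (fun l => Aj σ h φ ζ x 0 n l - c * ee X l) :=
      (hD0.1 n).sub (contDiff_const.mul (contDiff_pw X))
    have hq1 : ContDiff ℝ 1 (fun l => Aj σ h φ ζ x e0 n l - (c * I) * ee X l) :=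
      (hD1.1 n).sub (contDiff_const.mul (contDiff_pw X))
    have hmain := hRad (fun l => Aj σ h φ ζ x 0 n l - c * ee X l)
      (fun l => Aj σ h φ ζ x e0 n l - (c * I) * ee X l) X ((1 + ‖x 1‖) * δ) hq0 hq1
      (by positivity) (by
        intro l hl
        have ha1 := (ha l hl).1
        have hb1 := (hb' l hl).2
        have hr01 := (hr0 l hl).1
        have hr11 := (hr1 l hl).2
        rw [Fin.sum_univ_two] at ha1 hb1 hr01 hr11
        rw [zero_add, zero_add] at ha1 hr01
        rw [← he0] at ha1 hr01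
        rw [← he0, sub_self] at hb1 hr11
        constructor
        · rw [dz_sub (hdA0 l) ((hdp l).const_mul c), dz_const_mul c (hdp l), mul_sub]
          have h1 : 2 * dz (Aj σ h φ ζ x 0 n) l - 2 * (c * dz (fun l : ℂ => ee X l) l)
              - X * (Aj σ h φ ζ x e0 n l - c * I * ee X l)
              = (2 * dz (Aj σ h φ ζ x 0 n) l - (x 0 * Aj σ h φ ζ x e0 n l
                  + x 1 * Aj σ h φ ζ x (Pi.single 1 1) n l))
                + x 1 * (Aj σ h φ ζ x e0 n l + Aj σ h φ ζ x (Pi.single 1 1) n l) := by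
            have h2 := dz_pw X l
            rw [hX] at h2 ⊢
            linear_combination (-c) * h2
          rw [h1]
          refine (norm_add_le _ _).trans ?_
          rw [norm_mul]
          have h3 := mul_le_mul_of_nonneg_left hr01 (norm_nonneg (x 1))
          linarith
        · rw [dzb_sub (hdA1 l) ((hdp l).const_mul (c * I)), dzb_const_mul (c * I) (hdp l), mul_sub]
          have h1 : 2 * dzb (Aj σ h φ ζ x e0 n) l - 2 * (c * I * dzb (fun l : ℂ => ee X l) l)
              + (starRingEnd ℂ) X * (Aj σ h φ ζ x 0 n l - c * ee X l)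
              = (2 * dzb (Aj σ h φ ζ x e0 n) l + ((starRingEnd ℂ) (x 0) * Aj σ h φ ζ x 0 n l
                  + (starRingEnd ℂ) (x 1) * Aj σ h φ ζ x (e0 - Pi.single 1 1) n l))
                - (starRingEnd ℂ) (x 1) * (Aj σ h φ ζ x 0 n l
                  + Aj σ h φ ζ x (e0 - Pi.single 1 1) n l) := by
            have h2 := dzb_pw X l
            rw [hX, map_sub] at h2 ⊢
            linear_combination (-(c * I)) * h2 - c * ((starRingEnd ℂ) (x 0) - (starRingEnd ℂ) (x 1))
              * ee (x 0 - x 1) l * Complex.I_sq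
          rw [h1]
          refine (norm_sub_le _ _).trans ?_
          rw [norm_mul, RCLike.norm_conj]
          have h3 := mul_le_mul_of_nonneg_left hr11 (norm_nonneg (x 1))
          linarith)
    have hi0 : Integrable (fun θ => Aj σ h φ ζ x 0 n (uu θ ^ 2)) angle :=
      integrable_circle (hD0.1 n).continuous
    have hi1 : Integrable (fun θ => c * ee X (uu θ ^ 2)) angle :=
      (integrable_circle (contDiff_pw X).continuous).const_mul c
    have h5 : ee X 0 = 1 := by simp [ee]
    rw [integral_sub hi0 hi1, integral_const_mul, hK] at hmain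
    simp only [h5, mul_one, aj_zero, ← hc, sub_self, norm_zero, zero_add] at hmain
    rw [dist_zero_right, mul_comm ((Berry.waveK X : ℂ)) c]
    refine lt_of_le_of_lt hmain ?_
    have h6 : (1 + ‖x 1‖) * δ ≤ ε / 4 := by
      rw [hδ, mul_div_assoc', div_le_div_iff₀ (by positivity) (by norm_num)]
      nlinarith [norm_nonneg (x 1)]
    linarith
  · -- three points
    intro hE x
    set A : (Fin 3 → ℤ) → ℕ → ℂ → ℂ := fun j => Aj σ h φ ζ x j with hAdef
    have hd := fun j => hDerB V σ h φ hL ζ hζ 3 x j (by norm_num)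
    have hr := fun j => hRelB V σ h φ hL ζ hζ 3 x j (by norm_num)
    have hz : ∀ j : Fin 3 → ℤ,
        Sm fun n l => 2 * dz (A j n) l - ∑ i, x i * A (j + Pi.single i 1) n l := by
      intro j ε hε
      filter_upwards [(hd j).2 ε hε] with n hn l hl
      exact (hn l hl).1
    have hzb : ∀ j : Fin 3 → ℤ, Sm fun n l => 2 * dzb (A j n) l
        + ∑ i, (starRingEnd ℂ) (x i) * A (j - Pi.single i 1) n l := by
      intro j ε hε
      filter_upwards [(hd j).2 ε hε] with n hn l hl
      exact (hn l hl).2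
    have hp : ∀ j : Fin 3 → ℤ, Sm fun n l => ∑ i : Fin 3, A (j + Pi.single i 1) n l := by
      intro j ε hε
      filter_upwards [hr j ε hε] with n hn l hl
      exact (hn l hl).1
    have hm : ∀ j : Fin 3 → ℤ, Sm fun n l => ∑ i : Fin 3, A (j - Pi.single i 1) n l := by
      intro j ε hε
      filter_upwards [hr j ε hε] with n hn l hl
      exact (hn l hl).2
    have hA : ∀ j n, ContDiff ℝ 1 (A j n) := fun j => (hd j).1
    have hv : ∀ j n, A j n 0 = E3 σ h φ ζ (j 0) (j 1) (j 2) n := by
      intro j n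
      refine integral_congr_ae (Filter.Eventually.of_forall fun z => ?_)
      change ζ z * ∏ i, E σ h φ (j i) n (z + ((h n * Real.exp (-σ z) : ℝ) : ℂ) * (0 * x i)) = _
      rw [Fin.prod_univ_three]
      simp only [zero_mul, mul_zero, add_zero]
    have hlim : ∀ j : Fin 3 → ℤ, Tendsto (fun n => A j n 0) atTop (𝓝 0) := by
      intro j
      exact (hE (j 0) (j 1) (j 2)).congr fun n => (hv j n).symm
    have l1 : Tendsto (fun n => A (0 + Pi.single 1 1 - Pi.single 0 1) n 0) atTop (𝓝 0) := hlim _
    have l2 : Tendsto (fun n => A 0 n 0) atTop (𝓝 0) := hlim 0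
    -- the cube roots of unity
    obtain ⟨w, w', w1, w2, w3, w4, w5⟩ : ∃ w w' : ℂ, 1 + w + w' = 0 ∧ w * w' = 1 ∧
        (starRingEnd ℂ) w = w' ∧ (starRingEnd ℂ) w' = w ∧ w - w' ≠ 0 := by
      have hs : Real.sqrt 3 * Real.sqrt 3 = 3 := Real.mul_self_sqrt (by norm_num)
      have hs0 : Real.sqrt 3 ≠ 0 := by positivity
      refine ⟨⟨-1 / 2, Real.sqrt 3 / 2⟩, ⟨-1 / 2, -(Real.sqrt 3 / 2)⟩, ?_, ?_, ?_, ?_, ?_⟩
      · apply Complex.ext
        · simp
          norm_num
        · simp
      · apply Complex.ext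
        · simp only [Complex.mul_re, Complex.one_re]
          linarith
        · simp only [Complex.mul_im, Complex.one_im]
          ring
      · apply Complex.ext <;> simp
      · apply Complex.ext <;> simp
      · intro h0
        have := congrArg Complex.im h0
        simp only [Complex.sub_im, Complex.zero_im] at this
        apply hs0
        linarith
    have r1 := key A x hA hz hzb hp hm hRad w w' w1 w2 w3 w4 (by
      have := l1.sub (l2.const_mul w')
      rwa [mul_zero, sub_zero] at this)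
    have r2 := key A x hA hz hzb hp hm hRad w' w (by rw [← w1]; ring) (by rw [← w2]; ring) w4 w3 (by
      have := l1.sub (l2.const_mul w)
      rwa [mul_zero, sub_zero] at this)
    have r3 := (r1.sub r2).const_mul (w - w')⁻¹
    rw [sub_zero, mul_zero] at r3
    refine r3.congr fun n => ?_
    have hi : ∀ j, Integrable (fun θ => A j n (uu θ ^ 2)) angle := fun j =>
      integrable_circle (hA j n).continuous
    have i1 : Integrable (fun θ => A (0 + Pi.single 1 1 - Pi.single 0 1) n (uu θ ^ 2)
        - w' * A 0 n (uu θ ^ 2)) angle := (hi _).sub ((hi 0).const_mul w')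
    have i2 : Integrable (fun θ => A (0 + Pi.single 1 1 - Pi.single 0 1) n (uu θ ^ 2)
        - w * A 0 n (uu θ ^ 2)) angle := (hi _).sub ((hi 0).const_mul w)
    rw [← integral_sub i1 i2, ← integral_const_mul]
    refine integral_congr_ae (Filter.Eventually.of_forall fun θ => ?_)
    change (w - w')⁻¹ * ((A (0 + Pi.single 1 1 - Pi.single 0 1) n (uu θ ^ 2)
      - w' * A 0 n (uu θ ^ 2)) - (A (0 + Pi.single 1 1 - Pi.single 0 1) n (uu θ ^ 2)
      - w * A 0 n (uu θ ^ 2))) = A 0 n (uu θ ^ 2)
    field_simp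
    ring

end

end U3
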