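import Pool.Agent.U3.AllG
import Pool.Agent.QJ.AllC
import Pool.Agent.QJ.AllB
import Pool.Agent.U3.DERB
import Pool.Agent.U3.RELB
import Pool.Agent.U3.MAINU
import Pool.Agent.U3.LWU
import Pool.Agent.U3.LWEU
import Pool.Agent.U3.LOGU
import Pool.Agent.U3.DSPB
import Pool.Agent.U3.TPC
import Pool.Agent.U3.TLU
import Pool.Agent.U3.DSUU
import Pool.Agent.U3.PTSU
import Pool.Agent.U3.SRF
import Pool.Agent.U3.FNU
import Pool.Agent.U3.FND

/-!
The third order theorem for all eigenfunctions of closed surfaces of negative curvature: assembly.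
-/

namespace U3

theorem lweU : StmtLweU := stmtLweU groA stmtIntA sml stmtLcz
theorem lwU : StmtLwU := stmtLwU groA stmtIntA stmtIbpA stmtJetC jetW sml stmtLcz
theorem mainU : StmtMainU := stmtMainU QJ.wexp lweU
theorem logU : StmtLogU := stmtLogU mainU lwU QJ.pwt QJ.stmtIter
theorem dspB : StmtDspB := stmtDspB ptwB groA sml
theorem derB : StmtDerB := stmtDerB dspB stmtJetC
theorem relB : StmtRelB := stmtRelB dspB stmtJetC
theorem tpc : StmtTpc := stmtTpc derB relB QJ.stmtRad
theorem tlU : StmtTlU := stmtTlU tpc stmtLcz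
theorem dsuU : StmtDsuU := stmtDsuU dspB stmtLcz
theorem ptsU : StmtPtsU := stmtPtsU tlU dsuU
theorem srf : StmtSrf := stmtSrf
theorem fnU : StmtFnU := stmtFnU srf e3g QJ.stmtTest ptsU logU QJ.invg QJ.fub
theorem fnd : StmtFnd := stmtFnd srf e3g logU

end U3
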