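import Pool.Agent.U3.Stmts

/-!
Third order statistics of all eigenfunctions on surfaces of negative curvature: the transversal part
of the pairs is bounded.
-/

open Complex MeasureTheory Filter Topology Set
open scoped ContDiff

namespace U3

open QE QJ

theorem stmtJbd (hNf : StmtNf) (hTriP : StmtTriP) : StmtJbd := by
  intro β V σ Ω _ μ p u ε hβ hV hσ hD hε hε0 ζ hζ
  have h0 := hTriP β V σ Ω μ p u ε 0 0 hβ hV hσ hD hε hε0
  have h1 : TripB V σ (-((0 : ℤ) + 0))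
      (fun n z => (-1) ^ ((0 : ℤ) + 1) * pe β σ (ε n) μ p u (0 + 0 + 2) z)
      (fun n z => (-1) ^ (0 : ℤ) * pe β σ (ε n) μ p u (0 + 0) z)
      (fun n z => (-1) ^ ((0 : ℤ) - 1) * pe β σ (ε n) μ p u (0 + 0 - 2) z) := by
    have he : (-((0 : ℤ) + 0)) = 0 + 0 := by norm_num
    rw [he]
    exact h0
  obtain ⟨c, hc⟩ := (hNf V σ (0 + 0) _ _ _ _ _ _ hV hσ h0 h1 ζ hζ).2
  refine ⟨c, ?_⟩
  filter_upwards [hc] with n hn
  have he : (fun z => ζ z * (2 * (pe β σ (ε n) μ p u 0 z * pe β σ (ε n) μ p u 0 z)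
        - 2 * (pe β σ (ε n) μ p u 2 z * pe β σ (ε n) μ p u (-2) z)))
      = fun z => -(ζ z * ((-1) ^ ((0 : ℤ) + 1) * pe β σ (ε n) μ p u (0 + 0 + 2) z
          * ((-1) ^ ((0 : ℤ) - 1) * pe β σ (ε n) μ p u (0 + 0 - 2) z)
        + (-1) ^ ((0 : ℤ) - 1) * pe β σ (ε n) μ p u (0 + 0 - 2) z
          * ((-1) ^ ((0 : ℤ) + 1) * pe β σ (ε n) μ p u (0 + 0 + 2) z)
        - 2 * ((-1) ^ (0 : ℤ) * pe β σ (ε n) μ p u (0 + 0) z
          * ((-1) ^ (0 : ℤ) * pe β σ (ε n) μ p u (0 + 0) z)))) := by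
    funext z
    have e1 : ((-1 : ℂ)) ^ ((0 : ℤ) + 1) = -1 := by norm_num
    have e2 : ((-1 : ℂ)) ^ ((0 : ℤ) - 1) = -1 := by
      rw [zero_sub, zpow_neg_one]
      norm_num
    have e3 : ((-1 : ℂ)) ^ (0 : ℤ) = 1 := by norm_num
    have e4 : ((0 : ℤ) + 0 + 2) = 2 := by norm_num
    have e5 : ((0 : ℤ) + 0 - 2) = -2 := by norm_num
    have e6 : ((0 : ℤ) + 0) = 0 := by norm_num
    rw [e1, e2, e3, e4, e5, e6]
    ring
  rw [he, integral_neg, norm_neg]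
  exact hn

end U3
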