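import Pool.Agent.U3.StmtsG

/-!
LCZ: localisation.
-/

open Complex MeasureTheory Filter Topology Set
open scoped ContDiff

namespace U3

open QE QJ

namespace LCZ

/-- localisation near a compact set -/
theorem exists_loc {U : Set ℂ} {g : ℂ → ℝ} {h : ℕ → ℝ} {φ : ℕ → ℂ → ℂ} (hU : IsOpen U)
    (hg : ContDiffOn ℝ ∞ g U) (hgp : ∀ z ∈ U, 0 < g z) (H : LocU U g h φ) {K : Set ℂ}
    (hK : IsCompact K) (hKU : K ⊆ U) :
    ∃ (V F : Set ℂ) (σ : ℂ → ℝ) (φ' : ℕ → ℂ → ℂ), K ⊆ V ∧ V ⊆ F ∧ F ⊆ U ∧ IsCompact F ∧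
      Agree V U g h φ σ φ' := by
  obtain ⟨χ₀, hχ₀, hχ1, -⟩ := exists_cutoff hU hK hKU
  -- the real part of the cutoff
  obtain ⟨χ, hχ⟩ : ∃ χ : ℂ → ℝ, ∀ z, χ z = (χ₀ z).re := ⟨_, fun _ => rfl⟩
  have hχT : Test U (fun z => (χ z : ℂ)) := by
    have hs : ContDiff ℝ ∞ χ := by
      have : χ = fun z => reCLM (χ₀ z) := by
        funext z
        rw [hχ]
        rfl
      rw [this]
      exact reCLM.contDiff.comp hχ₀.smooth
    have hsub : Function.support (fun z => (χ z : ℂ)) ⊆ Function.support χ₀ := by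
      intro z hz h0
      apply hz
      simp [hχ, h0]
    refine ⟨ofRealCLM.contDiff.comp hs, ?_, (closure_mono hsub).trans hχ₀.sub⟩
    exact hχ₀.supp.of_isClosed_subset (isClosed_tsupport _) (closure_mono hsub)
  obtain ⟨V, hVdef⟩ : ∃ V, V = interior {z | χ₀ z = 1} := ⟨_, rfl⟩
  have hVo : IsOpen V := by
    rw [hVdef]
    exact isOpen_interior
  have hV0 : ∀ z ∈ V, χ₀ z = 1 := by
    intro z hz
    rw [hVdef] at hz
    have h1 : z ∈ {z | χ₀ z = 1} := interior_subset hz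
    exact h1
  have hV1 : ∀ z ∈ V, χ z = 1 := by
    intro z hz
    rw [hχ, hV0 z hz, one_re]
  have hKV : K ⊆ V := by
    intro z hz
    rw [hVdef, mem_interior_iff_mem_nhds]
    exact hχ1 z hz
  have hVF : V ⊆ tsupport χ₀ := by
    intro z hz
    apply subset_tsupport
    simp [hV0 z hz]
  have hVU : V ⊆ U := hVF.trans hχ₀.sub
  have hχ0 : ∀ z, z ∉ U → χ z = 0 := by
    intro z hz
    have h1 : (χ z : ℂ) = 0 :=
      image_eq_zero_of_notMem_tsupport (f := fun z => (χ z : ℂ)) fun hh => hz (hχT.sub hh)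
    exact_mod_cast h1
  -- the functions
  obtain ⟨ψ, hψ⟩ : ∃ ψ : ℕ → ℂ → ℂ, ∀ n, ψ n = fun z => (χ z : ℂ) * φ n z := ⟨_, fun _ => rfl⟩
  have hψV : ∀ n, ∀ z ∈ V, ψ n z = φ n z := by
    intro n z hz
    rw [hψ]
    simp [hV1 z hz]
  obtain ⟨S, hS⟩ : ∃ S : ℂ → ℂ, S = fun z => (χ z : ℂ) * ((1 / 2 * Real.log (g z) : ℝ) : ℂ) :=
    ⟨_, rfl⟩
  have hST : Test U S := by
    rw [hS]
    apply hχT.mul hU
    apply ofRealCLM.contDiff.comp_contDiffOn
    exact contDiffOn_const.mul (hg.log fun z hz => (hgp z hz).ne')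
  obtain ⟨σ, hσ⟩ : ∃ σ : ℂ → ℝ, ∀ z, σ z = (S z).re := ⟨_, fun _ => rfl⟩
  have hσs : ContDiff ℝ ∞ σ := by
    have : σ = fun z => reCLM (S z) := by
      funext z
      rw [hσ]
      rfl
    rw [this]
    exact reCLM.contDiff.comp hST.smooth
  have hgV : ∀ z ∈ V, Real.exp (2 * σ z) = g z := by
    intro z hz
    have e1 : σ z = 1 / 2 * Real.log (g z) := by
      rw [hσ, hS]
      simp only [hV1 z hz, ofReal_one, one_mul, ofReal_re]
    rw [e1]
    have e2 : 2 * (1 / 2 * Real.log (g z)) = Real.log (g z) := by ring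
    rw [e2, Real.exp_log (hgp z (hVU hz))]
  refine ⟨V, tsupport χ₀, σ, ψ, hKV, hVF, hχ₀.sub, hχ₀.supp, hVo, hVU, hgV, hψV, ?_⟩
  refine ⟨hVo, H.hpos, H.hlim, hσs, ?_, ?_, ?_, ?_⟩
  · intro n
    rw [hψ]
    exact (hχT.mul hU (H.smooth n)).smooth
  · intro n z
    rw [hψ]
    simp only [map_mul, conj_ofReal]
    by_cases hz : z ∈ U
    · rw [H.real n z hz]
    · rw [hχ0 z hz]
      simp
  · intro n z hz
    have e1 : dz (dzb (ψ n)) z = dz (dzb (φ n)) z :=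
      dz_congr_on hVo (fun w hw => dzb_congr_on hVo (hψV n) hw) hz
    rw [e1, H.eig n z (hVU hz), hψV n z hz, ← hgV z hz]
    unfold ex
    norm_num
  · intro K' hK' hK'V
    obtain ⟨C, hC⟩ := H.bdd K' hK' (hK'V.trans hVU)
    refine ⟨C, ?_⟩
    filter_upwards [hC] with n hn
    refine le_of_eq_of_le ?_ hn
    refine setIntegral_congr_fun hK'.measurableSet fun z hz => ?_
    show ‖ψ n z‖ ^ 2 = ‖φ n z‖ ^ 2
    rw [hψV n z (hK'V hz)]

end LCZ

/-- Module LCZ. -/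
theorem stmtLcz : StmtLcz := by
  intro U g h φ hU hg hgp H K hK hKU
  exact LCZ.exists_loc hU hg hgp H hK hKU

end U3
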