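import Pool.Agent.U3.Defs

/-!
Third order statistics of all eigenfunctions on surfaces of negative curvature: statements of the
steps (local part). Each step is a `Prop`; a module proves one of them, possibly from others taken as
hypotheses.
-/

open Complex MeasureTheory Filter Topology Set
open scoped ContDiff

namespace U3

open QE QJ

noncomputable section

/-! ### A. Growth and jets, without equidistribution -/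

/-- PTWB -/
def StmtPtwB : Prop :=
  ∀ (V : Set ℂ) (σ : ℂ → ℝ) (h : ℕ → ℝ) (φ : ℕ → ℂ → ℂ), LocB V σ h φ →
    ∀ K, IsCompact K → K ⊆ V → ∀ N : ℕ, ∃ c C : ℝ, 0 < c ∧ ∀ᶠ n in atTop, ∀ z ∈ K,
      RR h φ N n z ≤ C * (1 + 1 / h n ^ 2 * ∫ w in Metric.closedBall z (c * h n), ‖φ n w‖ ^ 2)

/-- GROA -/
def StmtGroA : Prop :=
  ∀ (V : Set ℂ) (σ : ℂ → ℝ) (h : ℕ → ℝ) (φ : ℕ → ℂ → ℂ), LocB V σ h φ → GrowA V h φ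

/-- INTA: integrals of dominated functions -/
def StmtIntA : Prop :=
  ∀ (V : Set ℂ) (h : ℕ → ℝ) (φ u : ℕ → ℂ → ℂ), (∀ n, 0 < h n) → Tendsto h atTop (𝓝 0) →
    (∀ n, ContDiff ℝ ∞ (φ n)) → GrowA V h φ → (∀ n, ContDiff ℝ ∞ (u n)) →
    (Bq V h φ 2 u → LG V u) ∧
    (Bq V h φ 2 u → L2z V (fun n z => (h n : ℂ) * u n z)) ∧
    (Bq V h φ 3 u → HZ V h u) ∧
    (Bq V h φ 4 u → HZ V h (fun n z => (h n : ℂ) * u n z)) ∧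
    (Bq V h φ 4 u → Small V h φ → HZ V h u)

/-- IBPA: integration by parts -/
def StmtIbpA : Prop :=
  ∀ (V : Set ℂ) (σ : ℂ → ℝ) (h : ℕ → ℝ) (u : ℕ → ℂ → ℂ) (k : ℤ), IsOpen V → ContDiff ℝ ∞ σ →
    (∀ n, 0 < h n) → (∀ n, ContDiff ℝ ∞ (u n)) → HZ V h u → ∀ ζ : ℂ → ℂ, Test V ζ →
      Tendsto (fun n => ∫ z, ζ z * ((h n : ℂ) * D σ k (u n) z)) atTop (𝓝 0) ∧
      Tendsto (fun n => ∫ z, ζ z * ((h n : ℂ) * Db σ k (u n) z)) atTop (𝓝 0)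

/-- JETC: the covariant jets and their derivatives -/
def StmtJetC : Prop :=
  ∀ (V : Set ℂ) (σ : ℂ → ℝ) (h : ℕ → ℝ) (φ : ℕ → ℂ → ℂ), LocB V σ h φ → ∀ j : ℤ,
    Dom V h φ 1 (E σ h φ j) ∧
    (∃ A, Dom V h φ 1 A ∧ ∀ n, ∀ z ∈ V,
      (h n : ℂ) * D σ j (E σ h φ j n) z = E σ h φ (j + 1) n z + (h n : ℂ) ^ 2 * A n z) ∧
    (∃ A, Dom V h φ 1 A ∧ ∀ n, ∀ z ∈ V,
      (h n : ℂ) * Db σ j (E σ h φ j n) z = - E σ h φ (j - 1) n z + (h n : ℂ) ^ 2 * A n z)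

/-- JETW: the rescaled mixed derivatives are covariant jets up to `O(h)` -/
def StmtJetW : Prop :=
  ∀ (V : Set ℂ) (σ : ℂ → ℝ) (h : ℕ → ℝ) (φ : ℕ → ℂ → ℂ), LocB V σ h φ → ∀ a b : ℕ,
    ∃ A, Dom V h φ 1 A ∧ ∀ n, ∀ z ∈ V,
      ex σ (-(a + b)) z * W h φ a b n z
        = (2 : ℂ)⁻¹ ^ (a + b) * (-1) ^ b * E σ h φ ((a : ℤ) - b) n z + (h n : ℂ) * A n z

/-! ### Potentials and the null form -/

/-- CAUB: Cauchy transforms of sequences with linear growth are bounded in `L²_loc` -/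
def StmtCauB : Prop :=
  ∀ (K K' : Set ℂ) (f : ℕ → ℂ → ℂ) (C : ℝ), IsCompact K → IsCompact K' →
    (∀ n, ContDiff ℝ ∞ (f n)) → (∀ n, tsupport (f n) ⊆ K) →
    (∀ᶠ n in atTop, ∀ z ∈ K', ∀ s > 0, ∫ w in K ∩ Metric.closedBall z s, ‖f n w‖ ≤ C * s) →
    ∃ C' : ℝ, ∀ᶠ n in atTop, ∫ z in K', ‖cauchy (f n) z‖ ^ 2 ≤ C'

/-- HOLB -/
def StmtHolB : Prop :=
  ∀ (V : Set ℂ) (α a b : ℕ → ℂ → ℂ), IsOpen V → (∀ n, ContDiff ℝ ∞ (α n)) →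
    (∀ n, ContDiff ℝ ∞ (a n)) → (∀ n, ContDiff ℝ ∞ (b n)) →
    (∀ n, ∀ z ∈ V, α n z = a n z + dz (b n) z) →
    (∀ K, IsCompact K → K ⊆ V → ∃ C : ℝ, ∀ᶠ n in atTop,
      (∫ z in K, ‖a n z‖) ≤ C ∧ (∫ z in K, ‖b n z‖) ≤ C) →
    L2b V (fun n z => dzb (α n) z) → L2b V α

/-- POTZ: potentials of a null triple -/
def StmtPotZ : Prop :=
  ∀ (V : Set ℂ) (σ : ℂ → ℝ) (N : ℤ) (A B C : ℕ → ℂ → ℂ), IsOpen V → ContDiff ℝ ∞ σ →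
    TripZ V σ N A B C → ∀ K, IsCompact K → K ⊆ V →
      ∃ (V' : Set ℂ) (x y : ℕ → ℂ → ℂ), IsOpen V' ∧ K ⊆ V' ∧ V' ⊆ V ∧ Pot V' σ N A B C x y

/-- POTB: potentials of a bounded triple -/
def StmtPotB : Prop :=
  ∀ (V : Set ℂ) (σ : ℂ → ℝ) (N : ℤ) (A B C : ℕ → ℂ → ℂ), IsOpen V → ContDiff ℝ ∞ σ →
    TripB V σ N A B C → ∀ K, IsCompact K → K ⊆ V →
      ∃ (V' : Set ℂ) (x y : ℕ → ℂ → ℂ), IsOpen V' ∧ K ⊆ V' ∧ V' ⊆ V ∧ PotB V' σ N A B C x y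

/-- NULZ: the quadratic form of a null and a bounded potential -/
def StmtNulZ : Prop :=
  ∀ (V : Set ℂ) (σ : ℂ → ℝ) (N : ℤ) (A B C x y A' B' C' x' y' : ℕ → ℂ → ℂ), IsOpen V →
    ContDiff ℝ ∞ σ → (∀ n, ContDiff ℝ ∞ (A n)) → (∀ n, ContDiff ℝ ∞ (B n)) →
    (∀ n, ContDiff ℝ ∞ (C n)) → (∀ n, ContDiff ℝ ∞ (A' n)) → (∀ n, ContDiff ℝ ∞ (B' n)) →
    (∀ n, ContDiff ℝ ∞ (C' n)) → Pot V σ N A B C x y → PotB V σ (-N) A' B' C' x' y' →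
    ∀ ζ : ℂ → ℂ, Test V ζ → Tendsto (fun n => ∫ z, ζ z *
      (A n z * C' n z + C n z * A' n z - 2 * (B n z * B' n z))) atTop (𝓝 0)

/-- NULB: the quadratic form of two bounded potentials -/
def StmtNulB : Prop :=
  ∀ (V : Set ℂ) (σ : ℂ → ℝ) (N : ℤ) (A B C x y A' B' C' x' y' : ℕ → ℂ → ℂ), IsOpen V →
    ContDiff ℝ ∞ σ → (∀ n, ContDiff ℝ ∞ (A n)) → (∀ n, ContDiff ℝ ∞ (B n)) →
    (∀ n, ContDiff ℝ ∞ (C n)) → (∀ n, ContDiff ℝ ∞ (A' n)) → (∀ n, ContDiff ℝ ∞ (B' n)) →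
    (∀ n, ContDiff ℝ ∞ (C' n)) → PotB V σ N A B C x y → PotB V σ (-N) A' B' C' x' y' →
    ∀ ζ : ℂ → ℂ, Test V ζ → ∃ c : ℝ, ∀ᶠ n in atTop, ‖∫ z, ζ z *
      (A n z * C' n z + C n z * A' n z - 2 * (B n z * B' n z))‖ ≤ c

/-- NF: the null form of two triples: it tends to zero if one of them is null, and is bounded -/
def StmtNf : Prop :=
  ∀ (V : Set ℂ) (σ : ℂ → ℝ) (N : ℤ) (A B C A' B' C' : ℕ → ℂ → ℂ), IsOpen V → ContDiff ℝ ∞ σ →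
    TripB V σ N A B C → TripB V σ (-N) A' B' C' → ∀ ζ : ℂ → ℂ, Test V ζ →
    (TripZ V σ N A B C ∨ TripZ V σ (-N) A' B' C' → Tendsto (fun n => ∫ z, ζ z *
      (A n z * C' n z + C n z * A' n z - 2 * (B n z * B' n z))) atTop (𝓝 0)) ∧
    ∃ c : ℝ, ∀ᶠ n in atTop, ‖∫ z, ζ z *
      (A n z * C' n z + C n z * A' n z - 2 * (B n z * B' n z))‖ ≤ c

/-- TRIQ: products of jets form triples -/
def StmtTriQ : Prop :=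
  ∀ (V : Set ℂ) (σ : ℂ → ℝ) (h : ℕ → ℝ) (φ : ℕ → ℂ → ℂ), LocB V σ h φ → ∀ j m : ℤ,
    TripB V σ (j + m)
      (fun n z => E σ h φ (j + 1) n z * E σ h φ (m + 1) n z)
      (fun n z => E σ h φ j n z * E σ h φ m n z)
      (fun n z => E σ h φ (j - 1) n z * E σ h φ (m - 1) n z)

/-! ### The fourth moments after multiplication by `h` -/

/-- HCL: the four-jet integrals multiplied by `h` are given by the class function -/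
def StmtHcl : Prop :=
  ∀ (V : Set ℂ) (σ : ℂ → ℝ) (h : ℕ → ℝ) (φ : ℕ → ℂ → ℂ), LocB V σ h φ → ∀ (ζ : ℂ → ℂ), Test V ζ →
    ∀ a b c d : ℤ, a + b + c + d = 0 → Tendsto (fun n =>
      (h n : ℂ) * (E4 σ h φ ζ a b c d n - cl4 a b c d * E4 σ h φ ζ 0 0 0 0 n)) atTop (𝓝 0)

/-- POI: slowly varying densities with linear growth are small -/
def StmtPoi : Prop :=
  ∀ (V : Set ℂ) (h : ℕ → ℝ) (U : ℕ → ℂ → ℝ), IsOpen V → (∀ n, 0 < h n) →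
    Tendsto h atTop (𝓝 0) → (∀ n, ContDiff ℝ ∞ (U n)) → (∀ n z, 0 ≤ U n z) →
    (∀ K, IsCompact K → K ⊆ V → ∃ C : ℝ, ∀ᶠ n in atTop, ∀ z ∈ K, ∀ s > 0,
      ∫ w in K ∩ Metric.closedBall z s, U n w ≤ C * s) →
    (∀ K, IsCompact K → K ⊆ V → Tendsto (fun n => h n * ∫ z in K,
      h n ^ 2 * (d1 (U n) z ^ 2 + d2 (U n) z ^ 2)) atTop (𝓝 0)) →
    ∀ K, IsCompact K → K ⊆ V → Tendsto (fun n => h n * ∫ z in K, U n z ^ 2) atTop (𝓝 0)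

/-- SML: `h ∫ RR² → 0` -/
def StmtSml : Prop :=
  ∀ (V : Set ℂ) (σ : ℂ → ℝ) (h : ℕ → ℝ) (φ : ℕ → ℂ → ℂ), LocB V σ h φ → Small V h φ

/-- IFOB: integration by parts for four and three jets -/
def StmtIfoB : Prop :=
  ∀ (V : Set ℂ) (σ : ℂ → ℝ) (h : ℕ → ℝ) (φ : ℕ → ℂ → ℂ), LocB V σ h φ → ∀ (ζ : ℂ → ℂ), Test V ζ →
    (∀ a b c d : ℤ, Tendsto (fun n =>
      E4 σ h φ ζ (a + 1) b c d n + E4 σ h φ ζ a (b + 1) c d n + E4 σ h φ ζ a b (c + 1) d n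
        + E4 σ h φ ζ a b c (d + 1) n) atTop (𝓝 0)) ∧
    (∀ a b c : ℤ, Tendsto (fun n => E3 σ h φ ζ (a + 1) b c n + E3 σ h φ ζ a (b + 1) c n
        + E3 σ h φ ζ a b (c + 1) n) atTop (𝓝 0)) ∧
    (∀ a b c : ℤ, Tendsto (fun n => E3 σ h φ ζ (a - 1) b c n + E3 σ h φ ζ a (b - 1) c n
        + E3 σ h φ ζ a b (c - 1) n) atTop (𝓝 0))

/-- ALTS: symmetric functions on `{a + b + c = s}` with the two recursions -/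
def StmtAltS : Prop :=
  ∀ (X : Type) [AddCommGroup X] [Module ℂ X] (e : ℤ → ℤ → ℤ → X) (s : ℤ),
    (∀ a b c, e b a c = e a b c) → (∀ a b c, e a c b = e a b c) →
    (∀ a b c, a + b + c = s - 1 → e (a + 1) b c + e a (b + 1) c + e a b (c + 1) = 0) →
    (∀ a b c, a + b + c = s + 1 → e (a - 1) b c + e a (b - 1) c + e a b (c - 1) = 0) →
    ∀ a b c, a + b + c = s →
      e a b c = if 3 ∣ s then cl3 b c • e (s / 3) (s / 3) (s / 3) else 0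

/-- E3S: the three-jet integrals in terms of those with equal spins -/
def StmtE3s : Prop :=
  ∀ (V : Set ℂ) (σ : ℂ → ℝ) (h : ℕ → ℝ) (φ : ℕ → ℂ → ℂ), LocB V σ h φ → ∀ (ζ : ℂ → ℂ), Test V ζ →
    ∀ a b c s : ℤ, a + b + c = s → Tendsto (fun n => E3 σ h φ ζ a b c n -
      (if 3 ∣ s then cl3 b c * E3 σ h φ ζ (s / 3) (s / 3) (s / 3) n else 0)) atTop (𝓝 0)

/-! ### B. The limit measure and its mollification -/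

/-- DIR: the properties of the limit measure -/
def StmtDir : Prop :=
  ∀ (V : Set ℂ) (σ : ℂ → ℝ) (h : ℕ → ℝ) (φ : ℕ → ℂ → ℂ) (Ω : Type) [MeasurableSpace Ω]
    (μ : Measure Ω) (p u : Ω → ℂ), LocB V σ h φ → LimM V σ h φ μ p u → DirM V σ μ p u

/-- KER: the transport of the kernel -/
def StmtKer : Prop :=
  ∀ (β : ℝ → ℝ) (σ : ℂ → ℝ) (k : ℤ) (K : Set ℂ), Bump β → ContDiff ℝ ∞ σ → IsCompact K →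
    ∃ C ε₀ : ℝ, 0 < C ∧ 0 < ε₀ ∧ ∀ ε, 0 < ε → ε < ε₀ → ∀ z ∈ K, ∀ w ∈ K,
      ‖Db σ (k + 1) (fun x => (ke β σ ε x w : ℂ) * (ta σ x w)⁻¹ ^ (k + 1)) z
        + ex σ 2 w * Db σ (-k) (fun y => (gb β σ ε z y : ℂ) * (ta σ z y)⁻¹ ^ k) w‖ ≤ C / ε ∧
      (C * ε < ‖w - z‖ →
        Db σ (k + 1) (fun x => (ke β σ ε x w : ℂ) * (ta σ x w)⁻¹ ^ (k + 1)) z
          + ex σ 2 w * Db σ (-k) (fun y => (gb β σ ε z y : ℂ) * (ta σ z y)⁻¹ ^ k) w = 0)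

/-- KEM: the same for the other operator -/
def StmtKem : Prop :=
  ∀ (β : ℝ → ℝ) (σ : ℂ → ℝ) (k : ℤ) (K : Set ℂ), Bump β → ContDiff ℝ ∞ σ → IsCompact K →
    ∃ C ε₀ : ℝ, 0 < C ∧ 0 < ε₀ ∧ ∀ ε, 0 < ε → ε < ε₀ → ∀ z ∈ K, ∀ w ∈ K,
      ‖D σ (k - 1) (fun x => (ke β σ ε x w : ℂ) * (ta σ x w)⁻¹ ^ (k - 1)) z
        + ex σ 2 w * D σ (-k) (fun y => (gb β σ ε z y : ℂ) * (ta σ z y)⁻¹ ^ k) w‖ ≤ C / ε ∧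
      (C * ε < ‖w - z‖ →
        D σ (k - 1) (fun x => (ke β σ ε x w : ℂ) * (ta σ x w)⁻¹ ^ (k - 1)) z
          + ex σ 2 w * D σ (-k) (fun y => (gb β σ ε z y : ℂ) * (ta σ z y)⁻¹ ^ k) w = 0)

/-- KSZ: the size of the kernel -/
def StmtKsz : Prop :=
  ∀ (β : ℝ → ℝ) (σ : ℂ → ℝ) (K : Set ℂ), Bump β → ContDiff ℝ ∞ σ → IsCompact K →
    ∃ C : ℝ, 0 < C ∧ ∀ ε, 0 < ε → ∀ z ∈ K, ∀ w ∈ K,
      0 ≤ ke β σ ε z w ∧ ke β σ ε z w ≤ C / ε ^ 2 ∧ (C * ε < ‖w - z‖ → ke β σ ε z w = 0) ∧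
      ‖ta σ z w - 1‖ ≤ C * ‖w - z‖ ∧ ‖(ta σ z w)⁻¹ - 1‖ ≤ C * ‖w - z‖

/-- PAR: integrals depending on a parameter -/
def StmtPar : Prop :=
  ∀ (Ω : Type) [MeasurableSpace Ω] (μ : Measure Ω) (p v : Ω → ℂ) (F : ℂ × ℂ → ℂ),
    μ Set.univ ≠ ⊤ → Measurable p → Measurable v → (∀ o, ‖v o‖ ≤ 1) →
    (∃ K, IsCompact K ∧ ∀ᵐ o ∂μ, p o ∈ K) → ContDiff ℝ ∞ F →
    ContDiff ℝ ∞ (fun z => ∫ o, F (z, p o) * v o ∂μ) ∧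
    (∀ z, dz (fun z => ∫ o, F (z, p o) * v o ∂μ) z = ∫ o, dz (fun x => F (x, p o)) z * v o ∂μ) ∧
    (∀ z, dzb (fun z => ∫ o, F (z, p o) * v o ∂μ) z = ∫ o, dzb (fun x => F (x, p o)) z * v o ∂μ)

/-- PES: the mollified moments are smooth, and their derivatives -/
def StmtPeS : Prop :=
  ∀ (β : ℝ → ℝ) (V : Set ℂ) (σ : ℂ → ℝ) (Ω : Type) [MeasurableSpace Ω] (μ : Measure Ω)
    (p u : Ω → ℂ), Bump β → ContDiff ℝ ∞ σ → DirM V σ μ p u → ∀ ε : ℝ, 0 < ε → ∀ k : ℤ,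
    ContDiff ℝ ∞ (pe β σ ε μ p u k) ∧
    (∀ (k' : ℤ) (z : ℂ), D σ k' (pe β σ ε μ p u k) z
      = ∫ o, D σ k' (fun x => (ke β σ ε x (p o) : ℂ) * (ta σ x (p o))⁻¹ ^ k) z * u o ^ k ∂μ) ∧
    (∀ (k' : ℤ) (z : ℂ), Db σ k' (pe β σ ε μ p u k) z
      = ∫ o, Db σ k' (fun x => (ke β σ ε x (p o) : ℂ) * (ta σ x (p o))⁻¹ ^ k) z * u o ^ k ∂μ)

/-- APX: the kernel is an approximation of the identity in the first variable -/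
def StmtApx : Prop :=
  ∀ (β : ℝ → ℝ) (σ : ℂ → ℝ) (k : ℤ) (ζ : ℂ → ℂ), Bump β → ContDiff ℝ ∞ σ → Continuous ζ →
    HasCompactSupport ζ →
    (∀ w, Tendsto (fun ε : ℝ => ∫ z, ζ z * ((ke β σ ε z w : ℂ) * (ta σ z w)⁻¹ ^ k)) (𝓝[>] 0)
      (𝓝 (ζ w))) ∧
    ∀ K, IsCompact K → ∃ C ε₀ : ℝ, 0 < ε₀ ∧ ∀ ε, 0 < ε → ε < ε₀ → ∀ w ∈ K,
      ∫ z, ‖ζ z‖ * ke β σ ε z w ≤ C

/-- PEG: linear growth of the mollified moments -/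
def StmtPeG : Prop :=
  ∀ (β : ℝ → ℝ) (V : Set ℂ) (σ : ℂ → ℝ) (Ω : Type) [MeasurableSpace Ω] (μ : Measure Ω)
    (p u : Ω → ℂ) (ε : ℕ → ℝ) (k : ℤ), Bump β → IsOpen V → ContDiff ℝ ∞ σ → DirM V σ μ p u →
    (∀ n, 0 < ε n) → Tendsto ε atTop (𝓝 0) → LG V (fun n => pe β σ (ε n) μ p u k)

/-- PET: transport of the mollified moments -/
def StmtPeT : Prop :=
  ∀ (β : ℝ → ℝ) (V : Set ℂ) (σ : ℂ → ℝ) (Ω : Type) [MeasurableSpace Ω] (μ : Measure Ω)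
    (p u : Ω → ℂ) (ε : ℕ → ℝ) (k : ℤ), Bump β → IsOpen V → ContDiff ℝ ∞ σ → DirM V σ μ p u →
    (∀ n, 0 < ε n) → Tendsto ε atTop (𝓝 0) →
    L2z V (fun n z => Db σ (k + 1) (pe β σ (ε n) μ p u (k + 1)) z
      - D σ (k - 1) (pe β σ (ε n) μ p u (k - 1)) z)

/-- PEW: weak convergence of the mollified moments -/
def StmtPeW : Prop :=
  ∀ (β : ℝ → ℝ) (V : Set ℂ) (σ : ℂ → ℝ) (Ω : Type) [MeasurableSpace Ω] (μ : Measure Ω)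
    (p u : Ω → ℂ) (ε : ℕ → ℝ) (k : ℤ), Bump β → ContDiff ℝ ∞ σ → DirM V σ μ p u →
    (∀ n, 0 < ε n) → Tendsto ε atTop (𝓝 0) → ∀ ζ : ℂ → ℂ, Continuous ζ → HasCompactSupport ζ →
    Tendsto (fun n => ∫ z, ζ z * pe β σ (ε n) μ p u k z) atTop (𝓝 (∫ o, ζ (p o) * u o ^ k ∂μ))

/-- PEO: the odd mollified moments vanish -/
def StmtPeO : Prop :=
  ∀ (β : ℝ → ℝ) (V : Set ℂ) (σ : ℂ → ℝ) (Ω : Type) [MeasurableSpace Ω] (μ : Measure Ω)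
    (p u : Ω → ℂ) (k : ℤ), Bump β → IsOpen V → ContDiff ℝ ∞ σ → DirM V σ μ p u → Odd k →
    ∀ K, IsCompact K → K ⊆ V → ∀ᶠ ε in 𝓝[>] (0 : ℝ), ∀ z ∈ K, pe β σ ε μ p u k z = 0

/-- TRIP: the triples of mollified moments -/
def StmtTriP : Prop :=
  ∀ (β : ℝ → ℝ) (V : Set ℂ) (σ : ℂ → ℝ) (Ω : Type) [MeasurableSpace Ω] (μ : Measure Ω)
    (p u : Ω → ℂ) (ε : ℕ → ℝ) (j m : ℤ), Bump β → IsOpen V → ContDiff ℝ ∞ σ → DirM V σ μ p u →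
    (∀ n, 0 < ε n) → Tendsto ε atTop (𝓝 0) →
    TripB V σ (j + m)
      (fun n z => (-1) ^ (m + 1) * pe β σ (ε n) μ p u (j + m + 2) z)
      (fun n z => (-1) ^ m * pe β σ (ε n) μ p u (j + m) z)
      (fun n z => (-1) ^ (m - 1) * pe β σ (ε n) μ p u (j + m - 2) z)

/-- TRID: the differences are null triples -/
def StmtTriD : Prop :=
  ∀ (β : ℝ → ℝ) (V : Set ℂ) (σ : ℂ → ℝ) (h : ℕ → ℝ) (φ : ℕ → ℂ → ℂ) (Ω : Type)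
    [MeasurableSpace Ω] (μ : Measure Ω) (p u : Ω → ℂ) (ε : ℕ → ℝ) (j m : ℤ), Bump β →
    LocB V σ h φ → LimM V σ h φ μ p u → (∀ n, 0 < ε n) → Tendsto ε atTop (𝓝 0) →
    TripZ V σ (j + m)
      (fun n z => E σ h φ (j + 1) n z * E σ h φ (m + 1) n z
        - (-1) ^ (m + 1) * pe β σ (ε n) μ p u (j + m + 2) z)
      (fun n z => E σ h φ j n z * E σ h φ m n z - (-1) ^ m * pe β σ (ε n) μ p u (j + m) z)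
      (fun n z => E σ h φ (j - 1) n z * E σ h φ (m - 1) n z
        - (-1) ^ (m - 1) * pe β σ (ε n) μ p u (j + m - 2) z)

/-! ### C. The four-jet integrals and the cubic inequality -/

/-- FOUB: the four-jet integrals -/
def StmtFouB : Prop :=
  ∀ (β : ℝ → ℝ) (V : Set ℂ) (σ : ℂ → ℝ) (h : ℕ → ℝ) (φ : ℕ → ℂ → ℂ) (Ω : Type)
    [MeasurableSpace Ω] (μ : Measure Ω) (p u : Ω → ℂ) (ε : ℕ → ℝ), Bump β →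
    LocB V σ h φ → LimM V σ h φ μ p u → (∀ n, 0 < ε n) → Tendsto ε atTop (𝓝 0) →
    ∀ ζ : ℂ → ℂ, Test V ζ → ∀ a b c d : ℤ, a + b + c + d = 0 →
    Tendsto (fun n => E4 σ h φ ζ a b c d n
      - ((∫ z, ζ z * wkp (pe β σ (ε n) μ p u) a b c d z)
        + cl4 a b c d * (E4 σ h φ ζ 0 0 0 0 n
          - ∫ z, ζ z * wkp (pe β σ (ε n) μ p u) 0 0 0 0 z))) atTop (𝓝 0)

/-- FIR: the bound of the kernel of the cubic argument -/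
def StmtFir : Prop :=
  ∀ η : ℝ, 0 < η → η ≤ 1 / 10 → ∃ C : ℝ, 0 < C ∧ ∀ M : ℕ, 6 ∣ M → 0 < M → ∀ t : ℂ, ‖t‖ = 1 →
    ‖FM M t‖ ≤ ‖t ^ 2 - 1‖ ^ 2 *
      (C * (M : ℝ) ^ 3 + (if ‖w3 * t - 1‖ < η then (M : ℝ) ^ 5 else 0))

/-- WKS: the sum of the Wick terms of the cubic argument -/
def StmtWks : Prop :=
  ∀ (Ω : Type) [MeasurableSpace Ω] (μ : Measure Ω) (κ : Ω → ℝ) (U : Ω → ℂ) (M : ℕ)
    (P : ℤ → ℂ → ℂ) (z : ℂ), μ Set.univ ≠ ⊤ → Integrable κ μ → Measurable U → (∀ o, ‖U o‖ = 1) →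
    (∀ k : ℤ, P k z = ∫ o, (κ o : ℂ) * U o ^ k ∂μ) → (∀ k : ℤ, Odd k → P k z = 0) → 6 ∣ M → 0 < M →
    ∑ c ∈ Finset.range M, ∑ b ∈ Finset.range M ×ˢ Finset.range M,
      ∑ b' ∈ Finset.range M ×ˢ Finset.range M,
        w3 ^ (((b.1 : ℤ) + b.2) - (b'.1 + b'.2)) * (-1) ^ c *
          wkp P (-((b.1 : ℤ) + b.2) - c) (b.1 + b.2) (b'.1 + b'.2 + c) (-((b'.1 : ℤ) + b'.2)) z
      = ∫ x : Ω × Ω, (κ x.1 * κ x.2 : ℝ) * FM M (U x.1 / U x.2) ∂(μ.prod μ)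

/-- CLS: the sums of the class functions of the cubic argument -/
def StmtCls : Prop :=
  ∀ M : ℕ, 6 ∣ M → 0 < M →
    (∑ c ∈ Finset.range M, ∑ b ∈ Finset.range M ×ˢ Finset.range M,
      ∑ b' ∈ Finset.range M ×ˢ Finset.range M,
        w3 ^ (((b.1 : ℤ) + b.2) - (b'.1 + b'.2)) * (-1) ^ c *
          cl4 (-((b.1 : ℤ) + b.2) - c) (b.1 + b.2) (b'.1 + b'.2 + c) (-((b'.1 : ℤ) + b'.2)) = 0) ∧
    (∑ c ∈ Finset.range M, ∑ b ∈ Finset.range M ×ˢ Finset.range M,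
        w3 ^ (((b.1 : ℤ) + b.2) - c) * cl3 (-((b.1 : ℤ) + b.2) - c) (b.1 + b.2)
      = (M : ℂ) ^ 3 / 2)

/-- JBD: the transversal part of the pairs is bounded -/
def StmtJbd : Prop :=
  ∀ (β : ℝ → ℝ) (V : Set ℂ) (σ : ℂ → ℝ) (Ω : Type) [MeasurableSpace Ω] (μ : Measure Ω)
    (p u : Ω → ℂ) (ε : ℕ → ℝ), Bump β → IsOpen V → ContDiff ℝ ∞ σ → DirM V σ μ p u →
    (∀ n, 0 < ε n) → Tendsto ε atTop (𝓝 0) → ∀ ζ : ℂ → ℂ, Test V ζ → ∃ c : ℝ, ∀ᶠ n in atTop,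
      ‖∫ z, ζ z * (2 * (pe β σ (ε n) μ p u 0 z * pe β σ (ε n) μ p u 0 z)
        - 2 * (pe β σ (ε n) μ p u 2 z * pe β σ (ε n) μ p u (-2) z))‖ ≤ c

/-- XBD: the pairs at about 120 degrees -/
def StmtXbd : Prop :=
  ∀ (β : ℝ → ℝ) (V : Set ℂ) (σ : ℂ → ℝ) (Ω : Type) [MeasurableSpace Ω] (μ : Measure Ω)
    (p u : Ω → ℂ) (K : Set ℂ), Bump β → ContDiff ℝ ∞ σ → DirM V σ μ p u → IsCompact K →
    ∃ C : ℝ, 0 < C ∧ ∀ ζ : ℂ → ℝ, Continuous ζ → (∀ z, 0 ≤ ζ z ∧ ζ z ≤ 1) → tsupport ζ ⊆ K →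
    ∀ O : Set ℂ, IsOpen O → tsupport ζ ⊆ O → ∀ η : ℝ, 0 < η → ∀ b : ℝ, 0 ≤ b →
    (∀ᶠ ε in 𝓝[>] (0 : ℝ),
      ((μ.prod μ) {x | p x.1 ∈ O ∧ ‖p x.1 - p x.2‖ ≤ ε ∧ ‖w3 * u x.1 - u x.2‖ ≤ 2 * η}).toReal
        ≤ b * ε ^ 2) →
    ∀ᶠ ε in 𝓝[>] (0 : ℝ),
      ∫ z, ζ z * ∫ x : Ω × Ω, ke β σ ε z (p x.1) * ke β σ ε z (p x.2) *
        (if ‖w3 * (((ta σ z (p x.1))⁻¹ * u x.1) / ((ta σ z (p x.2))⁻¹ * u x.2)) - 1‖ < η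
          then 1 else 0) ∂(μ.prod μ) ≤ C * b

/-- CUBI: the cubic inequality -/
def StmtCubI : Prop :=
  ∀ (V : Set ℂ) (σ : ℂ → ℝ) (h : ℕ → ℝ) (φ : ℕ → ℂ → ℂ) (Ω : Type) [MeasurableSpace Ω]
    (μ : Measure Ω) (p u : Ω → ℂ), LocB V σ h φ → LimM V σ h φ μ p u →
    ∀ K, IsCompact K → K ⊆ V → ∃ C : ℝ, 0 < C ∧
    ∀ ζ : ℂ → ℝ, Test V (fun z => (ζ z : ℂ)) → (∀ z, 0 ≤ ζ z ∧ ζ z ≤ 1) → tsupport ζ ⊆ K →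
    ∀ O : Set ℂ, IsOpen O → tsupport ζ ⊆ O → ∀ (J : Finset ℤ) (f : ℤ → ℂ → ℂ),
    (∀ j, ContDiff ℝ ∞ (f j)) → ∀ η : ℝ, 0 < η → ∀ b : ℝ, 0 ≤ b →
    (∀ᶠ ε in 𝓝[>] (0 : ℝ),
      ((μ.prod μ) {x | p x.1 ∈ O ∧ ‖p x.1 - p x.2‖ ≤ ε ∧ ‖w3 * u x.1 - u x.2‖ ≤ η}).toReal
        ≤ b * ε ^ 2) →
    ∀ δ > 0, ∀ᶠ n in atTop, ‖TT σ h φ J (fun j z => (ζ z : ℂ) * f j z) n‖ ^ 2
      ≤ C * b * (∫ o, ζ (p o) * ‖∑ j ∈ J, f j (p o) * u o ^ j‖ ^ 2 ∂μ) + δ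

/-! ### E. The last step -/

/-- DENS: density of the trigonometric polynomials with test functions as coefficients -/
def StmtDens : Prop :=
  ∀ (O : Set ℂ) (θ : Measure (ℂ × ℂ)), IsOpen O → θ Set.univ ≠ ⊤ → θ {x | ‖x.2‖ ≠ 1} = 0 →
    ∀ F : ℂ × ℂ → ℂ, Measurable F → (∃ C : ℝ, ∀ x, ‖F x‖ ≤ C) → (∀ x, x.1 ∉ O → F x = 0) →
    ∀ ε > 0, ∃ (J : Finset ℤ) (f : ℤ → ℂ → ℂ), (∀ j, Test O (f j)) ∧
      ∫ x, ‖F x - ∑ j ∈ J, f j x.1 * x.2 ^ j‖ ^ 2 ∂θ ≤ ε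

/-- ENDL: an invariant functional carried by geodesic arcs vanishes -/
def StmtEnd : Prop :=
  ∀ (V : Set ℂ) (Ω : Type) [MeasurableSpace Ω] (μ : Measure Ω) (p u : Ω → ℂ)
    (t : ℤ → (ℂ → ℂ) → ℂ) (G : ℕ → Set ℂ) (B : Set (ℂ × ℂ)),
    IsOpen V → μ Set.univ ≠ ⊤ → Measurable p → Measurable u → (∀ o, ‖u o‖ = 1) →
    (∀ j ζ ζ', Test V ζ → Test V ζ' → t j (fun z => ζ z + ζ' z) = t j ζ + t j ζ') →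
    (∀ j (c : ℂ) ζ, Test V ζ → t j (fun z => c * ζ z) = c * t j ζ) →
    (∀ j ζ, Test V ζ → ¬ (3 : ℤ) ∣ j → t j ζ = 0) →
    (∀ K, IsCompact K → K ⊆ V → ∃ C : ℝ, ∀ ζ : ℂ → ℝ, Test V (fun z => (ζ z : ℂ)) →
      (∀ z, 0 ≤ ζ z ∧ ζ z ≤ 1) → tsupport ζ ⊆ K → ∀ (J : Finset ℤ) (f : ℤ → ℂ → ℂ),
      (∀ j, ContDiff ℝ ∞ (f j)) → ‖∑ j ∈ J, t j (fun z => (ζ z : ℂ) * f j z)‖ ^ 2
        ≤ C * ∫ o, ζ (p o) * ‖∑ j ∈ J, f j (p o) * u o ^ j‖ ^ 2 ∂μ) →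
    (∀ K, IsCompact K → K ⊆ V → ∀ δ > 0, ∃ N, ∀ ζ : ℂ → ℝ, Test V (fun z => (ζ z : ℂ)) →
      (∀ z, 0 ≤ ζ z ∧ ζ z ≤ 1) → tsupport ζ ⊆ K → Disjoint (tsupport ζ) (G N) →
      ∀ (J : Finset ℤ) (f : ℤ → ℂ → ℂ), (∀ j, ContDiff ℝ ∞ (f j)) →
      ‖∑ j ∈ J, t j (fun z => (ζ z : ℂ) * f j z)‖ ^ 2
        ≤ δ * ∫ o, ζ (p o) * ‖∑ j ∈ J, f j (p o) * u o ^ j‖ ^ 2 ∂μ) →
    (∀ N, IsClosed (G N)) → MeasurableSet B →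
    (∀ N, μ {o | p o ∈ G N ∧ (p o, u o) ∉ B} = 0) →
    μ {o | (p o, u o) ∈ B ∧ (p o, w3 * u o) ∈ B} = 0 →
    ∀ j ζ, Test V ζ → t j ζ = 0

/-- E3Z: the local theorem -/
def StmtE3z : Prop :=
  ∀ (V : Set ℂ) (σ : ℂ → ℝ) (h : ℕ → ℝ) (φ : ℕ → ℂ → ℂ) (Ω : Type) [MeasurableSpace Ω]
    (μ : Measure Ω) (p u : Ω → ℂ) (G : ℕ → Set ℂ) (B : Set (ℂ × ℂ)), LocB V σ h φ →
    LimM V σ h φ μ p u → GeoM V μ p u G B → ∀ (ζ : ℂ → ℂ), Test V ζ → ∀ a b c : ℤ,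
      Tendsto (E3 σ h φ ζ a b c) atTop (𝓝 0)

end

end U3
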