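import Pool.Agent.U3.DefsG
import Pool.Agent.U3.Stmts
import Pool.Agent.QJ.Stmts3

/-!
Third order statistics of all eigenfunctions on surfaces of negative curvature: statements of the
transfer to the local waves.
-/

open MeasureTheory Filter Topology Set UpperHalfPlane MatrixGroups
open scoped ContDiff

namespace U3

open QE QJ

noncomputable section

/-! ### Derivatives -/

/-- LWU: the local theorem for mixed derivatives on an open set -/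
def StmtLwU : Prop :=
  ∀ (U : Set ℂ) (g : ℂ → ℝ) (h : ℕ → ℝ) (φ : ℕ → ℂ → ℂ), IsOpen U → ContDiffOn ℝ ∞ g U →
    (∀ z ∈ U, 0 < g z) → LocU U g h φ → ∀ (ζ : ℂ → ℂ), Test U ζ →
    (∀ a b : ℕ, Tendsto (fun n => ∫ z, ζ z * Wg g h φ a b n z) atTop (𝓝 0)) ∧
    (∀ a b : Fin 2 → ℕ, ∑ i, ((a i : ℤ) - b i) = 0 → Tendsto (fun n => (∫ z, ζ z *
      ∏ i, Wg g h φ (a i) (b i) n z) - (∏ i, cW (a i) (b i))
        * QJ.P ((a 0 : ℤ) - b 0) ((a 1 : ℤ) - b 1) * ∫ z, ζ z * φ n z ^ 2) atTop (𝓝 0)) ∧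
    (E3V U g h φ → ∀ a b : Fin 3 → ℕ, Tendsto (fun n => ∫ z, ζ z *
      ∏ i, Wg g h φ (a i) (b i) n z) atTop (𝓝 0))

/-- LWEU: products of at most four mixed derivatives, multiplied by `h`, are small in `L¹_loc` -/
def StmtLweU : Prop :=
  ∀ (U : Set ℂ) (g : ℂ → ℝ) (h : ℕ → ℝ) (φ : ℕ → ℂ → ℂ), IsOpen U → ContDiffOn ℝ ∞ g U →
    (∀ z ∈ U, 0 < g z) → LocU U g h φ → ∀ K, IsCompact K → K ⊆ U →
    ∀ (r : ℕ) (a b : Fin r → ℕ), r ≤ 4 →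
      Tendsto (fun n => h n * ∫ z in K, ‖∏ i, W h φ (a i) (b i) n z‖) atTop (𝓝 0)

/-- MAINU: the mean over the angle of a product of at most four derivatives of the local wave -/
def StmtMainU : Prop :=
  ∀ (ρ : ℍ → ℝ) (φ : ℕ → ℍ → ℝ) (m : ℕ → ℝ),
    ContDiffOn ℝ ∞ (fun w : ℂ => ρ (ofComplex w)) {w | 0 < w.im} → (∀ n, 0 < m n) →
    (∀ n, ContDiffOn ℝ ∞ (fun w : ℂ => φ n (ofComplex w)) {w | 0 < w.im}) →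
    LocU {z | 0 < z.im} (fun z => Real.exp (2 * ρ (ofComplex z)) / z.im ^ 2)
      (fun n => 1 / m n) (fun n z => (φ n (ofComplex z) : ℂ)) →
    ∀ (r : ℕ) (k : Fin r → ℕ) (v : ∀ i, Fin (k i) → ℂ), r ≤ 4 →
      ∀ ψ : ℂ → ℝ, ContDiff ℝ ∞ ψ → HasCompactSupport ψ → tsupport ψ ⊆ {w | 0 < w.im} →
      Tendsto (fun n => ((∫ z, ψ z * angJet ρ (φ n) (m n) k v (ofComplex z) : ℝ) : ℂ)
        - ∑ a ∈ Fintype.piFinset fun i => Finset.range (k i + 1),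
          if ∑ i, ((a i : ℤ) - (k i - a i : ℕ)) = 0 then
            (∏ i, sc (v i) (a i)) * ∫ z, (ψ z : ℂ) * ∏ i,
              Wg (fun z => Real.exp (2 * ρ (ofComplex z)) / z.im ^ 2) (fun n => 1 / m n)
                (fun n z => (φ n (ofComplex z) : ℂ)) (a i) (k i - a i) n z
          else 0) atTop (𝓝 0)

/-- LOGU: the local theorem for the derivatives of the local waves, and for the directional
derivatives of the eigenfunctions -/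
def StmtLogU : Prop :=
  ∀ (ρ : ℍ → ℝ) (φ : ℕ → ℍ → ℝ) (m : ℕ → ℝ),
    ContDiffOn ℝ ∞ (fun w : ℂ => ρ (ofComplex w)) {w | 0 < w.im} → (∀ n, 0 < m n) →
    (∀ n, ContDiffOn ℝ ∞ (fun w : ℂ => φ n (ofComplex w)) {w | 0 < w.im}) →
    LocU {z | 0 < z.im} (fun z => Real.exp (2 * ρ (ofComplex z)) / z.im ^ 2)
      (fun n => 1 / m n) (fun n z => (φ n (ofComplex z) : ℂ)) →
    E3V {z | 0 < z.im} (fun z => Real.exp (2 * ρ (ofComplex z)) / z.im ^ 2)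
      (fun n => 1 / m n) (fun n z => (φ n (ofComplex z) : ℂ)) →
    ∀ ψ : ℂ → ℝ, ContDiff ℝ ∞ ψ → HasCompactSupport ψ → tsupport ψ ⊆ {w | 0 < w.im} →
    (∀ (k : Fin 1 → ℕ) (v : ∀ i, Fin (k i) → ℂ),
      Tendsto (fun n => ∫ z, ψ z * angJet ρ (φ n) (m n) k v (ofComplex z)) atTop (𝓝 0)) ∧
    (∀ (k : Fin 2 → ℕ) (v : ∀ i, Fin (k i) → ℂ),
      Tendsto (fun n => (∫ z, ψ z * angJet ρ (φ n) (m n) k v (ofComplex z))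
        - covar (v 0) (v 1) * ∫ z, ψ z * φ n (ofComplex z) ^ 2) atTop (𝓝 0)) ∧
    (∀ (k : Fin 3 → ℕ) (v : ∀ i, Fin (k i) → ℂ),
      Tendsto (fun n => ∫ z, ψ z * angJet ρ (φ n) (m n) k v (ofComplex z)) atTop (𝓝 0)) ∧
    (∀ (k : Fin 3 → ℕ) (v : ∀ i, Fin (k i) → ℂ),
      Tendsto (fun n => ∫ z, ψ z * ∏ i, (1 / m n) ^ k i *
        iteratedFDeriv ℝ (k i) (fun w : ℂ => φ n (ofComplex w)) z (v i)) atTop (𝓝 0))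

/-! ### Distinct points -/

/-- DSPB: the jets at displaced points are dominated -/
def StmtDspB : Prop :=
  ∀ (V : Set ℂ) (σ : ℂ → ℝ) (h : ℕ → ℝ) (φ : ℕ → ℂ → ℂ), LocB V σ h φ → ∀ K, IsCompact K → K ⊆ V →
    ∀ (N : ℕ) (R : ℝ), ∃ S : ℕ → ℂ → ℝ, (∀ n z, 1 ≤ S n z) ∧ (∀ n, Continuous (S n)) ∧
      (∀ᶠ n in atTop, ∀ z ∈ K, ∀ y : ℂ, ‖y‖ ≤ R → z + h n * y ∈ V ∧ RR h φ N n (z + h n * y) ≤ S n z) ∧
      Tendsto (fun n => h n * ∫ z in K, S n z ^ 2) atTop (𝓝 0)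

/-- DERB: the derivatives of the displaced integrals with respect to the displacement -/
def StmtDerB : Prop :=
  ∀ (V : Set ℂ) (σ : ℂ → ℝ) (h : ℕ → ℝ) (φ : ℕ → ℂ → ℂ), LocB V σ h φ → ∀ (ζ : ℂ → ℂ), Test V ζ →
    ∀ (r : ℕ) (x : Fin r → ℂ) (j : Fin r → ℤ), r ≤ 4 →
      (∀ n, ContDiff ℝ 1 (Aj σ h φ ζ x j n)) ∧
      ∀ ε > 0, ∀ᶠ n in atTop, ∀ l : ℂ, ‖l‖ ≤ 1 →
        ‖2 * dz (Aj σ h φ ζ x j n) l - ∑ i, x i * Aj σ h φ ζ x (j + Pi.single i 1) n l‖ ≤ ε ∧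
        ‖2 * dzb (Aj σ h φ ζ x j n) l
          + ∑ i, (starRingEnd ℂ) (x i) * Aj σ h φ ζ x (j - Pi.single i 1) n l‖ ≤ ε

/-- RELB: the translation relations at displaced points -/
def StmtRelB : Prop :=
  ∀ (V : Set ℂ) (σ : ℂ → ℝ) (h : ℕ → ℝ) (φ : ℕ → ℂ → ℂ), LocB V σ h φ → ∀ (ζ : ℂ → ℂ), Test V ζ →
    ∀ (r : ℕ) (x : Fin r → ℂ) (j : Fin r → ℤ), r ≤ 4 → ∀ ε > 0, ∀ᶠ n in atTop, ∀ l : ℂ, ‖l‖ ≤ 1 →
      ‖∑ i, Aj σ h φ ζ x (j + Pi.single i 1) n l‖ ≤ ε ∧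
      ‖∑ i, Aj σ h φ ζ x (j - Pi.single i 1) n l‖ ≤ ε

/-- TPC: one, two and three points -/
def StmtTpc : Prop :=
  ∀ (V : Set ℂ) (σ : ℂ → ℝ) (h : ℕ → ℝ) (φ : ℕ → ℂ → ℂ), LocB V σ h φ → ∀ (ζ : ℂ → ℂ), Test V ζ →
    (∀ x : Fin 1 → ℂ, Tendsto (fun n => ∫ θ, Aj σ h φ ζ x 0 n (uu θ ^ 2) ∂angle) atTop (𝓝 0)) ∧
    (∀ x : Fin 2 → ℂ, Tendsto (fun n => (∫ θ, Aj σ h φ ζ x 0 n (uu θ ^ 2) ∂angle)
      - (Berry.waveK (x 0 - x 1) : ℂ) * ∫ z, ζ z * φ n z ^ 2) atTop (𝓝 0)) ∧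
    ((∀ a b c : ℤ, Tendsto (E3 σ h φ ζ a b c) atTop (𝓝 0)) →
      ∀ x : Fin 3 → ℂ, Tendsto (fun n => ∫ θ, Aj σ h φ ζ x 0 n (uu θ ^ 2) ∂angle) atTop (𝓝 0))

/-- TLU: the local theorem at distinct points -/
def StmtTlU : Prop :=
  ∀ (U : Set ℂ) (g : ℂ → ℝ) (h : ℕ → ℝ) (φ : ℕ → ℂ → ℂ), IsOpen U → ContDiffOn ℝ ∞ g U →
    (∀ z ∈ U, 0 < g z) → LocU U g h φ → ∀ (ζ : ℂ → ℂ), Test U ζ →
    (∀ x : Fin 1 → ℂ, Tendsto (fun n => ∫ θ, (∫ z, ζ z * PD g h φ x n θ z) ∂angle) atTop (𝓝 0)) ∧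
    (∀ x : Fin 2 → ℂ, Tendsto (fun n => (∫ θ, (∫ z, ζ z * PD g h φ x n θ z) ∂angle)
      - (Berry.waveK (x 0 - x 1) : ℂ) * ∫ z, ζ z * φ n z ^ 2) atTop (𝓝 0)) ∧
    (E3V U g h φ →
      ∀ x : Fin 3 → ℂ, Tendsto (fun n => ∫ θ, (∫ z, ζ z * PD g h φ x n θ z) ∂angle) atTop (𝓝 0))

/-- DSUU: the functions and their first derivatives at displaced points are dominated -/
def StmtDsuU : Prop :=
  ∀ (U : Set ℂ) (g : ℂ → ℝ) (h : ℕ → ℝ) (φ : ℕ → ℂ → ℂ), IsOpen U → ContDiffOn ℝ ∞ g U →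
    (∀ z ∈ U, 0 < g z) → LocU U g h φ → ∀ K, IsCompact K → K ⊆ U → ∀ R : ℝ,
    ∃ S : ℕ → ℂ → ℝ, (∀ n z, 1 ≤ S n z) ∧ (∀ n, Continuous (S n)) ∧
      (∀ᶠ n in atTop, ∀ z ∈ K, ∀ y : ℂ, ‖y‖ ≤ R → z + h n * y ∈ U ∧
        ‖φ n (z + h n * y)‖ ^ 2 ≤ S n z ∧ ‖(h n : ℂ) * dz (φ n) (z + h n * y)‖ ^ 2 ≤ S n z ∧
        ‖(h n : ℂ) * dzb (φ n) (z + h n * y)‖ ^ 2 ≤ S n z) ∧
      Tendsto (fun n => h n * ∫ z in K, S n z ^ 2) atTop (𝓝 0)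

/-- PTSU: the local theorem for the local waves at distinct points -/
def StmtPtsU : Prop :=
  ∀ (ρ : ℍ → ℝ) (φ : ℕ → ℍ → ℝ) (m : ℕ → ℝ),
    ContDiffOn ℝ ∞ (fun w : ℂ => ρ (ofComplex w)) {w | 0 < w.im} → (∀ n, 0 < m n) →
    (∀ n, ContDiffOn ℝ ∞ (fun w : ℂ => φ n (ofComplex w)) {w | 0 < w.im}) →
    LocU {z | 0 < z.im} (fun z => Real.exp (2 * ρ (ofComplex z)) / z.im ^ 2)
      (fun n => 1 / m n) (fun n z => (φ n (ofComplex z) : ℂ)) →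
    E3V {z | 0 < z.im} (fun z => Real.exp (2 * ρ (ofComplex z)) / z.im ^ 2)
      (fun n => 1 / m n) (fun n z => (φ n (ofComplex z) : ℂ)) →
    ∀ ψ : ℂ → ℝ, ContDiff ℝ ∞ ψ → HasCompactSupport ψ → tsupport ψ ⊆ {w | 0 < w.im} →
    (∀ x : Fin 1 → ℂ,
      Tendsto (fun n => ∫ z, ψ z * angProd ρ (φ n) (m n) x (ofComplex z)) atTop (𝓝 0)) ∧
    (∀ x : Fin 2 → ℂ,
      Tendsto (fun n => (∫ z, ψ z * angProd ρ (φ n) (m n) x (ofComplex z))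
        - Berry.waveK (x 0 - x 1) * ∫ z, ψ z * φ n (ofComplex z) ^ 2) atTop (𝓝 0)) ∧
    (∀ x : Fin 3 → ℂ,
      Tendsto (fun n => ∫ z, ψ z * angProd ρ (φ n) (m n) x (ofComplex z)) atTop (𝓝 0))

/-! ### Closed surfaces -/

/-- SRF: the hypotheses `LocU` for normalised eigenfunctions of closed surfaces -/
def StmtSrf : Prop :=
  ∀ (Γ : Subgroup SL(2, ℝ)) [Countable Γ] (D : Set ℍ) (ρ : ℍ → ℝ) (φ : ℕ → ℍ → ℝ) (m : ℕ → ℝ),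
    MeasurableSet D → IsFundamentalDomain Γ D (volume : Measure ℍ) →
    (∃ K : Set ℍ, IsCompact K ∧ ∀ z, ∃ γ ∈ Γ, γ • z ∈ K) →
    ContDiffOn ℝ ∞ (fun w : ℂ => ρ (ofComplex w)) {w | 0 < w.im} →
    (∀ γ ∈ Γ, ∀ z, ρ (γ • z) = ρ z) → Berry.REigenSeq Γ ρ φ m →
    (∀ n, ContDiffOn ℝ ∞ (fun w : ℂ => φ n (ofComplex w)) {w | 0 < w.im}) →
    (∀ n, Berry.rAvg ρ D (fun z => φ n z ^ 2) = 1) →
    ∃ N : ℕ, (∀ n, 0 < m (n + N)) ∧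
      LocU {z | 0 < z.im} (fun z => Real.exp (2 * ρ (ofComplex z)) / z.im ^ 2)
        (fun n => 1 / m (n + N)) (fun n z => (φ (n + N) (ofComplex z) : ℂ))

/-- FNU: the final theorem -/
def StmtFnU : Prop :=
  ∀ (Γ : Subgroup SL(2, ℝ)) [Countable Γ] (D : Set ℍ) (ρ : ℍ → ℝ) (φ : ℕ → ℍ → ℝ) (m : ℕ → ℝ),
    MeasurableSet D → IsFundamentalDomain Γ D (volume : Measure ℍ) →
    (∃ K : Set ℍ, IsCompact K ∧ ∀ z, ∃ γ ∈ Γ, γ • z ∈ K) →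
    ContDiffOn ℝ ∞ (fun w : ℂ => ρ (ofComplex w)) {w | 0 < w.im} →
    (∀ γ ∈ Γ, ∀ z, ρ (γ • z) = ρ z) →
    (∀ z : ℍ, 0 < 1 + z.im ^ 2 * Laplacian.laplacian (fun w : ℂ => ρ (ofComplex w)) z) →
    Berry.REigenSeq Γ ρ φ m →
    (∀ n, ContDiffOn ℝ ∞ (fun w : ℂ => φ n (ofComplex w)) {w | 0 < w.im}) →
    (∀ n, Berry.rAvg ρ D (fun z => φ n z ^ 2) = 1) →
    ∀ w : ℍ → ℝ, ContDiffOn ℝ ∞ (fun z : ℂ => w (ofComplex z)) {z | 0 < z.im} →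
    (∀ γ ∈ Γ, ∀ z, w (γ • z) = w z) →
    (∀ x : ℂ, Tendsto (fun n => ∫ p, w p.1 * Berry.rWave ρ (φ n) (m n) x p
      ∂(Berry.rFrameProb ρ D)) atTop (𝓝 0)) ∧
    (∀ x y : ℂ, Tendsto (fun n => (∫ p, w p.1 * (Berry.rWave ρ (φ n) (m n) x p
        * Berry.rWave ρ (φ n) (m n) y p) ∂(Berry.rFrameProb ρ D))
      - Berry.waveK (x - y) * Berry.rAvg ρ D (fun z => w z * φ n z ^ 2)) atTop (𝓝 0)) ∧
    (∀ x y z : ℂ, Tendsto (fun n => ∫ p, w p.1 * (Berry.rWave ρ (φ n) (m n) x p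
        * Berry.rWave ρ (φ n) (m n) y p * Berry.rWave ρ (φ n) (m n) z p)
          ∂(Berry.rFrameProb ρ D)) atTop (𝓝 0)) ∧
    (∀ (k : Fin 1 → ℕ) (v : ∀ i, Fin (k i) → ℂ), Tendsto (fun n =>
      ∫ p, w p.1 * jetProd k v (fun x => Berry.rWave ρ (φ n) (m n) x p) ∂(Berry.rFrameProb ρ D))
        atTop (𝓝 0)) ∧
    (∀ (k : Fin 2 → ℕ) (v : ∀ i, Fin (k i) → ℂ), Tendsto (fun n =>
      (∫ p, w p.1 * jetProd k v (fun x => Berry.rWave ρ (φ n) (m n) x p) ∂(Berry.rFrameProb ρ D))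
        - covar (v 0) (v 1) * Berry.rAvg ρ D (fun z => w z * φ n z ^ 2)) atTop (𝓝 0)) ∧
    (∀ (k : Fin 3 → ℕ) (v : ∀ i, Fin (k i) → ℂ), Tendsto (fun n =>
      ∫ p, w p.1 * jetProd k v (fun x => Berry.rWave ρ (φ n) (m n) x p) ∂(Berry.rFrameProb ρ D))
        atTop (𝓝 0))

/-- FND: the directional form of the final theorem -/
def StmtFnd : Prop :=
  ∀ (Γ : Subgroup SL(2, ℝ)) [Countable Γ] (D : Set ℍ) (ρ : ℍ → ℝ) (φ : ℕ → ℍ → ℝ) (m : ℕ → ℝ),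
    MeasurableSet D → IsFundamentalDomain Γ D (volume : Measure ℍ) →
    (∃ K : Set ℍ, IsCompact K ∧ ∀ z, ∃ γ ∈ Γ, γ • z ∈ K) →
    ContDiffOn ℝ ∞ (fun w : ℂ => ρ (ofComplex w)) {w | 0 < w.im} →
    (∀ γ ∈ Γ, ∀ z, ρ (γ • z) = ρ z) →
    (∀ z : ℍ, 0 < 1 + z.im ^ 2 * Laplacian.laplacian (fun w : ℂ => ρ (ofComplex w)) z) →
    Berry.REigenSeq Γ ρ φ m →
    (∀ n, ContDiffOn ℝ ∞ (fun w : ℂ => φ n (ofComplex w)) {w | 0 < w.im}) →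
    (∀ n, Berry.rAvg ρ D (fun z => φ n z ^ 2) = 1) →
    ∀ ψ : ℂ → ℝ, ContDiff ℝ ∞ ψ → HasCompactSupport ψ → tsupport ψ ⊆ {w | 0 < w.im} →
    ∀ (k : Fin 3 → ℕ) (v : ∀ i, Fin (k i) → ℂ),
      Tendsto (fun n => ∫ z, ψ z * ∏ i, (1 / m n) ^ k i *
        iteratedFDeriv ℝ (k i) (fun w : ℂ => φ n (ofComplex w)) z (v i)) atTop (𝓝 0)

end

end U3
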